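import Pool.Agent.Work.MP_bf99ce_cx.Stat

/-!
# THEOREM CX (MP_bf99ce_ag): the common definitions of the parts V, E, S, T

The surface `X : x_3^3 = a(x_0,x_1,x_2), x_4^3 = b(x_0,x_1,x_2)` with
`a = -3 x_0^3 + 3 x_1^3 + x_2^3 + ε x_0 x_1 x_2`, `b = -3 x_0^3 + x_1^3 + 3 x_2^3`.
-/

set_option autoImplicit false

noncomputable section

open MvPolynomial

namespace Pool.CX

/-- The value of `a` at a point. -/
def av {S : Type} [CommRing S] (ε : S) (x : Fin 5 → S) : S :=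
  -3 * x 0 ^ 3 + 3 * x 1 ^ 3 + x 2 ^ 3 + ε * (x 0 * x 1 * x 2)

/-- The value of `b` at a point. -/
def bv {S : Type} [CommRing S] (x : Fin 5 → S) : S :=
  -3 * x 0 ^ 3 + x 1 ^ 3 + 3 * x 2 ^ 3

/-- The derivative of `a` at `x` in the direction `y`. -/
def dav {S : Type} [CommRing S] (ε : S) (x y : Fin 5 → S) : S :=
  -9 * x 0 ^ 2 * y 0 + 9 * x 1 ^ 2 * y 1 + 3 * x 2 ^ 2 * y 2 + ε * (y 0 * x 1 * x 2 + x 0 * y 1 * x 2 + x 0 * x 1 * y 2)

/-- The derivative of `b` at `x` in the direction `y`. -/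
def dbv {S : Type} [CommRing S] (x y : Fin 5 → S) : S :=
  -9 * x 0 ^ 2 * y 0 + 3 * x 1 ^ 2 * y 1 + 9 * x 2 ^ 2 * y 2

/-- `x` is on the cone over `X`. -/
def OnX {S : Type} [CommRing S] (ε : S) (x : Fin 5 → S) : Prop := x 3 ^ 3 = av ε x ∧ x 4 ^ 3 = bv x

/-- `y` is tangent to the cone over `X` at `x`. -/
def TanX {S : Type} [CommRing S] (ε : S) (x y : Fin 5 → S) : Prop :=
  3 * x 3 ^ 2 * y 3 = dav ε x y ∧ 3 * x 4 ^ 2 * y 4 = dbv x y

/-- Polynomials in `x_0, …, x_4` (`Sum.inl`) and `y_0, …, y_4` (`Sum.inr`). -/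
abbrev P10 (k : Type) [CommRing k] := MvPolynomial (Fin 5 ⊕ Fin 5) k

/-- `f` is bihomogeneous: degree `d` in the first variables and degree `m` in the second variables. -/
def Bihom {k : Type} [CommRing k] {ι κ : Type} [Fintype ι] [Fintype κ] (d m : ℕ) (f : MvPolynomial (ι ⊕ κ) k) : Prop :=
  ∀ s ∈ f.support, (∑ i, s (Sum.inl i)) = d ∧ (∑ i, s (Sum.inr i)) = m

/-- **PART E (existence).** For `ε^3 ≠ 243` and every `m` there is a polynomial `f`, bihomogeneous of bidegree `(7, m)`, whose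
derivative in the direction `x` vanishes on the tangent bundle of the cone and which does not vanish at the generic point. -/
def Stmt_E : Prop :=
  ∀ (k : Type) [Field k] [CharZero k] (ε : k), ε ^ 3 ≠ 243 → ∀ m : ℕ, ∃ f : P10 k, Bihom 7 m f ∧
    (∀ (S : Type) [CommRing S] [IsDomain S] [Algebra k S] (x y : Fin 5 → S), x 3 ≠ 0 → x 4 ≠ 0 →
      OnX (algebraMap k S ε) x → TanX (algebraMap k S ε) x y →
      ∑ i, x i * aeval (Sum.elim x y) (pderiv (Sum.inr i) f) = 0) ∧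
    (∀ (S : Type) [Field S] [Algebra k S] (x : Fin 5 → S), x 0 = 1 → AlgebraicIndependent k ![x 1, x 2] →
      OnX (algebraMap k S ε) x → ∃ y : Fin 5 → S, TanX (algebraMap k S ε) x y ∧ aeval (Sum.elim x y) f ≠ 0)

/-- Polynomials in `x_0, x_1, x_2` (`Sum.inl`) and `v_0, v_1, v_2` (`Sum.inr`). -/
abbrev P6 (k : Type) [CommRing k] := MvPolynomial (Fin 3 ⊕ Fin 3) k

/-- The variable `x_i`. -/
def Xx {k : Type} [CommRing k] (i : Fin 3) : P6 k := X (Sum.inl i)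

/-- The variable `v_i`. -/
def Vv {k : Type} [CommRing k] (i : Fin 3) : P6 k := X (Sum.inr i)

/-- The polynomial `a`. -/
def aP {k : Type} [CommRing k] (ε : k) : P6 k :=
  -3 * Xx 0 ^ 3 + 3 * Xx 1 ^ 3 + Xx 2 ^ 3 + C ε * (Xx 0 * Xx 1 * Xx 2)

/-- The polynomial `b`. -/
def bP {k : Type} [CommRing k] : P6 k := -3 * Xx 0 ^ 3 + Xx 1 ^ 3 + 3 * Xx 2 ^ 3

/-- The derivative `ξ_p = ∑ v_i ∂p/∂x_i` of a polynomial `p`. -/
def dv {k : Type} [CommRing k] (p : P6 k) : P6 k := ∑ i, Vv i * pderiv (Sum.inl i) p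

/-- The derivative `∑ x_i ∂P/∂v_i`. -/
def eul {k : Type} [CommRing k] (P : P6 k) : P6 k := ∑ i, Xx i * pderiv (Sum.inr i) P

/-- The ideal generated by the products `p^j ξ_p^l` with `3 j + 2 l ≥ w`. -/
def Iw {k : Type} [CommRing k] (p : P6 k) (w : ℕ) : Ideal (P6 k) :=
  Ideal.span {q | ∃ j l : ℕ, w ≤ 3 * j + 2 * l ∧ q = p ^ j * dv p ^ l}

/-- **PART V (vanishing, Theorem V).** Let `ε` be transcendental over `ℚ`, `P` bihomogeneous of bidegree `(d, m)`, `m ≥ 1`, with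
`∑ x_i ∂P/∂v_i = 0`, `x_0^N P ∈ I_w(a)`, `x_0^N P ∈ I_w'(b)` and `d ≤ w + w'`. Then `P = 0`. -/
def Stmt_V : Prop :=
  ∀ (k : Type) [Field k] [CharZero k] (ε : k), Transcendental ℚ ε → ∀ (d m w w' N : ℕ) (P : P6 k), 1 ≤ m → d ≤ w + w' →
    Bihom d m P → eul P = 0 → Xx 0 ^ N * P ∈ Iw (aP ε) w → Xx 0 ^ N * P ∈ Iw (bP (k := k)) w' → P = 0

end Pool.CX
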