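import Pool.Agent.Work.MP_bf99ce_cx.DefsE
import Pool.Agent.Work.MP_bf99ce_cxe.Interface2

set_option autoImplicit false

noncomputable section

open MvPolynomial

namespace Pool.CX

theorem EBridge (h : Pool.CXE.Stmt_EU) : Stmt_E' := by
  intro k _ _ ε hε m
  refine h k ε ?_ m
  intro h0
  apply hε
  refine ⟨Polynomial.C 315 * Polynomial.X ^ 3 + Polynomial.C 46656, ?_, ?_⟩
  · intro hz
    have := congrArg (fun p => Polynomial.coeff p 0) hz
    simp at this
  · simpa using h0

end Pool.CX
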