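import Pool.Agent.Work.MP_bf99ce_cx.InterfaceS

/-!
# THEOREM CX, block AIN
-/

set_option autoImplicit false

noncomputable section

open MvPolynomial TensorProduct

namespace Pool.CXS

open Pool.CX

/-- the subalgebra generated by the two coordinates -/
def AIN_A {K : Type} [Field K] [Algebra ℂ K] (x' : Fin 5 → K) : Subalgebra ℂ K :=
  Algebra.adjoin ℂ (Set.range ![x' 1, x' 2])

theorem AIN_ind {K : Type} [Field K] [Algebra ℂ K] {x x' : Fin 5 → K}
    (h : AlgebraicIndependent ℂ ![x 1, x 2, x' 1, x' 2]) :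
    AlgebraicIndependent (AIN_A x') ![x 1, x 2] := by
  have h1 : AlgebraicIndependent ℂ (Sum.elim ![x 1, x 2] ![x' 1, x' 2]) := by
    have h2 := h.comp (finSumFinEquiv : Fin 2 ⊕ Fin 2 ≃ Fin 4) (Equiv.injective _)
    convert h2 using 1
    funext s
    rcases s with s | s
    · fin_cases s <;> rfl
    · fin_cases s <;> rfl
  exact (AlgebraicIndependent.sumElim_iff.1 h1).2

theorem AIN_x1 {K : Type} [Field K] [Algebra ℂ K] (x' : Fin 5 → K) : x' 1 ∈ AIN_A x' :=
  Algebra.subset_adjoin ⟨0, rfl⟩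

theorem AIN_x2 {K : Type} [Field K] [Algebra ℂ K] (x' : Fin 5 → K) : x' 2 ∈ AIN_A x' :=
  Algebra.subset_adjoin ⟨1, rfl⟩

theorem AIN_three {K : Type} [Field K] [Algebra ℂ K] (x' : Fin 5 → K) : (3 : K) ∈ AIN_A x' := by
  have h := (AIN_A x').algebraMap_mem (3 : ℂ)
  rwa [map_ofNat] at h

/-- elements of the subalgebra are algebraic -/
theorem AIN_alg {K : Type} [Field K] [Algebra ℂ K] (x' : Fin 5 → K) {z : K} (hz : z ∈ AIN_A x') :
    IsAlgebraic (AIN_A x') z := isAlgebraic_algebraMap (⟨z, hz⟩ : AIN_A x')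

theorem AIN_coord {K : Type} [Field K] [Algebra ℂ K] (ε : ℂ) (x' : Fin 5 → K) (h0 : x' 0 = 1)
    (hon : OnX (algebraMap ℂ K ε) x') (i : Fin 5) : IsAlgebraic (AIN_A x') (x' i) := by
  have h1 := AIN_x1 x'
  have h2 := AIN_x2 x'
  have h3 := AIN_three x'
  have he := (AIN_A x').algebraMap_mem ε
  fin_cases i
  · show IsAlgebraic (AIN_A x') (x' 0)
    rw [h0]
    exact AIN_alg x' (one_mem _)
  · exact AIN_alg x' h1
  · exact AIN_alg x' h2
  · show IsAlgebraic (AIN_A x') (x' 3)
    refine IsAlgebraic.of_pow (n := 3) (by norm_num) ?_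
    rw [hon.1]
    apply AIN_alg
    unfold av
    rw [h0]
    exact add_mem (add_mem (add_mem (mul_mem (neg_mem h3) (pow_mem (one_mem _) _))
      (mul_mem h3 (pow_mem h1 _))) (pow_mem h2 _)) (mul_mem he (mul_mem (mul_mem (one_mem _) h1) h2))
  · show IsAlgebraic (AIN_A x') (x' 4)
    refine IsAlgebraic.of_pow (n := 3) (by norm_num) ?_
    rw [hon.2]
    apply AIN_alg
    unfold bv
    rw [h0]
    exact add_mem (add_mem (mul_mem (neg_mem h3) (pow_mem (one_mem _) _)) (pow_mem h1 _))
      (mul_mem h3 (pow_mem h2 _))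

theorem p_AIN : Stmt_AIN := by
  intro K _ _ ε x x' hM
  have hind := AIN_ind hM.ai
  have hle : AIN_A x' ≤ (IntermediateField.adjoin ℂ (Set.range x')).toSubalgebra := by
    refine Algebra.adjoin_le ?_
    rintro _ ⟨i, rfl⟩
    fin_cases i
    · exact IntermediateField.subset_adjoin ℂ _ ⟨1, rfl⟩
    · exact IntermediateField.subset_adjoin ℂ _ ⟨2, rfl⟩
  letI : Algebra (AIN_A x') (IntermediateField.adjoin ℂ (Set.range x')) :=
    (Subalgebra.inclusion hle).toRingHom.toAlgebra
  haveI : IsScalarTower (AIN_A x') (IntermediateField.adjoin ℂ (Set.range x')) K :=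
    IsScalarTower.of_algebraMap_eq fun _ => rfl
  have hK : ∀ z ∈ IntermediateField.adjoin ℂ (Set.range x'), IsAlgebraic (AIN_A x') z := by
    intro z hz
    induction hz using IntermediateField.adjoin_induction with
    | mem z hz =>
      obtain ⟨i, rfl⟩ := hz
      exact AIN_coord ε x' hM.one' hM.on' i
    | algebraMap c => exact AIN_alg x' ((AIN_A x').algebraMap_mem c)
    | add a b _ _ ha hb => exact ha.add hb
    | inv a _ ha => exact ha.inv
    | mul a b _ _ ha hb => exact ha.mul hb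
  haveI : Algebra.IsAlgebraic (AIN_A x') (IntermediateField.adjoin ℂ (Set.range x')) := by
    refine ⟨fun z => ?_⟩
    rw [← isAlgebraic_algHom_iff
      (IsScalarTower.toAlgHom (AIN_A x') (IntermediateField.adjoin ℂ (Set.range x')) K)
      Subtype.val_injective]
    exact hK z.1 z.2
  exact hind.extendScalars _

end Pool.CXS
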