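import Pool.Agent.Work.MP_bf99ce_cx.InterfaceS

set_option autoImplicit false

noncomputable section

open MvPolynomial TensorProduct

namespace Pool.CXS

open Pool.CX

theorem END_GP {K : Type} [Field K] [Algebra ℂ K] {ε : ℂ} {x x' : Fin 5 → K} (h : Model K ε x x') : GP ε x :=
  ⟨h.one, by
    have h1 := h.ai.comp ![0, 1] (by decide)
    have e : (![x 1, x 2, x' 1, x' 2] ∘ ![0, 1]) = ![x 1, x 2] := by
      funext i
      fin_cases i <;> rfl
    rw [e] at h1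
    exact h1, h.on⟩

theorem END_GP' {K : Type} [Field K] [Algebra ℂ K] {ε : ℂ} {x x' : Fin 5 → K} (h : Model K ε x x') : GP ε x' :=
  ⟨h.one', by
    have h1 := h.ai.comp ![2, 3] (by decide)
    have e : (![x 1, x 2, x' 1, x' 2] ∘ ![2, 3]) = ![x' 1, x' 2] := by
      funext i
      fin_cases i <;> rfl
    rw [e] at h1
    exact h1, h.on'⟩

theorem p_END (h1 : Stmt_TRA) (h2 : Stmt_MOD) (h4 : Stmt_MNU) (h5 : Stmt_PRO) (h6 : Stmt_FRA) (h7 : Stmt_TRD) :
    Stmt_END := by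
  obtain ⟨ε, hε⟩ := h1
  obtain ⟨K, iK, iA, x, x', hM⟩ := h2 ε
  refine ⟨ε, hε, K, iK, iA, x, x', hM, ?_, h7 K ε x x' hM, h4 K ε x hε (END_GP hM), h4 K ε x' hε (END_GP' hM)⟩
  exact ⟨fun i => mul_ne_zero (hM.ne _) (hM.ne' _), fun i z => h6 K ε x x' hM i z, fun i => h5 K ε x x' hε hM i⟩

end Pool.CXS
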