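import Pool.Agent.Work.MP_bf99ce_cx.InterfaceS

/-!
# THEOREM CX, part S: block FRA, the function field
-/

set_option autoImplicit false

noncomputable section

open MvPolynomial TensorProduct

namespace Pool.CXS

open Pool.CX

theorem FRA_adj {K : Type} [Field K] [Algebra ℂ K] (R : Subalgebra ℂ K) (s : Set K)
    (hs : ∀ y ∈ s, ∃ a b : R, (b : K) ≠ 0 ∧ y = a / b) :
    ∀ z ∈ Algebra.adjoin ℂ s, ∃ a b : R, (b : K) ≠ 0 ∧ z = a / b := by
  intro z hz
  induction hz using Algebra.adjoin_induction with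
  | mem x hx => exact hs x hx
  | algebraMap r =>
    refine ⟨algebraMap ℂ R r, 1, ?_, ?_⟩
    · show (1 : K) ≠ 0
      exact one_ne_zero
    · show algebraMap ℂ K r = algebraMap ℂ K r / 1
      rw [div_one]
  | add x y _ _ hx hy =>
    obtain ⟨a, b, hb, rfl⟩ := hx
    obtain ⟨a', b', hb', rfl⟩ := hy
    refine ⟨a * b' + a' * b, b * b', ?_, ?_⟩
    · show (b : K) * b' ≠ 0
      exact mul_ne_zero hb hb'
    · show (a : K) / b + a' / b' = ((a : K) * b' + a' * b) / (b * b')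
      field_simp
  | mul x y _ _ hx hy =>
    obtain ⟨a, b, hb, rfl⟩ := hx
    obtain ⟨a', b', hb', rfl⟩ := hy
    refine ⟨a * a', b * b', ?_, ?_⟩
    · show (b : K) * b' ≠ 0
      exact mul_ne_zero hb hb'
    · show (a : K) / b * (a' / b') = ((a : K) * a') / (b * b')
      field_simp

theorem p_FRA : Stmt_FRA := by
  intro K _ _ ε x x' hM i z
  have hgen : ∀ j, seg x x' j / seg x x' i ∈ chart (seg x x') i := fun j =>
    Algebra.subset_adjoin ⟨j, rfl⟩
  have hi : seg x x' i ≠ 0 := mul_ne_zero (hM.ne _) (hM.ne' _)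
  have h00 : seg x x' (0, 0) = 1 := by
    show x 0 * x' 0 = 1
    rw [hM.one, hM.one', one_mul]
  have hs : ∀ y ∈ Set.range x ∪ Set.range x', ∃ a b : chart (seg x x') i,
      (b : K) ≠ 0 ∧ y = a / b := by
    rintro y (⟨l, rfl⟩ | ⟨l, rfl⟩)
    · refine ⟨⟨_, hgen (l, 0)⟩, ⟨_, hgen (0, 0)⟩, ?_, ?_⟩
      · show seg x x' (0, 0) / seg x x' i ≠ 0
        rw [h00]
        exact one_div_ne_zero hi
      · show x l = (x l * x' 0 / seg x x' i) / (seg x x' (0, 0) / seg x x' i)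
        rw [h00, hM.one']
        field_simp
    · refine ⟨⟨_, hgen (0, l)⟩, ⟨_, hgen (0, 0)⟩, ?_, ?_⟩
      · show seg x x' (0, 0) / seg x x' i ≠ 0
        rw [h00]
        exact one_div_ne_zero hi
      · show x' l = (x 0 * x' l / seg x x' i) / (seg x x' (0, 0) / seg x x' i)
        rw [h00, hM.one]
        field_simp
  obtain ⟨a, b, ha, hb, hb0, rfl⟩ := hM.gen z
  obtain ⟨a1, a2, ha2, rfl⟩ := FRA_adj _ _ hs a ha
  obtain ⟨b1, b2, hb2, rfl⟩ := FRA_adj _ _ hs b hb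
  have hb1 : (b1 : K) ≠ 0 := fun h => hb0 (by rw [h, zero_div])
  refine ⟨a1 * b2, a2 * b1, ?_, ?_⟩
  · show (a2 : K) * b1 ≠ 0
    exact mul_ne_zero ha2 hb1
  · show (a1 : K) / a2 / (b1 / b2) = ((a1 : K) * b2) / (a2 * b1)
    field_simp

end Pool.CXS
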