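import Pool.Agent.Work.MP_bf99ce_cx.InterfaceS

/-! THEOREM CX, part S, block HOM (helper4). -/

set_option autoImplicit false

noncomputable section

open MvPolynomial TensorProduct

namespace Pool.CXS

open Pool.CX

/-- `a` as a polynomial in three variables. -/
def HOM_a {k : Type} [Field k] (ε : k) : MvPolynomial (Fin 3) k :=
  -3 * X 0 ^ 3 + 3 * X 1 ^ 3 + X 2 ^ 3 + C ε * (X 0 * X 1 * X 2)

/-- `b` as a polynomial in three variables. -/
def HOM_b {k : Type} [Field k] : MvPolynomial (Fin 3) k :=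
  -3 * X 0 ^ 3 + X 1 ^ 3 + 3 * X 2 ^ 3

lemma HOM_ha {k : Type} [Field k] (ε : k) : (HOM_a ε).IsHomogeneous 3 := by
  have h0 : ∀ (c : k) (i : Fin 3), (C c * X i ^ 3 : MvPolynomial (Fin 3) k).IsHomogeneous 3 := by
    intro c i
    have h := (isHomogeneous_C (Fin 3) c).mul ((isHomogeneous_X k i).pow 3)
    simpa using h
  have h1 : (C ε * (X 0 * X 1 * X 2) : MvPolynomial (Fin 3) k).IsHomogeneous 3 := by
    have h := (isHomogeneous_C (Fin 3) ε).mul
      (((isHomogeneous_X k (0 : Fin 3)).mul (isHomogeneous_X k 1)).mul (isHomogeneous_X k 2))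
    simpa using h
  have e : HOM_a ε = C (-3) * X 0 ^ 3 + C 3 * X 1 ^ 3 + C 1 * X 2 ^ 3 + C ε * (X 0 * X 1 * X 2) := by
    unfold HOM_a
    simp only [map_neg, map_ofNat, map_one]
    ring
  rw [e]
  exact (((h0 _ 0).add (h0 _ 1)).add (h0 _ 2)).add h1

lemma HOM_hb {k : Type} [Field k] : (HOM_b (k := k)).IsHomogeneous 3 := by
  have h0 : ∀ (c : k) (i : Fin 3), (C c * X i ^ 3 : MvPolynomial (Fin 3) k).IsHomogeneous 3 := by
    intro c i
    have h := (isHomogeneous_C (Fin 3) c).mul ((isHomogeneous_X k i).pow 3)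
    simpa using h
  have e : (HOM_b (k := k)) = C (-3) * X 0 ^ 3 + C 1 * X 1 ^ 3 + C 3 * X 2 ^ 3 := by
    unfold HOM_b
    simp only [map_neg, map_ofNat, map_one]
    ring
  rw [e]
  exact ((h0 _ 0).add (h0 _ 1)).add (h0 _ 2)

/-- The inclusion of the first three variables. -/
def HOM_r {k : Type} [Field k] : MvPolynomial (Fin 3) k →ₐ[k] MvPolynomial (Fin 5) k := aeval ![X 0, X 1, X 2]

lemma HOM_ra {k : Type} [Field k] (ε : k) : HOM_r (HOM_a ε) = av (C ε) (X : Fin 5 → MvPolynomial (Fin 5) k) := by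
  have e0 : HOM_r (k := k) (X 0) = X 0 := by simp [HOM_r]
  have e1 : HOM_r (k := k) (X 1) = X 1 := by simp [HOM_r]
  have e2 : HOM_r (k := k) (X 2) = X 2 := by simp [HOM_r]
  have ec : HOM_r (k := k) (C ε) = C ε := by simp [HOM_r]
  unfold HOM_a av
  simp only [map_add, map_mul, map_neg, map_pow, map_ofNat, e0, e1, e2, ec]

lemma HOM_rb {k : Type} [Field k] : HOM_r (HOM_b (k := k)) = bv (X : Fin 5 → MvPolynomial (Fin 5) k) := by
  have e0 : HOM_r (k := k) (X 0) = X 0 := by simp [HOM_r]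
  have e1 : HOM_r (k := k) (X 1) = X 1 := by simp [HOM_r]
  have e2 : HOM_r (k := k) (X 2) = X 2 := by simp [HOM_r]
  unfold HOM_b bv
  simp only [map_add, map_mul, map_neg, map_pow, map_ofNat, e0, e1, e2]

/-- The normal form. -/
def HOM_sum {k : Type} [Field k] (H : Fin 3 → Fin 3 → MvPolynomial (Fin 3) k) : MvPolynomial (Fin 5) k :=
  ∑ p : Fin 3, ∑ q : Fin 3, HOM_r (H p q) * (X 3 ^ (p : ℕ) * X 4 ^ (q : ℕ))

/-- Reduction modulo `F`, `G`. -/
lemma HOM_red {k : Type} [Field k] (ε : k) (N : ℕ) (h : MvPolynomial (Fin 5) k) (hh : h.IsHomogeneous N) :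
    ∃ H : Fin 3 → Fin 3 → MvPolynomial (Fin 3) k, (∀ p q, ∀ s ∈ (H p q).support, (∑ i, s i) + p + q = N) ∧
      h - HOM_sum H ∈ Ideal.span {FX ε, GX} := by
  classical
  set I : Ideal (MvPolynomial (Fin 5) k) := Ideal.span {FX ε, GX} with hI
  have hF : FX ε ∈ I := Ideal.subset_span (by simp)
  have hG : GX (k := k) ∈ I := Ideal.subset_span (by simp)
  -- one monomial
  have hmon : ∀ (s : Fin 5 →₀ ℕ) (c : k), (∑ i, s i = N) →
      ∃ H : Fin 3 → Fin 3 → MvPolynomial (Fin 3) k, (∀ p q, ∀ s ∈ (H p q).support, (∑ i, s i) + p + q = N) ∧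
        monomial s c - HOM_sum H ∈ I := by
    intro s c hs
    set u := s 3 / 3 with hu
    set v := s 4 / 3 with hv
    let p₀ : Fin 3 := ⟨s 3 % 3, Nat.mod_lt _ (by norm_num)⟩
    let q₀ : Fin 3 := ⟨s 4 % 3, Nat.mod_lt _ (by norm_num)⟩
    have hp : s 3 = 3 * u + (p₀ : ℕ) := (Nat.div_add_mod _ _).symm
    have hq : s 4 = 3 * v + (q₀ : ℕ) := (Nat.div_add_mod _ _).symm
    let M : MvPolynomial (Fin 3) k := C c * (X 0 ^ s 0 * X 1 ^ s 1 * X 2 ^ s 2) * (HOM_a ε ^ u * HOM_b ^ v)
    have hM : M.IsHomogeneous (s 0 + s 1 + s 2 + (3 * u + 3 * v)) := by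
      have h1 := (isHomogeneous_C (Fin 3) c).mul ((((isHomogeneous_X k (0 : Fin 3)).pow (s 0)).mul
        ((isHomogeneous_X k (1 : Fin 3)).pow (s 1))).mul ((isHomogeneous_X k (2 : Fin 3)).pow (s 2)))
      have h2 := ((HOM_ha ε).pow u).mul ((HOM_hb (k := k)).pow v)
      have h3 := h1.mul h2
      have e : 0 + (1 * s 0 + 1 * s 1 + 1 * s 2) + (3 * u + 3 * v) = s 0 + s 1 + s 2 + (3 * u + 3 * v) := by ring
      rw [e] at h3
      exact h3
    refine ⟨fun p q => if p = p₀ ∧ q = q₀ then M else 0, ?_, ?_⟩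
    · intro p q t ht
      beta_reduce at ht
      by_cases hpq : p = p₀ ∧ q = q₀
      · rw [if_pos hpq] at ht
        obtain ⟨rfl, rfl⟩ := hpq
        have h1 := hM (mem_support_iff.1 ht)
        rw [Finsupp.weight_apply, Finsupp.sum_fintype _ _ (fun i => by simp)] at h1
        have h2 : ∑ i, t i = s 0 + s 1 + s 2 + (3 * u + 3 * v) := by
          rw [← h1]
          simp
        rw [h2, ← hs, Fin.sum_univ_five]
        omega
      · rw [if_neg hpq] at ht
        simp at ht
    · have hsum : HOM_sum (fun p q => if p = p₀ ∧ q = q₀ then M else 0) =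
          HOM_r M * (X 3 ^ (p₀ : ℕ) * X 4 ^ (q₀ : ℕ)) := by
        unfold HOM_sum
        rw [Finset.sum_eq_single p₀, Finset.sum_eq_single q₀]
        · simp
        · intro q _ hq
          simp [hq]
        · simp
        · intro p _ hp
          refine Finset.sum_eq_zero fun q _ => ?_
          simp [hp]
        · simp
      rw [hsum, ← Ideal.Quotient.eq_zero_iff_mem, map_sub, sub_eq_zero]
      set π := Ideal.Quotient.mk I with hπ
      have e3 : π (X 3) ^ 3 = π (HOM_r (HOM_a ε)) := by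
        rw [← map_pow, HOM_ra, ← sub_eq_zero, ← map_sub]
        exact Ideal.Quotient.eq_zero_iff_mem.2 hF
      have e4 : π (X 4) ^ 3 = π (HOM_r HOM_b) := by
        rw [← map_pow, HOM_rb, ← sub_eq_zero, ← map_sub]
        exact Ideal.Quotient.eq_zero_iff_mem.2 hG
      have hr0 : HOM_r (k := k) (X 0) = X 0 := by simp [HOM_r]
      have hr1 : HOM_r (k := k) (X 1) = X 1 := by simp [HOM_r]
      have hr2 : HOM_r (k := k) (X 2) = X 2 := by simp [HOM_r]
      have hrc : HOM_r (k := k) (C c) = C c := by simp [HOM_r]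
      have hmo : monomial s c = C c * (X 0 ^ s 0 * X 1 ^ s 1 * X 2 ^ s 2) *
          ((X 3 ^ 3) ^ u * (X 4 ^ 3) ^ v) * (X 3 ^ (p₀ : ℕ) * X 4 ^ (q₀ : ℕ)) := by
        rw [monomial_eq, Finsupp.prod_fintype _ _ (fun i => pow_zero _), Fin.prod_univ_five]
        rw [← pow_mul, ← pow_mul]
        nth_rewrite 1 [hp]
        nth_rewrite 1 [hq]
        rw [pow_add, pow_add]
        ring
      rw [hmo]
      show π _ = π _
      simp only [M, map_mul, map_pow, hr0, hr1, hr2, hrc, e3, e4]
  -- sums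
  have hall : ∀ T : Finset (Fin 5 →₀ ℕ), (∀ s ∈ T, ∑ i, s i = N) →
      ∃ H : Fin 3 → Fin 3 → MvPolynomial (Fin 3) k, (∀ p q, ∀ s ∈ (H p q).support, (∑ i, s i) + p + q = N) ∧
        ∑ s ∈ T, monomial s (coeff s h) - HOM_sum H ∈ I := by
    intro T
    induction T using Finset.induction_on with
    | empty =>
      intro _
      refine ⟨fun _ _ => 0, fun p q s hs => by simp at hs, ?_⟩
      simp [HOM_sum]
    | insert s T hsT ih =>
      intro hT
      obtain ⟨H1, h1, h1'⟩ := ih fun t ht => hT t (Finset.mem_insert_of_mem ht)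
      obtain ⟨H2, h2, h2'⟩ := hmon s (coeff s h) (hT s (Finset.mem_insert_self _ _))
      refine ⟨fun p q => H2 p q + H1 p q, fun p q t ht => ?_, ?_⟩
      · rcases Finset.mem_union.1 (support_add ht) with ht | ht
        · exact h2 p q t ht
        · exact h1 p q t ht
      · rw [Finset.sum_insert hsT]
        have e : HOM_sum (fun p q => H2 p q + H1 p q) = HOM_sum H2 + HOM_sum H1 := by
          unfold HOM_sum
          simp only [map_add, add_mul, Finset.sum_add_distrib]
        rw [e]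
        have e2 : monomial s (coeff s h) + ∑ s ∈ T, monomial s (coeff s h) - (HOM_sum H2 + HOM_sum H1) =
            (monomial s (coeff s h) - HOM_sum H2) + (∑ s ∈ T, monomial s (coeff s h) - HOM_sum H1) := by ring
        rw [e2]
        exact I.add_mem h2' h1'
  obtain ⟨H, h1, h2⟩ := hall h.support fun s hs => by
    have h3 := hh (mem_support_iff.1 hs)
    rw [Finsupp.weight_apply, Finsupp.sum_fintype _ _ (fun i => by simp)] at h3
    rw [← h3]
    simp
  refine ⟨H, h1, ?_⟩
  rw [← h.as_sum] at h2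
  exact h2

/-- The projection of the exponents. -/
def HOM_pr (s : Fin 3 →₀ ℕ) : Fin 2 →₀ ℕ := Finsupp.equivFunOnFinite.symm ![s 1, s 2]

/-- Dehomogenisation is injective on homogeneous polynomials. -/
lemma HOM_deh {k : Type} [Field k] (n : ℕ) (H : MvPolynomial (Fin 3) k) (hH : ∀ s ∈ H.support, ∑ i, s i = n)
    (h0 : aeval (![1, X 0, X 1] : Fin 3 → MvPolynomial (Fin 2) k) H = 0) : H = 0 := by
  classical
  have hD : ∀ (s : Fin 3 →₀ ℕ) (c : k), aeval (![1, X 0, X 1] : Fin 3 → MvPolynomial (Fin 2) k) (monomial s c) =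
      monomial (HOM_pr s) c := by
    intro s c
    rw [aeval_monomial, monomial_eq, Finsupp.prod_fintype _ _ (fun i => pow_zero _),
      Finsupp.prod_fintype _ _ (fun i => pow_zero _), Fin.prod_univ_three, Fin.prod_univ_two]
    simp [HOM_pr]
  have hsum : ∑ s ∈ H.support, monomial (HOM_pr s) (coeff s H) = 0 := by
    rw [← h0]
    conv_rhs => rw [H.as_sum]
    rw [map_sum]
    exact Finset.sum_congr rfl fun s _ => (hD s _).symm
  rw [← support_eq_empty, Finset.eq_empty_iff_forall_notMem]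
  intro t ht
  have h1 := congrArg (coeff (HOM_pr t)) hsum
  rw [coeff_zero, coeff_sum, Finset.sum_eq_single t] at h1
  · rw [coeff_monomial, if_pos rfl] at h1
    exact mem_support_iff.1 ht h1
  · intro s hs hst
    rw [coeff_monomial, if_neg]
    intro heq
    apply hst
    have e1 : s 1 = t 1 := DFunLike.congr_fun heq 0
    have e2 : s 2 = t 2 := DFunLike.congr_fun heq 1
    have e3 := hH s hs
    have e4 := hH t ht
    rw [Fin.sum_univ_three] at e3 e4
    have e5 : s 0 = t 0 := by omega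
    ext i
    fin_cases i
    · exact e5
    · exact e1
    · exact e2
  · intro h
    exact absurd ht h

theorem p_HOM (h1 : Stmt_IND) : Stmt_HOM := by
  intro k L _ _ _ _ ε x hx N h hh h0
  obtain ⟨H, hH, hI⟩ := HOM_red ε N h hh
  have hker : ∀ g ∈ Ideal.span {FX ε, GX}, aeval x g = 0 := by
    intro g hg
    obtain ⟨a, b, rfl⟩ := Ideal.mem_span_pair.1 hg
    have hF : aeval x (FX ε) = 0 := by
      have e : aeval x (FX ε) = x 3 ^ 3 - av (algebraMap k L ε) x := by
        unfold FX av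
        simp
      rw [e, hx.onX.1, sub_self]
    have hG : aeval x (GX (k := k)) = 0 := by
      have e : aeval x (GX (k := k)) = x 4 ^ 3 - bv x := by
        unfold GX bv
        simp
      rw [e, hx.onX.2, sub_self]
    rw [map_add, map_mul, map_mul, hF, hG, mul_zero, mul_zero, add_zero]
  have h2 : aeval x (HOM_sum H) = 0 := by
    have h3 := hker _ hI
    rw [map_sub, h0, zero_sub, neg_eq_zero] at h3
    exact h3
  have h4 : ∀ p q, aeval (![1, X 0, X 1] : Fin 3 → MvPolynomial (Fin 2) k) (H p q) = 0 := by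
    refine h1 k L ε x hx (fun p q => aeval (![1, X 0, X 1] : Fin 3 → MvPolynomial (Fin 2) k) (H p q)) ?_
    rw [← h2]
    unfold HOM_sum
    rw [map_sum]
    refine Finset.sum_congr rfl fun p _ => ?_
    rw [map_sum]
    refine Finset.sum_congr rfl fun q _ => ?_
    rw [map_mul, map_mul, map_pow, map_pow, aeval_X, aeval_X]
    congr 1
    have e : ((aeval ![x 1, x 2] : MvPolynomial (Fin 2) k →ₐ[k] L).comp
        (aeval (![1, X 0, X 1] : Fin 3 → MvPolynomial (Fin 2) k))) = (aeval x).comp HOM_r := by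
      refine MvPolynomial.algHom_ext fun i => ?_
      fin_cases i
      · simp [HOM_r, hx.x0]
      · simp [HOM_r]
      · simp [HOM_r]
    exact DFunLike.congr_fun e (H p q)
  have h5 : ∀ p q, H p q = 0 := by
    intro p q
    refine HOM_deh (N - (p : ℕ) - (q : ℕ)) (H p q) (fun s hs => ?_) (h4 p q)
    have := hH p q s hs
    omega
  have h6 : HOM_sum H = 0 := by
    unfold HOM_sum
    refine Finset.sum_eq_zero fun p _ => Finset.sum_eq_zero fun q _ => ?_
    rw [h5, map_zero, zero_mul]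
  rw [h6, sub_zero] at hI
  exact hI

end Pool.CXS
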