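import Pool.Agent.Work.MP_bf99ce_cx.InterfaceS

/-! # THEOREM CX, part S: the right inverse of the Jacobian matrix (JAC) -/

set_option autoImplicit false

open MvPolynomial

namespace Pool.CXS

open Pool.CX

theorem JAC_sum {R : Type} [CommRing R] (a b : Fin 5 → R) (g : Fin 5 → Fin 5 → R) :
    ∑ s, a s * ∑ q, (g s q - g q s) * b q = ∑ p, ∑ q, g p q * (a p * b q - a q * b p) := by
  have h1 : ∑ s, ∑ q, a s * (g q s * b q) = ∑ s, ∑ q, a q * (g s q * b s) := Finset.sum_comm
  have h2 : ∑ s, a s * ∑ q, (g s q - g q s) * b q =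
      ∑ s, ∑ q, a s * (g s q * b q) - ∑ s, ∑ q, a s * (g q s * b q) := by
    rw [← Finset.sum_sub_distrib]
    refine Finset.sum_congr rfl fun s _ => ?_
    rw [Finset.mul_sum, ← Finset.sum_sub_distrib]
    refine Finset.sum_congr rfl fun q _ => ?_
    ring
  rw [h2, h1, ← Finset.sum_sub_distrib]
  refine Finset.sum_congr rfl fun s _ => ?_
  rw [← Finset.sum_sub_distrib]
  refine Finset.sum_congr rfl fun q _ => ?_
  ring

theorem JAC_three {k : Type} [Field k] (s : Fin 5) : pderiv s (3 : MvPolynomial (Fin 5) k) = 0 := by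
  rw [show (3 : MvPolynomial (Fin 5) k) = C 3 from (map_ofNat C 3).symm]
  exact pderiv_C

theorem JAC_dF {k : Type} [Field k] (ε : k) (s : Fin 5) : pderiv s (FX ε) = - ja (C ε) X s := by
  fin_cases s <;> simp [FX, av, ja, pderiv_X, Derivation.leibniz, Derivation.leibniz_pow, JAC_three] <;> ring

theorem JAC_dG {k : Type} [Field k] (s : Fin 5) : pderiv s (GX : MvPolynomial (Fin 5) k) = - jb X s := by
  fin_cases s <;> simp [GX, bv, jb, pderiv_X, Derivation.leibniz, Derivation.leibniz_pow, JAC_three] <;> ring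

theorem JAC_eF {k : Type} [Field k] (ε : k) :
    ∑ s, ja (C ε) X s * (X s : MvPolynomial (Fin 5) k) = -3 * FX ε := by
  simp only [Fin.sum_univ_five, FX, av, ja]
  simp
  ring

theorem JAC_eG {k : Type} [Field k] :
    ∑ s, jb X s * (X s : MvPolynomial (Fin 5) k) = -3 * GX := by
  simp only [Fin.sum_univ_five, GX, bv, jb]
  simp
  ring

theorem p_JAC (hMIN : Stmt_MIN) : Stmt_JAC := by
  intro ε hε i
  obtain ⟨g, hg⟩ := hMIN ε hε i
  have hIX : IX ε i = Ideal.span (Set.range (![X i - 1, FX ε, GX] : Fin 3 → MvPolynomial (Fin 5) ℂ)) := by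
    rw [IX]
    congr 1
    simp only [Matrix.range_cons, Matrix.range_empty, Set.union_empty, Set.singleton_union]
  rw [hIX] at hg
  generalize hI : Ideal.span (Set.range (![X i - 1, FX ε, GX] : Fin 3 → MvPolynomial (Fin 5) ℂ)) = I at hg
  have h1 : X i - 1 ∈ I := hI ▸ Ideal.subset_span ⟨0, rfl⟩
  have h2 : FX ε ∈ I := hI ▸ Ideal.subset_span ⟨1, rfl⟩
  have h3 : GX ∈ I := hI ▸ Ideal.subset_span ⟨2, rfl⟩
  let A : Fin 5 → MvPolynomial (Fin 5) ℂ := ja (C ε) X
  let B : Fin 5 → MvPolynomial (Fin 5) ℂ := jb X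
  let n : Fin 5 → MvPolynomial (Fin 5) ℂ := fun s => ∑ q, (g s q - g q s) * B q
  let m : Fin 5 → MvPolynomial (Fin 5) ℂ := fun s => ∑ q, (-g s q - -g q s) * A q
  have hAn : ∑ s, A s * n s = ∑ p, ∑ q, g p q * mnr (C ε) X p q := JAC_sum A B g
  have hBn : ∑ s, B s * n s = 0 := by
    rw [JAC_sum B B g]
    refine Finset.sum_eq_zero fun p _ => Finset.sum_eq_zero fun q _ => ?_
    ring
  have hAm : ∑ s, A s * m s = 0 := by
    rw [JAC_sum A A fun p q => -g p q]
    refine Finset.sum_eq_zero fun p _ => Finset.sum_eq_zero fun q _ => ?_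
    ring
  have hBm : ∑ s, B s * m s = ∑ p, ∑ q, g p q * mnr (C ε) X p q := by
    rw [JAC_sum B A fun p q => -g p q]
    refine Finset.sum_congr rfl fun p _ => Finset.sum_congr rfl fun q _ => ?_
    simp only [mnr, A, B]
    ring
  have hAy : ∑ s, A s * X s = -3 * FX ε := JAC_eF ε
  have hBy : ∑ s, B s * X s = -3 * GX := JAC_eG
  have row0 : ∀ f : Fin 5 → MvPolynomial (Fin 5) ℂ, ∑ s, pderiv s (X i - 1 : MvPolynomial (Fin 5) ℂ) * f s = f i := by
    intro f
    simp [pderiv_X, Pi.single_apply]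
  have row1 : ∀ f : Fin 5 → MvPolynomial (Fin 5) ℂ, ∑ s, pderiv s (FX ε) * f s = -∑ s, A s * f s := by
    intro f
    rw [← Finset.sum_neg_distrib]
    refine Finset.sum_congr rfl fun s _ => ?_
    rw [JAC_dF]
    ring
  have row2 : ∀ f : Fin 5 → MvPolynomial (Fin 5) ℂ, ∑ s, pderiv s (GX : MvPolynomial (Fin 5) ℂ) * f s = -∑ s, B s * f s := by
    intro f
    rw [← Finset.sum_neg_distrib]
    refine Finset.sum_congr rfl fun s _ => ?_
    rw [JAC_dG]
    ring
  have lin : ∀ (a f : Fin 5 → MvPolynomial (Fin 5) ℂ) (c : MvPolynomial (Fin 5) ℂ),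
      -∑ s, a s * -(f s - c * X s) = ∑ s, a s * f s - c * ∑ s, a s * X s := by
    intro a f c
    rw [← Finset.sum_neg_distrib, Finset.mul_sum, ← Finset.sum_sub_distrib]
    refine Finset.sum_congr rfl fun s _ => ?_
    ring
  refine ⟨fun s => ![X s, -(n s - n i * X s), -(m s - m i * X s)], fun j l => ?_⟩
  match j, l with
  | 0, 0 =>
    show ∑ s, pderiv s (X i - 1 : MvPolynomial (Fin 5) ℂ) * X s - 1 ∈ I
    rw [row0]
    exact h1
  | 0, 1 =>
    show ∑ s, pderiv s (X i - 1 : MvPolynomial (Fin 5) ℂ) * (-(n s - n i * X s)) - 0 ∈ I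
    rw [row0 fun s => -(n s - n i * X s)]
    have := I.mul_mem_left (n i) h1
    convert this using 1
    ring
  | 0, 2 =>
    show ∑ s, pderiv s (X i - 1 : MvPolynomial (Fin 5) ℂ) * (-(m s - m i * X s)) - 0 ∈ I
    rw [row0 fun s => -(m s - m i * X s)]
    have := I.mul_mem_left (m i) h1
    convert this using 1
    ring
  | 1, 0 =>
    show ∑ s, pderiv s (FX ε) * X s - 0 ∈ I
    rw [row1, hAy]
    have := I.mul_mem_left 3 h2
    convert this using 1
    ring
  | 1, 1 =>
    show ∑ s, pderiv s (FX ε) * (-(n s - n i * X s)) - 1 ∈ I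
    rw [row1 fun s => -(n s - n i * X s), lin, hAn, hAy]
    have := I.add_mem hg (I.mul_mem_left (3 * n i) h2)
    convert this using 1
    ring
  | 1, 2 =>
    show ∑ s, pderiv s (FX ε) * (-(m s - m i * X s)) - 0 ∈ I
    rw [row1 fun s => -(m s - m i * X s), lin, hAm, hAy]
    have := I.mul_mem_left (3 * m i) h2
    convert this using 1
    ring
  | 2, 0 =>
    show ∑ s, pderiv s (GX : MvPolynomial (Fin 5) ℂ) * X s - 0 ∈ I
    rw [row2, hBy]
    have := I.mul_mem_left 3 h3
    convert this using 1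
    ring
  | 2, 1 =>
    show ∑ s, pderiv s (GX : MvPolynomial (Fin 5) ℂ) * (-(n s - n i * X s)) - 0 ∈ I
    rw [row2 fun s => -(n s - n i * X s), lin, hBn, hBy]
    have := I.mul_mem_left (3 * n i) h3
    convert this using 1
    ring
  | 2, 2 =>
    show ∑ s, pderiv s (GX : MvPolynomial (Fin 5) ℂ) * (-(m s - m i * X s)) - 1 ∈ I
    rw [row2 fun s => -(m s - m i * X s), lin, hBm, hBy]
    have := I.add_mem hg (I.mul_mem_left (3 * m i) h3)
    convert this using 1
    ring

end Pool.CXS
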