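import Pool.Agent.Work.MP_bf99ce_cx.InterfaceS

/-!
# THEOREM CX, part S: block KER (the kernel of the evaluation in a chart)
-/

set_option autoImplicit false

noncomputable section

open MvPolynomial TensorProduct

namespace Pool.CXS

open Pool.CX

section

variable {k L : Type} [Field k] [Field L] [Algebra k L]

theorem KER_F (ε : k) (z : Fin 5 → L) : aeval z (FX ε) = z 3 ^ 3 - av (algebraMap k L ε) z := by
  simp only [FX, av, map_sub, map_add, map_mul, map_neg, map_pow, aeval_X, map_ofNat, algHom_C]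

theorem KER_G (z : Fin 5 → L) : aeval z (GX : MvPolynomial (Fin 5) k) = z 4 ^ 3 - bv z := by
  simp only [GX, bv, map_sub, map_add, map_mul, map_neg, map_pow, aeval_X, map_ofNat]

theorem KER_le (ε : k) (z : Fin 5 → L) (i : Fin 5) (hi : z i = 1) (hz : OnX (algebraMap k L ε) z) :
    IX ε i ≤ RingHom.ker (aeval z : MvPolynomial (Fin 5) k →ₐ[k] L) := by
  unfold IX
  rw [Ideal.span_le]
  intro q hq
  change aeval z q = 0
  rcases hq with rfl | rfl | rfl
  · rw [map_sub, aeval_X, hi, map_one, sub_self]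
  · rw [KER_F, hz.1, sub_self]
  · rw [KER_G, hz.2, sub_self]

theorem KER_onX (e : L) (x : Fin 5 → L) (i : Fin 5) (hi : x i ≠ 0) (hx : OnX e x) :
    OnX e (fun l => x l / x i) := by
  obtain ⟨h3, h4⟩ := hx
  constructor
  · have h : (x 3 / x i) ^ 3 = x 3 ^ 3 / x i ^ 3 := div_pow _ _ _
    rw [h, h3]
    simp only [av]
    field_simp
  · have h : (x 4 / x i) ^ 3 = x 4 ^ 3 / x i ^ 3 := div_pow _ _ _
    rw [h, h4]
    simp only [bv]
    field_simp

/-- The homogenization of `h` with the variable `X i`. -/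
def KER_hom (i : Fin 5) (N : ℕ) (h : MvPolynomial (Fin 5) k) : MvPolynomial (Fin 5) k :=
  ∑ α ∈ h.support, monomial α (coeff α h) * X i ^ (N - α.sum fun _ e => e)

theorem KER_isHom (i : Fin 5) (N : ℕ) (h : MvPolynomial (Fin 5) k) (hN : h.totalDegree ≤ N) :
    (KER_hom i N h).IsHomogeneous N := by
  refine IsHomogeneous.sum _ _ _ fun α hα => ?_
  have h1 : (α.sum fun _ e => e) ≤ N := (le_totalDegree hα).trans hN
  have h2 := (isHomogeneous_monomial (σ := Fin 5) (d := α) (coeff α h) (n := α.sum fun _ e => e) rfl).mul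
    (isHomogeneous_X_pow (R := k) i (N - α.sum fun _ e => e))
  have h3 : (α.sum fun _ e => e) + (N - α.sum fun _ e => e) = N := by omega
  rwa [h3] at h2

theorem KER_val (i : Fin 5) (N : ℕ) (h : MvPolynomial (Fin 5) k) (hN : h.totalDegree ≤ N) (x : Fin 5 → L)
    (hi : x i ≠ 0) : aeval x (KER_hom i N h) = x i ^ N * aeval (fun l => x l / x i) h := by
  have e : aeval (fun l => x l / x i) h = ∑ α ∈ h.support, aeval (fun l => x l / x i) (monomial α (coeff α h)) := by
    rw [← map_sum, support_sum_monomial_coeff]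
  rw [e, Finset.mul_sum]
  unfold KER_hom
  rw [map_sum]
  refine Finset.sum_congr rfl fun α hα => ?_
  have h1 : (α.sum fun _ e => e) ≤ N := (le_totalDegree hα).trans hN
  rw [map_mul, map_pow, aeval_X, aeval_monomial, aeval_monomial]
  have h2 : (α.prod fun l n => (x l / x i) ^ n) = (α.prod fun l n => x l ^ n) / x i ^ (α.sum fun _ e => e) := by
    simp only [Finsupp.prod, Finsupp.sum, div_pow, Finset.prod_div_distrib, Finset.prod_pow_eq_pow_sum]
  rw [h2]
  have h3 : x i ^ N = x i ^ (N - α.sum fun _ e => e) * x i ^ (α.sum fun _ e => e) := by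
    rw [← pow_add]
    congr 1
    omega
  rw [h3]
  have h4 : x i ^ (α.sum fun _ e => e) ≠ 0 := pow_ne_zero _ hi
  field_simp

theorem KER_sub (i : Fin 5) (N : ℕ) (h : MvPolynomial (Fin 5) k) :
    KER_hom i N h - h ∈ Ideal.span {(X i - 1 : MvPolynomial (Fin 5) k)} := by
  have e : KER_hom i N h - h = ∑ α ∈ h.support,
      monomial α (coeff α h) * (X i ^ (N - α.sum fun _ e => e) - 1) := by
    simp only [mul_sub, mul_one, Finset.sum_sub_distrib, support_sum_monomial_coeff]
    rfl
  rw [e]
  refine Ideal.sum_mem _ fun α _ => Ideal.mul_mem_left _ _ ?_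
  rw [Ideal.mem_span_singleton]
  have := sub_dvd_pow_sub_pow (X i : MvPolynomial (Fin 5) k) 1 (N - α.sum fun _ e => e)
  rwa [one_pow] at this

end

theorem p_KER (h1 : Stmt_NEZ) (h2 : Stmt_HOM) : Stmt_KER := by
  intro k L _ _ _ _ ε x hx i h
  have hi : x i ≠ 0 := h1 k L ε x hx i
  constructor
  · intro h0
    have h3 : aeval x (KER_hom i h.totalDegree h) = 0 := by
      rw [KER_val i h.totalDegree h le_rfl x hi, h0, mul_zero]
    have h4 := h2 k L ε x hx h.totalDegree _ (KER_isHom i h.totalDegree h le_rfl) h3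
    have h5 := KER_sub i h.totalDegree h
    have h6 : KER_hom i h.totalDegree h ∈ IX ε i := by
      refine Ideal.span_mono ?_ h4
      exact Set.subset_insert _ _
    have h7 : KER_hom i h.totalDegree h - h ∈ IX ε i := by
      refine Ideal.span_mono ?_ h5
      intro q hq
      exact Or.inl hq
    have h8 := Ideal.sub_mem _ h6 h7
    rwa [sub_sub_cancel] at h8
  · intro hh
    exact KER_le ε (fun l => x l / x i) i (div_self hi) (KER_onX _ x i hi hx.onX) hh

end Pool.CXS
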