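import Pool.Agent.Work.MP_bf99ce_cx.InterfaceS

/-!
# Block MIN of part S (helper48)
-/

set_option autoImplicit false

noncomputable section

open MvPolynomial TensorProduct

namespace Pool.CXS

open Pool.CX

theorem MIN_ja {S T : Type} [CommRing S] [CommRing T] (f : S →+* T) (ε : S) (x : Fin 5 → S) (p : Fin 5) :
    f (ja ε x p) = ja (f ε) (fun l => f (x l)) p := by
  fin_cases p <;> simp [ja, map_ofNat]

theorem MIN_jb {S T : Type} [CommRing S] [CommRing T] (f : S →+* T) (x : Fin 5 → S) (p : Fin 5) :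
    f (jb x p) = jb (fun l => f (x l)) p := by
  fin_cases p <;> simp [jb, map_ofNat]

theorem MIN_mnr {S T : Type} [CommRing S] [CommRing T] (f : S →+* T) (ε : S) (x : Fin 5 → S) (p q : Fin 5) :
    f (mnr ε x p q) = mnr (f ε) (fun l => f (x l)) p q := by
  rw [mnr, mnr, map_sub, map_mul, map_mul, MIN_ja, MIN_jb, MIN_ja, MIN_jb]

theorem MIN_aeval {k S : Type} [Field k] [CommRing S] [Algebra k S] (ε : k) (y : Fin 5 → S) (p q : Fin 5) :
    aeval y (mnr (C ε) (X : Fin 5 → MvPolynomial (Fin 5) k) p q) = mnr (algebraMap k S ε) y p q := by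
  have h := MIN_mnr (aeval y : MvPolynomial (Fin 5) k →ₐ[k] S).toRingHom (C ε) X p q
  have e1 : (aeval y : MvPolynomial (Fin 5) k →ₐ[k] S).toRingHom (C ε) = algebraMap k S ε := by
    show aeval y (C ε) = _
    rw [aeval_C]
  have e2 : (fun l => (aeval y : MvPolynomial (Fin 5) k →ₐ[k] S).toRingHom (X l)) = y := by
    funext l
    show aeval y (X l) = _
    rw [aeval_X]
  rw [e1, e2] at h
  exact h

theorem p_MIN (h1 : Stmt_NUL) : Stmt_MIN := by
  intro ε hε i
  let v : Fin 5 × Fin 5 → MvPolynomial (Fin 5) ℂ := fun pq => mnr (C ε) X pq.1 pq.2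
  have hz : zeroLocus ℂ (IX ε i ⊔ Ideal.span (Set.range v)) = ∅ := by
    rw [Set.eq_empty_iff_forall_notMem]
    intro y hy
    rw [mem_zeroLocus_iff] at hy
    have hI : ∀ q ∈ IX ε i, aeval y q = 0 := fun q hq => hy q (Ideal.mem_sup_left hq)
    have hX : aeval y (X i - 1 : MvPolynomial (Fin 5) ℂ) = 0 :=
      hI _ (Ideal.subset_span (Set.mem_insert _ _))
    have hF : aeval y (FX ε) = 0 :=
      hI _ (Ideal.subset_span (Set.mem_insert_of_mem _ (Set.mem_insert _ _)))
    have hG : aeval y (GX : MvPolynomial (Fin 5) ℂ) = 0 :=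
      hI _ (Ideal.subset_span (Set.mem_insert_of_mem _ (Set.mem_insert_of_mem _ (Set.mem_singleton _))))
    have hm : ∀ p q, mnr ε y p q = 0 := by
      intro p q
      have h2 := hy (v (p, q)) (Ideal.mem_sup_right (Ideal.subset_span ⟨(p, q), rfl⟩))
      have h3 := MIN_aeval ε y p q
      exact h3.symm.trans h2
    have hon : OnX ε y := by
      constructor
      · simp only [FX, av, map_sub, map_pow, map_add, map_mul, map_neg, aeval_X, aeval_C, map_ofNat] at hF
        have := sub_eq_zero.1 hF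
        rw [this]
        rfl
      · simp only [GX, bv, map_sub, map_pow, map_add, map_mul, map_neg, aeval_X, map_ofNat] at hG
        have := sub_eq_zero.1 hG
        rw [this]
        rfl
    have h0 := h1 ε hε y hon hm
    rw [map_sub, aeval_X, map_one, h0, Pi.zero_apply, zero_sub, neg_eq_zero] at hX
    exact one_ne_zero hX
  have hJ : IX ε i ⊔ Ideal.span (Set.range v) = ⊤ := by
    have h2 := vanishingIdeal_zeroLocus_eq_radical (K := ℂ) (IX ε i ⊔ Ideal.span (Set.range v))
    rw [hz, vanishingIdeal_empty] at h2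
    exact Ideal.radical_eq_top.1 h2.symm
  have hone : (1 : MvPolynomial (Fin 5) ℂ) ∈ IX ε i ⊔ Ideal.span (Set.range v) := by
    rw [hJ]
    exact Submodule.mem_top
  obtain ⟨a, ha, b, hb, hab⟩ := Submodule.mem_sup.1 hone
  obtain ⟨c, hc⟩ := Ideal.mem_span_range_iff_exists_fun.1 hb
  refine ⟨fun p q => c (p, q), ?_⟩
  have h4 : ∑ p, ∑ q, c (p, q) * mnr (C ε) X p q = b := by
    rw [← hc, Fintype.sum_prod_type]
  rw [h4, ← hab, sub_add_cancel_right]
  exact neg_mem ha

end Pool.CXS
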