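import Pool.Agent.Work.MP_bf99ce_cx.InterfaceS

/-!
# Block MNU of part S (helper48)
-/

set_option autoImplicit false

noncomputable section

open MvPolynomial TensorProduct

namespace Pool.CXS

open Pool.CX

theorem MNU_ja {S T : Type} [CommRing S] [CommRing T] (f : S →+* T) (ε : S) (x : Fin 5 → S) (p : Fin 5) :
    f (ja ε x p) = ja (f ε) (fun l => f (x l)) p := by
  fin_cases p <;> simp [ja, map_ofNat]

theorem MNU_jb {S T : Type} [CommRing S] [CommRing T] (f : S →+* T) (x : Fin 5 → S) (p : Fin 5) :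
    f (jb x p) = jb (fun l => f (x l)) p := by
  fin_cases p <;> simp [jb, map_ofNat]

theorem MNU_mnr {S T : Type} [CommRing S] [CommRing T] (f : S →+* T) (ε : S) (x : Fin 5 → S) (p q : Fin 5) :
    f (mnr ε x p q) = mnr (f ε) (fun l => f (x l)) p q := by
  rw [mnr, mnr, map_sub, map_mul, map_mul, MNU_ja, MNU_jb, MNU_ja, MNU_jb]

theorem MNU_aeval {k S : Type} [Field k] [CommRing S] [Algebra k S] (ε : k) (y : Fin 5 → S) (p q : Fin 5) :
    aeval y (mnr (C ε) (X : Fin 5 → MvPolynomial (Fin 5) k) p q) = mnr (algebraMap k S ε) y p q := by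
  have h := MNU_mnr (aeval y : MvPolynomial (Fin 5) k →ₐ[k] S).toRingHom (C ε) X p q
  have e1 : (aeval y : MvPolynomial (Fin 5) k →ₐ[k] S).toRingHom (C ε) = algebraMap k S ε := by
    show aeval y (C ε) = _
    rw [aeval_C]
  have e2 : (fun l => (aeval y : MvPolynomial (Fin 5) k →ₐ[k] S).toRingHom (X l)) = y := by
    funext l
    show aeval y (X l) = _
    rw [aeval_X]
  rw [e1, e2] at h
  exact h

theorem p_MNU (h1 : Stmt_KER) (h2 : Stmt_MIN) : Stmt_MNU := by
  intro K _ _ ε x hε hx i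
  obtain ⟨g, hg⟩ := h2 ε hε i
  refine ⟨fun p q => aeval (fun l => x l / x i) (g p q), fun p q => ?_, ?_⟩
  · rw [chart, Algebra.adjoin_range_eq_range_aeval]
    exact ⟨g p q, rfl⟩
  · have h3 := (h1 ℂ K ε x hx i _).2 hg
    rw [map_sub, map_one, sub_eq_zero, map_sum] at h3
    rw [← h3]
    refine Finset.sum_congr rfl fun p _ => ?_
    rw [map_sum]
    refine Finset.sum_congr rfl fun q _ => ?_
    rw [map_mul, MNU_aeval]

end Pool.CXS
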