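import Pool.Agent.Work.MP_bf99ce_cx.InterfaceS

/-! # THEOREM CX, part S, block MOD: the model exists -/

set_option autoImplicit false

noncomputable section

open MvPolynomial TensorProduct

namespace Pool.CXS

open Pool.CX

theorem MOD_av {S T : Type} [CommRing S] [CommRing T] (f : S →+* T) (ε : S) (x : Fin 5 → S) :
    f (av ε x) = av (f ε) (fun i => f (x i)) := by
  simp only [av, map_add, map_mul, map_pow, map_neg, map_ofNat]

theorem MOD_bv {S T : Type} [CommRing S] [CommRing T] (f : S →+* T) (x : Fin 5 → S) :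
    f (bv x) = bv (fun i => f (x i)) := by
  simp only [bv, map_add, map_mul, map_pow, map_neg, map_ofNat]

/-- A point of the cone with given affine coordinates. -/
theorem MOD_point (E : Type) [Field E] [IsAlgClosed E] (e u v : E) :
    ∃ y : Fin 5 → E, y 0 = 1 ∧ y 1 = u ∧ y 2 = v ∧ OnX e y := by
  obtain ⟨a, ha⟩ := IsAlgClosed.exists_pow_nat_eq (av e ![1, u, v, 0, 0]) (n := 3) (by norm_num)
  obtain ⟨b, hb⟩ := IsAlgClosed.exists_pow_nat_eq (bv (![1, u, v, 0, 0] : Fin 5 → E)) (n := 3) (by norm_num)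
  exact ⟨![1, u, v, a, b], rfl, rfl, rfl, ha, hb⟩

theorem MOD_main (h1 : Stmt_NEZ) (ε : ℂ) (E : Type) [Field E] [IsAlgClosed E] [Algebra ℂ E] (z : Fin 4 → E)
    (hz : AlgebraicIndependent ℂ z) :
    ∃ (K : Type) (_ : Field K) (_ : Algebra ℂ K) (x x' : Fin 5 → K), Model K ε x x' := by
  obtain ⟨y, y0, y1, y2, yX⟩ := MOD_point E (algebraMap ℂ E ε) (z 0) (z 1)
  obtain ⟨y', y0', y1', y2', yX'⟩ := MOD_point E (algebraMap ℂ E ε) (z 2) (z 3)
  let K := IntermediateField.adjoin ℂ (Set.range y ∪ Set.range y')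
  let x : Fin 5 → K := fun i => ⟨y i, IntermediateField.subset_adjoin ℂ _ (Or.inl ⟨i, rfl⟩)⟩
  let x' : Fin 5 → K := fun i => ⟨y' i, IntermediateField.subset_adjoin ℂ _ (Or.inr ⟨i, rfl⟩)⟩
  have hinj : Function.Injective K.val := fun a b h => Subtype.ext h
  have hx : ∀ i, K.val (x i) = y i := fun i => rfl
  have hx' : ∀ i, K.val (x' i) = y' i := fun i => rfl
  have hon : ∀ (w : Fin 5 → K) (u : Fin 5 → E), (∀ i, K.val (w i) = u i) → OnX (algebraMap ℂ E ε) u →
      OnX (algebraMap ℂ K ε) w := by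
    intro w u hw hu
    have hu' : u = fun i => (K.val : K →+* E) (w i) := by
      ext i
      exact (hw i).symm
    constructor
    · apply hinj
      have h := MOD_av (K.val : K →+* E) (algebraMap ℂ K ε) w
      have h2 : (K.val : K →+* E) (algebraMap ℂ K ε) = algebraMap ℂ E ε := rfl
      rw [h2, ← hu'] at h
      rw [map_pow, hw, hu.1]
      exact h.symm
    · apply hinj
      have h := MOD_bv (K.val : K →+* E) w
      rw [← hu'] at h
      rw [map_pow, hw, hu.2]
      exact h.symm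
  have hx0 : x 0 = 1 := hinj (by rw [hx, y0, map_one])
  have hx0' : x' 0 = 1 := hinj (by rw [hx', y0', map_one])
  have hX := hon x y hx yX
  have hX' := hon x' y' hx' yX'
  have hai : AlgebraicIndependent ℂ ![x 1, x 2, x' 1, x' 2] := by
    rw [← AlgHom.algebraicIndependent_iff K.val hinj]
    have he : (K.val ∘ ![x 1, x 2, x' 1, x' 2] : Fin 4 → E) = z := by
      funext i
      fin_cases i
      · exact y1
      · exact y2
      · exact y1'
      · exact y2'
    rw [he]
    exact hz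
  have hai1 : AlgebraicIndependent ℂ ![x 1, x 2] := by
    have h := hai.comp (![0, 1] : Fin 2 → Fin 4) (by decide)
    have he : (![x 1, x 2, x' 1, x' 2] ∘ (![0, 1] : Fin 2 → Fin 4)) = ![x 1, x 2] := by
      funext i
      fin_cases i <;> rfl
    rw [he] at h
    exact h
  have hai2 : AlgebraicIndependent ℂ ![x' 1, x' 2] := by
    have h := hai.comp (![2, 3] : Fin 2 → Fin 4) (by decide)
    have he : (![x 1, x 2, x' 1, x' 2] ∘ (![2, 3] : Fin 2 → Fin 4)) = ![x' 1, x' 2] := by
      funext i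
      fin_cases i <;> rfl
    rw [he] at h
    exact h
  have hne := h1 ℂ K ε x ⟨hx0, hai1, hX⟩
  have hne' := h1 ℂ K ε x' ⟨hx0', hai2, hX'⟩
  refine ⟨K, inferInstance, inferInstance, x, x', ⟨hx0, hx0', hne, hne', hX, hX', hai, ?_⟩⟩
  intro w
  have hw : (w : E) ∈ IntermediateField.adjoin ℂ (Set.range y ∪ Set.range y') := w.2
  rw [IntermediateField.mem_adjoin_iff_div] at hw
  obtain ⟨r, hr, s, hs, hrs⟩ := hw
  have himg : (K.val '' (Set.range x ∪ Set.range x')) = Set.range y ∪ Set.range y' := by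
    rw [Set.image_union, ← Set.range_comp, ← Set.range_comp]
    rfl
  have hpull : ∀ t ∈ Algebra.adjoin ℂ (Set.range y ∪ Set.range y'),
      ∃ t' ∈ Algebra.adjoin ℂ (Set.range x ∪ Set.range x'), K.val t' = t := by
    intro t ht
    rw [← himg, ← AlgHom.map_adjoin] at ht
    exact ht
  by_cases hs0 : s = 0
  · refine ⟨0, 1, Subalgebra.zero_mem _, Subalgebra.one_mem _, one_ne_zero, ?_⟩
    rw [zero_div]
    apply Subtype.ext
    rw [hrs, hs0, div_zero]
    rfl
  · obtain ⟨r', hr', hrr⟩ := hpull r hr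
    obtain ⟨s', hs', hss⟩ := hpull s hs
    refine ⟨r', s', hr', hs', ?_, ?_⟩
    · rintro rfl
      apply hs0
      rw [← hss, map_zero]
    · apply hinj
      rw [map_div₀, hrr, hss]
      exact hrs

theorem p_MOD (h1 : Stmt_NEZ) : Stmt_MOD := by
  intro ε
  have hz0 := MvPolynomial.algebraicIndependent_X (Fin 4) ℂ
  have hz1 := hz0.map' (f := IsScalarTower.toAlgHom ℂ (MvPolynomial (Fin 4) ℂ) (FractionRing (MvPolynomial (Fin 4) ℂ)))
    (IsFractionRing.injective (MvPolynomial (Fin 4) ℂ) (FractionRing (MvPolynomial (Fin 4) ℂ)))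
  have hz2 := hz1.map' (f := IsScalarTower.toAlgHom ℂ (FractionRing (MvPolynomial (Fin 4) ℂ))
    (AlgebraicClosure (FractionRing (MvPolynomial (Fin 4) ℂ))))
    (algebraMap (FractionRing (MvPolynomial (Fin 4) ℂ)) _).injective
  exact MOD_main h1 ε _ _ hz2

end Pool.CXS
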