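import Pool.Agent.Work.MP_bf99ce_cx.InterfaceS

/-!
# Block NEW (typed by helper15): the Jacobian criterion by Newton's method
-/

set_option autoImplicit false

noncomputable section

open MvPolynomial TensorProduct

namespace Pool.CXS

open Pool.CX

theorem NEW_taylor {k B : Type} [Field k] [CommRing B] [Algebra k B] (b d : Fin 5 → B)
    (hd : ∀ s t, d s * d t = 0) (p : MvPolynomial (Fin 5) k) :
    aeval (fun s => b s - d s) p = aeval b p - ∑ s, aeval b (pderiv s p) * d s := by
  induction p using MvPolynomial.induction_on with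
  | C a =>
    have h : ∀ s, aeval b (pderiv s (C a : MvPolynomial (Fin 5) k)) * d s = 0 := by
      intro s
      rw [pderiv_C, map_zero, zero_mul]
    rw [Finset.sum_congr rfl fun s _ => h s, Finset.sum_const_zero, sub_zero, aeval_C, aeval_C]
  | add p q hp hq =>
    rw [map_add, map_add, hp, hq]
    have h : ∀ s, aeval b (pderiv s (p + q)) * d s =
        aeval b (pderiv s p) * d s + aeval b (pderiv s q) * d s := by
      intro s
      rw [map_add, map_add, add_mul]
    rw [Finset.sum_congr rfl fun s _ => h s, Finset.sum_add_distrib]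
    ring
  | mul_X p i hp =>
    rw [map_mul, map_mul, hp, aeval_X, aeval_X]
    have h : ∀ s, aeval b (pderiv s (p * X i)) * d s =
        aeval b (pderiv s p) * d s * b i + (if s = i then aeval b p * d s else 0) := by
      intro s
      rw [pderiv_mul, map_add, map_mul, map_mul, aeval_X]
      rcases eq_or_ne s i with rfl | hsi
      · rw [pderiv_X_self, map_one, if_pos rfl]
        ring
      · rw [pderiv_X_of_ne hsi.symm, map_zero, if_neg hsi]
        ring
    rw [Finset.sum_congr rfl fun s _ => h s, Finset.sum_add_distrib, Finset.sum_ite_eq' Finset.univ i,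
      if_pos (Finset.mem_univ i), ← Finset.sum_mul]
    have h2 : (∑ s, aeval b (pderiv s p) * d s) * d i = 0 := by
      rw [Finset.sum_mul]
      refine Finset.sum_eq_zero fun s _ => ?_
      rw [mul_assoc, hd, mul_zero]
    linear_combination h2

theorem NEW_formal (k : Type) [Field k] (r : ℕ) (f : Fin r → MvPolynomial (Fin 5) k)
    (N : Fin 5 → Fin r → MvPolynomial (Fin 5) k)
    (hN : ∀ j l, ∑ s, pderiv s (f j) * N s l - (if j = l then 1 else 0) ∈
      Ideal.span (Set.range f)) :
    Algebra.FormallySmooth k (MvPolynomial (Fin 5) k ⧸ Ideal.span (Set.range f)) := by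
  refine Algebra.FormallySmooth.of_comp_surjective ?_
  intro B _ _ J hJ φ
  have hJ2 : ∀ x ∈ J, ∀ y ∈ J, x * y = 0 := by
    intro x hx y hy
    have h := Ideal.mul_mem_mul hx hy
    rw [← pow_two, hJ] at h
    exact (Submodule.mem_bot _).mp h
  have hsurj : ∀ s : Fin 5, ∃ b : B, Ideal.Quotient.mk J b =
      φ (Ideal.Quotient.mk (Ideal.span (Set.range f)) (X s)) := fun s =>
    Ideal.Quotient.mk_surjective _
  choose b hb using hsurj
  have hval : ∀ p : MvPolynomial (Fin 5) k, Ideal.Quotient.mk J (aeval b p) =
      φ (Ideal.Quotient.mk (Ideal.span (Set.range f)) p) := by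
    have h : (Ideal.Quotient.mkₐ k J).comp (aeval b : MvPolynomial (Fin 5) k →ₐ[k] B) =
        φ.comp (Ideal.Quotient.mkₐ k (Ideal.span (Set.range f))) := by
      apply MvPolynomial.algHom_ext
      intro s
      show Ideal.Quotient.mk J (aeval b (X s)) =
        φ (Ideal.Quotient.mk (Ideal.span (Set.range f)) (X s))
      rw [aeval_X, hb]
    intro p
    exact congrArg (fun g => g p) h
  have hI : ∀ p ∈ Ideal.span (Set.range f), aeval b p ∈ J := by
    intro p hp
    rw [← Ideal.Quotient.eq_zero_iff_mem, hval, Ideal.Quotient.eq_zero_iff_mem.mpr hp, map_zero]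
  have hfJ : ∀ l, aeval b (f l) ∈ J := fun l => hI _ (Ideal.subset_span ⟨l, rfl⟩)
  obtain ⟨d, hd⟩ : ∃ d : Fin 5 → B, d = fun s => ∑ l, aeval b (N s l) * aeval b (f l) := ⟨_, rfl⟩
  have hdJ : ∀ s, d s ∈ J := by
    intro s
    rw [hd]
    exact Submodule.sum_mem _ fun l _ => J.mul_mem_left _ (hfJ l)
  have hz : ∀ j, aeval (fun s => b s - d s) (f j) = 0 := by
    intro j
    rw [NEW_taylor b d (fun s t => hJ2 _ (hdJ s) _ (hdJ t))]
    have h1 : ∑ s, aeval b (pderiv s (f j)) * d s =
        ∑ l, aeval b (∑ s, pderiv s (f j) * N s l) * aeval b (f l) := by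
      have h2 : ∀ s, aeval b (pderiv s (f j)) * d s =
          ∑ l, aeval b (pderiv s (f j)) * aeval b (N s l) * aeval b (f l) := by
        intro s
        rw [hd, Finset.mul_sum]
        exact Finset.sum_congr rfl fun l _ => (mul_assoc _ _ _).symm
      rw [Finset.sum_congr rfl fun s _ => h2 s, Finset.sum_comm]
      refine Finset.sum_congr rfl fun l _ => ?_
      rw [← Finset.sum_mul, map_sum]
      simp only [map_mul]
    have h3 : ∀ l, aeval b (∑ s, pderiv s (f j) * N s l) * aeval b (f l) =
        if j = l then aeval b (f l) else 0 := by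
      intro l
      have h4 := hJ2 _ (hI _ (hN j l)) _ (hfJ l)
      rw [map_sub, sub_mul, sub_eq_zero] at h4
      rw [h4]
      split_ifs
      · rw [map_one, one_mul]
      · rw [map_zero, zero_mul]
    rw [h1, Finset.sum_congr rfl fun l _ => h3 l, Finset.sum_ite_eq Finset.univ j,
      if_pos (Finset.mem_univ j), sub_self]
  have hker : ∀ a ∈ Ideal.span (Set.range f), aeval (fun s => b s - d s) a = 0 := by
    intro a ha
    have h1 : Ideal.span (Set.range f) ≤
        RingHom.ker (aeval (fun s => b s - d s) : MvPolynomial (Fin 5) k →ₐ[k] B) := by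
      rw [Ideal.span_le]
      rintro _ ⟨j, rfl⟩
      exact hz j
    exact h1 ha
  refine ⟨Ideal.Quotient.liftₐ (Ideal.span (Set.range f)) (aeval fun s => b s - d s) hker, ?_⟩
  apply Ideal.Quotient.algHom_ext
  apply MvPolynomial.algHom_ext
  intro s
  show Ideal.Quotient.mk J (aeval (fun s => b s - d s) (X s)) =
    φ (Ideal.Quotient.mk (Ideal.span (Set.range f)) (X s))
  rw [aeval_X, map_sub, Ideal.Quotient.eq_zero_iff_mem.mpr (hdJ s), sub_zero, hb]

theorem p_NEW : Stmt_NEW := by
  intro k _ r f N hN
  have h1 : (Ideal.span (Set.range f)).FG := by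
    classical
    refine ⟨Finset.univ.image f, ?_⟩
    rw [Finset.coe_image, Finset.coe_univ, Set.image_univ]
  exact
    { formallySmooth := NEW_formal k r f N hN
      finitePresentation := Algebra.FinitePresentation.quotient h1 }

end Pool.CXS
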