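import Pool.Agent.Work.MP_bf99ce_cx.InterfaceS

/-!
# THEOREM CX, part S: block NEZ (the coordinates are not zero)
-/

set_option autoImplicit false

noncomputable section

open MvPolynomial TensorProduct

namespace Pool.CXS

open Pool.CX

theorem NEZ_ne {k L : Type} [Field k] [Field L] [Algebra k L] (x : Fin 5 → L)
    (hx : AlgebraicIndependent k ![x 1, x 2]) (P : MvPolynomial (Fin 2) k)
    (hP : MvPolynomial.eval (fun _ => (0 : k)) P ≠ 0) : aeval ![x 1, x 2] P ≠ 0 := by
  intro h
  apply hP
  have h0 : P = 0 := (algebraicIndependent_iff.1 hx) P h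
  rw [h0, map_zero]

theorem p_NEZ : Stmt_NEZ := by
  intro k L _ _ _ _ ε x hs
  have hx0 : x 0 = 1 := hs.x0
  have h3 : x 3 ≠ 0 := by
    intro h
    have h1 := hs.onX.1
    rw [h] at h1
    refine NEZ_ne x hs.ind (-3 + 3 * X 0 ^ 3 + X 1 ^ 3 + C ε * (X 0 * X 1)) ?_ ?_
    · simp only [map_add, map_mul, map_neg, map_pow, eval_X, map_ofNat, eval_C]
      norm_num
    · simp only [map_add, map_mul, map_neg, map_pow, aeval_X, map_ofNat, algHom_C, Matrix.cons_val_zero, Matrix.cons_val_one]
      simp only [av, hx0] at h1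
      linear_combination -h1
  have h4 : x 4 ≠ 0 := by
    intro h
    have h1 := hs.onX.2
    rw [h] at h1
    refine NEZ_ne x hs.ind (-3 + X 0 ^ 3 + 3 * X 1 ^ 3) ?_ ?_
    · simp only [map_add, map_mul, map_neg, map_pow, eval_X, map_ofNat]
      norm_num
    · simp only [map_add, map_mul, map_neg, map_pow, aeval_X, map_ofNat, Matrix.cons_val_zero, Matrix.cons_val_one]
      simp only [bv, hx0] at h1
      linear_combination -h1
  have h1 : x 1 ≠ 0 := by
    have h := hs.ind.ne_zero 0
    simpa using h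
  have h2 : x 2 ≠ 0 := by
    have h := hs.ind.ne_zero 1
    simpa using h
  intro i
  fin_cases i
  · change x 0 ≠ 0
    rw [hx0]
    exact one_ne_zero
  · exact h1
  · exact h2
  · exact h3
  · exact h4

end Pool.CXS
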