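import Pool.Agent.Work.MP_bf99ce_cx.InterfaceS

/-! # THEOREM CX, block SNUL: the surface `X` is smooth -/

set_option autoImplicit false

noncomputable section

open MvPolynomial TensorProduct

namespace Pool.CXS

open Pool.CX

theorem NUL_cube {ε : ℂ} (hε : Transcendental ℚ ε) : ε ^ 3 ≠ 243 := by
  intro h
  apply hε
  refine IsAlgebraic.of_pow (n := 3) (by norm_num) ?_
  rw [h]
  have h1 : (243 : ℂ) = ((243 : ℕ) : ℂ) := by norm_num
  rw [h1]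
  exact isAlgebraic_natCast 243

theorem NUL_sigma {ε σ : ℂ} (hε : Transcendental ℚ ε) (h1 : σ ^ 2 + 8 * σ - 36 = 0)
    (h2 : 64 * σ ^ 3 = ε ^ 3 * (12 * σ - 72)) : False := by
  have hσ : IsAlgebraic ℚ σ := by
    refine ⟨Polynomial.X ^ 2 + Polynomial.C 8 * Polynomial.X - Polynomial.C 36, ?_, ?_⟩
    · intro h
      have h3 := congrArg (fun p : Polynomial ℚ => p.coeff 0) h
      simp at h3
    · simp only [map_add, map_sub, map_mul, map_pow, Polynomial.aeval_X, Polynomial.aeval_C]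
      have e1 : (algebraMap ℚ ℂ) 8 = 8 := map_ofNat _ 8
      have e2 : (algebraMap ℚ ℂ) 36 = 36 := map_ofNat _ 36
      rw [e1, e2]
      exact h1
  have hne : 12 * σ - 72 ≠ 0 := by
    intro h
    have h3 : σ = 6 := by linear_combination h / 12
    rw [h3] at h1
    norm_num at h1
  have n12 : (12 : ℂ) = ((12 : ℕ) : ℂ) := by norm_num
  have n72 : (72 : ℂ) = ((72 : ℕ) : ℂ) := by norm_num
  have n64 : (64 : ℂ) = ((64 : ℕ) : ℂ) := by norm_num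
  have a1 : IsAlgebraic ℚ (12 * σ - 72) := by
    rw [n12, n72]
    exact ((isAlgebraic_natCast 12).mul hσ).sub (isAlgebraic_natCast 72)
  have a2 : IsAlgebraic ℚ ((12 * σ - 72) * ε ^ 3) := by
    rw [mul_comm, ← h2, n64]
    exact (isAlgebraic_natCast 64).mul (hσ.pow 3)
  have a3 : IsAlgebraic ℚ (ε ^ 3) := IsAlgebraic.of_mul (mem_nonZeroDivisors_of_ne_zero hne) a1 a2
  exact hε (IsAlgebraic.of_pow (by norm_num) a3)

theorem NUL_caseA {ε : ℂ} (hε : Transcendental ℚ ε) {y0 y1 y2 : ℂ} (h0 : -9 * y0 ^ 2 + ε * (y1 * y2) = 0)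
    (h1 : 9 * y1 ^ 2 + ε * (y0 * y2) = 0) (h2 : 3 * y2 ^ 2 + ε * (y0 * y1) = 0) : y0 = 0 ∧ y1 = 0 ∧ y2 = 0 := by
  have e0 : 9 * y0 ^ 3 = ε * (y0 * y1 * y2) := by linear_combination (-y0) * h0
  have e1 : 9 * y1 ^ 3 = -(ε * (y0 * y1 * y2)) := by linear_combination y1 * h1
  have e2 : 3 * y2 ^ 3 = -(ε * (y0 * y1 * y2)) := by linear_combination y2 * h2
  have e3 : (243 - ε ^ 3) * (y0 * y1 * y2) ^ 3 = 0 := by
    have e4 : 9 * y0 ^ 3 * (9 * y1 ^ 3) * (3 * y2 ^ 3) =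
        ε * (y0 * y1 * y2) * -(ε * (y0 * y1 * y2)) * -(ε * (y0 * y1 * y2)) := by rw [e0, e1, e2]
    linear_combination e4
  have e5 : y0 * y1 * y2 = 0 := by
    rcases mul_eq_zero.1 e3 with h | h
    · exact absurd (by linear_combination -h) (NUL_cube hε)
    · exact pow_eq_zero_iff (by norm_num) |>.1 h
  rw [e5] at e0 e1 e2
  refine ⟨?_, ?_, ?_⟩
  · have h : y0 ^ 3 = 0 := by linear_combination e0 / 9
    exact pow_eq_zero_iff (by norm_num) |>.1 h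
  · have h : y1 ^ 3 = 0 := by linear_combination e1 / 9
    exact pow_eq_zero_iff (by norm_num) |>.1 h
  · have h : y2 ^ 3 = 0 := by linear_combination e2 / 3
    exact pow_eq_zero_iff (by norm_num) |>.1 h

theorem NUL_caseC {ε : ℂ} (hε : Transcendental ℚ ε) {y0 y1 y2 : ℂ}
    (ha : -3 * y0 ^ 3 + 3 * y1 ^ 3 + y2 ^ 3 + ε * (y0 * y1 * y2) = 0) (hb : -3 * y0 ^ 3 + y1 ^ 3 + 3 * y2 ^ 3 = 0)
    (h : (-9 * y0 ^ 2 + ε * (y1 * y2)) * (3 * y1 ^ 2) - (9 * y1 ^ 2 + ε * (y0 * y2)) * (-9 * y0 ^ 2) = 0) :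
    y0 = 0 ∧ y1 = 0 ∧ y2 = 0 := by
  have h0 : y0 = 0 := by
    by_contra hy0
    have hu : y0 ^ 3 ≠ 0 := pow_ne_zero 3 hy0
    set s : ℂ := ε * (y0 * y1 * y2) with hs
    have e1 : 8 * y1 ^ 3 = 6 * y0 ^ 3 - 3 * s := by rw [hs]; linear_combination 3 * ha - hb
    have e2 : 8 * y2 ^ 3 = 6 * y0 ^ 3 + s := by rw [hs]; linear_combination 3 * hb - ha
    have e3 : 54 * (y0 ^ 3 * y1 ^ 3) + 3 * s * y1 ^ 3 + 9 * s * y0 ^ 3 = 0 := by
      rw [hs]; linear_combination y0 * y1 * h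
    have e4 : s ^ 2 + 8 * s * y0 ^ 3 - 36 * (y0 ^ 3) ^ 2 = 0 := by
      linear_combination (-8 / 9 : ℂ) * e3 + (6 * y0 ^ 3 + s / 3) * e1
    have e5 : 64 * s ^ 3 = ε ^ 3 * (y0 ^ 3 * (6 * y0 ^ 3 - 3 * s) * (6 * y0 ^ 3 + s)) := by
      rw [← e1, ← e2, hs]; ring
    refine NUL_sigma (σ := s / y0 ^ 3) hε ?_ ?_
    · field_simp
      linear_combination e4
    · have e6 : 64 * (s / y0 ^ 3) ^ 3 = ε ^ 3 * ((6 - 3 * (s / y0 ^ 3)) * (6 + s / y0 ^ 3)) := by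
        field_simp
        linear_combination e5
      have e7 : (s / y0 ^ 3) ^ 2 = 36 - 8 * (s / y0 ^ 3) := by
        field_simp
        linear_combination e4
      rw [e6]
      linear_combination (-3 * ε ^ 3) * e7
  rw [h0] at ha hb
  have e1 : y1 ^ 3 = 0 := by linear_combination (3 / 8 : ℂ) * ha - (1 / 8 : ℂ) * hb
  have e2 : y2 ^ 3 = 0 := by linear_combination (3 / 8 : ℂ) * hb - (1 / 8 : ℂ) * ha
  exact ⟨h0, pow_eq_zero_iff (by norm_num) |>.1 e1, pow_eq_zero_iff (by norm_num) |>.1 e2⟩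

/-- BLOCK SNUL. -/
theorem p_NUL : Stmt_NUL := by
  intro ε hε y hy hm
  obtain ⟨hy3, hy4⟩ := hy
  have hy3' : y 3 ^ 3 = -3 * y 0 ^ 3 + 3 * y 1 ^ 3 + y 2 ^ 3 + ε * (y 0 * y 1 * y 2) := hy3
  have hy4' : y 4 ^ 3 = -3 * y 0 ^ 3 + y 1 ^ 3 + 3 * y 2 ^ 3 := hy4
  have m34 : (-3 * y 3 ^ 2) * (-3 * y 4 ^ 2) - 0 * 0 = 0 := hm 3 4
  have m04 : (-9 * y 0 ^ 2 + ε * (y 1 * y 2)) * (-3 * y 4 ^ 2) - 0 * (-9 * y 0 ^ 2) = 0 := hm 0 4
  have m14 : (9 * y 1 ^ 2 + ε * (y 0 * y 2)) * (-3 * y 4 ^ 2) - 0 * (3 * y 1 ^ 2) = 0 := hm 1 4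
  have m24 : (3 * y 2 ^ 2 + ε * (y 0 * y 1)) * (-3 * y 4 ^ 2) - 0 * (9 * y 2 ^ 2) = 0 := hm 2 4
  have m30 : (-3 * y 3 ^ 2) * (-9 * y 0 ^ 2) - (-9 * y 0 ^ 2 + ε * (y 1 * y 2)) * 0 = 0 := hm 3 0
  have m31 : (-3 * y 3 ^ 2) * (3 * y 1 ^ 2) - (9 * y 1 ^ 2 + ε * (y 0 * y 2)) * 0 = 0 := hm 3 1
  have m32 : (-3 * y 3 ^ 2) * (9 * y 2 ^ 2) - (3 * y 2 ^ 2 + ε * (y 0 * y 1)) * 0 = 0 := hm 3 2
  have m01 : (-9 * y 0 ^ 2 + ε * (y 1 * y 2)) * (3 * y 1 ^ 2) - (9 * y 1 ^ 2 + ε * (y 0 * y 2)) * (-9 * y 0 ^ 2) = 0 := hm 0 1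
  have key : y 0 = 0 ∧ y 1 = 0 ∧ y 2 = 0 := by
    by_cases h4 : y 4 = 0
    · by_cases h3 : y 3 = 0
      · rw [h3] at hy3'
        rw [h4] at hy4'
        refine NUL_caseC hε (by linear_combination -hy3') (by linear_combination -hy4') m01
      · have h3' : y 3 ^ 2 ≠ 0 := pow_ne_zero 2 h3
        refine ⟨?_, ?_, ?_⟩
        · have h : y 3 ^ 2 * y 0 ^ 2 = 0 := by linear_combination m30 / 27
          rcases mul_eq_zero.1 h with h | h
          · exact absurd h h3'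
          · exact pow_eq_zero_iff (by norm_num) |>.1 h
        · have h : y 3 ^ 2 * y 1 ^ 2 = 0 := by linear_combination (-1 / 9 : ℂ) * m31
          rcases mul_eq_zero.1 h with h | h
          · exact absurd h h3'
          · exact pow_eq_zero_iff (by norm_num) |>.1 h
        · have h : y 3 ^ 2 * y 2 ^ 2 = 0 := by linear_combination (-1 / 27 : ℂ) * m32
          rcases mul_eq_zero.1 h with h | h
          · exact absurd h h3'
          · exact pow_eq_zero_iff (by norm_num) |>.1 h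
    · have h4' : y 4 ^ 2 ≠ 0 := pow_ne_zero 2 h4
      refine NUL_caseA hε ?_ ?_ ?_
      · have h : y 4 ^ 2 * (-9 * y 0 ^ 2 + ε * (y 1 * y 2)) = 0 := by linear_combination (-1 / 3 : ℂ) * m04
        rcases mul_eq_zero.1 h with h | h
        · exact absurd h h4'
        · exact h
      · have h : y 4 ^ 2 * (9 * y 1 ^ 2 + ε * (y 0 * y 2)) = 0 := by linear_combination (-1 / 3 : ℂ) * m14
        rcases mul_eq_zero.1 h with h | h
        · exact absurd h h4'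
        · exact h
      · have h : y 4 ^ 2 * (3 * y 2 ^ 2 + ε * (y 0 * y 1)) = 0 := by linear_combination (-1 / 3 : ℂ) * m24
        rcases mul_eq_zero.1 h with h | h
        · exact absurd h h4'
        · exact h
  obtain ⟨h0, h1, h2⟩ := key
  have h3 : y 3 = 0 := by
    rw [h0, h1, h2] at hy3'
    have h : y 3 ^ 3 = 0 := by linear_combination hy3'
    exact pow_eq_zero_iff (by norm_num) |>.1 h
  have h4 : y 4 = 0 := by
    rw [h0, h1, h2] at hy4'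
    have h : y 4 ^ 3 = 0 := by linear_combination hy4'
    exact pow_eq_zero_iff (by norm_num) |>.1 h
  funext i
  fin_cases i
  · exact h0
  · exact h1
  · exact h2
  · exact h3
  · exact h4

end Pool.CXS
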