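import Pool.Agent.Work.MP_bf99ce_cx.InterfaceS

/-!
# THEOREM CX, part S, block PRO: the charts of the product are smooth
-/

set_option autoImplicit false

noncomputable section

open MvPolynomial TensorProduct

namespace Pool.CXS

open Pool.CX

theorem PRO_gp {K : Type} [Field K] [Algebra ℂ K] {ε : ℂ} {x x' : Fin 5 → K} (hM : Model K ε x x') : GP ε x := by
  refine ⟨hM.one, ?_, hM.on⟩
  have h := hM.ai.comp (![0, 1] : Fin 2 → Fin 4) (by decide)
  have e : ![x 1, x 2, x' 1, x' 2] ∘ (![0, 1] : Fin 2 → Fin 4) = ![x 1, x 2] := by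
    funext i
    fin_cases i <;> rfl
  rwa [e] at h

theorem PRO_gp' {K : Type} [Field K] [Algebra ℂ K] {ε : ℂ} {x x' : Fin 5 → K} (hM : Model K ε x x') : GP ε x' := by
  refine ⟨hM.one', ?_, hM.on'⟩
  have h := hM.ai.comp (![2, 3] : Fin 2 → Fin 4) (by decide)
  have e : ![x 1, x 2, x' 1, x' 2] ∘ (![2, 3] : Fin 2 → Fin 4) = ![x' 1, x' 2] := by
    funext i
    fin_cases i <;> rfl
  rwa [e] at h

/-- The chart of the product is the join of the charts of the factors. -/
theorem PRO_chart {K : Type} [Field K] [Algebra ℂ K] {x x' : Fin 5 → K} (hne : ∀ i, x i ≠ 0) (hne' : ∀ i, x' i ≠ 0)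
    (i j : Fin 5) : chart (seg x x') (i, j) = chart x i ⊔ chart x' j := by
  apply le_antisymm
  · refine Algebra.adjoin_le ?_
    rintro _ ⟨⟨p, q⟩, rfl⟩
    have e : seg x x' (p, q) / seg x x' (i, j) = (x p / x i) * (x' q / x' j) := by
      simp only [seg]
      rw [mul_div_mul_comm]
    show seg x x' (p, q) / seg x x' (i, j) ∈ chart x i ⊔ chart x' j
    rw [e]
    have h1 : x p / x i ∈ chart x i := Algebra.subset_adjoin ⟨p, rfl⟩
    have h2 : x' q / x' j ∈ chart x' j := Algebra.subset_adjoin ⟨q, rfl⟩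
    exact mul_mem ((le_sup_left : chart x i ≤ chart x i ⊔ chart x' j) h1)
      ((le_sup_right : chart x' j ≤ chart x i ⊔ chart x' j) h2)
  · refine sup_le (Algebra.adjoin_le ?_) (Algebra.adjoin_le ?_)
    · rintro _ ⟨p, rfl⟩
      refine Algebra.subset_adjoin ⟨(p, j), ?_⟩
      simp only [seg]
      rw [mul_div_mul_comm, div_self (hne' j), mul_one]
    · rintro _ ⟨q, rfl⟩
      refine Algebra.subset_adjoin ⟨(i, q), ?_⟩
      simp only [seg]
      rw [mul_div_mul_comm, div_self (hne i), one_mul]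

theorem p_PRO (h1 : Stmt_SMX) (h2 : Stmt_TEN) (h3 : Stmt_AIN) : Stmt_PRO := by
  intro K _ _ ε x x' hε hM ij
  obtain ⟨i, j⟩ := ij
  have hx := PRO_gp hM
  have hx' := PRO_gp' hM
  have hinj := h2 K ε x x' (IntermediateField.adjoin ℂ (Set.range x')) hx
    (fun l => IntermediateField.subset_adjoin ℂ _ ⟨l, rfl⟩) (h3 K ε x x' hM) i j
  haveI s1 : Algebra.Smooth ℂ (chart x i) := h1 K ε x hε hx i
  haveI s2 : Algebra.Smooth ℂ (chart x' j) := h1 K ε x' hε hx' j
  haveI s3 : Algebra.Smooth (chart x i) (chart x i ⊗[ℂ] chart x' j) := inferInstance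
  haveI s4 : Algebra.Smooth ℂ (chart x i ⊗[ℂ] chart x' j) := Algebra.Smooth.comp ℂ (chart x i) (chart x i ⊗[ℂ] chart x' j)
  have e : (Algebra.TensorProduct.productMap (chart x i).val (chart x' j).val).range = chart (seg x x') (i, j) := by
    rw [Algebra.TensorProduct.productMap_range, Subalgebra.range_val, Subalgebra.range_val, PRO_chart hM.ne hM.ne']
  have s5 := Algebra.Smooth.of_equiv (AlgEquiv.ofInjective _ hinj)
  rw [e] at s5
  exact s5

end Pool.CXS
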