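import Pool.Agent.Work.MP_bf99ce_cx.InterfaceS

/-!
# THEOREM CX, part S: block SMX (the charts of the surface are smooth)
-/

set_option autoImplicit false

noncomputable section

open MvPolynomial TensorProduct

namespace Pool.CXS

open Pool.CX

theorem SMX_range {R : Type} (a b c : R) : Set.range ![a, b, c] = {a, b, c} := by
  ext z
  simp only [Set.mem_range, Set.mem_insert_iff, Set.mem_singleton_iff, Fin.exists_fin_succ]
  simp [eq_comm]

theorem p_SMX (h1 : Stmt_KER) (h2 : Stmt_NEW) (h3 : Stmt_JAC) : Stmt_SMX := by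
  intro K _ _ ε x hε hx i
  obtain ⟨N, hN⟩ := h3 ε hε i
  have hs : Algebra.Smooth ℂ (MvPolynomial (Fin 5) ℂ ⧸
      Ideal.span (Set.range (![X i - 1, FX ε, GX] : Fin 3 → MvPolynomial (Fin 5) ℂ))) :=
    h2 ℂ 3 ![X i - 1, FX ε, GX] N hN
  let f : MvPolynomial (Fin 5) ℂ →ₐ[ℂ] K := aeval (fun l => x l / x i)
  have hker : Ideal.span (Set.range (![X i - 1, FX ε, GX] : Fin 3 → MvPolynomial (Fin 5) ℂ)) = RingHom.ker f := by
    rw [SMX_range]
    ext h
    rw [RingHom.mem_ker]
    exact (h1 ℂ K ε x hx i h).symm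
  have hr : f.range = chart x i := by
    unfold chart
    rw [Algebra.adjoin_range_eq_range_aeval]
  exact Algebra.Smooth.of_equiv (((Ideal.quotientEquivAlgOfEq ℂ hker).trans
    (Ideal.quotientKerEquivRange f)).trans (Subalgebra.equivOfEq _ _ hr))

end Pool.CXS
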