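import Pool.Agent.Work.MP_bf99ce_cx.InterfaceS

/-!
# Block TRA: there is a transcendental number
-/

set_option autoImplicit false

noncomputable section

open MvPolynomial TensorProduct

namespace Pool.CXS

open Pool.CX

theorem p_TRA : Stmt_TRA := by
  by_contra h
  unfold Stmt_TRA at h
  push Not at h
  refine not_countable_complex ((Algebraic.countable ℚ ℂ).mono ?_)
  intro x _
  have h1 := h x
  simp only [Transcendental, not_not] at h1
  exact h1

end Pool.CXS
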