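import Pool.Agent.Work.MP_bf99ce_cx.InterfaceS

/-!
# THEOREM CX, part S, block TRD: the dimension of the model
-/

set_option autoImplicit false

noncomputable section

open MvPolynomial

namespace Pool.CXS

open Pool.CX

/-- A root of the equations is algebraic over a subalgebra which contains `x_1`, `x_2`. -/
theorem TRD_alg {K : Type} [Field K] [Algebra ℂ K] {ε : ℂ} {x : Fin 5 → K} (S : Subalgebra ℂ K) (h0 : x 0 = 1) (h1 : x 1 ∈ S)
    (h2 : x 2 ∈ S) (ho : OnX (algebraMap ℂ K ε) x) (i : Fin 5) : IsAlgebraic S (x i) := by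
  have hS : ∀ z ∈ S, IsAlgebraic S z := fun z hz => isAlgebraic_algebraMap (⟨z, hz⟩ : S)
  have hε : algebraMap ℂ K ε ∈ S := S.algebraMap_mem ε
  have h3 : ∀ n : ℕ, (n : K) ∈ S := fun n => natCast_mem S n
  have h3' : (3 : K) ∈ S := by exact_mod_cast h3 3
  fin_cases i
  · exact hS _ (by rw [show x ((fun i => i) ⟨0, by norm_num⟩) = x 0 from rfl, h0]; exact one_mem S)
  · exact hS _ h1
  · exact hS _ h2
  · refine IsAlgebraic.of_pow (n := 3) (by norm_num) (hS _ ?_)
    show x 3 ^ 3 ∈ S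
    rw [ho.1, av, h0]
    exact add_mem (add_mem (add_mem (mul_mem (neg_mem h3') (pow_mem (one_mem S) 3)) (mul_mem h3' (pow_mem h1 3))) (pow_mem h2 3))
      (mul_mem hε (mul_mem (mul_mem (one_mem S) h1) h2))
  · refine IsAlgebraic.of_pow (n := 3) (by norm_num) (hS _ ?_)
    show x 4 ^ 3 ∈ S
    rw [ho.2, bv, h0]
    exact add_mem (add_mem (mul_mem (neg_mem h3') (pow_mem (one_mem S) 3)) (pow_mem h1 3)) (mul_mem h3' (pow_mem h2 3))

theorem p_TRD : Stmt_TRD := by
  intro K _ _ ε x x' hM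
  have hbas : IsTranscendenceBasis ℂ ![x 1, x 2, x' 1, x' 2] := by
    rw [hM.ai.isTranscendenceBasis_iff_isAlgebraic]
    set S := Algebra.adjoin ℂ (Set.range ![x 1, x 2, x' 1, x' 2]) with hS
    have m0 : x 1 ∈ S := Algebra.subset_adjoin ⟨0, rfl⟩
    have m1 : x 2 ∈ S := Algebra.subset_adjoin ⟨1, rfl⟩
    have m2 : x' 1 ∈ S := Algebra.subset_adjoin ⟨2, rfl⟩
    have m3 : x' 2 ∈ S := Algebra.subset_adjoin ⟨3, rfl⟩
    have key : ∀ z ∈ Algebra.adjoin ℂ (Set.range x ∪ Set.range x'), IsAlgebraic S z := by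
      intro z hz
      induction hz using Algebra.adjoin_induction with
      | mem z hz =>
        rcases hz with ⟨i, rfl⟩ | ⟨i, rfl⟩
        · exact TRD_alg S hM.one m0 m1 hM.on i
        · exact TRD_alg S hM.one' m2 m3 hM.on' i
      | algebraMap c => exact isAlgebraic_algebraMap (⟨algebraMap ℂ K c, S.algebraMap_mem c⟩ : S)
      | add a b _ _ ha hb => exact ha.add hb
      | mul a b _ _ ha hb => exact ha.mul hb
    refine ⟨fun z => ?_⟩
    obtain ⟨a, b, ha, hb, -, rfl⟩ := hM.gen z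
    rw [div_eq_mul_inv]
    exact (key a ha).mul (key b hb).inv
  rw [← hbas.cardinalMk_eq_trdeg, Cardinal.mk_fin]
  norm_num

end Pool.CXS
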