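import Pool.Agent.Work.MP_bf99ce_cx.InterfaceT2

/-! # Block T2CU: cubes in `k[z_1, z_2]`

We divide `c, e` by their common power of `z_1`, put `z_1 = 0`, pass to an algebraic closure and compare root multiplicities at a cube
root of `3` and at `1`. -/

namespace Pool.CXT

open MvPolynomial

/-- Root multiplicity of a power. -/
theorem cu_rm_pow {K : Type} [Field K] (s : K) (p : Polynomial K) (hp : p ≠ 0) (n : ℕ) :
    (p ^ n).rootMultiplicity s = n * p.rootMultiplicity s := by
  induction n with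
  | zero =>
    rw [pow_zero, Nat.zero_mul]
    exact Polynomial.rootMultiplicity_eq_zero (by simp [Polynomial.IsRoot])
  | succ n ih =>
    rw [pow_succ, Polynomial.rootMultiplicity_mul (mul_ne_zero (pow_ne_zero _ hp) hp), ih]
    ring

/-- A simple root of `a` which is not a root of `b` forces `3` to divide `i`. -/
theorem cu_div {K : Type} [Field K] (s : K) (c a b e : Polynomial K) (i j : ℕ) (hc : c ≠ 0) (ha : a ≠ 0) (hb : b ≠ 0)
    (h : c ^ 3 * a ^ i * b ^ j = e ^ 3) (h1 : a.rootMultiplicity s = 1) (h0 : b.rootMultiplicity s = 0) : 3 ∣ i := by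
  have hca : c ^ 3 * a ^ i ≠ 0 := mul_ne_zero (pow_ne_zero _ hc) (pow_ne_zero _ ha)
  have hcab : c ^ 3 * a ^ i * b ^ j ≠ 0 := mul_ne_zero hca (pow_ne_zero _ hb)
  have he : e ≠ 0 := by
    rintro rfl
    exact hcab (by rw [h]; simp)
  have h2 := congrArg (Polynomial.rootMultiplicity s) h
  rw [Polynomial.rootMultiplicity_mul hcab, Polynomial.rootMultiplicity_mul hca, cu_rm_pow s c hc, cu_rm_pow s a ha,
    cu_rm_pow s b hb, cu_rm_pow s e he, h1, h0] at h2
  omega

/-- The one-variable statement over an algebraically closed field. -/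
theorem cu_uni {K : Type} [Field K] [CharZero K] [IsAlgClosed K] (c e : Polynomial K) (i j : ℕ) (hc : c ≠ 0) (hi : i ≤ 2)
    (hj : j ≤ 2) (h : c ^ 3 * (-3 + Polynomial.X ^ 3) ^ i * (-3 + 3 * Polynomial.X ^ 3) ^ j = e ^ 3) : i = 0 ∧ j = 0 := by
  obtain ⟨r, hr⟩ := IsAlgClosed.exists_pow_nat_eq (3 : K) (show 0 < 3 by norm_num)
  have hr0 : r ≠ 0 := by
    rintro rfl
    norm_num at hr
  have ha : (-3 + Polynomial.X ^ 3 : Polynomial K) = (Polynomial.X - Polynomial.C r) *
      (Polynomial.X ^ 2 + Polynomial.C r * Polynomial.X + Polynomial.C r ^ 2) := by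
    have h3 : (3 : Polynomial K) = Polynomial.C r ^ 3 := by
      rw [← Polynomial.C_pow, hr]
      exact (map_ofNat Polynomial.C 3).symm
    rw [h3]
    ring
  have hb : (-3 + 3 * Polynomial.X ^ 3 : Polynomial K) = (Polynomial.X - Polynomial.C 1) *
      (3 * (Polynomial.X ^ 2 + Polynomial.X + 1)) := by
    rw [Polynomial.C_1]
    ring
  have ha0 : (-3 + Polynomial.X ^ 3 : Polynomial K) ≠ 0 := by
    intro h0
    have h1 := congrArg (Polynomial.eval (0 : K)) h0
    simp at h1
  have hb0 : (-3 + 3 * Polynomial.X ^ 3 : Polynomial K) ≠ 0 := by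
    intro h0
    have h1 := congrArg (Polynomial.eval (0 : K)) h0
    simp at h1
  have ham : (-3 + Polynomial.X ^ 3 : Polynomial K).rootMultiplicity r = 1 := by
    have hne := ha0
    rw [ha] at hne ⊢
    rw [Polynomial.rootMultiplicity_mul hne, Polynomial.rootMultiplicity_X_sub_C_self, Polynomial.rootMultiplicity_eq_zero]
    rw [Polynomial.IsRoot.def]
    simp only [Polynomial.eval_add, Polynomial.eval_mul, Polynomial.eval_pow, Polynomial.eval_X, Polynomial.eval_C]
    intro h0
    have h1 : 3 * r ^ 2 = 0 := by linear_combination h0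
    rcases mul_eq_zero.mp h1 with h2 | h2
    · norm_num at h2
    · exact hr0 (pow_eq_zero_iff (two_ne_zero) |>.mp h2)
  have hbm : (-3 + 3 * Polynomial.X ^ 3 : Polynomial K).rootMultiplicity 1 = 1 := by
    have hne := hb0
    rw [hb] at hne ⊢
    rw [Polynomial.rootMultiplicity_mul hne, Polynomial.rootMultiplicity_X_sub_C_self, Polynomial.rootMultiplicity_eq_zero]
    rw [Polynomial.IsRoot.def]
    simp only [Polynomial.eval_add, Polynomial.eval_mul, Polynomial.eval_pow, Polynomial.eval_X, Polynomial.eval_ofNat,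
      Polynomial.eval_one]
    norm_num
  have ha1 : (-3 + Polynomial.X ^ 3 : Polynomial K).rootMultiplicity 1 = 0 := by
    rw [Polynomial.rootMultiplicity_eq_zero]
    rw [Polynomial.IsRoot.def]
    simp only [Polynomial.eval_add, Polynomial.eval_neg, Polynomial.eval_pow, Polynomial.eval_X, Polynomial.eval_ofNat]
    norm_num
  have hbr : (-3 + 3 * Polynomial.X ^ 3 : Polynomial K).rootMultiplicity r = 0 := by
    rw [Polynomial.rootMultiplicity_eq_zero]
    rw [Polynomial.IsRoot.def]
    simp only [Polynomial.eval_add, Polynomial.eval_neg, Polynomial.eval_mul, Polynomial.eval_pow, Polynomial.eval_X,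
      Polynomial.eval_ofNat, hr]
    norm_num
  have h3i := cu_div r c _ _ e i j hc ha0 hb0 h ham hbr
  have h3j := cu_div 1 c _ _ e j i hc hb0 ha0 (by rw [← h]; ring) hbm ha1
  omega

/-- `T^(3n)` divides `e^3` only if `T^n` divides `e`. -/
theorem cu_pow_dvd {R : Type} [CommRing R] [IsDomain R] (n : ℕ) : ∀ e : Polynomial R,
    Polynomial.X ^ (3 * n) ∣ e ^ 3 → Polynomial.X ^ n ∣ e := by
  induction n with
  | zero => intro e _; simp
  | succ n ih =>
    intro e h
    have h1 : Polynomial.X ∣ e := by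
      refine Polynomial.prime_X.dvd_of_dvd_pow (n := 3) (dvd_trans ?_ h)
      exact dvd_pow_self _ (by omega)
    obtain ⟨f, rfl⟩ := h1
    have h2 : (Polynomial.X : Polynomial R) ^ (3 * n) ∣ f ^ 3 := by
      rw [show 3 * (n + 1) = 3 + 3 * n by ring, pow_add, mul_pow] at h
      exact (mul_dvd_mul_iff_left (pow_ne_zero 3 Polynomial.X_ne_zero)).mp h
    rw [pow_succ']
    exact mul_dvd_mul_left _ (ih f h2)

/-- Stripping the common power of `T`. -/
theorem cu_strip {R : Type} [CommRing R] [IsDomain R] (c a b e : Polynomial R) (i j : ℕ) (hc : c ≠ 0)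
    (h : c ^ 3 * a ^ i * b ^ j = e ^ 3) :
    ∃ c' e' : Polynomial R, c'.eval 0 ≠ 0 ∧ c' ^ 3 * a ^ i * b ^ j = e' ^ 3 := by
  obtain ⟨c', hc', hnd⟩ := Polynomial.exists_eq_pow_rootMultiplicity_mul_and_not_dvd c hc 0
  generalize Polynomial.rootMultiplicity 0 c = n at hc'
  rw [Polynomial.C_0, sub_zero] at hc' hnd
  have hd : (Polynomial.X : Polynomial R) ^ (3 * n) ∣ e ^ 3 := ⟨c' ^ 3 * a ^ i * b ^ j, by rw [← h, hc']; ring⟩
  obtain ⟨e', rfl⟩ := cu_pow_dvd n e hd
  refine ⟨c', e', ?_, ?_⟩
  · intro h0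
    exact hnd (Polynomial.X_dvd_iff.mpr (by rw [Polynomial.coeff_zero_eq_eval_zero]; exact h0))
  · have hX : (Polynomial.X : Polynomial R) ^ (3 * n) ≠ 0 := pow_ne_zero _ Polynomial.X_ne_zero
    apply mul_left_cancel₀ hX
    rw [hc'] at h
    calc (Polynomial.X : Polynomial R) ^ (3 * n) * (c' ^ 3 * a ^ i * b ^ j)
        = (Polynomial.X ^ n * c') ^ 3 * a ^ i * b ^ j := by ring
      _ = (Polynomial.X ^ n * e') ^ 3 := h
      _ = _ := by ring

/-- Block T2CU. -/
theorem p_CU : Stmt_CU := by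
  intro k _ _ ε c e i j hc hi hj h
  have h1 := congrArg (MvPolynomial.finSuccEquiv k 1) h
  rw [map_mul, map_mul, map_pow, map_pow, map_pow, map_pow] at h1
  have hc1 : MvPolynomial.finSuccEquiv k 1 c ≠ 0 := by
    intro h0
    exact hc ((map_eq_zero_iff _ (MvPolynomial.finSuccEquiv k 1).injective).mp h0)
  obtain ⟨c', e', hc', h2⟩ := cu_strip _ _ _ _ i j hc1 h1
  have hX0 : MvPolynomial.finSuccEquiv k 1 (X 0) = Polynomial.X := MvPolynomial.finSuccEquiv_X_zero
  have hX1 : MvPolynomial.finSuccEquiv k 1 (X 1) = Polynomial.C (X 0) := MvPolynomial.finSuccEquiv_X_succ (j := 0)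
  have h3 := congrArg (Polynomial.eval 0) h2
  rw [Polynomial.eval_mul, Polynomial.eval_mul, Polynomial.eval_pow, Polynomial.eval_pow, Polynomial.eval_pow,
    Polynomial.eval_pow] at h3
  have hA : Polynomial.eval 0 (MvPolynomial.finSuccEquiv k 1 (-3 + 3 * X 0 ^ 3 + X 1 ^ 3 + C ε * (X 0 * X 1))) =
      -3 + X 0 ^ 3 := by
    simp only [map_add, map_mul, map_pow, map_neg, map_ofNat, hX0, hX1, Polynomial.eval_add, Polynomial.eval_mul,
      Polynomial.eval_pow, Polynomial.eval_X, Polynomial.eval_C, Polynomial.eval_neg, Polynomial.eval_ofNat]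
    ring
  have hB : Polynomial.eval 0 (MvPolynomial.finSuccEquiv k 1 (-3 + X 0 ^ 3 + 3 * X 1 ^ 3)) =
      -3 + 3 * X 0 ^ 3 := by
    simp only [map_add, map_mul, map_pow, map_neg, map_ofNat, hX0, hX1, Polynomial.eval_add, Polynomial.eval_mul,
      Polynomial.eval_pow, Polynomial.eval_X, Polynomial.eval_C, Polynomial.eval_neg, Polynomial.eval_ofNat]
    ring
  rw [hA, hB] at h3
  let φ : MvPolynomial (Fin 1) k →+* Polynomial (AlgebraicClosure k) :=
    (Polynomial.mapRingHom (algebraMap k (AlgebraicClosure k))).comp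
      (MvPolynomial.uniqueAlgEquiv k (Fin 1)).toAlgHom.toRingHom
  have hφi : Function.Injective φ := by
    have h4 : Function.Injective (Polynomial.map (algebraMap k (AlgebraicClosure k))) :=
      Polynomial.map_injective _ (algebraMap k (AlgebraicClosure k)).injective
    exact h4.comp (MvPolynomial.uniqueAlgEquiv k (Fin 1)).injective
  have hφX : φ (X 0) = Polynomial.X := by
    have h5 : MvPolynomial.uniqueAlgEquiv k (Fin 1) (X 0) = Polynomial.X := by
      simp [MvPolynomial.uniqueAlgEquiv]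
    change Polynomial.map (algebraMap k (AlgebraicClosure k)) (MvPolynomial.uniqueAlgEquiv k (Fin 1) (X 0)) = _
    rw [h5, Polynomial.map_X]
  have h6 := congrArg φ h3
  simp only [map_add, map_mul, map_pow, map_neg, map_ofNat, hφX] at h6
  haveI : CharZero (AlgebraicClosure k) := charZero_of_injective_algebraMap (algebraMap k (AlgebraicClosure k)).injective
  refine cu_uni _ _ i j ?_ hi hj h6
  intro h0
  exact hc' ((map_eq_zero_iff φ hφi).mp h0)

end Pool.CXT
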