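import Pool.Agent.Work.MP_bf99ce_cx.InterfaceT2
import Mathlib.FieldTheory.KummerPolynomial

/-!
# THEOREM CX, part T2, block KU: Kummer independence of the nine products `u^p v^q`
-/

set_option autoImplicit false

noncomputable section

namespace Pool.CXT

open Pool.CX Polynomial

/-- If `w^3 = A` is not a cube in the subfield `F`, then `1, w, w^2` are independent over `F`. -/
theorem ku_indep {L : Type} [Field L] (F : Subfield L) (w : L) (hw : w ^ 3 ∈ F) (hc : ∀ z ∈ F, z ^ 3 ≠ w ^ 3)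
    {a b c : L} (ha : a ∈ F) (hb : b ∈ F) (hcc : c ∈ F) (h : a + b * w + c * w ^ 2 = 0) : a = 0 ∧ b = 0 ∧ c = 0 := by
  set A : F := ⟨w ^ 3, hw⟩ with hA
  have hirr : Irreducible (X ^ 3 - C A : F[X]) := by
    refine X_pow_sub_C_irreducible_of_prime Nat.prime_three fun z hz => ?_
    exact hc z z.2 (by simpa [hA] using congrArg (Subtype.val) hz)
  have hroot : aeval w (X ^ 3 - C A : F[X]) = 0 := by
    simp only [map_sub, map_pow, aeval_X, aeval_C]
    exact sub_self _
  have hmp : (X ^ 3 - C A : F[X]) = minpoly F w :=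
    minpoly.eq_of_irreducible_of_monic hirr hroot (monic_X_pow_sub_C A (by norm_num))
  set g : F[X] := C (⟨a, ha⟩ : F) + C (⟨b, hb⟩ : F) * X + C (⟨c, hcc⟩ : F) * X ^ 2 with hg
  have hgw : aeval w g = 0 := by
    simp only [hg, map_add, map_mul, map_pow, aeval_X, aeval_C]
    exact h
  have hg0 : g = 0 := by
    by_contra hne
    have h1 := minpoly.degree_le_of_ne_zero F w hne hgw
    rw [← hmp, degree_X_pow_sub_C (by norm_num)] at h1
    have h2 : g.degree ≤ 2 := by
      rw [hg]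
      compute_degree
    have h3 := h1.trans h2
    norm_cast at h3
  have c0 : g.coeff 0 = ⟨a, ha⟩ := by simp [hg]
  have c1 : g.coeff 1 = ⟨b, hb⟩ := by simp [hg, coeff_X, coeff_C]
  have c2 : g.coeff 2 = ⟨c, hcc⟩ := by simp [hg, coeff_X, coeff_C]
  rw [hg0, coeff_zero] at c0 c1 c2
  exact ⟨(congrArg Subtype.val c0).symm, (congrArg Subtype.val c1).symm, (congrArg Subtype.val c2).symm⟩

/-- The elements of `K(u)`. -/
theorem ku_field {L : Type} [Field L] (K : Subfield L) (u : L) (hu : u ^ 3 ∈ K) :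
    ∃ F : Subfield L, K ≤ F ∧ u ∈ F ∧ ∀ y ∈ F, ∃ a ∈ K, ∃ b ∈ K, ∃ c ∈ K, y = a + b * u + c * u ^ 2 := by
  set A : K := ⟨u ^ 3, hu⟩ with hA
  have hmon : (X ^ 3 - C A : K[X]).Monic := monic_X_pow_sub_C A (by norm_num)
  have hroot : aeval u (X ^ 3 - C A : K[X]) = 0 := by
    simp only [map_sub, map_pow, aeval_X, aeval_C]
    exact sub_self _
  have hint : IsIntegral K u := ⟨_, hmon, by rwa [← aeval_def]⟩
  refine ⟨(IntermediateField.adjoin K {u}).toSubfield, fun z hz => ?_, ?_, fun y hy => ?_⟩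
  · exact (IntermediateField.adjoin K {u}).algebraMap_mem (⟨z, hz⟩ : K)
  · exact IntermediateField.mem_adjoin_simple_self K u
  · have hy1 : y ∈ Algebra.adjoin K {u} := by
      rw [← IntermediateField.adjoin_simple_toSubalgebra_of_isAlgebraic hint.isAlgebraic]
      exact hy
    rw [Algebra.adjoin_singleton_eq_range_aeval] at hy1
    obtain ⟨p, hp⟩ := hy1
    have hp' : aeval u p = y := hp
    set g := p %ₘ (X ^ 3 - C A : K[X]) with hg
    have hgu : aeval u g = y := by
      rw [hg, modByMonic_eq_sub_mul_div p _, map_sub, map_mul, hroot, zero_mul, sub_zero, hp']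
    have hdeg : g.natDegree < 3 := by
      have := natDegree_modByMonic_lt p hmon (by
        intro h1
        have h2 := congrArg natDegree h1
        rw [natDegree_X_pow_sub_C, natDegree_one] at h2
        norm_num at h2)
      rwa [natDegree_X_pow_sub_C] at this
    have hsum := aeval_eq_sum_range' hdeg u
    rw [hgu] at hsum
    refine ⟨g.coeff 0, (g.coeff 0).2, g.coeff 1, (g.coeff 1).2, g.coeff 2, (g.coeff 2).2, ?_⟩
    rw [hsum]
    simp only [Finset.sum_range_succ, Finset.sum_range_zero, Algebra.smul_def, pow_zero, mul_one, pow_one, zero_add]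
    rfl

theorem ku_cube {L : Type} [Field L] [CharZero L] (K : Subfield L) (u v : L) (hu : u ^ 3 ∈ K)
    (hcub : ∀ (i j : ℕ) (z : L), i ≤ 2 → j ≤ 2 → z ∈ K → (u ^ 3) ^ i * (v ^ 3) ^ j = z ^ 3 → i = 0 ∧ j = 0)
    (hv : v ^ 3 ∈ K) {a b c : L} (ha : a ∈ K) (hb : b ∈ K) (hc : c ∈ K) :
    (a + b * u + c * u ^ 2) ^ 3 ≠ v ^ 3 := by
  intro h
  set A := u ^ 3 with hA
  have hcu : ∀ z ∈ K, z ^ 3 ≠ u ^ 3 := by
    intro z hz h1
    have h2 := hcub 1 0 z (by norm_num) (by norm_num) hz (by rw [h1, hA]; ring)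
    simp at h2
  have hexp : (a + b * u + c * u ^ 2) ^ 3 =
      (a ^ 3 + A * b ^ 3 + A ^ 2 * c ^ 3 + 6 * A * a * b * c) + 3 * (a ^ 2 * b + A * b ^ 2 * c + A * a * c ^ 2) * u +
        3 * (a ^ 2 * c + a * b ^ 2 + A * b * c ^ 2) * u ^ 2 := by
    rw [hA]; ring
  have h3 : ∀ n : ℕ, (n : L) ∈ K := fun n => natCast_mem K n
  have h3' : (3 : L) ∈ K := by exact_mod_cast h3 3
  have h6' : (6 : L) ∈ K := by exact_mod_cast h3 6
  have hAK : A ∈ K := hu
  obtain ⟨hE0, hE1, hE2⟩ := ku_indep K u hu hcu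
    (a := a ^ 3 + A * b ^ 3 + A ^ 2 * c ^ 3 + 6 * A * a * b * c - v ^ 3)
    (b := 3 * (a ^ 2 * b + A * b ^ 2 * c + A * a * c ^ 2)) (c := 3 * (a ^ 2 * c + a * b ^ 2 + A * b * c ^ 2))
    (by
      refine sub_mem (add_mem (add_mem (add_mem (pow_mem ha 3) (mul_mem hAK (pow_mem hb 3)))
        (mul_mem (pow_mem hAK 2) (pow_mem hc 3))) (mul_mem (mul_mem (mul_mem h6' hAK) ha |> fun t => t) hb |> fun t => mul_mem t hc)) hv)
    (mul_mem h3' (add_mem (add_mem (mul_mem (pow_mem ha 2) hb) (mul_mem (mul_mem hAK (pow_mem hb 2)) hc))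
      (mul_mem (mul_mem hAK ha) (pow_mem hc 2))))
    (mul_mem h3' (add_mem (add_mem (mul_mem (pow_mem ha 2) hc) (mul_mem ha (pow_mem hb 2)))
      (mul_mem (mul_mem hAK hb) (pow_mem hc 2))))
    (by rw [← sub_eq_zero.2 h, hexp]; ring)
  have n3 : (3 : L) ≠ 0 := by norm_num
  have hE1' : a ^ 2 * b + A * b ^ 2 * c + A * a * c ^ 2 = 0 := (mul_eq_zero.1 hE1).resolve_left n3
  have hE2' : a ^ 2 * c + a * b ^ 2 + A * b * c ^ 2 = 0 := (mul_eq_zero.1 hE2).resolve_left n3
  have hk : c * (A * b ^ 3 - a ^ 3) = 0 := by linear_combination b * hE1' - a * hE2'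
  rcases mul_eq_zero.1 hk with hc0 | hab
  · subst hc0
    have hab : a ^ 2 * b = 0 := by linear_combination hE1'
    rcases mul_eq_zero.1 hab with ha0 | hb0
    · have ha0' : a = 0 := by simpa using ha0
      subst ha0'
      have := hcub 2 1 (A * b) (by norm_num) (by norm_num) (mul_mem hAK hb) (by
        linear_combination (-A ^ 2) * hE0)
      simp at this
    · subst hb0
      have := hcub 0 1 a (by norm_num) (by norm_num) ha (by linear_combination -hE0)
      simp at this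
  · by_cases hb0 : b = 0
    · subst hb0
      have ha0 : a = 0 := by
        have : a ^ 3 = 0 := by linear_combination -hab
        simpa using this
      subst ha0
      have := hcub 1 1 (A * c) (by norm_num) (by norm_num) (mul_mem hAK hc) (by linear_combination (-A) * hE0)
      simp at this
    · have := hcub 1 0 (a / b) (by norm_num) (by norm_num) (div_mem ha hb) (by
        rw [div_pow, eq_div_iff (pow_ne_zero 3 hb0)]
        linear_combination hab)
      simp at this

theorem p_KU : Stmt_KU := by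
  intro L _ _ K u v hu hv hcub g hg hsum
  obtain ⟨F, hKF, huF, hF⟩ := ku_field K u hu
  have hcu : ∀ z ∈ K, z ^ 3 ≠ u ^ 3 := by
    intro z hz h1
    have h2 := hcub 1 0 z (by norm_num) (by norm_num) hz (by rw [h1]; ring)
    simp at h2
  have hcv : ∀ z ∈ F, z ^ 3 ≠ v ^ 3 := by
    intro z hz
    obtain ⟨a, ha, b, hb, c, hc, rfl⟩ := hF z hz
    exact ku_cube K u v hu hcub hv ha hb hc
  have hmem : ∀ q : Fin 3, g 0 q + g 1 q * u + g 2 q * u ^ 2 ∈ F := fun q =>
    add_mem (add_mem (hKF (hg 0 q)) (mul_mem (hKF (hg 1 q)) huF)) (mul_mem (hKF (hg 2 q)) (pow_mem huF 2))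
  obtain ⟨h0, h1, h2⟩ := ku_indep F v (hKF hv) hcv (hmem 0) (hmem 1) (hmem 2) (by
    rw [← hsum]
    simp only [Fin.sum_univ_three]
    simp
    ring)
  have hall : ∀ q : Fin 3, g 0 q = 0 ∧ g 1 q = 0 ∧ g 2 q = 0 := by
    intro q
    refine ku_indep K u hu hcu (hg 0 q) (hg 1 q) (hg 2 q) ?_
    fin_cases q
    · exact h0
    · exact h1
    · exact h2
  intro p q
  obtain ⟨t0, t1, t2⟩ := hall q
  fin_cases p
  · exact t0
  · exact t1
  · exact t2

end Pool.CXT
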