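import Pool.Agent.Work.MP_bf99ce_cx.B_SIND
import Pool.Agent.Work.MP_bf99ce_cx.B_SNEZ
import Pool.Agent.Work.MP_bf99ce_cx.B_SHOM
import Pool.Agent.Work.MP_bf99ce_cx.B_SKER
import Pool.Agent.Work.MP_bf99ce_cx.B_SNUL
import Pool.Agent.Work.MP_bf99ce_cx.B_SMIN
import Pool.Agent.Work.MP_bf99ce_cx.B_SMNU
import Pool.Agent.Work.MP_bf99ce_cx.B_SNEW
import Pool.Agent.Work.MP_bf99ce_cx.B_SJAC
import Pool.Agent.Work.MP_bf99ce_cx.B_SSMX
import Pool.Agent.Work.MP_bf99ce_cx.B_STEN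
import Pool.Agent.Work.MP_bf99ce_cx.B_SAIN
import Pool.Agent.Work.MP_bf99ce_cx.B_SPRO
import Pool.Agent.Work.MP_bf99ce_cx.B_SFRA
import Pool.Agent.Work.MP_bf99ce_cx.B_STRD
import Pool.Agent.Work.MP_bf99ce_cx.B_SMOD
import Pool.Agent.Work.MP_bf99ce_cx.B_STRA
import Pool.Agent.Work.MP_bf99ce_cx.B_SEND
import Pool.Agent.Work.MP_bf99ce_cx.B_T2KU
import Pool.Agent.Work.MP_bf99ce_cx.B_T2CU

/-!
# THEOREM CX, PART S: the model exists and is smooth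
-/

set_option autoImplicit false

namespace Pool.CXS

/-- **PART S.** -/
theorem smain : Pool.CX.Stmt_S := by
  have hIND : Stmt_IND := p_IND CXT.p_KU CXT.p_CU
  have hNEZ : Stmt_NEZ := p_NEZ
  have hHOM : Stmt_HOM := p_HOM hIND
  have hKER : Stmt_KER := p_KER hNEZ hHOM
  have hMIN : Stmt_MIN := p_MIN p_NUL
  have hMNU : Stmt_MNU := p_MNU hKER hMIN
  have hSMX : Stmt_SMX := p_SMX hKER p_NEW (p_JAC hMIN)
  have hPRO : Stmt_PRO := p_PRO hSMX (p_TEN hKER) p_AIN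
  exact p_END p_TRA (p_MOD hNEZ) hMNU hPRO p_FRA p_TRD

end Pool.CXS

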