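import Pool.Agent.Work.MP_bf99ce_cx.InterfaceT2

/-! # THEOREM CX, part T2, block CH: the elements of the chart ring and their differentials -/

set_option autoImplicit false

noncomputable section

open MvPolynomial

namespace Pool.CXT

open Pool.CX

section

variable {k L : Type} [Field k] [Field L] [Algebra k L] {ε : k} {x : Fin 5 → L} {d1 d2 : Derivation k L L}

theorem ch_cast {n n' : ℤ} {m m' : ℕ} {ψ ψ' : MvPolynomial (Fin 2) L} (h : ψ ∈ Wt ε x d1 d2 n m)
    (hn : n = n') (hm : m = m') (hψ : ψ = ψ') : ψ' ∈ Wt ε x d1 d2 n' m' := by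
  subst hn hm hψ
  exact h

theorem ch_dif_add (a b : L) : dif d1 d2 (a + b) = dif d1 d2 a + dif d1 d2 b := by
  simp only [dif, map_add]
  ring

theorem ch_dif_mul (a b : L) : dif d1 d2 (a * b) = C a * dif d1 d2 b + C b * dif d1 d2 a := by
  simp only [dif, Derivation.leibniz, smul_eq_mul, map_add, map_mul]
  ring

theorem ch_dif_alg (r : k) : dif d1 d2 (algebraMap k L r) = 0 := by
  simp [dif]

theorem ch_dif_div (a b : L) (hb : b ≠ 0) :
    C (b ^ 2) * dif d1 d2 (a / b) = C b * dif d1 d2 a - C a * dif d1 d2 b := by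
  have h1 : a = (a / b) * b := by field_simp
  have h2 : dif d1 d2 a = C (a / b) * dif d1 d2 b + C b * dif d1 d2 (a / b) := by
    conv_lhs => rw [h1]
    exact ch_dif_mul _ _
  have h3 : (C a : MvPolynomial (Fin 2) L) = C (a / b) * C b := by
    rw [← map_mul, ← h1]
  rw [h2, h3, map_pow]
  ring

variable [CharZero k]

theorem ch_pow (hSM : Stmt_SM) (hGEN : Stmt_GEN) (h : Set2 ε x d1 d2) (i : Fin 5) (n : ℕ) :
    C (x i ^ n) ∈ Wt ε x d1 d2 n 0 := by
  obtain ⟨g1, g2, -⟩ := hGEN k L ε x d1 d2 h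
  induction n with
  | zero => exact ch_cast (g1 1) (by simp) rfl (by simp)
  | succ n ih =>
    refine ch_cast (hSM k L ε x d1 d2 h _ _ _ _ _ _ ih (g2 i)) (by push_cast; ring) rfl ?_
    rw [← map_mul, ← pow_succ]

end

theorem p_CH (hSM : Stmt_SM) (hGEN : Stmt_GEN) : Stmt_CH := by
  intro k L _ _ _ _ ε x d1 d2 h i hi a ha
  obtain ⟨g1, g2, g3⟩ := hGEN k L ε x d1 d2 h
  have hpow := ch_pow hSM hGEN h i
  have hx : x i ≠ 0 := by
    rcases hi with rfl | rfl
    · rw [h.x0]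
      exact one_ne_zero
    · intro h0
      have h1 := h.d11
      rw [h0, map_zero] at h1
      exact zero_ne_one h1
  have hg : ∀ l, C (x i) * dif d1 d2 (x l) - C (x l) * dif d1 d2 (x i) ∈ Wt ε x d1 d2 1 1 := by
    intro l
    rcases hi with rfl | rfl
    · exact (g3 l).1
    · exact (g3 l).2
  have hmul : ∀ {n n' : ℤ} {m m' : ℕ} {ψ ψ' : MvPolynomial (Fin 2) L}, ψ ∈ Wt ε x d1 d2 n m →
      ψ' ∈ Wt ε x d1 d2 n' m' → ψ * ψ' ∈ Wt ε x d1 d2 (n + n') (m + m') :=
    fun {n n' m m' ψ ψ'} h1 h2 => hSM k L ε x d1 d2 h n n' m m' ψ ψ' h1 h2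
  refine Algebra.adjoin_induction (p := fun a _ => ∃ N0 : ℕ, ∀ N : ℕ, N0 ≤ N →
      C (x i ^ N) * C a ∈ Wt ε x d1 d2 N 0 ∧
        C (x i ^ N) * dif d1 d2 a ∈ Wt ε x d1 d2 ((N : ℤ) - 1) 1) ?_ ?_ ?_ ?_ ha
  · rintro _ ⟨l, rfl⟩
    refine ⟨2, fun N hN => ?_⟩
    obtain ⟨n, rfl⟩ := Nat.exists_eq_add_of_le hN
    constructor
    · refine ch_cast (hmul (hpow (n + 1)) (g2 l)) (by push_cast; ring) rfl ?_
      have h1 : x i ^ (n + 1) * x l = x i ^ (2 + n) * (x l / x i) := by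
        have h2 : x i ^ (2 + n) = x i ^ (n + 1) * x i := by ring
        rw [h2]
        field_simp
      rw [← map_mul, ← map_mul, h1]
    · refine ch_cast (hmul (hpow n) (hg l)) (by push_cast; ring) (by simp) ?_
      rw [← ch_dif_div _ _ hx, ← mul_assoc, ← map_mul, ← pow_add, add_comm n 2]
  · intro r
    refine ⟨0, fun N _ => ⟨?_, ?_⟩⟩
    · exact ch_cast (hmul (hpow N) (g1 r)) (by simp) rfl rfl
    · rw [ch_dif_alg, mul_zero]
      exact zero_mem _
  · rintro a b _ _ ⟨N1, h1⟩ ⟨N2, h2⟩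
    refine ⟨max N1 N2, fun N hN => ?_⟩
    obtain ⟨a1, a2⟩ := h1 N ((le_max_left _ _).trans hN)
    obtain ⟨b1, b2⟩ := h2 N ((le_max_right _ _).trans hN)
    constructor
    · rw [map_add, mul_add]
      exact add_mem a1 b1
    · rw [ch_dif_add, mul_add]
      exact add_mem a2 b2
  · rintro a b _ _ ⟨N1, h1⟩ ⟨N2, h2⟩
    refine ⟨N1 + N2, fun N hN => ?_⟩
    obtain ⟨n, rfl⟩ := Nat.exists_eq_add_of_le hN
    obtain ⟨a1, a2⟩ := h1 N1 le_rfl
    obtain ⟨b1, b2⟩ := h2 (N2 + n) (Nat.le_add_right _ _)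
    have hp : (C (x i ^ (N1 + N2 + n)) : MvPolynomial (Fin 2) L) =
        C (x i ^ N1) * C (x i ^ (N2 + n)) := by
      rw [← map_mul, ← pow_add, add_assoc]
    constructor
    · refine ch_cast (hmul a1 b1) (by push_cast; ring) rfl ?_
      rw [hp, map_mul C a b]
      ring
    · rw [ch_dif_mul, mul_add]
      refine add_mem ?_ ?_
      · refine ch_cast (hmul a1 b2) (by push_cast; ring) (by simp) ?_
        rw [hp]
        ring
      · refine ch_cast (hmul b1 a2) (by push_cast; ring) (by simp) ?_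
        rw [hp]
        ring

end Pool.CXT
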