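import Pool.Agent.Work.MP_bf99ce_cx.InterfaceT2

/-!
# THEOREM CX, part T2, block COL: collecting the exponents modulo `3`
-/

set_option autoImplicit false

noncomputable section

open MvPolynomial

namespace Pool.CXT

open Pool.CX

/-- The conclusion of COL for one `M`. -/
def ColAt {k L : Type} [Field k] [Field L] [Algebra k L] (ε : k) (x : Fin 5 → L) (d1 d2 : Derivation k L L) (n : ℤ) (m M : ℕ)
    (ψ : MvPolynomial (Fin 2) L) : Prop :=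
  ∃ P : Fin 3 → Fin 3 → P6 k,
    (∀ p q : Fin 3, (∃ d : ℕ, (d : ℤ) = 6 * M + n - (p : ℕ) - (q : ℕ) ∧ Bihom d m (P p q)) ∧ eul (P p q) = 0 ∧
      P p q ∈ Iw (aP ε) (3 * M - (p : ℕ)) ∧ P p q ∈ Iw bP (3 * M - (q : ℕ))) ∧
    C ((x 3 * x 4) ^ (3 * M)) * ψ = ∑ p : Fin 3, ∑ q : Fin 3, C (x 3 ^ (p : ℕ) * x 4 ^ (q : ℕ)) * ev6 x d1 d2 (P p q)

section

variable {k L : Type} [Field k] [Field L] [Algebra k L] {ε : k} {x : Fin 5 → L} {d1 d2 : Derivation k L L}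

theorem col_zero (h1 : Stmt_BI) (n : ℤ) (m M : ℕ) (hM : n.natAbs + 1 ≤ M) : ColAt ε x d1 d2 n m M 0 := by
  refine ⟨fun _ _ => 0, fun p q => ⟨⟨(6 * (M : ℤ) + n - (p : ℕ) - (q : ℕ)).toNat, ?_, ?_⟩, ?_, zero_mem _, zero_mem _⟩, ?_⟩
  · have hp := p.2
    have hq := q.2
    omega
  · exact (h1 k 0 0 _ 0 m 0).2.2.2.1
  · simp [eul]
  · simp

theorem col_add (h1 : Stmt_BI) (h2 : Stmt_EU) {n : ℤ} {m M : ℕ} {ψ ψ' : MvPolynomial (Fin 2) L}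
    (hψ : ColAt ε x d1 d2 n m M ψ) (hψ' : ColAt ε x d1 d2 n m M ψ') : ColAt ε x d1 d2 n m M (ψ + ψ') := by
  obtain ⟨P, hP, hs⟩ := hψ
  obtain ⟨Q, hQ, ht⟩ := hψ'
  refine ⟨fun p q => P p q + Q p q, fun p q => ?_, ?_⟩
  · obtain ⟨⟨d, hd, hb⟩, he, ha, hb'⟩ := hP p q
    obtain ⟨⟨d', hd', hc⟩, he', hc', hd''⟩ := hQ p q
    have hdd : d' = d := by omega
    subst hdd
    refine ⟨⟨d', hd, (h1 k (P p q) (Q p q) d' d' m m).2.1 hb hc⟩, ?_, add_mem ha hc', add_mem hb' hd''⟩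
    rw [(h2 k (P p q) (Q p q)).1, he, he', add_zero]
  · rw [mul_add, hs, ht, ← Finset.sum_add_distrib]
    refine Finset.sum_congr rfl fun p _ => ?_
    rw [← Finset.sum_add_distrib]
    refine Finset.sum_congr rfl fun q _ => ?_
    rw [map_add, mul_add]

theorem col_neg (h1 : Stmt_BI) (h2 : Stmt_EU) {n : ℤ} {m M : ℕ} {ψ : MvPolynomial (Fin 2) L}
    (hψ : ColAt ε x d1 d2 n m M ψ) : ColAt ε x d1 d2 n m M (-ψ) := by
  obtain ⟨P, hP, hs⟩ := hψ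
  refine ⟨fun p q => -P p q, fun p q => ?_, ?_⟩
  · obtain ⟨⟨d, hd, hb⟩, he, ha, hb'⟩ := hP p q
    refine ⟨⟨d, hd, (h1 k (P p q) 0 d 0 m 0).2.2.1 hb⟩, ?_, neg_mem ha, neg_mem hb'⟩
    rw [(h2 k (P p q) 0).2.1, he, neg_zero]
  · rw [mul_neg, hs, ← Finset.sum_neg_distrib]
    refine Finset.sum_congr rfl fun p _ => ?_
    rw [← Finset.sum_neg_distrib]
    refine Finset.sum_congr rfl fun q _ => ?_
    rw [map_neg, mul_neg]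

theorem col_zpow {y : L} (hy : y ≠ 0) (r : ℤ) (M p c : ℕ) (h : r + 3 * M = p + 3 * c) :
    y ^ (3 * M) * y ^ r = y ^ p * (y ^ 3) ^ c := by
  rw [← pow_mul, ← pow_add, ← zpow_natCast, ← zpow_natCast, ← zpow_add₀ hy]
  congr 1
  push_cast
  linarith

theorem col_piece [CharZero k] (h1 : Stmt_BI) (h2 : Stmt_EU) (h3 : Stmt_IW) (h4 : Stmt_EV) (hset : Set2 ε x d1 d2)
    {r s n : ℤ} {w w' d m M : ℕ} {P : P6 k} (hB : Bihom d m P) (he : eul P = 0) (ha : P ∈ Iw (aP ε) w) (hb : P ∈ Iw bP w')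
    (hw : 0 ≤ (w : ℤ) + r) (hw' : 0 ≤ (w' : ℤ) + s) (hn : (d : ℤ) + r + s = n)
    (hM : r.natAbs + s.natAbs + n.natAbs + 1 ≤ M) :
    ColAt ε x d1 d2 n m M (C (x 3 ^ r * x 4 ^ s) * ev6 x d1 d2 P) := by
  obtain ⟨hx3, hx4, -, -, -, hea, heb, -, -⟩ := h4 k L ε x d1 d2 hset
  obtain ⟨p0, c, hp0, hr⟩ : ∃ p0 c : ℕ, p0 < 3 ∧ r + 3 * M = p0 + 3 * c :=
    ⟨((r + 3 * M) % 3).toNat, ((r + 3 * M) / 3).toNat, by omega, by omega⟩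
  obtain ⟨q0, c', hq0, hs⟩ : ∃ q0 c' : ℕ, q0 < 3 ∧ s + 3 * M = q0 + 3 * c' :=
    ⟨((s + 3 * M) % 3).toNat, ((s + 3 * M) / 3).toNat, by omega, by omega⟩
  have haB : ∀ j : ℕ, Bihom (j * 3) (j * 0) ((aP ε) ^ j) := fun j =>
    (h1 k (aP ε) 0 3 0 0 0).2.2.2.2.2.2.2.2.2.2 j ((h1 k 0 0 0 0 0 0).2.2.2.2.2.2.2.1 ε).1
  have hbB : ∀ j : ℕ, Bihom (j * 3) (j * 0) ((bP : P6 k) ^ j) := fun j =>
    (h1 k bP 0 3 0 0 0).2.2.2.2.2.2.2.2.2.2 j (h1 k 0 0 0 0 0 0).2.2.2.2.2.2.2.2.1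
  have hae : ∀ j : ℕ, eul ((aP ε) ^ j) = 0 := fun j =>
    (h2 k (aP ε) 0).2.2.2.2.2.2.2.2.2 j ((h2 k 0 0).2.2.2.2.2.2.1 ε).1
  have hbe : ∀ j : ℕ, eul ((bP : P6 k) ^ j) = 0 := fun j =>
    (h2 k bP 0).2.2.2.2.2.2.2.2.2 j (h2 k 0 0).2.2.2.2.2.2.2.1
  set R : P6 k := (aP ε) ^ c * bP ^ c' * P with hR
  have hRe : eul R = 0 := by
    rw [hR, (h2 k _ _).2.2.1, (h2 k ((aP ε) ^ c) (bP ^ c')).2.2.1, he, hae, hbe]
    ring
  have hRB : Bihom (3 * c + 3 * c' + d) m R := by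
    have := (h1 k _ _ _ _ _ _).1 ((h1 k _ _ _ _ _ _).1 (haB c) (hbB c')) hB
    have e1 : c * 3 + c' * 3 + d = 3 * c + 3 * c' + d := by ring
    have e2 : c * 0 + c' * 0 + m = m := by ring
    rw [e1, e2] at this
    exact this
  have hRa : R ∈ Iw (aP ε) (3 * M - p0) := by
    have t1 := (h3 k (aP ε) _ _ _ _).1 ((h3 k (aP ε) 0 0 0 0).2.2.1 c) ha
    have t2 : (aP ε) ^ c * P ∈ Iw (aP ε) (3 * M - p0) :=
      (h3 k (aP ε) _ 0 (3 * c + w) (3 * M - p0)).2.1 (by omega) t1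
    have t3 : R = bP ^ c' * ((aP ε) ^ c * P) := by rw [hR]; ring
    rw [t3]
    exact Ideal.mul_mem_left _ _ t2
  have hRb : R ∈ Iw (bP : P6 k) (3 * M - q0) := by
    have t1 := (h3 k bP _ _ _ _).1 ((h3 k bP 0 0 0 0).2.2.1 c') hb
    have t2 : (bP : P6 k) ^ c' * P ∈ Iw (bP : P6 k) (3 * M - q0) :=
      (h3 k bP _ 0 (3 * c' + w') (3 * M - q0)).2.1 (by omega) t1
    have t3 : R = (aP ε) ^ c * (bP ^ c' * P) := by rw [hR]; ring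
    rw [t3]
    exact Ideal.mul_mem_left _ _ t2
  refine ⟨fun p q => if p = ⟨p0, hp0⟩ ∧ q = ⟨q0, hq0⟩ then R else 0, fun p q => ?_, ?_⟩
  · by_cases hpq : p = ⟨p0, hp0⟩ ∧ q = ⟨q0, hq0⟩
    · simp only [hpq, and_self, if_true]
      exact ⟨⟨3 * c + 3 * c' + d, by push_cast; omega, hRB⟩, hRe, hRa, hRb⟩
    · simp only [hpq, if_false]
      refine ⟨⟨(6 * (M : ℤ) + n - (p : ℕ) - (q : ℕ)).toNat, ?_, ?_⟩, ?_, zero_mem _, zero_mem _⟩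
      · have hp := p.2
        have hq := q.2
        omega
      · exact (h1 k 0 0 _ 0 m 0).2.2.2.1
      · simp [eul]
  · rw [Finset.sum_eq_single (⟨p0, hp0⟩ : Fin 3), Finset.sum_eq_single (⟨q0, hq0⟩ : Fin 3)]
    · simp only [and_self, if_true]
      have hRv : ev6 x d1 d2 R = C (x 3 ^ 3) ^ c * C (x 4 ^ 3) ^ c' * ev6 x d1 d2 P := by
        rw [hR, map_mul, map_mul, map_pow, map_pow, hea, heb]
      rw [hRv]
      have e3 := col_zpow hx3 r M p0 c hr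
      have e4 := col_zpow hx4 s M q0 c' hs
      have e5 : (x 3 * x 4) ^ (3 * M) * (x 3 ^ r * x 4 ^ s) = x 3 ^ p0 * x 4 ^ q0 * ((x 3 ^ 3) ^ c * (x 4 ^ 3) ^ c') := by
        rw [mul_pow]
        calc x 3 ^ (3 * M) * x 4 ^ (3 * M) * (x 3 ^ r * x 4 ^ s) = (x 3 ^ (3 * M) * x 3 ^ r) * (x 4 ^ (3 * M) * x 4 ^ s) := by ring
          _ = _ := by rw [e3, e4]; ring
      have e6 : C ((x 3 * x 4) ^ (3 * M)) * C (x 3 ^ r * x 4 ^ s) =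
          (C (x 3 ^ p0 * x 4 ^ q0) * (C (x 3 ^ 3) ^ c * C (x 4 ^ 3) ^ c') : MvPolynomial (Fin 2) L) := by
        rw [← C_pow, ← C_pow, ← C_mul, ← C_mul, ← C_mul, e5]
      rw [← mul_assoc, e6]
      ring
    · intro q _ hq
      simp [hq]
    · simp
    · intro p _ hp
      simp [hp]
    · simp

end

theorem p_COL (h1 : Stmt_BI) (h2 : Stmt_EU) (h3 : Stmt_IW) (h4 : Stmt_EV) : Stmt_COL := by
  intro k L _ _ _ _ ε x d1 d2 hset n m ψ hψ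
  suffices H : ∃ M0 : ℕ, ∀ M : ℕ, M0 ≤ M → ColAt ε x d1 d2 n m M ψ from H
  unfold Wt at hψ
  induction hψ using AddSubgroup.closure_induction with
  | mem ψ hψ =>
    obtain ⟨r, s, w, w', d, P, hB, he, ha, hb, hw, hw', hn, rfl⟩ := hψ
    exact ⟨r.natAbs + s.natAbs + n.natAbs + 1, fun M hM => col_piece h1 h2 h3 h4 hset hB he ha hb hw hw' hn hM⟩
  | zero => exact ⟨n.natAbs + 1, fun M hM => col_zero h1 n m M hM⟩
  | add ψ ψ' _ _ ih ih' =>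
    obtain ⟨M0, hM0⟩ := ih
    obtain ⟨M1, hM1⟩ := ih'
    exact ⟨max M0 M1, fun M hM => col_add h1 h2 (hM0 M (le_trans (le_max_left _ _) hM)) (hM1 M (le_trans (le_max_right _ _) hM))⟩
  | neg ψ _ ih =>
    obtain ⟨M0, hM0⟩ := ih
    exact ⟨M0, fun M hM => col_neg h1 h2 (hM0 M hM)⟩

end Pool.CXT
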