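import Pool.Agent.Work.MP_bf99ce_cx.InterfaceT2

/-!
# THEOREM CX, part T2, block DV: division by a power of `x_0`
-/

set_option autoImplicit false

noncomputable section

open MvPolynomial

namespace Pool.CXT

open Pool.CX

theorem dv_dvd {k : Type} [Field k] {N N' : ℕ} {P P' : P6 k} (h : Xx 1 ^ N' * P = Xx 0 ^ N * P') :
    (Xx 0 : P6 k) ^ N ∣ P := by
  have hp : Prime (Xx 0 : P6 k) := X_prime
  have hn : ¬ (Xx 0 : P6 k) ∣ Xx 1 ^ N' := by
    intro hd
    have h1 := hp.dvd_of_dvd_pow hd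
    rw [Xx, Xx, X_dvd_X] at h1
    simp at h1
  refine hp.pow_dvd_of_dvd_mul_left N hn ?_
  rw [h]
  exact dvd_mul_right _ _

theorem dv_eul_mul {k : Type} [Field k] (P Q : P6 k) : eul (P * Q) = P * eul Q + Q * eul P := by
  simp only [eul, Derivation.leibniz, smul_eq_mul, mul_add, Finset.sum_add_distrib, Finset.mul_sum]
  congr 1 <;> exact Finset.sum_congr rfl fun i _ => by ring

theorem dv_eul_pow {k : Type} [Field k] (N : ℕ) : eul ((Xx 0 : P6 k) ^ N) = 0 := by
  simp only [eul, Xx, Derivation.leibniz_pow, pderiv_X, Pi.single_apply]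
  simp

theorem dv_bihom {k : Type} [Field k] {N d m : ℕ} {Q : P6 k} (h : Bihom (d + N) m (Xx 0 ^ N * Q)) : Bihom d m Q := by
  intro s hs
  have h1 : Finsupp.single (Sum.inl 0) N + s ∈ ((Xx 0 : P6 k) ^ N * Q).support := by
    rw [mem_support_iff, Xx, X_pow_eq_monomial, coeff_monomial_mul, one_mul]
    exact mem_support_iff.1 hs
  obtain ⟨h2, h3⟩ := h _ h1
  simp only [Finsupp.coe_add, Pi.add_apply, Finset.sum_add_distrib, Finsupp.single_apply] at h2 h3
  simp at h2 h3
  exact ⟨by omega, h3⟩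

theorem p_DV : Stmt_DV := by
  intro k _ N N' P P' h
  obtain ⟨Q, rfl⟩ := dv_dvd h
  refine ⟨Q, rfl, fun he => ?_, fun d m hb => dv_bihom hb⟩
  rw [dv_eul_mul, dv_eul_pow, mul_zero, add_zero] at he
  exact (mul_eq_zero.1 he).resolve_left (pow_ne_zero _ (X_ne_zero _))

end Pool.CXT
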