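import Pool.Agent.Work.MP_bf99ce_cx.InterfaceT2

/-! # THEOREM CX, part T2, block EU: the derivation `eul` -/

set_option autoImplicit false

noncomputable section

open MvPolynomial

namespace Pool.CXT

open Pool.CX

variable {k : Type} [Field k]

private theorem EU_add (P Q : P6 k) : eul (P + Q) = eul P + eul Q := by
  simp [eul, mul_add, Finset.sum_add_distrib]

private theorem EU_neg (P : P6 k) : eul (-P) = -eul P := by
  simp [eul, Finset.sum_neg_distrib]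

private theorem EU_mul (P Q : P6 k) : eul (P * Q) = P * eul Q + Q * eul P := by
  simp only [eul, Derivation.leibniz, smul_eq_mul, mul_add, Finset.sum_add_distrib, Finset.mul_sum]
  congr 1 <;> exact Finset.sum_congr rfl fun i _ => by ring

private theorem EU_C (c : k) : eul (C c : P6 k) = 0 := by
  simp [eul]

private theorem EU_X (i : Fin 3) : eul (Xx i : P6 k) = 0 := by
  simp [eul, Xx, pderiv_X]

private theorem EU_V (i : Fin 3) : eul (Vv i : P6 k) = Xx i := by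
  simp only [eul, Vv, Fin.sum_univ_three, pderiv_X, Pi.single_apply, Sum.inr.injEq]
  fin_cases i <;> simp

private theorem EU_pow (P : P6 k) (n : ℕ) (h : eul P = 0) : eul (P ^ n) = 0 := by
  induction n with
  | zero =>
    rw [pow_zero, ← C_1]
    exact EU_C 1
  | succ n ih => rw [pow_succ, EU_mul, h, ih, mul_zero, mul_zero, add_zero]

private theorem EU_three (c : k) (P : P6 k) (h : eul P = 0) : eul (C c * P) = 0 := by
  rw [EU_mul, EU_C, h, mul_zero, mul_zero, add_zero]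

private theorem EU_a (ε : k) : eul (aP ε) = 0 := by
  have e : aP ε = C (-3) * Xx 0 ^ 3 + C 3 * Xx 1 ^ 3 + Xx 2 ^ 3 + C ε * (Xx 0 * (Xx 1 * Xx 2)) := by
    simp only [aP, map_neg, map_ofNat]
    ring
  have h : ∀ i, eul (Xx i ^ 3 : P6 k) = 0 := fun i => EU_pow _ _ (EU_X i)
  rw [e, EU_add, EU_add, EU_add, EU_three _ _ (h 0), EU_three _ _ (h 1), h 2, EU_three]
  · simp
  · rw [EU_mul, EU_mul, EU_X, EU_X, EU_X]
    simp

private theorem EU_b : eul (bP : P6 k) = 0 := by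
  have e : (bP : P6 k) = C (-3) * Xx 0 ^ 3 + Xx 1 ^ 3 + C 3 * Xx 2 ^ 3 := by
    simp only [bP, map_neg, map_ofNat]
  have h : ∀ i, eul (Xx i ^ 3 : P6 k) = 0 := fun i => EU_pow _ _ (EU_X i)
  rw [e, EU_add, EU_add, EU_three _ _ (h 0), EU_three _ _ (h 2), h 1]
  simp

private theorem EU_c (c : k) (P : P6 k) : eul (C c * P) = C c * eul P := by
  rw [EU_mul, EU_C, mul_zero, add_zero]

private theorem EU_x2v (i : Fin 3) : eul (Xx i ^ 2 * Vv i : P6 k) = Xx i ^ 3 := by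
  rw [EU_mul, EU_pow _ _ (EU_X i), EU_V]
  ring

private theorem EU_vxx (i j l : Fin 3) : eul (Vv i * (Xx j * Xx l) : P6 k) = Xx i * (Xx j * Xx l) := by
  rw [EU_mul, EU_mul, EU_X, EU_X, EU_V]
  ring

private theorem EU_da (ε : k) : eul (dv (aP ε)) = 3 * aP ε := by
  have e : dv (aP ε) = C (-9) * (Xx 0 ^ 2 * Vv 0) + C 9 * (Xx 1 ^ 2 * Vv 1) + C 3 * (Xx 2 ^ 2 * Vv 2)
      + C ε * (Vv 0 * (Xx 1 * Xx 2) + Vv 1 * (Xx 0 * Xx 2) + Vv 2 * (Xx 0 * Xx 1)) := by
    rw [dv_aP, dv_X3]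
    simp only [map_neg, map_ofNat]
  rw [e, EU_add, EU_add, EU_add, EU_c, EU_c, EU_c, EU_c, EU_x2v, EU_x2v, EU_x2v, EU_add, EU_add,
    EU_vxx, EU_vxx, EU_vxx]
  simp only [aP, map_neg, map_ofNat]
  ring

private theorem EU_db : eul (dv (bP : P6 k)) = 3 * bP := by
  have e : dv (bP : P6 k) = C (-9) * (Xx 0 ^ 2 * Vv 0) + C 3 * (Xx 1 ^ 2 * Vv 1)
      + C 9 * (Xx 2 ^ 2 * Vv 2) := by
    rw [dv_bP]
    simp only [map_neg, map_ofNat]
  rw [e, EU_add, EU_add, EU_c, EU_c, EU_c, EU_x2v, EU_x2v, EU_x2v]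
  simp only [bP, map_neg, map_ofNat]
  ring

theorem p_EU : Stmt_EU := by
  intro k _ P Q
  exact ⟨EU_add P Q, EU_neg P, EU_mul P Q, EU_C, EU_X, EU_V, fun ε => ⟨EU_a ε, EU_da ε⟩, EU_b, EU_db,
    fun n h => EU_pow P n h⟩

end Pool.CXT
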