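import Pool.Agent.Work.MP_bf99ce_cx.InterfaceT2

/-!
# THEOREM CX, part T2: block EV (values at the generic tangent vector)
-/

set_option autoImplicit false

noncomputable section

open MvPolynomial

namespace Pool.CXT

open Pool.CX

section

variable {k L : Type} [Field k] [Field L] [Algebra k L]

theorem ev_d3 (d : Derivation k L L) : d (3 : L) = 0 := by
  have h := d.map_natCast 3
  exact_mod_cast h

theorem ev_leib (ε : k) (x : Fin 5 → L) (d : Derivation k L L) (h : OnX (algebraMap k L ε) x) :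
    3 * x 3 ^ 2 * d (x 3) = dav (algebraMap k L ε) x (fun i => d (x i)) ∧
      3 * x 4 ^ 2 * d (x 4) = dbv x (fun i => d (x i)) := by
  constructor
  · have h1 := congrArg d h.1
    simp only [av, map_add, map_neg, neg_mul, Derivation.leibniz, Derivation.leibniz_pow, smul_eq_mul, nsmul_eq_mul, ev_d3,
      Derivation.map_algebraMap] at h1
    simp only [dav]
    push_cast at h1
    linear_combination h1
  · have h1 := congrArg d h.2
    simp only [bv, map_add, map_neg, neg_mul, Derivation.leibniz, Derivation.leibniz_pow, smul_eq_mul, nsmul_eq_mul, ev_d3] at h1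
    simp only [dbv]
    push_cast at h1
    linear_combination h1

theorem ev_ne [CharZero k] (x : Fin 5 → L) (hx : AlgebraicIndependent k ![x 1, x 2]) (P : MvPolynomial (Fin 2) k)
    (hP : MvPolynomial.eval (fun _ => (0 : k)) P ≠ 0) : aeval ![x 1, x 2] P ≠ 0 := by
  intro h
  apply hP
  have h0 : P = 0 := (algebraicIndependent_iff.1 hx) P h
  rw [h0, map_zero]

end

theorem p_EV : Stmt_EV := by
  intro k L _ _ _ _ ε x d1 d2 hs
  have hx0 : x 0 = 1 := hs.x0
  have hd0 : dif d1 d2 (x 0) = 0 := by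
    simp [dif, hx0]
  have h3 : x 3 ≠ 0 := by
    intro h
    have h1 := hs.onX.1
    rw [h] at h1
    refine ev_ne x hs.ind (-3 + 3 * X 0 ^ 3 + X 1 ^ 3 + C ε * (X 0 * X 1)) ?_ ?_
    · simp only [map_add, map_mul, map_neg, map_pow, eval_X, map_ofNat, eval_C]
      norm_num
    · simp only [map_add, map_mul, map_neg, map_pow, aeval_X, map_ofNat, algHom_C, Matrix.cons_val_zero, Matrix.cons_val_one]
      simp only [av, hx0] at h1
      linear_combination -h1
  have h4 : x 4 ≠ 0 := by
    intro h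
    have h1 := hs.onX.2
    rw [h] at h1
    refine ev_ne x hs.ind (-3 + X 0 ^ 3 + 3 * X 1 ^ 3) ?_ ?_
    · simp only [map_add, map_mul, map_neg, map_pow, eval_X, map_ofNat]
      norm_num
    · simp only [map_add, map_mul, map_neg, map_pow, aeval_X, map_ofNat, Matrix.cons_val_zero, Matrix.cons_val_one]
      simp only [bv, hx0] at h1
      linear_combination -h1
  have h1 : x 1 ≠ 0 := by
    have h := hs.ind.ne_zero 0
    simpa using h
  have hX : ∀ i : Fin 3, ev6 x d1 d2 (Xx i) = C (x (Fin.castAdd 2 i)) := by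
    intro i
    simp [ev6, Xx]
  have hV : ∀ i : Fin 3, ev6 x d1 d2 (Vv i) = dif d1 d2 (x (Fin.castAdd 2 i)) := by
    intro i
    simp [ev6, Vv]
  have hC : ∀ c : k, ev6 x d1 d2 (C c) = C (algebraMap k L c) := by
    intro c
    simp [ev6, MvPolynomial.algebraMap_eq, IsScalarTower.algebraMap_apply k L (MvPolynomial (Fin 2) L)]
  have hX0 : ev6 x d1 d2 (Xx 0) = C (x 0) := hX 0
  have hX1 : ev6 x d1 d2 (Xx 1) = C (x 1) := hX 1
  have hX2 : ev6 x d1 d2 (Xx 2) = C (x 2) := hX 2
  have hV0 : ev6 x d1 d2 (Vv 0) = dif d1 d2 (x 0) := hV 0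
  have hV1 : ev6 x d1 d2 (Vv 1) = dif d1 d2 (x 1) := hV 1
  have hV2 : ev6 x d1 d2 (Vv 2) = dif d1 d2 (x 2) := hV 2
  have hl1 := ev_leib ε x d1 hs.onX
  have hl2 := ev_leib ε x d2 hs.onX
  refine ⟨h3, h4, h1, hX, hV, ?_, ?_, ?_, ?_⟩
  · rw [hs.onX.1]
    simp only [aP, av, map_add, map_mul, map_neg, map_pow, map_ofNat, hX0, hX1, hX2, hC]
  · rw [hs.onX.2]
    simp only [bP, bv, map_add, map_mul, map_neg, map_pow, map_ofNat, hX0, hX1, hX2]
  · have e1 : C (3 * x 3 ^ 2) * dif d1 d2 (x 3) =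
        C (dav (algebraMap k L ε) x (fun i => d1 (x i))) * X 0 + C (dav (algebraMap k L ε) x (fun i => d2 (x i))) * X 1 := by
      rw [← hl1.1, ← hl2.1]
      simp only [dif, map_mul]
      ring
    rw [e1, dv_aP, dv_X3]
    simp only [dav, map_add, map_mul, map_neg, map_pow, map_ofNat, hX0, hX1, hX2, hV0, hV1, hV2, hC, dif]
    ring
  · have e1 : C (3 * x 4 ^ 2) * dif d1 d2 (x 4) =
        C (dbv x (fun i => d1 (x i))) * X 0 + C (dbv x (fun i => d2 (x i))) * X 1 := by
      rw [← hl1.2, ← hl2.2]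
      simp only [dif, map_mul]
      ring
    rw [e1, dv_bP]
    simp only [dbv, map_add, map_mul, map_neg, map_pow, map_ofNat, hX0, hX1, hX2, hV0, hV1, hV2, dif]
    ring

end Pool.CXT
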