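import Pool.Agent.Work.MP_bf99ce_cx.InterfaceT2

/-! # THEOREM CX, part T2, block FIN -/

set_option autoImplicit false

noncomputable section

open MvPolynomial

namespace Pool.CXT

open Pool.CX

theorem p_FIN (hBI : Stmt_BI) (hEU : Stmt_EU) (hEV : Stmt_EV) (hRG : Stmt_RG) (hCOL : Stmt_COL) (hLI : Stmt_LI)
    (hIN : Stmt_IN) (hDV : Stmt_DV) : Stmt_FIN := by
  intro hV k L _ _ _ _ ε x d1 d2 hε hS b m hm hbm φ hφ0 hφ1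
  obtain ⟨hx3, hx4, hx1, hev, -, -, -, -, -⟩ := hEV k L ε x d1 d2 hS
  have hx0 : x 0 = 1 := hS.x0
  have hx0' : x 0 ≠ 0 := by rw [hx0]; exact one_ne_zero
  -- the two weights
  obtain ⟨N0, hN0⟩ := hRG k L ε x d1 d2 hS 0 (Or.inl rfl) m _ hφ0
  obtain ⟨N1, hN1⟩ := hRG k L ε x d1 d2 hS 1 (Or.inr rfl) m _ hφ1
  have hcan : ∀ (y : L) (N : ℕ), y ≠ 0 → C (y ^ (N + b)) * (C (y⁻¹ ^ b) * φ) = C (y ^ N) * φ := by
    intro y N hy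
    rw [← mul_assoc, ← C_mul]
    congr 2
    rw [pow_add, mul_assoc, ← mul_pow, mul_inv_cancel₀ hy, one_pow, mul_one]
  have hW0 : C (x 0 ^ N0) * φ ∈ Wt ε x d1 d2 (((N0 + b : ℕ) : ℤ) - m) m := by
    rw [← hcan (x 0) N0 hx0']
    exact hN0 _ (Nat.le_add_right _ _)
  have hW1 : C (x 1 ^ N1) * φ ∈ Wt ε x d1 d2 (((N1 + b : ℕ) : ℤ) - m) m := by
    rw [← hcan (x 1) N1 hx1]
    exact hN1 _ (Nat.le_add_right _ _)
  obtain ⟨M0, hM0⟩ := hCOL k L ε x d1 d2 hS _ m _ hW0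
  obtain ⟨M1, hM1⟩ := hCOL k L ε x d1 d2 hS _ m _ hW1
  obtain ⟨M, hMdef⟩ : ∃ M, M = M0 + M1 + m + 4 := ⟨_, rfl⟩
  obtain ⟨P0, hP0, hs0⟩ := hM0 M (by omega)
  obtain ⟨P1, hP1, hs1⟩ := hM1 M (by omega)
  have hbih : ∀ (i : Fin 3) (N d : ℕ) (P : P6 k), Bihom d m P → Bihom (N + d) m (Xx i ^ N * P) := by
    intro i N d P hP
    have h1 : Bihom 1 0 (Xx i : P6 k) := (hBI k 0 0 0 0 0 0).2.2.2.2.2.1 i
    have h2 : Bihom (N * 1) (N * 0) ((Xx i : P6 k) ^ N) := (hBI k (Xx i) 0 1 0 0 0).2.2.2.2.2.2.2.2.2.2 N h1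
    have h3 := (hBI k (Xx i ^ N) P (N * 1) d (N * 0) m).1 h2 hP
    simpa using h3
  have heul : ∀ (i : Fin 3) (N : ℕ) (P : P6 k), eul P = 0 → eul (Xx i ^ N * P) = 0 := by
    intro i N P hP
    have h1 : eul (Xx i : P6 k) = 0 := (hEU k 0 0).2.2.2.2.1 i
    have h2 : eul ((Xx i : P6 k) ^ N) = 0 := (hEU k (Xx i) 0).2.2.2.2.2.2.2.2.2 N h1
    rw [(hEU k (Xx i ^ N) P).2.2.1, h2, hP, mul_zero, mul_zero, add_zero]
  -- the values agree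
  have hlin : ∀ p q : Fin 3, ev6 x d1 d2 (Xx 1 ^ N1 * P0 p q - Xx 0 ^ N0 * P1 p q) = 0 := by
    refine hLI k L ε x d1 d2 hS (fun p q => Xx 1 ^ N1 * P0 p q - Xx 0 ^ N0 * P1 p q) ?_
    have e0 : ev6 x d1 d2 (Xx 0) = C (x 0) := hev 0
    have e1 : ev6 x d1 d2 (Xx 1) = C (x 1) := hev 1
    have h1 : ∀ p q : Fin 3, C (x 3 ^ (p : ℕ) * x 4 ^ (q : ℕ)) * ev6 x d1 d2 (Xx 1 ^ N1 * P0 p q - Xx 0 ^ N0 * P1 p q)
        = C (x 1 ^ N1) * (C (x 3 ^ (p : ℕ) * x 4 ^ (q : ℕ)) * ev6 x d1 d2 (P0 p q))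
          - C (x 0 ^ N0) * (C (x 3 ^ (p : ℕ) * x 4 ^ (q : ℕ)) * ev6 x d1 d2 (P1 p q)) := by
      intro p q
      have h2 : ev6 x d1 d2 (Xx 1 ^ N1 * P0 p q - Xx 0 ^ N0 * P1 p q)
          = C (x 1 ^ N1) * ev6 x d1 d2 (P0 p q) - C (x 0 ^ N0) * ev6 x d1 d2 (P1 p q) := by
        rw [map_sub, map_mul, map_mul, map_pow, map_pow, e0, e1, ← C_pow, ← C_pow]
      rw [h2]
      ring
    calc ∑ p : Fin 3, ∑ q : Fin 3, C (x 3 ^ (p : ℕ) * x 4 ^ (q : ℕ)) * ev6 x d1 d2 (Xx 1 ^ N1 * P0 p q - Xx 0 ^ N0 * P1 p q)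
        = ∑ p : Fin 3, ∑ q : Fin 3, (C (x 1 ^ N1) * (C (x 3 ^ (p : ℕ) * x 4 ^ (q : ℕ)) * ev6 x d1 d2 (P0 p q))
          - C (x 0 ^ N0) * (C (x 3 ^ (p : ℕ) * x 4 ^ (q : ℕ)) * ev6 x d1 d2 (P1 p q))) :=
        Finset.sum_congr rfl fun p _ => Finset.sum_congr rfl fun q _ => h1 p q
      _ = C (x 1 ^ N1) * ∑ p : Fin 3, ∑ q : Fin 3, C (x 3 ^ (p : ℕ) * x 4 ^ (q : ℕ)) * ev6 x d1 d2 (P0 p q)
          - C (x 0 ^ N0) * ∑ p : Fin 3, ∑ q : Fin 3, C (x 3 ^ (p : ℕ) * x 4 ^ (q : ℕ)) * ev6 x d1 d2 (P1 p q) := by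
        simp only [Finset.sum_sub_distrib, Finset.mul_sum]
      _ = 0 := by
        rw [← hs0, ← hs1]
        ring
  -- all pieces vanish
  have hzero : ∀ p q : Fin 3, P0 p q = 0 := by
    intro p q
    obtain ⟨⟨d0, hd0, hB0⟩, he0, hIa0, hIb0⟩ := hP0 p q
    obtain ⟨⟨d1', hd1, hB1⟩, he1, -, -⟩ := hP1 p q
    have hp : (p : ℕ) < 3 := p.2
    have hq : (q : ℕ) < 3 := q.2
    have hdd : N0 + d1' = N1 + d0 := by
      have : ((N0 + d1' : ℕ) : ℤ) = ((N1 + d0 : ℕ) : ℤ) := by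
        push_cast
        rw [hd0, hd1]
        push_cast
        ring
      exact_mod_cast this
    have hB2 : Bihom (N1 + d0) m (Xx 1 ^ N1 * P0 p q) := hbih 1 N1 d0 _ hB0
    have hB3 : Bihom (N1 + d0) m (Xx 0 ^ N0 * P1 p q) := by
      rw [← hdd]
      exact hbih 0 N0 d1' _ hB1
    have hB4 : Bihom (N1 + d0) m (Xx 1 ^ N1 * P0 p q - Xx 0 ^ N0 * P1 p q) := by
      rw [sub_eq_add_neg]
      exact (hBI k _ _ (N1 + d0) 0 m 0).2.1 hB2 ((hBI k _ 0 (N1 + d0) 0 m 0).2.2.1 hB3)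
    have he4 : eul (Xx 1 ^ N1 * P0 p q - Xx 0 ^ N0 * P1 p q) = 0 := by
      rw [sub_eq_add_neg, (hEU k _ _).1, (hEU k (Xx 0 ^ N0 * P1 p q) 0).2.1, heul 1 N1 _ he0, heul 0 N0 _ he1]
      simp
    have h5 := hIN k L ε x d1 d2 hS (N1 + d0) m _ hB4 he4 (hlin p q)
    obtain ⟨Q, hQ, hQe, hQB⟩ := hDV k N0 N1 (P0 p q) (P1 p q) (sub_eq_zero.1 h5)
    obtain ⟨d, hd⟩ : ∃ d, d = 6 * M + b - m - (p : ℕ) - (q : ℕ) := ⟨_, rfl⟩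
    have hdN : d0 = d + N0 := by
      have h6 : (d0 : ℤ) = 6 * (M : ℤ) + ((N0 : ℤ) + (b : ℤ) - (m : ℤ)) - ((p : ℕ) : ℤ) - ((q : ℕ) : ℤ) := by
        rw [hd0]
        push_cast
        ring
      omega
    have hBQ : Bihom d m Q := hQB d m (by rw [← hdN]; exact hB0)
    have hQ0 : Q = 0 := by
      refine hV k ε hε d m (3 * M - (p : ℕ)) (3 * M - (q : ℕ)) N0 Q hm (by omega) hBQ (hQe he0) ?_ ?_
      · rw [← hQ]
        exact hIa0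
      · rw [← hQ]
        exact hIb0
    rw [hQ, hQ0, mul_zero]
  have h1 : C ((x 3 * x 4) ^ (3 * M)) * (C (x 0 ^ N0) * φ) = 0 := by
    rw [hs0]
    refine Finset.sum_eq_zero fun p _ => Finset.sum_eq_zero fun q _ => ?_
    rw [hzero p q, map_zero, mul_zero]
  rw [hx0, one_pow, C_1, one_mul] at h1
  rcases mul_eq_zero.1 h1 with h2 | h2
  · exfalso
    rw [C_eq_zero] at h2
    exact (pow_ne_zero _ (mul_ne_zero hx3 hx4)) h2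
  · exact h2

end Pool.CXT
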