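import Pool.Agent.Work.MP_bf99ce_cx.InterfaceT2

/-! # THEOREM CX, part T2, block GEN: the generators -/

set_option autoImplicit false

noncomputable section

open MvPolynomial

namespace Pool.CXT

open Pool.CX

theorem gen_mem {k L : Type} [Field k] [Field L] [Algebra k L] (ε : k) (x : Fin 5 → L) (d1 d2 : Derivation k L L)
    (n : ℤ) (m : ℕ) (r s : ℤ) (w w' d : ℕ) (P : P6 k) (hB : Bihom d m P) (hE : eul P = 0) (hw : P ∈ Iw (aP ε) w)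
    (hw' : P ∈ Iw bP w') (h1 : 0 ≤ (w : ℤ) + r) (h2 : 0 ≤ (w' : ℤ) + s) (h3 : (d : ℤ) + r + s = n) :
    C (x 3 ^ r * x 4 ^ s) * ev6 x d1 d2 P ∈ Wt ε x d1 d2 n m :=
  AddSubgroup.subset_closure ⟨r, s, w, w', d, P, hB, hE, hw, hw', h1, h2, h3, rfl⟩

theorem gen_cases : ∀ l : Fin 5, (∃ j : Fin 3, l = Fin.castAdd 2 j) ∨ l = 3 ∨ l = 4 := by decide

theorem gen_bisub (h1 : Stmt_BI) {k : Type} [Field k] (d m : ℕ) (P Q : P6 k) (hP : Bihom d m P) (hQ : Bihom d m Q) :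
    Bihom d m (P - Q) := by
  rw [sub_eq_add_neg]
  exact (h1 k P (-Q) d d m m).2.1 hP ((h1 k Q Q d d m m).2.2.1 hQ)

theorem gen_eulsub (h2 : Stmt_EU) {k : Type} [Field k] (P Q : P6 k) : eul (P - Q) = eul P - eul Q := by
  rw [sub_eq_add_neg, (h2 k P (-Q)).1, (h2 k Q Q).2.1, sub_eq_add_neg]

/-- The forms for a coordinate `y` with `y ^ 3 = p`. -/
theorem gen_form (h1 : Stmt_BI) (h2 : Stmt_EU) (h3 : Stmt_IW) {k : Type} [Field k] (p : P6 k)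
    (hp1 : Bihom 3 0 p) (hp2 : Bihom 2 1 (dv p)) (he1 : eul p = 0) (he2 : eul (dv p) = 3 * p) (i : Fin 3) (c : k) :
    Bihom 3 1 (C c * (Xx i * dv p - C 3 * p * Vv i)) ∧ eul (C c * (Xx i * dv p - C 3 * p * Vv i)) = 0 ∧
      C c * (Xx i * dv p - C 3 * p * Vv i) ∈ Iw p 2 := by
  have bmul : ∀ (P Q : P6 k) (d d' m m' : ℕ), Bihom d m P → Bihom d' m' Q → Bihom (d + d') (m + m') (P * Q) :=
    fun P Q d d' m m' => (h1 k P Q d d' m m').1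
  obtain ⟨-, -, -, -, bC, bX, bV, -⟩ := h1 k p p 0 0 0 0
  have emul : ∀ P Q : P6 k, eul (P * Q) = P * eul Q + Q * eul P := fun P Q => (h2 k P Q).2.2.1
  obtain ⟨-, -, -, eC, eX, eV, -⟩ := h2 k p p
  refine ⟨?_, ?_, ?_⟩
  · have hB : Bihom 3 1 (Xx i * dv p - C 3 * p * Vv i) := by
      refine gen_bisub h1 3 1 _ _ ?_ ?_
      · exact bmul (Xx i) (dv p) 1 2 0 1 (bX i) hp2
      · have h := bmul (C 3) p 0 3 0 0 (bC 3) hp1
        exact bmul (C 3 * p) (Vv i) 3 0 0 1 (by simpa using h) (bV i)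
    have h := bmul (C c) _ 0 3 0 1 (bC c) hB
    simpa using h
  · rw [emul, eC, gen_eulsub h2, emul, emul, emul, eX, eV, eC, he1, he2, map_ofNat]
    ring
  · have hd : dv p ∈ Iw p 2 := (h3 k p p p 0 0).2.2.2.1
    have hp : p ∈ Iw p 2 := by
      have h := (h3 k p p p 3 2).2.2.1 1
      rw [pow_one] at h
      exact (h3 k p p p 3 2).2.1 (by norm_num) h
    refine Ideal.mul_mem_left _ _ (Ideal.sub_mem _ (Ideal.mul_mem_left _ _ hd) ?_)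
    exact Ideal.mul_mem_right _ _ (Ideal.mul_mem_left _ _ hp)

theorem gen_val {L : Type} [Field L] [CharZero L] (y a : L) (hy : y ≠ 0) (D E : MvPolynomial (Fin 2) L) :
    C (y ^ (-2 : ℤ)) * (C (3⁻¹ : L) * (C a * (C (3 * y ^ 2) * D) - C 3 * C (y ^ 3) * E)) = C a * D - C y * E := by
  have e1 : y ^ (-2 : ℤ) * 3⁻¹ * (3 * y ^ 2) = 1 := by
    rw [zpow_neg]
    have : y ^ (2 : ℤ) = y ^ 2 := by norm_cast
    rw [this]
    field_simp
  have e2 : y ^ (-2 : ℤ) * 3⁻¹ * (3 * y ^ 3) = y := by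
    calc y ^ (-2 : ℤ) * 3⁻¹ * (3 * y ^ 3) = (y ^ (-2 : ℤ) * 3⁻¹ * (3 * y ^ 2)) * y := by ring
      _ = y := by rw [e1, one_mul]
  have f1 : (C (y ^ (-2 : ℤ)) * C (3⁻¹ : L) * C (3 * y ^ 2) : MvPolynomial (Fin 2) L) = 1 := by
    rw [← C_mul, ← C_mul, e1, C_1]
  have f2 : (C (y ^ (-2 : ℤ)) * C (3⁻¹ : L) * (C 3 * C (y ^ 3)) : MvPolynomial (Fin 2) L) = C y := by
    rw [← C_mul, ← C_mul, ← C_mul, e2]
  calc C (y ^ (-2 : ℤ)) * (C (3⁻¹ : L) * (C a * (C (3 * y ^ 2) * D) - C 3 * C (y ^ 3) * E))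
      = (C (y ^ (-2 : ℤ)) * C (3⁻¹ : L) * C (3 * y ^ 2)) * (C a * D) -
        (C (y ^ (-2 : ℤ)) * C (3⁻¹ : L) * (C 3 * C (y ^ 3))) * E := by ring
    _ = C a * D - C y * E := by rw [f1, f2, one_mul]

theorem gen_all (h1 : Stmt_BI) (h2 : Stmt_EU) (h3 : Stmt_IW) (h4 : Stmt_EV) (k L : Type) [Field k] [CharZero k] [Field L]
    [Algebra k L] (ε : k) (x : Fin 5 → L) (d1 d2 : Derivation k L L) (hS : Set2 ε x d1 d2) (i : Fin 3) (l : Fin 5) :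
    C (x (Fin.castAdd 2 i)) * dif d1 d2 (x l) - C (x l) * dif d1 d2 (x (Fin.castAdd 2 i)) ∈ Wt ε x d1 d2 1 1 := by
  obtain ⟨hx3, hx4, -, vX, vV, va, vb, vda, vdb⟩ := h4 k L ε x d1 d2 hS
  have : CharZero L := charZero_of_injective_algebraMap (algebraMap k L).injective
  have htop : ∀ p P : P6 k, P ∈ Iw p 0 := fun p P => (h3 k p P P 0 0).2.2.2.2
  have vC : ∀ c : k, ev6 x d1 d2 (C c) = C (algebraMap k L c) := by
    intro c
    rw [ev6, MvPolynomial.algHom_C]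
    rfl
  obtain ⟨-, -, -, -, bC, bX, bV, ba, bb, bdb, -⟩ := h1 k 0 0 0 0 0 0
  obtain ⟨-, -, -, eC, eX, eV, ea, eb, edb, -⟩ := h2 k 0 0
  have v3 : (C (algebraMap k L 3) : MvPolynomial (Fin 2) L) = C 3 := by rw [map_ofNat]
  have v3i : (C (algebraMap k L 3⁻¹) : MvPolynomial (Fin 2) L) = C (3⁻¹) := by rw [map_inv₀, map_ofNat]
  rcases gen_cases l with ⟨j, rfl⟩ | rfl | rfl
  · have hB : Bihom 1 1 (Xx i * Vv j - Xx j * Vv i : P6 k) := by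
      refine gen_bisub h1 1 1 _ _ ?_ ?_
      · exact (h1 k (Xx i) (Vv j) 1 0 0 1).1 (bX i) (bV j)
      · exact (h1 k (Xx j) (Vv i) 1 0 0 1).1 (bX j) (bV i)
    have hE : eul (Xx i * Vv j - Xx j * Vv i : P6 k) = 0 := by
      rw [gen_eulsub h2, (h2 k (Xx i) (Vv j)).2.2.1, (h2 k (Xx j) (Vv i)).2.2.1, eX, eX, eV, eV]
      ring
    have h := gen_mem ε x d1 d2 1 1 0 0 0 0 1 (Xx i * Vv j - Xx j * Vv i) hB hE (htop _ _) (htop _ _) (by norm_num)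
      (by norm_num) (by norm_num)
    have hv : C (x 3 ^ (0 : ℤ) * x 4 ^ (0 : ℤ)) * ev6 x d1 d2 (Xx i * Vv j - Xx j * Vv i) =
        C (x (Fin.castAdd 2 i)) * dif d1 d2 (x (Fin.castAdd 2 j)) -
          C (x (Fin.castAdd 2 j)) * dif d1 d2 (x (Fin.castAdd 2 i)) := by
      rw [zpow_zero, zpow_zero, mul_one, C_1, one_mul, map_sub, map_mul, map_mul, vX, vX, vV, vV]
    rw [hv] at h
    exact h
  · obtain ⟨hB, hE, hI⟩ := gen_form h1 h2 h3 (aP ε) (ba ε).1 (ba ε).2 (ea ε).1 (ea ε).2 i 3⁻¹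
    have h := gen_mem ε x d1 d2 1 1 (-2) 0 2 0 3 _ hB hE hI (htop _ _) (by norm_num) (by norm_num) (by norm_num)
    have hv : C (x 3 ^ (-2 : ℤ) * x 4 ^ (0 : ℤ)) * ev6 x d1 d2 (C 3⁻¹ * (Xx i * dv (aP ε) - C 3 * aP ε * Vv i)) =
        C (x (Fin.castAdd 2 i)) * dif d1 d2 (x 3) - C (x 3) * dif d1 d2 (x (Fin.castAdd 2 i)) := by
      rw [zpow_zero, mul_one, map_mul, map_sub, map_mul, map_mul, map_mul, vC, vC, vX, vV, va, vda, v3, v3i]
      exact gen_val (x 3) _ hx3 _ _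
    rw [hv] at h
    exact h
  · obtain ⟨hB, hE, hI⟩ := gen_form h1 h2 h3 bP bb bdb eb edb i (3⁻¹ : k)
    have h := gen_mem ε x d1 d2 1 1 0 (-2) 0 2 3 _ hB hE (htop _ _) hI (by norm_num) (by norm_num) (by norm_num)
    have hv : C (x 3 ^ (0 : ℤ) * x 4 ^ (-2 : ℤ)) * ev6 x d1 d2 (C 3⁻¹ * (Xx i * dv bP - C 3 * bP * Vv i)) =
        C (x (Fin.castAdd 2 i)) * dif d1 d2 (x 4) - C (x 4) * dif d1 d2 (x (Fin.castAdd 2 i)) := by
      rw [zpow_zero, one_mul, map_mul, map_sub, map_mul, map_mul, map_mul, vC, vC, vX, vV, vb, vdb, v3, v3i]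
      exact gen_val (x 4) _ hx4 _ _
    rw [hv] at h
    exact h

theorem p_GEN (h1 : Stmt_BI) (h2 : Stmt_EU) (h3 : Stmt_IW) (h4 : Stmt_EV) : Stmt_GEN := by
  intro k L _ _ _ _ ε x d1 d2 hS
  obtain ⟨hx3, hx4, -, vX, -⟩ := h4 k L ε x d1 d2 hS
  have htop : ∀ p P : P6 k, P ∈ Iw p 0 := fun p P => (h3 k p P P 0 0).2.2.2.2
  have vC : ∀ c : k, ev6 x d1 d2 (C c) = C (algebraMap k L c) := by
    intro c
    rw [ev6, MvPolynomial.algHom_C]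
    rfl
  obtain ⟨-, -, -, -, bC, bX, -⟩ := h1 k 0 0 0 0 0 0
  obtain ⟨-, -, -, eC, eX, -⟩ := h2 k 0 0
  refine ⟨?_, ?_, fun l => ⟨gen_all h1 h2 h3 h4 k L ε x d1 d2 hS 0 l, gen_all h1 h2 h3 h4 k L ε x d1 d2 hS 1 l⟩⟩
  · intro c
    have h := gen_mem ε x d1 d2 0 0 0 0 0 0 0 (C c) (bC c) (eC c) (htop _ _) (htop _ _) (by norm_num) (by norm_num)
      (by norm_num)
    rw [zpow_zero, zpow_zero, mul_one, C_1, one_mul, vC] at h
    exact h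
  · intro l
    rcases gen_cases l with ⟨j, rfl⟩ | rfl | rfl
    · have h := gen_mem ε x d1 d2 1 0 0 0 0 0 1 (Xx j) (bX j) (eX j) (htop _ _) (htop _ _) (by norm_num) (by norm_num)
        (by norm_num)
      rw [zpow_zero, zpow_zero, mul_one, C_1, one_mul, vX] at h
      exact h
    · have h := gen_mem ε x d1 d2 1 0 1 0 0 0 0 (C 1) (bC 1) (eC 1) (htop _ _) (htop _ _) (by norm_num) (by norm_num)
        (by norm_num)
      rw [zpow_one, zpow_zero, mul_one, vC, map_one, C_1, mul_one] at h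
      exact h
    · have h := gen_mem ε x d1 d2 1 0 0 1 0 0 0 (C 1) (bC 1) (eC 1) (htop _ _) (htop _ _) (by norm_num) (by norm_num)
        (by norm_num)
      rw [zpow_one, zpow_zero, one_mul, vC, map_one, C_1, mul_one] at h
      exact h

end Pool.CXT
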