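import Pool.Agent.Work.MP_bf99ce_cx.InterfaceT2

/-!
# THEOREM CX, part T2: block IN
-/

set_option autoImplicit false

noncomputable section

open MvPolynomial

namespace Pool.CXT

open Pool.CX

/-- the substitution `x_0 = 1`, `v_0 = 0` -/
def in_rho (k : Type) [Field k] : P6 k →ₐ[k] MvPolynomial (Fin 2) (MvPolynomial (Fin 2) k) :=
  aeval (Sum.elim ![1, C (X 0), C (X 1)] ![0, X 0, X 1])

theorem in_e {R : Type} [CommSemiring R] (i j : ℕ) (c : R) :
    (monomial (Finsupp.single (0 : Fin 2) i + Finsupp.single 1 j) c : MvPolynomial (Fin 2) R) =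
      C c * (X 0 ^ i * X 1 ^ j) := by
  rw [X_pow_eq_monomial, X_pow_eq_monomial, monomial_mul, C_mul_monomial, one_mul, mul_one]

theorem in_mono {k : Type} [Field k] (s : Fin 3 ⊕ Fin 3 →₀ ℕ) (c : k) :
    in_rho k (monomial s c) = if s (Sum.inr 0) = 0 then
      monomial (Finsupp.single (0 : Fin 2) (s (Sum.inr 1)) + Finsupp.single 1 (s (Sum.inr 2)))
        (monomial (Finsupp.single (0 : Fin 2) (s (Sum.inl 1)) + Finsupp.single 1 (s (Sum.inl 2))) c)
      else 0 := by
  unfold in_rho
  rw [aeval_monomial, Finsupp.prod_fintype _ _ (fun i => pow_zero _), Fintype.prod_sum_type,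
    Fin.prod_univ_three, Fin.prod_univ_three, in_e, in_e]
  have h1 : algebraMap k (MvPolynomial (Fin 2) (MvPolynomial (Fin 2) k)) c = C (C c) := rfl
  rw [h1]
  by_cases h : s (Sum.inr 0) = 0
  · rw [if_pos h, h]
    simp
    ring
  · rw [if_neg h]
    simp [h]

theorem in_inj {i j i' j' : ℕ} (h : Finsupp.single (0 : Fin 2) i + Finsupp.single 1 j =
    Finsupp.single (0 : Fin 2) i' + Finsupp.single 1 j') : i = i' ∧ j = j' := by
  have h0 := DFunLike.congr_fun h 0
  have h1 := DFunLike.congr_fun h 1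
  simp at h0 h1
  exact ⟨h0, h1⟩

theorem in_supp {k : Type} [Field k] {d m : ℕ} {P : P6 k} (hP : Bihom d m P)
    (h0 : in_rho k P = 0) : ∀ s ∈ P.support, s (Sum.inr 0) ≠ 0 := by
  intro s hs hs0
  have h1 : coeff (Finsupp.single (0 : Fin 2) (s (Sum.inl 1)) + Finsupp.single 1 (s (Sum.inl 2)))
      (coeff (Finsupp.single (0 : Fin 2) (s (Sum.inr 1)) + Finsupp.single 1 (s (Sum.inr 2)))
        (in_rho k P)) = 0 := by
    rw [h0, coeff_zero, coeff_zero]
  rw [P.as_sum, map_sum, coeff_sum, coeff_sum, Finset.sum_eq_single s] at h1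
  · rw [in_mono, if_pos hs0, coeff_monomial, if_pos rfl, coeff_monomial, if_pos rfl] at h1
    exact (mem_support_iff.1 hs) h1
  · intro s' hs' hne
    rw [in_mono]
    by_cases h2 : s' (Sum.inr 0) = 0
    · rw [if_pos h2, coeff_monomial]
      split_ifs with h3
      · rw [coeff_monomial]
        split_ifs with h4
        · exfalso
          apply hne
          obtain ⟨h5, h6⟩ := in_inj h3
          obtain ⟨h7, h8⟩ := in_inj h4
          have h9 := (hP s hs).1
          have h10 := (hP s' hs').1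
          rw [Fin.sum_univ_three] at h9 h10
          have h11 : s' (Sum.inl 0) = s (Sum.inl 0) := by omega
          ext i
          rcases i with i | i <;> fin_cases i
          · exact h11
          · exact h7
          · exact h8
          · exact h2.trans hs0.symm
          · exact h5
          · exact h6
        · rfl
      · rw [coeff_zero]
    · rw [if_neg h2, coeff_zero, coeff_zero]
  · intro h
    exact absurd hs h

theorem p_IN (h1 : Stmt_EU) (h2 : Stmt_EV) : Stmt_IN := by
  intro k L _ _ _ _ ε x d1 d2 hS d m P hP hE hev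
  classical
  obtain ⟨-, -, -, hX, hV, -⟩ := h2 k L ε x d1 d2 hS
  -- the substitution vanishes
  have hcomp : ev6 x d1 d2 = (MvPolynomial.mapAlgHom (aeval ![x 1, x 2])).comp (in_rho k) := by
    apply MvPolynomial.algHom_ext
    intro i
    rcases i with i | i
    · have h3 : ev6 x d1 d2 (X (Sum.inl i)) = C (x (Fin.castAdd 2 i)) := hX i
      rw [h3]
      fin_cases i
      · show C (x 0) = _
        simp [in_rho, hS.x0]
      · show C (x 1) = _
        simp [in_rho]
      · show C (x 2) = _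
        simp [in_rho]
    · have h3 : ev6 x d1 d2 (X (Sum.inr i)) = dif d1 d2 (x (Fin.castAdd 2 i)) := hV i
      rw [h3]
      fin_cases i
      · show dif d1 d2 (x 0) = _
        simp [in_rho, dif, hS.x0]
      · show dif d1 d2 (x 1) = _
        simp [in_rho, dif, hS.d11, hS.d21]
      · show dif d1 d2 (x 2) = _
        simp [in_rho, dif, hS.d12, hS.d22]
  have h0 : in_rho k P = 0 := by
    rw [hcomp] at hev
    have hinj : Function.Injective (MvPolynomial.map
        ((aeval ![x 1, x 2] : MvPolynomial (Fin 2) k →ₐ[k] L) : MvPolynomial (Fin 2) k →+* L) :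
          MvPolynomial (Fin 2) (MvPolynomial (Fin 2) k) → MvPolynomial (Fin 2) L) :=
      MvPolynomial.map_injective _ hS.ind
    apply hinj
    rw [map_zero]
    exact hev
  have hdvd : (Vv 0 : P6 k) ∣ P := by
    rw [P.as_sum]
    refine Finset.dvd_sum fun s hs => ?_
    exact X_dvd_monomial.2 (Or.inr (in_supp hP h0 s hs))
  by_contra hne
  have hprime : Prime (Vv 0 : P6 k) := X_prime
  obtain ⟨Q, hQ, hQ'⟩ := (FiniteMultiplicity.of_prime_left hprime hne).exists_eq_pow_mul_and_not_dvd
  set n := multiplicity (Vv 0 : P6 k) P with hn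
  rcases Nat.eq_zero_or_pos n with hn0 | hn0
  · rw [hn0, pow_zero, one_mul] at hQ
    rw [hQ] at hdvd
    exact hQ' hdvd
  · obtain ⟨e, he⟩ := Nat.exists_eq_succ_of_ne_zero hn0.ne'
    rw [he] at hQ
    have hpow : ∀ e : ℕ, eul ((Vv 0 : P6 k) ^ (e + 1)) = C ((e : k) + 1) * ((Vv 0) ^ e * Xx 0) := by
      intro e
      obtain ⟨-, -, -, -, -, hv, -⟩ := h1 k 0 0
      induction e with
      | zero =>
        rw [zero_add, pow_one, hv]
        simp
      | succ e ih =>
        obtain ⟨-, -, hm, -⟩ := h1 k (Vv 0 ^ (e + 1)) (Vv 0)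
        rw [pow_succ, hm, ih, hv, Nat.cast_succ, C_add (R := k) (a := (e : k) + 1), C_1]
        ring
    obtain ⟨-, -, hm, -⟩ := h1 k (Vv 0 ^ (e + 1)) Q
    rw [hQ, hm, hpow] at hE
    have h3 : (Vv 0 : P6 k) ^ e * (Vv 0 * eul Q + C ((e : k) + 1) * (Xx 0 * Q)) = 0 := by
      rw [← hE]
      ring
    have h4 : (Vv 0 : P6 k) * eul Q + C ((e : k) + 1) * (Xx 0 * Q) = 0 :=
      (mul_eq_zero.1 h3).resolve_left (pow_ne_zero _ hprime.ne_zero)
    have h5 : (Vv 0 : P6 k) ∣ C ((e : k) + 1) * (Xx 0 * Q) := by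
      refine ⟨-eul Q, ?_⟩
      linear_combination h4
    rcases hprime.dvd_or_dvd h5 with h6 | h6
    · have h7 : IsUnit (C ((e : k) + 1) : P6 k) :=
        (IsUnit.mk0 _ (Nat.cast_add_one_ne_zero e)).map C
      exact hprime.not_isUnit (isUnit_of_dvd_unit h6 h7)
    · rcases hprime.dvd_or_dvd h6 with h7 | h7
      · have h8 : (Sum.inr 0 : Fin 3 ⊕ Fin 3) = Sum.inl 0 := X_dvd_X.1 h7
        exact absurd h8 (by simp)
      · exact hQ' h7

end Pool.CXT
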