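import Pool.Agent.Work.MP_bf99ce_cx.InterfaceT2

/-!
# Block T2IW: the ideals Iw (helper46)
-/

set_option autoImplicit false

open MvPolynomial Pool.CX

namespace Pool.CXT

theorem iw_gen {k : Type} [Field k] (p : P6 k) (w j l : ℕ) (h : w ≤ 3 * j + 2 * l) :
    p ^ j * dv p ^ l ∈ Iw p w := Ideal.subset_span ⟨j, l, h, rfl⟩

theorem iw_mul {k : Type} [Field k] (p P Q : P6 k) (w w' : ℕ) (hP : P ∈ Iw p w)
    (hQ : Q ∈ Iw p w') : P * Q ∈ Iw p (w + w') := by
  have h : Iw p w * Iw p w' ≤ Iw p (w + w') := by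
    unfold Iw
    rw [Ideal.span_mul_span', Ideal.span_le]
    rintro x ⟨a, ⟨j, l, h1, rfl⟩, b, ⟨j', l', h2, rfl⟩, rfl⟩
    refine Ideal.subset_span ⟨j + j', l + l', by omega, ?_⟩
    change p ^ j * dv p ^ l * (p ^ j' * dv p ^ l') = _
    ring
  exact h (Ideal.mul_mem_mul hP hQ)

theorem iw_mono {k : Type} [Field k] (p : P6 k) (w w' : ℕ) (h : w' ≤ w) : Iw p w ≤ Iw p w' := by
  apply Ideal.span_mono
  rintro q ⟨j, l, h1, rfl⟩
  exact ⟨j, l, h.trans h1, rfl⟩

theorem p_IW : Stmt_IW := by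
  intro k _ p P Q w w'
  refine ⟨iw_mul p P Q w w', fun h hP => iw_mono p w w' h hP, ?_, ?_, ?_⟩
  · intro n
    have h := iw_gen p (3 * n) n 0 (by omega)
    rwa [pow_zero, mul_one] at h
  · have h := iw_gen p 2 0 1 (by omega)
    rwa [pow_zero, pow_one, one_mul] at h
  · have h := iw_gen p 0 0 0 (by omega)
    rw [pow_zero, pow_zero, one_mul] at h
    have h2 := Ideal.mul_mem_left (Iw p 0) P h
    rwa [mul_one] at h2

end Pool.CXT
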