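import Pool.Agent.Work.MP_bf99ce_cx.InterfaceT2

/-! # THEOREM CX, part T2: block LI -/

set_option autoImplicit false

noncomputable section

open MvPolynomial

namespace Pool.CXT

open Pool.CX

/-- The field `k(x_1, x_2)`. -/
def li_K (k : Type) {L : Type} [Field k] [Field L] [Algebra k L] (x : Fin 5 → L) : Subfield L :=
  (IntermediateField.adjoin k (Set.range ![x 1, x 2])).toSubfield

theorem li_mem_K {k L : Type} [Field k] [Field L] [Algebra k L] (x : Fin 5 → L) (z : L) :
    z ∈ li_K k x ↔ ∃ r s : MvPolynomial (Fin 2) k, z = aeval ![x 1, x 2] r / aeval ![x 1, x 2] s := by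
  unfold li_K
  exact IntermediateField.mem_adjoin_range_iff k ![x 1, x 2] z

theorem li_alg {k L : Type} [Field k] [Field L] [Algebra k L] (x : Fin 5 → L) (c : k) :
    algebraMap k L c ∈ li_K k x :=
  (IntermediateField.adjoin k (Set.range ![x 1, x 2])).algebraMap_mem c

theorem li_x1 {k L : Type} [Field k] [Field L] [Algebra k L] (x : Fin 5 → L) : x 1 ∈ li_K k x :=
  IntermediateField.subset_adjoin k _ ⟨0, rfl⟩

theorem li_x2 {k L : Type} [Field k] [Field L] [Algebra k L] (x : Fin 5 → L) : x 2 ∈ li_K k x :=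
  IntermediateField.subset_adjoin k _ ⟨1, rfl⟩

theorem li_ext {k L : Type} [Field k] [Field L] [Algebra k L] {ε : k} {x : Fin 5 → L}
    {d1 d2 : Derivation k L L} (h : Set2 ε x d1 d2) :
    x 3 ^ 3 = aeval ![x 1, x 2] (-3 + 3 * X 0 ^ 3 + X 1 ^ 3 + C ε * (X 0 * X 1) : MvPolynomial (Fin 2) k) ∧
    x 4 ^ 3 = aeval ![x 1, x 2] (-3 + X 0 ^ 3 + 3 * X 1 ^ 3 : MvPolynomial (Fin 2) k) := by
  obtain ⟨h3, h4⟩ := h.onX
  rw [h3, h4]
  have h0 := h.x0
  constructor
  · simp only [av, h0, map_add, map_neg, map_mul, map_pow, aeval_X, map_ofNat, algHom_C, Matrix.cons_val_zero,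
      Matrix.cons_val_one, one_pow, one_mul, mul_one]
  · simp only [bv, h0, map_add, map_neg, map_mul, map_pow, aeval_X, map_ofNat, Matrix.cons_val_zero,
      Matrix.cons_val_one, one_pow, mul_one]

/-- The polynomials with coefficients in `K`. -/
theorem li_coeff {k L : Type} [Field k] [CharZero k] [Field L] [Algebra k L] (ε : k) (x : Fin 5 → L)
    (d1 d2 : Derivation k L L) (h : Set2 ε x d1 d2) (h3 : Stmt_EV) (P : P6 k) :
    ∃ Q : MvPolynomial (Fin 2) (li_K k x), map (li_K k x).subtype Q = ev6 x d1 d2 P := by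
  obtain ⟨-, -, -, hX, hV, -⟩ := h3 k L ε x d1 d2 h
  induction P using MvPolynomial.induction_on with
  | C c =>
    refine ⟨C ⟨algebraMap k L c, li_alg x c⟩, ?_⟩
    rw [map_C]
    unfold ev6
    rw [algHom_C]
    rfl
  | add p q hp hq =>
    obtain ⟨P', hP'⟩ := hp
    obtain ⟨Q', hQ'⟩ := hq
    exact ⟨P' + Q', by rw [map_add, map_add, hP', hQ']⟩
  | mul_X p n hp =>
    obtain ⟨P', hP'⟩ := hp
    have hn : ∃ Q : MvPolynomial (Fin 2) (li_K k x), map (li_K k x).subtype Q = ev6 x d1 d2 (X n) := by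
      rcases n with i | i
      · have h1 : x (Fin.castAdd 2 i) ∈ li_K k x := by
          fin_cases i
          · change x 0 ∈ _
            rw [h.x0]
            exact one_mem _
          · exact li_x1 x
          · exact li_x2 x
        refine ⟨C ⟨_, h1⟩, ?_⟩
        rw [map_C]
        exact (hX i).symm
      · have h1 : ∃ Q : MvPolynomial (Fin 2) (li_K k x), map (li_K k x).subtype Q =
            dif d1 d2 (x (Fin.castAdd 2 i)) := by
          fin_cases i
          · refine ⟨0, ?_⟩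
            change _ = dif d1 d2 (x 0)
            rw [h.x0]
            simp [dif]
          · refine ⟨X 0, ?_⟩
            change _ = dif d1 d2 (x 1)
            simp [dif, h.d11, h.d21]
          · refine ⟨X 1, ?_⟩
            change _ = dif d1 d2 (x 2)
            simp [dif, h.d12, h.d22]
        obtain ⟨Q, hQ⟩ := h1
        exact ⟨Q, hQ.trans (hV i).symm⟩
    obtain ⟨Q', hQ'⟩ := hn
    exact ⟨P' * Q', by rw [map_mul, map_mul, hP', hQ']⟩

theorem p_LI (h1 : Stmt_CU) (h2 : Stmt_KU) (h3 : Stmt_EV) : Stmt_LI := by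
  intro k L _ _ _ _ ε x d1 d2 h P hP
  have : CharZero L := charZero_of_injective_algebraMap (algebraMap k L).injective
  obtain ⟨hx3, hx4, -⟩ := h3 k L ε x d1 d2 h
  obtain ⟨ha, hb⟩ := li_ext h
  have hmem : ∀ r : MvPolynomial (Fin 2) k, aeval ![x 1, x 2] r ∈ li_K k x := fun r =>
    (li_mem_K x _).2 ⟨r, 1, by rw [map_one, div_one]⟩
  have hu : x 3 ^ 3 ∈ li_K k x := by
    rw [ha]
    exact hmem _
  have hv : x 4 ^ 3 ∈ li_K k x := by
    rw [hb]
    exact hmem _
  have hcube : ∀ (i j : ℕ) (z : L), i ≤ 2 → j ≤ 2 → z ∈ li_K k x →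
      (x 3 ^ 3) ^ i * (x 4 ^ 3) ^ j = z ^ 3 → i = 0 ∧ j = 0 := by
    intro i j z hi hj hz hz3
    obtain ⟨e, c, hec⟩ := (li_mem_K x z).1 hz
    have hz0 : z ≠ 0 := by
      rintro rfl
      have : (x 3 ^ 3) ^ i * (x 4 ^ 3) ^ j ≠ 0 := by positivity
      exact this (by rw [hz3]; simp)
    have hc0 : aeval ![x 1, x 2] c ≠ 0 := by
      intro h0
      apply hz0
      rw [hec, h0, div_zero]
    have hc : c ≠ 0 := by
      rintro rfl
      exact hc0 (map_zero _)
    refine h1 k ε c e i j hc hi hj ?_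
    apply h.ind
    rw [map_mul, map_mul, map_pow, map_pow, map_pow, map_pow, ← ha, ← hb, mul_assoc, hz3, hec, div_pow,
      mul_div_cancel₀]
    exact pow_ne_zero _ hc0
  have key : ∀ s : Fin 2 →₀ ℕ, ∀ p q, coeff s (ev6 x d1 d2 (P p q)) = 0 := by
    intro s
    refine h2 L (li_K k x) (x 3) (x 4) hu hv hcube (fun p q => coeff s (ev6 x d1 d2 (P p q))) ?_ ?_
    · intro p q
      obtain ⟨Q, hQ⟩ := li_coeff ε x d1 d2 h h3 (P p q)
      change coeff s (ev6 x d1 d2 (P p q)) ∈ _
      rw [← hQ, coeff_map]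
      exact (coeff s Q).2
    · have := congrArg (coeff s) hP
      simp only [coeff_sum, coeff_C_mul, coeff_zero] at this
      rw [← this]
      exact Finset.sum_congr rfl fun p _ => Finset.sum_congr rfl fun q _ => mul_comm _ _
  intro p q
  ext s
  rw [key s p q, coeff_zero]

end Pool.CXT
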