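import Pool.Agent.Work.MP_bf99ce_cx.InterfaceT2

/-! # THEOREM CX, block T2RG: regular forms on the chart `i` -/

set_option autoImplicit false

noncomputable section

open MvPolynomial

namespace Pool.CXT

open Pool.CX

theorem rg_prod (h1 : Stmt_SM) (h2 : Stmt_CH) (k L : Type) [Field k] [CharZero k] [Field L] [Algebra k L] (ε : k) (x : Fin 5 → L)
    (d1 d2 : Derivation k L L) (hs : Set2 ε x d1 d2) (i : Fin 5) (hi : i = 0 ∨ i = 1) (c : L) (hc : c ∈ ring1 k x i) :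
    ∀ (m : ℕ) (a : Fin m → L), (∀ j, a j ∈ ring1 k x i) →
      ∃ N0 : ℕ, ∀ N : ℕ, N0 ≤ N → C (x i ^ N) * (C c * ∏ j, dif d1 d2 (a j)) ∈ Wt ε x d1 d2 ((N : ℤ) - m) m := by
  intro m
  induction m with
  | zero =>
    intro a _
    obtain ⟨N0, hN0⟩ := h2 k L ε x d1 d2 hs i hi c hc
    refine ⟨N0, fun N hN => ?_⟩
    have h := (hN0 N hN).1
    rw [Finset.univ_eq_empty, Finset.prod_empty, mul_one, Nat.cast_zero, sub_zero]
    exact h
  | succ m ih =>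
    intro a ha
    obtain ⟨N0, hN0⟩ := ih (fun j => a j.succ) (fun j => ha j.succ)
    obtain ⟨N1, hN1⟩ := h2 k L ε x d1 d2 hs i hi (a 0) (ha 0)
    refine ⟨N0 + N1, fun N hN => ?_⟩
    have e1 : N = N1 + (N - N1) := by omega
    have h3 := (hN1 N1 le_rfl).2
    have h4 := hN0 (N - N1) (by omega)
    have h5 := h1 k L ε x d1 d2 hs _ _ _ _ _ _ h3 h4
    have e2 : (N1 : ℤ) - 1 + (((N - N1 : ℕ) : ℤ) - m) = (N : ℤ) - ((m + 1 : ℕ) : ℤ) := by
      push_cast [Nat.cast_sub (show N1 ≤ N by omega)]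
      ring
    have e3 : C (x i ^ N1) * dif d1 d2 (a 0) * (C (x i ^ (N - N1)) * (C c * ∏ j : Fin m, dif d1 d2 (a j.succ))) =
        C (x i ^ N) * (C c * ∏ j, dif d1 d2 (a j)) := by
      rw [Fin.prod_univ_succ]
      have e4 : x i ^ N = x i ^ N1 * x i ^ (N - N1) := by rw [← pow_add, ← e1]
      rw [e4, C_mul]
      ring
    rw [e2, e3, add_comm 1 m] at h5
    exact h5

/-- BLOCK T2RG. -/
theorem p_RG (h1 : Stmt_SM) (h2 : Stmt_CH) : Stmt_RG := by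
  intro k L _ _ _ _ ε x d1 d2 hs i hi m ψ hψ
  refine AddSubgroup.closure_induction
    (p := fun ψ _ => ∃ N0 : ℕ, ∀ N : ℕ, N0 ≤ N → C (x i ^ N) * ψ ∈ Wt ε x d1 d2 ((N : ℤ) - m) m) ?_ ?_ ?_ ?_ hψ
  · rintro _ ⟨c, a, hc, ha, rfl⟩
    exact rg_prod h1 h2 k L ε x d1 d2 hs i hi c hc m a ha
  · refine ⟨0, fun N _ => ?_⟩
    rw [mul_zero]
    exact AddSubgroup.zero_mem _
  · rintro ψ ψ' _ _ ⟨N0, h⟩ ⟨N0', h'⟩
    refine ⟨N0 + N0', fun N hN => ?_⟩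
    rw [mul_add]
    exact AddSubgroup.add_mem _ (h N (by omega)) (h' N (by omega))
  · rintro ψ _ ⟨N0, h⟩
    refine ⟨N0, fun N hN => ?_⟩
    rw [mul_neg]
    exact AddSubgroup.neg_mem _ (h N hN)

end Pool.CXT
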