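import Pool.Agent.Work.MP_bf99ce_cx.InterfaceT2

/-!
# THEOREM CX, part T2, block SM: `Wt` is multiplicative
-/

set_option autoImplicit false

noncomputable section

open MvPolynomial

namespace Pool.CXT

open Pool.CX

theorem sm_piece (hBI : Stmt_BI) (hEU : Stmt_EU) (hIW : Stmt_IW) {k L : Type} [Field k] [Field L] [Algebra k L] (ε : k)
    (x : Fin 5 → L) (d1 d2 : Derivation k L L) (h3 : x 3 ≠ 0) (h4 : x 4 ≠ 0) (n n' : ℤ) (m m' : ℕ)
    (ψ ψ' : MvPolynomial (Fin 2) L) (h : Piece ε x d1 d2 n m ψ) (h' : Piece ε x d1 d2 n' m' ψ') :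
    Piece ε x d1 d2 (n + n') (m + m') (ψ * ψ') := by
  obtain ⟨r, s, w, v, d, P, hP1, hP2, hP3, hP4, hr, hs, hn, hψ⟩ := h
  obtain ⟨r', s', w', v', d', P', hP1', hP2', hP3', hP4', hr', hs', hn', hψ'⟩ := h'
  refine ⟨r + r', s + s', w + w', v + v', d + d', P * P', (hBI k P P' d d' m m').1 hP1 hP1', ?_,
    (hIW k (aP ε) P P' w w').1 hP3 hP3', (hIW k bP P P' v v').1 hP4 hP4', ?_, ?_, ?_, ?_⟩
  · rw [(hEU k P P').2.2.1, hP2, hP2', mul_zero, mul_zero, add_zero]
  · push_cast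
    linarith
  · push_cast
    linarith
  · push_cast
    linarith
  · rw [hψ, hψ', map_mul, zpow_add₀ h3, zpow_add₀ h4]
    simp only [map_mul]
    ring

theorem p_SM (hBI : Stmt_BI) (hEU : Stmt_EU) (hIW : Stmt_IW) (hEV : Stmt_EV) : Stmt_SM := by
  intro k L _ _ _ _ ε x d1 d2 hS n n' m m' ψ ψ' hψ hψ'
  obtain ⟨h3, h4, -⟩ := hEV k L ε x d1 d2 hS
  unfold Wt at hψ hψ' ⊢
  induction hψ using AddSubgroup.closure_induction with
  | mem a ha =>
    induction hψ' using AddSubgroup.closure_induction with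
    | mem b hb => exact AddSubgroup.subset_closure (sm_piece hBI hEU hIW ε x d1 d2 h3 h4 n n' m m' a b ha hb)
    | zero =>
      rw [mul_zero]
      exact AddSubgroup.zero_mem _
    | add b c _ _ hb hc =>
      rw [mul_add]
      exact AddSubgroup.add_mem _ hb hc
    | neg b _ hb =>
      rw [mul_neg]
      exact AddSubgroup.neg_mem _ hb
  | zero =>
    rw [zero_mul]
    exact AddSubgroup.zero_mem _
  | add b c _ _ hb hc =>
    rw [add_mul]
    exact AddSubgroup.add_mem _ hb hc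
  | neg b _ hb =>
    rw [neg_mul]
    exact AddSubgroup.neg_mem _ hb

end Pool.CXT
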