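import Pool.Agent.Work.MP_bf99ce_cx.B_T2BI
import Pool.Agent.Work.MP_bf99ce_cx.B_T2EU
import Pool.Agent.Work.MP_bf99ce_cx.B_T2IW
import Pool.Agent.Work.MP_bf99ce_cx.B_T2EV
import Pool.Agent.Work.MP_bf99ce_cx.B_T2SM
import Pool.Agent.Work.MP_bf99ce_cx.B_T2GEN
import Pool.Agent.Work.MP_bf99ce_cx.B_T2CH
import Pool.Agent.Work.MP_bf99ce_cx.B_T2RG
import Pool.Agent.Work.MP_bf99ce_cx.B_T2COL
import Pool.Agent.Work.MP_bf99ce_cx.B_T2CU
import Pool.Agent.Work.MP_bf99ce_cx.B_T2KU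
import Pool.Agent.Work.MP_bf99ce_cx.B_T2LI
import Pool.Agent.Work.MP_bf99ce_cx.B_T2IN
import Pool.Agent.Work.MP_bf99ce_cx.B_T2DV
import Pool.Agent.Work.MP_bf99ce_cx.B_T2FIN

/-! # THEOREM CX, part T2: the assembly -/

set_option autoImplicit false

namespace Pool.CXT

theorem hSM : Stmt_SM := p_SM p_BI p_EU p_IW p_EV

theorem hCH : Stmt_CH := p_CH hSM (p_GEN p_BI p_EU p_IW p_EV)

/-- **Part T2.** Theorem V implies that the twisted symmetric powers `S^m Ω_X (b)`, `b ≤ m`, `1 ≤ m`, of the surface `X` have no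
nonzero sections, over every field of characteristic zero which contains `ε`, transcendental over `ℚ`. -/
theorem t2main : Pool.CX.Stmt_V → Stmt_T2 :=
  p_FIN p_BI p_EU p_EV (p_RG hSM hCH) (p_COL p_BI p_EU p_IW p_EV) (p_LI p_CU p_KU p_EV) (p_IN p_EU p_EV) p_DV

end Pool.CXT
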