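import Pool.Agent.Work.MP_bf99ce_cx.InterfaceT

/-!
# Block T1ADJ: adjunction (helper46)
-/

set_option autoImplicit false

noncomputable section

open MvPolynomial

namespace Pool.CX

theorem T1ADJ_ja {S : Type} [CommRing S] (ε c : S) (y : Fin 5 → S) (p : Fin 5) :
    ja ε (fun l => c * y l) p = c ^ 2 * ja ε y p := by
  fin_cases p <;> simp [ja] <;> ring

theorem T1ADJ_jb {S : Type} [CommRing S] (c : S) (y : Fin 5 → S) (p : Fin 5) :
    jb (fun l => c * y l) p = c ^ 2 * jb y p := by
  fin_cases p <;> simp [jb] <;> ring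

theorem T1ADJ_mnr {S : Type} [CommRing S] (ε c : S) (y : Fin 5 → S) (p q : Fin 5) :
    mnr ε (fun l => c * y l) p q = c ^ 4 * mnr ε y p q := by
  unfold mnr
  rw [T1ADJ_ja, T1ADJ_ja, T1ADJ_jb, T1ADJ_jb]
  ring

theorem T1ADJ_mem {k L : Type} [Field k] [Field L] [Algebra k L] (R : Subalgebra k L) (ε : k)
    (y : Fin 5 → L) (hy : ∀ l, y l ∈ R) (p q : Fin 5) : mnr (algebraMap k L ε) y p q ∈ R := by
  obtain ⟨y', hy'⟩ : ∃ y' : Fin 5 → R, ∀ l, (y' l : L) = y l := ⟨fun l => ⟨y l, hy l⟩, fun _ => rfl⟩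
  have c3 : ((3 : R) : L) = 3 := map_ofNat R.val 3
  have c9 : ((9 : R) : L) = 9 := map_ofNat R.val 9
  have h1 : ∀ p, ja (algebraMap k L ε) y p = ((ja (algebraMap k R ε) y' p : R) : L) := by
    intro p
    fin_cases p <;> simp [ja, hy', c3, c9]
  have h2 : ∀ p, jb y p = ((jb y' p : R) : L) := by
    intro p
    fin_cases p <;> simp [jb, hy', c3, c9]
  unfold mnr
  rw [h1, h1, h2, h2]
  exact R.sub_mem (R.mul_mem (Subtype.coe_prop _) (Subtype.coe_prop _))
    (R.mul_mem (Subtype.coe_prop _) (Subtype.coe_prop _))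

theorem T1ADJ_ind {k L : Type} [Field k] [Field L] [Algebra k L] (x : Fin 5 → L) (i : Fin 5)
    (κ : L) (E : L → L) (h0 : ∀ r : k, E (algebraMap k L r) = 0)
    (hadd : ∀ a b, E (a + b) = E a + E b) (hmul : ∀ a b, E (a * b) = a * E b + b * E a)
    (h : ∀ l, ∃ w ∈ CXT.ring1 k x i, E (x l / x i) = κ * w) :
    ∀ u ∈ CXT.ring1 k x i, ∃ w ∈ CXT.ring1 k x i, E u = κ * w := by
  intro u hu
  unfold CXT.ring1 at hu
  induction hu using Algebra.adjoin_induction with
  | mem u hu =>
    obtain ⟨l, rfl⟩ := hu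
    exact h l
  | algebraMap r => exact ⟨0, Subalgebra.zero_mem _, by rw [h0, mul_zero]⟩
  | add a b ha hb iha ihb =>
    obtain ⟨wa, hwa, ea⟩ := iha
    obtain ⟨wb, hwb, eb⟩ := ihb
    exact ⟨wa + wb, Subalgebra.add_mem _ hwa hwb, by rw [hadd, ea, eb, mul_add]⟩
  | mul a b ha hb iha ihb =>
    obtain ⟨wa, hwa, ea⟩ := iha
    obtain ⟨wb, hwb, eb⟩ := ihb
    refine ⟨a * wb + b * wa, Subalgebra.add_mem _ (Subalgebra.mul_mem _ ha hwb)
      (Subalgebra.mul_mem _ hb hwa), ?_⟩
    rw [hmul, ea, eb]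
    ring

theorem p_T1ADJ (hT : Stmt_T1TMI) : Stmt_T1ADJ := by
  intro k L _ _ _ _ ε x D1 D2 hset hx i u hu v hv
  obtain ⟨h1, -⟩ := hT k L ε x D1 D2 hset hx
  have hchar : (9 : k) ≠ 0 := by norm_num
  have hL9 : (9 : L) = algebraMap k L 9 := by rw [map_ofNat]
  have hL : (9 : L) ≠ 0 := by
    rw [hL9]
    exact (map_ne_zero _).2 hchar
  have h34 : x 3 * x 4 ≠ 0 := mul_ne_zero (hx 3) (hx 4)
  have hi := hx i
  -- the generators
  have hgen : ∀ j l, ∃ w ∈ CXT.ring1 k x i,
      D1 (x j / x i) * D2 (x l / x i) - D2 (x j / x i) * D1 (x l / x i) =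
        x i / (x 3 * x 4) ^ 2 * w := by
    intro j l
    obtain ⟨p, q, s, hpq⟩ := h1 i j l
    have hxy : x = fun m => x i * (x m / x i) := by
      funext m
      rw [mul_div_cancel₀ _ hi]
    have hm : mnr (algebraMap k L ε) x p q =
        x i ^ 4 * mnr (algebraMap k L ε) (fun m => x m / x i) p q := by
      conv_lhs => rw [hxy]
      exact T1ADJ_mnr _ _ _ _ _
    refine ⟨algebraMap k L (s / 9) * mnr (algebraMap k L ε) (fun m => x m / x i) p q,
      Subalgebra.mul_mem _ (Subalgebra.algebraMap_mem _ _)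
        (T1ADJ_mem (CXT.ring1 k x i) ε _ (fun m => Algebra.subset_adjoin (Set.mem_range_self m)) p q),
      ?_⟩
    rw [hm] at hpq
    have hs : algebraMap k L ((s : k) / 9) = (s : L) / 9 := by
      rw [map_div₀, map_intCast, map_ofNat]
    rw [hs, Derivation.leibniz_div, Derivation.leibniz_div, Derivation.leibniz_div,
      Derivation.leibniz_div]
    simp only [smul_eq_mul]
    generalize mnr (algebraMap k L ε) (fun m => x m / x i) p q = M at hpq ⊢
    generalize D1 (x j) = a1 at *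
    generalize D2 (x j) = a2 at *
    generalize D1 (x l) = b1 at *
    generalize D2 (x l) = b2 at *
    generalize D1 (x i) = c1 at *
    generalize D2 (x i) = c2 at *
    generalize (s : L) = σ at *
    generalize x 3 * x 4 = P at *
    generalize x i = xi at *
    generalize x j = xj at *
    generalize x l = xl at *
    field_simp
    linear_combination xi * hpq
  -- the induction in the first argument
  have hA : ∀ l, ∀ u ∈ CXT.ring1 k x i, ∃ w ∈ CXT.ring1 k x i,
      D1 u * D2 (x l / x i) - D2 u * D1 (x l / x i) = x i / (x 3 * x 4) ^ 2 * w := by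
    intro l
    apply T1ADJ_ind x i (x i / (x 3 * x 4) ^ 2)
      (fun u => D1 u * D2 (x l / x i) - D2 u * D1 (x l / x i))
    · intro r
      rw [D1.map_algebraMap, D2.map_algebraMap]
      ring
    · intro a b
      rw [map_add, map_add]
      ring
    · intro a b
      rw [Derivation.leibniz, Derivation.leibniz]
      simp only [smul_eq_mul]
      ring
    · intro j
      exact hgen j l
  refine T1ADJ_ind x i (x i / (x 3 * x 4) ^ 2) (fun v => D1 u * D2 v - D2 u * D1 v)
    ?_ ?_ ?_ (fun l => hA l u hu) v hv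
  · intro r
    rw [D1.map_algebraMap, D2.map_algebraMap]
    ring
  · intro a b
    rw [map_add, map_add]
    ring
  · intro a b
    rw [Derivation.leibniz, Derivation.leibniz]
    simp only [smul_eq_mul]
    ring

end Pool.CX
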