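import Pool.Agent.Work.MP_bf99ce_cx.InterfaceT

/-!
# MP_bf99ce_ag, THEOREM CX: block T1DER (the four dual derivations)
-/

set_option autoImplicit false

noncomputable section

open MvPolynomial

namespace Pool.CX

variable {K M : Type} [Field K] [Algebra ℂ K] [AddCommGroup M] [Module K M] [Module ℂ M] [IsScalarTower ℂ K M]

/-- the elements on which a derivation vanishes -/
def T1DER_ker (E : Derivation ℂ K M) : Subalgebra ℂ K where
  carrier := {z | E z = 0}
  mul_mem' := by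
    intro a b ha hb
    simp only [Set.mem_ofPred_eq] at ha hb ⊢
    rw [E.leibniz, ha, hb, smul_zero, smul_zero, add_zero]
  add_mem' := by
    intro a b ha hb
    simp only [Set.mem_ofPred_eq] at ha hb ⊢
    rw [map_add, ha, hb, add_zero]
  algebraMap_mem' r := E.map_algebraMap r

theorem T1DER_mem (E : Derivation ℂ K M) (z : K) : z ∈ T1DER_ker E ↔ E z = 0 := Iff.rfl

theorem T1DER_cube [CharZero K] (E : Derivation ℂ K M) (y z : K) (hz : z ≠ 0) (h : z ^ 3 = y) (hy : E y = 0) : E z = 0 := by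
  have h1 : E (z ^ 3) = 0 := by rw [h, hy]
  rw [E.leibniz_pow] at h1
  have h2 : ((3 : K) * z ^ 2) • E z = 0 := by
    rw [mul_smul, ← h1, ← Nat.cast_smul_eq_nsmul K 3]
    norm_num
  rcases smul_eq_zero.1 h2 with h3 | h3
  · exact absurd h3 (mul_ne_zero (by norm_num) (pow_ne_zero 2 hz))
  · exact h3

/-- a derivation which vanishes at `x 1` and `x 2` vanishes at all coordinates -/
theorem T1DER_van [CharZero K] (ε : ℂ) (x : Fin 5 → K) (h0 : x 0 = 1) (hne : ∀ i, x i ≠ 0) (hon : OnX (algebraMap ℂ K ε) x)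
    (E : Derivation ℂ K M) (h1 : E (x 1) = 0) (h2 : E (x 2) = 0) : ∀ l, E (x l) = 0 := by
  have e0 : E (x 0) = 0 := by rw [h0]; exact E.map_one_eq_zero
  have m0 : x 0 ∈ T1DER_ker E := e0
  have m1 : x 1 ∈ T1DER_ker E := h1
  have m2 : x 2 ∈ T1DER_ker E := h2
  have hav : av (algebraMap ℂ K ε) x ∈ T1DER_ker E := by
    unfold av
    refine add_mem (add_mem (add_mem (mul_mem (neg_mem (ofNat_mem _ _)) (pow_mem m0 _)) (mul_mem (ofNat_mem _ _) (pow_mem m1 _)))
      (pow_mem m2 _)) (mul_mem (Subalgebra.algebraMap_mem _ _) (mul_mem (mul_mem m0 m1) m2))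
  have hbv : bv x ∈ T1DER_ker E := by
    unfold bv
    refine add_mem (add_mem (mul_mem (neg_mem (ofNat_mem _ _)) (pow_mem m0 _)) (pow_mem m1 _)) (mul_mem (ofNat_mem _ _) (pow_mem m2 _))
  intro l
  fin_cases l
  · exact e0
  · exact h1
  · exact h2
  · exact T1DER_cube E _ _ (hne 3) hon.1 hav
  · exact T1DER_cube E _ _ (hne 4) hon.2 hbv

/-- a derivation which vanishes at the four coordinates is zero -/
theorem T1DER_zero [CharZero K] (ε : ℂ) (x x' : Fin 5 → K) (hM : Model K ε x x') (E : Derivation ℂ K M)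
    (h1 : E (x 1) = 0) (h2 : E (x 2) = 0) (h1' : E (x' 1) = 0) (h2' : E (x' 2) = 0) (z : K) : E z = 0 := by
  have a1 := T1DER_van ε x hM.one hM.ne hM.on E h1 h2
  have a2 := T1DER_van ε x' hM.one' hM.ne' hM.on' E h1' h2'
  have a3 : Algebra.adjoin ℂ (Set.range x ∪ Set.range x') ≤ T1DER_ker E := by
    refine Algebra.adjoin_le ?_
    rintro a (⟨l, rfl⟩ | ⟨l, rfl⟩)
    · exact a1 l
    · exact a2 l
  obtain ⟨a, b, ha, hb, hb0, rfl⟩ := hM.gen z
  have ha0 : E a = 0 := a3 ha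
  have hb1 : E b = 0 := a3 hb
  rw [div_eq_mul_inv, E.leibniz, E.leibniz_inv, ha0, hb1]
  simp

theorem p_T1DER (hDEX : Stmt_T1DEX) : Stmt_T1DER := by
  intro K _ _ ε x x' hM
  have : CharZero K := charZero_of_injective_algebraMap (algebraMap ℂ K).injective
  obtain ⟨D1, a1, a2, a3, a4⟩ := hDEX K ε x x' hM 1 0 0 0
  obtain ⟨D2, b1, b2, b3, b4⟩ := hDEX K ε x x' hM 0 1 0 0
  obtain ⟨D3, c1, c2, c3, c4⟩ := hDEX K ε x x' hM 0 0 1 0
  obtain ⟨D4, d1, d2, d3, d4⟩ := hDEX K ε x x' hM 0 0 0 1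
  refine ⟨![D1, D2], ![D3, D4], ?_⟩
  refine ⟨a1, a2, b1, b2, c3, c4, d3, d4, ?_, ?_, ?_⟩
  · intro i l
    fin_cases i
    · exact T1DER_van ε x' hM.one' hM.ne' hM.on' D1 a3 a4 l
    · exact T1DER_van ε x' hM.one' hM.ne' hM.on' D2 b3 b4 l
  · intro i l
    fin_cases i
    · exact T1DER_van ε x hM.one hM.ne hM.on D3 c1 c2 l
    · exact T1DER_van ε x hM.one hM.ne hM.on D4 d1 d2 l
  · intro z
    let E : Derivation ℂ K (Ω[K⁄ℂ]) := KaehlerDifferential.D ℂ K -
      ((LinearMap.toSpanSingleton K _ (KaehlerDifferential.D ℂ K (x 1))).compDer D1 +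
        (LinearMap.toSpanSingleton K _ (KaehlerDifferential.D ℂ K (x 2))).compDer D2 +
        ((LinearMap.toSpanSingleton K _ (KaehlerDifferential.D ℂ K (x' 1))).compDer D3 +
          (LinearMap.toSpanSingleton K _ (KaehlerDifferential.D ℂ K (x' 2))).compDer D4))
    have hE : ∀ z, E z = KaehlerDifferential.D ℂ K z - (D1 z • KaehlerDifferential.D ℂ K (x 1) + D2 z • KaehlerDifferential.D ℂ K (x 2) +
        (D3 z • KaehlerDifferential.D ℂ K (x' 1) + D4 z • KaehlerDifferential.D ℂ K (x' 2))) := fun z => rfl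
    have h := T1DER_zero ε x x' hM E (by rw [hE, a1, b1, c1, d1]; simp) (by rw [hE, a2, b2, c2, d2]; simp)
      (by rw [hE, a3, b3, c3, d3]; simp) (by rw [hE, a4, b4, c4, d4]; simp) z
    rw [hE, sub_eq_zero] at h
    exact h

end Pool.CX
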