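import Pool.Agent.Work.MP_bf99ce_cx.InterfaceT

/-!
# MP_bf99ce_ag, THEOREM CX: block T1DEX (derivations of the function field with given values)
-/

set_option autoImplicit false

noncomputable section

open MvPolynomial TensorProduct

namespace Pool.CX

theorem T1DEX_alg {F K : Type} [Field F] [Field K] [Algebra F K] (z : K) (n : ℕ) (hn : 0 < n) (y : F)
    (h : z ^ n = algebraMap F K y) : IsAlgebraic F z := by
  have h1 : IsIntegral F (z ^ n) := h ▸ isIntegral_algebraMap
  exact (IsIntegral.of_pow hn h1).isAlgebraic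

/-- the coordinates are algebraic over a subfield which contains the first three and `ε` -/
theorem T1DEX_coord {F K : Type} [Field F] [Field K] [Algebra F K] (e : K) (x : Fin 5 → K) (he : e ∈ (algebraMap F K).range)
    (h0 : x 0 = 1) (h1 : x 1 ∈ (algebraMap F K).range) (h2 : x 2 ∈ (algebraMap F K).range) (hon : OnX e x) :
    ∀ l, IsAlgebraic F (x l) := by
  have hx0 : x 0 ∈ (algebraMap F K).range := by rw [h0]; exact one_mem _
  have hr : ∀ z ∈ (algebraMap F K).range, IsAlgebraic F z := by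
    rintro z ⟨y, rfl⟩
    exact isAlgebraic_algebraMap y
  have hav : av e x ∈ (algebraMap F K).range := by
    unfold av
    refine add_mem (add_mem (add_mem (mul_mem (neg_mem (ofNat_mem _ _)) (pow_mem hx0 _)) (mul_mem (ofNat_mem _ _) (pow_mem h1 _)))
      (pow_mem h2 _)) (mul_mem he (mul_mem (mul_mem hx0 h1) h2))
  have hbv : bv x ∈ (algebraMap F K).range := by
    unfold bv
    refine add_mem (add_mem (mul_mem (neg_mem (ofNat_mem _ _)) (pow_mem hx0 _)) (pow_mem h1 _)) (mul_mem (ofNat_mem _ _) (pow_mem h2 _))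
  intro l
  fin_cases l
  · exact hr _ hx0
  · exact hr _ h1
  · exact hr _ h2
  · obtain ⟨y, hy⟩ := hav
    exact T1DEX_alg _ 3 (by norm_num) y (by rw [hy]; exact hon.1)
  · obtain ⟨y, hy⟩ := hbv
    exact T1DEX_alg _ 3 (by norm_num) y (by rw [hy]; exact hon.2)

theorem p_T1DEX : Stmt_T1DEX := by
  intro K _ _ ε x x' hM c0 c1 c2 c3
  classical
  let v : Fin 4 → K := ![x 1, x 2, x' 1, x' 2]
  let algS : Algebra (MvPolynomial (Fin 4) ℂ) K := (aeval v : MvPolynomial (Fin 4) ℂ →ₐ[ℂ] K).toRingHom.toAlgebra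
  have halg : ∀ p : MvPolynomial (Fin 4) ℂ, algebraMap (MvPolynomial (Fin 4) ℂ) K p = aeval v p := fun p => rfl
  have tow : IsScalarTower ℂ (MvPolynomial (Fin 4) ℂ) K := by
    refine IsScalarTower.of_algebraMap_eq fun r => ?_
    rw [halg, MvPolynomial.algebraMap_eq, aeval_C]
  have hinj : Function.Injective (algebraMap (MvPolynomial (Fin 4) ℂ) K) := hM.ai
  have : FaithfulSMul (MvPolynomial (Fin 4) ℂ) K := (faithfulSMul_iff_algebraMap_injective _ _).2 hinj
  let algF : Algebra (FractionRing (MvPolynomial (Fin 4) ℂ)) K := FractionRing.liftAlgebra _ K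
  have towF : IsScalarTower (MvPolynomial (Fin 4) ℂ) (FractionRing (MvPolynomial (Fin 4) ℂ)) K :=
    FractionRing.isScalarTower_liftAlgebra _ K
  have : Algebra.IsAlgebraic (FractionRing (MvPolynomial (Fin 4) ℂ)) K := by
    have hX : ∀ i, v i ∈ (algebraMap (FractionRing (MvPolynomial (Fin 4) ℂ)) K).range := by
      intro i
      refine ⟨algebraMap (MvPolynomial (Fin 4) ℂ) _ (X i), ?_⟩
      rw [← IsScalarTower.algebraMap_apply, halg, aeval_X]
    have hC : ∀ r : ℂ, algebraMap ℂ K r ∈ (algebraMap (FractionRing (MvPolynomial (Fin 4) ℂ)) K).range := by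
      intro r
      refine ⟨algebraMap (MvPolynomial (Fin 4) ℂ) _ (C r), ?_⟩
      rw [← IsScalarTower.algebraMap_apply, halg, aeval_C]
    have h1 : ∀ l, IsAlgebraic (FractionRing (MvPolynomial (Fin 4) ℂ)) (x l) :=
      T1DEX_coord (algebraMap ℂ K ε) x (hC ε) hM.one (hX 0) (hX 1) hM.on
    have h2 : ∀ l, IsAlgebraic (FractionRing (MvPolynomial (Fin 4) ℂ)) (x' l) :=
      T1DEX_coord (algebraMap ℂ K ε) x' (hC ε) hM.one' (hX 2) (hX 3) hM.on'
    have h3 : ∀ a ∈ Algebra.adjoin ℂ (Set.range x ∪ Set.range x'), IsAlgebraic (FractionRing (MvPolynomial (Fin 4) ℂ)) a := by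
      intro a ha
      induction ha using Algebra.adjoin_induction with
      | mem a ha =>
        rcases ha with ⟨l, rfl⟩ | ⟨l, rfl⟩
        · exact h1 l
        · exact h2 l
      | algebraMap r =>
        obtain ⟨y, hy⟩ := hC r
        rw [← hy]
        exact isAlgebraic_algebraMap y
      | add a b _ _ ha hb => exact ha.add hb
      | mul a b _ _ ha hb => exact ha.mul hb
    refine ⟨fun z => ?_⟩
    obtain ⟨a, b, ha, hb, _, rfl⟩ := hM.gen z
    rw [div_eq_mul_inv]
    exact (h3 a ha).mul (h3 b hb).inv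
  have : Algebra.FormallyEtale (FractionRing (MvPolynomial (Fin 4) ℂ)) K := Algebra.FormallyEtale.of_isSeparable _ _
  have : Algebra.FormallyEtale (MvPolynomial (Fin 4) ℂ) (FractionRing (MvPolynomial (Fin 4) ℂ)) :=
    Algebra.FormallyEtale.of_isLocalization (nonZeroDivisors (MvPolynomial (Fin 4) ℂ))
  have : Algebra.FormallyEtale (MvPolynomial (Fin 4) ℂ) K :=
    Algebra.FormallyEtale.comp (MvPolynomial (Fin 4) ℂ) (FractionRing (MvPolynomial (Fin 4) ℂ)) K
  let c : Fin 4 → K := ![c0, c1, c2, c3]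
  let l0 : Ω[MvPolynomial (Fin 4) ℂ⁄ℂ] →ₗ[MvPolynomial (Fin 4) ℂ] K := (mkDerivation ℂ c).liftKaehlerDifferential
  let l1 : Ω[K⁄ℂ] →ₗ[K] K := (LinearMap.liftBaseChange K l0) ∘ₗ
    (KaehlerDifferential.tensorKaehlerEquivOfFormallyEtale ℂ (MvPolynomial (Fin 4) ℂ) K).symm.toLinearMap
  have key : ∀ i, l1.compDer (KaehlerDifferential.D ℂ K) (v i) = c i := by
    intro i
    have e1 : v i = algebraMap (MvPolynomial (Fin 4) ℂ) K (X i) := by rw [halg, aeval_X]
    rw [e1]
    change (LinearMap.liftBaseChange K l0) ((KaehlerDifferential.tensorKaehlerEquivOfFormallyEtale ℂ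
      (MvPolynomial (Fin 4) ℂ) K).symm (KaehlerDifferential.D ℂ K (algebraMap (MvPolynomial (Fin 4) ℂ) K (X i)))) = c i
    rw [KaehlerDifferential.tensorKaehlerEquivOfFormallyEtale_symm_D_algebraMap, LinearMap.liftBaseChange_tmul, one_smul]
    change (mkDerivation ℂ c).liftKaehlerDifferential (KaehlerDifferential.D ℂ _ (X i)) = c i
    rw [Derivation.liftKaehlerDifferential_comp_D, mkDerivation_X]
  exact ⟨l1.compDer (KaehlerDifferential.D ℂ K), key 0, key 1, key 2, key 3⟩

end Pool.CX
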