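import Pool.Agent.Work.MP_bf99ce_cx.InterfaceT
set_option autoImplicit false
noncomputable section
open MvPolynomial

namespace Pool.CX

theorem T1HOM_co {K : Type} [Field K] (Ψ : MvPolynomial (Fin 2 ⊕ Fin 2) K) (α β : Fin 2 →₀ ℕ) :
    coeff α (coeff β (sumAlgEquiv K (Fin 2) (Fin 2) Ψ)) = coeff (Finsupp.sumFinsuppAddEquivProdFinsupp.symm (β, α)) Ψ := by
  induction Ψ using MvPolynomial.induction_on' with
  | add p q hp hq => rw [map_add, coeff_add, coeff_add, coeff_add, hp, hq]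
  | monomial u a =>
    have h : sumAlgEquiv K (Fin 2) (Fin 2) (monomial u a) =
      monomial (Finsupp.sumFinsuppAddEquivProdFinsupp u).1 (monomial (Finsupp.sumFinsuppAddEquivProdFinsupp u).2 a) := by
      simp [sumAlgEquiv, monomial]
    rw [h, coeff_monomial, coeff_monomial]
    by_cases h1 : Finsupp.sumFinsuppAddEquivProdFinsupp.symm (β, α) = u
    · subst h1
      simp
    · rw [if_neg (Ne.symm h1)]
      by_cases h2 : (Finsupp.sumFinsuppAddEquivProdFinsupp u).1 = β
      · rw [if_pos h2, coeff_monomial, if_neg]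
        intro h3
        apply h1
        rw [← h2, ← h3]
        simp
      · rw [if_neg h2, coeff_zero]

theorem T1HOM_sw (v : (Fin 2 ⊕ Fin 2) →₀ ℕ) (α β : Fin 2 →₀ ℕ) (hv : v = Finsupp.sumFinsuppAddEquivProdFinsupp.symm (α, β)) :
    v.mapDomain Sum.swap = Finsupp.sumFinsuppAddEquivProdFinsupp.symm (β, α) := by
  subst hv
  have h : Function.Injective (Sum.swap : Fin 2 ⊕ Fin 2 → Fin 2 ⊕ Fin 2) := (Equiv.sumComm (Fin 2) (Fin 2)).injective
  ext i
  rcases i with i | i
  · have h1 := Finsupp.mapDomain_apply h (Finsupp.sumFinsuppAddEquivProdFinsupp.symm (α, β)) (Sum.inr i)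
    simpa using h1
  · have h1 := Finsupp.mapDomain_apply h (Finsupp.sumFinsuppAddEquivProdFinsupp.symm (α, β)) (Sum.inl i)
    simpa using h1

theorem T1HOM_sl {K : Type} [Field K] (Φ : MvPolynomial (Fin 2 ⊕ Fin 2) K) (α β : Fin 2 →₀ ℕ) :
    coeff α (sl β Φ) = coeff (Finsupp.sumFinsuppAddEquivProdFinsupp.symm (α, β)) Φ := by
  have h : Function.Injective (Sum.swap : Fin 2 ⊕ Fin 2 → Fin 2 ⊕ Fin 2) := (Equiv.sumComm (Fin 2) (Fin 2)).injective
  unfold sl
  rw [T1HOM_co, ← T1HOM_sw _ α β rfl, coeff_rename_mapDomain _ h]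

theorem p_T1HOM : Stmt_T1HOM := by
  intro K _ _ d d' A m
  refine ⟨?_, ?_, ?_⟩
  · intro Φ hΦ
    unfold Gf at hΦ
    induction hΦ using AddSubmonoid.closure_induction with
    | mem Φ h =>
      obtain ⟨c, a, -, -, rfl⟩ := h
      have h1 : ∀ j, (lf3 d d' (a j)).IsHomogeneous 1 := by
        intro j
        unfold lf3
        refine IsHomogeneous.add (IsHomogeneous.sum _ _ _ fun i _ => ?_) (IsHomogeneous.sum _ _ _ fun i _ => ?_)
        · simpa using (isHomogeneous_C _ _).mul (isHomogeneous_X _ _)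
        · simpa using (isHomogeneous_C _ _).mul (isHomogeneous_X _ _)
      have h2 := IsHomogeneous.prod (Finset.univ : Finset (Fin m)) (fun j => lf3 d d' (a j)) (fun _ => 1) (fun j _ => h1 j)
      have h3 := (isHomogeneous_C (Fin 2 ⊕ Fin 2) c).mul h2
      simpa using h3
    | zero => exact isHomogeneous_zero _ _ _
    | add Φ Ψ _ _ h1 h2 => exact h1.add h2
  · intro Φ α β
    have h : Function.Injective (Sum.swap : Fin 2 ⊕ Fin 2 → Fin 2 ⊕ Fin 2) := (Equiv.sumComm (Fin 2) (Fin 2)).injective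
    rw [T1HOM_sl, T1HOM_sl, ← T1HOM_sw _ α β rfl, coeff_rename_mapDomain _ h]
  · intro Φ h0 hm
    obtain ⟨v, hv⟩ := exists_coeff_ne_zero h0
    refine ⟨(Finsupp.sumFinsuppAddEquivProdFinsupp v).1, (Finsupp.sumFinsuppAddEquivProdFinsupp v).2, ?_, ?_⟩
    · rw [T1HOM_sl]
      simpa using hv
    · have h1 := hm hv
      have h2 : (Finsupp.weight 1 : ((Fin 2 ⊕ Fin 2) →₀ ℕ) →+ ℕ) v = Finsupp.degree v := by
        rw [Finsupp.degree_eq_weight_one]
        rfl
      rw [h2, Finsupp.degree_eq_sum, Fintype.sum_sum_type, Fin.sum_univ_two, Fin.sum_univ_two] at h1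
      exact h1

end Pool.CX
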