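import Pool.Agent.Work.MP_bf99ce_cx.InterfaceT

/-!
# Block T1KAI: algebraic independence over the second factor
-/

set_option autoImplicit false

noncomputable section

open MvPolynomial

namespace Pool.CX

theorem T1KAI_sum {K : Type} [Field K] [Algebra ℂ K] {x x' : Fin 5 → K} (h : AlgebraicIndependent ℂ ![x 1, x 2, x' 1, x' 2]) :
    AlgebraicIndependent ℂ (Sum.elim ![x 1, x 2] ![x' 1, x' 2]) := by
  have h2 := h.comp (finSumFinEquiv : Fin 2 ⊕ Fin 2 ≃ Fin 4) (Equiv.injective _)
  convert h2 using 1
  ext i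
  rcases i with i | i <;> fin_cases i <;> rfl

/-- **T1KAI.** -/
theorem p_T1KAI : Stmt_T1KAI := by
  intro K _ _ ε x x' hM
  have h1 := (AlgebraicIndependent.sumElim_iff.1 (T1KAI_sum hM.ai)).2
  have h2 : AlgebraicIndependent (IntermediateField.adjoin ℂ (Set.range ![x' 1, x' 2])) ![x 1, x 2] :=
    IntermediateField.algebraicIndependent_adjoin_iff.2 h1
  set F := IntermediateField.adjoin ℂ (Set.range ![x' 1, x' 2]) with hF
  have h3 := h2.algebraicClosure
  have hm1 : x' 1 ∈ F := IntermediateField.subset_adjoin _ _ ⟨0, rfl⟩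
  have hm2 : x' 2 ∈ F := IntermediateField.subset_adjoin _ _ ⟨1, rfl⟩
  have hm0 : x' 0 ∈ F := by rw [hM.one']; exact one_mem _
  have hε : algebraMap ℂ K ε ∈ F := F.algebraMap_mem ε
  have hn : ∀ n : ℕ, (n : K) ∈ F := fun n => natCast_mem _ n
  have h9 : (3 : K) ∈ F := by exact_mod_cast hn 3
  have ha : av (algebraMap ℂ K ε) x' ∈ F := by
    unfold av
    exact add_mem (add_mem (add_mem (mul_mem (neg_mem h9) (pow_mem hm0 3)) (mul_mem h9 (pow_mem hm1 3))) (pow_mem hm2 3))
      (mul_mem hε (mul_mem (mul_mem hm0 hm1) hm2))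
  have hb : bv x' ∈ F := by
    unfold bv
    exact add_mem (add_mem (mul_mem (neg_mem h9) (pow_mem hm0 3)) (pow_mem hm1 3)) (mul_mem h9 (pow_mem hm2 3))
  have hmem : ∀ z ∈ F, z ∈ algebraicClosure F K := fun z hz => (algebraicClosure F K).algebraMap_mem (⟨z, hz⟩ : F)
  have hall : ∀ l, x' l ∈ algebraicClosure F K := by
    intro l
    fin_cases l
    · exact hmem _ hm0
    · exact hmem _ hm1
    · exact hmem _ hm2
    · refine mem_algebraicClosure_iff.2 (IsAlgebraic.of_pow (n := 3) (by norm_num) ?_)
      have := hmem _ ha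
      rw [← hM.on'.1] at this
      exact mem_algebraicClosure_iff.1 this
    · refine mem_algebraicClosure_iff.2 (IsAlgebraic.of_pow (n := 3) (by norm_num) ?_)
      have := hmem _ hb
      rw [← hM.on'.2] at this
      exact mem_algebraicClosure_iff.1 this
  set M := (algebraicClosure F K).restrictScalars ℂ with hMd
  have hle : IntermediateField.adjoin ℂ (Set.range x') ≤ M := by
    rw [IntermediateField.adjoin_le_iff]
    rintro _ ⟨l, rfl⟩
    exact hall l
  have h4 : AlgebraicIndependent M ![x 1, x 2] := h3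
  let _ : Algebra (IntermediateField.adjoin ℂ (Set.range x')) M := (IntermediateField.inclusion hle).toRingHom.toAlgebra
  have : IsScalarTower (IntermediateField.adjoin ℂ (Set.range x')) M K := IsScalarTower.of_algebraMap_eq fun y => rfl
  exact h4.restrictScalars (IntermediateField.inclusion hle).toRingHom.injective

end Pool.CX
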