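import Pool.Agent.Work.MP_bf99ce_cx.InterfaceT

/-!
# Block T1KLD: the second factor as base field
-/

set_option autoImplicit false

noncomputable section

open MvPolynomial

namespace Pool.CX

section

variable {K : Type} [Field K] [Algebra ℂ K]

/-- the field generated by the coordinates of the second factor -/
abbrev T1KLD_k (x' : Fin 5 → K) : IntermediateField ℂ K :=
  IntermediateField.adjoin ℂ (Set.range x')

theorem T1KLD_zero (x' : Fin 5 → K) (D : Derivation ℂ K K) (h : ∀ l, D (x' l) = 0) :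
    ∀ c ∈ T1KLD_k x', D c = 0 := by
  intro c hc
  induction hc using IntermediateField.adjoin_induction with
  | mem x hx => obtain ⟨l, rfl⟩ := hx; exact h l
  | algebraMap x => exact D.map_algebraMap x
  | add x y hx hy h1 h2 => rw [map_add, h1, h2, add_zero]
  | inv x hx h1 => rw [D.leibniz_inv, h1, smul_zero]
  | mul x y hx hy h1 h2 => rw [D.leibniz, h1, h2, smul_zero, smul_zero, add_zero]

theorem T1KLD_stab (x' : Fin 5 → K) (D : Derivation ℂ K K)
    (h : ∀ l, D (x' l) ∈ T1KLD_k x') : ∀ c ∈ T1KLD_k x', D c ∈ T1KLD_k x' := by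
  intro c hc
  induction hc using IntermediateField.adjoin_induction with
  | mem x hx => obtain ⟨l, rfl⟩ := hx; exact h l
  | algebraMap x => rw [D.map_algebraMap]; exact zero_mem _
  | add x y hx hy h1 h2 => rw [map_add]; exact add_mem h1 h2
  | inv x hx h1 =>
    rw [D.leibniz_inv, smul_eq_mul]
    exact mul_mem (neg_mem (pow_mem (inv_mem hx) 2)) h1
  | mul x y hx hy h1 h2 =>
    rw [D.leibniz, smul_eq_mul, smul_eq_mul]
    exact add_mem (mul_mem hx h2) (mul_mem hy h1)

theorem T1KLD_x (x' : Fin 5 → K) (l : Fin 5) : x' l ∈ T1KLD_k x' :=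
  IntermediateField.subset_adjoin _ _ ⟨l, rfl⟩

theorem T1KLD_all [CharZero K] (ε : ℂ) (x' : Fin 5 → K) (D : Derivation ℂ K K) (h0 : x' 0 = 1)
    (hne : ∀ i, x' i ≠ 0) (on : OnX (algebraMap ℂ K ε) x') (h1 : D (x' 1) ∈ T1KLD_k x')
    (h2 : D (x' 2) ∈ T1KLD_k x') : ∀ l, D (x' l) ∈ T1KLD_k x' := by
  have d0 : D (x' 0) = 0 := by rw [h0, D.map_one_eq_zero]
  have k3 : D (3 : K) = 0 := by exact_mod_cast D.map_natCast 3
  have kn3 : D (-3 : K) = 0 := by rw [map_neg, k3, neg_zero]
  have kε : D (algebraMap ℂ K ε) = 0 := D.map_algebraMap ε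
  have e3 : 3 * x' 3 ^ 2 * D (x' 3) =
      dav (algebraMap ℂ K ε) x' (fun l => D (x' l)) := by
    have e := congrArg D on.1
    simp only [av, map_add, Derivation.leibniz, Derivation.leibniz_pow, k3, kn3, kε, smul_eq_mul,
      nsmul_eq_mul, smul_zero, mul_zero, add_zero] at e
    simp only [dav]
    push_cast at e
    linear_combination e
  have e4 : 3 * x' 4 ^ 2 * D (x' 4) = dbv x' (fun l => D (x' l)) := by
    have e := congrArg D on.2
    simp only [bv, map_add, Derivation.leibniz, Derivation.leibniz_pow, k3, kn3, smul_eq_mul,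
      nsmul_eq_mul, smul_zero, mul_zero, add_zero] at e
    simp only [dbv]
    push_cast at e
    linear_combination e
  have m1 := T1KLD_x x' 1
  have m2 := T1KLD_x x' 2
  have mε : algebraMap ℂ K ε ∈ T1KLD_k x' := IntermediateField.algebraMap_mem _ ε
  have hnat : ∀ n : ℕ, ((n : ℕ) : K) ∈ T1KLD_k x' := fun n => natCast_mem _ n
  have n3 : (3 : K) ∈ T1KLD_k x' := by exact_mod_cast hnat 3
  have n9 : (9 : K) ∈ T1KLD_k x' := by exact_mod_cast hnat 9
  have r3 : dav (algebraMap ℂ K ε) x' (fun l => D (x' l)) ∈ T1KLD_k x' := by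
    simp only [dav, d0]
    simp only [h0]
    refine add_mem (add_mem (add_mem ?_ ?_) ?_) (mul_mem mε (add_mem (add_mem ?_ ?_) ?_))
    · rw [mul_zero]; exact zero_mem _
    · exact mul_mem (mul_mem n9 (pow_mem m1 2)) h1
    · exact mul_mem (mul_mem n3 (pow_mem m2 2)) h2
    · rw [zero_mul, zero_mul]; exact zero_mem _
    · rw [one_mul]; exact mul_mem h1 m2
    · rw [one_mul]; exact mul_mem m1 h2
  have r4 : dbv x' (fun l => D (x' l)) ∈ T1KLD_k x' := by
    simp only [dbv, d0]
    refine add_mem (add_mem ?_ ?_) ?_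
    · rw [mul_zero]; exact zero_mem _
    · exact mul_mem (mul_mem n3 (pow_mem m1 2)) h1
    · exact mul_mem (mul_mem n9 (pow_mem m2 2)) h2
  have s3 : D (x' 3) = dav (algebraMap ℂ K ε) x' (fun l => D (x' l)) / (3 * x' 3 ^ 2) := by
    rw [← e3, mul_div_cancel_left₀]
    exact mul_ne_zero (by norm_num) (pow_ne_zero _ (hne 3))
  have s4 : D (x' 4) = dbv x' (fun l => D (x' l)) / (3 * x' 4 ^ 2) := by
    rw [← e4, mul_div_cancel_left₀]
    exact mul_ne_zero (by norm_num) (pow_ne_zero _ (hne 4))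
  intro l
  fin_cases l
  · show D (x' 0) ∈ _
    rw [d0]; exact zero_mem _
  · exact h1
  · exact h2
  · show D (x' 3) ∈ _
    rw [s3]
    exact div_mem r3 (mul_mem n3 (pow_mem (T1KLD_x x' 3) 2))
  · show D (x' 4) ∈ _
    rw [s4]
    exact div_mem r4 (mul_mem n3 (pow_mem (T1KLD_x x' 4) 2))

/-- a derivation which is zero on the subfield is linear over it -/
def T1KLD_der (x' : Fin 5 → K) (D : Derivation ℂ K K) (h : ∀ l, D (x' l) = 0) :
    Derivation (T1KLD_k x') K K :=
  Derivation.mk'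
    { toFun := D
      map_add' := map_add D
      map_smul' := fun c z => by
        show D ((c : K) * z) = (c : K) * D z
        rw [D.leibniz, T1KLD_zero x' D h c c.2, smul_zero, add_zero, smul_eq_mul] }
    (fun a b => D.leibniz a b)

theorem T1KLD_der_apply (x' : Fin 5 → K) (D : Derivation ℂ K K) (h : ∀ l, D (x' l) = 0) (z : K) :
    T1KLD_der x' D h z = D z := rfl

end

theorem p_T1KLD (hKAI : Stmt_T1KAI) : Stmt_T1KLD := by
  intro K _ _ ε x x' hM d d' hD
  have hcz : CharZero K := charZero_of_injective_algebraMap (algebraMap ℂ K).injective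
  have hst : ∀ j, ∀ c ∈ T1KLD_k x', d' j c ∈ T1KLD_k x' := by
    intro j
    refine T1KLD_stab x' (d' j) (T1KLD_all ε x' (d' j) hM.one' hM.ne' hM.on' ?_ ?_)
    · fin_cases j
      · show d' 0 (x' 1) ∈ _
        rw [hD.k00]; exact one_mem _
      · show d' 1 (x' 1) ∈ _
        rw [hD.k10]; exact zero_mem _
    · fin_cases j
      · show d' 0 (x' 2) ∈ _
        rw [hD.k01]; exact zero_mem _
      · show d' 1 (x' 2) ∈ _
        rw [hD.k11]; exact one_mem _
  refine ⟨T1KLD_k x', inferInstance, inferInstance, inferInstance, inferInstance,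
    T1KLD_der x' (d 0) (hD.z 0), T1KLD_der x' (d 1) (hD.z 1), fun z => rfl, fun z => rfl,
    ⟨hM.one, hKAI K ε x x' hM, hM.on, hD.h00, hD.h01, hD.h10, hD.h11⟩, ?_⟩
  intro i i' a ha
  have hmem : ∀ (c : K), c ∈ T1KLD_k x' → ∀ l, c * (x l / x i) ∈
      CXT.ring1 (T1KLD_k x') x i := by
    intro c hc l
    have h1 : x l / x i ∈ CXT.ring1 (T1KLD_k x') x i := Algebra.subset_adjoin ⟨l, rfl⟩
    exact Subalgebra.smul_mem _ h1 (⟨c, hc⟩ : T1KLD_k x')
  unfold chart at ha
  induction ha using Algebra.adjoin_induction with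
  | mem a ha =>
    obtain ⟨⟨l, l'⟩, rfl⟩ := ha
    have e : seg x x' (l, l') / seg x x' (i, i') = (x' l' / x' i') * (x l / x i) := by
      show (x l * x' l') / (x i * x' i') = _
      rw [mul_div_mul_comm, mul_comm]
    have hc : x' l' / x' i' ∈ T1KLD_k x' := div_mem (T1KLD_x x' l') (T1KLD_x x' i')
    show seg x x' (l, l') / seg x x' (i, i') ∈ _ ∧
      ∀ j, d' j (seg x x' (l, l') / seg x x' (i, i')) ∈ _
    rw [e]
    refine ⟨hmem _ hc l, fun j => ?_⟩
    have h0 : d' j (x l / x i) = 0 := by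
      rw [Derivation.leibniz_div, hD.z', hD.z', smul_zero, smul_zero, sub_zero, smul_zero]
    rw [Derivation.leibniz, h0, smul_zero, zero_add, smul_eq_mul, mul_comm]
    exact hmem _ (hst j _ hc) l
  | algebraMap r =>
    refine ⟨?_, fun j => ?_⟩
    · exact Subalgebra.algebraMap_mem (CXT.ring1 (T1KLD_k x') x i)
        (algebraMap ℂ (T1KLD_k x') r)
    · rw [Derivation.map_algebraMap]
      exact zero_mem _
  | add a b _ _ h1 h2 =>
    refine ⟨add_mem h1.1 h2.1, fun j => ?_⟩
    rw [map_add]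
    exact add_mem (h1.2 j) (h2.2 j)
  | mul a b _ _ h1 h2 =>
    refine ⟨mul_mem h1.1 h2.1, fun j => ?_⟩
    rw [Derivation.leibniz, smul_eq_mul, smul_eq_mul]
    exact add_mem (mul_mem h1.1 (h2.2 j)) (mul_mem h2.1 (h1.2 j))

end Pool.CX
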