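import Pool.Agent.Work.MP_bf99ce_cx.InterfaceT

set_option autoImplicit false

noncomputable section

open MvPolynomial

namespace Pool.CX

/-- The sorted triples. -/
def T1PSI_s : Fin 4 → Fin 3 → Fin 4 := ![![0, 2, 3], ![1, 2, 3], ![0, 1, 2], ![0, 1, 3]]

theorem T1PSI_sort : ∀ v : Fin 3 → Fin 4, Function.Injective v →
    ∃ (σ : Equiv.Perm (Fin 3)) (k : Fin 4), v = T1PSI_s k ∘ σ := by
  decide +kernel

section

variable {R : Type} [CommRing R] {M N : Type} [AddCommGroup M] [Module R M] [AddCommGroup N] [Module R N]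

theorem T1PSI_sum_apply {κ : Type} (s : Finset κ) (f : κ → M [⋀^Fin 3]→ₗ[R] N) (v : Fin 3 → M) :
    (∑ i ∈ s, f i) v = ∑ i ∈ s, f i v := by
  classical
  induction s using Finset.induction_on with
  | empty => simp
  | insert a s ha ih => rw [Finset.sum_insert ha, Finset.sum_insert ha, AlternatingMap.add_apply, ih]

theorem T1PSI_ext (f g : (Fin 4 → R) [⋀^Fin 3]→ₗ[R] N)
    (h : ∀ k : Fin 4, f (fun i => Pi.single (T1PSI_s k i) 1) = g (fun i => Pi.single (T1PSI_s k i) 1)) :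
    f = g := by
  refine Module.Basis.ext_alternating (Pi.basisFun R (Fin 4)) (fun v hv => ?_)
  obtain ⟨σ, k, rfl⟩ := T1PSI_sort v hv
  have e : (fun i => (Pi.basisFun R (Fin 4)) ((T1PSI_s k ∘ σ) i)) =
      (fun i => (Pi.single (T1PSI_s k i) (1 : R) : Fin 4 → R)) ∘ σ := by
    funext i
    simp only [Pi.basisFun_apply, Function.comp]
  rw [e, AlternatingMap.map_perm, AlternatingMap.map_perm, h k]

/-- The minor of the columns `s`. -/
def T1PSI_mn (R : Type) [CommRing R] (s : Fin 3 → Fin 4) : (Fin 4 → R) [⋀^Fin 3]→ₗ[R] R :=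
  (Matrix.detRowAlternating : (Fin 3 → R) [⋀^Fin 3]→ₗ[R] R).compLinearMap (LinearMap.funLeft R R s)

theorem T1PSI_mn_apply (s : Fin 3 → Fin 4) (c : Fin 3 → Fin 4 → R) :
    T1PSI_mn R s c = (Matrix.of fun j i => c j (s i)).det := rfl

theorem T1PSI_mn_single (k l : Fin 4) :
    T1PSI_mn R (T1PSI_s l) (fun i => Pi.single (T1PSI_s k i) 1) = if k = l then 1 else 0 := by
  rw [T1PSI_mn_apply, Matrix.det_fin_three]
  fin_cases k <;> fin_cases l <;> simp [T1PSI_s, Pi.single_apply]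

theorem T1PSI_exp (T : M [⋀^Fin 3]→ₗ[R] N) (e : Fin 4 → M) (c : Fin 3 → Fin 4 → R) :
    T (fun j => ∑ s, c j s • e s) =
      ∑ k : Fin 4, (Matrix.of fun j i => c j (T1PSI_s k i)).det • T (fun i => e (T1PSI_s k i)) := by
  have h : T.compLinearMap (Fintype.linearCombination R e) =
      ∑ k : Fin 4, (LinearMap.toSpanSingleton R N (T (fun i => e (T1PSI_s k i)))).compAlternatingMap
        (T1PSI_mn R (T1PSI_s k)) := by
    refine T1PSI_ext _ _ (fun k => ?_)
    rw [T1PSI_sum_apply]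
    simp only [LinearMap.compAlternatingMap_apply, T1PSI_mn_single, LinearMap.toSpanSingleton_apply,
      AlternatingMap.compLinearMap_apply, Fintype.linearCombination_apply_single, one_smul,
      ite_smul, zero_smul]
    rw [Finset.sum_ite_eq]
    simp
  have h2 := congrArg (fun f => f c) h
  simp only [T1PSI_sum_apply, LinearMap.compAlternatingMap_apply,
      AlternatingMap.compLinearMap_apply, LinearMap.toSpanSingleton_apply, T1PSI_mn_apply,
      Fintype.linearCombination_apply] at h2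
  exact h2

end

section

variable {K : Type} [Field K] [Algebra ℂ K]

/-- The alternating map of three derivations. -/
def T1PSI_al (δ : Fin 3 → Derivation ℂ K K) : (Ω[K⁄ℂ]) [⋀^Fin 3]→ₗ[K] K :=
  (Matrix.detRowAlternating : (Fin 3 → K) [⋀^Fin 3]→ₗ[K] K).compLinearMap
    (LinearMap.pi fun i => (δ i).liftKaehlerDifferential)

theorem T1PSI_al_apply (δ : Fin 3 → Derivation ℂ K K) (a : Fin 3 → K) :
    T1PSI_al δ (fun j => KaehlerDifferential.D ℂ K (a j)) = dt3 δ a := by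
  have h : T1PSI_al δ (fun j => KaehlerDifferential.D ℂ K (a j)) =
      (Matrix.of fun j i => (δ i).liftKaehlerDifferential (KaehlerDifferential.D ℂ K (a j))).det := rfl
  rw [h, dt3, ← Matrix.det_transpose]
  congr 1
  ext i j
  simp [Matrix.transpose_apply, Derivation.liftKaehlerDifferential_comp_D]

/-- The alternating map with polynomial values. -/
def T1PSI_F (d d' : Fin 2 → Derivation ℂ K K) :
    (Ω[K⁄ℂ]) [⋀^Fin 3]→ₗ[K] MvPolynomial (Fin 2 ⊕ Fin 2) K :=
  ∑ i : Fin 2, (LinearMap.toSpanSingleton K (MvPolynomial (Fin 2 ⊕ Fin 2) K)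
      (X (Sum.inl i))).compAlternatingMap (T1PSI_al ![d i, d' 0, d' 1]) +
    ∑ i : Fin 2, (LinearMap.toSpanSingleton K (MvPolynomial (Fin 2 ⊕ Fin 2) K)
      (X (Sum.inr i))).compAlternatingMap (T1PSI_al ![d 0, d 1, d' i])

theorem T1PSI_F_apply (d d' : Fin 2 → Derivation ℂ K K) (a : Fin 3 → K) :
    T1PSI_F d d' (fun j => KaehlerDifferential.D ℂ K (a j)) = lf3 d d' a := by
  unfold T1PSI_F lf3
  rw [AlternatingMap.add_apply, T1PSI_sum_apply, T1PSI_sum_apply]
  simp only [LinearMap.compAlternatingMap_apply, T1PSI_al_apply, LinearMap.toSpanSingleton_apply,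
    MvPolynomial.smul_eq_C_mul]

/-- The first map. -/
def T1PSI_Psi (d d' : Fin 2 → Derivation ℂ K K) : SE K →ₐ[K] MvPolynomial (Fin 2 ⊕ Fin 2) K :=
  SymmetricAlgebra.lift (ExteriorAlgebra.liftAlternating (Pi.single 3 (T1PSI_F d d')))

theorem T1PSI_Psi_apply (d d' : Fin 2 → Derivation ℂ K K) (a : Fin 3 → K) :
    T1PSI_Psi d d' (i3 a) = lf3 d d' a := by
  unfold T1PSI_Psi i3
  rw [SymmetricAlgebra.lift_ι_apply, ExteriorAlgebra.liftAlternating_apply_ιMulti, Pi.single_eq_same,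
    T1PSI_F_apply]

/-- The second map. -/
def T1PSI_Lam (x x' : Fin 5 → K) : MvPolynomial (Fin 2 ⊕ Fin 2) K →ₐ[K] SE K :=
  aeval (Sum.elim (fun i : Fin 2 => i3 ![![x 1, x 2] i, x' 1, x' 2])
    (fun i : Fin 2 => i3 ![x 1, x 2, ![x' 1, x' 2] i]))

theorem T1PSI_Lam_apply (x x' : Fin 5 → K) (d d' : Fin 2 → Derivation ℂ K K) (h : Ders x x' d d')
    (a : Fin 3 → K) : T1PSI_Lam x x' (lf3 d d' a) = i3 a := by
  let e : Fin 4 → Ω[K⁄ℂ] := ![KaehlerDifferential.D ℂ K (x 1), KaehlerDifferential.D ℂ K (x 2),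
    KaehlerDifferential.D ℂ K (x' 1), KaehlerDifferential.D ℂ K (x' 2)]
  let c : Fin 3 → Fin 4 → K := fun j => ![d 0 (a j), d 1 (a j), d' 0 (a j), d' 1 (a j)]
  have h1 : (fun j => KaehlerDifferential.D ℂ K (a j)) = fun j => ∑ s, c j s • e s := by
    funext j
    rw [h.gen (a j), Fin.sum_univ_four]
    simp only [c, e, Matrix.cons_val]
    abel
  have h2 : i3 a = ((SymmetricAlgebra.ι K (ExteriorAlgebra K (Ω[K⁄ℂ]))).compAlternatingMap
      (ExteriorAlgebra.ιMulti K 3)) (fun j => ∑ s, c j s • e s) := by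
    rw [← h1]
    rfl
  rw [h2, T1PSI_exp, Fin.sum_univ_four]
  have h3 : ∀ (b : Fin 3 → K) (k : Fin 4), (∀ i, e (T1PSI_s k i) = KaehlerDifferential.D ℂ K (b i)) →
      ((SymmetricAlgebra.ι K (ExteriorAlgebra K (Ω[K⁄ℂ]))).compAlternatingMap
      (ExteriorAlgebra.ιMulti K 3)) (fun i => e (T1PSI_s k i)) = i3 b := by
    intro b k hb
    have : (fun i => e (T1PSI_s k i)) = fun i => KaehlerDifferential.D ℂ K (b i) := funext hb
    rw [this]
    rfl
  have h4 : ∀ (δ : Fin 3 → Derivation ℂ K K) (k : Fin 4), (∀ i j, c j (T1PSI_s k i) = δ i (a j)) →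
      (Matrix.of fun j i => c j (T1PSI_s k i)).det = dt3 δ a := by
    intro δ k hδ
    rw [dt3, ← Matrix.det_transpose]
    congr 1
    ext i j
    exact hδ i j
  rw [h3 ![x 1, x' 1, x' 2] 0 (by intro i; fin_cases i <;> rfl),
    h3 ![x 2, x' 1, x' 2] 1 (by intro i; fin_cases i <;> rfl),
    h3 ![x 1, x 2, x' 1] 2 (by intro i; fin_cases i <;> rfl),
    h3 ![x 1, x 2, x' 2] 3 (by intro i; fin_cases i <;> rfl),
    h4 ![d 0, d' 0, d' 1] 0 (by intro i j; fin_cases i <;> rfl),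
    h4 ![d 1, d' 0, d' 1] 1 (by intro i j; fin_cases i <;> rfl),
    h4 ![d 0, d 1, d' 0] 2 (by intro i j; fin_cases i <;> rfl),
    h4 ![d 0, d 1, d' 1] 3 (by intro i j; fin_cases i <;> rfl)]
  unfold T1PSI_Lam lf3
  simp only [Fin.sum_univ_two, map_add, map_mul, algHom_C, aeval_X, Sum.elim_inl, Sum.elim_inr,
    Algebra.smul_def, Matrix.cons_val_zero, Matrix.cons_val_one, Matrix.cons_val]
  ring

end

theorem p_T1PSI : Stmt_T1PSI := by
  intro K _ _ x x' d d' h
  exact ⟨T1PSI_Psi d d', T1PSI_Lam x x', fun a => ⟨T1PSI_Psi_apply d d' a, T1PSI_Lam_apply x x' d d' h a⟩⟩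

end Pool.CX
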