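import Pool.Agent.Work.MP_bf99ce_cx.InterfaceT

/-! # THEOREM CX, block T1SPM: products in the groups `Sp` -/

set_option autoImplicit false

noncomputable section

open MvPolynomial

namespace Pool.CX

theorem T1SPM_mul {k K : Type} [Field k] [Field K] [Algebra k K] (x : Fin 5 → K) (D1 D2 : Derivation k K K) (i : Fin 5)
    (m m' : ℕ) : ∀ Φ ∈ CXT.Sp D1 D2 x i m, ∀ Φ' ∈ CXT.Sp D1 D2 x i m', Φ * Φ' ∈ CXT.Sp D1 D2 x i (m + m') := by
  intro Φ hΦ
  refine AddSubgroup.closure_induction (p := fun Φ _ => ∀ Φ' ∈ CXT.Sp D1 D2 x i m', Φ * Φ' ∈ CXT.Sp D1 D2 x i (m + m'))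
    ?_ ?_ ?_ ?_ hΦ
  · rintro _ ⟨c, a, hc, ha, rfl⟩ Φ' hΦ'
    refine AddSubgroup.closure_induction (p := fun Φ' _ => (C c * ∏ j, CXT.dif D1 D2 (a j)) * Φ' ∈ CXT.Sp D1 D2 x i (m + m'))
      ?_ ?_ ?_ ?_ hΦ'
    · rintro _ ⟨c', a', hc', ha', rfl⟩
      refine AddSubgroup.subset_closure ⟨c * c', Fin.append a a', Subalgebra.mul_mem _ hc hc', ?_, ?_⟩
      · intro j
        refine Fin.addCases (fun j => ?_) (fun j => ?_) j
        · rw [Fin.append_left]; exact ha j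
        · rw [Fin.append_right]; exact ha' j
      · rw [Fin.prod_univ_add]
        simp only [Fin.append_left, Fin.append_right]
        rw [map_mul]
        ring
    · rw [mul_zero]
      exact AddSubgroup.zero_mem _
    · intro u v _ _ hu hv
      rw [mul_add]
      exact AddSubgroup.add_mem _ hu hv
    · intro u _ hu
      rw [mul_neg]
      exact AddSubgroup.neg_mem _ hu
  · intro Φ' _
    rw [zero_mul]
    exact AddSubgroup.zero_mem _
  · intro u v _ _ hu hv Φ' hΦ'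
    rw [add_mul]
    exact AddSubgroup.add_mem _ (hu Φ' hΦ') (hv Φ' hΦ')
  · intro u _ hu Φ' hΦ'
    rw [neg_mul]
    exact AddSubgroup.neg_mem _ (hu Φ' hΦ')

/-- BLOCK T1SPM. -/
theorem p_T1SPM : Stmt_T1SPM := by
  intro k K _ _ _ x D1 D2 i
  have h3 : ∀ a ∈ CXT.ring1 k x i, (C a : MvPolynomial (Fin 2) K) ∈ CXT.Sp D1 D2 x i 0 := by
    intro a ha
    refine AddSubgroup.subset_closure ⟨a, fun _ => 0, ha, fun j => j.elim0, ?_⟩
    rw [Finset.univ_eq_empty, Finset.prod_empty, mul_one]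
  refine ⟨fun m m' => T1SPM_mul x D1 D2 i m m', ?_, h3, ?_⟩
  · intro m a ha Φ hΦ
    have h := T1SPM_mul x D1 D2 i 0 m _ (h3 a ha) Φ hΦ
    rw [Nat.zero_add] at h
    exact h
  · intro a ha
    refine AddSubgroup.subset_closure ⟨1, fun _ => a, Subalgebra.one_mem _, fun _ => ha, ?_⟩
    rw [Fin.prod_univ_one, map_one, one_mul]

end Pool.CX
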