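import Pool.Agent.Work.MP_bf99ce_cx.InterfaceT

/-! # THEOREM CX, block T1SWP: exchange of the factors -/

set_option autoImplicit false

noncomputable section

open MvPolynomial

namespace Pool.CX

theorem T1SWP_cyc {K : Type} [Field K] [Algebra ℂ K] (u v w : Derivation ℂ K K) (a : Fin 3 → K) :
    dt3 ![u, v, w] a = dt3 ![v, w, u] a := by
  unfold dt3
  rw [Matrix.det_fin_three, Matrix.det_fin_three]
  simp only [Matrix.of_apply, Matrix.cons_val_zero, Matrix.cons_val_one, Matrix.cons_val]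
  ring

theorem T1SWP_lf {K : Type} [Field K] [Algebra ℂ K] (d d' : Fin 2 → Derivation ℂ K K) (a : Fin 3 → K) :
    rename Sum.swap (lf3 d d' a) = lf3 d' d a := by
  unfold lf3
  rw [map_add, map_sum, map_sum, add_comm]
  congr 1
  · refine Finset.sum_congr rfl fun i _ => ?_
    rw [map_mul, rename_C, rename_X, Sum.swap_inr, T1SWP_cyc, T1SWP_cyc]
  · refine Finset.sum_congr rfl fun i _ => ?_
    rw [map_mul, rename_C, rename_X, Sum.swap_inl, T1SWP_cyc]

/-- BLOCK T1SWP. -/
theorem p_T1SWP : Stmt_T1SWP := by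
  intro K _ _ d d'
  refine ⟨T1SWP_lf d d', ?_⟩
  intro A m Φ hΦ
  refine AddSubmonoid.closure_induction (motive := fun Φ _ => rename Sum.swap Φ ∈ Gf d' d A m) ?_ ?_ ?_ hΦ
  · rintro _ ⟨c, a, hc, ha, rfl⟩
    refine AddSubmonoid.subset_closure ⟨c, a, hc, ha, ?_⟩
    rw [map_mul, rename_C, map_prod]
    congr 1
    exact Finset.prod_congr rfl fun j _ => T1SWP_lf d d' (a j)
  · rw [map_zero]
    exact AddSubmonoid.zero_mem _
  · intro Φ Φ' _ _ h h'
    rw [map_add]
    exact AddSubmonoid.add_mem _ h h'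

end Pool.CX
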