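import Pool.Agent.Work.MP_bf99ce_cx.InterfaceT

set_option autoImplicit false
set_option linter.unusedSimpArgs false

noncomputable section

open MvPolynomial

namespace Pool.CX

theorem T1TMI_tri : ∀ i j l : Fin 5, i < j → j < l → (i = 0 ∧ j = 1 ∧ l = 2) ∨ (i = 0 ∧ j = 1 ∧ l = 3) ∨
    (i = 0 ∧ j = 1 ∧ l = 4) ∨ (i = 0 ∧ j = 2 ∧ l = 3) ∨ (i = 0 ∧ j = 2 ∧ l = 4) ∨ (i = 0 ∧ j = 3 ∧ l = 4) ∨
    (i = 1 ∧ j = 2 ∧ l = 3) ∨ (i = 1 ∧ j = 2 ∧ l = 4) ∨ (i = 1 ∧ j = 3 ∧ l = 4) ∨ (i = 2 ∧ j = 3 ∧ l = 4) := by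
  decide

theorem T1TMI_two : ∀ p q : Fin 5, p < q → (p = 3 ∧ q = 4) ∨ (p = 2 ∧ q = 4) ∨ (p = 2 ∧ q = 3) ∨ (p = 1 ∧ q = 4) ∨
    (p = 1 ∧ q = 3) ∨ (p = 1 ∧ q = 2) ∨ (p = 0 ∧ q = 4) ∨ (p = 0 ∧ q = 3) ∨ (p = 0 ∧ q = 2) ∨ (p = 0 ∧ q = 1) := by
  decide

theorem T1TMI_pick {L : Type} [Field L] (F : Fin 5 → Fin 5 → Fin 5 → L) (hc : ∀ i j l, F i j l = F j l i)
    (M : L) (a b c : Fin 5) (s : ℤ) (hs : s = 1 ∨ s = -1) (h : F a b c = s * M) (i : Fin 5)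
    (hi : i = a ∨ i = b ∨ i = c) : ∃ (j l : Fin 5) (s : ℤ), M = s * F i j l := by
  have hM : M = s * F a b c := by
    rcases hs with rfl | rfl <;> rw [h] <;> push_cast <;> ring
  rcases hi with rfl | rfl | rfl
  · exact ⟨b, c, s, hM⟩
  · exact ⟨c, a, s, by rw [← hc]; exact hM⟩
  · exact ⟨a, b, s, by rw [hc]; exact hM⟩

/-- The combinatorial part. -/
theorem T1TMI_comb {L : Type} [Field L] (F : Fin 5 → Fin 5 → Fin 5 → L) (hc : ∀ i j l, F i j l = F j l i)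
    (ha : ∀ i j l, F i j l = - F j i l) (hz : ∀ i l, F i i l = 0) (M : Fin 5 → Fin 5 → L)
    (hM : ∀ p q, M p q = - M q p)
    (h012 : F 0 1 2 = M 3 4) (h013 : F 0 1 3 = - M 2 4) (h014 : F 0 1 4 = M 2 3)
    (h023 : F 0 2 3 = M 1 4) (h024 : F 0 2 4 = - M 1 3) (h034 : F 0 3 4 = M 1 2)
    (h123 : F 1 2 3 = - M 0 4) (h124 : F 1 2 4 = M 0 3) (h134 : F 1 3 4 = - M 0 2)
    (h234 : F 2 3 4 = M 0 1) :
    (∀ i j l, ∃ (p q : Fin 5) (s : ℤ), F i j l = s * M p q) ∧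
    ∀ i p q : Fin 5, p ≠ q → i ≠ p → i ≠ q → ∃ (j l : Fin 5) (s : ℤ), M p q = s * F i j l := by
  have key : ∀ i j l : Fin 5, i < j → j < l → ∃ (p q : Fin 5) (s : ℤ), F i j l = s * M p q := by
    intro i j l h1 h2
    rcases T1TMI_tri i j l h1 h2 with ⟨rfl, rfl, rfl⟩ | ⟨rfl, rfl, rfl⟩ | ⟨rfl, rfl, rfl⟩ | ⟨rfl, rfl, rfl⟩ |
      ⟨rfl, rfl, rfl⟩ | ⟨rfl, rfl, rfl⟩ | ⟨rfl, rfl, rfl⟩ | ⟨rfl, rfl, rfl⟩ | ⟨rfl, rfl, rfl⟩ | ⟨rfl, rfl, rfl⟩
    · exact ⟨3, 4, 1, by rw [h012]; push_cast; ring⟩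
    · exact ⟨2, 4, -1, by rw [h013]; push_cast; ring⟩
    · exact ⟨2, 3, 1, by rw [h014]; push_cast; ring⟩
    · exact ⟨1, 4, 1, by rw [h023]; push_cast; ring⟩
    · exact ⟨1, 3, -1, by rw [h024]; push_cast; ring⟩
    · exact ⟨1, 2, 1, by rw [h034]; push_cast; ring⟩
    · exact ⟨0, 4, -1, by rw [h123]; push_cast; ring⟩
    · exact ⟨0, 3, 1, by rw [h124]; push_cast; ring⟩
    · exact ⟨0, 2, -1, by rw [h134]; push_cast; ring⟩
    · exact ⟨0, 1, 1, by rw [h234]; push_cast; ring⟩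
  have sw : ∀ i j l : Fin 5, (∃ (p q : Fin 5) (s : ℤ), F i j l = s * M p q) →
      ∃ (p q : Fin 5) (s : ℤ), F j i l = s * M p q := by
    rintro i j l ⟨p, q, s, h⟩
    refine ⟨p, q, -s, ?_⟩
    rw [ha j i l, h]
    push_cast
    ring
  have cy : ∀ i j l : Fin 5, (∃ (p q : Fin 5) (s : ℤ), F i j l = s * M p q) →
      ∃ (p q : Fin 5) (s : ℤ), F j l i = s * M p q := by
    rintro i j l ⟨p, q, s, h⟩
    exact ⟨p, q, s, by rw [← hc i j l, h]⟩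
  have ze : ∀ i l : Fin 5, ∃ (p q : Fin 5) (s : ℤ), F i i l = s * M p q := by
    intro i l
    exact ⟨0, 0, 0, by rw [hz]; push_cast; ring⟩
  constructor
  · intro i j l
    rcases lt_trichotomy i j with h1 | h1 | h1
    · rcases lt_trichotomy j l with h2 | h2 | h2
      · exact key i j l h1 h2
      · subst h2
        exact cy _ _ _ (cy _ _ _ (ze j i))
      · rcases lt_trichotomy i l with h3 | h3 | h3
        · -- i < l < j
          exact cy _ _ _ (sw _ _ _ (key i l j h3 h2))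
        · subst h3
          exact cy _ _ _ (ze i j)
        · -- l < i < j
          exact cy _ _ _ (key l i j h3 h1)
    · subst h1
      exact ze i l
    · rcases lt_trichotomy i l with h2 | h2 | h2
      · -- j < i < l
        exact sw _ _ _ (key j i l h1 h2)
      · subst h2
        exact cy _ _ _ (ze i j)
      · rcases lt_trichotomy j l with h3 | h3 | h3
        · -- j < l < i
          exact cy _ _ _ (cy _ _ _ (key j l i h3 h2))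
        · subst h3
          exact cy _ _ _ (cy _ _ _ (ze j i))
        · -- l < j < i
          exact cy _ _ _ (cy _ _ _ (sw _ _ _ (key l j i h3 h1)))
  · have key2 : ∀ i p q : Fin 5, p < q → i ≠ p → i ≠ q → ∃ (j l : Fin 5) (s : ℤ), M p q = s * F i j l := by
      intro i p q h0 h1 h2
      rcases T1TMI_two p q h0 with ⟨rfl, rfl⟩ | ⟨rfl, rfl⟩ | ⟨rfl, rfl⟩ | ⟨rfl, rfl⟩ | ⟨rfl, rfl⟩ | ⟨rfl, rfl⟩ |
        ⟨rfl, rfl⟩ | ⟨rfl, rfl⟩ | ⟨rfl, rfl⟩ | ⟨rfl, rfl⟩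
      · exact T1TMI_pick F hc _ 0 1 2 1 (Or.inl rfl) (by rw [h012]; push_cast; ring) i
          ((by decide : ∀ i : Fin 5, i ≠ 3 → i ≠ 4 → i = 0 ∨ i = 1 ∨ i = 2) i h1 h2)
      · exact T1TMI_pick F hc _ 0 1 3 (-1) (Or.inr rfl) (by rw [h013]; push_cast; ring) i
          ((by decide : ∀ i : Fin 5, i ≠ 2 → i ≠ 4 → i = 0 ∨ i = 1 ∨ i = 3) i h1 h2)
      · exact T1TMI_pick F hc _ 0 1 4 1 (Or.inl rfl) (by rw [h014]; push_cast; ring) i
          ((by decide : ∀ i : Fin 5, i ≠ 2 → i ≠ 3 → i = 0 ∨ i = 1 ∨ i = 4) i h1 h2)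
      · exact T1TMI_pick F hc _ 0 2 3 1 (Or.inl rfl) (by rw [h023]; push_cast; ring) i
          ((by decide : ∀ i : Fin 5, i ≠ 1 → i ≠ 4 → i = 0 ∨ i = 2 ∨ i = 3) i h1 h2)
      · exact T1TMI_pick F hc _ 0 2 4 (-1) (Or.inr rfl) (by rw [h024]; push_cast; ring) i
          ((by decide : ∀ i : Fin 5, i ≠ 1 → i ≠ 3 → i = 0 ∨ i = 2 ∨ i = 4) i h1 h2)
      · exact T1TMI_pick F hc _ 0 3 4 1 (Or.inl rfl) (by rw [h034]; push_cast; ring) i
          ((by decide : ∀ i : Fin 5, i ≠ 1 → i ≠ 2 → i = 0 ∨ i = 3 ∨ i = 4) i h1 h2)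
      · exact T1TMI_pick F hc _ 1 2 3 (-1) (Or.inr rfl) (by rw [h123]; push_cast; ring) i
          ((by decide : ∀ i : Fin 5, i ≠ 0 → i ≠ 4 → i = 1 ∨ i = 2 ∨ i = 3) i h1 h2)
      · exact T1TMI_pick F hc _ 1 2 4 1 (Or.inl rfl) (by rw [h124]; push_cast; ring) i
          ((by decide : ∀ i : Fin 5, i ≠ 0 → i ≠ 3 → i = 1 ∨ i = 2 ∨ i = 4) i h1 h2)
      · exact T1TMI_pick F hc _ 1 3 4 (-1) (Or.inr rfl) (by rw [h134]; push_cast; ring) i
          ((by decide : ∀ i : Fin 5, i ≠ 0 → i ≠ 2 → i = 1 ∨ i = 3 ∨ i = 4) i h1 h2)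
      · exact T1TMI_pick F hc _ 2 3 4 1 (Or.inl rfl) (by rw [h234]; push_cast; ring) i
          ((by decide : ∀ i : Fin 5, i ≠ 0 → i ≠ 1 → i = 2 ∨ i = 3 ∨ i = 4) i h1 h2)
    intro i p q h0 h1 h2
    rcases lt_or_gt_of_ne h0 with h | h
    · exact key2 i p q h h1 h2
    · obtain ⟨j, l, s, hs⟩ := key2 i q p h h2 h1
      refine ⟨j, l, -s, ?_⟩
      rw [hM p q, hs]
      push_cast
      ring

/-- block T1TMI -/
theorem p_T1TMI : Stmt_T1TMI := by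
  intro k L _ _ _ _ ε x D1 D2 hS _
  obtain ⟨x0, -, ⟨hx3, hx4⟩, d11, d12, d21, d22⟩ := hS
  have n3 : D1 (3 : L) = 0 := by
    have h := D1.map_algebraMap (3 : k)
    rwa [map_ofNat] at h
  have m3 : D2 (3 : L) = 0 := by
    have h := D2.map_algebraMap (3 : k)
    rwa [map_ofNat] at h
  have z1 : D1 (x 0) = 0 := by rw [x0]; exact D1.map_one_eq_zero
  have z2 : D2 (x 0) = 0 := by rw [x0]; exact D2.map_one_eq_zero
  have h3 : x 3 ^ 3 = -3 + 3 * x 1 ^ 3 + x 2 ^ 3 + algebraMap k L ε * (x 1 * x 2) := by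
    rw [hx3, av, x0]
    ring
  have h4 : x 4 ^ 3 = -3 + x 1 ^ 3 + 3 * x 2 ^ 3 := by
    rw [hx4, bv, x0]
    ring
  have a3 : 3 * x 3 ^ 2 * D1 (x 3) = 9 * x 1 ^ 2 + algebraMap k L ε * x 2 := by
    have h := congrArg D1 h3
    simp only [map_add, map_neg, Derivation.leibniz, Derivation.leibniz_pow, smul_eq_mul, nsmul_eq_mul, n3,
      Derivation.map_algebraMap, d11, d12] at h
    push_cast at h
    linear_combination h
  have b3 : 3 * x 3 ^ 2 * D2 (x 3) = 3 * x 2 ^ 2 + algebraMap k L ε * x 1 := by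
    have h := congrArg D2 h3
    simp only [map_add, map_neg, Derivation.leibniz, Derivation.leibniz_pow, smul_eq_mul, nsmul_eq_mul, m3,
      Derivation.map_algebraMap, d21, d22] at h
    push_cast at h
    linear_combination h
  have a4 : 3 * x 4 ^ 2 * D1 (x 4) = 3 * x 1 ^ 2 := by
    have h := congrArg D1 h4
    simp only [map_add, map_neg, Derivation.leibniz, Derivation.leibniz_pow, smul_eq_mul, nsmul_eq_mul, n3,
      Derivation.map_algebraMap, d11, d12] at h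
    push_cast at h
    linear_combination h
  have b4 : 3 * x 4 ^ 2 * D2 (x 4) = 9 * x 2 ^ 2 := by
    have h := congrArg D2 h4
    simp only [map_add, map_neg, Derivation.leibniz, Derivation.leibniz_pow, smul_eq_mul, nsmul_eq_mul, m3,
      Derivation.map_algebraMap, d21, d22] at h
    push_cast at h
    linear_combination h
  have ja0 : ja (algebraMap k L ε) x 0 = -9 + algebraMap k L ε * (x 1 * x 2) := by
    change -9 * x 0 ^ 2 + algebraMap k L ε * (x 1 * x 2) = _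
    rw [x0]; ring
  have ja1 : ja (algebraMap k L ε) x 1 = 9 * x 1 ^ 2 + algebraMap k L ε * x 2 := by
    change 9 * x 1 ^ 2 + algebraMap k L ε * (x 0 * x 2) = _
    rw [x0]; ring
  have ja2 : ja (algebraMap k L ε) x 2 = 3 * x 2 ^ 2 + algebraMap k L ε * x 1 := by
    change 3 * x 2 ^ 2 + algebraMap k L ε * (x 0 * x 1) = _
    rw [x0]; ring
  have ja3 : ja (algebraMap k L ε) x 3 = -3 * x 3 ^ 2 := rfl
  have ja4 : ja (algebraMap k L ε) x 4 = 0 := rfl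
  have jb0 : jb x 0 = -9 := by
    change -9 * x 0 ^ 2 = _
    rw [x0]; ring
  have jb1 : jb x 1 = 3 * x 1 ^ 2 := rfl
  have jb2 : jb x 2 = 9 * x 2 ^ 2 := rfl
  have jb3 : jb x 3 = 0 := rfl
  have jb4 : jb x 4 = -3 * x 4 ^ 2 := rfl
  refine T1TMI_comb (fun i j l => 9 * (x 3 * x 4) ^ 2 *
    (x i * (D1 (x j) * D2 (x l) - D2 (x j) * D1 (x l)) + x j * (D1 (x l) * D2 (x i) - D2 (x l) * D1 (x i)) +
      x l * (D1 (x i) * D2 (x j) - D2 (x i) * D1 (x j)))) ?_ ?_ ?_ (mnr (algebraMap k L ε) x) ?_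
      ?_ ?_ ?_ ?_ ?_ ?_ ?_ ?_ ?_ ?_
  · intro i j l
    ring
  · intro i j l
    ring
  · intro i l
    ring
  · intro p q
    simp only [mnr]
    ring
  · simp only [mnr, ja0, ja1, ja2, ja3, ja4, jb0, jb1, jb2, jb3, jb4, x0, z1, z2, Derivation.map_one_eq_zero, d11, d12, d21, d22]
    ring
  · simp only [mnr, ja0, ja1, ja2, ja3, ja4, jb0, jb1, jb2, jb3, jb4, x0, z1, z2, Derivation.map_one_eq_zero, d11, d12, d21, d22]
    linear_combination (3 * x 4 ^ 2) * b3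
  · simp only [mnr, ja0, ja1, ja2, ja3, ja4, jb0, jb1, jb2, jb3, jb4, x0, z1, z2, Derivation.map_one_eq_zero, d11, d12, d21, d22]
    linear_combination (3 * x 3 ^ 2) * b4
  · simp only [mnr, ja0, ja1, ja2, ja3, ja4, jb0, jb1, jb2, jb3, jb4, x0, z1, z2, Derivation.map_one_eq_zero, d11, d12, d21, d22]
    linear_combination (-3 * x 4 ^ 2) * a3
  · simp only [mnr, ja0, ja1, ja2, ja3, ja4, jb0, jb1, jb2, jb3, jb4, x0, z1, z2, Derivation.map_one_eq_zero, d11, d12, d21, d22]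
    linear_combination (-3 * x 3 ^ 2) * a4
  · simp only [mnr, ja0, ja1, ja2, ja3, ja4, jb0, jb1, jb2, jb3, jb4, x0, z1, z2, Derivation.map_one_eq_zero, d11, d12, d21, d22]
    linear_combination (3 * x 4 ^ 2 * D2 (x 4)) * a3 + (9 * x 1 ^ 2 + algebraMap k L ε * x 2) * b4 -
      (3 * x 4 ^ 2 * D1 (x 4)) * b3 - (3 * x 2 ^ 2 + algebraMap k L ε * x 1) * a4
  · simp only [mnr, ja0, ja1, ja2, ja3, ja4, jb0, jb1, jb2, jb3, jb4, x0, z1, z2, Derivation.map_one_eq_zero, d11, d12, d21, d22]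
    linear_combination (-3 * x 4 ^ 2 * x 1) * a3 - (3 * x 4 ^ 2 * x 2) * b3 + 9 * x 4 ^ 2 * h3
  · simp only [mnr, ja0, ja1, ja2, ja3, ja4, jb0, jb1, jb2, jb3, jb4, x0, z1, z2, Derivation.map_one_eq_zero, d11, d12, d21, d22]
    linear_combination (-3 * x 3 ^ 2 * x 1) * a4 - (3 * x 3 ^ 2 * x 2) * b4 + 9 * x 3 ^ 2 * h4
  · simp only [mnr, ja0, ja1, ja2, ja3, ja4, jb0, jb1, jb2, jb3, jb4, x0, z1, z2, Derivation.map_one_eq_zero, d11, d12, d21, d22]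
    linear_combination x 1 * ((3 * x 4 ^ 2 * D2 (x 4)) * a3 + (9 * x 1 ^ 2 + algebraMap k L ε * x 2) * b4 -
      (3 * x 4 ^ 2 * D1 (x 4)) * b3 - (3 * x 2 ^ 2 + algebraMap k L ε * x 1) * a4) - 3 * x 3 ^ 3 * b4 -
      27 * x 2 ^ 2 * h3 + 3 * x 4 ^ 3 * b3 + 3 * (3 * x 2 ^ 2 + algebraMap k L ε * x 1) * h4
  · simp only [mnr, ja0, ja1, ja2, ja3, ja4, jb0, jb1, jb2, jb3, jb4, x0, z1, z2, Derivation.map_one_eq_zero, d11, d12, d21, d22]
    linear_combination x 2 * ((3 * x 4 ^ 2 * D2 (x 4)) * a3 + (9 * x 1 ^ 2 + algebraMap k L ε * x 2) * b4 -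
      (3 * x 4 ^ 2 * D1 (x 4)) * b3 - (3 * x 2 ^ 2 + algebraMap k L ε * x 1) * a4) + 3 * x 3 ^ 3 * a4 +
      9 * x 1 ^ 2 * h3 - 3 * x 4 ^ 3 * a3 - 3 * (9 * x 1 ^ 2 + algebraMap k L ε * x 2) * h4

end Pool.CX
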