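import Pool.Agent.Work.MP_bf99ce_cx.InterfaceT

/-! # Block T3FGE: the polynomial `f` gives regular forms -/

set_option autoImplicit false

noncomputable section

open MvPolynomial

namespace Pool.CX

/-- a monomial as a product of `m` factors -/
theorem T3FGE_idx (n : Fin 5 → ℕ) (m : ℕ) (h : ∑ l, n l = m) :
    ∃ a : Fin m → Fin 5, ∀ {M : Type} [CommMonoid M] (g : Fin 5 → M),
      ∏ l, g l ^ n l = ∏ j, g (a j) := by
  obtain ⟨ls, h1, h2⟩ : ∃ ls : List (Fin 5), ls.length = m ∧
      ∀ {M : Type} [CommMonoid M] (g : Fin 5 → M), (ls.map g).prod = ∏ l, g l ^ n l := by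
    refine ⟨List.replicate (n 0) 0 ++ (List.replicate (n 1) 1 ++ (List.replicate (n 2) 2 ++
      (List.replicate (n 3) 3 ++ List.replicate (n 4) 4))), ?_, fun g => ?_⟩
    · rw [← h]
      simp only [List.length_append, List.length_replicate, Fin.sum_univ_five]
      ring
    · simp only [List.map_append, List.map_replicate, List.prod_append, List.prod_replicate,
        Fin.prod_univ_five]
      simp only [mul_assoc]
  subst h1
  refine ⟨fun j => ls.get j, fun g => ?_⟩
  rw [← h2 g]
  exact (Fin.prod_univ_fun_getElem ls g).symm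

/-- the value as a sum over the support -/
theorem T3FGE_sum {k T : Type} [Field k] [CommRing T] [Algebra k T] (f : P10 k)
    (x y : Fin 5 → T) : aeval (Sum.elim x y) f = ∑ s ∈ f.support, algebraMap k T (coeff s f) *
      ((∏ l, x l ^ s (Sum.inl l)) * ∏ l, y l ^ s (Sum.inr l)) := by
  rw [aeval_def, eval₂_eq']
  refine Finset.sum_congr rfl fun s _ => ?_
  rw [Fintype.prod_sum_type]
  rfl

/-- homogeneity -/
theorem T3FGE_hom {k T : Type} [Field k] [CommRing T] [Algebra k T] {d m : ℕ} {f : P10 k}
    (hf : Bihom d m f) (c e : T) (x y : Fin 5 → T) :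
    aeval (Sum.elim (fun l => c * x l) (fun l => e * y l)) f =
      c ^ d * e ^ m * aeval (Sum.elim x y) f := by
  rw [T3FGE_sum, T3FGE_sum, Finset.mul_sum]
  refine Finset.sum_congr rfl fun s hs => ?_
  obtain ⟨h1, h2⟩ := hf s hs
  simp only [mul_pow, Finset.prod_mul_distrib, Finset.prod_pow_eq_pow_sum, h1, h2]
  ring

/-- the chain rule -/
theorem T3FGE_chain {k T : Type} [Field k] [CommRing T] [Algebra k T] (D : Derivation k T T)
    (g : Fin 5 ⊕ Fin 5 → T) (f : P10 k) :
    D (aeval g f) = ∑ j, aeval g (pderiv j f) * D (g j) := by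
  induction f using MvPolynomial.induction_on with
  | C a => simp
  | add p q hp hq => simp only [map_add, hp, hq, add_mul, Finset.sum_add_distrib]
  | mul_X p n hp =>
    rw [map_mul, aeval_X, Derivation.leibniz, hp]
    simp only [smul_eq_mul, Derivation.leibniz, pderiv_X, map_add, map_mul, aeval_X, add_mul,
      Finset.sum_add_distrib, Finset.mul_sum]
    have h1 : ∑ j, aeval g (p * Pi.single (M := fun _ => P10 k) j 1 n) * D (g j) =
        aeval g p * D (g n) := by
      rw [Finset.sum_eq_single n]
      · simp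
      · intro b _ hb
        simp [Pi.single_eq_of_ne' hb]
      · simp
    simp only [map_mul] at h1
    rw [h1]
    refine congrArg (_ + ·) (Finset.sum_congr rfl fun j _ => ?_)
    ring

theorem T3FGE_onX {S T : Type} [CommRing S] [CommRing T] (φ : S →+* T) {ε : S} {x : Fin 5 → S}
    (h : OnX ε x) : OnX (φ ε) (fun l => φ (x l)) := by
  obtain ⟨h1, h2⟩ := h
  constructor
  · have := congrArg φ h1
    simpa [av, map_ofNat] using this
  · have := congrArg φ h2
    simpa [bv, map_ofNat] using this

theorem T3FGE_onX_div {L : Type} [Field L] {ε : L} {x : Fin 5 → L} (h : OnX ε x) (c : L)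
    (hc : c ≠ 0) : OnX ε (fun l => x l / c) := by
  obtain ⟨h1, h2⟩ := h
  unfold av at h1
  unfold bv at h2
  constructor
  · unfold av
    simp only [div_pow]
    field_simp
    linear_combination h1
  · unfold bv
    simp only [div_pow]
    field_simp
    linear_combination h2

theorem T3FGE_tan {k L : Type} [Field k] [Field L] [Algebra k L] {ε : k} {y : Fin 5 → L}
    (D : Derivation k L L) (h : OnX (algebraMap k L ε) y) :
    TanX (algebraMap k L ε) y (fun l => D (y l)) := by
  obtain ⟨h1, h2⟩ := h
  have n3 : D (3 : L) = 0 := by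
    have := D.map_natCast 3
    simpa using this
  have e1 := congrArg D h1
  have e2 := congrArg D h2
  constructor
  · unfold av at e1
    simp only [map_add, map_neg, Derivation.leibniz, Derivation.leibniz_pow, D.map_algebraMap,
      smul_eq_mul, nsmul_eq_mul, n3, Nat.cast_ofNat, mul_zero, add_zero, neg_zero] at e1
    unfold dav
    linear_combination e1
  · unfold bv at e2
    simp only [map_add, map_neg, Derivation.leibniz, Derivation.leibniz_pow,
      smul_eq_mul, nsmul_eq_mul, n3, Nat.cast_ofNat, mul_zero, add_zero, neg_zero] at e2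
    unfold dbv
    linear_combination e2

theorem T3FGE_tan_map {S T : Type} [CommRing S] [CommRing T] (φ : S →+* T) {ε : S}
    {x y : Fin 5 → S} (h : TanX ε x y) : TanX (φ ε) (fun l => φ (x l)) (fun l => φ (y l)) := by
  obtain ⟨h1, h2⟩ := h
  constructor
  · have := congrArg φ h1
    simpa [dav, map_ofNat] using this
  · have := congrArg φ h2
    simpa [dbv, map_ofNat] using this

theorem T3FGE_tan_add {S : Type} [CommRing S] {ε : S} {x y z : Fin 5 → S} (c e : S)
    (h : TanX ε x y) (h' : TanX ε x z) : TanX ε x (fun l => c * y l + e * z l) := by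
  obtain ⟨h1, h2⟩ := h
  obtain ⟨h3, h4⟩ := h'
  unfold dav at h1 h3
  unfold dbv at h2 h4
  constructor
  · unfold dav
    linear_combination c * h1 + e * h3
  · unfold dbv
    linear_combination c * h2 + e * h4

theorem T3FGE_tan_self {S : Type} [CommRing S] {ε : S} {x : Fin 5 → S}
    (h : OnX ε x) : TanX ε x x := by
  obtain ⟨h1, h2⟩ := h
  unfold av at h1
  unfold bv at h2
  constructor
  · unfold dav
    linear_combination 3 * h1
  · unfold dbv
    linear_combination 3 * h2

/-- the value does not change when the vector moves in the direction of the point -/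
theorem T3FGE_move {k S : Type} [Field k] [CharZero k] [CommRing S] [IsDomain S] [Algebra k S]
    {ε : k} {f : P10 k} (hf : Kil ε f) (x y : Fin 5 → S) (h3 : x 3 ≠ 0) (h4 : x 4 ≠ 0)
    (hx : OnX (algebraMap k S ε) x) (hy : TanX (algebraMap k S ε) x y) (e : S) :
    aeval (Sum.elim x (fun l => y l + e * x l)) f = aeval (Sum.elim x y) f := by
  have : CharZero S := charZero_of_injective_algebraMap (algebraMap k S).injective
  let cx : Fin 5 → Polynomial S := fun l => Polynomial.C (x l)
  let cy : Fin 5 → Polynomial S := fun l => Polynomial.C (y l)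
  have hcx : OnX (algebraMap k (Polynomial S) ε) cx := T3FGE_onX Polynomial.C hx
  have hcy : TanX (algebraMap k (Polynomial S) ε) cx cy := T3FGE_tan_map Polynomial.C hy
  let g : Fin 5 ⊕ Fin 5 → Polynomial S := Sum.elim cx (fun l => 1 * cy l + Polynomial.X * cx l)
  have hk := hf (Polynomial S) cx (fun l => 1 * cy l + Polynomial.X * cx l)
    (by simpa [cx] using h3) (by simpa [cx] using h4) hcx
    (T3FGE_tan_add 1 Polynomial.X hcy (T3FGE_tan_self hcx))
  let D : Derivation k (Polynomial S) (Polynomial S) :=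
    Derivation.restrictScalars k (Polynomial.derivative' (R := S))
  have hD : ∀ q, D q = Polynomial.derivative q := fun q => rfl
  have hq : Polynomial.derivative (aeval g f) = 0 := by
    rw [← hD, T3FGE_chain, Fintype.sum_sum_type]
    have e1 : ∀ l, D (g (Sum.inl l)) = 0 := fun l => by
      rw [hD]
      exact Polynomial.derivative_C
    have e2 : ∀ l, D (g (Sum.inr l)) = cx l := fun l => by
      rw [hD]
      show Polynomial.derivative (1 * Polynomial.C (y l) + Polynomial.X * Polynomial.C (x l)) = _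
      simp [cx]
    simp only [e1, e2, mul_zero, Finset.sum_const_zero, zero_add]
    rw [← hk]
    exact Finset.sum_congr rfl fun l _ => mul_comm _ _
  obtain ⟨c, hc⟩ : ∃ c : S, Polynomial.C c = aeval g f :=
    ⟨_, (Polynomial.eq_C_of_derivative_eq_zero hq).symm⟩
  have hev : ∀ s : S, aeval (Sum.elim x (fun l => y l + s * x l)) f = c := by
    intro s
    have h5 : Polynomial.eval s (aeval g f) = c := by
      rw [← hc, Polynomial.eval_C]
    rw [← h5]
    have h6 : (Polynomial.aeval s : Polynomial S →ₐ[S] S).restrictScalars k (aeval g f) =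
      Polynomial.eval s (aeval g f) := by
      simp
    rw [← h6, ← AlgHom.comp_apply, MvPolynomial.comp_aeval]
    congr 2
    funext l
    rcases l with l | l
    · simp [g, cx]
    · simp [g, cx, cy]
      ring
  rw [hev e, ← hev 0]
  congr 2
  funext l
  rcases l with l | l
  · rfl
  · simp

theorem T3FGE_mul {k L : Type} [Field k] [Field L] [Algebra k L] (D1 D2 : Derivation k L L)
    (a b : L) : CXT.dif D1 D2 (a * b) = C a * CXT.dif D1 D2 b + C b * CXT.dif D1 D2 a := by
  unfold CXT.dif
  simp only [Derivation.leibniz, smul_eq_mul, C_add, C_mul]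
  ring

theorem p_T3FGE : Stmt_T3FGE := by
  intro k L _ _ _ _ ε x D1 D2 hS hne m f hf hK i
  obtain ⟨y, hy⟩ : ∃ y : Fin 5 → L, y = fun l => x l / x i := ⟨_, rfl⟩
  have hyl : ∀ l, x l = x i * y l := fun l => by
    rw [hy]
    field_simp [hne i]
  have hyr : ∀ l, y l ∈ CXT.ring1 k x i := fun l => by
    rw [hy]
    exact Algebra.subset_adjoin ⟨l, rfl⟩
  obtain ⟨v, hv⟩ : ∃ v : Fin 5 → MvPolynomial (Fin 2) L, v = fun l => CXT.dif D1 D2 (y l) :=
    ⟨_, rfl⟩
  obtain ⟨Y, hY⟩ : ∃ Y : Fin 5 → MvPolynomial (Fin 2) L, Y = fun l => C (y l) := ⟨_, rfl⟩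
  have hxi := hne i
  have hon : OnX (algebraMap k L ε) y := by
    rw [hy]
    exact T3FGE_onX_div hS.onX (x i) hxi
  have honY : OnX (algebraMap k (MvPolynomial (Fin 2) L) ε) Y := by
    rw [hY]
    exact T3FGE_onX (C : L →+* MvPolynomial (Fin 2) L) hon
  have htan : TanX (algebraMap k (MvPolynomial (Fin 2) L) ε) Y v := by
    have t1 := T3FGE_tan_map (C : L →+* MvPolynomial (Fin 2) L) (T3FGE_tan D1 hon)
    have t2 := T3FGE_tan_map (C : L →+* MvPolynomial (Fin 2) L) (T3FGE_tan D2 hon)
    have t3 := T3FGE_tan_add (X 0) (X 1) t1 t2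
    have e : v = fun l => X 0 * C (D1 (y l)) + X 1 * C (D2 (y l)) := by
      rw [hv]
      funext l
      unfold CXT.dif
      ring
    rw [e, hY]
    exact t3
  have hY3 : ∀ l, Y l ≠ 0 := by
    intro l h
    rw [hY] at h
    have h1 : y l = 0 := by simpa using h
    rw [hy] at h1
    exact div_ne_zero (hne l) hxi h1
  have key : gf x D1 D2 f = C (x i) ^ (7 + m) * aeval (Sum.elim Y v) f := by
    unfold gf
    have e1 : (Sum.elim (fun l => C (x l)) (fun l => CXT.dif D1 D2 (x l)) :
        Fin 5 ⊕ Fin 5 → MvPolynomial (Fin 2) L) =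
        Sum.elim (fun l => C (x i) * Y l)
          (fun l => 1 * (C (x i) * v l + CXT.dif D1 D2 (x i) * Y l)) := by
      funext l
      rcases l with l | l
      · simp only [Sum.elim_inl]
        rw [hyl l, hY, C_mul]
      · simp only [Sum.elim_inr]
        rw [hyl l, T3FGE_mul, hY, hv]
        ring
    have e2 : (Sum.elim Y (fun l => C (x i) * v l) : Fin 5 ⊕ Fin 5 → MvPolynomial (Fin 2) L) =
        Sum.elim (fun l => 1 * Y l) (fun l => C (x i) * v l) := by
      simp
    rw [e1, T3FGE_hom hf, T3FGE_move hK Y (fun l => C (x i) * v l) (hY3 3) (hY3 4) honY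
      (by simpa using T3FGE_tan_add (C (x i)) 0 htan htan) (CXT.dif D1 D2 (x i)), e2, T3FGE_hom hf,
      pow_add]
    ring
  have hC : C ((x i)⁻¹ ^ (7 + m)) * gf x D1 D2 f = aeval (Sum.elim Y v) f := by
    rw [key, ← mul_assoc, ← C_pow, ← C_mul, ← mul_pow, inv_mul_cancel₀ hxi, one_pow, C_1, one_mul]
  rw [hC, T3FGE_sum]
  refine AddSubgroup.sum_mem _ fun s hs => ?_
  obtain ⟨a, ha⟩ := T3FGE_idx (fun l => s (Sum.inr l)) m (hf s hs).2
  refine AddSubgroup.subset_closure ⟨algebraMap k L (coeff s f) * ∏ l, y l ^ s (Sum.inl l),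
    fun j => y (a j), ?_, fun j => hyr _, ?_⟩
  · exact mul_mem (Subalgebra.algebraMap_mem _ _)
      (prod_mem fun l _ => pow_mem (hyr l) _)
  · have h1 := ha v
    rw [h1, hY, hv]
    simp only [C_mul, map_prod, C_pow]
    rw [mul_assoc]
    rfl

end Pool.CX
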