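import Pool.Agent.Work.MP_bf99ce_cx.InterfaceT

/-! # THEOREM CX, block T3GNZ: the form of the polynomial `f` is not zero -/

set_option autoImplicit false

noncomputable section

open MvPolynomial

namespace Pool.CX

/-- the chain rule -/
theorem T3GNZ_chain {k L : Type} [Field k] [Field L] [Algebra k L] (x y : Fin 5 → L) (f : P10 k) :
    Polynomial.derivative (aeval (Sum.elim (fun i => Polynomial.C (x i)) (fun i => Polynomial.C (y i) + Polynomial.X * Polynomial.C (x i))) f) =
      ∑ i, Polynomial.C (x i) * aeval (Sum.elim (fun i => Polynomial.C (x i))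
        (fun i => Polynomial.C (y i) + Polynomial.X * Polynomial.C (x i))) (pderiv (Sum.inr i) f) := by
  induction f using MvPolynomial.induction_on with
  | C a =>
    have h1 : aeval (Sum.elim (fun i => Polynomial.C (x i)) (fun i => Polynomial.C (y i) + Polynomial.X * Polynomial.C (x i)))
        (C a : P10 k) = Polynomial.C (algebraMap k L a) := by
      rw [aeval_C]; rfl
    rw [h1, Polynomial.derivative_C]
    symm
    refine Finset.sum_eq_zero fun i _ => ?_
    rw [pderiv_C, map_zero, mul_zero]
  | add p q hp hq =>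
    rw [map_add, Polynomial.derivative_add, hp, hq, ← Finset.sum_add_distrib]
    refine Finset.sum_congr rfl fun i _ => ?_
    rw [map_add, map_add, mul_add]
  | mul_X p j hp =>
    have h1 : Polynomial.derivative (aeval (Sum.elim (fun i => Polynomial.C (x i)) (fun i => Polynomial.C (y i) + Polynomial.X * Polynomial.C (x i)))
        (X j : P10 k)) = ∑ i, Polynomial.C (x i) * aeval (Sum.elim (fun i => Polynomial.C (x i))
        (fun i => Polynomial.C (y i) + Polynomial.X * Polynomial.C (x i))) (pderiv (Sum.inr i) (X j : P10 k)) := by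
      rw [aeval_X]
      rcases j with j | j
      · rw [Sum.elim_inl, Polynomial.derivative_C]
        symm
        refine Finset.sum_eq_zero fun i _ => ?_
        rw [pderiv_X_of_ne (by simp), map_zero, mul_zero]
      · rw [Sum.elim_inr, Finset.sum_eq_single j]
        · rw [pderiv_X_self, map_one, mul_one]
          simp
        · intro b _ hb
          rw [pderiv_X_of_ne (by simpa using hb.symm), map_zero, mul_zero]
        · intro h
          exact absurd (Finset.mem_univ j) h
    rw [map_mul, Polynomial.derivative_mul, hp, h1, Finset.sum_mul, Finset.mul_sum, ← Finset.sum_add_distrib]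
    refine Finset.sum_congr rfl fun i _ => ?_
    rw [Derivation.leibniz, smul_eq_mul, smul_eq_mul, map_add, map_mul, map_mul]
    ring

theorem T3GNZ_eval {k L : Type} [Field k] [Field L] [Algebra k L] (x y : Fin 5 → L) (t : L) (f : P10 k) :
    Polynomial.eval t (aeval (Sum.elim (fun i => Polynomial.C (x i)) (fun i => Polynomial.C (y i) + Polynomial.X * Polynomial.C (x i))) f) =
      aeval (Sum.elim x (fun i => y i + t * x i)) f := by
  induction f using MvPolynomial.induction_on with
  | C a =>
    have h1 : aeval (Sum.elim (fun i => Polynomial.C (x i)) (fun i => Polynomial.C (y i) + Polynomial.X * Polynomial.C (x i)))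
        (C a : P10 k) = Polynomial.C (algebraMap k L a) := by
      rw [aeval_C]; rfl
    rw [h1, Polynomial.eval_C, aeval_C]
  | add p q hp hq =>
    rw [map_add, Polynomial.eval_add, hp, hq, map_add]
  | mul_X p j hp =>
    rw [map_mul, Polynomial.eval_mul, hp, map_mul, aeval_X, aeval_X]
    rcases j with j | j
    · rw [Sum.elim_inl, Sum.elim_inl, Polynomial.eval_C]
    · rw [Sum.elim_inr, Sum.elim_inr, Polynomial.eval_add, Polynomial.eval_mul, Polynomial.eval_C, Polynomial.eval_C, Polynomial.eval_X]

theorem T3GNZ_tan {S : Type} [CommRing S] (ε : S) (x y : Fin 5 → S) (t : S) (h1 : OnX ε x) (h2 : TanX ε x y) :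
    TanX ε x (fun i => y i + t * x i) := by
  obtain ⟨a1, a2⟩ := h1
  obtain ⟨b1, b2⟩ := h2
  unfold av at a1
  unfold bv at a2
  unfold dav at b1
  unfold dbv at b2
  constructor
  · show 3 * x 3 ^ 2 * (y 3 + t * x 3) = _
    unfold dav
    linear_combination b1 + 3 * t * a1
  · show 3 * x 4 ^ 2 * (y 4 + t * x 4) = _
    unfold dbv
    linear_combination b2 + 3 * t * a2

/-- BLOCK T3GNZ. -/
theorem p_T3GNZ : Stmt_T3GNZ := by
  intro k L _ _ _ _ ε x D1 D2 hS hx m f hB hK hN h0
  haveI : CharZero L := charZero_of_injective_algebraMap (algebraMap k L).injective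
  obtain ⟨y, hy, hf⟩ := hN L x hS.x0 hS.ind hS.onX
  have honC : OnX (algebraMap k (Polynomial L) ε) (fun i => Polynomial.C (x i)) := by
    obtain ⟨a1, a2⟩ := hS.onX
    constructor
    · show Polynomial.C (x 3) ^ 3 = _
      rw [← map_pow, a1]
      show Polynomial.C (av (algebraMap k L ε) x) = av (Polynomial.C (algebraMap k L ε)) (fun i => Polynomial.C (x i))
      unfold av
      simp only [map_add, map_mul, map_pow, map_neg, map_ofNat]
    · show Polynomial.C (x 4) ^ 3 = _
      rw [← map_pow, a2]
      unfold bv
      simp only [map_add, map_mul, map_pow, map_neg, map_ofNat]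
  have htC : TanX (algebraMap k (Polynomial L) ε) (fun i => Polynomial.C (x i)) (fun i => Polynomial.C (y i)) := by
    obtain ⟨a1, a2⟩ := hy
    constructor
    · show 3 * Polynomial.C (x 3) ^ 2 * Polynomial.C (y 3) = dav (Polynomial.C (algebraMap k L ε)) (fun i => Polynomial.C (x i)) (fun i => Polynomial.C (y i))
      have h := congrArg (Polynomial.C : L →+* Polynomial L) a1
      unfold dav at h ⊢
      simp only [map_add, map_mul, map_pow, map_neg, map_ofNat] at h
      exact h
    · show 3 * Polynomial.C (x 4) ^ 2 * Polynomial.C (y 4) = dbv (fun i => Polynomial.C (x i)) (fun i => Polynomial.C (y i))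
      have h := congrArg (Polynomial.C : L →+* Polynomial L) a2
      unfold dbv at h ⊢
      simp only [map_add, map_mul, map_pow, map_neg, map_ofNat] at h
      exact h
  have htX := T3GNZ_tan _ _ _ Polynomial.X honC htC
  have hd := hK (Polynomial L) (fun i => Polynomial.C (x i)) _ (Polynomial.C_ne_zero.2 (hx 3)) (Polynomial.C_ne_zero.2 (hx 4)) honC htX
  have hd2 := (T3GNZ_chain x y f).trans hd
  have hdeg := Polynomial.derivative_eq_zero.1 hd2
  obtain ⟨c, hc⟩ := Polynomial.natDegree_eq_zero.1 hdeg
  have he0 := T3GNZ_eval x y 0 f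
  have he1 := T3GNZ_eval x y (-y 0) f
  rw [← hc, Polynomial.eval_C] at he0 he1
  have hy0 : (fun i => y i + 0 * x i) = y := by
    funext i
    rw [zero_mul, add_zero]
  rw [hy0] at he0
  set z : Fin 5 → L := fun i => y i + (-y 0) * x i with hz
  have hzt : TanX (algebraMap k L ε) x z := T3GNZ_tan _ _ _ _ hS.onX hy
  have hfz : aeval (Sum.elim x z) f ≠ 0 := by
    rw [← he1, he0]
    exact hf
  have hz0 : z 0 = 0 := by
    show y 0 + (-y 0) * x 0 = 0
    rw [hS.x0]; ring
  -- the derivatives of the equations
  have d10 : D1 (x 0) = 0 := by rw [hS.x0]; exact Derivation.map_one_eq_zero D1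
  have d20 : D2 (x 0) = 0 := by rw [hS.x0]; exact Derivation.map_one_eq_zero D2
  have hD3 : ∀ D : Derivation k L L, 3 * x 3 ^ 2 * D (x 3) = dav (algebraMap k L ε) x (fun l => D (x l)) := by
    intro D
    have h := congrArg D hS.onX.1
    unfold av at h
    unfold dav
    have hn3 : D (3 : L) = 0 := by
      have := Derivation.map_natCast D 3
      simpa using this
    simp only [map_add, Derivation.leibniz, Derivation.leibniz_pow, Derivation.map_algebraMap, map_neg, hn3, smul_eq_mul, nsmul_eq_mul] at h
    push_cast at h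
    linear_combination h
  have hD4 : ∀ D : Derivation k L L, 3 * x 4 ^ 2 * D (x 4) = dbv x (fun l => D (x l)) := by
    intro D
    have h := congrArg D hS.onX.2
    unfold bv at h
    unfold dbv
    have hn3 : D (3 : L) = 0 := by
      have := Derivation.map_natCast D 3
      simpa using this
    simp only [map_add, Derivation.leibniz, Derivation.leibniz_pow, map_neg, hn3, smul_eq_mul, nsmul_eq_mul] at h
    push_cast at h
    linear_combination h
  have hzl : ∀ l, z l = D1 (x l) * z 1 + D2 (x l) * z 2 := by
    intro l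
    fin_cases l
    · show z 0 = D1 (x 0) * z 1 + D2 (x 0) * z 2
      rw [hz0, d10, d20]; ring
    · show z 1 = D1 (x 1) * z 1 + D2 (x 1) * z 2
      rw [hS.d11, hS.d21]; ring
    · show z 2 = D1 (x 2) * z 1 + D2 (x 2) * z 2
      rw [hS.d12, hS.d22]; ring
    · show z 3 = D1 (x 3) * z 1 + D2 (x 3) * z 2
      have a1 := hzt.1
      have a2 := hD3 D1
      have a3 := hD3 D2
      unfold dav at a1 a2 a3
      beta_reduce at a2 a3
      rw [hz0] at a1
      rw [d10, hS.d11, hS.d12] at a2
      rw [d20, hS.d21, hS.d22] at a3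
      have h3 : (3 * x 3 ^ 2 : L) ≠ 0 := mul_ne_zero three_ne_zero (pow_ne_zero 2 (hx 3))
      apply mul_left_cancel₀ h3
      linear_combination a1 - z 1 * a2 - z 2 * a3
    · show z 4 = D1 (x 4) * z 1 + D2 (x 4) * z 2
      have a1 := hzt.2
      have a2 := hD4 D1
      have a3 := hD4 D2
      unfold dbv at a1 a2 a3
      beta_reduce at a2 a3
      rw [hz0] at a1
      rw [d10, hS.d11, hS.d12] at a2
      rw [d20, hS.d21, hS.d22] at a3
      have h3 : (3 * x 4 ^ 2 : L) ≠ 0 := mul_ne_zero three_ne_zero (pow_ne_zero 2 (hx 4))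
      apply mul_left_cancel₀ h3
      linear_combination a1 - z 1 * a2 - z 2 * a3
  -- the value of the form
  have hev : aeval (![z 1, z 2] : Fin 2 → L) (gf x D1 D2 f) = aeval (Sum.elim x z) f := by
    unfold gf
    have h := MvPolynomial.comp_aeval_apply (Sum.elim (fun l => (C (x l) : MvPolynomial (Fin 2) L)) (fun l => CXT.dif D1 D2 (x l)))
      ((aeval (![z 1, z 2] : Fin 2 → L)).restrictScalars k) f
    refine h.trans ?_
    congr 2
    funext j
    rcases j with j | j
    · show aeval (![z 1, z 2] : Fin 2 → L) (C (x j)) = x j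
      rw [aeval_C]; rfl
    · show aeval (![z 1, z 2] : Fin 2 → L) (CXT.dif D1 D2 (x j)) = z j
      unfold CXT.dif
      rw [map_add, map_mul, map_mul, aeval_C, aeval_C, aeval_X, aeval_X, hzl j]
      rfl
  rw [h0, map_zero] at hev
  exact hfz hev.symm

end Pool.CX
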