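import Pool.Agent.Work.MP_bf99ce_cx.InterfaceT

set_option autoImplicit false

noncomputable section

open MvPolynomial

namespace Pool.CX

/-- the finite sums of multiples of products of two differentials of elements of `A` -/
def T3KAP_Pr {K : Type} [Field K] [Algebra ℂ K] (A : Subalgebra ℂ K) (w : ExteriorAlgebra K (Ω[K⁄ℂ])) : Prop :=
  ∃ (n : ℕ) (g a b : Fin n → K), (∀ s, g s ∈ A ∧ a s ∈ A ∧ b s ∈ A) ∧
    w = ∑ s, g s • (ExteriorAlgebra.ι K (KaehlerDifferential.D ℂ K (a s)) * ExteriorAlgebra.ι K (KaehlerDifferential.D ℂ K (b s)))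

theorem T3KAP_zero {K : Type} [Field K] [Algebra ℂ K] (A : Subalgebra ℂ K) : T3KAP_Pr A 0 :=
  ⟨0, Fin.elim0, Fin.elim0, Fin.elim0, fun s => s.elim0, by simp⟩

theorem T3KAP_add {K : Type} [Field K] [Algebra ℂ K] (A : Subalgebra ℂ K) {w w' : ExteriorAlgebra K (Ω[K⁄ℂ])}
    (h : T3KAP_Pr A w) (h' : T3KAP_Pr A w') : T3KAP_Pr A (w + w') := by
  obtain ⟨n, g, a, b, h1, rfl⟩ := h
  obtain ⟨n', g', a', b', h1', rfl⟩ := h'
  refine ⟨n + n', Fin.append g g', Fin.append a a', Fin.append b b', ?_, ?_⟩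
  · intro s
    refine Fin.addCases (fun j => ?_) (fun j => ?_) s
    · simpa only [Fin.append_left] using h1 j
    · simpa only [Fin.append_right] using h1' j
  · rw [Fin.sum_univ_add]
    simp only [Fin.append_left, Fin.append_right]

theorem T3KAP_smul {K : Type} [Field K] [Algebra ℂ K] (A : Subalgebra ℂ K) {w : ExteriorAlgebra K (Ω[K⁄ℂ])} {c : K}
    (hc : c ∈ A) (h : T3KAP_Pr A w) : T3KAP_Pr A (c • w) := by
  obtain ⟨n, g, a, b, h1, rfl⟩ := h
  refine ⟨n, fun s => c * g s, a, b, fun s => ⟨A.mul_mem hc (h1 s).1, (h1 s).2⟩, ?_⟩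
  rw [Finset.smul_sum]
  exact Finset.sum_congr rfl fun s _ => by rw [smul_smul]

theorem T3KAP_sum {K : Type} [Field K] [Algebra ℂ K] (A : Subalgebra ℂ K) {ι : Type} (s : Finset ι)
    (f : ι → ExteriorAlgebra K (Ω[K⁄ℂ])) (h : ∀ i ∈ s, T3KAP_Pr A (f i)) : T3KAP_Pr A (∑ i ∈ s, f i) := by
  classical
  induction s using Finset.induction_on with
  | empty => rw [Finset.sum_empty]; exact T3KAP_zero A
  | insert i s hi ih =>
    rw [Finset.sum_insert hi]
    exact T3KAP_add A (h i (Finset.mem_insert_self i s)) (ih fun j hj => h j (Finset.mem_insert_of_mem hj))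

theorem T3KAP_mul {K : Type} [Field K] [Algebra ℂ K] (A : Subalgebra ℂ K) {a b : K} (ha : a ∈ A) (hb : b ∈ A) :
    T3KAP_Pr A (ExteriorAlgebra.ι K (KaehlerDifferential.D ℂ K a) * ExteriorAlgebra.ι K (KaehlerDifferential.D ℂ K b)) :=
  ⟨1, fun _ => 1, fun _ => a, fun _ => b, fun _ => ⟨A.one_mem, ha, hb⟩, by simp⟩

theorem T3KAP_wedge {K : Type} [Field K] [Algebra ℂ K] {x x' : Fin 5 → K} {d d' : Fin 2 → Derivation ℂ K K}
    (H : Ders x x' d d') (u v : K) (hu : ∀ j, d' j u = 0) (hv : ∀ j, d' j v = 0) :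
    ExteriorAlgebra.ι K (KaehlerDifferential.D ℂ K u) * ExteriorAlgebra.ι K (KaehlerDifferential.D ℂ K v) =
      (d 0 u * d 1 v - d 1 u * d 0 v) •
        (ExteriorAlgebra.ι K (KaehlerDifferential.D ℂ K (x 1)) * ExteriorAlgebra.ι K (KaehlerDifferential.D ℂ K (x 2))) := by
  have e1 : KaehlerDifferential.D ℂ K u = d 0 u • KaehlerDifferential.D ℂ K (x 1) + d 1 u • KaehlerDifferential.D ℂ K (x 2) := by
    conv_lhs => rw [H.gen u]
    rw [hu 0, hu 1, zero_smul, zero_smul, add_zero, add_zero]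
  have e2 : KaehlerDifferential.D ℂ K v = d 0 v • KaehlerDifferential.D ℂ K (x 1) + d 1 v • KaehlerDifferential.D ℂ K (x 2) := by
    conv_lhs => rw [H.gen v]
    rw [hv 0, hv 1, zero_smul, zero_smul, add_zero, add_zero]
  have s1 := ExteriorAlgebra.ι_sq_zero (R := K) (KaehlerDifferential.D ℂ K (x 1))
  have s2 := ExteriorAlgebra.ι_sq_zero (R := K) (KaehlerDifferential.D ℂ K (x 2))
  have s3 : ExteriorAlgebra.ι K (KaehlerDifferential.D ℂ K (x 2)) * ExteriorAlgebra.ι K (KaehlerDifferential.D ℂ K (x 1)) =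
      -(ExteriorAlgebra.ι K (KaehlerDifferential.D ℂ K (x 1)) * ExteriorAlgebra.ι K (KaehlerDifferential.D ℂ K (x 2))) :=
    eq_neg_of_add_eq_zero_left (ExteriorAlgebra.ι_add_mul_swap (R := K) (KaehlerDifferential.D ℂ K (x 2)) (KaehlerDifferential.D ℂ K (x 1)))
  rw [e1, e2]
  simp only [map_add, map_smul, add_mul, mul_add, smul_mul_assoc, mul_smul_comm, s1, s2, s3, smul_zero, zero_add, add_zero, smul_neg,
    smul_smul, sub_smul]
  rw [mul_comm (d 0 v) (d 1 u), mul_comm (d 1 v) (d 0 u)]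
  abel

theorem T3KAP_quot {K : Type} [Field K] [Algebra ℂ K] (δ : Derivation ℂ K K) {x : Fin 5 → K} (hx : ∀ l, δ (x l) = 0)
    (hne : ∀ l, x l ≠ 0) (i l : Fin 5) : δ (x l / x i) = 0 := by
  have h : x i * (x l / x i) = x l := by field_simp [hne i]
  have h2 := congrArg δ h
  rw [Derivation.leibniz, hx l, hx i, smul_zero, add_zero, smul_eq_mul] at h2
  rcases mul_eq_zero.1 h2 with h3 | h3
  · exact absurd h3 (hne i)
  · exact h3

theorem T3KAP_jac {K : Type} [Field K] [Algebra ℂ K] (D1 D2 : Derivation ℂ K K) {x : Fin 5 → K}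
    (hne : ∀ l, x l ≠ 0) (i j l : Fin 5) :
    x i * (D1 (x j) * D2 (x l) - D2 (x j) * D1 (x l)) + x j * (D1 (x l) * D2 (x i) - D2 (x l) * D1 (x i)) +
      x l * (D1 (x i) * D2 (x j) - D2 (x i) * D1 (x j)) =
    x i ^ 3 * (D1 (x j / x i) * D2 (x l / x i) - D2 (x j / x i) * D1 (x l / x i)) := by
  obtain ⟨y, hy⟩ : ∃ y, y = x j / x i := ⟨_, rfl⟩
  obtain ⟨z, hz⟩ : ∃ z, z = x l / x i := ⟨_, rfl⟩
  have e1 : x j = x i * y := by rw [hy]; field_simp [hne i]
  have e2 : x l = x i * z := by rw [hz]; field_simp [hne i]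
  rw [← hy, ← hz, e1, e2]
  simp only [Derivation.leibniz, smul_eq_mul]
  ring

theorem T3KAP_ja {K : Type} [Field K] (ε : K) {x : Fin 5 → K} (hne : ∀ l, x l ≠ 0) (i p : Fin 5) :
    ja ε x p = x i ^ 2 * ja ε (fun l => x l / x i) p := by
  have h := hne i
  fin_cases p <;> simp [ja] <;> field_simp

theorem T3KAP_jb {K : Type} [Field K] {x : Fin 5 → K} (hne : ∀ l, x l ≠ 0) (i p : Fin 5) :
    jb x p = x i ^ 2 * jb (fun l => x l / x i) p := by
  have h := hne i
  fin_cases p <;> simp [jb] <;> field_simp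

theorem T3KAP_mnr {K : Type} [Field K] (ε : K) {x : Fin 5 → K} (hne : ∀ l, x l ≠ 0) (i p q : Fin 5) :
    mnr ε x p q = x i ^ 4 * mnr ε (fun l => x l / x i) p q := by
  unfold mnr
  rw [T3KAP_ja ε hne i p, T3KAP_ja ε hne i q, T3KAP_jb hne i p, T3KAP_jb hne i q]
  ring

theorem T3KAP_euler {K : Type} [Field K] (ε : K) {x : Fin 5 → K} (h : OnX ε x) (q : Fin 5) :
    ∑ p, x p * mnr ε x p q = 0 := by
  have h1 : ∑ p, x p * ja ε x p = 0 := by
    have := h.1
    unfold av at this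
    simp only [Fin.sum_univ_five, ja, Matrix.cons_val]
    linear_combination (-3) * this
  have h2 : ∑ p, x p * jb x p = 0 := by
    have := h.2
    unfold bv at this
    simp only [Fin.sum_univ_five, jb, Matrix.cons_val]
    linear_combination (-3) * this
  have h3 : ∑ p, x p * mnr ε x p q = (∑ p, x p * ja ε x p) * jb x q - ja ε x q * ∑ p, x p * jb x p := by
    rw [Finset.sum_mul, Finset.mul_sum, ← Finset.sum_sub_distrib]
    refine Finset.sum_congr rfl fun p _ => ?_
    unfold mnr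
    ring
  rw [h3, h1, h2, zero_mul, mul_zero, sub_zero]

theorem T3KAP_euler' {K : Type} [Field K] (ε : K) {x : Fin 5 → K} (h : OnX ε x) (hne : ∀ l, x l ≠ 0) (i q : Fin 5) :
    ∑ p, (x p / x i) * mnr ε (fun l => x l / x i) p q = 0 := by
  have h1 := T3KAP_euler ε h q
  have h2 : ∑ p, x p * mnr ε x p q = x i ^ 5 * ∑ p, (x p / x i) * mnr ε (fun l => x l / x i) p q := by
    rw [Finset.mul_sum]
    refine Finset.sum_congr rfl fun p _ => ?_
    rw [T3KAP_mnr ε hne i p q]
    have := hne i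
    field_simp
  rw [h2] at h1
  rcases mul_eq_zero.1 h1 with h3 | h3
  · exact absurd h3 (pow_ne_zero 5 (hne i))
  · exact h3

theorem p_T3KAP (hTMI : Stmt_T1TMI) : Stmt_T3KAP := by
  intro K _ _ ε x x' M MU d d' H i
  have hS : CXT.Set2 ε x (d 0) (d 1) :=
    { x0 := M.one
      ind := by
        have h := M.ai.comp (Fin.castLE (by norm_num : 2 ≤ 4)) (Fin.castLE_injective _)
        have e : (![x 1, x 2, x' 1, x' 2] ∘ (Fin.castLE (by norm_num : 2 ≤ 4))) = ![x 1, x 2] := by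
          funext j
          fin_cases j <;> rfl
        rw [e] at h
        exact h
      onX := M.on
      d11 := H.h00
      d12 := H.h01
      d21 := H.h10
      d22 := H.h11 }
  obtain ⟨-, hT⟩ := hTMI ℂ K ε x (d 0) (d 1) hS M.ne
  obtain ⟨κ, hκ⟩ : ∃ κ : ExteriorAlgebra K (Ω[K⁄ℂ]), κ = (x i * (9 * (x 3 * x 4) ^ 2)⁻¹) •
    (ExteriorAlgebra.ι K (KaehlerDifferential.D ℂ K (x 1)) * ExteriorAlgebra.ι K (KaehlerDifferential.D ℂ K (x 2))) := ⟨_, rfl⟩
  have hchart : ∀ l, x l / x i ∈ chart x i := fun l => Algebra.subset_adjoin ⟨l, rfl⟩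
  have hq : ∀ l j, d' j (x l / x i) = 0 := fun l j => T3KAP_quot (d' j) (H.z' j) M.ne i l
  have h3 := M.ne 3
  have h4 := M.ne 4
  have hi := M.ne i
  have : CharZero K := charZero_of_injective_algebraMap (algebraMap ℂ K).injective
  have h9 : (9 : K) ≠ 0 := by norm_num
  -- the regular case
  have c1 : ∀ p q : Fin 5, p ≠ q → i ≠ p → i ≠ q → T3KAP_Pr (chart x i) (mnr (algebraMap ℂ K ε) (fun l => x l / x i) p q • κ) := by
    intro p q hpq hip hiq
    obtain ⟨j, l, s, h⟩ := hT i p q hpq hip hiq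
    rw [T3KAP_jac (d 0) (d 1) M.ne i j l, T3KAP_mnr (algebraMap ℂ K ε) M.ne i p q] at h
    have e : mnr (algebraMap ℂ K ε) (fun l => x l / x i) p q * (x i * (9 * (x 3 * x 4) ^ 2)⁻¹) =
        (s : K) * (d 0 (x j / x i) * d 1 (x l / x i) - d 1 (x j / x i) * d 0 (x l / x i)) := by
      have hne : x i ^ 3 * (9 * (x 3 * x 4) ^ 2) ≠ 0 :=
        mul_ne_zero (pow_ne_zero 3 hi) (mul_ne_zero h9 (pow_ne_zero 2 (mul_ne_zero h3 h4)))
      apply mul_left_cancel₀ hne
      have hinv : (9 * (x 3 * x 4) ^ 2) * (9 * (x 3 * x 4) ^ 2)⁻¹ = 1 :=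
        mul_inv_cancel₀ (mul_ne_zero h9 (pow_ne_zero 2 (mul_ne_zero h3 h4)))
      linear_combination (x i ^ 4 * mnr (algebraMap ℂ K ε) (fun l => x l / x i) p q) * hinv + h
    rw [hκ, smul_smul, e, ← smul_smul, ← T3KAP_wedge H _ _ (hq j) (hq l)]
    have hs : (s : K) ∈ chart x i := (chart x i).intCast_mem s
    exact T3KAP_smul _ hs (T3KAP_mul _ (hchart j) (hchart l))
  have c2 : ∀ p q : Fin 5, i ≠ p → i ≠ q → T3KAP_Pr (chart x i) (mnr (algebraMap ℂ K ε) (fun l => x l / x i) p q • κ) := by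
    intro p q hip hiq
    by_cases hpq : p = q
    · subst hpq
      have : mnr (algebraMap ℂ K ε) (fun l => x l / x i) p p = 0 := by unfold mnr; ring
      rw [this, zero_smul]
      exact T3KAP_zero _
    · exact c1 p q hpq hip hiq
  have hneg1 : (-1 : K) ∈ chart x i := (chart x i).neg_mem (chart x i).one_mem
  have c3 : ∀ q : Fin 5, i ≠ q → T3KAP_Pr (chart x i) (mnr (algebraMap ℂ K ε) (fun l => x l / x i) i q • κ) := by
    intro q hiq
    have h := T3KAP_euler' (algebraMap ℂ K ε) M.on M.ne i q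
    rw [← Finset.add_sum_erase _ _ (Finset.mem_univ i), div_self hi, one_mul] at h
    have e : mnr (algebraMap ℂ K ε) (fun l => x l / x i) i q • κ =
        (-1 : K) • ∑ p ∈ Finset.univ.erase i, (x p / x i) • (mnr (algebraMap ℂ K ε) (fun l => x l / x i) p q • κ) := by
      rw [eq_neg_of_add_eq_zero_left h]
      simp only [smul_smul]
      rw [← Finset.sum_smul, smul_smul]
      congr 1
      ring
    rw [e]
    refine T3KAP_smul _ hneg1 (T3KAP_sum _ _ _ fun p hp => T3KAP_smul _ (hchart p) (c2 p q ?_ hiq))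
    exact fun hip => (Finset.mem_erase.1 hp).1 hip.symm
  have c4 : ∀ p q : Fin 5, T3KAP_Pr (chart x i) (mnr (algebraMap ℂ K ε) (fun l => x l / x i) p q • κ) := by
    intro p q
    by_cases hip : i = p
    · subst hip
      by_cases hiq : i = q
      · subst hiq
        have : mnr (algebraMap ℂ K ε) (fun l => x l / x i) i i = 0 := by unfold mnr; ring
        rw [this, zero_smul]
        exact T3KAP_zero _
      · exact c3 q hiq
    · by_cases hiq : i = q
      · subst hiq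
        have : mnr (algebraMap ℂ K ε) (fun l => x l / x i) p i • κ =
            (-1 : K) • (mnr (algebraMap ℂ K ε) (fun l => x l / x i) i p • κ) := by
          rw [smul_smul]
          congr 1
          unfold mnr
          ring
        rw [this]
        exact T3KAP_smul _ hneg1 (c3 p hip)
      · exact c2 p q hip hiq
  obtain ⟨g, hg, hg1⟩ := MU i
  have fin : T3KAP_Pr (chart x i) κ := by
    have e : κ = ∑ p, ∑ q, g p q • (mnr (algebraMap ℂ K ε) (fun l => x l / x i) p q • κ) := by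
      simp only [smul_smul]
      simp only [← Finset.sum_smul]
      rw [hg1, one_smul]
    rw [e]
    exact T3KAP_sum _ _ _ fun p _ => T3KAP_sum _ _ _ fun q _ => T3KAP_smul _ (hg p q) (c4 p q)
  rw [hκ] at fin
  exact fin

end Pool.CX
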