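import Pool.Agent.Work.MP_bf99ce_cx.InterfaceT

/-! # THEOREM CX, part T3, block NZT -/

set_option autoImplicit false

noncomputable section

open MvPolynomial

namespace Pool.CX

theorem T3NZT_lf {K : Type} [Field K] [Algebra ℂ K] {x x' : Fin 5 → K} {d d' : Fin 2 → Derivation ℂ K K}
    (h : Ders x x' d d') (j : Fin 2) : lf3 d d' ![![x 1, x 2] j, x' 1, x' 2] = X (Sum.inl j) := by
  have h1 := h.z
  have h2 := h.z'
  fin_cases j <;>
    simp [lf3, dt3, Matrix.det_fin_three, h.h00, h.h01, h.h10, h.h11, h.k00, h.k01, h.k10, h.k11, h1, h2]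

theorem T3NZT_lf' {K : Type} [Field K] [Algebra ℂ K] {x x' : Fin 5 → K} {d d' : Fin 2 → Derivation ℂ K K}
    (h : Ders x x' d d') (j : Fin 2) : lf3 d d' ![![x' 1, x' 2] j, x 1, x 2] = X (Sum.inr j) := by
  have h1 := h.z
  have h2 := h.z'
  fin_cases j <;>
    simp [lf3, dt3, Matrix.det_fin_three, h.h00, h.h01, h.h10, h.h11, h.k00, h.k01, h.k10, h.k11, h1, h2]

theorem T3NZT_inj {K : Type} [Field K] {c : K} (hc : c ≠ 0) (e : Fin 2 → Fin 2 ⊕ Fin 2) (g : Fin 2 ⊕ Fin 2 → Fin 2)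
    (hge : ∀ j, g (e j) = j) {Ξ : MvPolynomial (Fin 2) K} (hΞ : Ξ ≠ 0) :
    aeval (fun j => C c * X (e j) : Fin 2 → MvPolynomial (Fin 2 ⊕ Fin 2) K) Ξ ≠ 0 := by
  intro h0
  apply hΞ
  have h1 : (aeval (fun s => C c⁻¹ * X (g s) : Fin 2 ⊕ Fin 2 → MvPolynomial (Fin 2) K)).comp
      (aeval (fun j => C c * X (e j) : Fin 2 → MvPolynomial (Fin 2 ⊕ Fin 2) K)) = AlgHom.id K _ := by
    refine MvPolynomial.algHom_ext fun j => ?_
    rw [AlgHom.comp_apply, aeval_X, map_mul, aeval_X, hge, AlgHom.id_apply]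
    have h2 : aeval (fun s => C c⁻¹ * X (g s) : Fin 2 ⊕ Fin 2 → MvPolynomial (Fin 2) K) (C c) = C c := by
      rw [aeval_C]
      rfl
    rw [h2, ← mul_assoc, ← C_mul, mul_inv_cancel₀ hc, C_1, one_mul]
  have h2 := congrArg (fun F : MvPolynomial (Fin 2) K →ₐ[K] MvPolynomial (Fin 2) K => F Ξ) h1
  simp only [AlgHom.comp_apply, AlgHom.id_apply] at h2
  rw [h0, map_zero] at h2
  exact h2.symm

theorem T3NZT_psi {K : Type} [Field K] [Algebra ℂ K] (z z' : K) (w : Fin 2 → K)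
    (Psi : SE K →ₐ[K] MvPolynomial (Fin 2 ⊕ Fin 2) K) (e : Fin 2 → Fin 2 ⊕ Fin 2)
    (h : ∀ j, Psi (i3 ![w j, z, z']) = X (e j)) (v : Fin 2 → SE K) (c : K) (hv : ∀ j, v j = c • i3 ![w j, z, z'])
    (Ξ : MvPolynomial (Fin 2) K) : Psi (aeval v Ξ) = aeval (fun j => C c * X (e j)) Ξ := by
  have h1 : Psi.comp (aeval v) = aeval (fun j => C c * X (e j)) := by
    refine MvPolynomial.algHom_ext fun j => ?_
    rw [AlgHom.comp_apply, aeval_X, aeval_X, hv, map_smul, h, smul_eq_C_mul]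
  exact congrArg (fun F : MvPolynomial (Fin 2) K →ₐ[K] MvPolynomial (Fin 2 ⊕ Fin 2) K => F Ξ) h1

theorem p_T3NZT (hT1PSI : Stmt_T1PSI) : Stmt_T3NZT := by
  intro K _ _ ε x x' hM d d' hD Ξ Ξ' hΞ hΞ' h0
  obtain ⟨Psi, Lam, hPL⟩ := hT1PSI K x x' d d' hD
  have hcz : ∀ y : Fin 5 → K, (∀ i, y i ≠ 0) → (9 * (y 3 * y 4) ^ 2)⁻¹ ≠ 0 := by
    intro y hy
    have : CharZero K := charZero_of_injective_algebraMap (algebraMap ℂ K).injective
    exact inv_ne_zero (mul_ne_zero (by norm_num) (pow_ne_zero _ (mul_ne_zero (hy 3) (hy 4))))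
  have h1 : Psi (hk x x' Ξ) = aeval (fun j => C (9 * (x' 3 * x' 4) ^ 2)⁻¹ * X (Sum.inl j)) Ξ :=
    T3NZT_psi (x' 1) (x' 2) ![x 1, x 2] Psi Sum.inl (fun j => by rw [(hPL _).1, T3NZT_lf hD]) (vk x x') _
      (fun j => rfl) Ξ
  have h2 : Psi (hk x' x Ξ') = aeval (fun j => C (9 * (x 3 * x 4) ^ 2)⁻¹ * X (Sum.inr j)) Ξ' :=
    T3NZT_psi (x 1) (x 2) ![x' 1, x' 2] Psi Sum.inr (fun j => by rw [(hPL _).1, T3NZT_lf' hD]) (vk x' x) _
      (fun j => rfl) Ξ'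
  have h3 := congrArg Psi h0
  rw [map_mul, map_zero, h1, h2] at h3
  rcases mul_eq_zero.1 h3 with h4 | h4
  · exact T3NZT_inj (hcz x' hM.ne') Sum.inl (Sum.elim id id) (fun j => rfl) hΞ h4
  · exact T3NZT_inj (hcz x hM.ne) Sum.inr (Sum.elim id id) (fun j => rfl) hΞ' h4

end Pool.CX
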