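import Pool.Agent.Work.MP_bf99ce_cx.InterfaceT

/-! # Block T3REI: reindexing -/

set_option autoImplicit false

noncomputable section

open MvPolynomial

namespace Pool.CX

theorem T3REI_chart {K : Type} [Field K] [Algebra ℂ K] {ι κ : Type} (e : κ ≃ ι) (t : ι → K)
    (i : κ) : chart (t ∘ e) i = chart t (e i) := by
  unfold chart
  have h : (Set.range fun j => (t ∘ e) j / (t ∘ e) i) = Set.range fun j => t j / t (e i) :=
    e.surjective.range_comp (fun j => t j / t (e i))
  rw [h]

theorem p_T3REI : Stmt_T3REI := by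
  intro K _ _ ι κ e t
  have hsec : ∀ (o : κ) (q m j : ℕ), HasSection (t ∘ e) o q m j ↔ HasSection t (e o) q m j := by
    intro o q m j
    constructor
    · rintro ⟨τ, h0, h⟩
      refine ⟨τ, h0, fun i => ?_⟩
      obtain ⟨i, rfl⟩ := e.surjective i
      have h1 := h i
      rw [T3REI_chart] at h1
      exact h1
    · rintro ⟨τ, h0, h⟩
      refine ⟨τ, h0, fun i => ?_⟩
      rw [T3REI_chart]
      exact h (e i)
  refine ⟨fun h => ⟨fun i => h.ne (e i), fun i => ?_, fun i => ?_⟩, hsec, fun o q => ?_⟩
  · rw [T3REI_chart]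
    exact h.frac (e i)
  · rw [T3REI_chart]
    exact h.smooth (e i)
  · unfold Pseudoeffective
    simp only [hsec]

end Pool.CX
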