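import Pool.Agent.Work.MP_bf99ce_cx.InterfaceT

/-!
# Block T3RGM: sums and products of regular forms
-/

set_option autoImplicit false

noncomputable section

open MvPolynomial

namespace Pool.CX

theorem T3RGM_zero {K : Type} [Field K] [Algebra ℂ K] (A : Subalgebra ℂ K) (q m : ℕ) : Reg A q m 0 :=
  ⟨0, fun n => Fin.elim0 n, fun n => Fin.elim0 n, by simp⟩

theorem T3RGM_add {K : Type} [Field K] [Algebra ℂ K] (A : Subalgebra ℂ K) (q m : ℕ)
    (τ τ' : SymmetricAlgebra K (ExteriorAlgebra K (Ω[K⁄ℂ]))) (h : Reg A q m τ) (h' : Reg A q m τ') :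
    Reg A q m (τ + τ') := by
  obtain ⟨N, c, a, rfl⟩ := h
  obtain ⟨N', c', a', rfl⟩ := h'
  refine ⟨N + N', Fin.append c c', Fin.append a a', ?_⟩
  rw [Fin.sum_univ_add]
  simp only [Fin.append_left, Fin.append_right]

theorem T3RGM_smul {K : Type} [Field K] [Algebra ℂ K] (A : Subalgebra ℂ K) (q m : ℕ) (c : K)
    (τ : SymmetricAlgebra K (ExteriorAlgebra K (Ω[K⁄ℂ]))) (hc : c ∈ A) (h : Reg A q m τ) :
    Reg A q m (c • τ) := by
  obtain ⟨N, c', a, rfl⟩ := h
  refine ⟨N, fun n => ⟨c, hc⟩ * c' n, a, ?_⟩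
  rw [Finset.smul_sum]
  refine Finset.sum_congr rfl fun n _ => ?_
  rw [smul_smul]
  rfl

theorem T3RGM_sum {K : Type} [Field K] [Algebra ℂ K] (A : Subalgebra ℂ K) (q m : ℕ) {ι : Type} (s : Finset ι)
    (f : ι → SymmetricAlgebra K (ExteriorAlgebra K (Ω[K⁄ℂ]))) (h : ∀ i ∈ s, Reg A q m (f i)) :
    Reg A q m (∑ i ∈ s, f i) := by
  classical
  induction s using Finset.induction_on with
  | empty =>
    rw [Finset.sum_empty]
    exact T3RGM_zero A q m
  | insert i s hi ih =>
    rw [Finset.sum_insert hi]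
    exact T3RGM_add A q m _ _ (h i (Finset.mem_insert_self i s)) (ih fun j hj => h j (Finset.mem_insert_of_mem hj))

theorem T3RGM_one {K : Type} [Field K] [Algebra ℂ K] (A : Subalgebra ℂ K) (q m : ℕ) (c : A)
    (a : Fin m → Fin q → A) :
    Reg A q m ((c : K) • mono K (fun j i => KaehlerDifferential.D ℂ K (a j i : K))) := by
  refine ⟨1, fun _ => c, fun _ => a, ?_⟩
  rw [Fin.sum_univ_one]

theorem T3RGM_mono {K W : Type} [Field K] [AddCommGroup W] [Module K W] {q m m' : ℕ} (w : Fin m → Fin q → W)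
    (w' : Fin m' → Fin q → W) : mono K w * mono K w' = mono K (Fin.append w w') := by
  unfold mono
  rw [Fin.prod_univ_add]
  simp only [Fin.append_left, Fin.append_right]

theorem T3RGM_mul {K : Type} [Field K] [Algebra ℂ K] (A : Subalgebra ℂ K) (q m m' : ℕ)
    (τ τ' : SymmetricAlgebra K (ExteriorAlgebra K (Ω[K⁄ℂ]))) (h : Reg A q m τ) (h' : Reg A q m' τ') :
    Reg A q (m + m') (τ * τ') := by
  obtain ⟨N, c, a, rfl⟩ := h
  obtain ⟨N', c', a', rfl⟩ := h'
  rw [Finset.sum_mul_sum]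
  refine T3RGM_sum A q _ _ _ fun n _ => T3RGM_sum A q _ _ _ fun n' _ => ?_
  rw [smul_mul_smul_comm, T3RGM_mono]
  have h := T3RGM_one A q (m + m') (c n * c' n') (Fin.append (a n) (a' n'))
  have e : (fun (j : Fin (m + m')) (i : Fin q) => KaehlerDifferential.D ℂ K (Fin.append (a n) (a' n') j i : K)) =
      Fin.append (fun j i => KaehlerDifferential.D ℂ K (a n j i : K))
        (fun j i => KaehlerDifferential.D ℂ K (a' n' j i : K)) := by
    funext j
    refine Fin.addCases (fun j => ?_) (fun j => ?_) j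
    · simp only [Fin.append_left]
    · simp only [Fin.append_right]
  rw [e] at h
  exact h

theorem p_T3RGM : Stmt_T3RGM := by
  intro K _ _ A q
  exact ⟨fun m m' τ τ' h h' => T3RGM_mul A q m m' τ τ' h h', fun m τ τ' h h' => T3RGM_add A q m τ τ' h h',
    fun m => T3RGM_zero A q m, fun m c τ hc h => T3RGM_smul A q m c τ hc h⟩

end Pool.CX
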