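import Pool.Agent.Work.MP_bf99ce_cx.InterfaceT

/-! # Block T3SPR (helper83): from forms on the first factor to forms on the product -/

set_option autoImplicit false

noncomputable section

open MvPolynomial

namespace Pool.CX

section general

variable {K : Type} [Field K] [Algebra ℂ K]

theorem T3SPR_le1 {x x' : Fin 5 → K} (hx' : ∀ i, x' i ≠ 0) (i i' : Fin 5) :
    chart x i ≤ chart (seg x x') (i, i') := by
  apply Algebra.adjoin_le
  rintro _ ⟨l, rfl⟩
  apply Algebra.subset_adjoin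
  refine ⟨(l, i'), ?_⟩
  show x l * x' i' / (x i * x' i') = x l / x i
  rw [mul_div_mul_right _ _ (hx' i')]

theorem T3SPR_le2 {x x' : Fin 5 → K} (hx : ∀ i, x i ≠ 0) (i i' : Fin 5) :
    chart x' i' ≤ chart (seg x x') (i, i') := by
  apply Algebra.adjoin_le
  rintro _ ⟨l, rfl⟩
  apply Algebra.subset_adjoin
  refine ⟨(i, l), ?_⟩
  show x i * x' l / (x i * x' i') = x' l / x' i'
  rw [mul_div_mul_left _ _ (hx i)]

theorem T3SPR_kill {x : Fin 5 → K} (D : Derivation ℂ K K) (hD : ∀ l, D (x l) = 0) (i : Fin 5)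
    {u : K} (hu : u ∈ chart x i) : D u = 0 := by
  unfold chart at hu
  induction hu using Algebra.adjoin_induction with
  | mem y hy =>
    obtain ⟨l, rfl⟩ := hy
    show D (x l / x i) = 0
    rw [div_eq_mul_inv, Derivation.leibniz, Derivation.leibniz_inv, hD, hD]
    simp
  | algebraMap r => exact D.map_algebraMap r
  | add a b _ _ ha hb => rw [map_add, ha, hb, add_zero]
  | mul a b _ _ ha hb => rw [Derivation.leibniz, ha, hb, smul_zero, smul_zero, add_zero]

theorem T3SPR_i3 (a b c : K) : i3 ![a, b, c] =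
    SymmetricAlgebra.ι K (ExteriorAlgebra K (Ω[K⁄ℂ]))
      (ExteriorAlgebra.ι K (KaehlerDifferential.D ℂ K a) *
        (ExteriorAlgebra.ι K (KaehlerDifferential.D ℂ K b) *
          ExteriorAlgebra.ι K (KaehlerDifferential.D ℂ K c))) := by
  unfold i3
  congr 1
  rw [ExteriorAlgebra.ιMulti_apply]
  simp [List.ofFn_succ]

theorem T3SPR_hk_dif (x x' : Fin 5 → K) (d d' : Fin 2 → Derivation ℂ K K)
    (hd : Ders x x' d d') {u : K} (h0 : ∀ j, d' j u = 0) :
    hk x x' (CXT.dif (d 0) (d 1) u) = (9 * (x' 3 * x' 4) ^ 2)⁻¹ • i3 ![u, x' 1, x' 2] := by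
  have hgen := hd.gen u
  rw [h0, h0, zero_smul, zero_smul, add_zero, add_zero] at hgen
  unfold hk CXT.dif
  rw [map_add, map_mul, map_mul, aeval_C, aeval_C, aeval_X, aeval_X, ← Algebra.smul_def,
    ← Algebra.smul_def]
  unfold vk
  have e0 : (![![x 1, x 2] 0, x' 1, x' 2] : Fin 3 → K) = ![x 1, x' 1, x' 2] := rfl
  have e1 : (![![x 1, x 2] 1, x' 1, x' 2] : Fin 3 → K) = ![x 2, x' 1, x' 2] := rfl
  rw [e0, e1, T3SPR_i3, T3SPR_i3, T3SPR_i3, hgen, map_add, map_smul, map_smul, add_mul,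
    smul_mul_assoc, smul_mul_assoc, map_add, map_smul, map_smul, smul_add, smul_comm,
    smul_comm (d 1 u)]

theorem T3SPR_one (A : Subalgebra ℂ K) (q : ℕ) :
    Reg A q 0 (1 : SymmetricAlgebra K (ExteriorAlgebra K (Ω[K⁄ℂ]))) := by
  refine ⟨1, fun _ => 1, fun _ j => Fin.elim0 j, ?_⟩
  simp [mono]

theorem T3SPR_reg1 {x x' : Fin 5 → K} {i i' : Fin 5} (hx : ∀ i, x i ≠ 0) (hx' : ∀ i, x' i ≠ 0)
    (d d' : Fin 2 → Derivation ℂ K K) (hd : Ders x x' d d')
    (h : ∃ (n : ℕ) (g a b : Fin n → K),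
      (∀ s, g s ∈ chart x' i' ∧ a s ∈ chart x' i' ∧ b s ∈ chart x' i') ∧
      (x' i' * (9 * (x' 3 * x' 4) ^ 2)⁻¹) • (ExteriorAlgebra.ι K (KaehlerDifferential.D ℂ K (x' 1)) *
        ExteriorAlgebra.ι K (KaehlerDifferential.D ℂ K (x' 2))) =
        ∑ s, g s • (ExteriorAlgebra.ι K (KaehlerDifferential.D ℂ K (a s)) *
          ExteriorAlgebra.ι K (KaehlerDifferential.D ℂ K (b s))))
    {u : K} (hu : u ∈ chart x i) :
    Reg (chart (seg x x') (i, i')) 3 1 (x' i' • hk x x' (CXT.dif (d 0) (d 1) u)) := by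
  obtain ⟨n, g, a, b, hmem, heq⟩ := h
  have hk0 : ∀ j, d' j u = 0 := fun j => T3SPR_kill (d' j) (hd.z' j) i hu
  have l1 := T3SPR_le1 (x := x) hx' i i'
  have l2 := T3SPR_le2 (x' := x') hx i i'
  refine ⟨n, fun s => ⟨g s, l2 (hmem s).1⟩,
    fun s _ => ![⟨u, l1 hu⟩, ⟨a s, l2 (hmem s).2.1⟩, ⟨b s, l2 (hmem s).2.2⟩], ?_⟩
  rw [T3SPR_hk_dif x x' d d' hd hk0, T3SPR_i3, smul_smul, ← map_smul, ← mul_smul_comm, heq,
    Finset.mul_sum, map_sum]
  refine Finset.sum_congr rfl fun s _ => ?_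
  rw [mul_smul_comm, map_smul]
  show g s • _ = g s • _
  congr 1
  unfold mono
  rw [Fin.prod_univ_one]
  have e : (fun l : Fin 3 => KaehlerDifferential.D ℂ K
      ((![(⟨u, l1 hu⟩ : chart (seg x x') (i, i')), ⟨a s, l2 (hmem s).2.1⟩,
        ⟨b s, l2 (hmem s).2.2⟩] l : chart (seg x x') (i, i')) : K)) =
      fun l => KaehlerDifferential.D ℂ K (![u, a s, b s] l) := by
    funext l
    fin_cases l <;> rfl
  refine (T3SPR_i3 u (a s) (b s)).symm.trans ?_
  show SymmetricAlgebra.ι K (ExteriorAlgebra K (Ω[K⁄ℂ])) (ExteriorAlgebra.ιMulti K 3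
      (fun l => KaehlerDifferential.D ℂ K (![u, a s, b s] l))) =
    SymmetricAlgebra.ι K (ExteriorAlgebra K (Ω[K⁄ℂ])) (ExteriorAlgebra.ιMulti K 3
      (fun l : Fin 3 => KaehlerDifferential.D ℂ K
      ((![(⟨u, l1 hu⟩ : chart (seg x x') (i, i')), ⟨a s, l2 (hmem s).2.1⟩,
        ⟨b s, l2 (hmem s).2.2⟩] l : chart (seg x x') (i, i')) : K)))
  rw [e]

end general

theorem p_T3SPR (hR : Stmt_T3RGM) : Stmt_T3SPR := by
  intro K _ _ ε x x' hM d d' hd i i' h m Ξ hΞ
  obtain ⟨hmul, hadd, hzero, hsmul⟩ := hR K (chart (seg x x') (i, i')) 3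
  have l1 := T3SPR_le1 (x := x) hM.ne' i i'
  have hprod : ∀ (m : ℕ) (a : Fin m → K), (∀ j, a j ∈ chart x i) →
      Reg (chart (seg x x') (i, i')) 3 m
        ((x' i') ^ m • hk x x' (∏ j, CXT.dif (d 0) (d 1) (a j))) := by
    intro m
    induction m with
    | zero =>
      intro a _
      simp only [pow_zero, Finset.univ_eq_empty, Finset.prod_empty, map_one, one_smul]
      exact T3SPR_one _ _
    | succ m ih =>
      intro a ha
      rw [Fin.prod_univ_castSucc, map_mul, pow_succ]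
      have h1 := ih (fun j => a j.castSucc) (fun j => ha _)
      have h2 := T3SPR_reg1 hM.ne hM.ne' d d' hd h (ha (Fin.last m))
      have h3 := hmul m 1 _ _ h1 h2
      rwa [smul_mul_smul_comm] at h3
  unfold CXT.Sp at hΞ
  induction hΞ using AddSubgroup.closure_induction with
  | mem y hy =>
    obtain ⟨c, a, hc, ha, rfl⟩ := hy
    have h1 := hprod m a ha
    have h2 := hsmul m c _ (l1 hc) h1
    have e : hk x x' (C c * ∏ j, CXT.dif (d 0) (d 1) (a j)) =
        c • hk x x' (∏ j, CXT.dif (d 0) (d 1) (a j)) := by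
      rw [map_mul]
      unfold hk
      rw [aeval_C, ← Algebra.smul_def]
    rw [e, smul_comm]
    exact h2
  | zero =>
    rw [map_zero, smul_zero]
    exact hzero m
  | add a b _ _ ha hb =>
    rw [map_add, smul_add]
    exact hadd m _ _ ha hb
  | neg a _ ha =>
    have h1 := hsmul m (-1) _ (neg_mem (one_mem _)) ha
    rw [map_neg, smul_neg]
    rwa [neg_one_smul] at h1

end Pool.CX
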