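import Pool.Agent.Work.MP_bf99ce_cx.SkelT
import Pool.Agent.Work.MP_bf99ce_cx.B_T1DEX
import Pool.Agent.Work.MP_bf99ce_cx.B_T1DER
import Pool.Agent.Work.MP_bf99ce_cx.B_T1PSI
import Pool.Agent.Work.MP_bf99ce_cx.B_T1TMI
import Pool.Agent.Work.MP_bf99ce_cx.B_T1ADJ
import Pool.Agent.Work.MP_bf99ce_cx.B_T1KAI
import Pool.Agent.Work.MP_bf99ce_cx.B_T1KLD
import Pool.Agent.Work.MP_bf99ce_cx.B_T1SPM
import Pool.Agent.Work.MP_bf99ce_cx.B_T1QIN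
import Pool.Agent.Work.MP_bf99ce_cx.B_T1HOM
import Pool.Agent.Work.MP_bf99ce_cx.B_T1SWP
import Pool.Agent.Work.MP_bf99ce_cx.B_T3FGE
import Pool.Agent.Work.MP_bf99ce_cx.B_T3GNZ
import Pool.Agent.Work.MP_bf99ce_cx.B_T3KAP
import Pool.Agent.Work.MP_bf99ce_cx.B_T3RGM
import Pool.Agent.Work.MP_bf99ce_cx.B_T3SPR
import Pool.Agent.Work.MP_bf99ce_cx.B_T3NZT
import Pool.Agent.Work.MP_bf99ce_cx.B_T3REI

/-!
# THEOREM CX (MP_bf99ce_ag): parts T1, T3 put together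
-/

set_option autoImplicit false

namespace Pool.CX

/-- The statement from the parts T2 (no sections on one factor), E (existence of the form) and S (the model). -/
theorem tmain (hT2 : CXT.Stmt_T2) (hE : Stmt_E') (hS : Stmt_S) : Statement :=
  ST_final (p_T1DER p_T1DEX) p_T1PSI (p_T1ADJ p_T1TMI) (p_T1KLD p_T1KAI) (p_T1QIN p_T1SPM) p_T1HOM p_T1SWP p_T3FGE p_T3GNZ
    (p_T3KAP p_T1TMI) p_T3RGM (p_T3SPR p_T3RGM) (p_T3NZT p_T1PSI) p_T3REI hT2 hE hS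

end Pool.CX
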