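import Pool.Agent.Work.MP_bf99ce_cx.DefsT2

/-!
# THEOREM CX (MP_bf99ce_ag): the definitions of the parts S, T1, T3

`Y = X × X`, `K` its function field, `x`, `x'` the coordinates of the two factors (`x 0 = x' 0 = 1`), the Segre coordinates are the
products `x i * x' j`, indexed by `Fin 5 × Fin 5`.
-/

set_option autoImplicit false

noncomputable section

open MvPolynomial

namespace Pool.CX

/-! ### The model (part S) -/

/-- the derivatives of `a - x_3^3` -/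
def ja {S : Type} [CommRing S] (ε : S) (x : Fin 5 → S) : Fin 5 → S :=
  ![-9 * x 0 ^ 2 + ε * (x 1 * x 2), 9 * x 1 ^ 2 + ε * (x 0 * x 2), 3 * x 2 ^ 2 + ε * (x 0 * x 1), -3 * x 3 ^ 2, 0]

/-- the derivatives of `b - x_4^3` -/
def jb {S : Type} [CommRing S] (x : Fin 5 → S) : Fin 5 → S :=
  ![-9 * x 0 ^ 2, 3 * x 1 ^ 2, 9 * x 2 ^ 2, 0, -3 * x 4 ^ 2]

/-- the minors of the Jacobian matrix of `a - x_3^3`, `b - x_4^3` -/
def mnr {S : Type} [CommRing S] (ε : S) (x : Fin 5 → S) (p q : Fin 5) : S :=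
  ja ε x p * jb x q - ja ε x q * jb x p

/-- the Segre coordinates of the product -/
def seg {K : Type} [Field K] (x x' : Fin 5 → K) : Fin 5 × Fin 5 → K := fun p => x p.1 * x' p.2

/-- `K` is the function field of `X × X`; `x`, `x'` are the affine coordinates of the two factors. -/
structure Model (K : Type) [Field K] [Algebra ℂ K] (ε : ℂ) (x x' : Fin 5 → K) : Prop where
  one : x 0 = 1
  one' : x' 0 = 1
  ne : ∀ i, x i ≠ 0
  ne' : ∀ i, x' i ≠ 0
  on : OnX (algebraMap ℂ K ε) x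
  on' : OnX (algebraMap ℂ K ε) x'
  ai : AlgebraicIndependent ℂ ![x 1, x 2, x' 1, x' 2]
  gen : ∀ z : K, ∃ a b : K, a ∈ Algebra.adjoin ℂ (Set.range x ∪ Set.range x') ∧
    b ∈ Algebra.adjoin ℂ (Set.range x ∪ Set.range x') ∧ b ≠ 0 ∧ z = a / b

/-- `X` is smooth: in every chart the minors of the Jacobian matrix generate the unit ideal. -/
def MinU {K : Type} [Field K] [Algebra ℂ K] (ε : ℂ) (x : Fin 5 → K) : Prop :=
  ∀ i, ∃ g : Fin 5 → Fin 5 → K, (∀ p q, g p q ∈ chart x i) ∧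
    ∑ p, ∑ q, g p q * mnr (algebraMap ℂ K ε) (fun l => x l / x i) p q = 1

/-- **PART S.** The model. -/
def Stmt_S : Prop :=
  ∃ ε : ℂ, Transcendental ℚ ε ∧ ∃ (K : Type) (_ : Field K) (_ : Algebra ℂ K) (x x' : Fin 5 → K),
    Model K ε x x' ∧ ProjManifold (seg x x') ∧ Algebra.trdeg ℂ K = 4 ∧ MinU ε x ∧ MinU ε x'

/-! ### Forms on the product (parts T1, T3) -/

/-- The four derivations of `K` over `ℂ` dual to `x 1, x 2, x' 1, x' 2`. -/
structure Ders {K : Type} [Field K] [Algebra ℂ K] (x x' : Fin 5 → K) (d d' : Fin 2 → Derivation ℂ K K) : Prop where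
  h00 : d 0 (x 1) = 1
  h01 : d 0 (x 2) = 0
  h10 : d 1 (x 1) = 0
  h11 : d 1 (x 2) = 1
  k00 : d' 0 (x' 1) = 1
  k01 : d' 0 (x' 2) = 0
  k10 : d' 1 (x' 1) = 0
  k11 : d' 1 (x' 2) = 1
  z : ∀ i l, d i (x' l) = 0
  z' : ∀ i l, d' i (x l) = 0
  gen : ∀ z : K, KaehlerDifferential.D ℂ K z = d 0 z • KaehlerDifferential.D ℂ K (x 1) + d 1 z • KaehlerDifferential.D ℂ K (x 2) +
    (d' 0 z • KaehlerDifferential.D ℂ K (x' 1) + d' 1 z • KaehlerDifferential.D ℂ K (x' 2))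

/-- The algebra which contains the symmetric powers of `Λ^3 Ω`. -/
abbrev SE (K : Type) [Field K] [Algebra ℂ K] : Type := SymmetricAlgebra K (ExteriorAlgebra K (Ω[K⁄ℂ]))

/-- `da_0 ∧ da_1 ∧ da_2` in the symmetric algebra -/
def i3 {K : Type} [Field K] [Algebra ℂ K] (a : Fin 3 → K) : SE K :=
  SymmetricAlgebra.ι K (ExteriorAlgebra K (Ω[K⁄ℂ])) (ExteriorAlgebra.ιMulti K 3 (fun j => KaehlerDifferential.D ℂ K (a j)))

/-- the determinant of the values of three derivations at three elements -/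
def dt3 {K : Type} [Field K] [Algebra ℂ K] (δ : Fin 3 → Derivation ℂ K K) (a : Fin 3 → K) : K :=
  (Matrix.of fun i j => δ i (a j)).det

/-- the coordinates of `da_0 ∧ da_1 ∧ da_2`: `Sum.inl i` belongs to `dx_(i+1) ∧ dx'_1 ∧ dx'_2`, `Sum.inr i` to `dx_1 ∧ dx_2 ∧ dx'_(i+1)` -/
def lf3 {K : Type} [Field K] [Algebra ℂ K] (d d' : Fin 2 → Derivation ℂ K K) (a : Fin 3 → K) : MvPolynomial (Fin 2 ⊕ Fin 2) K :=
  ∑ i : Fin 2, C (dt3 ![d i, d' 0, d' 1] a) * X (Sum.inl i) + ∑ i : Fin 2, C (dt3 ![d 0, d 1, d' i] a) * X (Sum.inr i)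

/-- sums of the products of `m` three-forms `da_0 ∧ da_1 ∧ da_2` of elements of `A` and an element of `A` -/
def Gf {K : Type} [Field K] [Algebra ℂ K] (d d' : Fin 2 → Derivation ℂ K K) (A : Subalgebra ℂ K) (m : ℕ) :
    AddSubmonoid (MvPolynomial (Fin 2 ⊕ Fin 2) K) :=
  AddSubmonoid.closure {Φ | ∃ (c : K) (a : Fin m → Fin 3 → K), c ∈ A ∧ (∀ j l, a j l ∈ A) ∧ Φ = C c * ∏ j, lf3 d d' (a j)}

/-- the coefficient of `∏ X (inr i) ^ β i`, a polynomial in the variables `X (inl i)` -/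
def sl {K : Type} [Field K] (β : Fin 2 →₀ ℕ) (Φ : MvPolynomial (Fin 2 ⊕ Fin 2) K) : MvPolynomial (Fin 2) K :=
  coeff β (sumAlgEquiv K (Fin 2) (Fin 2) (rename Sum.swap Φ))

/-- the value of `f` at `x`, `dx` -/
def gf {k L : Type} [Field k] [Field L] [Algebra k L] (x : Fin 5 → L) (D1 D2 : Derivation k L L) (f : P10 k) :
    MvPolynomial (Fin 2) L :=
  aeval (Sum.elim (fun l => C (x l)) (fun l => CXT.dif D1 D2 (x l))) f

/-- the condition of `Stmt_E` that the derivative of `f` in the direction `x` is zero -/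
def Kil {k : Type} [Field k] (ε : k) (f : P10 k) : Prop :=
  ∀ (S : Type) [CommRing S] [IsDomain S] [Algebra k S] (x y : Fin 5 → S), x 3 ≠ 0 → x 4 ≠ 0 →
    OnX (algebraMap k S ε) x → TanX (algebraMap k S ε) x y → ∑ i, x i * aeval (Sum.elim x y) (pderiv (Sum.inr i) f) = 0

/-- the condition of `Stmt_E` that `f` is not zero at the generic point -/
def Nzr {k : Type} [Field k] (ε : k) (f : P10 k) : Prop :=
  ∀ (S : Type) [Field S] [Algebra k S] (x : Fin 5 → S), x 0 = 1 → AlgebraicIndependent k ![x 1, x 2] →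
    OnX (algebraMap k S ε) x → ∃ y : Fin 5 → S, TanX (algebraMap k S ε) x y ∧ aeval (Sum.elim x y) f ≠ 0

/-- the form `dx_(j+1) ∧ κ'`, `κ' = dx'_1 ∧ dx'_2 / (9 x'_3^2 x'_4^2)` -/
def vk {K : Type} [Field K] [Algebra ℂ K] (x x' : Fin 5 → K) (j : Fin 2) : SE K :=
  (9 * (x' 3 * x' 4) ^ 2)⁻¹ • i3 ![![x 1, x 2] j, x' 1, x' 2]

/-- the substitution `Y_j ↦ dx_(j+1) ∧ κ'` -/
def hk {K : Type} [Field K] [Algebra ℂ K] (x x' : Fin 5 → K) : MvPolynomial (Fin 2) K →ₐ[K] SE K := aeval (vk x x')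

end Pool.CX
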