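import Pool.Agent.Work.MP_bf99ce_cx.VMain
import Pool.Agent.Work.MP_bf99ce_cx.T2Main
import Pool.Agent.Work.MP_bf99ce_cx.TMain
import Pool.Agent.Work.MP_bf99ce_cx.SMain
import Pool.Agent.Work.MP_bf99ce_cx.EBridge
import Pool.Agent.Work.MP_bf99ce_cxe.All2

/-! # THEOREM CX: the final assembly -/

set_option autoImplicit false

namespace Pool.CX

theorem final : Statement := tmain (CXT.t2main vmain) (EBridge CXE.q_EU) CXS.smain

end Pool.CX
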