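import Pool.Agent.Work.MP_bf99ce_cx.DefsW

/-! # THEOREM CX, part V0: block BIH (the degrees of the basic forms, the Euler condition) -/

set_option autoImplicit false

noncomputable section

open MvPolynomial

namespace Pool.CX

variable {k : Type} [CommRing k]

/-! ## Bidegrees -/

theorem BIH_add {d m : ℕ} {P Q : P6 k} (hP : Bihom d m P) (hQ : Bihom d m Q) :
    Bihom d m (P + Q) := by
  classical
  intro s hs
  rcases Finset.mem_union.1 (support_add hs) with h | h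
  · exact hP s h
  · exact hQ s h

theorem BIH_neg {d m : ℕ} {P : P6 k} (hP : Bihom d m P) : Bihom d m (-P) := by
  intro s hs
  rw [support_neg] at hs
  exact hP s hs

theorem BIH_sub {d m : ℕ} {P Q : P6 k} (hP : Bihom d m P) (hQ : Bihom d m Q) :
    Bihom d m (P - Q) := by
  rw [sub_eq_add_neg]
  exact BIH_add hP (BIH_neg hQ)

theorem BIH_mul {d m d' m' : ℕ} {P Q : P6 k} (hP : Bihom d m P) (hQ : Bihom d' m' Q) :
    Bihom (d + d') (m + m') (P * Q) := by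
  classical
  intro s hs
  obtain ⟨a, ha, b, hb, rfl⟩ := Finset.mem_add.1 (support_mul P Q hs)
  have h1 := hP a ha
  have h2 := hQ b hb
  simp only [Finsupp.add_apply, Finset.sum_add_distrib]
  omega

theorem BIH_mul' {d m d' m' D M : ℕ} {P Q : P6 k} (hP : Bihom d m P) (hQ : Bihom d' m' Q)
    (hD : D = d + d') (hM : M = m + m') : Bihom D M (P * Q) := by
  subst hD hM
  exact BIH_mul hP hQ

theorem BIH_C (c : k) : Bihom 0 0 (C c : P6 k) := by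
  intro s hs
  have h : s = 0 := by
    have h1 := support_monomial_subset (s := (0 : Fin 3 ⊕ Fin 3 →₀ ℕ)) (a := c) hs
    simpa using h1
  subst h
  simp

theorem BIH_Cmul (c : k) {d m : ℕ} {P : P6 k} (hP : Bihom d m P) : Bihom d m (C c * P) :=
  BIH_mul' (BIH_C c) hP (by omega) (by omega)

theorem BIH_omul (n : ℕ) [n.AtLeastTwo] {d m : ℕ} {P : P6 k} (hP : Bihom d m P) :
    Bihom d m ((OfNat.ofNat n : P6 k) * P) := by
  have h : (OfNat.ofNat n : P6 k) = C (OfNat.ofNat n : k) := (map_ofNat C n).symm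
  rw [h]
  exact BIH_Cmul _ hP

theorem BIH_nmul (n : ℕ) [n.AtLeastTwo] {d m : ℕ} {P : P6 k} (hP : Bihom d m P) :
    Bihom d m ((-OfNat.ofNat n : P6 k) * P) := by
  rw [neg_mul]
  exact BIH_neg (BIH_omul n hP)

theorem BIH_x (i : Fin 3) : Bihom 1 0 (Xx i : P6 k) := by
  intro s hs
  have h : s = Finsupp.single (Sum.inl i) 1 := by
    have h1 := support_monomial_subset (s := Finsupp.single (Sum.inl i : Fin 3 ⊕ Fin 3) 1)
      (a := (1 : k)) hs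
    simpa using h1
  subst h
  simp [Finsupp.single_apply]

theorem BIH_v (i : Fin 3) : Bihom 0 1 (Vv i : P6 k) := by
  intro s hs
  have h : s = Finsupp.single (Sum.inr i) 1 := by
    have h1 := support_monomial_subset (s := Finsupp.single (Sum.inr i : Fin 3 ⊕ Fin 3) 1)
      (a := (1 : k)) hs
    simpa using h1
  subst h
  simp [Finsupp.single_apply]

theorem BIH_xx (i j : Fin 3) : Bihom 2 0 (Xx i * Xx j : P6 k) := BIH_mul (BIH_x i) (BIH_x j)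

theorem BIH_x2 (i : Fin 3) : Bihom 2 0 (Xx i ^ 2 : P6 k) := by
  rw [pow_two]
  exact BIH_xx i i

theorem BIH_x3 (i : Fin 3) : Bihom 3 0 (Xx i ^ 3 : P6 k) := by
  rw [pow_succ]
  exact BIH_mul (BIH_x2 i) (BIH_x i)

theorem BIH_X3 : Bihom 3 0 (X3 : P6 k) := BIH_mul (BIH_xx 0 1) (BIH_x 2)

theorem BIH_lam (i : Fin 3) : Bihom 1 1 (lam i : P6 k) :=
  BIH_sub (BIH_mul (BIH_x _) (BIH_v _)) (BIH_mul (BIH_x _) (BIH_v _))

theorem BIH_ll (i j : Fin 3) : Bihom 2 2 (lam i * lam j : P6 k) :=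
  BIH_mul (BIH_lam i) (BIH_lam j)

theorem BIH_KP : Bihom 4 2 (KP : P6 k) :=
  BIH_add (BIH_add (BIH_mul (BIH_x2 2) (BIH_ll 0 1)) (BIH_mul (BIH_x2 1) (BIH_ll 0 2)))
    (BIH_omul 4 (BIH_mul (BIH_x2 0) (BIH_ll 1 2)))

theorem BIH_xvv (i j l : Fin 3) : Bihom 1 2 (Xx i * Vv j * Vv l : P6 k) :=
  BIH_mul (BIH_mul (BIH_x i) (BIH_v j)) (BIH_v l)

theorem BIH_xxv (i j l : Fin 3) : Bihom 2 1 (Xx i * Xx j * Vv l : P6 k) :=
  BIH_mul (BIH_xx i j) (BIH_v l)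

theorem BIH_vxx (i j l : Fin 3) : Bihom 2 1 (Vv i * (Xx j * Xx l) : P6 k) :=
  BIH_mul' (BIH_v i) (BIH_xx j l) (by omega) (by omega)

theorem BIH_UP : Bihom 1 2 (UP : P6 k) :=
  BIH_sub (BIH_sub (BIH_omul 12 (BIH_xvv 0 1 2)) (BIH_omul 3 (BIH_xvv 1 0 2)))
    (BIH_omul 9 (BIH_xvv 2 0 1))

theorem BIH_VP : Bihom 2 1 (VP : P6 k) :=
  BIH_sub (BIH_sub (BIH_omul 4 (BIH_xxv 1 2 0)) (BIH_xxv 0 2 1)) (BIH_omul 3 (BIH_xxv 0 1 2))

theorem BIH_dvX3 : Bihom 2 1 (dv X3 : P6 k) := by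
  rw [dv_X3]
  exact BIH_add (BIH_add (BIH_vxx 0 1 2) (BIH_vxx 1 0 2)) (BIH_vxx 2 0 1)

theorem BIH_S1P : Bihom 4 2 (S1P : P6 k) :=
  BIH_add (BIH_mul' BIH_X3 BIH_UP (by omega) (by omega))
    (BIH_mul' BIH_dvX3 BIH_VP (by omega) (by omega))

theorem BIH_aP (ε : k) : Bihom 3 0 (aP ε : P6 k) :=
  BIH_add (BIH_add (BIH_add (BIH_nmul 3 (BIH_x3 0)) (BIH_omul 3 (BIH_x3 1))) (BIH_x3 2))
    (BIH_Cmul ε (BIH_mul (BIH_xx 0 1) (BIH_x 2)))

theorem BIH_bP : Bihom 3 0 (bP : P6 k) :=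
  BIH_add (BIH_add (BIH_nmul 3 (BIH_x3 0)) (BIH_x3 1)) (BIH_omul 3 (BIH_x3 2))

/-! ## The Euler condition -/

theorem BIH_eadd (P Q : P6 k) : eul (P + Q) = eul P + eul Q := by
  simp [eul, mul_add, Finset.sum_add_distrib]

theorem BIH_eneg (P : P6 k) : eul (-P) = -eul P := by
  simp [eul]

theorem BIH_esub (P Q : P6 k) : eul (P - Q) = eul P - eul Q := by
  rw [sub_eq_add_neg, BIH_eadd, BIH_eneg, sub_eq_add_neg]

theorem BIH_emul (P Q : P6 k) : eul (P * Q) = P * eul Q + Q * eul P := by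
  simp only [eul, Derivation.leibniz, smul_eq_mul, mul_add, Finset.sum_add_distrib,
    Finset.mul_sum]
  congr 1 <;> exact Finset.sum_congr rfl fun i _ => by ring

theorem BIH_eC (c : k) : eul (C c : P6 k) = 0 := by
  simp [eul]

theorem BIH_eo (n : ℕ) [n.AtLeastTwo] : eul (OfNat.ofNat n : P6 k) = 0 := by
  have h : (OfNat.ofNat n : P6 k) = C (OfNat.ofNat n : k) := (map_ofNat C n).symm
  rw [h]
  exact BIH_eC _

theorem BIH_e3 : eul (3 : P6 k) = 0 := BIH_eo 3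

theorem BIH_e4 : eul (4 : P6 k) = 0 := BIH_eo 4

theorem BIH_e9 : eul (9 : P6 k) = 0 := BIH_eo 9

theorem BIH_e12 : eul (12 : P6 k) = 0 := BIH_eo 12

theorem BIH_ex (i : Fin 3) : eul (Xx i : P6 k) = 0 := by
  simp [eul, Xx, pderiv_X]

theorem BIH_ev (i : Fin 3) : eul (Vv i : P6 k) = Xx i := by
  simp only [eul, Vv, Xx, pderiv_X, Pi.single_apply, Sum.inr.injEq, mul_ite, mul_one, mul_zero,
    Finset.sum_ite_eq, Finset.mem_univ, if_true]

theorem BIH_ex2 (i : Fin 3) : eul (Xx i ^ 2 : P6 k) = 0 := by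
  rw [pow_two, BIH_emul, BIH_ex]
  ring

theorem BIH_ex3 (i : Fin 3) : eul (Xx i ^ 3 : P6 k) = 0 := by
  rw [pow_succ, BIH_emul, BIH_ex, BIH_ex2]
  ring

theorem BIH_elam (i : Fin 3) : eul (lam i : P6 k) = 0 := by
  rw [lam, BIH_esub, BIH_emul, BIH_emul, BIH_ex, BIH_ex, BIH_ev, BIH_ev]
  ring

theorem BIH_eKP : eul (KP : P6 k) = 0 := by
  simp only [KP, BIH_eadd, BIH_emul, BIH_ex2, BIH_elam, BIH_e4]
  ring

theorem BIH_eUP : eul (UP : P6 k) = -3 * VP := by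
  simp only [UP, VP, BIH_esub, BIH_emul, BIH_ex, BIH_ev, BIH_e3, BIH_e9, BIH_e12]
  ring

theorem BIH_eVP : eul (VP : P6 k) = 0 := by
  simp only [VP, BIH_esub, BIH_emul, BIH_ex, BIH_ev, BIH_e3, BIH_e4]
  ring

theorem BIH_eX3 : eul (X3 : P6 k) = 0 := by
  simp only [X3, BIH_emul, BIH_ex]
  ring

theorem BIH_edX3 : eul (dv X3 : P6 k) = 3 * X3 := by
  rw [dv_X3]
  simp only [X3, BIH_eadd, BIH_emul, BIH_ex, BIH_ev]
  ring

theorem BIH_eS1P : eul (S1P : P6 k) = 0 := by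
  rw [S1P, BIH_eadd, BIH_emul, BIH_emul, BIH_eUP, BIH_eVP, BIH_eX3, BIH_edX3]
  ring

theorem BIH_eaP (ε : k) : eul (aP ε : P6 k) = 0 := by
  simp only [aP, BIH_eadd, BIH_emul, BIH_eneg, BIH_ex, BIH_ex3, BIH_e3, BIH_eC, neg_mul]
  ring

theorem BIH_ebP : eul (bP : P6 k) = 0 := by
  simp only [bP, BIH_eadd, BIH_emul, BIH_eneg, BIH_ex3, BIH_e3, neg_mul]
  ring

/-- BLOCK BIH. -/
theorem p_BIH : Stmt_BIH := by
  intro k _
  exact ⟨⟨BIH_KP, BIH_S1P, BIH_aP, BIH_bP, BIH_X3⟩, ⟨BIH_eKP, BIH_eS1P, BIH_eaP, BIH_ebP⟩,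
    fun _ _ _ _ _ _ hP hQ => BIH_mul hP hQ, BIH_emul⟩

end Pool.CX
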