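import Pool.Agent.Work.MP_bf99ce_cx.DefsD2

/-! # THEOREM CX, block BQ: a quotient of bihomogeneous polynomials is bihomogeneous -/

set_option autoImplicit false

noncomputable section

open MvPolynomial

namespace Pool.CX

/-- the weight of the variables in `ℕ × ℕ` -/
def BQ_w : Fin 3 ⊕ Fin 3 → ℕ × ℕ := Sum.elim (fun _ => (1, 0)) (fun _ => (0, 1))

theorem BQ_weight (s : Fin 3 ⊕ Fin 3 →₀ ℕ) :
    Finsupp.weight BQ_w s = (∑ i, s (Sum.inl i), ∑ i, s (Sum.inr i)) := by
  have h : Finsupp.weight BQ_w s = ∑ i, s i • BQ_w i := by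
    rw [Finsupp.weight_apply]
    exact Finsupp.sum_fintype s (fun i c => c • BQ_w i) (fun i => zero_smul ℕ (BQ_w i))
  rw [h, Fintype.sum_sum_type]
  ext
  · simp [BQ_w, Prod.fst_sum]
  · simp [BQ_w, Prod.snd_sum]

theorem BQ_iff {k : Type} [Field k] (d m : ℕ) (P : P6 k) :
    Bihom d m P ↔ IsWeightedHomogeneous BQ_w P (d, m) := by
  constructor
  · intro h s hs
    rw [BQ_weight]
    obtain ⟨h1, h2⟩ := h s (mem_support_iff.2 hs)
    rw [h1, h2]
  · intro h s hs
    have h1 := h (mem_support_iff.1 hs)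
    rw [BQ_weight] at h1
    exact ⟨congrArg Prod.fst h1, congrArg Prod.snd h1⟩

/-- BLOCK BQ. -/
theorem p_BQ : Stmt_BQ := by
  intro k _ a b d m A B hA hB hbA hbAB
  classical
  have hA' : A ∈ weightedHomogeneousSubmodule k BQ_w (a, b) := (BQ_iff a b A).1 hbA
  have hAB' : A * B ∈ weightedHomogeneousSubmodule k BQ_w (d, m) := (BQ_iff d m (A * B)).1 hbAB
  have key : ∀ s ∈ B.support, a + ∑ i, s (Sum.inl i) = d ∧ b + ∑ i, s (Sum.inr i) = m := by
    intro s hs
    by_contra hne
    let _ : GradedAlgebra (weightedHomogeneousSubmodule k BQ_w) := weightedGradedAlgebra k BQ_w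
    have h1 := DirectSum.coe_decompose_mul_add_of_left_mem (weightedHomogeneousSubmodule k BQ_w)
      (b := B) (j := Finsupp.weight BQ_w s) hA'
    have h2 : (DirectSum.decompose (weightedHomogeneousSubmodule k BQ_w) (A * B) ((a, b) + Finsupp.weight BQ_w s) : P6 k) = 0 := by
      refine DirectSum.decompose_of_mem_ne _ hAB' ?_
      intro h
      apply hne
      rw [BQ_weight, Prod.mk_add_mk] at h
      exact ⟨(congrArg Prod.fst h).symm, (congrArg Prod.snd h).symm⟩
    rw [h2] at h1
    have h3 : (DirectSum.decompose (weightedHomogeneousSubmodule k BQ_w) B (Finsupp.weight BQ_w s) : P6 k) = 0 := by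
      rcases mul_eq_zero.1 h1.symm with h | h
      · exact absurd h hA
      · exact h
    have h4 : (DirectSum.decompose (weightedHomogeneousSubmodule k BQ_w) B (Finsupp.weight BQ_w s) : P6 k) =
        weightedHomogeneousComponent BQ_w (Finsupp.weight BQ_w s) B := weightedDecomposition.decompose'_apply k BQ_w B _
    rw [h4] at h3
    have h5 := coeff_weightedHomogeneousComponent (w := BQ_w) (n := Finsupp.weight BQ_w s) (φ := B) s
    rw [h3, if_pos rfl, coeff_zero] at h5
    exact mem_support_iff.1 hs h5.symm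
  obtain ⟨s, hs⟩ : B.support.Nonempty := by
    rw [Finset.nonempty_iff_ne_empty]
    intro h
    exact hB (support_eq_empty.1 h)
  obtain ⟨h1, h2⟩ := key s hs
  refine ⟨by omega, by omega, fun t ht => ?_⟩
  obtain ⟨h3, h4⟩ := key t ht
  exact ⟨by omega, by omega⟩

end Pool.CX
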