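import Pool.Agent.Work.MP_bf99ce_cx.BaseV

/-!
# THEOREM CX, part V0: the interface of the blocks

`R5 k` is the polynomial ring in `x_0, x_1, x_2` (`Sum.inl`), `v_0, v_1` (`Sum.inr`). For the cubic `p = cub c0 c1 c2 e` with partial
derivatives `g0, g1, h`, the map `phi` substitutes `(v_0, v_1, v_2) ↦ (h v_0, h v_1, ξ - g0 v_0 - g1 v_1)`, so that
`dv p ↦ h ξ` (`ξ` is the variable of `Polynomial (R5 k)`), and `psi` substitutes `ξ ↦ dv p`.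
-/

set_option autoImplicit false

noncomputable section

open MvPolynomial

namespace Pool.CX

/-- Polynomials in `x_0, x_1, x_2`, `v_0, v_1`. -/
abbrev R5 (k : Type) [CommRing k] := MvPolynomial (Fin 3 ⊕ Fin 2) k

/-- The cubic in `R5 k`. -/
def cub5 {k : Type} [CommRing k] (c0 c1 c2 e : k) : R5 k :=
  C c0 * X (Sum.inl 0) ^ 3 + C c1 * X (Sum.inl 1) ^ 3 + C c2 * X (Sum.inl 2) ^ 3 +
    C e * (X (Sum.inl 0) * X (Sum.inl 1) * X (Sum.inl 2))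

/-- `∂p/∂x_0`, `∂p/∂x_1`, `∂p/∂x_2` in `R5 k`. -/
def grad5 {k : Type} [CommRing k] (c0 c1 c2 e : k) : Fin 3 → R5 k :=
  ![C (3 * c0) * X (Sum.inl 0) ^ 2 + C e * (X (Sum.inl 1) * X (Sum.inl 2)),
    C (3 * c1) * X (Sum.inl 1) ^ 2 + C e * (X (Sum.inl 0) * X (Sum.inl 2)),
    C (3 * c2) * X (Sum.inl 2) ^ 2 + C e * (X (Sum.inl 0) * X (Sum.inl 1))]

/-- The substitution `(v_0, v_1, v_2) ↦ (h v_0, h v_1, ξ - g0 v_0 - g1 v_1)`. -/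
def phi {k : Type} [CommRing k] (c0 c1 c2 e : k) : P6 k →ₐ[k] Polynomial (R5 k) :=
  aeval (Sum.elim (fun i : Fin 3 => Polynomial.C (X (Sum.inl i)))
    ![Polynomial.C (grad5 c0 c1 c2 e 2 * X (Sum.inr 0)), Polynomial.C (grad5 c0 c1 c2 e 2 * X (Sum.inr 1)),
      Polynomial.X - Polynomial.C (grad5 c0 c1 c2 e 0 * X (Sum.inr 0) + grad5 c0 c1 c2 e 1 * X (Sum.inr 1))])

/-- The inclusion `R5 k → P6 k`. -/
def inc5 {k : Type} [CommRing k] : R5 k →ₐ[k] P6 k := aeval (Sum.elim (fun i : Fin 3 => Xx i) ![Vv 0, Vv 1])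

/-- The substitution `ξ ↦ dv p`. -/
def psi {k : Type} [CommRing k] (c0 c1 c2 e : k) : Polynomial (R5 k) →+* P6 k :=
  Polynomial.eval₂RingHom (inc5 (k := k)).toRingHom (dv (cub c0 c1 c2 e))

/-- The weight condition in the coordinate `ξ`: `p^⌈(w - 2 l) / 3⌉` divides the coefficient of `ξ^l`. -/
def WX {A : Type} [CommRing A] (p : A) (w : ℕ) (Q : Polynomial A) : Prop := ∀ l : ℕ, p ^ ((w - 2 * l + 2) / 3) ∣ Q.coeff l

/-- W0-PRM: the two cubics are prime, in any number of variables. -/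
def Stmt_PRM : Prop :=
  ∀ (k : Type) [Field k] [CharZero k] (σ : Type) (i0 i1 i2 : σ), i0 ≠ i1 → i0 ≠ i2 → i1 ≠ i2 →
    Prime (X i2 ^ 3 + 3 * (X i1 ^ 3 - X i0 ^ 3) : MvPolynomial σ k)

/-- W0-PHF: `phi` of the weight ideal. -/
def Stmt_PHF : Prop :=
  ∀ (k : Type) [CommRing k] (c0 c1 c2 e : k) (w : ℕ) (Q : P6 k), Q ∈ Iw (cub c0 c1 c2 e) w →
    WX (cub5 c0 c1 c2 e) w (phi c0 c1 c2 e Q)

/-- W0-PHB: back from `phi`. -/
def Stmt_PHB : Prop :=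
  ∀ (k : Type) [CommRing k] (c0 c1 c2 e : k) (m w : ℕ) (P : P6 k), HomV m P → WX (cub5 c0 c1 c2 e) w (phi c0 c1 c2 e P) →
    (C (3 * c2) * Xx 2 ^ 2 + C e * (Xx 0 * Xx 1)) ^ m * P ∈ Iw (cub c0 c1 c2 e) w

/-- W0-VCO: the abstract valuation lemma. -/
def Stmt_VCO : Prop :=
  ∀ (A : Type) [CommRing A] [IsDomain A] (p : A) (w : ℕ) (f g : Polynomial A), Prime p → p ∣ f.coeff 0 → ¬ p ∣ f.coeff 1 →
    f.natDegree ≤ 2 → WX p w (f * g) → WX p (w - 2) g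

/-- W0-KCO: the coefficients of `phi K` for both curves. -/
def Stmt_KCO : Prop :=
  ∀ (k : Type) [Field k] [CharZero k],
    (cub5 (-3) 3 1 0 ∣ (phi (-3 : k) 3 1 0 KP).coeff 0 ∧ ¬ cub5 (-3) 3 1 0 ∣ (phi (-3 : k) 3 1 0 KP).coeff 1 ∧
      (phi (-3 : k) 3 1 0 KP).natDegree ≤ 2) ∧
    (cub5 (-3) 1 3 0 ∣ (phi (-3 : k) 1 3 0 KP).coeff 0 ∧ ¬ cub5 (-3) 1 3 0 ∣ (phi (-3 : k) 1 3 0 KP).coeff 1 ∧
      (phi (-3 : k) 1 3 0 KP).natDegree ≤ 2)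

/-- W0-GAU: Gauss over a valuation ring. -/
def Stmt_GAU : Prop :=
  ∀ (k : Type) [Field k] (O : ValuationSubring k) (σ : Type) (f P : MvPolynomial σ O),
    map (IsLocalRing.residue O) f ≠ 0 → map (algebraMap O k) f ∣ map (algebraMap O k) P → f ∣ P

/-- W0-QUO: division by `K`. -/
def Stmt_QUO : Prop :=
  ∀ (k : Type) [Field k] [CharZero k] (d m : ℕ) (P : P6 k), P ≠ 0 → Bihom d m P → eul P = 0 → KP ∣ P →
    4 ≤ d ∧ 2 ≤ m ∧ ∃ P' : P6 k, P = KP * P' ∧ Bihom (d - 4) (m - 2) P' ∧ eul P' = 0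

/-- W0-BIH: the degrees of the basic forms, and the Euler condition. -/
def Stmt_BIH : Prop :=
  ∀ (k : Type) [CommRing k],
    (Bihom 4 2 (KP : P6 k) ∧ Bihom 4 2 (S1P : P6 k) ∧ (∀ ε : k, Bihom 3 0 (aP ε)) ∧ Bihom 3 0 (bP : P6 k) ∧ Bihom 3 0 (X3 : P6 k)) ∧
    (eul (KP : P6 k) = 0 ∧ eul (S1P : P6 k) = 0 ∧ (∀ ε : k, eul (aP ε) = 0) ∧ eul (bP : P6 k) = 0) ∧
    (∀ (d m d' m' : ℕ) (P Q : P6 k), Bihom d m P → Bihom d' m' Q → Bihom (d + d') (m + m') (P * Q)) ∧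
    (∀ P Q : P6 k, eul (P * Q) = P * eul Q + Q * eul P)

end Pool.CX
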