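import Pool.Agent.Work.MP_bf99ce_cx.BaseD
import Pool.Agent.Work.MP_bf99ce_cx.DefsW

set_option autoImplicit false

noncomputable section

open MvPolynomial

namespace Pool.CX

theorem DDF_eul_add {k : Type} [CommRing k] (p q : P6 k) : eul (p + q) = eul p + eul q := by
  simp [eul, mul_add, Finset.sum_add_distrib]

theorem DDF_eul_sub {k : Type} [CommRing k] (p q : P6 k) : eul (p - q) = eul p - eul q := by
  simp [eul, mul_sub, Finset.sum_sub_distrib]

theorem DDF_eul_mul {k : Type} [CommRing k] (p q : P6 k) : eul (p * q) = p * eul q + q * eul p := by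
  simp only [eul, Derivation.leibniz, smul_eq_mul, mul_add, Finset.sum_add_distrib, Finset.mul_sum]
  congr 1 <;> exact Finset.sum_congr rfl fun i _ => by ring

theorem DDF_eul_Xx {k : Type} [CommRing k] (i : Fin 3) : eul (Xx i : P6 k) = 0 := by
  simp [eul, Xx, pderiv_X, Pi.single_apply]

theorem DDF_eul_Vv {k : Type} [CommRing k] (i : Fin 3) : eul (Vv i : P6 k) = Xx i := by
  simp [eul, Vv, pderiv_X, Pi.single_apply]

theorem DDF_eul_lam {k : Type} [CommRing k] (i : Fin 3) : eul (lam i : P6 k) = 0 := by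
  rw [lam, DDF_eul_sub, DDF_eul_mul, DDF_eul_mul]
  simp only [DDF_eul_Xx, DDF_eul_Vv]
  ring

theorem DDF_eul_ofNat {k : Type} [CommRing k] : eul (4 : P6 k) = 0 := by
  have : (4 : P6 k) = C 4 := (map_ofNat C 4).symm
  rw [this]
  simp [eul]

theorem DDF_eul_Kh {k : Type} [CommRing k] : eul (V1.Kh : P6 k) = 0 := by
  simp only [V1.Kh, DDF_eul_add, DDF_eul_mul, DDF_eul_lam, DDF_eul_ofNat]
  ring

theorem DDF_Kh_ne {k : Type} [Field k] [CharZero k] : (V1.Kh : P6 k) ≠ 0 := by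
  intro h
  have := congrArg (eval (Sum.elim ![1, 0, 0] ![0, 1, 1])) h
  simp [V1.Kh, lam, Xx, Vv] at this

theorem DDF_Bihom_zero {k : Type} [CommRing k] (d m : ℕ) : Bihom d m (0 : P6 k) := by
  intro s hs
  simp at hs

theorem DDF_desc (hBQ : Stmt_BQ) (hB22 : ∀ (k : Type) [CommRing k], Bihom 2 2 (V1.Kh : P6 k)) (hb : V1.Stmt_V1b)
    (hc : V1.Stmt_V1c) (hE : V1.Stmt_END) {k : Type} [Field k] [CharZero k] (n : Fin 5 → ℕ) (c : k) :
    ∀ (r : ℕ) (Q : P6 k), Bihom (4 + ∑ i, n i + 2 * r) (2 + 2 * r) Q → eul Q = 0 →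
      Q ∈ V1.I 0 (4 + 3 * n 0 + 2 * r) → Q ∈ V1.I 1 (4 + 3 * n 1 + 2 * r) → Q ∈ V1.I 2 (4 + 3 * n 2 + 2 * r) →
      Q ∈ V1.I 4 (2 + 3 * n 4 + 2 * r) →
      Q - C c * ((∏ i, V1.UU i ^ n i) * V1.Kh ^ r * V1.Sh) ∈ V1.I 3 (2 + 3 * n 3 + 2 * r) → c = 0 := by
  intro r
  induction r with
  | zero =>
    intro Q hB _ h0 h1 h2 h4 h3
    refine hE k _ n c Q 0 (by simpa using hB) le_rfl (by simpa using h0) (by simpa using h1) (by simpa using h2)
      (by simpa using h4) ?_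
    simpa using h3
  | succ r ih =>
    intro Q hB he h0 h1 h2 h4 h3
    have hdvd : V1.Kh ∣ Q := by
      refine hb k _ (2 + 2 * (r + 1)) ![4 + 3 * n 0 + 2 * (r + 1), 4 + 3 * n 1 + 2 * (r + 1), 4 + 3 * n 2 + 2 * (r + 1),
        2 + 3 * n 3 + 2 * (r + 1), 2 + 3 * n 4 + 2 * (r + 1)] Q
        ![0, 0, 0, C c * ((∏ i, V1.UU i ^ n i) * V1.Kh ^ r * V1.Sh), 0] (by omega) hB he ?_ ?_
      · intro i
        fin_cases i
        · simpa using h0
        · simpa using h1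
        · simpa using h2
        · have : V1.Kh * (C c * ((∏ i, V1.UU i ^ n i) * V1.Kh ^ r * V1.Sh)) =
            C c * ((∏ i, V1.UU i ^ n i) * V1.Kh ^ (r + 1) * V1.Sh) := by ring
          simpa [this] using h3
        · simpa using h4
      · simp only [Fin.sum_univ_five, Matrix.cons_val, Fin.isValue]
        omega
    obtain ⟨Q', rfl⟩ := hdvd
    have he' : eul Q' = 0 := by
      rw [DDF_eul_mul, DDF_eul_Kh, mul_zero, add_zero] at he
      exact (mul_eq_zero.mp he).resolve_left DDF_Kh_ne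
    have hB' : Bihom (4 + ∑ i, n i + 2 * r) (2 + 2 * r) Q' := by
      by_cases hQ : Q' = 0
      · rw [hQ]
        exact DDF_Bihom_zero _ _
      · have := (hBQ k 2 2 _ _ V1.Kh Q' DDF_Kh_ne hQ (hB22 k) hB).2.2
        have e1 : 4 + ∑ i, n i + 2 * (r + 1) - 2 = 4 + ∑ i, n i + 2 * r := by omega
        have e2 : 2 + 2 * (r + 1) - 2 = 2 + 2 * r := by omega
        rwa [e1, e2] at this
    refine ih Q' hB' he' ?_ ?_ ?_ ?_ ?_
    · have := hc k 0 _ Q' h0
      have e1 : 4 + 3 * n 0 + 2 * (r + 1) - 2 = 4 + 3 * n 0 + 2 * r := by omega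
      rwa [e1] at this
    · have := hc k 1 _ Q' h1
      have e1 : 4 + 3 * n 1 + 2 * (r + 1) - 2 = 4 + 3 * n 1 + 2 * r := by omega
      rwa [e1] at this
    · have := hc k 2 _ Q' h2
      have e1 : 4 + 3 * n 2 + 2 * (r + 1) - 2 = 4 + 3 * n 2 + 2 * r := by omega
      rwa [e1] at this
    · have := hc k 4 _ Q' h4
      have e1 : 2 + 3 * n 4 + 2 * (r + 1) - 2 = 2 + 3 * n 4 + 2 * r := by omega
      rwa [e1] at this
    · have e0 : V1.Kh * Q' - C c * ((∏ i, V1.UU i ^ n i) * V1.Kh ^ (r + 1) * V1.Sh) =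
          V1.Kh * (Q' - C c * ((∏ i, V1.UU i ^ n i) * V1.Kh ^ r * V1.Sh)) := by ring
      rw [e0] at h3
      have := hc k 3 _ _ h3
      have e1 : 2 + 3 * n 3 + 2 * (r + 1) - 2 = 2 + 3 * n 3 + 2 * r := by omega
      rwa [e1] at this

theorem DDF_Bihom_pow (hmul : ∀ (k : Type) [CommRing k] (d m d' m' : ℕ) (P Q : P6 k), Bihom d m P → Bihom d' m' Q →
    Bihom (d + d') (m + m') (P * Q)) {k : Type} [CommRing k] {d m : ℕ} {P : P6 k} (h : Bihom d m P) (n : ℕ) :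
    Bihom (n * d) (n * m) (P ^ n) := by
  induction n with
  | zero =>
    intro s hs
    rw [pow_zero, ← C_1, mem_support_iff, coeff_C] at hs
    split_ifs at hs with h0
    · subst h0
      simp
    · exact absurd rfl hs
  | succ n ih =>
    rw [pow_succ, Nat.succ_mul, Nat.succ_mul]
    exact hmul k _ _ _ _ _ _ ih h

theorem DDF_Kh_bihom (hmul : ∀ (k : Type) [CommRing k] (d m d' m' : ℕ) (P Q : P6 k), Bihom d m P → Bihom d' m' Q →
    Bihom (d + d') (m + m') (P * Q)) (k : Type) [CommRing k] : Bihom 2 2 (V1.Kh : P6 k) := by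
  have hX : ∀ i, Bihom 1 0 (Xx i : P6 k) := by
    intro i s hs
    rw [Xx, mem_support_iff, coeff_X'] at hs
    split_ifs at hs with h0
    · subst h0
      simp [Finsupp.single_apply]
    · exact absurd rfl hs
  have hV : ∀ i, Bihom 0 1 (Vv i : P6 k) := by
    intro i s hs
    rw [Vv, mem_support_iff, coeff_X'] at hs
    split_ifs at hs with h0
    · subst h0
      simp [Finsupp.single_apply]
    · exact absurd rfl hs
  have hadd : ∀ (d m : ℕ) (P Q : P6 k), Bihom d m P → Bihom d m Q → Bihom d m (P + Q) := by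
    intro d m P Q hP hQ s hs
    rcases Finset.mem_union.mp (support_add hs) with h | h
    · exact hP s h
    · exact hQ s h
  have hsub : ∀ (d m : ℕ) (P Q : P6 k), Bihom d m P → Bihom d m Q → Bihom d m (P - Q) := by
    intro d m P Q hP hQ s hs
    rcases Finset.mem_union.mp (support_sub _ _ _ hs) with h | h
    · exact hP s h
    · exact hQ s h
  have hC : ∀ c : k, Bihom 0 0 (C c : P6 k) := by
    intro c s hs
    rw [mem_support_iff, coeff_C] at hs
    split_ifs at hs with h0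
    · subst h0
      simp
    · exact absurd rfl hs
  have hlam : ∀ i, Bihom 1 1 (lam i : P6 k) := by
    intro i
    exact hsub _ _ _ _ (hmul k _ _ _ _ _ _ (hX _) (hV _)) (hmul k _ _ _ _ _ _ (hX _) (hV _))
  have h4 : (4 : P6 k) = C 4 := (map_ofNat C 4).symm
  rw [V1.Kh, h4]
  refine hadd _ _ _ _ (hadd _ _ _ _ (hmul k _ _ _ _ _ _ (hlam _) (hlam _)) (hmul k _ _ _ _ _ _ (hlam _) (hlam _))) ?_
  exact hmul k 0 0 2 2 _ _ (hC 4) (hmul k _ _ _ _ _ _ (hlam _) (hlam _))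

theorem DDF_comp (h1 : Stmt_DQ1) (h3 : Stmt_DQ3) {k : Type} [Field k] (n j j' : ℕ)
    (hB : LeV (2 * n + 2) (aP 0 ^ j * bP ^ j' * KP ^ n * S1P : P6 k)) :
    Qc (2 * n + 2) (fun _ => ⟨(2 * n) % 3, Nat.mod_lt _ (by norm_num)⟩) (aP 0 ^ j * bP ^ j' * KP ^ n * S1P : P6 k) =
      X3 ^ ((2 * n) / 3) * V1.UU 3 ^ j * V1.UU 4 ^ j' * V1.Kh ^ n * V1.Sh := by
  classical
  set e : Fin 3 → Fin 3 := fun _ => ⟨(2 * n) % 3, Nat.mod_lt _ (by norm_num)⟩ with he
  set B : P6 k := aP 0 ^ j * bP ^ j' * KP ^ n * S1P with hBdef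
  set Z : P6 k := X3 ^ ((2 * n) / 3) * V1.UU 3 ^ j * V1.UU 4 ^ j' * V1.Kh ^ n * V1.Sh with hZ
  have hsub : xe e * subH Z = X3 ^ (2 * (2 * n + 2)) * B := by
    have hX3 : subH (X3 : P6 k) = X3 ^ 3 := by
      simp only [X3, map_mul, subH_Xx]
      ring
    rw [he, xe_const, hZ, hBdef]
    simp only [map_mul, map_pow, subH_U3, subH_U4, subH_Kh, subH_Sh, hX3]
    have h2m : 2 * (2 * n + 2) = (2 * n) % 3 + 3 * ((2 * n) / 3) + 2 * n + 4 := by omega
    rw [h2m]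
    ring
  have hG := h3 k (fun e' => Qc (2 * n + 2) e' B - if e' = e then Z else 0) (by
    have : ∀ e' : Fin 3 → Fin 3, xe e' * subH (Qc (2 * n + 2) e' B - if e' = e then Z else 0) =
        xe e' * subH (Qc (2 * n + 2) e' B) - if e' = e then xe e * subH Z else 0 := by
      intro e'
      split_ifs with h
      · rw [h, map_sub, mul_sub]
      · rw [sub_zero, sub_zero]
    rw [Finset.sum_congr rfl fun e' _ => this e', Finset.sum_sub_distrib, ← h1 k _ B hB, Finset.sum_ite_eq' Finset.univ e]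
    simp [hsub]) e
  simpa [sub_eq_zero] using hG

theorem p_DDF (h1 : Stmt_DQ1) (h3 : Stmt_DQ3) (h4 : Stmt_DQ4) (h5 : Stmt_DQ5) (h7 : Stmt_DQ7) (h8 : Stmt_DQ8) (hBQ : Stmt_BQ)
    (hBIH : Stmt_BIH) : Stmt_DDF := by
  intro hb hc hE k _ _ n j j' c T hc0 hB he hMb hMa
  apply hc0
  have hmul : ∀ (k : Type) [CommRing k] (d m d' m' : ℕ) (P Q : P6 k), Bihom d m P → Bihom d' m' Q →
      Bihom (d + d') (m + m') (P * Q) := fun k _ => (hBIH k).2.2.1
  obtain ⟨⟨hKP, hS1, haP, hbP, _⟩, -, -, -⟩ := hBIH k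
  have hBB : Bihom (4 * n + 4 + 3 * j + 3 * j') (2 * n + 2) (aP 0 ^ j * bP ^ j' * KP ^ n * S1P : P6 k) := by
    have := hmul k _ _ _ _ _ _ (hmul k _ _ _ _ _ _ (hmul k _ _ _ _ _ _ (DDF_Bihom_pow hmul (haP 0) j)
      (DDF_Bihom_pow hmul hbP j')) (DDF_Bihom_pow hmul hKP n)) hS1
    have e1 : j * 3 + j' * 3 + n * 4 + 4 = 4 * n + 4 + 3 * j + 3 * j' := by ring
    have e2 : j * 0 + j' * 0 + n * 2 + 2 = 2 * n + 2 := by ring
    rwa [e1, e2] at this
  set e : Fin 3 → Fin 3 := fun _ => ⟨(2 * n) % 3, Nat.mod_lt _ (by norm_num)⟩ with hedef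
  have heval : ∀ i, (e i : ℕ) = (2 * n) % 3 := fun i => rfl
  have hB' : HomV (2 * n + 2) (T - C c * (aP 0 ^ j * bP ^ j' * KP ^ n * S1P)) := by
    intro s hs
    rcases Finset.mem_union.mp (support_sub _ _ _ hs) with h | h
    · exact (hB s h).2
    · refine (hBB s ?_).2
      rw [mem_support_iff, coeff_C_mul] at h
      exact mem_support_iff.mpr (right_ne_zero_of_mul h)
  have hBQc : Bihom (4 + ∑ i, (![(2 * n) / 3, (2 * n) / 3, (2 * n) / 3, j, j'] : Fin 5 → ℕ) i + 2 * n) (2 + 2 * n)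
      (Qc (2 * n + 2) e T) := by
    intro s hs
    have := h7 k _ _ T hB e s hs
    simp only [heval, Finset.sum_const, Finset.card_univ, Fintype.card_fin, smul_eq_mul] at this
    simp only [Fin.sum_univ_five, Matrix.cons_val, Fin.isValue]
    omega
  have hmem : ∀ i : Fin 3, Qc (2 * n + 2) e T ∈ Ideal.span {q : P6 k | ∃ j l : ℕ, 2 * (2 * n + 2) - (e i : ℕ) ≤ 3 * j + 2 * l ∧
      q = Xx i ^ j * Vv i ^ l} := h4 k _ T hB.homV.leV e
  have hw : 2 * (2 * n + 2) - (2 * n) % 3 = 4 + 3 * ((2 * n) / 3) + 2 * n := by omega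
  refine DDF_desc hBQ (DDF_Kh_bihom hmul) hb hc hE ![(2 * n) / 3, (2 * n) / 3, (2 * n) / 3, j, j'] c n (Qc (2 * n + 2) e T)
    hBQc (h8 k _ T hB.homV he e) ?_ ?_ ?_ ?_ ?_
  · have := hmem 0
    rw [heval 0, hw] at this
    exact this
  · have := hmem 1
    rw [heval 1, hw] at this
    exact this
  · have := hmem 2
    rw [heval 2, hw] at this
    exact this
  · have := (h5 k (2 * n + 2) (2 * n + 2 + 3 * j') T hB.homV e).2 hMb
    rw [IL_b] at this
    have e1 : 2 * n + 2 + 3 * j' = 2 + 3 * j' + 2 * n := by ring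
    rw [e1] at this
    exact this
  · have := (h5 k (2 * n + 2) (2 * n + 2 + 3 * j) _ hB' e).1 hMa
    rw [IL_a, map_sub, ← smul_eq_C_mul, map_smul, smul_eq_C_mul, hedef, DDF_comp h1 h3 n j j' hBB.homV.leV] at this
    have e1 : 2 * n + 2 + 3 * j = 2 + 3 * j + 2 * n := by ring
    have e2 : (X3 ^ ((2 * n) / 3) * V1.UU 3 ^ j * V1.UU 4 ^ j' * V1.Kh ^ n * V1.Sh : P6 k) =
        (∏ i, V1.UU i ^ ((![(2 * n) / 3, (2 * n) / 3, (2 * n) / 3, j, j'] : Fin 5 → ℕ) i)) * V1.Kh ^ n * V1.Sh := by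
      have hU0 : (V1.UU 0 : P6 k) = Xx 0 := rfl
      have hU1 : (V1.UU 1 : P6 k) = Xx 1 := rfl
      have hU2 : (V1.UU 2 : P6 k) = Xx 2 := rfl
      simp only [Fin.prod_univ_five, Matrix.cons_val, Fin.isValue, hU0, hU1, hU2, X3]
      ring
    rw [e1, e2] at this
    exact this

end Pool.CX
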