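import Pool.Agent.Work.MP_bf99ce_cx.DefsD

/-!
# THEOREM CX, part V0, block DQ1: the decomposition
-/

set_option autoImplicit false

noncomputable section

open MvPolynomial

namespace Pool.CX

theorem DQ1_monomial {k : Type} [CommRing k] (s : Fin 3 ⊕ Fin 3 →₀ ℕ) :
    (monomial s (1 : k) : P6 k) = ∏ i : Fin 3, (Xx i ^ s (Sum.inl i) * Vv i ^ s (Sum.inr i)) := by
  rw [MvPolynomial.monomial_eq, C_1, one_mul, Finsupp.prod_fintype _ _ (fun i => pow_zero _),
    Fintype.prod_sum_type, Finset.prod_mul_distrib]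
  rfl

theorem DQ1_subH {k : Type} [CommRing k] (s : Fin 3 ⊕ Fin 3 →₀ ℕ) :
    subH (monomial s (1 : k) : P6 k) =
      ∏ i : Fin 3, ((Xx i ^ 3) ^ s (Sum.inl i) * (Xx i ^ 2 * Vv i) ^ s (Sum.inr i)) := by
  rw [subH, aeval_monomial, map_one, one_mul, Finsupp.prod_fintype _ _ (fun i => pow_zero _),
    Fintype.prod_sum_type, Finset.prod_mul_distrib]
  rfl

theorem DQ1_Qc {k : Type} [CommRing k] (m : ℕ) (e : Fin 3 → Fin 3) (s : Fin 3 ⊕ Fin 3 →₀ ℕ)
    (c : k) : Qc m e (monomial s c : P6 k) =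
      if ∀ i, (s (Sum.inl i) + 2 * m - 2 * s (Sum.inr i)) % 3 = (e i : ℕ) then
        c • monomial (expo m s) 1 else 0 := by
  have h1 : (monomial s c : P6 k) = c • basisMonomials (Fin 3 ⊕ Fin 3) k s := by
    rw [coe_basisMonomials, smul_monomial, smul_eq_mul, mul_one]
  rw [h1, map_smul, Qc, Module.Basis.constr_basis]
  split_ifs
  · rfl
  · rw [smul_zero]

theorem DQ1_key {k : Type} [CommRing k] (m : ℕ) (s : Fin 3 ⊕ Fin 3 →₀ ℕ) (c : k)
    (hs : ∀ i : Fin 3, s (Sum.inr i) ≤ m) :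
    X3 ^ (2 * m) * (monomial s c : P6 k) = ∑ e, xe e * subH (Qc m e (monomial s c)) := by
  have hlt : ∀ i : Fin 3, (s (Sum.inl i) + 2 * m - 2 * s (Sum.inr i)) % 3 < 3 := fun i =>
    Nat.mod_lt _ (by norm_num)
  rw [Finset.sum_eq_single
    (fun i => (⟨(s (Sum.inl i) + 2 * m - 2 * s (Sum.inr i)) % 3, hlt i⟩ : Fin 3))]
  · rw [DQ1_Qc, if_pos (fun i => rfl), map_smul, DQ1_subH]
    have h1 : (monomial s c : P6 k) = c • monomial s 1 := by
      rw [smul_monomial, smul_eq_mul, mul_one]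
    rw [h1, DQ1_monomial, mul_smul_comm, mul_smul_comm]
    congr 1
    have h2 : (X3 : P6 k) = ∏ i : Fin 3, Xx i := by
      rw [Fin.prod_univ_three]
      rfl
    rw [h2, xe, ← Finset.prod_pow, ← Finset.prod_mul_distrib, ← Finset.prod_mul_distrib]
    refine Finset.prod_congr rfl fun i _ => ?_
    have h3 : expo m s (Sum.inl i) = (s (Sum.inl i) + 2 * m - 2 * s (Sum.inr i)) / 3 := rfl
    have h4 : expo m s (Sum.inr i) = s (Sum.inr i) := rfl
    rw [h3, h4]
    have h5 := hs i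
    obtain ⟨q, hq⟩ : ∃ q, q = (s (Sum.inl i) + 2 * m - 2 * s (Sum.inr i)) / 3 := ⟨_, rfl⟩
    obtain ⟨r, hr⟩ : ∃ r, r = (s (Sum.inl i) + 2 * m - 2 * s (Sum.inr i)) % 3 := ⟨_, rfl⟩
    have h6 : 2 * m + s (Sum.inl i) = r + 3 * q + 2 * s (Sum.inr i) := by omega
    show Xx i ^ (2 * m) * (Xx i ^ s (Sum.inl i) * Vv i ^ s (Sum.inr i)) =
      Xx i ^ ((s (Sum.inl i) + 2 * m - 2 * s (Sum.inr i)) % 3) *
        ((Xx i ^ 3) ^ ((s (Sum.inl i) + 2 * m - 2 * s (Sum.inr i)) / 3) *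
          (Xx i ^ 2 * Vv i) ^ s (Sum.inr i))
    rw [← hq, ← hr, ← mul_assoc, ← pow_add, h6]
    ring
  · intro e _ he
    rw [DQ1_Qc, if_neg, map_zero, mul_zero]
    intro h
    apply he
    funext i
    exact Fin.ext (h i).symm
  · intro h
    exact absurd (Finset.mem_univ _) h

theorem p_DQ1 : Stmt_DQ1 := by
  intro k _ m P hP
  have h0 := P.support_sum_monomial_coeff
  have h1 : ∀ e, Qc m e P = ∑ s ∈ P.support, Qc m e (monomial s (coeff s P)) := by
    intro e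
    rw [← map_sum, h0]
  calc X3 ^ (2 * m) * P = X3 ^ (2 * m) * ∑ s ∈ P.support, monomial s (coeff s P) := by rw [h0]
    _ = ∑ s ∈ P.support, ∑ e, xe e * subH (Qc m e (monomial s (coeff s P))) := by
        rw [Finset.mul_sum]
        exact Finset.sum_congr rfl fun s hs => DQ1_key m s _ (hP s hs)
    _ = ∑ e, xe e * subH (Qc m e P) := by
        rw [Finset.sum_comm]
        refine Finset.sum_congr rfl fun e _ => ?_
        rw [h1, map_sum, Finset.mul_sum]

end Pool.CX
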