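import Pool.Agent.Work.MP_bf99ce_cx.DefsD

/-! # THEOREM CX, block DQ2: multiplicativity of the components -/

set_option autoImplicit false

noncomputable section

open MvPolynomial

namespace Pool.CX

/-- BLOCK DQ2. -/
theorem p_DQ2 (h1 : Stmt_DQ1) (h3 : Stmt_DQ3) : Stmt_DQ2 := by
  intro k _ m P G hP hPG e
  have e1 := h1 k m P hP
  have e2 := h1 k m (P * subH G) hPG
  have e3 : ∑ e, xe e * subH (Qc m e (P * subH G) - G * Qc m e P) = (0 : P6 k) := by
    have e4 : ∑ e, xe e * subH (Qc m e (P * subH G) - G * Qc m e P) =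
        ∑ e, xe e * subH (Qc m e (P * subH G)) - (∑ e, xe e * subH (Qc m e P)) * subH G := by
      rw [Finset.sum_mul, ← Finset.sum_sub_distrib]
      refine Finset.sum_congr rfl fun e _ => ?_
      rw [map_sub, map_mul subH]
      ring
    rw [e4, ← e1, ← e2]
    ring
  exact sub_eq_zero.1 (h3 k (fun e => Qc m e (P * subH G) - G * Qc m e P) e3 e)

end Pool.CX
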