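import Pool.Agent.Work.MP_bf99ce_cx.DefsD

/-!
# Block DQ3: uniqueness of the decomposition
-/

set_option autoImplicit false

noncomputable section

open MvPolynomial

namespace Pool.CX

/-- the exponent of the image of a monomial under `xe e * subH` -/
def DQ3_emb (e : Fin 3 → Fin 3) (s : Fin 3 ⊕ Fin 3 →₀ ℕ) : Fin 3 ⊕ Fin 3 →₀ ℕ :=
  Finsupp.equivFunOnFinite.symm
    (Sum.elim (fun i => (e i : ℕ) + 3 * s (Sum.inl i) + 2 * s (Sum.inr i))
      (fun i => s (Sum.inr i)))

theorem DQ3_inl (e : Fin 3 → Fin 3) (s : Fin 3 ⊕ Fin 3 →₀ ℕ) (i : Fin 3) :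
    DQ3_emb e s (Sum.inl i) = (e i : ℕ) + 3 * s (Sum.inl i) + 2 * s (Sum.inr i) := rfl

theorem DQ3_inr (e : Fin 3 → Fin 3) (s : Fin 3 ⊕ Fin 3 →₀ ℕ) (i : Fin 3) :
    DQ3_emb e s (Sum.inr i) = s (Sum.inr i) := rfl

theorem DQ3_inj (e e' : Fin 3 → Fin 3) (s s' : Fin 3 ⊕ Fin 3 →₀ ℕ)
    (h : DQ3_emb e s = DQ3_emb e' s') : e = e' ∧ s = s' := by
  have h1 : ∀ i, s (Sum.inr i) = s' (Sum.inr i) := fun i => by
    have := DFunLike.congr_fun h (Sum.inr i)
    rwa [DQ3_inr, DQ3_inr] at this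
  have h2 : ∀ i, (e i : ℕ) + 3 * s (Sum.inl i) = (e' i : ℕ) + 3 * s' (Sum.inl i) := fun i => by
    have := DFunLike.congr_fun h (Sum.inl i)
    rw [DQ3_inl, DQ3_inl, h1 i] at this
    omega
  constructor
  · funext i
    apply Fin.ext
    have := h2 i
    have h3 := (e i).2
    have h4 := (e' i).2
    omega
  · ext i
    rcases i with i | i
    · have := h2 i
      have h3 := (e i).2
      have h4 := (e' i).2
      omega
    · exact h1 i

theorem DQ3_mon {k : Type} [CommRing k] (e : Fin 3 → Fin 3) (s : Fin 3 ⊕ Fin 3 →₀ ℕ) (c : k) :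
    xe e * subH (monomial s c : P6 k) = monomial (DQ3_emb e s) c := by
  rw [subH, aeval_monomial, monomial_eq, Finsupp.prod_fintype _ _ (fun _ => pow_zero _),
    Finsupp.prod_fintype _ _ (fun _ => pow_zero _), Fintype.prod_sum_type, Fintype.prod_sum_type]
  simp only [DQ3_inl, DQ3_inr, Sum.elim_inl, Sum.elim_inr, xe, Fin.prod_univ_three,
    algebraMap_eq]
  simp only [Xx, Vv]
  ring

theorem DQ3_coeff {k : Type} [CommRing k] (e e' : Fin 3 → Fin 3) (s' : Fin 3 ⊕ Fin 3 →₀ ℕ)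
    (G : P6 k) :
    coeff (DQ3_emb e' s') (xe e * subH G) = if e = e' then coeff s' G else 0 := by
  classical
  induction G using MvPolynomial.induction_on' with
  | monomial u a =>
    rw [DQ3_mon, coeff_monomial, coeff_monomial]
    by_cases h : DQ3_emb e u = DQ3_emb e' s'
    · obtain ⟨h1, h2⟩ := DQ3_inj _ _ _ _ h
      rw [if_pos h, if_pos h1, if_pos h2]
    · rw [if_neg h]
      by_cases h1 : e = e'
      · rw [if_pos h1, if_neg]
        rintro rfl
        exact h (by rw [h1])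
      · rw [if_neg h1]
  | add p q hp hq =>
    rw [map_add, mul_add, coeff_add, hp, hq, coeff_add]
    split_ifs
    · rfl
    · rw [add_zero]

theorem p_DQ3 : Stmt_DQ3 := by
  intro k _ G hG e
  ext s
  have h := congrArg (coeff (DQ3_emb e s)) hG
  rw [coeff_sum, coeff_zero] at h
  simp only [DQ3_coeff, Finset.sum_ite_eq', Finset.mem_univ, if_true] at h
  rw [h, coeff_zero]

end Pool.CX
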