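import Pool.Agent.Work.MP_bf99ce_cx.DefsD

/-!
# Block DQ4: the conditions at the three coordinate lines
-/

set_option autoImplicit false

noncomputable section

open MvPolynomial

namespace Pool.CX

theorem DQ4_mono {k : Type} [CommRing k] (i : Fin 3) (j l : ℕ) :
    (Xx i ^ j * Vv i ^ l : P6 k) = monomial (Finsupp.single (Sum.inl i) j + Finsupp.single (Sum.inr i) l) 1 := by
  unfold Xx Vv
  rw [X_pow_eq_monomial, X_pow_eq_monomial, monomial_mul, one_mul]

theorem DQ4_term {k : Type} [CommRing k] (m : ℕ) (s : Fin 3 ⊕ Fin 3 →₀ ℕ) (hs : ∀ i : Fin 3, s (Sum.inr i) ≤ m)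
    (e : Fin 3 → Fin 3) (i : Fin 3)
    (hc : ∀ i, (s (Sum.inl i) + 2 * m - 2 * s (Sum.inr i)) % 3 = (e i : ℕ)) :
    (monomial (expo m s) (1 : k)) ∈
      Ideal.span {q : P6 k | ∃ j l : ℕ, 2 * m - (e i : ℕ) ≤ 3 * j + 2 * l ∧ q = Xx i ^ j * Vv i ^ l} := by
  set j : ℕ := (s (Sum.inl i) + 2 * m - 2 * s (Sum.inr i)) / 3 with hj
  set l : ℕ := s (Sum.inr i) with hl
  set u : Fin 3 ⊕ Fin 3 →₀ ℕ := Finsupp.single (Sum.inl i) j + Finsupp.single (Sum.inr i) l with hu
  have hle : u ≤ expo m s := by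
    intro a
    rcases a with a | a
    · by_cases ha : a = i
      · subst ha
        simp [hu, expo, hj, hl]
      · have h1 : (Sum.inl i : Fin 3 ⊕ Fin 3) ≠ Sum.inl a := by
          intro h; exact ha (Sum.inl.inj h).symm
        simp [hu, h1]
    · by_cases ha : a = i
      · subst ha
        simp [hu, expo, hl]
      · have h1 : (Sum.inr i : Fin 3 ⊕ Fin 3) ≠ Sum.inr a := by
          intro h; exact ha (Sum.inr.inj h).symm
        simp [hu, h1]
  have h1 : monomial (expo m s) (1 : k) = monomial (expo m s - u) 1 * (Xx i ^ j * Vv i ^ l) := by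
    rw [DQ4_mono, monomial_mul, one_mul, ← hu, tsub_add_cancel_of_le hle]
  rw [h1]
  apply Ideal.mul_mem_left
  apply Ideal.subset_span
  refine ⟨j, l, ?_, rfl⟩
  have h2 := hc i
  have h3 := hs i
  rw [← hl] at h2 h3
  omega

theorem p_DQ4 : Stmt_DQ4 := by
  intro k _ m P hP e i
  rw [P.as_sum, map_sum]
  apply Ideal.sum_mem
  intro s hs
  have h1 : (monomial s (coeff s P) : P6 k) = coeff s P • (basisMonomials (Fin 3 ⊕ Fin 3) k s) := by
    rw [coe_basisMonomials, smul_monomial, smul_eq_mul, mul_one]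
  rw [h1, map_smul]
  unfold Qc
  rw [Module.Basis.constr_basis]
  split_ifs with hc
  · rw [smul_eq_C_mul]
    apply Ideal.mul_mem_left
    exact DQ4_term m s (hP s hs) e i hc
  · rw [smul_zero]
    exact Ideal.zero_mem _

end Pool.CX
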