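import Pool.Agent.Work.MP_bf99ce_cx.DefsD

/-! # THEOREM CX, block DQ5: the conditions at the two curves -/

set_option autoImplicit false

noncomputable section

open MvPolynomial

namespace Pool.CX

/-- The weights: `x_i` has weight `0`, `v_i` has weight `1`. -/
def DQ5_wt : Fin 3 ⊕ Fin 3 → ℕ := Sum.elim (fun _ => 0) (fun _ => 1)

theorem DQ5_weight (s : Fin 3 ⊕ Fin 3 →₀ ℕ) : Finsupp.weight DQ5_wt s = ∑ i : Fin 3, s (Sum.inr i) := by
  rw [Finsupp.weight_apply, Finsupp.sum_fintype _ _ (fun i => by simp), Fintype.sum_sum_type]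
  simp [DQ5_wt]

theorem DQ5_iff {k : Type} [CommRing k] (m : ℕ) (P : P6 k) : HomV m P ↔ IsWeightedHomogeneous DQ5_wt P m := by
  constructor
  · intro h s hs
    rw [DQ5_weight]
    exact h s (mem_support_iff.mpr hs)
  · intro h s hs
    rw [← DQ5_weight]
    exact h (mem_support_iff.mp hs)

theorem DQ5_le {k : Type} [CommRing k] {m n : ℕ} {P : P6 k} (h : HomV m P) (hmn : m ≤ n) : LeV n P := by
  intro s hs i
  have h1 := h s hs
  have h2 : s (Sum.inr i) ≤ ∑ j : Fin 3, s (Sum.inr j) :=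
    Finset.single_le_sum (f := fun j : Fin 3 => s (Sum.inr j)) (fun j _ => Nat.zero_le _) (Finset.mem_univ i)
  omega

theorem DQ5_Xx {k : Type} [CommRing k] (i : Fin 3) : IsWeightedHomogeneous DQ5_wt (Xx i : P6 k) 0 := by
  have := isWeightedHomogeneous_X k DQ5_wt (Sum.inl i : Fin 3 ⊕ Fin 3)
  simpa [Xx, DQ5_wt] using this

theorem DQ5_Vv {k : Type} [CommRing k] (i : Fin 3) : IsWeightedHomogeneous DQ5_wt (Vv i : P6 k) 1 := by
  have := isWeightedHomogeneous_X k DQ5_wt (Sum.inr i : Fin 3 ⊕ Fin 3)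
  simpa [Vv, DQ5_wt] using this

theorem DQ5_X3 {k : Type} [CommRing k] : IsWeightedHomogeneous DQ5_wt (X3 : P6 k) 0 := by
  have := ((DQ5_Xx (k := k) 0).mul (DQ5_Xx 1)).mul (DQ5_Xx 2)
  simpa [X3] using this

theorem DQ5_pow0 {k : Type} [CommRing k] {P : P6 k} (h : IsWeightedHomogeneous DQ5_wt P 0) (n : ℕ) :
    IsWeightedHomogeneous DQ5_wt (P ^ n) 0 := by
  have := h.pow n
  simpa using this

theorem DQ5_subX {k : Type} [CommRing k] (i : Fin 3) : subH (Xx i : P6 k) = Xx i ^ 3 := by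
  simp [subH, Xx]

theorem DQ5_subV {k : Type} [CommRing k] (i : Fin 3) : subH (Vv i : P6 k) = Xx i ^ 2 * Vv i := by
  simp [subH, Vv]

theorem DQ5_subC {k : Type} [CommRing k] (c : k) : subH (C c : P6 k) = C c := by
  rw [subH, aeval_C]
  rfl

theorem DQ5_subX3 {k : Type} [CommRing k] (N : ℕ) : subH ((X3 : P6 k) ^ N) = X3 ^ (3 * N) := by
  rw [map_pow, X3, map_mul, map_mul, DQ5_subX, DQ5_subX, DQ5_subX, ← mul_pow, ← mul_pow, ← pow_mul]

theorem DQ5_subL {k : Type} [CommRing k] (c0 c1 c2 : k) :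
    subH (Lc c0 c1 c2) = C c0 * Xx 0 ^ 3 + C c1 * Xx 1 ^ 3 + C c2 * Xx 2 ^ 3 := by
  simp only [Lc, map_add, map_mul, DQ5_subX, DQ5_subC]

theorem DQ5_subY {k : Type} [CommRing k] (c0 c1 c2 : k) :
    subH (3 * Ly c0 c1 c2) = C 3 * (C c0 * (Xx 0 ^ 2 * Vv 0) + C c1 * (Xx 1 ^ 2 * Vv 1) + C c2 * (Xx 2 ^ 2 * Vv 2)) := by
  rw [show (3 : P6 k) = C 3 from (map_ofNat C 3).symm]
  simp only [Ly, map_add, map_mul, DQ5_subV, DQ5_subC]

theorem DQ5_homL {k : Type} [CommRing k] (c0 c1 c2 : k) : IsWeightedHomogeneous DQ5_wt (subH (Lc c0 c1 c2)) 0 := by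
  rw [DQ5_subL]
  have h (c : k) (i : Fin 3) : IsWeightedHomogeneous DQ5_wt (C c * Xx i ^ 3 : P6 k) 0 := by
    simpa using (isWeightedHomogeneous_C DQ5_wt c).mul (DQ5_pow0 (DQ5_Xx (k := k) i) 3)
  exact ((h c0 0).add (h c1 1)).add (h c2 2)

theorem DQ5_homY {k : Type} [CommRing k] (c0 c1 c2 : k) : IsWeightedHomogeneous DQ5_wt (subH (3 * Ly c0 c1 c2)) 1 := by
  rw [DQ5_subY]
  have h (c : k) (i : Fin 3) : IsWeightedHomogeneous DQ5_wt (C c * (Xx i ^ 2 * Vv i) : P6 k) 1 := by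
    simpa using (isWeightedHomogeneous_C DQ5_wt c).mul ((DQ5_pow0 (DQ5_Xx (k := k) i) 2).mul (DQ5_Vv i))
  have h3 := (isWeightedHomogeneous_C DQ5_wt (3 : k)).mul (((h c0 0).add (h c1 1)).add (h c2 2))
  simpa only [zero_add] using h3

theorem DQ5_cancel (h6 : Stmt_DQ6) {k : Type} [Field k] (c0 c1 c2 : k) (w : ℕ) (h0 : c0 ≠ 0) (h1 : c1 ≠ 0) (h2 : c2 ≠ 0)
    (N : ℕ) (Z : P6 k) (h : X3 ^ N * Z ∈ IL c0 c1 c2 w) : Z ∈ IL c0 c1 c2 w := by
  induction N with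
  | zero => simpa using h
  | succ n ih =>
    refine ih (h6 k c0 c1 c2 w _ h0 h1 h2 ?_)
    rwa [← mul_assoc, ← pow_succ']

theorem DQ5_key (h2 : Stmt_DQ2) (hV : Stmt_DQV) (h6 : Stmt_DQ6) {k : Type} [Field k] (c0 c1 c2 : k) (hc0 : c0 ≠ 0)
    (hc1 : c1 ≠ 0) (hc2 : c2 ≠ 0) (p : P6 k) (hp : p = subH (Lc c0 c1 c2)) (hdp : dv p = subH (3 * Ly c0 c1 c2))
    (m w : ℕ) (P : P6 k) (hP : HomV m P) (e : Fin 3 → Fin 3) (h : Mem p w P) : Qc m e P ∈ IL c0 c1 c2 w := by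
  obtain ⟨N, hN⟩ := h
  have hF : P * subH (X3 ^ N) ∈ Iw p w := by
    have := Ideal.mul_mem_left _ (X3 ^ (2 * N)) hN
    rw [← mul_assoc, ← pow_add, show 2 * N + N = 3 * N by ring] at this
    rwa [DQ5_subX3, mul_comm]
  have hFm : HomV m (P * subH (X3 ^ N)) := by
    rw [DQ5_iff, DQ5_subX3]
    simpa using ((DQ5_iff m P).mp hP).mul (DQ5_pow0 (DQ5_X3 (k := k)) (3 * N))
  have hp0 : IsWeightedHomogeneous DQ5_wt p 0 := by rw [hp]; exact DQ5_homL c0 c1 c2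
  have hd1 : IsWeightedHomogeneous DQ5_wt (dv p) 1 := by rw [hdp]; exact DQ5_homY c0 c1 c2
  have hcl := hV k p m w _ ((DQ5_iff 0 p).mpr hp0) hFm hF
  have hle : AddSubgroup.closure {q : P6 k | ∃ (f : P6 k) (j l : ℕ), w ≤ 3 * j + 2 * l ∧ l ≤ m ∧ HomV (m - l) f ∧
      q = f * (p ^ j * dv p ^ l)} ≤ (IL c0 c1 c2 w).toAddSubgroup.comap (Qc (k := k) m e).toAddMonoidHom := by
    rw [AddSubgroup.closure_le]
    rintro q ⟨f, j, l, hw, hl, hf, rfl⟩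
    have hq : f * (p ^ j * dv p ^ l) = f * subH (Lc c0 c1 c2 ^ j * (3 * Ly c0 c1 c2) ^ l) := by
      rw [map_mul, map_pow, map_pow, ← hp, ← hdp]
    have hfm : IsWeightedHomogeneous DQ5_wt (f * (p ^ j * dv p ^ l)) m := by
      have h3 := ((DQ5_iff _ _).mp hf).mul ((DQ5_pow0 hp0 j).mul (hd1.pow l))
      have h4 : m - l + (0 + l • 1) = m := by
        simp
        omega
      rwa [h4] at h3
    have h5 := h2 k m f (Lc c0 c1 c2 ^ j * (3 * Ly c0 c1 c2) ^ l) (DQ5_le hf (Nat.sub_le m l))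
      (by rw [← hq]; exact DQ5_le ((DQ5_iff _ _).mpr hfm) le_rfl) e
    change Qc m e (f * (p ^ j * dv p ^ l)) ∈ IL c0 c1 c2 w
    rw [hq, h5, show Lc c0 c1 c2 ^ j * (3 * Ly c0 c1 c2) ^ l * Qc m e f =
      (3 ^ l * Qc m e f) * (Lc c0 c1 c2 ^ j * Ly c0 c1 c2 ^ l) by rw [mul_pow]; ring]
    exact Ideal.mul_mem_left _ _ (Ideal.subset_span ⟨j, l, hw, rfl⟩)
  have hQ : Qc m e (P * subH (X3 ^ N)) ∈ IL c0 c1 c2 w := hle hcl
  rw [h2 k m P (X3 ^ N) (DQ5_le hP le_rfl) (DQ5_le hFm le_rfl) e] at hQ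
  exact DQ5_cancel h6 c0 c1 c2 w hc0 hc1 hc2 N _ hQ

theorem p_DQ5 (h2 : Stmt_DQ2) (hV : Stmt_DQV) (h6 : Stmt_DQ6) : Stmt_DQ5 := by
  intro k _ _ m w P hP e
  have h3 : (3 : k) ≠ 0 := by exact_mod_cast (show (3 : ℕ) ≠ 0 by norm_num)
  refine ⟨fun h => ?_, fun h => ?_⟩
  · refine DQ5_key h2 hV h6 (-3) 3 1 (neg_ne_zero.mpr h3) h3 one_ne_zero (aP 0) ?_ ?_ m w P hP e h
    · rw [DQ5_subL, aP]
      simp only [map_neg, map_ofNat, map_one, map_zero]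
      ring
    · rw [DQ5_subY, dv_aP]
      simp only [map_neg, map_ofNat, map_one, map_zero]
      ring
  · refine DQ5_key h2 hV h6 (-3) 1 3 (neg_ne_zero.mpr h3) one_ne_zero h3 bP ?_ ?_ m w P hP e h
    · rw [DQ5_subL, bP]
      simp only [map_neg, map_ofNat, map_one]
      ring
    · rw [DQ5_subY, dv_bP]
      simp only [map_neg, map_ofNat, map_one]
      ring

end Pool.CX
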