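import Pool.Agent.Work.MP_bf99ce_cx.DefsD

/-! # THEOREM CX, part V0: block DQ6 (the coordinate functions modulo the weight ideals of lines) -/

set_option autoImplicit false

noncomputable section

open MvPolynomial

namespace Pool.CX

variable {k : Type} [Field k]

/-- The linear form with the coefficients `c` in the elements `f`. -/
def DQ6_L (c : Fin 3 → k) (f : Fin 3 → P6 k) : P6 k := ∑ j, C (c j) * f j

/-- The substitution which sends the linear forms to the variables with index `r`. -/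
def DQ6_tau (c : Fin 3 → k) (r : Fin 3) : P6 k →ₐ[k] P6 k :=
  aeval (Sum.elim
    (fun j => if j = r then C (c r)⁻¹ * (Xx r - ∑ j ∈ Finset.univ.erase r, C (c j) * Xx j) else Xx j)
    (fun j => if j = r then C (c r)⁻¹ * (Vv r - ∑ j ∈ Finset.univ.erase r, C (c j) * Vv j) else Vv j))

/-- The inverse substitution. -/
def DQ6_rho (c : Fin 3 → k) (r : Fin 3) : P6 k →ₐ[k] P6 k :=
  aeval (Sum.elim (fun j => if j = r then DQ6_L c Xx else Xx j)
    (fun j => if j = r then DQ6_L c Vv else Vv j))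

theorem DQ6_tx (c : Fin 3 → k) (r j : Fin 3) : DQ6_tau c r (Xx j) =
    if j = r then C (c r)⁻¹ * (Xx r - ∑ j ∈ Finset.univ.erase r, C (c j) * Xx j) else Xx j := by
  exact aeval_X _ (Sum.inl j)

theorem DQ6_tv (c : Fin 3 → k) (r j : Fin 3) : DQ6_tau c r (Vv j) =
    if j = r then C (c r)⁻¹ * (Vv r - ∑ j ∈ Finset.univ.erase r, C (c j) * Vv j) else Vv j := by
  exact aeval_X _ (Sum.inr j)

theorem DQ6_rx (c : Fin 3 → k) (r j : Fin 3) :
    DQ6_rho c r (Xx j) = if j = r then DQ6_L c Xx else Xx j := by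
  exact aeval_X _ (Sum.inl j)

theorem DQ6_rv (c : Fin 3 → k) (r j : Fin 3) :
    DQ6_rho c r (Vv j) = if j = r then DQ6_L c Vv else Vv j := by
  exact aeval_X _ (Sum.inr j)

theorem DQ6_split (c : Fin 3 → k) (r : Fin 3) (f : Fin 3 → P6 k) :
    DQ6_L c f = C (c r) * f r + ∑ j ∈ Finset.univ.erase r, C (c j) * f j :=
  (Finset.add_sum_erase _ _ (Finset.mem_univ r)).symm

theorem DQ6_cc {c : Fin 3 → k} {r : Fin 3} (hc : c r ≠ 0) : (C (c r)⁻¹ * C (c r) : P6 k) = 1 := by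
  rw [← C_mul, inv_mul_cancel₀ hc, C_1]

theorem DQ6_tL {c : Fin 3 → k} {r : Fin 3} (hc : c r ≠ 0) (f : Fin 3 → P6 k)
    (hf : ∀ j, DQ6_tau c r (f j) =
      if j = r then C (c r)⁻¹ * (f r - ∑ j ∈ Finset.univ.erase r, C (c j) * f j) else f j) :
    DQ6_tau c r (DQ6_L c f) = f r := by
  rw [DQ6_split c r, map_add, map_mul, map_sum, hf r, if_pos rfl]
  have h1 : ∑ x ∈ Finset.univ.erase r, DQ6_tau c r (C (c x) * f x) =
      ∑ j ∈ Finset.univ.erase r, C (c j) * f j := by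
    refine Finset.sum_congr rfl fun j hj => ?_
    rw [map_mul, hf j, if_neg (Finset.ne_of_mem_erase hj), algHom_C]
    rfl
  rw [h1, algHom_C]
  have h2 : (algebraMap k (P6 k)) (c r) = C (c r) := rfl
  rw [h2, ← mul_assoc, mul_comm (C (c r) : P6 k), DQ6_cc hc, one_mul, sub_add_cancel]

theorem DQ6_rt {c : Fin 3 → k} {r : Fin 3} (hc : c r ≠ 0) (Z : P6 k) :
    DQ6_rho c r (DQ6_tau c r Z) = Z := by
  have key : ∀ f : Fin 3 → P6 k, (∀ j, DQ6_rho c r (f j) = if j = r then DQ6_L c f else f j) →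
      DQ6_rho c r (C (c r)⁻¹ * (f r - ∑ j ∈ Finset.univ.erase r, C (c j) * f j)) = f r := by
    intro f hf
    rw [map_mul, map_sub, map_sum, hf r, if_pos rfl, algHom_C]
    have h1 : ∑ x ∈ Finset.univ.erase r, DQ6_rho c r (C (c x) * f x) =
        ∑ j ∈ Finset.univ.erase r, C (c j) * f j := by
      refine Finset.sum_congr rfl fun j hj => ?_
      rw [map_mul, hf j, if_neg (Finset.ne_of_mem_erase hj), algHom_C]
      rfl
    rw [h1, DQ6_split c r, add_sub_cancel_right]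
    have h2 : (algebraMap k (P6 k)) (c r)⁻¹ = C (c r)⁻¹ := rfl
    rw [h2, ← mul_assoc, DQ6_cc hc, one_mul]
  have h : (DQ6_rho c r).comp (DQ6_tau c r) = AlgHom.id k (P6 k) := by
    apply MvPolynomial.algHom_ext
    rintro (j | j)
    · change DQ6_rho c r (DQ6_tau c r (Xx j)) = Xx j
      rw [DQ6_tx]
      by_cases hj : j = r
      · subst hj
        rw [if_pos rfl]
        exact key Xx (DQ6_rx c j)
      · rw [if_neg hj, DQ6_rx, if_neg hj]
    · change DQ6_rho c r (DQ6_tau c r (Vv j)) = Vv j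
      rw [DQ6_tv]
      by_cases hj : j = r
      · subst hj
        rw [if_pos rfl]
        exact key Vv (DQ6_rv c j)
      · rw [if_neg hj, DQ6_rv, if_neg hj]
  exact DFunLike.congr_fun h Z

/-- The exponents of the monomial ideal. -/
def DQ6_S (r : Fin 3) (w : ℕ) : Set (Fin 3 ⊕ Fin 3 →₀ ℕ) :=
  {s | ∃ j l : ℕ, w ≤ 3 * j + 2 * l ∧
    s = Finsupp.single (Sum.inl r) j + Finsupp.single (Sum.inr r) l}

/-- The monomial ideal. -/
def DQ6_J (k : Type) [Field k] (r : Fin 3) (w : ℕ) : Ideal (P6 k) :=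
  Ideal.span ((fun s => monomial s (1 : k)) '' DQ6_S r w)

theorem DQ6_mon (r : Fin 3) (j l : ℕ) : (Xx r ^ j * Vv r ^ l : P6 k) =
    monomial (Finsupp.single (Sum.inl r) j + Finsupp.single (Sum.inr r) l) 1 := by
  unfold Xx Vv
  rw [X_pow_eq_monomial, X_pow_eq_monomial, monomial_mul, one_mul]

theorem DQ6_cancel {r i : Fin 3} (hi : i ≠ r) {w : ℕ} {Z : P6 k} (h : Xx i * Z ∈ DQ6_J k r w) :
    Z ∈ DQ6_J k r w := by
  unfold DQ6_J at h ⊢
  rw [mem_ideal_span_monomial_image] at h ⊢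
  intro x hx
  have hx' : Finsupp.single (Sum.inl i) 1 + x ∈ (Xx i * Z : P6 k).support := by
    unfold Xx
    rw [support_X_mul, Finset.mem_map]
    exact ⟨x, hx, rfl⟩
  obtain ⟨s, ⟨j, l, hw, rfl⟩, hs⟩ := h _ hx'
  refine ⟨_, ⟨j, l, hw, rfl⟩, ?_⟩
  intro a
  have ha := hs a
  by_cases h1 : a = Sum.inl i
  · subst h1
    have h2 : (Finsupp.single (Sum.inl r) j + Finsupp.single (Sum.inr r) l :
        Fin 3 ⊕ Fin 3 →₀ ℕ) (Sum.inl i) = 0 := by
      rw [Finsupp.add_apply, Finsupp.single_apply, Finsupp.single_apply,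
        if_neg (fun h => hi (Sum.inl_injective h).symm), if_neg (by simp), add_zero]
    rw [h2]
    exact Nat.zero_le _
  · rw [Finsupp.add_apply (Finsupp.single (Sum.inl i) 1), Finsupp.single_apply,
      if_neg (fun h => h1 h.symm), zero_add] at ha
    exact ha

theorem DQ6_one {c : Fin 3 → k} {c0 c1 c2 : k} (hx : Lc c0 c1 c2 = DQ6_L c Xx)
    (hy : Ly c0 c1 c2 = DQ6_L c Vv) {r i : Fin 3} (hc : c r ≠ 0) (hi : i ≠ r) {w : ℕ} {Z : P6 k}
    (h : Xx i * Z ∈ IL c0 c1 c2 w) : Z ∈ IL c0 c1 c2 w := by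
  have h1 : IL c0 c1 c2 w ≤ (DQ6_J k r w).comap (DQ6_tau c r) := by
    unfold IL
    rw [Ideal.span_le]
    rintro q ⟨j, l, hw, rfl⟩
    change DQ6_tau c r (Lc c0 c1 c2 ^ j * Ly c0 c1 c2 ^ l) ∈ DQ6_J k r w
    rw [map_mul, map_pow, map_pow, hx, hy, DQ6_tL hc Xx (DQ6_tx c r), DQ6_tL hc Vv (DQ6_tv c r),
      DQ6_mon]
    exact Ideal.subset_span ⟨_, ⟨j, l, hw, rfl⟩, rfl⟩
  have h2 : DQ6_J k r w ≤ (IL c0 c1 c2 w).comap (DQ6_rho c r) := by
    unfold DQ6_J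
    rw [Ideal.span_le]
    rintro q ⟨s, ⟨j, l, hw, rfl⟩, rfl⟩
    change DQ6_rho c r (monomial _ 1) ∈ IL c0 c1 c2 w
    rw [← DQ6_mon, map_mul, map_pow, map_pow, DQ6_rx, DQ6_rv, if_pos rfl, if_pos rfl, ← hx, ← hy]
    exact Ideal.subset_span ⟨j, l, hw, rfl⟩
  have h3 : DQ6_tau c r (Xx i * Z) ∈ DQ6_J k r w := h1 h
  rw [map_mul, DQ6_tx, if_neg hi] at h3
  have h4 : DQ6_rho c r (DQ6_tau c r Z) ∈ IL c0 c1 c2 w := h2 (DQ6_cancel hi h3)
  rwa [DQ6_rt hc] at h4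

/-- BLOCK DQ6. -/
theorem p_DQ6 : Stmt_DQ6 := by
  intro k _ c0 c1 c2 w Z h0 h1 _ h
  have hx : (Lc c0 c1 c2 : P6 k) = DQ6_L ![c0, c1, c2] Xx := by
    simp [Lc, DQ6_L, Fin.sum_univ_three]
  have hy : (Ly c0 c1 c2 : P6 k) = DQ6_L ![c0, c1, c2] Vv := by
    simp [Ly, DQ6_L, Fin.sum_univ_three]
  have e : (X3 * Z : P6 k) = Xx 0 * (Xx 1 * (Xx 2 * Z)) := by
    unfold X3
    ring
  rw [e] at h
  have h3 := DQ6_one hx hy (r := 1) (i := 0) (by simpa using h1) (by decide) h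
  have h4 := DQ6_one hx hy (r := 0) (i := 1) (by simpa using h0) (by decide) h3
  exact DQ6_one hx hy (r := 0) (i := 2) (by simpa using h0) (by decide) h4

end Pool.CX
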