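import Pool.Agent.Work.MP_bf99ce_cx.DefsD

set_option autoImplicit false

open MvPolynomial

namespace Pool.CX

theorem DQ7_apply {k : Type} [CommRing k] (m : ℕ) (e : Fin 3 → Fin 3) (P : P6 k) :
    Qc m e P = ∑ s ∈ P.support, P.coeff s •
      (if ∀ i, (s (Sum.inl i) + 2 * m - 2 * s (Sum.inr i)) % 3 = (e i : ℕ) then
        (monomial (expo m s) 1 : P6 k) else 0) := by
  unfold Qc
  rw [Module.Basis.constr_apply]
  rfl

theorem DQ7_mem {k : Type} [CommRing k] (m : ℕ) (e : Fin 3 → Fin 3) (P : P6 k)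
    (s : Fin 3 ⊕ Fin 3 →₀ ℕ) (hs : s ∈ (Qc m e P).support) :
    ∃ s0 ∈ P.support, (∀ i, (s0 (Sum.inl i) + 2 * m - 2 * s0 (Sum.inr i)) % 3 = (e i : ℕ)) ∧
      s = expo m s0 := by
  classical
  rw [mem_support_iff, DQ7_apply, coeff_sum] at hs
  obtain ⟨s0, h0, h1⟩ := Finset.exists_ne_zero_of_sum_ne_zero hs
  refine ⟨s0, h0, ?_⟩
  by_cases hc : ∀ i, (s0 (Sum.inl i) + 2 * m - 2 * s0 (Sum.inr i)) % 3 = (e i : ℕ)
  · refine ⟨hc, ?_⟩
    rw [if_pos hc, coeff_smul, coeff_monomial] at h1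
    by_contra hne
    rw [if_neg (fun h => hne h.symm), smul_zero] at h1
    exact h1 rfl
  · rw [if_neg hc, smul_zero, coeff_zero] at h1
    exact absurd rfl h1

theorem p_DQ7 : Stmt_DQ7 := by
  intro k _ d m P hP e s hs
  obtain ⟨s0, h0, hc, rfl⟩ := DQ7_mem m e P s hs
  obtain ⟨h1, h2⟩ := hP s0 h0
  have hl : ∀ i, expo m s0 (Sum.inl i) =
      (s0 (Sum.inl i) + 2 * m - 2 * s0 (Sum.inr i)) / 3 := fun i => rfl
  have hr : ∀ i, expo m s0 (Sum.inr i) = s0 (Sum.inr i) := fun i => rfl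
  rw [Fin.sum_univ_three] at h1 h2
  have hc0 := hc 0
  have hc1 := hc 1
  have hc2 := hc 2
  constructor
  · rw [Fin.sum_univ_three, Fin.sum_univ_three, hl, hl, hl]
    omega
  · rw [Fin.sum_univ_three, hr, hr, hr]
    exact h2

end Pool.CX
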