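import Pool.Agent.Work.MP_bf99ce_cx.DefsD

/-! # THEOREM CX, block DQ8: the Euler condition of the components -/

set_option autoImplicit false

noncomputable section

open MvPolynomial

namespace Pool.CX

variable {k : Type} [CommRing k]

theorem DQ8_add (p q : P6 k) : eul (p + q) = eul p + eul q := by
  simp [eul, mul_add, Finset.sum_add_distrib]

theorem DQ8_mul (p q : P6 k) : eul (p * q) = p * eul q + q * eul p := by
  simp only [eul, Derivation.leibniz, smul_eq_mul, mul_add, Finset.sum_add_distrib, Finset.mul_sum]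
  congr 1 <;> exact Finset.sum_congr rfl fun i _ => by ring

theorem DQ8_zero : eul (0 : P6 k) = 0 := by
  simp [eul]

theorem DQ8_sum {ι : Type} (s : Finset ι) (g : ι → P6 k) : eul (∑ i ∈ s, g i) = ∑ i ∈ s, eul (g i) := by
  classical
  induction s using Finset.induction_on with
  | empty => simp [DQ8_zero]
  | insert a s ha ih => rw [Finset.sum_insert ha, Finset.sum_insert ha, DQ8_add, ih]

theorem DQ8_one : eul (1 : P6 k) = 0 := by
  have h := DQ8_mul (1 : P6 k) 1
  rw [one_mul, one_mul] at h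
  exact left_eq_add.mp h

theorem DQ8_pow (p : P6 k) (hp : eul p = 0) (n : ℕ) : eul (p ^ n) = 0 := by
  induction n with
  | zero => rw [pow_zero, DQ8_one]
  | succ n ih => rw [pow_succ, DQ8_mul, ih, hp, mul_zero, mul_zero, add_zero]

theorem DQ8_prod {ι : Type} (s : Finset ι) (g : ι → P6 k) (hg : ∀ i ∈ s, eul (g i) = 0) :
    eul (∏ i ∈ s, g i) = 0 := by
  classical
  induction s using Finset.induction_on with
  | empty => rw [Finset.prod_empty, DQ8_one]
  | insert a s ha ih =>
    rw [Finset.prod_insert ha, DQ8_mul, hg a (Finset.mem_insert_self a s),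
      ih fun i hi => hg i (Finset.mem_insert_of_mem hi), mul_zero, mul_zero, add_zero]

theorem DQ8_x (i : Fin 3) : eul (Xx i : P6 k) = 0 := by
  unfold eul Xx
  refine Finset.sum_eq_zero fun j _ => ?_
  rw [pderiv_X_of_ne (by simp), mul_zero]

theorem DQ8_v (i : Fin 3) : eul (Vv i : P6 k) = Xx i := by
  classical
  unfold eul Vv
  rw [Finset.sum_eq_single i]
  · rw [pderiv_X_self, mul_one]
  · intro j _ hj
    rw [pderiv_X_of_ne, mul_zero]
    intro h
    exact hj (Sum.inr.inj h).symm
  · intro h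
    exact absurd (Finset.mem_univ i) h

theorem DQ8_C (a : k) : eul (C a : P6 k) = 0 := by
  simp [eul]

theorem DQ8_subX (i : Fin 3) : subH (Xx i : P6 k) = Xx i ^ 3 := by
  simp [subH, Xx]

theorem DQ8_subV (i : Fin 3) : subH (Vv i : P6 k) = Xx i ^ 2 * Vv i := by
  simp [subH, Vv]

/-- the chain rule -/
theorem DQ8_chain (G : P6 k) : eul (subH G) = subH (eul G) := by
  induction G using MvPolynomial.induction_on with
  | C a =>
    rw [DQ8_C, map_zero]
    have h : subH (C a : P6 k) = C a := by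
      simp [subH]
    rw [h, DQ8_C]
  | add p q hp hq => rw [map_add, DQ8_add, hp, hq, DQ8_add, map_add]
  | mul_X p n hp =>
    have hn : eul (subH (X n : P6 k)) = subH (eul (X n : P6 k)) := by
      rcases n with i | i
      · change eul (subH (Xx i : P6 k)) = subH (eul (Xx i : P6 k))
        rw [DQ8_subX, DQ8_x, map_zero, DQ8_pow _ (DQ8_x i)]
      · change eul (subH (Vv i : P6 k)) = subH (eul (Vv i : P6 k))
        rw [DQ8_subV, DQ8_v, DQ8_subX, DQ8_mul, DQ8_pow _ (DQ8_x i), DQ8_v, mul_zero, add_zero]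
        ring
    rw [map_mul, DQ8_mul, hn, hp, DQ8_mul, map_add, map_mul, map_mul]

theorem p_DQ8 (h1 : Stmt_DQ1) (h3 : Stmt_DQ3) : Stmt_DQ8 := by
  intro k _ m P hP he
  have hL : LeV m P := by
    intro s hs i
    rw [← hP s hs]
    exact Finset.single_le_sum (f := fun i : Fin 3 => s (Sum.inr i)) (fun _ _ => Nat.zero_le _) (Finset.mem_univ i)
  have hD := h1 k m P hL
  have hX : eul (X3 ^ (2 * m) : P6 k) = 0 := by
    refine DQ8_pow _ ?_ _
    unfold X3
    rw [DQ8_mul, DQ8_mul, DQ8_x, DQ8_x, DQ8_x]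
    ring
  have hxe : ∀ e : Fin 3 → Fin 3, eul (xe e : P6 k) = 0 := fun e =>
    DQ8_prod _ _ fun i _ => DQ8_pow _ (DQ8_x i) _
  have h4 := congrArg eul hD
  rw [DQ8_mul, he, hX, mul_zero, mul_zero, add_zero, DQ8_sum] at h4
  refine h3 k (fun e => eul (Qc m e P)) ?_
  rw [h4]
  refine Finset.sum_congr rfl fun e _ => ?_
  rw [DQ8_mul, hxe e, mul_zero, add_zero, DQ8_chain]

end Pool.CX
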