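import Pool.Agent.Work.MP_bf99ce_cx.DefsD

/-! THEOREM CX, part V0, block DQV (helper4). -/

set_option autoImplicit false

noncomputable section

open MvPolynomial

namespace Pool.CX

/-- The weight: the degree in `v`. -/
def dqv_w : Fin 3 ⊕ Fin 3 → ℕ := Sum.elim (fun _ => 0) (fun _ => 1)

lemma dqv_weight (s : Fin 3 ⊕ Fin 3 →₀ ℕ) : Finsupp.weight dqv_w s = ∑ i : Fin 3, s (Sum.inr i) := by
  rw [Finsupp.weight_apply, Finsupp.sum_fintype s (fun i c => c • dqv_w i) (fun i => by simp), Fintype.sum_sum_type]
  simp [dqv_w]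

lemma dqv_iff {k : Type} [CommRing k] {m : ℕ} {P : P6 k} : HomV m P ↔ IsWeightedHomogeneous dqv_w P m := by
  constructor
  · intro h s hs
    rw [dqv_weight]
    exact h s (mem_support_iff.2 hs)
  · intro h s hs
    rw [← dqv_weight]
    exact h (mem_support_iff.1 hs)

lemma dqv_dv {k : Type} [CommRing k] {p : P6 k} (h : IsWeightedHomogeneous dqv_w p 0) :
    IsWeightedHomogeneous dqv_w (dv p) 1 := by
  refine IsWeightedHomogeneous.sum (φ := fun i => Vv i * pderiv (Sum.inl i) p) _ _ fun i _ => ?_
  have h1 : IsWeightedHomogeneous dqv_w (Vv (k := k) i) (dqv_w (Sum.inr i)) := isWeightedHomogeneous_X k dqv_w _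
  have h2 : IsWeightedHomogeneous dqv_w (pderiv (Sum.inl i) p) 0 := h.pderiv (by simp [dqv_w])
  have h3 := h1.mul h2
  exact h3

theorem p_DQV : Stmt_DQV := by
  intro k _ p m w F hp hF hI
  have hp' := dqv_iff.1 hp
  have hF' := dqv_iff.1 hF
  have key : ∀ f : P6 k, weightedHomogeneousComponent dqv_w m (f * F) ∈
      AddSubgroup.closure {q : P6 k | ∃ (f : P6 k) (j l : ℕ), w ≤ 3 * j + 2 * l ∧ l ≤ m ∧ HomV (m - l) f ∧
        q = f * (p ^ j * dv p ^ l)} := by
    refine Submodule.span_induction (p := fun F _ => ∀ f : P6 k, weightedHomogeneousComponent dqv_w m (f * F) ∈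
      AddSubgroup.closure {q : P6 k | ∃ (f : P6 k) (j l : ℕ), w ≤ 3 * j + 2 * l ∧ l ≤ m ∧ HomV (m - l) f ∧
        q = f * (p ^ j * dv p ^ l)}) ?_ ?_ ?_ ?_ hI
    · rintro _ ⟨j, l, hjl, rfl⟩ f
      have hG : IsWeightedHomogeneous dqv_w (p ^ j * dv p ^ l) l := by
        have h1 := (hp'.pow j).mul ((dqv_dv hp').pow l)
        simpa using h1
      induction f using MvPolynomial.induction_on' with
      | monomial s a =>
        have h1 : IsWeightedHomogeneous dqv_w (monomial s a : P6 k) (Finsupp.weight dqv_w s) :=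
          isWeightedHomogeneous_monomial _ _ _ rfl
        have h2 := h1.mul hG
        by_cases hm : Finsupp.weight dqv_w s + l = m
        · rw [hm] at h2
          rw [weightedHomogeneousComponent_of_mem h2, if_pos rfl]
          refine AddSubgroup.subset_closure ⟨monomial s a, j, l, hjl, by omega, dqv_iff.2 ?_, rfl⟩
          have : Finsupp.weight dqv_w s = m - l := by omega
          rwa [this] at h1
        · rw [weightedHomogeneousComponent_of_mem h2, if_neg (fun h => hm h.symm)]
          exact zero_mem _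
      | add p1 p2 h1 h2 =>
        rw [add_mul, map_add]
        exact add_mem h1 h2
    · intro f
      rw [mul_zero, map_zero]
      exact zero_mem _
    · intro x y _ _ hx hy f
      rw [mul_add, map_add]
      exact add_mem (hx f) (hy f)
    · intro a x _ hx f
      rw [smul_eq_mul, ← mul_assoc]
      exact hx (f * a)
  have h1 := key 1
  rw [one_mul, weightedHomogeneousComponent_of_mem hF', if_pos rfl] at h1
  exact h1

end Pool.CX
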