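import Pool.Agent.Work.MP_bf99ce_cx.BaseD

set_option autoImplicit false

noncomputable section

open MvPolynomial

namespace Pool.CX

theorem DSF_X3_ne {k : Type} [Field k] : (X3 : P6 k) ≠ 0 := by
  simp [X3, Xx, X_ne_zero]

theorem DSF_sum3 (e : Fin 3 → Fin 3) : (∑ i, (e i : ℕ)) = (e 0 : ℕ) + (e 1 : ℕ) + (e 2 : ℕ) := by
  simp [Fin.sum_univ_three]

/-- The key: the components of `P`. -/
theorem DSF_comp (h4 : Stmt_DQ4) (h5 : Stmt_DQ5) (h7 : Stmt_DQ7) (h8 : Stmt_DQ8) (hV : V1.Stmt_V1a)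
    {k : Type} [Field k] [CharZero k] (d m w w' : ℕ) (P : P6 k) (hB : Bihom d m P) (hE : eul P = 0)
    (hMa : Mem (aP 0) w P) (hMb : Mem bP w' P) (hd : d ≤ w + w') (e : Fin 3 → Fin 3) (hne : Qc m e P ≠ 0) :
    ∃ (c : k) (h j j' q : ℕ), c ≠ 0 ∧ m = 2 * h ∧ (∀ i, (e i : ℕ) + 3 * q = 2 * h) ∧ w = 2 * h + 3 * j ∧ w' = 2 * h + 3 * j' ∧
      Qc m e P = C c * (X3 ^ q * V1.UU 3 ^ j * V1.UU 4 ^ j' * V1.Kh ^ h) := by
  obtain ⟨s, hs⟩ := Finset.nonempty_iff_ne_empty.mpr (mt support_eq_empty.mp hne)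
  have hs7 := h7 k d m P hB e s hs
  rw [DSF_sum3] at hs7
  have hB' : Bihom (∑ i, s (Sum.inl i)) m (Qc m e P) := by
    intro s' hs'
    have h := h7 k d m P hB e s' hs'
    rw [DSF_sum3] at h
    constructor
    · omega
    · exact h.2
  set D := ∑ i, s (Sum.inl i) with hD
  have hmem : ∀ i : Fin 5, Qc m e P ∈ V1.I i ((![2 * m - (e 0 : ℕ), 2 * m - (e 1 : ℕ), 2 * m - (e 2 : ℕ), w, w'] : Fin 5 → ℕ) i) := by
    intro i
    fin_cases i
    · exact h4 k m P (hB.homV.leV) e 0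
    · exact h4 k m P (hB.homV.leV) e 1
    · exact h4 k m P (hB.homV.leV) e 2
    · have := (h5 k m w P hB.homV e).1 hMa
      rw [IL_a] at this
      exact this
    · have := (h5 k m w' P hB.homV e).2 hMb
      rw [IL_b] at this
      exact this
  have hsumw : (∑ i : Fin 5, (![2 * m - (e 0 : ℕ), 2 * m - (e 1 : ℕ), 2 * m - (e 2 : ℕ), w, w'] : Fin 5 → ℕ) i) =
      (2 * m - (e 0 : ℕ)) + (2 * m - (e 1 : ℕ)) + (2 * m - (e 2 : ℕ)) + w + w' := by
    simp [Fin.sum_univ_five]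
  obtain ⟨c, h, n, hc, hm, hw, hDn, hQ⟩ := hV k D m _ (Qc m e P) hne hB' (h8 k m P hB.homV hE e) hmem
    (by rw [hsumw]; omega)
  have w0 := hw 0
  have w1 := hw 1
  have w2 := hw 2
  have w3 := hw 3
  have w4 := hw 4
  simp only [Matrix.cons_val, Fin.isValue] at w0 w1 w2 w3 w4
  rw [Fin.sum_univ_five] at hDn
  have he0 := (e 0).isLt
  have he1 := (e 1).isLt
  have he2 := (e 2).isLt
  have e0 : (e 0 : ℕ) + 3 * n 0 = 2 * h := by omega
  have e1 : (e 1 : ℕ) + 3 * n 1 = 2 * h := by omega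
  have e2 : (e 2 : ℕ) + 3 * n 2 = 2 * h := by omega
  have n1 : n 1 = n 0 := by omega
  have n2 : n 2 = n 0 := by omega
  refine ⟨c, h, n 3, n 4, n 0, hc, hm, ?_, w3, w4, ?_⟩
  · intro i
    fin_cases i
    · exact e0
    · exact n1 ▸ e1
    · exact n2 ▸ e2
  · rw [hQ, Fin.prod_univ_five, n1, n2]
    have hU0 : (V1.UU 0 : P6 k) = Xx 0 := rfl
    have hU1 : (V1.UU 1 : P6 k) = Xx 1 := rfl
    have hU2 : (V1.UU 2 : P6 k) = Xx 2 := rfl
    rw [hU0, hU1, hU2, X3]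
    ring

theorem p_DSF (h1 : Stmt_DQ1) (h4 : Stmt_DQ4) (h5 : Stmt_DQ5) (h7 : Stmt_DQ7) (h8 : Stmt_DQ8) : Stmt_DSF := by
  intro hV k _ _ d m w w' P hP hB hE hMa hMb hd
  have hdec := h1 k m P hB.homV.leV
  have hX : (X3 : P6 k) ≠ 0 := DSF_X3_ne
  have hex : ∃ e, Qc m e P ≠ 0 := by
    by_contra hcon
    push_neg at hcon
    apply hP
    have h0 : X3 ^ (2 * m) * P = 0 := by
      rw [hdec]
      exact Finset.sum_eq_zero fun e _ => by rw [hcon e, map_zero, mul_zero]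
    exact (mul_eq_zero.mp h0).resolve_left (pow_ne_zero _ hX)
  obtain ⟨e, he⟩ := hex
  obtain ⟨c, h, j, j', q, hc, hm, heq, hw, hw', hQ⟩ := DSF_comp h4 h5 h7 h8 hV d m w w' P hB hE hMa hMb hd e he
  refine ⟨c, h, j, j', hc, ?_, hm, hw, hw'⟩
  have huniq : ∀ e' : Fin 3 → Fin 3, e' ≠ e → Qc m e' P = 0 := by
    intro e' hne
    by_contra hcon
    apply hne
    obtain ⟨c', g, i, i', q', _, hm', heq', _, _, _⟩ := DSF_comp h4 h5 h7 h8 hV d m w w' P hB hE hMa hMb hd e' hcon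
    funext r
    have a1 := heq r
    have a2 := heq' r
    have := (e r).isLt
    have := (e' r).isLt
    apply Fin.ext
    omega
  rw [Finset.sum_eq_single e (fun e' _ hne => by rw [huniq e' hne, map_zero, mul_zero])
    (fun h => absurd (Finset.mem_univ e) h), hQ] at hdec
  have hec : e = fun _ => e 0 := by
    funext r
    have a1 := heq r
    have a2 := heq 0
    apply Fin.ext
    omega
  rw [hec, xe_const] at hdec
  simp only [map_mul, map_pow, subH_C, subH_U3, subH_U4, subH_Kh] at hdec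
  have hX3 : subH (X3 : P6 k) = X3 ^ 3 := by
    simp only [X3, map_mul, subH_Xx]
    ring
  rw [hX3] at hdec
  have hr : X3 ^ (2 * m) * P = X3 ^ (2 * m) * (C c * (aP 0 ^ j * bP ^ j' * KP ^ h)) := by
    rw [hdec]
    have h2m : 2 * m = (e 0 : ℕ) + 3 * q + 2 * h := by have := heq 0; omega
    rw [h2m]
    ring
  exact mul_left_cancel₀ (pow_ne_zero _ hX) hr

end Pool.CX
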