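import Pool.Agent.Work.MP_bf99ce_cx.DefsW

/-! # THEOREM CX, block FL: the weight condition passes to the reduction -/

set_option autoImplicit false

noncomputable section

open MvPolynomial

namespace Pool.CX

lemma FL_HomV_mul {A : Type} [CommRing A] {m m' : ℕ} {P Q : P6 A} (hP : HomV m P) (hQ : HomV m' Q) : HomV (m + m') (P * Q) := by
  classical
  intro s hs
  obtain ⟨a, ha, b, hb, rfl⟩ := Finset.mem_add.1 (MvPolynomial.support_mul P Q hs)
  have h1 := hP a ha
  have h2 := hQ b hb
  simp only [Finsupp.add_apply, Finset.sum_add_distrib]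
  rw [h1, h2]

lemma FL_HomV_X {A : Type} [CommRing A] (i : Fin 3) : HomV 0 (Xx i : P6 A) := by
  classical
  intro s hs
  have h1 : s = Finsupp.single (Sum.inl i) 1 := by
    by_contra h
    have h2 : (Xx i : P6 A).coeff s = 0 := by
      unfold Xx
      rw [MvPolynomial.coeff_X, if_neg (fun h3 => h h3.symm)]
    exact (MvPolynomial.mem_support_iff.1 hs) h2
  rw [h1]
  refine Finset.sum_eq_zero fun j _ => ?_
  rw [Finsupp.single_apply, if_neg (by simp)]

lemma FL_HomV_X3 {A : Type} [CommRing A] (N : ℕ) {m : ℕ} {P : P6 A} (hP : HomV m P) : HomV m (X3 ^ N * P) := by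
  induction N with
  | zero => simpa using hP
  | succ N ih =>
    have h1 : (X3 : P6 A) ^ (N + 1) * P = Xx 0 * (Xx 1 * (Xx 2 * (X3 ^ N * P))) := by
      unfold X3
      ring
    rw [h1]
    have h2 := FL_HomV_mul (FL_HomV_X (A := A) 0) (FL_HomV_mul (FL_HomV_X (A := A) 1) (FL_HomV_mul (FL_HomV_X (A := A) 2) ih))
    simpa using h2

lemma FL_HomV_map {A B : Type} [CommRing A] [CommRing B] (r : A →+* B) {m : ℕ} {P : P6 A} (hP : HomV m P) :
    HomV m (map r P : P6 B) := by
  intro s hs
  exact hP s (MvPolynomial.support_map_subset r P hs)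

lemma FL_map_Xx {A B : Type} [CommRing A] [CommRing B] (r : A →+* B) (i : Fin 3) : map r (Xx i : P6 A) = Xx i := by
  unfold Xx
  rw [map_X]

lemma FL_map_X3 {A B : Type} [CommRing A] [CommRing B] (r : A →+* B) : map r (X3 : P6 A) = X3 := by
  unfold X3
  rw [map_mul, map_mul, FL_map_Xx, FL_map_Xx, FL_map_Xx]

lemma FL_map_cub {A B : Type} [CommRing A] [CommRing B] (r : A →+* B) (c0 c1 c2 e : A) :
    map r (cub c0 c1 c2 e) = cub (r c0) (r c1) (r c2) (r e) := by
  unfold cub
  simp only [map_add, map_mul, map_pow, map_C, FL_map_Xx, FL_map_X3]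

lemma FL_map_cub5 {A B : Type} [CommRing A] [CommRing B] (r : A →+* B) (c0 c1 c2 e : A) :
    map r (cub5 c0 c1 c2 e) = cub5 (r c0) (r c1) (r c2) (r e) := by
  unfold cub5
  simp only [map_add, map_mul, map_pow, map_C, map_X]

lemma FL_map_phi {A B : Type} [CommRing A] [CommRing B] (r : A →+* B) (c0 c1 c2 e : A) (Q : P6 A) :
    phi (r c0) (r c1) (r c2) (r e) (map r Q) = (phi c0 c1 c2 e Q).map (map r) := by
  have h0 : ∀ i, map r (grad5 c0 c1 c2 e i) = grad5 (r c0) (r c1) (r c2) (r e) i := by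
    intro i
    have h3 : r 3 = 3 := map_ofNat r 3
    fin_cases i <;> simp [grad5, h3]
  induction Q using MvPolynomial.induction_on with
  | C a =>
    rw [map_C]
    have h1 : phi (r c0) (r c1) (r c2) (r e) (C (r a)) = Polynomial.C (C (r a)) := by
      unfold phi
      rw [aeval_C]
      rfl
    have h2 : phi c0 c1 c2 e (C a) = Polynomial.C (C a) := by
      unfold phi
      rw [aeval_C]
      rfl
    rw [h1, h2, Polynomial.map_C, map_C]
  | add p q hp hq => rw [map_add, map_add, map_add, Polynomial.map_add, hp, hq]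
  | mul_X p i hp =>
    rw [map_mul, map_mul, map_mul, Polynomial.map_mul, hp, map_X]
    congr 1
    unfold phi
    rw [aeval_X, aeval_X]
    rcases i with i | i
    · simp
    · have h2 := h0 0
      have h3 := h0 1
      have h4 := h0 2
      fin_cases i
      · simp [h4]
      · simp [h4]
      · simp [h2, h3]

theorem p_FL (hPHF : Stmt_PHF) (hPHB : Stmt_PHB) (hGAU : Stmt_GAU) : Stmt_FL := by
  intro k _ O _ c0 c1 c2 e m w P hc2 he hP hM
  obtain ⟨N, hN⟩ := hM
  -- the weight condition over the field `k`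
  have h1 : X3 ^ N * map (algebraMap O k) P = map (algebraMap O k) (X3 ^ N * P) := by
    rw [map_mul, map_pow, FL_map_X3]
  rw [h1, FL_map_cub] at hN
  have h2 := hPHF k _ _ _ _ w _ hN
  rw [FL_map_phi, ← FL_map_cub5] at h2
  -- over `O`
  have h3 : WX (cub5 c0 c1 c2 e) w (phi c0 c1 c2 e (X3 ^ N * P)) := by
    intro l
    have h4 := h2 l
    rw [Polynomial.coeff_map, ← map_pow] at h4
    refine hGAU k O _ _ _ ?_ h4
    rw [map_pow]
    apply pow_ne_zero
    rw [FL_map_cub5]
    intro h5
    have h6 := congrArg (MvPolynomial.aeval (R := IsLocalRing.ResidueField O) (S₁ := IsLocalRing.ResidueField O)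
      (Sum.elim ![0, 0, 1] (fun _ : Fin 2 => 0))) h5
    unfold cub5 at h6
    simp at h6
    exact hc2 (by simpa using h6)
  -- over the residue field
  have h4 : WX (cub5 (IsLocalRing.residue O c0) (IsLocalRing.residue O c1) (IsLocalRing.residue O c2) (IsLocalRing.residue O e)) w
      (phi (IsLocalRing.residue O c0) (IsLocalRing.residue O c1) (IsLocalRing.residue O c2) (IsLocalRing.residue O e)
        (map (IsLocalRing.residue O) (X3 ^ N * P))) := by
    intro l
    rw [FL_map_phi, ← FL_map_cub5, Polynomial.coeff_map, ← map_pow]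
    exact map_dvd _ (h3 l)
  have h5 := hPHB (IsLocalRing.ResidueField O) _ _ _ _ m w _ (FL_HomV_map (IsLocalRing.residue O) (FL_HomV_X3 N hP)) h4
  have h6 : (3 * IsLocalRing.residue O c2 : IsLocalRing.ResidueField O) ≠ 0 := mul_ne_zero (by norm_num) hc2
  refine ⟨2 * m + N, ?_⟩
  rw [FL_map_cub]
  have h7 : (X3 : P6 (IsLocalRing.ResidueField O)) ^ (2 * m + N) * map (IsLocalRing.residue O) P
      = (C ((3 * IsLocalRing.residue O c2)⁻¹) ^ m * (Xx 0 * Xx 1) ^ (2 * m)) *
        ((C (3 * IsLocalRing.residue O c2) * Xx 2 ^ 2 + C (IsLocalRing.residue O e) * (Xx 0 * Xx 1)) ^ m *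
          map (IsLocalRing.residue O) (X3 ^ N * P)) := by
    have h10 : map (IsLocalRing.residue O) (X3 ^ N * P) = X3 ^ N * map (IsLocalRing.residue O) P := by
      rw [map_mul, map_pow, FL_map_X3]
    rw [he, map_zero, zero_mul, add_zero, h10]
    have h8 : (C ((3 * IsLocalRing.residue O c2)⁻¹) : P6 (IsLocalRing.ResidueField O)) ^ m *
        C (3 * IsLocalRing.residue O c2) ^ m = 1 := by
      rw [← mul_pow, ← C_mul, inv_mul_cancel₀ h6, C_1, one_pow]
    have h9 : (X3 : P6 (IsLocalRing.ResidueField O)) ^ (2 * m) = (Xx 0 * Xx 1) ^ (2 * m) * (Xx 2 ^ 2) ^ m := by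
      unfold X3
      rw [mul_pow, ← pow_mul]
    rw [pow_add, h9, mul_pow (C (3 * IsLocalRing.residue O c2))]
    linear_combination (-((Xx 0 * Xx 1) ^ (2 * m) * (Xx 2 ^ 2) ^ m * X3 ^ N * map (IsLocalRing.residue O) P)) * h8
  rw [h7]
  exact Ideal.mul_mem_left _ _ h5

end Pool.CX
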