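import Pool.Agent.Work.MP_bf99ce_cx.DefsW

/-!
# THEOREM CX, block GAU: the lemma of Gauss over a valuation ring
-/

set_option autoImplicit false

open MvPolynomial

namespace Pool.CX

theorem GAU_inj {k : Type} [Field k] (O : ValuationSubring k) (σ : Type) :
    Function.Injective (map (algebraMap O k) : MvPolynomial σ O → MvPolynomial σ k) :=
  map_injective _ (IsFractionRing.injective O k)

/-- A polynomial over `k` with all coefficients in `O` comes from `O`. -/
theorem GAU_lift {k : Type} [Field k] (O : ValuationSubring k) (σ : Type) (q : MvPolynomial σ k)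
    (h : ∀ m, q.coeff m ∈ O) : ∃ q1 : MvPolynomial σ O, map (algebraMap O k) q1 = q := by
  classical
  refine ⟨∑ m ∈ q.support, monomial m (⟨q.coeff m, h m⟩ : O), ?_⟩
  rw [map_sum]
  conv_rhs => rw [q.as_sum]
  refine Finset.sum_congr rfl fun m _ => ?_
  rw [map_monomial]
  rfl

theorem p_GAU : Stmt_GAU := by
  classical
  intro k _ O σ f P hf hdiv
  obtain ⟨q, hq⟩ := hdiv
  by_cases hq0 : q = 0
  · have hP : P = 0 := by
      apply GAU_inj O σ
      rw [hq, hq0, mul_zero, map_zero]
    rw [hP]
    exact dvd_zero f
  · have hne : q.support.Nonempty := by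
      rw [Finset.nonempty_iff_ne_empty]
      intro h
      exact hq0 (MvPolynomial.support_eq_empty.1 h)
    obtain ⟨m0, hm0, hmax⟩ := Finset.exists_max_image q.support (fun m => O.valuation (q.coeff m)) hne
    set c : k := q.coeff m0 with hc
    have hc0 : c ≠ 0 := MvPolynomial.mem_support_iff.1 hm0
    have hvc : O.valuation c ≠ 0 := (Valuation.ne_zero_iff _).2 hc0
    have hall : ∀ m, (C c⁻¹ * q).coeff m ∈ O := by
      intro m
      rw [coeff_C_mul, ← O.valuation_le_one_iff, map_mul, map_inv₀]
      by_cases hm : m ∈ q.support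
      · have h1 := hmax m hm
        exact inv_mul_le_one_of_le₀ h1 zero_le
      · rw [MvPolynomial.notMem_support_iff.1 hm, map_zero, mul_zero]
        exact zero_le_one
    obtain ⟨q1, hq1⟩ := GAU_lift O σ _ hall
    have hres : map (IsLocalRing.residue O) q1 ≠ 0 := by
      intro h
      have h1 : q1.coeff m0 = 1 := by
        apply IsFractionRing.injective O k
        rw [map_one]
        have h2 := congrArg (MvPolynomial.coeff m0) hq1
        rw [coeff_map, coeff_C_mul] at h2
        rw [h2]
        exact inv_mul_cancel₀ hc0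
      have h3 := congrArg (MvPolynomial.coeff m0) h
      rw [coeff_map, h1, map_one, coeff_zero] at h3
      exact one_ne_zero h3
    by_cases hcO : c ∈ O
    · refine ⟨C (⟨c, hcO⟩ : O) * q1, ?_⟩
      apply GAU_inj O σ
      rw [map_mul, map_mul, map_C, hq1, hq]
      have h4 : (algebraMap O k) (⟨c, hcO⟩ : O) = c := rfl
      rw [h4, ← mul_assoc (C c), ← C_mul, mul_inv_cancel₀ hc0, C_1, one_mul]
    · exfalso
      have hrO : c⁻¹ ∈ O := by
        rcases O.mem_or_inv_mem c with h | h
        · exact absurd h hcO
        · exact h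
      have heq : f * q1 = C (⟨c⁻¹, hrO⟩ : O) * P := by
        apply GAU_inj O σ
        rw [map_mul, map_mul, map_C, hq1, hq]
        have h4 : (algebraMap O k) (⟨c⁻¹, hrO⟩ : O) = c⁻¹ := rfl
        rw [h4]
        ring
      have hnon : (⟨c⁻¹, hrO⟩ : O) ∈ IsLocalRing.maximalIdeal O := by
        rw [IsLocalRing.mem_maximalIdeal, mem_nonunits_iff]
        intro hu
        obtain ⟨u, hu⟩ := hu
        apply hcO
        have h5 : ((u⁻¹ : Oˣ) : O).1 = c := by
          have h6 : ((u : O) * ((u⁻¹ : Oˣ) : O)) = 1 := u.mul_inv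
          have h7 := congrArg (fun z : O => (z : k)) h6
          simp only [hu] at h7
          have h8 : c⁻¹ * (((u⁻¹ : Oˣ) : O) : k) = 1 := h7
          have h9 : (((u⁻¹ : Oˣ) : O) : k) = c := by
            field_simp at h8
            exact h8
          exact h9
        rw [← h5]
        exact ((u⁻¹ : Oˣ) : O).2
      have hz := congrArg (map (IsLocalRing.residue O)) heq
      rw [map_mul, map_mul, map_C, (IsLocalRing.residue_eq_zero_iff _).2 hnon, C_0, zero_mul] at hz
      rcases mul_eq_zero.1 hz with h | h
      · exact hf h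
      · exact hres h

end Pool.CX
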