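import Pool.Agent.Work.MP_bf99ce_cx.DefsW

/-! # THEOREM CX, part V0: block KCO -/

set_option autoImplicit false

noncomputable section

open MvPolynomial

namespace Pool.CX

/-- The coefficient of `ξ^0` of `phi K`. -/
def KCO_A0 {k : Type} [CommRing k] (h G : R5 k) : R5 k :=
  -(X (Sum.inl 2) ^ 2 * ((X (Sum.inl 1) * G + X (Sum.inl 2) * (h * X (Sum.inr 1))) *
      (X (Sum.inl 2) * (h * X (Sum.inr 0)) + X (Sum.inl 0) * G))) -
    X (Sum.inl 1) ^ 2 * ((X (Sum.inl 1) * G + X (Sum.inl 2) * (h * X (Sum.inr 1))) *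
      (h * (X (Sum.inl 0) * X (Sum.inr 1) - X (Sum.inl 1) * X (Sum.inr 0)))) +
    4 * (X (Sum.inl 0) ^ 2 * ((X (Sum.inl 2) * (h * X (Sum.inr 0)) + X (Sum.inl 0) * G) *
      (h * (X (Sum.inl 0) * X (Sum.inr 1) - X (Sum.inl 1) * X (Sum.inr 0)))))

/-- The coefficient of `ξ^1` of `phi K`. -/
def KCO_A1 {k : Type} [CommRing k] (h G : R5 k) : R5 k :=
  X (Sum.inl 2) ^ 2 * (X (Sum.inl 1) * (X (Sum.inl 2) * (h * X (Sum.inr 0)) + X (Sum.inl 0) * G) +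
      X (Sum.inl 0) * (X (Sum.inl 1) * G + X (Sum.inl 2) * (h * X (Sum.inr 1)))) +
    X (Sum.inl 1) ^ 3 * (h * (X (Sum.inl 0) * X (Sum.inr 1) - X (Sum.inl 1) * X (Sum.inr 0))) -
    4 * (X (Sum.inl 0) ^ 3 * (h * (X (Sum.inl 0) * X (Sum.inr 1) - X (Sum.inl 1) * X (Sum.inr 0))))

/-- The coefficient of `ξ^2` of `phi K`. -/
def KCO_A2 {k : Type} [CommRing k] : R5 k := -(X (Sum.inl 2) ^ 2 * (X (Sum.inl 0) * X (Sum.inl 1)))

/-- `g0 v_0 + g1 v_1`. -/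
def KCO_G {k : Type} [CommRing k] (c0 c1 c2 e : k) : R5 k :=
  grad5 c0 c1 c2 e 0 * X (Sum.inr 0) + grad5 c0 c1 c2 e 1 * X (Sum.inr 1)

theorem KCO_phi {k : Type} [CommRing k] (c0 c1 c2 e : k) : phi c0 c1 c2 e KP =
    Polynomial.C (KCO_A0 (grad5 c0 c1 c2 e 2) (KCO_G c0 c1 c2 e)) +
      Polynomial.C (KCO_A1 (grad5 c0 c1 c2 e 2) (KCO_G c0 c1 c2 e)) * Polynomial.X +
      Polynomial.C KCO_A2 * Polynomial.X ^ 2 := by
  have e0 : phi c0 c1 c2 e (Vv 0) = Polynomial.C (grad5 c0 c1 c2 e 2 * X (Sum.inr 0)) := by simp [phi, Vv]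
  have e1 : phi c0 c1 c2 e (Vv 1) = Polynomial.C (grad5 c0 c1 c2 e 2 * X (Sum.inr 1)) := by simp [phi, Vv]
  have e2 : phi c0 c1 c2 e (Vv 2) = Polynomial.X - Polynomial.C (KCO_G c0 c1 c2 e) := by simp [phi, Vv, KCO_G]
  have ex : ∀ i, phi c0 c1 c2 e (Xx i) = Polynomial.C (X (Sum.inl i)) := by intro i; simp [phi, Xx]
  simp only [KP, lam, map_add, map_mul, map_sub, map_pow, ex, Fin.isValue, show (0 : Fin 3) + 1 = 1 from rfl,
    show (0 : Fin 3) + 2 = 2 from rfl, show (1 : Fin 3) + 1 = 2 from rfl, show (1 : Fin 3) + 2 = 0 from rfl,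
    show (2 : Fin 3) + 1 = 0 from rfl, show (2 : Fin 3) + 2 = 1 from rfl, e0, e1, e2, map_ofNat, KCO_A0, KCO_A1, KCO_A2, map_neg]
  ring

theorem KCO_coeff {k : Type} [CommRing k] (A0 A1 A2 : R5 k) :
    (Polynomial.C A0 + Polynomial.C A1 * Polynomial.X + Polynomial.C A2 * Polynomial.X ^ 2).coeff 0 = A0 ∧
    (Polynomial.C A0 + Polynomial.C A1 * Polynomial.X + Polynomial.C A2 * Polynomial.X ^ 2).coeff 1 = A1 ∧
    (Polynomial.C A0 + Polynomial.C A1 * Polynomial.X + Polynomial.C A2 * Polynomial.X ^ 2).natDegree ≤ 2 := by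
  refine ⟨by simp, by simp [Polynomial.coeff_X_pow, Polynomial.coeff_C], ?_⟩
  compute_degree

/-- Evaluation at a point. -/
theorem KCO_ndvd {k : Type} [Field k] (p q : R5 k) (x : Fin 3 ⊕ Fin 2 → k) (hp : eval x p = 0) (hq : eval x q ≠ 0) : ¬ p ∣ q := by
  rintro ⟨r, rfl⟩
  apply hq
  rw [map_mul, hp, zero_mul]

theorem p_KCO (_hPRM : Stmt_PRM) : Stmt_KCO := by
  intro k _ _
  refine ⟨?_, ?_⟩
  · rw [KCO_phi]
    obtain ⟨h0, h1, h2⟩ := KCO_coeff (KCO_A0 (grad5 (-3 : k) 3 1 0 2) (KCO_G (-3 : k) 3 1 0))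
      (KCO_A1 (grad5 (-3 : k) 3 1 0 2) (KCO_G (-3 : k) 3 1 0)) KCO_A2
    rw [h0, h1]
    refine ⟨?_, ?_, h2⟩
    · refine ⟨-(4 * (X (Sum.inl 0) * X (Sum.inl 2) ^ 2 * X (Sum.inr 1) * (-9 * X (Sum.inl 0) ^ 2 * X (Sum.inr 0) +
          9 * X (Sum.inl 1) ^ 2 * X (Sum.inr 1)))) + X (Sum.inl 1) * X (Sum.inl 2) ^ 2 * X (Sum.inr 0) *
          (-9 * X (Sum.inl 0) ^ 2 * X (Sum.inr 0) + 9 * X (Sum.inl 1) ^ 2 * X (Sum.inr 1)) -
          9 * (X (Sum.inl 2) ^ 5 * X (Sum.inr 0) * X (Sum.inr 1)), ?_⟩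
      simp only [KCO_A0, KCO_G, grad5, cub5, Matrix.cons_val_zero, Matrix.cons_val_one, Matrix.cons_val, map_mul, map_neg,
        map_ofNat, map_one, map_zero]
      ring
    · apply KCO_ndvd _ _ (Sum.elim ![2, -1, 3] ![1, 0])
      · simp [cub5]
        norm_num
      · simp [KCO_A1, KCO_G, grad5]
        norm_num
  · rw [KCO_phi]
    obtain ⟨h0, h1, h2⟩ := KCO_coeff (KCO_A0 (grad5 (-3 : k) 1 3 0 2) (KCO_G (-3 : k) 1 3 0))
      (KCO_A1 (grad5 (-3 : k) 1 3 0 2) (KCO_G (-3 : k) 1 3 0)) KCO_A2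
    rw [h0, h1]
    refine ⟨?_, ?_, h2⟩
    · refine ⟨-(12 * (X (Sum.inl 0) * X (Sum.inl 2) ^ 2 * X (Sum.inr 1) * (-9 * X (Sum.inl 0) ^ 2 * X (Sum.inr 0) +
          3 * X (Sum.inl 1) ^ 2 * X (Sum.inr 1)))) + 9 * (X (Sum.inl 1) * X (Sum.inl 2) ^ 2 * X (Sum.inr 0) *
          (-9 * X (Sum.inl 0) ^ 2 * X (Sum.inr 0) + 3 * X (Sum.inl 1) ^ 2 * X (Sum.inr 1))) -
          27 * (X (Sum.inl 2) ^ 5 * X (Sum.inr 0) * X (Sum.inr 1)), ?_⟩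
      simp only [KCO_A0, KCO_G, grad5, cub5, Matrix.cons_val_zero, Matrix.cons_val_one, Matrix.cons_val, map_mul, map_neg,
        map_ofNat, map_one, map_zero]
      ring
    · apply KCO_ndvd _ _ (Sum.elim ![1, 0, 1] ![0, 1])
      · simp [cub5]
      · simp [KCO_A1, KCO_G, grad5]
        norm_num

end Pool.CX
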