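import Pool.Agent.Work.MP_bf99ce_cx.DefsW

/-! # THEOREM CX, part V0: block PHB -/

set_option autoImplicit false

noncomputable section

open MvPolynomial

namespace Pool.CX

/-- The derivative with respect to `x_2`. -/
def PHB_h {k : Type} [CommRing k] (c2 e : k) : P6 k :=
  C (3 * c2) * Xx 2 ^ 2 + C e * (Xx 0 * Xx 1)

/-- The substitution `v ↦ h v`. -/
def PHB_th {k : Type} [CommRing k] (c2 e : k) : P6 k →ₐ[k] P6 k :=
  aeval (Sum.elim (fun i : Fin 3 => Xx i) (fun i : Fin 3 => PHB_h c2 e * Vv i))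

theorem PHB_inc_inl {k : Type} [CommRing k] (i : Fin 3) :
    (inc5 : R5 k →ₐ[k] P6 k) (X (Sum.inl i)) = Xx i := by
  simp only [inc5, aeval_X, Sum.elim_inl]

theorem PHB_inc_inr0 {k : Type} [CommRing k] :
    (inc5 : R5 k →ₐ[k] P6 k) (X (Sum.inr 0)) = Vv 0 := by
  simp only [inc5, aeval_X, Sum.elim_inr, Matrix.cons_val_zero]

theorem PHB_inc_inr1 {k : Type} [CommRing k] :
    (inc5 : R5 k →ₐ[k] P6 k) (X (Sum.inr 1)) = Vv 1 := by
  simp only [inc5, aeval_X, Sum.elim_inr, Matrix.cons_val_one, Matrix.cons_val_zero]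

theorem PHB_inc_C {k : Type} [CommRing k] (c : k) :
    (inc5 : R5 k →ₐ[k] P6 k) (C c) = C c := by
  rw [← algebraMap_eq, AlgHom.commutes, algebraMap_eq]

theorem PHB_inc_cub {k : Type} [CommRing k] (c0 c1 c2 e : k) :
    (inc5 : R5 k →ₐ[k] P6 k) (cub5 c0 c1 c2 e) = cub c0 c1 c2 e := by
  simp only [cub5, cub, X3, map_add, map_mul, map_pow, PHB_inc_inl, PHB_inc_C]

theorem PHB_psi_C {k : Type} [CommRing k] (c0 c1 c2 e : k) (r : R5 k) :
    psi c0 c1 c2 e (Polynomial.C r) = (inc5 : R5 k →ₐ[k] P6 k) r := by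
  simp only [psi, Polynomial.coe_eval₂RingHom, Polynomial.eval₂_C]
  rfl

theorem PHB_psi_X {k : Type} [CommRing k] (c0 c1 c2 e : k) :
    psi c0 c1 c2 e (Polynomial.X) = dv (cub c0 c1 c2 e) := by
  simp only [psi, Polynomial.coe_eval₂RingHom, Polynomial.eval₂_X]

theorem PHB_comp {k : Type} [CommRing k] (c0 c1 c2 e : k) (P : P6 k) :
    psi c0 c1 c2 e (phi c0 c1 c2 e P) = PHB_th c2 e P := by
  have h : (psi c0 c1 c2 e).comp (phi c0 c1 c2 e).toRingHom = (PHB_th c2 e).toRingHom := by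
    apply MvPolynomial.ringHom_ext
    · intro c
      change psi c0 c1 c2 e (phi c0 c1 c2 e (C c)) = PHB_th c2 e (C c)
      have h1 : phi c0 c1 c2 e (C c) = Polynomial.C (C c) := by
        rw [← algebraMap_eq, AlgHom.commutes]
        rfl
      have h2 : PHB_th c2 e (C c) = C c := by
        rw [← algebraMap_eq, AlgHom.commutes, algebraMap_eq]
      rw [h1, PHB_psi_C, PHB_inc_C, h2]
    · intro i
      change psi c0 c1 c2 e (phi c0 c1 c2 e (X i)) = PHB_th c2 e (X i)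
      rcases i with i | i
      · simp only [phi, PHB_th, aeval_X, Sum.elim_inl, PHB_psi_C, PHB_inc_inl]
      · fin_cases i
        · simp only [phi, PHB_th, aeval_X, Sum.elim_inr, Fin.zero_eta, Matrix.cons_val_zero,
            PHB_psi_C, map_mul, PHB_inc_inr0, grad5, Matrix.cons_val, map_add, map_pow,
            PHB_inc_inl, PHB_inc_C, PHB_h]
        · simp only [phi, PHB_th, aeval_X, Sum.elim_inr, Fin.mk_one, Matrix.cons_val_one,
            Matrix.cons_val_zero,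
            PHB_psi_C, map_mul, PHB_inc_inr1, grad5, Matrix.cons_val, map_add, map_pow,
            PHB_inc_inl, PHB_inc_C, PHB_h]
        · have h3 : phi c0 c1 c2 e (X (Sum.inr 2)) = Polynomial.X -
              Polynomial.C (grad5 c0 c1 c2 e 0 * X (Sum.inr 0) +
                grad5 c0 c1 c2 e 1 * X (Sum.inr 1)) := by
            rw [phi, aeval_X]
            rfl
          have h4 : PHB_th c2 e (X (Sum.inr 2)) = PHB_h c2 e * Vv 2 := by
            rw [PHB_th, aeval_X]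
            rfl
          change psi c0 c1 c2 e (phi c0 c1 c2 e (X (Sum.inr 2))) = PHB_th c2 e (X (Sum.inr 2))
          rw [h3, h4, map_sub, PHB_psi_X, PHB_psi_C, dv_cub, dv_X3]
          simp only [grad5, Matrix.cons_val_zero, Matrix.cons_val_one, map_add, map_mul, map_pow,
            PHB_inc_inl, PHB_inc_inr0, PHB_inc_inr1, PHB_inc_C, PHB_h]
          ring
  exact congrArg (fun f : P6 k →+* P6 k => f P) h

theorem PHB_mono {k : Type} [CommRing k] (c2 e : k) (s : Fin 3 ⊕ Fin 3 →₀ ℕ) (a : k) :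
    PHB_th c2 e (monomial s a) = PHB_h c2 e ^ (∑ i : Fin 3, s (Sum.inr i)) * monomial s a := by
  rw [PHB_th, aeval_monomial, monomial_eq, Finsupp.prod_fintype _ _ (fun i => pow_zero _),
    Finsupp.prod_fintype _ _ (fun i => pow_zero _), Fintype.prod_sum_type, Fintype.prod_sum_type]
  simp only [Sum.elim_inl, Sum.elim_inr, mul_pow, Finset.prod_mul_distrib,
    Finset.prod_pow_eq_pow_sum, algebraMap_eq, Xx, Vv]
  ring

theorem PHB_hom {k : Type} [CommRing k] (c2 e : k) (m : ℕ) (P : P6 k) (hP : HomV m P) :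
    PHB_th c2 e P = PHB_h c2 e ^ m * P := by
  have h1 : P = ∑ s ∈ P.support, monomial s (coeff s P) := (support_sum_monomial_coeff P).symm
  conv_lhs => rw [h1]
  conv_rhs => rw [h1]
  rw [map_sum, Finset.mul_sum]
  refine Finset.sum_congr rfl (fun s hs => ?_)
  rw [PHB_mono, hP s hs]

theorem PHB_mem {k : Type} [CommRing k] (c0 c1 c2 e : k) (w : ℕ) (Q : Polynomial (R5 k))
    (hQ : WX (cub5 c0 c1 c2 e) w Q) : psi c0 c1 c2 e Q ∈ Iw (cub c0 c1 c2 e) w := by
  have h1 : psi c0 c1 c2 e Q = ∑ l ∈ Q.support,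
      (inc5 : R5 k →ₐ[k] P6 k) (Q.coeff l) * dv (cub c0 c1 c2 e) ^ l := by
    simp only [psi, Polynomial.coe_eval₂RingHom, Polynomial.eval₂_eq_sum, Polynomial.sum_def]
    rfl
  rw [h1]
  refine Ideal.sum_mem _ (fun l _ => ?_)
  obtain ⟨r, hr⟩ := hQ l
  rw [hr, map_mul, map_pow, PHB_inc_cub]
  have h2 : cub c0 c1 c2 e ^ ((w - 2 * l + 2) / 3) * (inc5 : R5 k →ₐ[k] P6 k) r *
      dv (cub c0 c1 c2 e) ^ l = (inc5 : R5 k →ₐ[k] P6 k) r *
        (cub c0 c1 c2 e ^ ((w - 2 * l + 2) / 3) * dv (cub c0 c1 c2 e) ^ l) := by ring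
  rw [h2]
  apply Ideal.mul_mem_left
  apply Ideal.subset_span
  exact ⟨(w - 2 * l + 2) / 3, l, by omega, rfl⟩

theorem p_PHB : Stmt_PHB := by
  intro k _ c0 c1 c2 e m w P hP hW
  have h1 := PHB_mem c0 c1 c2 e w _ hW
  rw [PHB_comp, PHB_hom c2 e m P hP] at h1
  exact h1

end Pool.CX
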