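import Pool.Agent.Work.MP_bf99ce_cx.DefsW

/-! # THEOREM CX, block PHF: `phi` of the weight ideal -/

set_option autoImplicit false

noncomputable section

open MvPolynomial

namespace Pool.CX

theorem PHF_cub {k : Type} [CommRing k] (c0 c1 c2 e : k) :
    phi c0 c1 c2 e (cub c0 c1 c2 e) = Polynomial.C (cub5 c0 c1 c2 e) := by
  have hC : ∀ a : k, (phi c0 c1 c2 e) (C a) = Polynomial.C (C a) := by
    intro a
    rw [phi, aeval_C]
    rfl
  have hX : ∀ i : Fin 3, (phi c0 c1 c2 e) (Xx i) = Polynomial.C (X (Sum.inl i)) := by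
    intro i
    rw [phi, Xx, aeval_X]
    rfl
  simp only [cub, cub5, X3, map_add, map_mul, map_pow, hC, hX]

theorem PHF_dv {k : Type} [CommRing k] (c0 c1 c2 e : k) :
    phi c0 c1 c2 e (dv (cub c0 c1 c2 e)) =
      Polynomial.C (grad5 c0 c1 c2 e 2) * Polynomial.X := by
  have hC : ∀ a : k, (phi c0 c1 c2 e) (C a) = Polynomial.C (C a) := by
    intro a
    rw [phi, aeval_C]
    rfl
  have hX : ∀ i : Fin 3, (phi c0 c1 c2 e) (Xx i) = Polynomial.C (X (Sum.inl i)) := by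
    intro i
    rw [phi, Xx, aeval_X]
    rfl
  have hV0 : (phi c0 c1 c2 e) (Vv 0) =
      Polynomial.C (grad5 c0 c1 c2 e 2 * X (Sum.inr 0)) := by
    rw [phi, Vv, aeval_X]
    rfl
  have hV1 : (phi c0 c1 c2 e) (Vv 1) =
      Polynomial.C (grad5 c0 c1 c2 e 2 * X (Sum.inr 1)) := by
    rw [phi, Vv, aeval_X]
    rfl
  have hV2 : (phi c0 c1 c2 e) (Vv 2) =
      Polynomial.X - Polynomial.C (grad5 c0 c1 c2 e 0 * X (Sum.inr 0) +
        grad5 c0 c1 c2 e 1 * X (Sum.inr 1)) := by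
    rw [phi, Vv, aeval_X]
    rfl
  have h0 : grad5 c0 c1 c2 e 0 =
      C (3 * c0) * X (Sum.inl 0) ^ 2 + C e * (X (Sum.inl 1) * X (Sum.inl 2)) := rfl
  have h1 : grad5 c0 c1 c2 e 1 =
      C (3 * c1) * X (Sum.inl 1) ^ 2 + C e * (X (Sum.inl 0) * X (Sum.inl 2)) := rfl
  have h2 : grad5 c0 c1 c2 e 2 =
      C (3 * c2) * X (Sum.inl 2) ^ 2 + C e * (X (Sum.inl 0) * X (Sum.inl 1)) := rfl
  rw [dv_cub, dv_X3]
  simp only [map_add, map_mul, map_pow, hC, hX, hV0, hV1, hV2, h0, h1, h2]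
  ring

/-- The polynomials with the weight condition form an ideal. -/
def PHF_ideal {A : Type} [CommRing A] (p : A) (w : ℕ) : Ideal (Polynomial A) where
  carrier := {Q | WX p w Q}
  add_mem' := by
    intro Q R hQ hR l
    rw [Polynomial.coeff_add]
    exact dvd_add (hQ l) (hR l)
  zero_mem' := by
    intro l
    rw [Polynomial.coeff_zero]
    exact dvd_zero _
  smul_mem' := by
    intro R Q hQ l
    rw [smul_eq_mul, Polynomial.coeff_mul]
    refine Finset.dvd_sum fun x hx => ?_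
    have h1 : x.1 + x.2 = l := Finset.HasAntidiagonal.mem_antidiagonal.1 hx
    exact dvd_mul_of_dvd_right ((pow_dvd_pow p (by omega)).trans (hQ x.2)) _

theorem p_PHF : Stmt_PHF := by
  intro k _ c0 c1 c2 e w Q hQ
  have key : Iw (cub c0 c1 c2 e) w ≤
      (PHF_ideal (cub5 c0 c1 c2 e) w).comap (phi c0 c1 c2 e).toRingHom := by
    rw [Iw, Ideal.span_le]
    rintro q ⟨j, l, hjl, rfl⟩
    show WX (cub5 c0 c1 c2 e) w (phi c0 c1 c2 e (cub c0 c1 c2 e ^ j * dv (cub c0 c1 c2 e) ^ l))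
    rw [map_mul, map_pow, map_pow, PHF_cub, PHF_dv, mul_pow, ← Polynomial.C_pow,
      ← Polynomial.C_pow, ← mul_assoc, ← Polynomial.C_mul]
    intro n
    rw [Polynomial.coeff_C_mul, Polynomial.coeff_X_pow]
    split_ifs with h
    · rw [mul_one]
      exact dvd_mul_of_dvd_left (pow_dvd_pow _ (by omega)) _
    · rw [mul_zero]
      exact dvd_zero _
  exact key hQ

end Pool.CX
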