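import Pool.Agent.Work.MP_bf99ce_cx.DefsW

/-!
# Block PRM: the two cubics are prime
-/

set_option autoImplicit false

noncomputable section

open MvPolynomial

namespace Pool.CX

/-- `3 (1 - T^3)` is not a cube. -/
theorem PRM_cube {k : Type} [Field k] [CharZero k] (r : Polynomial k)
    (h : r ^ 3 + 3 * (Polynomial.X ^ 3 - 1) = 0) : False := by
  have h1 := congrArg (Polynomial.eval 1) h
  have h2 := congrArg (fun q => Polynomial.eval 1 (Polynomial.derivative q)) h
  have h3 : (3 : Polynomial k) = Polynomial.C 3 := (map_ofNat Polynomial.C 3).symm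
  rw [h3] at h1 h2
  simp at h1
  simp only [Polynomial.derivative_add, Polynomial.derivative_pow, Polynomial.derivative_mul,
    Polynomial.derivative_sub, Polynomial.derivative_one, Polynomial.derivative_X,
    Polynomial.derivative_C, Polynomial.derivative_zero, Polynomial.eval_add,
    Polynomial.eval_mul, Polynomial.eval_pow, Polynomial.eval_sub, Polynomial.eval_C,
    Polynomial.eval_X, Polynomial.eval_one, Polynomial.eval_zero, h1] at h2
  norm_num at h2

/-- The cubic is irreducible in the variable `x_2`. -/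
theorem PRM_irr {k : Type} [Field k] [CharZero k] {τ : Type} (j0 j1 : τ) (h : j0 ≠ j1) :
    Irreducible (Polynomial.X ^ 3 + Polynomial.C (3 * (X j1 ^ 3 - X j0 ^ 3)) :
      Polynomial (MvPolynomial τ k)) := by
  classical
  have hm : (Polynomial.X ^ 3 + Polynomial.C (3 * (X j1 ^ 3 - X j0 ^ 3)) :
      Polynomial (MvPolynomial τ k)).Monic := Polynomial.monic_X_pow_add_C _ (by norm_num)
  have hd : (Polynomial.X ^ 3 + Polynomial.C (3 * (X j1 ^ 3 - X j0 ^ 3)) :
      Polynomial (MvPolynomial τ k)).natDegree = 3 := Polynomial.natDegree_X_pow_add_C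
  rw [hm.irreducible_iff_roots_eq_zero_of_degree_le_three (by rw [hd]; norm_num)
    (by rw [hd])]
  rw [Multiset.eq_zero_iff_forall_notMem]
  intro r hr
  have h1 := Polynomial.isRoot_of_mem_roots hr
  have h2 : r ^ 3 + 3 * (X j1 ^ 3 - X j0 ^ 3) = 0 := by
    have h3 := h1
    rw [Polynomial.IsRoot.def] at h3
    simpa using h3
  let F : MvPolynomial τ k →ₐ[k] Polynomial k :=
    aeval (fun j => if j = j1 then Polynomial.X else 1)
  have h4 := congrArg F h2
  have hF1 : F (X j1) = Polynomial.X := by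
    simp [F]
  have hF0 : F (X j0) = 1 := by
    simp [F, h]
  rw [map_add, map_mul, map_sub, map_pow, map_pow, map_pow, hF1, hF0, map_zero, one_pow,
    map_ofNat] at h4
  exact PRM_cube _ h4

theorem p_PRM : Stmt_PRM := by
  intro k _ _ σ i0 i1 i2 h01 h02 h12
  classical
  let e1 : MvPolynomial σ k ≃ₐ[k] MvPolynomial (Option {j // j ≠ i2}) k :=
    renameEquiv k (Equiv.optionSubtypeNe i2).symm
  let e : MvPolynomial σ k ≃ₐ[k] Polynomial (MvPolynomial {j // j ≠ i2} k) :=
    e1.trans (optionEquivLeft k {j // j ≠ i2})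
  have e_2 : e (X i2) = Polynomial.X := by
    simp [e, e1, renameEquiv]
  have e_1 : e (X i1) = Polynomial.C (X ⟨i1, h12⟩) := by
    simp [e, e1, renameEquiv, Equiv.optionSubtypeNe_symm_of_ne h12]
  have e_0 : e (X i0) = Polynomial.C (X ⟨i0, h02⟩) := by
    simp [e, e1, renameEquiv, Equiv.optionSubtypeNe_symm_of_ne h02]
  have he : e (X i2 ^ 3 + 3 * (X i1 ^ 3 - X i0 ^ 3)) =
      Polynomial.X ^ 3 + Polynomial.C (3 * (X ⟨i1, h12⟩ ^ 3 - X ⟨i0, h02⟩ ^ 3)) := by
    rw [map_add, map_mul, map_sub, map_pow, map_pow, map_pow, e_2, e_1, e_0, map_ofNat,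
      map_mul, map_sub, map_pow, map_pow, map_ofNat]
  rw [← MulEquiv.prime_iff e.toMulEquiv]
  have h5 : (e.toMulEquiv : MvPolynomial σ k → _) (X i2 ^ 3 + 3 * (X i1 ^ 3 - X i0 ^ 3)) =
      Polynomial.X ^ 3 + Polynomial.C (3 * (X ⟨i1, h12⟩ ^ 3 - X ⟨i0, h02⟩ ^ 3)) := he
  rw [h5]
  rw [← UniqueFactorizationMonoid.irreducible_iff_prime]
  refine PRM_irr _ _ ?_
  intro h6
  exact h01 (congrArg Subtype.val h6)

end Pool.CX
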