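import Pool.Agent.Work.MP_bf99ce_cx.DefsW

/-! # THEOREM CX, part V0: division by `K` (QUO) -/

set_option autoImplicit false

open MvPolynomial

namespace Pool.CX

/-- The bidegree as a weight. -/
def QUO_w : Fin 3 ⊕ Fin 3 → ℕ × ℕ := Sum.elim (fun _ => (1, 0)) (fun _ => (0, 1))

theorem QUO_weight (s : Fin 3 ⊕ Fin 3 →₀ ℕ) :
    Finsupp.weight QUO_w s = (∑ i, s (Sum.inl i), ∑ i, s (Sum.inr i)) := by
  have h0 : ∀ i, (fun (i : Fin 3 ⊕ Fin 3) (c : ℕ) => c • QUO_w i) i 0 = 0 := by
    intro i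
    simp
  rw [Finsupp.weight_apply, Finsupp.sum_fintype _ _ h0, Fintype.sum_sum_type]
  simp [QUO_w, Prod.ext_iff, Prod.fst_sum, Prod.snd_sum]

theorem QUO_iff {k : Type} [CommRing k] (d m : ℕ) (f : P6 k) :
    Bihom d m f ↔ IsWeightedHomogeneous QUO_w f (d, m) := by
  constructor
  · intro h s hs
    have h1 := h s (mem_support_iff.2 hs)
    rw [QUO_weight, h1.1, h1.2]
  · intro h s hs
    have h1 := h (mem_support_iff.1 hs)
    rw [QUO_weight, Prod.ext_iff] at h1
    exact h1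

/-- The components of a product with a homogeneous polynomial. -/
theorem QUO_comp {k : Type} [CommRing k] {F Q : P6 k} {a : ℕ × ℕ} (hF : IsWeightedHomogeneous QUO_w F a)
    (j : ℕ × ℕ) :
    F * weightedHomogeneousComponent QUO_w j Q = weightedHomogeneousComponent QUO_w (a + j) (F * Q) := by
  ext s
  rw [coeff_weightedHomogeneousComponent, coeff_mul, coeff_mul]
  have key : ∀ x ∈ Finset.HasAntidiagonal.antidiagonal s, coeff x.1 F * coeff x.2 (weightedHomogeneousComponent QUO_w j Q) =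
      if Finsupp.weight QUO_w s = a + j then coeff x.1 F * coeff x.2 Q else 0 := by
    intro x hx
    rw [coeff_weightedHomogeneousComponent]
    by_cases h0 : coeff x.1 F = 0
    · simp [h0]
    have h1 := hF h0
    have h2 : Finsupp.weight QUO_w s = a + Finsupp.weight QUO_w x.2 := by
      rw [← Finset.HasAntidiagonal.mem_antidiagonal.1 hx, map_add, h1]
    rw [h2]
    by_cases h3 : Finsupp.weight QUO_w x.2 = j
    · rw [if_pos h3, if_pos (by rw [h3])]
    · rw [if_neg h3, if_neg (fun h => h3 (add_left_cancel h)), mul_zero]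
  rw [Finset.sum_congr rfl key]
  by_cases h : Finsupp.weight QUO_w s = a + j
  · simp [h]
  · simp [h]

theorem p_QUO (hBIH : Stmt_BIH) : Stmt_QUO := by
  intro k _ _ d m P hP hd he hK
  obtain ⟨⟨hK1, -⟩, ⟨hK2, -⟩, -, hL⟩ := hBIH k
  obtain ⟨Q, rfl⟩ := hK
  have hK0 : (KP : P6 k) ≠ 0 := left_ne_zero_of_mul hP
  have hQ0 : Q ≠ 0 := right_ne_zero_of_mul hP
  have hF := (QUO_iff 4 2 (KP : P6 k)).1 hK1
  have hPw := (QUO_iff d m (KP * Q)).1 hd
  have hcomp : ∀ j : ℕ × ℕ, (4, 2) + j ≠ (d, m) → weightedHomogeneousComponent QUO_w j Q = 0 := by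
    intro j hj
    have h1 := QUO_comp (Q := Q) hF j
    rw [IsWeightedHomogeneous.weightedHomogeneousComponent_ne _ hPw hj] at h1
    exact (mul_eq_zero.1 h1).resolve_left hK0
  obtain ⟨s, hs⟩ := MvPolynomial.ne_zero_iff.1 hQ0
  have key : ∀ s : Fin 3 ⊕ Fin 3 →₀ ℕ, coeff s Q ≠ 0 → (4, 2) + Finsupp.weight QUO_w s = (d, m) := by
    intro s hs
    by_contra hcon
    have h1 := hcomp _ hcon
    have h2 := congrArg (coeff s) h1
    rw [coeff_weightedHomogeneousComponent, if_pos rfl, coeff_zero] at h2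
    exact hs h2
  have h0 := key s hs
  rw [QUO_weight, Prod.ext_iff] at h0
  simp only [Prod.fst_add, Prod.snd_add] at h0
  refine ⟨by omega, by omega, Q, rfl, ?_, ?_⟩
  · intro t ht
    have h1 := key t (mem_support_iff.1 ht)
    rw [QUO_weight, Prod.ext_iff] at h1
    simp only [Prod.fst_add, Prod.snd_add] at h1
    constructor <;> omega
  · rw [hL, hK2, mul_zero, add_zero] at he
    exact (mul_eq_zero.1 he).resolve_left hK0

end Pool.CX
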