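import Pool.Agent.Work.MP_bf99ce_cx.InterfaceS
import Pool.Agent.Work.MP_bf99ce_cx.B_T2LI

/-! # THEOREM CX, part S: block IND -/

set_option autoImplicit false

noncomputable section

open MvPolynomial

namespace Pool.CXS

open Pool.CX

/-- The two cubes in `k(x_1, x_2)`. -/
theorem IND_ext {k L : Type} [Field k] [Field L] [Algebra k L] {ε : k} {x : Fin 5 → L} (h : GP ε x) :
    x 3 ^ 3 = aeval ![x 1, x 2] (-3 + 3 * X 0 ^ 3 + X 1 ^ 3 + C ε * (X 0 * X 1) : MvPolynomial (Fin 2) k) ∧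
    x 4 ^ 3 = aeval ![x 1, x 2] (-3 + X 0 ^ 3 + 3 * X 1 ^ 3 : MvPolynomial (Fin 2) k) := by
  obtain ⟨h3, h4⟩ := h.onX
  rw [h3, h4]
  have h0 := h.x0
  constructor
  · simp only [av, h0, map_add, map_neg, map_mul, map_pow, aeval_X, map_ofNat, algHom_C, Matrix.cons_val_zero,
      Matrix.cons_val_one, one_pow, one_mul, mul_one]
  · simp only [bv, h0, map_add, map_neg, map_mul, map_pow, aeval_X, map_ofNat, Matrix.cons_val_zero,
      Matrix.cons_val_one, one_pow, mul_one]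

theorem IND_ne {k L : Type} [Field k] [CharZero k] [Field L] [Algebra k L] {ε : k} {x : Fin 5 → L} (h : GP ε x) :
    x 3 ^ 3 ≠ 0 ∧ x 4 ^ 3 ≠ 0 := by
  obtain ⟨ha, hb⟩ := IND_ext h
  constructor
  · intro h0
    rw [ha] at h0
    have h1 : (-3 + 3 * X 0 ^ 3 + X 1 ^ 3 + C ε * (X 0 * X 1) : MvPolynomial (Fin 2) k) = 0 := by
      apply h.ind
      rw [h0, map_zero]
    have h2 := congrArg (constantCoeff (σ := Fin 2) (R := k)) h1
    have h3 : constantCoeff (3 : MvPolynomial (Fin 2) k) = (3 : k) := map_ofNat _ 3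
    simp [h3] at h2
  · intro h0
    rw [hb] at h0
    have h1 : (-3 + X 0 ^ 3 + 3 * X 1 ^ 3 : MvPolynomial (Fin 2) k) = 0 := by
      apply h.ind
      rw [h0, map_zero]
    have h2 := congrArg (constantCoeff (σ := Fin 2) (R := k)) h1
    have h3 : constantCoeff (3 : MvPolynomial (Fin 2) k) = (3 : k) := map_ofNat _ 3
    simp [h3] at h2

theorem p_IND (h1 : CXT.Stmt_KU) (h2 : CXT.Stmt_CU) : Stmt_IND := by
  intro k L _ _ _ _ ε x h g hg
  have : CharZero L := charZero_of_injective_algebraMap (algebraMap k L).injective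
  obtain ⟨ha, hb⟩ := IND_ext h
  obtain ⟨hx3, hx4⟩ := IND_ne h
  have hmem : ∀ r : MvPolynomial (Fin 2) k, aeval ![x 1, x 2] r ∈ CXT.li_K k x := fun r =>
    (CXT.li_mem_K x _).2 ⟨r, 1, by rw [map_one, div_one]⟩
  have hu : x 3 ^ 3 ∈ CXT.li_K k x := by
    rw [ha]
    exact hmem _
  have hv : x 4 ^ 3 ∈ CXT.li_K k x := by
    rw [hb]
    exact hmem _
  have hcube : ∀ (i j : ℕ) (z : L), i ≤ 2 → j ≤ 2 → z ∈ CXT.li_K k x →
      (x 3 ^ 3) ^ i * (x 4 ^ 3) ^ j = z ^ 3 → i = 0 ∧ j = 0 := by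
    intro i j z hi hj hz hz3
    obtain ⟨e, c, hec⟩ := (CXT.li_mem_K x z).1 hz
    have hz0 : z ≠ 0 := by
      rintro rfl
      have h3 : (x 3 ^ 3) ^ i * (x 4 ^ 3) ^ j ≠ 0 := mul_ne_zero (pow_ne_zero _ hx3) (pow_ne_zero _ hx4)
      exact h3 (by rw [hz3]; simp)
    have hc0 : aeval ![x 1, x 2] c ≠ 0 := by
      intro h0
      apply hz0
      rw [hec, h0, div_zero]
    have hc : c ≠ 0 := by
      rintro rfl
      exact hc0 (map_zero _)
    refine h2 k ε c e i j hc hi hj ?_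
    apply h.ind
    rw [map_mul, map_mul, map_pow, map_pow, map_pow, map_pow, ← ha, ← hb, mul_assoc, hz3, hec, div_pow,
      mul_div_cancel₀]
    exact pow_ne_zero _ hc0
  have key := h1 L (CXT.li_K k x) (x 3) (x 4) hu hv hcube (fun p q => aeval ![x 1, x 2] (g p q))
    (fun p q => hmem _) hg
  intro p q
  apply h.ind
  rw [key p q, map_zero]

end Pool.CXS
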