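import Pool.Agent.Work.MP_bf99ce_cx.InterfaceS

set_option autoImplicit false

open MvPolynomial TensorProduct

namespace Pool.CXS

open Pool.CX

/-- A linear form on the coefficients. -/
noncomputable def TEN_L {F : Type} [Field F] [Algebra ℂ F] (lam : F →ₗ[ℂ] ℂ)
    (h : MvPolynomial (Fin 5) F) : MvPolynomial (Fin 5) ℂ :=
  ∑ s ∈ h.support, monomial s (lam (h.coeff s))

theorem TEN_coeff {F : Type} [Field F] [Algebra ℂ F] (lam : F →ₗ[ℂ] ℂ)
    (h : MvPolynomial (Fin 5) F) (s : Fin 5 →₀ ℕ) : (TEN_L lam h).coeff s = lam (h.coeff s) := by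
  classical
  unfold TEN_L
  rw [coeff_sum]
  simp only [coeff_monomial]
  rw [Finset.sum_ite_eq']
  split_ifs with hs
  · rfl
  · rw [notMem_support_iff.1 hs, map_zero]

theorem TEN_zero {F : Type} [Field F] [Algebra ℂ F] (lam : F →ₗ[ℂ] ℂ) : TEN_L lam 0 = 0 := by
  ext s
  rw [TEN_coeff, coeff_zero, coeff_zero, map_zero]

theorem TEN_add {F : Type} [Field F] [Algebra ℂ F] (lam : F →ₗ[ℂ] ℂ)
    (h h' : MvPolynomial (Fin 5) F) : TEN_L lam (h + h') = TEN_L lam h + TEN_L lam h' := by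
  ext s
  rw [TEN_coeff, coeff_add, coeff_add, TEN_coeff, TEN_coeff, map_add]

theorem TEN_sum {F ι : Type} [Field F] [Algebra ℂ F] (lam : F →ₗ[ℂ] ℂ) (S : Finset ι)
    (h : ι → MvPolynomial (Fin 5) F) : TEN_L lam (∑ n ∈ S, h n) = ∑ n ∈ S, TEN_L lam (h n) := by
  classical
  induction S using Finset.induction_on with
  | empty => rw [Finset.sum_empty, Finset.sum_empty, TEN_zero]
  | insert a S ha ih => rw [Finset.sum_insert ha, Finset.sum_insert ha, TEN_add, ih]

theorem TEN_mul {F : Type} [Field F] [Algebra ℂ F] (lam : F →ₗ[ℂ] ℂ)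
    (q : MvPolynomial (Fin 5) F) (f : MvPolynomial (Fin 5) ℂ) :
    TEN_L lam (q * map (algebraMap ℂ F) f) = TEN_L lam q * f := by
  classical
  ext s
  rw [TEN_coeff, coeff_mul, coeff_mul, map_sum]
  refine Finset.sum_congr rfl (fun a _ => ?_)
  rw [TEN_coeff, coeff_map, mul_comm (coeff a.1 q), ← Algebra.smul_def, map_smul, smul_eq_mul,
    mul_comm]

theorem TEN_C {F : Type} [Field F] [Algebra ℂ F] (lam : F →ₗ[ℂ] ℂ) (c : F) :
    TEN_L lam (C c : MvPolynomial (Fin 5) F) = C (lam c) := by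
  classical
  ext s
  rw [TEN_coeff, coeff_C, coeff_C]
  split_ifs with hs
  · rfl
  · exact map_zero lam

theorem TEN_FX {F : Type} [Field F] [Algebra ℂ F] (ε : ℂ) :
    map (algebraMap ℂ F) (FX ε) = FX (algebraMap ℂ F ε) := by
  simp [FX, av]

theorem TEN_GX {F : Type} [Field F] [Algebra ℂ F] :
    map (algebraMap ℂ F) (GX : MvPolynomial (Fin 5) ℂ) = GX := by
  simp [GX, bv]

theorem TEN_IX {F : Type} [Field F] [Algebra ℂ F] (lam : F →ₗ[ℂ] ℂ) (ε : ℂ) (i : Fin 5)
    (h : MvPolynomial (Fin 5) F) (hh : h ∈ IX (algebraMap ℂ F ε) i) : TEN_L lam h ∈ IX ε i := by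
  unfold IX at hh ⊢
  obtain ⟨q0, z, hz, rfl⟩ := Ideal.mem_span_insert.1 hh
  obtain ⟨q1, q2, rfl⟩ := Ideal.mem_span_pair.1 hz
  have e0 : q0 * (X i - 1) =
      q0 * MvPolynomial.map (algebraMap ℂ F) (X i - 1 : MvPolynomial (Fin 5) ℂ) := by
    rw [map_sub, map_X, map_one]
  rw [e0, ← TEN_FX ε, ← TEN_GX (F := F), TEN_add, TEN_add, TEN_mul, TEN_mul, TEN_mul]
  refine Ideal.add_mem _ (Ideal.mul_mem_left _ _ (Ideal.subset_span (by simp)))
    (Ideal.add_mem _ (Ideal.mul_mem_left _ _ (Ideal.subset_span (by simp)))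
      (Ideal.mul_mem_left _ _ (Ideal.subset_span (by simp))))

theorem TEN_chart {K : Type} [Field K] [Algebra ℂ K] (x : Fin 5 → K) (i : Fin 5)
    (a : K) (ha : a ∈ chart x i) :
    ∃ P : MvPolynomial (Fin 5) ℂ, aeval (fun l => x l / x i) P = a := by
  unfold chart at ha
  rw [Algebra.adjoin_range_eq_range_aeval] at ha
  exact ha

theorem p_TEN (h1 : Stmt_KER) : Stmt_TEN := by
  intro K _ _ ε x x' k' hx hx' hind i j
  have hx2 : GP (algebraMap ℂ k' ε) x := ⟨hx.x0, hind, hx.onX⟩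
  have hsub : ∀ a : chart x' j, (a : K) ∈ k' := by
    intro a
    have h2 : chart x' j ≤ k'.toSubalgebra := by
      refine Algebra.adjoin_le ?_
      rintro _ ⟨l, rfl⟩
      exact k'.div_mem (hx' l) (hx' j)
    exact h2 a.2
  have key : (chart x i).LinearDisjoint (chart x' j) := by
    let b := Module.Free.chooseBasis ℂ (Subalgebra.toSubmodule (chart x i))
    refine Submodule.LinearDisjoint.of_basis_left' _ _ b ?_
    rw [injective_iff_map_eq_zero]
    intro c hc
    rw [Submodule.mulLeftMap_apply] at hc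
    choose P hP using fun n => TEN_chart x i (b n : K) (b n).2
    let cc : (Module.Free.ChooseBasisIndex ℂ (Subalgebra.toSubmodule (chart x i))) → k' :=
      fun n => ⟨(c n : K), hsub ⟨(c n : K), (c n).2⟩⟩
    by_contra hne
    obtain ⟨n0, hn0⟩ := Finsupp.ne_iff.1 hne
    have hcc : cc n0 ≠ 0 := by
      intro h
      apply hn0
      have h2 : (c n0 : K) = 0 := congrArg (fun t : k' => (t : K)) h
      exact Subtype.ext h2
    obtain ⟨lam, hlam⟩ : ∃ lam : k' →ₗ[ℂ] ℂ, lam (cc n0) ≠ 0 := by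
      by_contra hcon
      push Not at hcon
      exact hcc ((Module.forall_dual_apply_eq_zero_iff ℂ (cc n0)).1 hcon)
    let h : MvPolynomial (Fin 5) k' :=
      ∑ n ∈ c.support, C (cc n) * map (algebraMap ℂ k') (P n)
    have hev : aeval (fun l => x l / x i) h = 0 := by
      rw [map_sum]
      rw [← hc, Finsupp.sum]
      refine Finset.sum_congr rfl (fun n _ => ?_)
      rw [map_mul, aeval_C]
      have h3 : aeval (fun l => x l / x i) (map (algebraMap ℂ k') (P n)) =
          aeval (fun l => x l / x i) (P n) := by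
        rw [aeval_map_algebraMap]
      rw [h3, hP, mul_comm]
      rfl
    have hmem := (h1 k' K (algebraMap ℂ k' ε) x hx2 i h).1 hev
    have hmem2 := TEN_IX lam ε i h hmem
    have h4 := (h1 ℂ K ε x hx i _).2 hmem2
    have h5 : TEN_L lam h = ∑ n ∈ c.support, C (lam (cc n)) * P n := by
      rw [TEN_sum]
      refine Finset.sum_congr rfl (fun n _ => ?_)
      rw [TEN_mul, TEN_C]
    rw [h5, map_sum] at h4
    have h6 : ∑ n ∈ c.support, lam (cc n) • b n = 0 := by
      apply Subtype.ext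
      rw [Submodule.coe_sum]
      refine Eq.trans ?_ h4
      refine Finset.sum_congr rfl (fun n _ => ?_)
      rw [map_mul, aeval_C, hP, Submodule.coe_smul, Algebra.smul_def]
    have h7 := linearIndependent_iff'.1 b.linearIndependent c.support (fun n => lam (cc n)) h6 n0
      (Finsupp.mem_support_iff.2 hn0)
    exact hlam h7
  exact Subalgebra.linearDisjoint_iff_injective.1 key

end Pool.CXS
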