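import Pool.Agent.Work.MP_bf99ce_cx.InterfaceT

set_option autoImplicit false

open MvPolynomial

namespace Pool.CX

/-- the iterated form -/
noncomputable def T1QIN_psi (K : Type) [Field K] :
    MvPolynomial (Fin 2 ⊕ Fin 2) K →ₐ[K] MvPolynomial (Fin 2) (MvPolynomial (Fin 2) K) :=
  (sumAlgEquiv K (Fin 2) (Fin 2)).toAlgHom.comp (rename Sum.swap)

theorem T1QIN_sl {K : Type} [Field K] (β : Fin 2 →₀ ℕ) (Φ : MvPolynomial (Fin 2 ⊕ Fin 2) K) :
    sl β Φ = coeff β (T1QIN_psi K Φ) := rfl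

theorem T1QIN_psi_C {K : Type} [Field K] (c : K) : T1QIN_psi K (C c) = C (C c) := by
  change sumAlgEquiv K (Fin 2) (Fin 2) (rename Sum.swap (C c)) = _
  rw [rename_C, sumAlgEquiv_C_inl]

theorem T1QIN_psi_inl {K : Type} [Field K] (i : Fin 2) :
    T1QIN_psi K (X (Sum.inl i)) = C (X i) := by
  change sumAlgEquiv K (Fin 2) (Fin 2) (rename Sum.swap (X (Sum.inl i))) = _
  rw [rename_X]
  exact sumAlgEquiv_X_inr (c := i) ..

theorem T1QIN_psi_inr {K : Type} [Field K] (i : Fin 2) :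
    T1QIN_psi K (X (Sum.inr i)) = X i := by
  change sumAlgEquiv K (Fin 2) (Fin 2) (rename Sum.swap (X (Sum.inr i))) = _
  rw [rename_X]
  exact sumAlgEquiv_X_inl (c := i) ..

theorem T1QIN_lf {K : Type} [Field K] [Algebra ℂ K] (d d' : Fin 2 → Derivation ℂ K K)
    (a : Fin 3 → K) : T1QIN_psi K (lf3 d d' a) =
      C (∑ i : Fin 2, C (dt3 ![d i, d' 0, d' 1] a) * X i) +
        ∑ i : Fin 2, C (C (dt3 ![d 0, d 1, d' i] a)) * X i := by
  unfold lf3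
  simp only [map_add, map_sum, map_mul, T1QIN_psi_C, T1QIN_psi_inl, T1QIN_psi_inr]

/-- the possible coefficients -/
def T1QIN_T {k K : Type} [Field k] [Field K] [Algebra k K] (x : Fin 5 → K)
    (D1 D2 : Derivation k K K) (i : Fin 5) (ν : K) (m s : ℕ) : Set (MvPolynomial (Fin 2) K) :=
  {θ | (s ≤ m → ∃ Ξ ∈ CXT.Sp D1 D2 x i (m - s), θ = C (ν ^ s) * Ξ) ∧ (m < s → θ = 0)}

section

variable {k K : Type} [Field k] [Field K] [Algebra k K] {x : Fin 5 → K}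
  {D1 D2 : Derivation k K K} {i : Fin 5} {ν : K}

theorem T1QIN_zero (m s : ℕ) : (0 : MvPolynomial (Fin 2) K) ∈ T1QIN_T x D1 D2 i ν m s :=
  ⟨fun _ => ⟨0, AddSubgroup.zero_mem _, by rw [mul_zero]⟩, fun _ => rfl⟩

theorem T1QIN_add {m s : ℕ} {θ θ' : MvPolynomial (Fin 2) K} (h : θ ∈ T1QIN_T x D1 D2 i ν m s)
    (h' : θ' ∈ T1QIN_T x D1 D2 i ν m s) : θ + θ' ∈ T1QIN_T x D1 D2 i ν m s := by
  refine ⟨fun hs => ?_, fun hs => ?_⟩
  · obtain ⟨Ξ, h1, rfl⟩ := h.1 hs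
    obtain ⟨Ξ', h2, rfl⟩ := h'.1 hs
    exact ⟨Ξ + Ξ', AddSubgroup.add_mem _ h1 h2, by rw [mul_add]⟩
  · rw [h.2 hs, h'.2 hs, add_zero]

theorem T1QIN_sum {m s : ℕ} {ι : Type} (S : Finset ι) (θ : ι → MvPolynomial (Fin 2) K)
    (h : ∀ j ∈ S, θ j ∈ T1QIN_T x D1 D2 i ν m s) : ∑ j ∈ S, θ j ∈ T1QIN_T x D1 D2 i ν m s := by
  classical
  induction S using Finset.induction_on with
  | empty => rw [Finset.sum_empty]; exact T1QIN_zero m s
  | insert j S hj ih =>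
    rw [Finset.sum_insert hj]
    exact T1QIN_add (h j (Finset.mem_insert_self _ _))
      (ih fun l hl => h l (Finset.mem_insert_of_mem hl))

theorem T1QIN_mulP (hSPM : Stmt_T1SPM) {m s : ℕ} {θ P : MvPolynomial (Fin 2) K}
    (h : θ ∈ T1QIN_T x D1 D2 i ν m s) (hP : P ∈ CXT.Sp D1 D2 x i 1) :
    θ * P ∈ T1QIN_T x D1 D2 i ν (m + 1) s := by
  refine ⟨fun hs => ?_, fun hs => ?_⟩
  · rcases Nat.lt_or_ge m s with h1 | h1
    · rw [h.2 h1, zero_mul]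
      exact ⟨0, AddSubgroup.zero_mem _, by rw [mul_zero]⟩
    · obtain ⟨Ξ, h2, rfl⟩ := h.1 h1
      have h3 := (hSPM k K x D1 D2 i).1 (m - s) 1 Ξ h2 P hP
      have h4 : m - s + 1 = m + 1 - s := by omega
      rw [h4] at h3
      exact ⟨Ξ * P, h3, by rw [mul_assoc]⟩
  · rw [h.2 (by omega), zero_mul]

theorem T1QIN_mulw (hSPM : Stmt_T1SPM) {m s : ℕ} {θ : MvPolynomial (Fin 2) K} {w : K}
    (h : θ ∈ T1QIN_T x D1 D2 i ν m s) (hw : w ∈ CXT.ring1 k x i) :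
    θ * C (ν * w) ∈ T1QIN_T x D1 D2 i ν (m + 1) (s + 1) := by
  refine ⟨fun hs => ?_, fun hs => ?_⟩
  · obtain ⟨Ξ, h2, rfl⟩ := h.1 (by omega)
    have h3 := (hSPM k K x D1 D2 i).2.1 (m - s) w hw Ξ h2
    have h4 : m + 1 - (s + 1) = m - s := by omega
    rw [h4]
    refine ⟨C w * Ξ, h3, ?_⟩
    rw [C_mul, pow_succ, C_mul]
    ring
  · rw [h.2 (by omega), zero_mul]

/-- the polynomials in question -/
def T1QIN_Good (x : Fin 5 → K) (D1 D2 : Derivation k K K) (i : Fin 5) (ν : K) (m : ℕ)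
    (F : MvPolynomial (Fin 2) (MvPolynomial (Fin 2) K)) : Prop :=
  ∀ β : Fin 2 →₀ ℕ, coeff β F ∈ T1QIN_T x D1 D2 i ν m (β 0 + β 1)

theorem T1QIN_good_C (hSPM : Stmt_T1SPM) {c : K} (hc : c ∈ CXT.ring1 k x i) :
    T1QIN_Good x D1 D2 i ν 0 (C (C c)) := by
  classical
  intro β
  rw [coeff_C]
  by_cases h : (0 : Fin 2 →₀ ℕ) = β
  · subst h
    rw [if_pos rfl]
    refine ⟨fun _ => ⟨C c, (hSPM k K x D1 D2 i).2.2.1 c hc, by simp⟩, fun h => ?_⟩
    exact absurd h (by simp)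
  · rw [if_neg h]
    exact T1QIN_zero _ _

theorem T1QIN_good_mul (hSPM : Stmt_T1SPM) {m : ℕ}
    {F : MvPolynomial (Fin 2) (MvPolynomial (Fin 2) K)} (hF : T1QIN_Good x D1 D2 i ν m F)
    {P : MvPolynomial (Fin 2) K} (hP : P ∈ CXT.Sp D1 D2 x i 1) {w : Fin 2 → K}
    (hw : ∀ j, w j ∈ CXT.ring1 k x i) :
    T1QIN_Good x D1 D2 i ν (m + 1) (F * (C P + ∑ j : Fin 2, C (C (ν * w j)) * X j)) := by
  classical
  intro β
  rw [mul_add, coeff_add, Finset.mul_sum, coeff_sum]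
  apply T1QIN_add
  · rw [mul_comm, coeff_C_mul, mul_comm]
    exact T1QIN_mulP hSPM (hF β) hP
  · apply T1QIN_sum
    intro j _
    have h1 : F * (C (C (ν * w j)) * X j) = C (C (ν * w j)) * (F * X j) := by ring
    rw [h1, coeff_C_mul, coeff_mul_X']
    by_cases hj : j ∈ β.support
    · rw [if_pos hj, mul_comm]
      have h2 := T1QIN_mulw hSPM (hF (β - Finsupp.single j 1)) (hw j)
      have h3 : (β - Finsupp.single j 1 : Fin 2 →₀ ℕ) 0 +
          (β - Finsupp.single j 1 : Fin 2 →₀ ℕ) 1 + 1 = β 0 + β 1 := by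
        rw [Finsupp.mem_support_iff] at hj
        have hj' : 1 ≤ β j := Nat.one_le_iff_ne_zero.2 hj
        fin_cases j
        · simp at hj' ⊢
          omega
        · simp at hj' ⊢
          omega
      rwa [h3] at h2
    · rw [if_neg hj, mul_zero]
      exact T1QIN_zero _ _

end

theorem T1QIN_prod (hSPM : Stmt_T1SPM) (k K : Type) [Field k] [Field K] [Algebra ℂ K]
    [Algebra k K] (x : Fin 5 → K) (d d' : Fin 2 → Derivation ℂ K K) (D1 D2 : Derivation k K K)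
    (A0 : Subalgebra ℂ K) (i : Fin 5) (ν : K) (h1 : ∀ z, D1 z = d 0 z) (h2 : ∀ z, D2 z = d 1 z)
    (h3 : ∀ a ∈ A0, a ∈ CXT.ring1 k x i ∧ ∀ j, d' j a ∈ CXT.ring1 k x i)
    (h4 : ∀ u ∈ A0, ∀ v ∈ A0, ∃ w ∈ CXT.ring1 k x i, d 0 u * d 1 v - d 1 u * d 0 v = ν * w)
    (c : K) (hc : c ∈ A0) : ∀ (m : ℕ) (a : Fin m → Fin 3 → K), (∀ j l, a j l ∈ A0) →
    T1QIN_Good x D1 D2 i ν m (T1QIN_psi K (C c * ∏ j, lf3 d d' (a j))) := by
  intro m
  induction m with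
  | zero =>
    intro a _
    rw [Fin.prod_univ_zero, mul_one, T1QIN_psi_C]
    exact T1QIN_good_C hSPM (h3 c hc).1
  | succ m ih =>
    intro a ha
    rw [Fin.prod_univ_castSucc, ← mul_assoc, map_mul]
    have h5 := ih (fun j => a (Fin.castSucc j)) fun j l => ha _ l
    -- the last factor
    obtain ⟨b, hb⟩ : ∃ b : Fin 3 → K, b = a (Fin.last m) := ⟨_, rfl⟩
    have hbA : ∀ l, b l ∈ A0 := by rw [hb]; exact fun l => ha _ l
    rw [← hb, T1QIN_lf]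
    obtain ⟨w12, hw12, e12⟩ := h4 (b 1) (hbA 1) (b 2) (hbA 2)
    obtain ⟨w20, hw20, e20⟩ := h4 (b 2) (hbA 2) (b 0) (hbA 0)
    obtain ⟨w01, hw01, e01⟩ := h4 (b 0) (hbA 0) (b 1) (hbA 1)
    have hw : ∀ j : Fin 2, dt3 ![d 0, d 1, d' j] b =
        ν * (d' j (b 0) * w12 + d' j (b 1) * w20 + d' j (b 2) * w01) := by
      intro j
      have e : dt3 ![d 0, d 1, d' j] b =
          d' j (b 0) * (d 0 (b 1) * d 1 (b 2) - d 1 (b 1) * d 0 (b 2)) +
          d' j (b 1) * (d 0 (b 2) * d 1 (b 0) - d 1 (b 2) * d 0 (b 0)) +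
          d' j (b 2) * (d 0 (b 0) * d 1 (b 1) - d 1 (b 0) * d 0 (b 1)) := by
        unfold dt3
        rw [Matrix.det_fin_three]
        simp only [Matrix.of_apply, Matrix.cons_val_zero, Matrix.cons_val_one, Matrix.cons_val]
        ring
      rw [e, e12, e20, e01]
      ring
    have hP : (∑ j : Fin 2, C (dt3 ![d j, d' 0, d' 1] b) * X j : MvPolynomial (Fin 2) K) ∈
        CXT.Sp D1 D2 x i 1 := by
      have e : (∑ j : Fin 2, C (dt3 ![d j, d' 0, d' 1] b) * X j : MvPolynomial (Fin 2) K) =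
          C (d' 0 (b 1) * d' 1 (b 2) - d' 0 (b 2) * d' 1 (b 1)) * CXT.dif D1 D2 (b 0) +
          C (d' 0 (b 2) * d' 1 (b 0) - d' 0 (b 0) * d' 1 (b 2)) * CXT.dif D1 D2 (b 1) +
          C (d' 0 (b 0) * d' 1 (b 1) - d' 0 (b 1) * d' 1 (b 0)) * CXT.dif D1 D2 (b 2) := by
        unfold dt3 CXT.dif
        simp only [h1, h2, Fin.sum_univ_two]
        rw [Matrix.det_fin_three, Matrix.det_fin_three]
        simp only [Matrix.of_apply, Matrix.cons_val_zero, Matrix.cons_val_one, Matrix.cons_val,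
          map_sub, map_add, map_mul]
        ring
      rw [e]
      have hm : ∀ u v, u ∈ A0 → v ∈ A0 → ∀ u' v', u' ∈ A0 → v' ∈ A0 →
          d' 0 u * d' 1 v - d' 0 u' * d' 1 v' ∈ CXT.ring1 k x i := fun u v hu hv u' v' hu' hv' =>
        Subalgebra.sub_mem _ (Subalgebra.mul_mem _ ((h3 u hu).2 0) ((h3 v hv).2 1))
          (Subalgebra.mul_mem _ ((h3 u' hu').2 0) ((h3 v' hv').2 1))
      have hd : ∀ l, CXT.dif D1 D2 (b l) ∈ CXT.Sp D1 D2 x i 1 := fun l =>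
        (hSPM k K x D1 D2 i).2.2.2 (b l) (h3 _ (hbA l)).1
      have hcm := (hSPM k K x D1 D2 i).2.1 1
      exact AddSubgroup.add_mem _ (AddSubgroup.add_mem _
        (hcm _ (hm _ _ (hbA 1) (hbA 2) _ _ (hbA 2) (hbA 1)) _ (hd 0))
        (hcm _ (hm _ _ (hbA 2) (hbA 0) _ _ (hbA 0) (hbA 2)) _ (hd 1)))
        (hcm _ (hm _ _ (hbA 0) (hbA 1) _ _ (hbA 1) (hbA 0)) _ (hd 2))
    simp only [hw]
    refine T1QIN_good_mul hSPM h5 hP (w := fun j =>
      d' j (b 0) * w12 + d' j (b 1) * w20 + d' j (b 2) * w01) fun j => ?_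
    exact Subalgebra.add_mem _ (Subalgebra.add_mem _
      (Subalgebra.mul_mem _ ((h3 _ (hbA 0)).2 j) hw12)
      (Subalgebra.mul_mem _ ((h3 _ (hbA 1)).2 j) hw20))
      (Subalgebra.mul_mem _ ((h3 _ (hbA 2)).2 j) hw01)

theorem p_T1QIN (hSPM : Stmt_T1SPM) : Stmt_T1QIN := by
  intro k K _ _ _ _ x d d' D1 D2 A0 i ν h1 h2 h3 h4 m Φ hΦ
  have key : T1QIN_Good x D1 D2 i ν m (T1QIN_psi K Φ) := by
    unfold Gf at hΦ
    induction hΦ using AddSubmonoid.closure_induction with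
    | mem Ψ hΨ =>
      obtain ⟨c, a, hc, ha, rfl⟩ := hΨ
      exact T1QIN_prod hSPM k K x d d' D1 D2 A0 i ν h1 h2 h3 h4 c hc m a ha
    | zero =>
      intro β
      have e0 : coeff β (T1QIN_psi K 0) = 0 := by
        rw [map_zero (T1QIN_psi K), coeff_zero]
      rw [e0]
      exact T1QIN_zero _ _
    | add Ψ Ψ' _ _ hΨ hΨ' =>
      intro β
      have e0 : coeff β (T1QIN_psi K (Ψ + Ψ')) =
          coeff β (T1QIN_psi K Ψ) + coeff β (T1QIN_psi K Ψ') := by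
        rw [map_add (T1QIN_psi K), coeff_add]
      rw [e0]
      exact T1QIN_add (hΨ β) (hΨ' β)
  intro β hβ
  rw [T1QIN_sl]
  exact (key β).1 hβ

end Pool.CX
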