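import Pool.Agent.Work.MP_bf99ce_cx.InterfaceT2

set_option autoImplicit false

noncomputable section

open MvPolynomial

namespace Pool.CXT

open Pool.CX

theorem bi_mul {k : Type} [CommRing k] {d d' m m' : ℕ} {P Q : P6 k} (hP : Bihom d m P) (hQ : Bihom d' m' Q) :
    Bihom (d + d') (m + m') (P * Q) := by
  classical
  intro s hs
  have h := MvPolynomial.support_mul P Q hs
  obtain ⟨a, ha, b, hb, rfl⟩ := Finset.mem_add.1 h
  obtain ⟨a1, a2⟩ := hP a ha
  obtain ⟨b1, b2⟩ := hQ b hb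
  simp only [Finsupp.add_apply, Finset.sum_add_distrib, a1, a2, b1, b2, and_self]

theorem bi_add {k : Type} [CommRing k] {d m : ℕ} {P Q : P6 k} (hP : Bihom d m P) (hQ : Bihom d m Q) :
    Bihom d m (P + Q) := by
  classical
  intro s hs
  rcases Finset.mem_union.1 (MvPolynomial.support_add hs) with h | h
  · exact hP s h
  · exact hQ s h

theorem bi_zero {k : Type} [CommRing k] {d m : ℕ} : Bihom d m (0 : P6 k) := by
  intro s hs
  simp at hs

theorem bi_C {k : Type} [CommRing k] (c : k) : Bihom 0 0 (C c : P6 k) := by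
  classical
  intro s hs
  rw [mem_support_iff, coeff_C] at hs
  have h : 0 = s := by
    by_contra h
    exact hs (if_neg h)
  subst h
  simp

theorem bi_neg {k : Type} [CommRing k] {d m : ℕ} {P : P6 k} (hP : Bihom d m P) : Bihom d m (-P) := by
  have h := bi_mul (bi_C (-1 : k)) hP
  rw [zero_add, zero_add] at h
  simpa using h

theorem bi_X {k : Type} [CommRing k] (i : Fin 3) : Bihom 1 0 (Xx i : P6 k) := by
  classical
  intro s hs
  unfold Xx at hs
  rw [mem_support_iff, coeff_X] at hs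
  have h : Finsupp.single (Sum.inl i) 1 = s := by
    by_contra h
    exact hs (if_neg h)
  subst h
  simp [Finsupp.single_apply]

theorem bi_V {k : Type} [CommRing k] (i : Fin 3) : Bihom 0 1 (Vv i : P6 k) := by
  classical
  intro s hs
  unfold Vv at hs
  rw [mem_support_iff, coeff_X] at hs
  have h : Finsupp.single (Sum.inr i) 1 = s := by
    by_contra h
    exact hs (if_neg h)
  subst h
  simp [Finsupp.single_apply]

theorem bi_pow {k : Type} [CommRing k] {d m : ℕ} {P : P6 k} (hP : Bihom d m P) (n : ℕ) :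
    Bihom (n * d) (n * m) (P ^ n) := by
  induction n with
  | zero =>
    simp only [zero_mul, pow_zero]
    simpa using bi_C (1 : k)
  | succ n ih =>
    rw [pow_succ, add_mul, add_mul, one_mul, one_mul]
    exact bi_mul ih hP

theorem bi_smul {k : Type} [CommRing k] {d m : ℕ} {P : P6 k} (c : k) (hP : Bihom d m P) : Bihom d m (C c * P) := by
  have h := bi_mul (bi_C c) hP
  rwa [zero_add, zero_add] at h

theorem bi_cub {k : Type} [CommRing k] (c0 c1 c2 e : k) : Bihom 3 0 (cub c0 c1 c2 e) := by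
  have hX : Bihom 3 0 (X3 : P6 k) := by
    unfold X3
    exact bi_mul (bi_mul (bi_X 0) (bi_X 1)) (bi_X 2)
  unfold cub
  exact bi_add (bi_add (bi_add (bi_smul _ (bi_pow (bi_X 0) 3)) (bi_smul _ (bi_pow (bi_X 1) 3)))
    (bi_smul _ (bi_pow (bi_X 2) 3))) (bi_smul _ hX)

theorem bi_dcub {k : Type} [CommRing k] (c0 c1 c2 e : k) : Bihom 2 1 (dv (cub c0 c1 c2 e)) := by
  have h1 : ∀ i : Fin 3, Bihom 2 1 ((Xx i : P6 k) ^ 2 * Vv i) := fun i => bi_mul (bi_pow (bi_X i) 2) (bi_V i)
  have h2 : ∀ i j l : Fin 3, Bihom 2 1 ((Vv i : P6 k) * (Xx j * Xx l)) := fun i j l =>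
    bi_mul (bi_V i) (bi_mul (bi_X j) (bi_X l))
  rw [dv_cub, dv_X3]
  exact bi_add (bi_add (bi_add (bi_smul _ (h1 0)) (bi_smul _ (h1 1))) (bi_smul _ (h1 2)))
    (bi_smul _ (bi_add (bi_add (h2 _ _ _) (h2 _ _ _)) (h2 _ _ _)))

theorem p_BI : Stmt_BI := by
  intro k _ P Q d d' m m'
  refine ⟨bi_mul, bi_add, bi_neg, bi_zero, bi_C, bi_X, bi_V, fun ε => ⟨?_, ?_⟩, ?_, ?_, fun n h => bi_pow h n⟩
  · rw [aP_eq]; exact bi_cub _ _ _ _
  · rw [aP_eq]; exact bi_dcub _ _ _ _
  · rw [bP_eq]; exact bi_cub _ _ _ _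
  · rw [bP_eq]; exact bi_dcub _ _ _ _

end Pool.CXT
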