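import Pool.Agent.Work.MP_bf99ce_cx.InterfaceV1b

/-!
# THEOREM CX, part V1, block V1A: the special fibre, the induction
-/

set_option autoImplicit false

noncomputable section

open MvPolynomial

namespace Pool.CX.V1

theorem V1A_num (D m h' : ℕ) (w n : Fin 5 → ℕ) (hD : 2 ≤ D) (hm : 2 ≤ m) (h : 3 * (D + m) ≤ m + ∑ i, w i)
    (h1 : m - 2 = 2 * h') (h2 : ∀ i, w i - 2 = 2 * h' + 3 * n i) (h3 : D - 2 = 2 * h' + ∑ i, n i) :
    m = 2 * (h' + 1) ∧ (∀ i, w i = 2 * (h' + 1) + 3 * n i) ∧ D = 2 * (h' + 1) + ∑ i, n i := by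
  simp only [Fin.sum_univ_five] at h h3 ⊢
  have a0 := h2 0
  have a1 := h2 1
  have a2 := h2 2
  have a3 := h2 3
  have a4 := h2 4
  refine ⟨by omega, fun i => ?_, by omega⟩
  fin_cases i
  · show w 0 = 2 * (h' + 1) + 3 * n 0
    omega
  · show w 1 = 2 * (h' + 1) + 3 * n 1
    omega
  · show w 2 = 2 * (h' + 1) + 3 * n 2
    omega
  · show w 3 = 2 * (h' + 1) + 3 * n 3
    omega
  · show w 4 = 2 * (h' + 1) + 3 * n 4
    omega

theorem V1A_num2 (D m : ℕ) (w : Fin 5 → ℕ) (hD : 2 ≤ D) (hm : 2 ≤ m) (h : 3 * (D + m) ≤ m + ∑ i, w i) :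
    3 * (D - 2 + (m - 2)) ≤ (m - 2) + ∑ i, (w i - 2) := by
  simp only [Fin.sum_univ_five] at h ⊢
  omega

theorem p_V1A (h1 : Stmt_V1M0) (h2 : Stmt_V1STP) (h3 : Stmt_V1QUO) (h4 : Stmt_V1c) : Stmt_V1a := by
  intro k _ _ D m
  induction m using Nat.strong_induction_on generalizing D with
  | _ m ih =>
    intro w Q hQ hB he hI hle
    rcases Nat.eq_zero_or_pos m with rfl | hm
    · obtain ⟨c, n, hc, hw, hD, hQ'⟩ := h1 k D w Q hQ hB hI (by simpa using hle)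
      exact ⟨c, 0, n, hc, rfl, fun i => by rw [hw i]; ring, by rw [hD]; ring, by rw [hQ', pow_zero, mul_one]⟩
    · obtain ⟨Q', rfl⟩ := h2 k D m w Q hm hB he hI hle
      have hQ' : Q' ≠ 0 := right_ne_zero_of_mul hQ
      obtain ⟨hD2, hm2, hB', he'⟩ := h3 k D m Q' hQ' hB
      obtain ⟨c, h', n, hc, e1, e2, e3, rfl⟩ := ih (m - 2) (by omega) (D - 2) (fun i => w i - 2) Q' hQ' hB' (he' he)
        (fun i => h4 k i (w i) Q' (hI i)) (V1A_num2 D m w hD2 hm2 hle)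
      obtain ⟨f1, f2, f3⟩ := V1A_num D m h' w n hD2 hm2 hle e1 e2 e3
      exact ⟨c, h' + 1, n, hc, f1, f2, f3, by rw [pow_succ]; ring⟩

end Pool.CX.V1
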