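import Pool.Agent.Work.MP_bf99ce_cx.InterfaceV1

set_option autoImplicit false

noncomputable section

open MvPolynomial

namespace Pool.CX.V1

theorem p_V1B (h1 : Stmt_V1CNT) (h2 : Stmt_V1SWP) (h3 : Stmt_V1KDV) : Stmt_V1B := by
  intro k _ _ D m w Q G hm hQ he hw hc
  exact h3 k D m Q hQ he hm (h2 k D m Q hQ fun c hgood => h1 k c hgood D m w Q G hQ he hw hc)

end Pool.CX.V1
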