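import Pool.Agent.Work.MP_bf99ce_cx.InterfaceV1b

/-! Block V1C (helper90): division by `Kh` lowers the weights by `2`. -/

set_option autoImplicit false

noncomputable section

open MvPolynomial

namespace Pool.CX.V1

theorem p_V1C (h1 : Stmt_V1WX) (h2 : Stmt_V1KH) (h3 : Stmt_VCO) : Stmt_V1c := by
  intro k _ _ i w Z h
  obtain ⟨hp, hc0, hc1, hdeg⟩ := h2 k i
  have h4 : WX (pl i : R5 k) w (ph i Kh * ph i Z) := by
    rw [← map_mul]
    exact (h1 k i w (Kh * Z)).1 h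
  exact (h1 k i (w - 2) Z).2 (h3 (R5 k) (pl i) w (ph i Kh) (ph i Z) hp hc0 hc1 hdeg h4)

end Pool.CX.V1
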