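import Pool.Agent.Work.MP_bf99ce_cx.InterfaceV1

/-! # THEOREM CX, block V1CAN: cancellation of `Xx 0`, `Xx 2` -/

set_option autoImplicit false

noncomputable section

open MvPolynomial

namespace Pool.CX.V1

theorem V1CAN_ev {k : Type} [Field k] :
    eval (Sum.elim (![0, 1, 0] : Fin 3 → k) (![1, 0, 1] : Fin 3 → k)) (Kh : P6 k) = -1 := by
  simp only [Kh, lam, Xx, Vv, map_add, map_mul, map_sub, eval_X, map_ofNat, Fin.isValue, show (0 : Fin 3) + 1 = 1 from rfl,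
    show (0 : Fin 3) + 2 = 2 from rfl, show (1 : Fin 3) + 1 = 2 from rfl, show (1 : Fin 3) + 2 = 0 from rfl,
    show (2 : Fin 3) + 1 = 0 from rfl, show (2 : Fin 3) + 2 = 1 from rfl, Sum.elim_inl, Sum.elim_inr]
  simp

theorem V1CAN_not {k : Type} [Field k] (i : Fin 3) (hi : (![0, 1, 0] : Fin 3 → k) i = 0) : ¬ (Xx i : P6 k) ∣ Kh := by
  rintro ⟨W, hW⟩
  have h := congrArg (eval (Sum.elim (![0, 1, 0] : Fin 3 → k) (![1, 0, 1] : Fin 3 → k))) hW
  rw [V1CAN_ev, map_mul, Xx, eval_X, Sum.elim_inl, hi, zero_mul] at h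
  exact neg_ne_zero.mpr one_ne_zero h

theorem V1CAN_pow {k : Type} [Field k] (i : Fin 3) (hi : (![0, 1, 0] : Fin 3 → k) i = 0) (a : ℕ) (Q : P6 k)
    (h : Kh ∣ Xx i ^ a * Q) : Kh ∣ Q := by
  have hp : Prime (Xx i : P6 k) := MvPolynomial.X_prime
  induction a with
  | zero => simpa using h
  | succ n ih =>
    refine ih ?_
    obtain ⟨W, hW⟩ := h
    have h1 : (Xx i : P6 k) ∣ Kh * W := ⟨Xx i ^ n * Q, by rw [← hW]; ring⟩
    obtain ⟨W', rfl⟩ := (hp.dvd_or_dvd h1).resolve_left (V1CAN_not i hi)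
    refine ⟨W', mul_left_cancel₀ hp.ne_zero ?_⟩
    linear_combination hW

theorem p_V1CAN : Stmt_V1CAN := by
  intro k _ _ a b Q h
  exact V1CAN_pow 2 (by simp) b Q (V1CAN_pow 0 (by simp) a _ h)

end Pool.CX.V1
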