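import Pool.Agent.Work.MP_bf99ce_cx.InterfaceV1

/-!
# Block V1CN2: the count in the exceptional case (helper74)
-/

set_option autoImplicit false

noncomputable section

open MvPolynomial

namespace Pool.CX.V1

theorem V1CN2_Lne {k : Type} [Field k] (i : Fin 5) : (Lc i : Polynomial k) ≠ 0 :=
  Polynomial.X_sub_C_ne_zero _

theorem V1CN2_Ldeg {k : Type} [Field k] (i : Fin 5) : (Lc i : Polynomial k).natDegree = 1 :=
  Polynomial.natDegree_X_sub_C _

theorem V1CN2_deg {k : Type} [Field k] (c : k)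
    (hN : ∀ i, (Nc c i).natDegree = 3 ∧ Nc c i ≠ 0) (a b : Fin 5 → ℕ) :
    (∏ i, (Lc i ^ a i * Nc c i ^ b i)).natDegree = ∑ i, (a i + 3 * b i) := by
  rw [Polynomial.natDegree_prod]
  · apply Finset.sum_congr rfl
    intro i _
    rw [Polynomial.natDegree_mul (pow_ne_zero _ (V1CN2_Lne i)) (pow_ne_zero _ (hN i).2),
      Polynomial.natDegree_pow, Polynomial.natDegree_pow, V1CN2_Ldeg, (hN i).1]
    ring
  · intro i _
    exact mul_ne_zero (pow_ne_zero _ (V1CN2_Lne i)) (pow_ne_zero _ (hN i).2)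

theorem V1CN2_ne {k : Type} [Field k] (c : k)
    (hN : ∀ i, (Nc c i).natDegree = 3 ∧ Nc c i ≠ 0) (a b : Fin 5 → ℕ) :
    (∏ i, (Lc i ^ a i * Nc c i ^ b i)) ≠ 0 :=
  Finset.prod_ne_zero_iff.2 fun i _ =>
    mul_ne_zero (pow_ne_zero _ (V1CN2_Lne i)) (pow_ne_zero _ (hN i).2)

theorem V1CN2_cop {k : Type} [Field k] (c : k) (P : Polynomial k) (a b : Fin 5 → ℕ)
    (h : ∀ i, IsCoprime P (Lc i * Nc c i)) :
    IsCoprime P (∏ i, (Lc i ^ a i * Nc c i ^ b i)) := by
  apply IsCoprime.prod_right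
  intro i _
  exact IsCoprime.mul_right (h i).of_mul_right_left.pow_right (h i).of_mul_right_right.pow_right

theorem V1CN2_prod {k : Type} [Field k] (c : k) (F : Polynomial k) (a b : Fin 5 → ℕ)
    (h : ∀ i j, i ≠ j → IsCoprime (Lc i * Nc c i) (Lc j * Nc c j))
    (hd : ∀ i, Lc i ^ a i * Nc c i ^ b i ∣ F) :
    ∏ i, (Lc i ^ a i * Nc c i ^ b i) ∣ F := by
  apply Finset.prod_dvd_of_coprime
  · intro i _ j _ hij
    have hij' := h i j hij
    have l1 : IsCoprime (Lc i) (Lc j) := hij'.of_mul_left_left.of_mul_right_left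
    have l2 : IsCoprime (Lc i) (Nc c j) := hij'.of_mul_left_left.of_mul_right_right
    have l3 : IsCoprime (Nc c i) (Lc j) := hij'.of_mul_left_right.of_mul_right_left
    have l4 : IsCoprime (Nc c i) (Nc c j) := hij'.of_mul_left_right.of_mul_right_right
    exact IsCoprime.mul_left
      (IsCoprime.mul_right (l1.pow) (l2.pow)) (IsCoprime.mul_right (l3.pow) (l4.pow))
  · intro i _
    exact hd i

theorem p_V1CN2 (h1 : Stmt_V1COP) (h2 : Stmt_V1PSI) (h3 : Stmt_V1DIV) (h4 : Stmt_V1CNT)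
    (h5 : Stmt_V1D1) (h6 : Stmt_V1D2) (h7 : Stmt_V1D3) (h8 : Stmt_V1D4) : Stmt_V1CN2 := by
  intro k _ _ c hc D m w Q hm hQ he hw hnum
  obtain ⟨c1, c2, -, c4, c5, c6, c7⟩ := h1 k c hc
  have hw0 : ∀ i, Q - Kh * (fun _ : Fin 5 => (0 : P6 k)) i ∈ I i (w i) := by
    intro i
    simpa using hw i
  have hsum : 6 * D + 4 * m ≤ ∑ i, (w i + w i) := by
    rw [Finset.sum_add_distrib]
    omega
  by_cases h3w : ∀ i, 3 ∣ w i
  · by_contra hcur
    -- dcur is zero
    have hd0 : dcur c Q = 0 := by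
      by_contra hne
      have d1 : Mc c ^ 2 ∣ dcur c Q := h5 k c hc Q he
      have d2 : ∏ i, (Lc i ^ (w i - 1) * Nc c i ^ (w i / 3)) ∣ dcur c Q :=
        V1CN2_prod c _ _ _ c1 fun i => h6 k c i (w i) Q (h3w i) (hw i)
      have d3 : IsCoprime (Mc c ^ 2) (∏ i, (Lc i ^ (w i - 1) * Nc c i ^ (w i / 3))) :=
        (V1CN2_cop c _ _ _ c2).pow_left
      have d4 := d3.mul_dvd d1 d2
      have d5 := Polynomial.natDegree_le_of_dvd d4 hne
      rw [Polynomial.natDegree_mul (pow_ne_zero _ c6.ne_zero) (V1CN2_ne c c4 _ _),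
        V1CN2_deg c c4, Polynomial.natDegree_pow, c5] at d5
      have d6 := h7 k c D m Q hm hQ he
      have d7 : ∑ i, (w i + w i) ≤ (∑ i, ((w i - 1) + 3 * (w i / 3))) + 5 := by
        have : ∑ i, (w i + w i) ≤ ∑ i : Fin 5, (((w i - 1) + 3 * (w i / 3)) + 1) := by
          apply Finset.sum_le_sum
          intro i _
          have := h3w i
          omega
        have h9 : ∑ i : Fin 5, (((w i - 1) + 3 * (w i / 3)) + 1) =
            (∑ i, ((w i - 1) + 3 * (w i / 3))) + 5 := by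
          rw [Finset.sum_add_distrib]
          simp
        rwa [h9] at this
      omega
    have hev : (cur c Q).eval c = 0 := by
      have d1 := h8 k c hc D m Q hQ
      rw [hd0, Polynomial.eval_zero] at d1
      have hm0 : (m : k) ≠ 0 := by
        exact_mod_cast (by omega : m ≠ 0)
      exact (mul_eq_zero.1 d1.symm).resolve_left hm0
    have e1 : (Polynomial.X - Polynomial.C c) ∣ cur c Q := Polynomial.dvd_iff_isRoot.2 hev
    have e2 := h3 k c hc w Q _ hw0
    have e3 : IsCoprime (Polynomial.X - Polynomial.C c)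
        (∏ i, (Lc i ^ w i * Nc c i ^ ((w i + 2) / 3))) := by
      apply V1CN2_cop
      intro i
      obtain ⟨f1, f2, -⟩ := c7 i
      apply IsCoprime.mul_right
      · exact Polynomial.isCoprime_X_sub_C_of_isUnit_sub (sub_ne_zero.2 f2).isUnit
      · rw [isCoprime_comm]
        exact ((Polynomial.irreducible_X_sub_C c).coprime_iff_not_dvd.2 (by
          rw [Polynomial.dvd_iff_isRoot]
          exact f1)).symm
    have e4 := e3.mul_dvd e1 e2
    have e5 := Polynomial.natDegree_le_of_dvd e4 hcur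
    rw [Polynomial.natDegree_mul (Polynomial.X_sub_C_ne_zero c) (V1CN2_ne c c4 _ _),
      V1CN2_deg c c4, Polynomial.natDegree_X_sub_C] at e5
    have e6 := h2 k c D m Q hQ he
    have e7 : ∑ i, (w i + w i) ≤ ∑ i : Fin 5, (w i + 3 * ((w i + 2) / 3)) := by
      apply Finset.sum_le_sum
      intro i _
      omega
    omega
  · push Not at h3w
    obtain ⟨i₀, hi₀⟩ := h3w
    refine h4 k c hc D m w Q _ hQ he hw0 (hsum.trans_lt ?_)
    apply Finset.sum_lt_sum
    · intro i _
      omega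
    · exact ⟨i₀, Finset.mem_univ _, by omega⟩

end Pool.CX.V1
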