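import Pool.Agent.Work.MP_bf99ce_cx.InterfaceV1

set_option autoImplicit false

noncomputable section

open MvPolynomial

namespace Pool.CX.V1

theorem V1CNT_deg {k : Type} [Field k] (c : k) (w : Fin 5 → ℕ)
    (hN : ∀ i, (Nc c i).natDegree = 3 ∧ Nc c i ≠ 0) :
    (∏ i, (Lc (k := k) i ^ w i * Nc c i ^ ((w i + 2) / 3))).natDegree =
      ∑ i, (w i + 3 * ((w i + 2) / 3)) := by
  have hL : ∀ i : Fin 5, (Lc (k := k) i).natDegree = 1 := fun i => Polynomial.natDegree_X_sub_C _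
  have hL0 : ∀ i : Fin 5, Lc (k := k) i ≠ 0 := fun i => Polynomial.X_sub_C_ne_zero _
  rw [Polynomial.natDegree_prod _ _ fun i _ => mul_ne_zero (pow_ne_zero _ (hL0 i)) (pow_ne_zero _ (hN i).2)]
  refine Finset.sum_congr rfl fun i _ => ?_
  rw [Polynomial.natDegree_mul (pow_ne_zero _ (hL0 i)) (pow_ne_zero _ (hN i).2), Polynomial.natDegree_pow,
    Polynomial.natDegree_pow, hL, (hN i).1]
  ring

theorem p_V1CNT (h1 : Stmt_V1COP) (h2 : Stmt_V1PSI) (h3 : Stmt_V1DIV) : Stmt_V1CNT := by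
  intro k _ _ c hc D m w Q G hQ he hI hlt
  by_contra hne
  have hd := Polynomial.natDegree_le_of_dvd (h3 k c hc w Q G hI) hne
  rw [V1CNT_deg c w (h1 k c hc).2.2.2.1] at hd
  have hp := h2 k c D m Q hQ he
  omega

end Pool.CX.V1
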