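import Pool.Agent.Work.MP_bf99ce_cx.InterfaceV1

set_option autoImplicit false

noncomputable section

open MvPolynomial

namespace Pool.CX.V1

theorem V1COP_lin {k : Type} [Field k] (p : Polynomial k) (a : k) (hp : p.eval a ≠ 0) :
    IsCoprime p (Polynomial.X - Polynomial.C a) :=
  ((Polynomial.irreducible_X_sub_C a).coprime_iff_not_dvd.2
    (fun h => hp (Polynomial.dvd_iff_isRoot.1 h))).symm

theorem V1COP_S {k : Type} [Field k] [CharZero k] (c : k) :
    Sc c = Polynomial.X * Mc c -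
      Lc 0 * Lc 1 * Lc 2 * Lc 3 * Lc 4 * (Polynomial.X - Polynomial.C c) := by
  simp only [Sc, Mc, Lc, tt, Matrix.cons_val_zero, Matrix.cons_val_one, Matrix.cons_val,
    map_zero, map_one, map_neg, map_ofNat]
  ring

theorem V1COP_evt {k : Type} [Field k] [CharZero k] (c : k) (i : Fin 5) :
    (Mc c).eval (tt k i) = (![4, -6, -6, 24, 24] i : k) * (tt k i - c) := by
  fin_cases i <;>
  · simp [Mc, tt]
    try ring

theorem V1COP_evc {k : Type} [Field k] [CharZero k] (c : k) :
    (Mc c).eval c = -4 * c * (c - 1) * (c + 1) * (c - 2) * (c + 2) := by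
  simp [Mc]
  ring

theorem V1COP_ne {k : Type} [Field k] [CharZero k] (c : k) (h : Good c) (i : Fin 5) :
    c ≠ tt k i := by
  obtain ⟨h0, h1, h2, h3, h4, -⟩ := h
  fin_cases i
  · simpa [tt] using h0
  · simpa [tt] using h1
  · simpa [tt] using h2
  · simpa [tt] using h3
  · simpa [tt] using h4

theorem V1COP_Mc {k : Type} [Field k] [CharZero k] (c : k) (h : Good c) :
    (Mc c).eval c ≠ 0 := by
  obtain ⟨h0, h1, h2, h3, h4, -⟩ := h
  rw [V1COP_evc]
  have e1 : c - 1 ≠ 0 := sub_ne_zero.2 h1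
  have e2 : c + 1 ≠ 0 := fun e => h2 (eq_neg_of_add_eq_zero_left e)
  have e3 : c - 2 ≠ 0 := sub_ne_zero.2 h3
  have e4 : c + 2 ≠ 0 := fun e => h4 (eq_neg_of_add_eq_zero_left e)
  have e5 : (-4 : k) ≠ 0 := by norm_num
  exact mul_ne_zero (mul_ne_zero (mul_ne_zero (mul_ne_zero (mul_ne_zero e5 h0) e1) e2) e3) e4

theorem V1COP_ML {k : Type} [Field k] [CharZero k] (c : k) (h : Good c) (i : Fin 5) :
    IsCoprime (Mc c) (Lc i) := by
  refine V1COP_lin _ _ ?_
  rw [V1COP_evt]
  refine mul_ne_zero ?_ (sub_ne_zero.2 (V1COP_ne c h i).symm)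
  fin_cases i <;> simp

theorem V1COP_MS {k : Type} [Field k] [CharZero k] (c : k) (h : Good c) :
    IsCoprime (Mc c) (Sc c) := by
  have hp : IsCoprime (Mc c)
      (Lc 0 * Lc 1 * Lc 2 * Lc 3 * Lc 4 * (Polynomial.X - Polynomial.C c)) :=
    ((((((V1COP_ML c h 0).mul_right (V1COP_ML c h 1)).mul_right (V1COP_ML c h 2)).mul_right
      (V1COP_ML c h 3)).mul_right (V1COP_ML c h 4)).mul_right (V1COP_lin _ _ (V1COP_Mc c h)))
  have h2 := (hp.neg_right).add_mul_left_right Polynomial.X
  rw [V1COP_S]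
  have e : Polynomial.X * Mc c -
      Lc 0 * Lc 1 * Lc 2 * Lc 3 * Lc 4 * (Polynomial.X - Polynomial.C c) =
      -(Lc 0 * Lc 1 * Lc 2 * Lc 3 * Lc 4 * (Polynomial.X - Polynomial.C c)) +
        Mc c * Polynomial.X := by ring
  rw [e]
  exact h2

theorem V1COP_tt {k : Type} [Field k] [CharZero k] (i j : Fin 5) (h : i ≠ j) :
    tt k i - tt k j ≠ 0 := by
  fin_cases i <;> fin_cases j <;> first
    | exact absurd rfl h
    | (simp [tt]; done)
    | (simp [tt]; norm_num)

theorem V1COP_deg {k : Type} [Field k] [CharZero k] (c : k) (h : Good c) (i : Fin 5) :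
    (Nc c i).natDegree = 3 := by
  obtain ⟨h0, h1, h2, h3, h4, h5, h6, h7, h8⟩ := h
  have key : ∀ (p : Polynomial k) (a b e d : k), a ≠ 0 →
      p = Polynomial.C a * Polynomial.X ^ 3 + Polynomial.C b * Polynomial.X ^ 2 +
        Polynomial.C e * Polynomial.X + Polynomial.C d → p.natDegree = 3 := by
    intro p a b e d ha hp
    rw [hp]
    exact Polynomial.natDegree_cubic ha
  fin_cases i
  · refine key _ (-4 * c) 10 (10 * c) (-16) (mul_ne_zero (by norm_num) h0) ?_
    simp only [Nc, Fin.zero_eta, Matrix.cons_val_zero, map_mul, map_neg, map_ofNat]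
    ring
  · refine key _ (-(4 * c + 1)) (8 - 3 * c) (8 * c + 12) (4 * c) (neg_ne_zero.2 h5) ?_
    simp only [Nc, Fin.mk_one, Matrix.cons_val_one, Matrix.cons_val_zero, map_mul, map_neg, map_ofNat,
      map_add, map_sub, map_one]
  · refine key _ (1 - 4 * c) (8 + 3 * c) (8 * c - 12) (-(4 * c)) ?_ ?_
    · intro e
      apply h6
      rw [← neg_eq_zero, ← e]
      ring
    simp only [Nc, Fin.reduceFinMk, Matrix.cons_val, map_mul, map_neg, map_ofNat,
      map_add, map_sub, map_one]
    ring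
  · refine key _ (-(4 * c + 2)) (2 - 6 * c) (2 * c + 6) (2 * c) (neg_ne_zero.2 ?_) ?_
    · intro e
      apply h7
      have e2 : (2 : k) * (2 * c + 1) = 0 := by
        rw [← e]
        ring
      exact (mul_eq_zero.1 e2).resolve_left (by norm_num)
    simp only [Nc, Fin.reduceFinMk, Matrix.cons_val, map_mul, map_neg, map_ofNat,
      map_add, map_sub, map_one]
  · refine key _ (2 - 4 * c) (2 + 6 * c) (2 * c - 6) (-(2 * c)) ?_ ?_
    · intro e
      apply h8
      have e2 : (2 : k) * (2 * c - 1) = 0 := by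
        rw [← neg_eq_zero, ← e]
        ring
      exact (mul_eq_zero.1 e2).resolve_left (by norm_num)
    simp only [Nc, Fin.reduceFinMk, Matrix.cons_val, map_mul, map_neg, map_ofNat,
      map_add, map_sub, map_one]
    ring

theorem V1COP_Md {k : Type} [Field k] [CharZero k] (c : k) :
    (Mc c).natDegree = 5 ∧ (Mc c).Monic := by
  have e : Mc c = Polynomial.X ^ 5 + (Polynomial.C (-5 * c) * Polynomial.X ^ 4 +
      Polynomial.C 5 * Polynomial.X ^ 3 + Polynomial.C (15 * c) * Polynomial.X ^ 2 +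
      Polynomial.C (-12) * Polynomial.X + Polynomial.C (-4 * c)) := by
    simp only [Mc, map_mul, map_neg, map_ofNat]
    ring
  have hd : (Polynomial.C (-5 * c) * Polynomial.X ^ 4 +
      Polynomial.C 5 * Polynomial.X ^ 3 + Polynomial.C (15 * c) * Polynomial.X ^ 2 +
      Polynomial.C (-12) * Polynomial.X + Polynomial.C (-4 * c) : Polynomial k).degree < 5 := by
    refine lt_of_le_of_lt (b := (4 : WithBot ℕ)) ?_ (by norm_num)
    compute_degree
  have hm : (Mc c).Monic := by
    rw [e]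
    exact Polynomial.monic_X_pow_add hd
  refine ⟨?_, hm⟩
  rw [e]
  rw [Polynomial.natDegree_add_eq_left_of_degree_lt]
  · exact Polynomial.natDegree_X_pow 5
  · rw [Polynomial.degree_X_pow]
    exact hd

theorem p_V1COP (h1 : Stmt_V1CUR) : Stmt_V1COP := by
  intro k _ _ c h
  have hcur : ∀ i, Sc c - Polynomial.C (tt k i) * Mc c = Lc i ^ 2 * Nc c i := (h1 k c).2.1
  have hMS := V1COP_MS c h
  have hdiv : ∀ i, Lc i * Nc c i ∣ Lc i ^ 2 * Nc c i := fun i => ⟨Lc i, by ring⟩
  have hMi : ∀ i, IsCoprime (Mc c) (Lc i ^ 2 * Nc c i) := by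
    intro i
    rw [← hcur i]
    have h2 := hMS.add_mul_left_right (-Polynomial.C (tt k i))
    have e : Sc c - Polynomial.C (tt k i) * Mc c = Sc c + Mc c * -Polynomial.C (tt k i) := by ring
    rw [e]
    exact h2
  refine ⟨?_, ?_, hMS, ?_, (V1COP_Md c).1, (V1COP_Md c).2, ?_⟩
  · intro i j hij
    have h2 : IsCoprime (Lc i ^ 2 * Nc c i) (Polynomial.C (tt k i - tt k j) * Mc c) := by
      refine IsCoprime.mul_right ?_ (hMi i).symm
      refine ⟨0, Polynomial.C (tt k i - tt k j)⁻¹, ?_⟩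
      rw [zero_mul, zero_add, ← map_mul, inv_mul_cancel₀ (V1COP_tt i j hij), map_one]
    have h3 := h2.add_mul_left_right 1
    have e : Polynomial.C (tt k i - tt k j) * Mc c + Lc i ^ 2 * Nc c i * 1 = Lc j ^ 2 * Nc c j := by
      rw [← hcur i, ← hcur j, map_sub]
      ring
    rw [e] at h3
    exact (h3.of_isCoprime_of_dvd_right (hdiv j)).of_isCoprime_of_dvd_left (hdiv i)
  · intro i
    exact (hMi i).of_isCoprime_of_dvd_right (hdiv i)
  · intro i
    have hd := V1COP_deg c h i
    refine ⟨hd, ?_⟩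
    intro e
    rw [e, Polynomial.natDegree_zero] at hd
    omega
  · intro i
    have hne := V1COP_ne c h i
    have h2 : c - tt k i ≠ 0 := sub_ne_zero.2 hne
    have h3 := congrArg (Polynomial.eval c) (hcur i)
    have h4 : (Sc c).eval c = c * (Mc c).eval c := by
      rw [V1COP_S]
      simp
    have h5 : (Lc i : Polynomial k).eval c = c - tt k i := by
      simp [Lc]
    rw [Polynomial.eval_sub, Polynomial.eval_mul, Polynomial.eval_C, h4, Polynomial.eval_mul,
      Polynomial.eval_pow, h5] at h3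
    have h6 : (c - tt k i) * (Nc c i).eval c = (Mc c).eval c := by
      have h7 : (c - tt k i) * ((c - tt k i) * (Nc c i).eval c) = (c - tt k i) * (Mc c).eval c := by
        linear_combination -h3
      exact mul_left_cancel₀ h2 h7
    refine ⟨?_, hne, h6⟩
    intro e
    rw [e, mul_zero] at h6
    exact V1COP_Mc c h h6.symm

end Pool.CX.V1
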