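import Pool.Agent.Work.MP_bf99ce_cx.InterfaceV1

set_option autoImplicit false

noncomputable section

open MvPolynomial

namespace Pool.CX.V1

lemma V1CUR_X {k : Type} [CommRing k] (c : k) (i : Fin 3) : cur c (Xx i) = Uc c i := by
  simp [cur, Xx]

lemma V1CUR_V {k : Type} [CommRing k] (c : k) (i : Fin 3) : cur c (Vv i) = Yc c i := by
  simp [cur, Vv]

lemma V1CUR_L0 {k : Type} [CommRing k] : (Lc 0 : Polynomial k) = Polynomial.X := by simp [Lc, tt]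
lemma V1CUR_L1 {k : Type} [CommRing k] : (Lc 1 : Polynomial k) = Polynomial.X - 1 := by simp [Lc, tt]
lemma V1CUR_L2 {k : Type} [CommRing k] : (Lc 2 : Polynomial k) = Polynomial.X + 1 := by simp [Lc, tt]
lemma V1CUR_L3 {k : Type} [CommRing k] : (Lc 3 : Polynomial k) = Polynomial.X - 2 := by
  show Polynomial.X - Polynomial.C (2 : k) = Polynomial.X - 2
  rw [map_ofNat]
lemma V1CUR_L4 {k : Type} [CommRing k] : (Lc 4 : Polynomial k) = Polynomial.X + 2 := by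
  show Polynomial.X - Polynomial.C (-2 : k) = Polynomial.X + 2
  rw [map_neg, map_ofNat, sub_neg_eq_add]

lemma V1CUR_N0 {k : Type} [CommRing k] (c : k) : Nc c 0 =
    -4 * Polynomial.C c * Polynomial.X ^ 3 + 10 * Polynomial.X ^ 2 + 10 * Polynomial.C c * Polynomial.X - 16 := rfl
lemma V1CUR_N1 {k : Type} [CommRing k] (c : k) : Nc c 1 =
    -(4 * Polynomial.C c + 1) * Polynomial.X ^ 3 + (8 - 3 * Polynomial.C c) * Polynomial.X ^ 2 +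
      (8 * Polynomial.C c + 12) * Polynomial.X + 4 * Polynomial.C c := rfl
lemma V1CUR_N2 {k : Type} [CommRing k] (c : k) : Nc c 2 =
    (1 - 4 * Polynomial.C c) * Polynomial.X ^ 3 + (8 + 3 * Polynomial.C c) * Polynomial.X ^ 2 +
      (8 * Polynomial.C c - 12) * Polynomial.X - 4 * Polynomial.C c := rfl
lemma V1CUR_N3 {k : Type} [CommRing k] (c : k) : Nc c 3 =
    -(4 * Polynomial.C c + 2) * Polynomial.X ^ 3 + (2 - 6 * Polynomial.C c) * Polynomial.X ^ 2 +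
      (2 * Polynomial.C c + 6) * Polynomial.X + 2 * Polynomial.C c := rfl
lemma V1CUR_N4 {k : Type} [CommRing k] (c : k) : Nc c 4 =
    (2 - 4 * Polynomial.C c) * Polynomial.X ^ 3 + (2 + 6 * Polynomial.C c) * Polynomial.X ^ 2 +
      (2 * Polynomial.C c - 6) * Polynomial.X - 2 * Polynomial.C c := rfl

lemma V1CUR_U0 {k : Type} [CommRing k] (c : k) : Uc c 0 = Lc 0 ^ 3 * Nc c 0 := rfl
lemma V1CUR_U1 {k : Type} [CommRing k] (c : k) : Uc c 1 = Lc 1 ^ 3 * Nc c 1 := rfl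
lemma V1CUR_U2 {k : Type} [CommRing k] (c : k) : Uc c 2 = Lc 2 ^ 3 * Nc c 2 := rfl
lemma V1CUR_Y0 {k : Type} [CommRing k] (c : k) : Yc c 0 = Lc 0 ^ 2 * Nc c 0 := rfl
lemma V1CUR_Y1 {k : Type} [CommRing k] (c : k) : Yc c 1 = Lc 1 ^ 2 * Nc c 1 := rfl
lemma V1CUR_Y2 {k : Type} [CommRing k] (c : k) : Yc c 2 = Lc 2 ^ 2 * Nc c 2 := rfl

theorem p_V1CUR : Stmt_V1CUR := by
  intro k _ _ c
  refine ⟨?_, ?_, ?_⟩
  · intro i
    fin_cases i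
    · exact ⟨V1CUR_X c 0, V1CUR_V c 0⟩
    · exact ⟨V1CUR_X c 1, V1CUR_V c 1⟩
    · exact ⟨V1CUR_X c 2, V1CUR_V c 2⟩
    · constructor
      · show cur c (-3 * Xx 0 + 3 * Xx 1 + Xx 2) = Lc 3 ^ 3 * Nc c 3
        simp only [map_add, map_mul, map_neg, map_ofNat, V1CUR_X, V1CUR_U0, V1CUR_U1, V1CUR_U2,
          V1CUR_L0, V1CUR_L1, V1CUR_L2, V1CUR_L3, V1CUR_N0, V1CUR_N1, V1CUR_N2, V1CUR_N3]
        ring
      · show cur c (-3 * Vv 0 + 3 * Vv 1 + Vv 2) = Lc 3 ^ 2 * Nc c 3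
        simp only [map_add, map_mul, map_neg, map_ofNat, V1CUR_V, V1CUR_Y0, V1CUR_Y1, V1CUR_Y2,
          V1CUR_L0, V1CUR_L1, V1CUR_L2, V1CUR_L3, V1CUR_N0, V1CUR_N1, V1CUR_N2, V1CUR_N3]
        ring
    · constructor
      · show cur c (-3 * Xx 0 + Xx 1 + 3 * Xx 2) = Lc 4 ^ 3 * Nc c 4
        simp only [map_add, map_mul, map_neg, map_ofNat, V1CUR_X, V1CUR_U0, V1CUR_U1, V1CUR_U2,
          V1CUR_L0, V1CUR_L1, V1CUR_L2, V1CUR_L4, V1CUR_N0, V1CUR_N1, V1CUR_N2, V1CUR_N4]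
        ring
      · show cur c (-3 * Vv 0 + Vv 1 + 3 * Vv 2) = Lc 4 ^ 2 * Nc c 4
        simp only [map_add, map_mul, map_neg, map_ofNat, V1CUR_V, V1CUR_Y0, V1CUR_Y1, V1CUR_Y2,
          V1CUR_L0, V1CUR_L1, V1CUR_L2, V1CUR_L4, V1CUR_N0, V1CUR_N1, V1CUR_N2, V1CUR_N4]
        ring
  · intro i
    have h0 : tt k 0 = 0 := rfl
    have h1 : tt k 1 = 1 := rfl
    have h2 : tt k 2 = -1 := rfl
    have h3 : tt k 3 = 2 := rfl
    have h4 : tt k 4 = -2 := rfl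
    fin_cases i
    · show Sc c - Polynomial.C (tt k 0) * Mc c = Lc 0 ^ 2 * Nc c 0
      rw [h0, V1CUR_L0, V1CUR_N0, Sc, Mc, map_zero]
      ring
    · show Sc c - Polynomial.C (tt k 1) * Mc c = Lc 1 ^ 2 * Nc c 1
      rw [h1, V1CUR_L1, V1CUR_N1, Sc, Mc, map_one]
      ring
    · show Sc c - Polynomial.C (tt k 2) * Mc c = Lc 2 ^ 2 * Nc c 2
      rw [h2, V1CUR_L2, V1CUR_N2, Sc, Mc, map_neg, map_one]
      ring
    · show Sc c - Polynomial.C (tt k 3) * Mc c = Lc 3 ^ 2 * Nc c 3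
      rw [h3, V1CUR_L3, V1CUR_N3, Sc, Mc, map_ofNat]
      ring
    · show Sc c - Polynomial.C (tt k 4) * Mc c = Lc 4 ^ 2 * Nc c 4
      rw [h4, V1CUR_L4, V1CUR_N4, Sc, Mc, map_neg, map_ofNat]
      ring
  · have e0 : (lam 0 : P6 k) = Xx 1 * Vv 2 - Xx 2 * Vv 1 := rfl
    have e1 : (lam 1 : P6 k) = Xx 2 * Vv 0 - Xx 0 * Vv 2 := rfl
    have e2 : (lam 2 : P6 k) = Xx 0 * Vv 1 - Xx 1 * Vv 0 := rfl
    rw [Kh, e0, e1, e2]
    simp only [map_add, map_sub, map_mul, map_ofNat, V1CUR_X, V1CUR_V, V1CUR_U0, V1CUR_U1, V1CUR_U2,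
      V1CUR_Y0, V1CUR_Y1, V1CUR_Y2, V1CUR_L0, V1CUR_L1, V1CUR_L2]
    have hN : 2 * (Polynomial.X ^ 2 * Nc c 0) - (Polynomial.X - 1) ^ 2 * Nc c 1 -
        (Polynomial.X + 1) ^ 2 * Nc c 2 = 0 := by
      rw [V1CUR_N0, V1CUR_N1, V1CUR_N2]
      ring
    linear_combination (2 * (Polynomial.X ^ 2 * Nc c 0) * ((Polynomial.X - 1) ^ 2 * Nc c 1) *
      ((Polynomial.X + 1) ^ 2 * Nc c 2)) * hN

end Pool.CX.V1
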