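import Pool.Agent.Work.MP_bf99ce_cx.InterfaceV1

/-!
# THEOREM CX, part V1: block V1D1
-/

set_option autoImplicit false

noncomputable section

open MvPolynomial

namespace Pool.CX.V1

theorem p_V1D1 (h1 : Stmt_V1CUR) (h2 : Stmt_V1COP) : Stmt_V1D1 := by
  intro k _ _ c hc Q hQ
  obtain ⟨-, hS, -⟩ := h1 k c
  obtain ⟨-, -, hMS, -⟩ := h2 k c hc
  have e0 := hS 0
  have e1 := hS 1
  have e2 := hS 2
  have hX : ∀ j : Fin 3, cur c (Xx j) = Uc c j := by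
    intro j
    simp [cur, Xx]
  have hE : cur c (eul Q) = 0 := by rw [hQ, map_zero]
  rw [eul, Fin.sum_univ_three, map_add, map_add, map_mul, map_mul, map_mul, hX, hX, hX] at hE
  have u0 : Uc c 0 = Lc 0 ^ 3 * Nc c 0 := rfl
  have u1 : Uc c 1 = Lc 1 ^ 3 * Nc c 1 := rfl
  have u2 : Uc c 2 = Lc 2 ^ 3 * Nc c 2 := rfl
  rw [u0, u1, u2] at hE
  have key : Sc c * dcur c Q = Mc c ^ 2 *
      (cur c (pderiv (Sum.inr 0) Q) * Polynomial.C (tt k 0) * Lc 0 +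
        cur c (pderiv (Sum.inr 1) Q) * Polynomial.C (tt k 1) * Lc 1 +
        cur c (pderiv (Sum.inr 2) Q) * Polynomial.C (tt k 2) * Lc 2) := by
    unfold dcur
    linear_combination Mc c * hE + cur c (pderiv (Sum.inr 0) Q) * Mc c * Lc 0 * e0 +
      cur c (pderiv (Sum.inr 1) Q) * Mc c * Lc 1 * e1 + cur c (pderiv (Sum.inr 2) Q) * Mc c * Lc 2 * e2
  exact (hMS.pow_left (m := 2)).dvd_of_dvd_mul_left ⟨_, key⟩

end Pool.CX.V1
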