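import Pool.Agent.Work.MP_bf99ce_cx.InterfaceV1

/-!
# THEOREM CX, part V1: block V1D2
-/

set_option autoImplicit false

noncomputable section

open MvPolynomial

namespace Pool.CX.V1

lemma V1D2_mul {k : Type} [Field k] (c : k) (P Q : P6 k) :
    dcur c (P * Q) = cur c P * dcur c Q + cur c Q * dcur c P := by
  unfold dcur
  simp only [pderiv_mul, map_add, map_mul]
  ring

lemma V1D2_add {k : Type} [Field k] (c : k) (P Q : P6 k) : dcur c (P + Q) = dcur c P + dcur c Q := by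
  unfold dcur
  simp only [map_add]
  ring

lemma V1D2_zero {k : Type} [Field k] (c : k) : dcur c (0 : P6 k) = 0 := by
  unfold dcur
  simp only [map_zero, zero_mul, add_zero]

lemma V1D2_num {k : Type} [Field k] (c : k) (r : k) : dcur c (C r : P6 k) = 0 := by
  unfold dcur
  simp only [pderiv_C, map_zero, zero_mul, add_zero]

lemma V1D2_X {k : Type} [Field k] (c : k) (j : Fin 3) : dcur c (Xx j : P6 k) = 0 := by
  unfold dcur Xx
  rw [pderiv_X_of_ne (by simp), pderiv_X_of_ne (by simp), pderiv_X_of_ne (by simp)]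
  simp only [map_zero, zero_mul, add_zero]

lemma V1D2_V0 {k : Type} [Field k] (c : k) : dcur c (Vv 0 : P6 k) = Mc c * Lc 0 := by
  unfold dcur Vv
  rw [pderiv_X_self, pderiv_X_of_ne (by simp), pderiv_X_of_ne (by simp)]
  simp only [map_zero, map_one, zero_mul, one_mul, add_zero]

lemma V1D2_V1 {k : Type} [Field k] (c : k) : dcur c (Vv 1 : P6 k) = Mc c * Lc 1 := by
  unfold dcur Vv
  rw [pderiv_X_self, pderiv_X_of_ne (by simp), pderiv_X_of_ne (by simp)]
  simp only [map_zero, map_one, zero_mul, one_mul, add_zero, zero_add]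

lemma V1D2_V2 {k : Type} [Field k] (c : k) : dcur c (Vv 2 : P6 k) = Mc c * Lc 2 := by
  unfold dcur Vv
  rw [pderiv_X_self, pderiv_X_of_ne (by simp), pderiv_X_of_ne (by simp)]
  simp only [map_zero, map_one, zero_mul, one_mul, add_zero, zero_add]

lemma V1D2_smul {k : Type} [Field k] (c r : k) (P : P6 k) : dcur c (C r * P) = Polynomial.C r * dcur c P := by
  rw [V1D2_mul, V1D2_num, mul_zero, add_zero]
  congr 1
  exact (cur c).commutes r

lemma V1D2_L0 {k : Type} [Field k] : (Lc 0 : Polynomial k) = Polynomial.X := by simp [Lc, tt]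
lemma V1D2_L1 {k : Type} [Field k] : (Lc 1 : Polynomial k) = Polynomial.X - 1 := by simp [Lc, tt]
lemma V1D2_L2 {k : Type} [Field k] : (Lc 2 : Polynomial k) = Polynomial.X + 1 := by simp [Lc, tt]
lemma V1D2_L3 {k : Type} [Field k] : (Lc 3 : Polynomial k) = Polynomial.X - 2 := by
  show Polynomial.X - Polynomial.C (2 : k) = Polynomial.X - 2
  rw [map_ofNat]
lemma V1D2_L4 {k : Type} [Field k] : (Lc 4 : Polynomial k) = Polynomial.X + 2 := by
  show Polynomial.X - Polynomial.C (-2 : k) = Polynomial.X + 2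
  rw [map_neg, map_ofNat, sub_neg_eq_add]

lemma V1D2_lin {k : Type} [Field k] (c a b d : k) (x y z : P6 k) :
    dcur c (C a * x + C b * y + C d * z) =
      Polynomial.C a * dcur c x + Polynomial.C b * dcur c y + Polynomial.C d * dcur c z := by
  rw [V1D2_add, V1D2_add, V1D2_smul, V1D2_smul, V1D2_smul]

lemma V1D2_UU {k : Type} [Field k] (c : k) (i : Fin 5) : dcur c (UU i : P6 k) = 0 := by
  fin_cases i
  · exact V1D2_X c 0
  · exact V1D2_X c 1
  · exact V1D2_X c 2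
  · have h : (UU 3 : P6 k) = C (-3) * Xx 0 + C 3 * Xx 1 + C 1 * Xx 2 := by
      show -3 * Xx 0 + 3 * Xx 1 + Xx 2 = _
      rw [map_neg, map_one, map_ofNat, one_mul]
    show dcur c (UU 3 : P6 k) = 0
    rw [h, V1D2_lin, V1D2_X, V1D2_X, V1D2_X]
    simp
  · have h : (UU 4 : P6 k) = C (-3) * Xx 0 + C 1 * Xx 1 + C 3 * Xx 2 := by
      show -3 * Xx 0 + Xx 1 + 3 * Xx 2 = _
      rw [map_neg, map_one, map_ofNat, one_mul]
    show dcur c (UU 4 : P6 k) = 0
    rw [h, V1D2_lin, V1D2_X, V1D2_X, V1D2_X]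
    simp

lemma V1D2_YY {k : Type} [Field k] (c : k) (i : Fin 5) : dcur c (YY i : P6 k) = Mc c * Lc i := by
  fin_cases i
  · exact V1D2_V0 c
  · exact V1D2_V1 c
  · exact V1D2_V2 c
  · have h : (YY 3 : P6 k) = C (-3) * Vv 0 + C 3 * Vv 1 + C 1 * Vv 2 := by
      show -3 * Vv 0 + 3 * Vv 1 + Vv 2 = _
      rw [map_neg, map_one, map_ofNat, one_mul]
    show dcur c (YY 3 : P6 k) = Mc c * Lc 3
    rw [h, V1D2_lin, V1D2_V0, V1D2_V1, V1D2_V2, V1D2_L0, V1D2_L1, V1D2_L2, V1D2_L3, map_neg, map_one, map_ofNat]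
    ring
  · have h : (YY 4 : P6 k) = C (-3) * Vv 0 + C 1 * Vv 1 + C 3 * Vv 2 := by
      show -3 * Vv 0 + Vv 1 + 3 * Vv 2 = _
      rw [map_neg, map_one, map_ofNat, one_mul]
    show dcur c (YY 4 : P6 k) = Mc c * Lc 4
    rw [h, V1D2_lin, V1D2_V0, V1D2_V1, V1D2_V2, V1D2_L0, V1D2_L1, V1D2_L2, V1D2_L4, map_neg, map_one, map_ofNat]
    ring

lemma V1D2_pow0 {k : Type} [Field k] (c : k) (P : P6 k) (h : dcur c P = 0) (n : ℕ) : dcur c (P ^ n) = 0 := by
  induction n with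
  | zero =>
    rw [pow_zero]
    have := V1D2_num c (1 : k)
    rwa [map_one] at this
  | succ n ih => rw [pow_succ, V1D2_mul, h, ih, mul_zero, mul_zero, add_zero]

lemma V1D2_pow {k : Type} [Field k] (c : k) (P : P6 k) (n : ℕ) :
    dcur c (P ^ (n + 1)) = ((n : Polynomial k) + 1) * cur c P ^ n * dcur c P := by
  induction n with
  | zero => simp
  | succ n ih =>
    rw [pow_succ, V1D2_mul, ih, map_pow]
    push_cast
    ring

lemma V1D2_gen {k : Type} [Field k] [CharZero k] (h1 : Stmt_V1CUR) (c : k) (i : Fin 5) (w j l : ℕ) (hw : 3 ∣ w)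
    (h : w ≤ 3 * j + 2 * l) (P : P6 k) : Lc i ^ (w - 1) * Nc c i ^ (w / 3) ∣ dcur c (P * (UU i ^ j * YY i ^ l)) := by
  obtain ⟨hc, -, -⟩ := h1 k c
  obtain ⟨hU, hY⟩ := hc i
  rw [V1D2_mul]
  refine dvd_add (Dvd.dvd.mul_left ?_ _) (Dvd.dvd.mul_right ?_ _)
  · rw [V1D2_mul, V1D2_pow0 c _ (V1D2_UU c i), mul_zero, add_zero]
    rcases Nat.eq_zero_or_pos l with hl | hl
    · subst hl
      have : dcur c (YY i ^ 0 : P6 k) = 0 := by
        rw [pow_zero]
        have := V1D2_num c (1 : k)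
        rwa [map_one] at this
      rw [this, mul_zero]
      exact dvd_zero _
    · obtain ⟨l, rfl⟩ : ∃ l', l = l' + 1 := ⟨l - 1, by omega⟩
      rw [V1D2_pow, V1D2_YY, map_pow, hU, hY]
      have e : (Lc i ^ 3 * Nc c i) ^ j * (((l : Polynomial k) + 1) * (Lc i ^ 2 * Nc c i) ^ l * (Mc c * Lc i)) =
          (Lc i ^ (3 * j + 2 * l + 1) * Nc c i ^ (j + l)) * (((l : Polynomial k) + 1) * Mc c) := by ring
      rw [e]
      exact Dvd.dvd.mul_right (mul_dvd_mul (pow_dvd_pow _ (by omega)) (pow_dvd_pow _ (by omega))) _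
  · rw [map_mul, map_pow, map_pow, hU, hY]
    have e : (Lc i ^ 3 * Nc c i) ^ j * (Lc i ^ 2 * Nc c i) ^ l = Lc i ^ (3 * j + 2 * l) * Nc c i ^ (j + l) := by ring
    rw [e]
    exact mul_dvd_mul (pow_dvd_pow _ (by omega)) (pow_dvd_pow _ (by omega))

theorem p_V1D2 (h1 : Stmt_V1CUR) : Stmt_V1D2 := by
  intro k _ _ c i w Q hw hQ
  unfold I at hQ
  rw [← Ideal.submodule_span_eq] at hQ
  refine Submodule.span_induction (p := fun q _ => ∀ P : P6 k, Lc i ^ (w - 1) * Nc c i ^ (w / 3) ∣ dcur c (P * q))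
    ?_ ?_ ?_ ?_ hQ 1 |> fun h => by rwa [one_mul] at h
  · rintro q ⟨j, l, hjl, rfl⟩ P
    exact V1D2_gen h1 c i w j l hw hjl P
  · intro P
    rw [mul_zero, V1D2_zero]
    exact dvd_zero _
  · intro x y _ _ hx hy P
    rw [mul_add, V1D2_add]
    exact dvd_add (hx P) (hy P)
  · intro a x _ hx P
    rw [smul_eq_mul, ← mul_assoc]
    exact hx (P * a)

end Pool.CX.V1
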