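import Pool.Agent.Work.MP_bf99ce_cx.InterfaceV1

/-! # THEOREM CX, part V1, block V1D3: the degree of the derivative in the direction of `s` -/

set_option autoImplicit false

noncomputable section

open MvPolynomial

namespace Pool.CX.V1

theorem V1D3_comm {k : Type} [Field k] (i j : Fin 3 ⊕ Fin 3) (Q : P6 k) :
    pderiv i (pderiv j Q) = pderiv j (pderiv i Q) := by
  classical
  ext s
  rw [coeff_pderiv, coeff_pderiv, coeff_pderiv, coeff_pderiv]
  have e : s + Finsupp.single i 1 + Finsupp.single j 1 = s + Finsupp.single j 1 + Finsupp.single i 1 := by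
    rw [add_right_comm]
  rw [e]
  by_cases h : i = j
  · subst h; rfl
  · have h1 : (s + Finsupp.single i 1 : Fin 3 ⊕ Fin 3 →₀ ℕ) j = s j := by
      rw [Finsupp.add_apply, Finsupp.single_apply, if_neg h, add_zero]
    have h2 : (s + Finsupp.single j 1 : Fin 3 ⊕ Fin 3 →₀ ℕ) i = s i := by
      rw [Finsupp.add_apply, Finsupp.single_apply, if_neg (Ne.symm h), add_zero]
    rw [h1, h2]
    ring

theorem V1D3_bihom {k : Type} [Field k] (D m : ℕ) (Q : P6 k) (hm : 1 ≤ m) (hQ : Bihom D m Q) (j : Fin 3) :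
    Bihom D (m - 1) (pderiv (Sum.inr j) Q) := by
  classical
  intro s hs
  rw [mem_support_iff, coeff_pderiv] at hs
  have h0 : coeff (s + Finsupp.single (Sum.inr j) 1) Q ≠ 0 := fun h => hs (by rw [h, zero_mul])
  have h1 := hQ _ (mem_support_iff.2 h0)
  obtain ⟨ha, hb⟩ := h1
  constructor
  · rw [← ha]
    refine Finset.sum_congr rfl fun i _ => ?_
    simp
  · simp only [Finsupp.add_apply, Finset.sum_add_distrib, Finsupp.single_apply, Sum.inr.injEq,
      Finset.sum_ite_eq, Finset.mem_univ, if_true] at hb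
    omega

theorem V1D3_eul {k : Type} [Field k] (Q : P6 k) (hQ : eul Q = 0) (j : Fin 3) : eul (pderiv (Sum.inr j) Q) = 0 := by
  have h : eul (pderiv (Sum.inr j) Q) = pderiv (Sum.inr j) (eul Q) := by
    unfold eul
    rw [map_sum]
    refine Finset.sum_congr rfl fun i _ => ?_
    rw [Derivation.leibniz, V1D3_comm]
    simp [Xx, pderiv_X]
  rw [h, hQ, map_zero]

theorem V1D3_M {k : Type} [Field k] (c : k) : (Mc c).natDegree ≤ 5 := by
  unfold Mc
  compute_degree

theorem V1D3_L {k : Type} [Field k] (i : Fin 5) : (Lc i : Polynomial k).natDegree ≤ 1 := by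
  unfold Lc
  exact Polynomial.natDegree_X_sub_C_le _

theorem p_V1D3 (h1 : Stmt_V1PSI) : Stmt_V1D3 := by
  intro k _ _ c D m Q hm hQ he
  have key : ∀ (j : Fin 3) (i : Fin 5),
      (cur c (pderiv (Sum.inr j) Q) * (Mc c * Lc i)).natDegree ≤ 6 * D + 4 * m + 2 := by
    intro j i
    have a := h1 k c D (m - 1) (pderiv (Sum.inr j) Q) (V1D3_bihom D m Q hm hQ j) (V1D3_eul Q he j)
    have b := V1D3_M c
    have d := V1D3_L (k := k) i
    have e := Polynomial.natDegree_mul_le (p := cur c (pderiv (Sum.inr j) Q)) (q := Mc c * Lc i)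
    have f := Polynomial.natDegree_mul_le (p := Mc c) (q := Lc i)
    omega
  unfold dcur
  refine (Polynomial.natDegree_add_le _ _).trans (max_le ((Polynomial.natDegree_add_le _ _).trans (max_le ?_ ?_)) ?_)
  · exact key 0 0
  · exact key 1 1
  · exact key 2 2

end Pool.CX.V1
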