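import Pool.Agent.Work.MP_bf99ce_cx.InterfaceV1

/-!
# THEOREM CX, part V1: block V1D4
-/

set_option autoImplicit false

noncomputable section

open MvPolynomial

namespace Pool.CX.V1

/-- `y_j ∂/∂y_j` on a monomial -/
lemma V1D4_mon {k : Type} [Field k] (j : Fin 3) (s : Fin 3 ⊕ Fin 3 →₀ ℕ) (a : k) :
    (X (Sum.inr j) : P6 k) * pderiv (Sum.inr j) (monomial s a) = (s (Sum.inr j) : P6 k) * monomial s a := by
  rw [mul_comm, X, pderiv_monomial, monomial_mul, mul_one, ← map_natCast (C : k →+* P6 k), C_mul_monomial]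
  by_cases h : s (Sum.inr j) = 0
  · rw [h]
    simp
  · have : s - Finsupp.single (Sum.inr j) 1 + Finsupp.single (Sum.inr j) 1 = s := by
      refine tsub_add_cancel_of_le ?_
      rw [Finsupp.single_le_iff]
      omega
    rw [this, mul_comm]

lemma V1D4_euler {k : Type} [Field k] (D m : ℕ) (Q : P6 k) (hQ : Bihom D m Q) :
    ∑ j : Fin 3, (Vv j : P6 k) * pderiv (Sum.inr j) Q = (m : P6 k) * Q := by
  conv_lhs => rw [Q.as_sum]
  conv_rhs => rw [Q.as_sum]
  simp only [map_sum, Finset.mul_sum]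
  rw [Finset.sum_comm]
  refine Finset.sum_congr rfl fun s hs => ?_
  obtain ⟨-, h2⟩ := hQ s hs
  unfold Vv
  simp only [V1D4_mon]
  rw [← Finset.sum_mul, ← h2]
  push_cast
  rfl

theorem p_V1D4 (h1 : Stmt_V1COP) : Stmt_V1D4 := by
  intro k _ _ c hc D m Q hQ
  obtain ⟨-, -, -, -, -, -, h⟩ := h1 k c hc
  have hY : ∀ j : Fin 3, cur c (Vv j) = Yc c j := by
    intro j
    simp [cur, Vv]
  have e : cur c (∑ j : Fin 3, (Vv j : P6 k) * pderiv (Sum.inr j) Q) = cur c ((m : P6 k) * Q) := by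
    rw [V1D4_euler D m Q hQ]
  rw [Fin.sum_univ_three, map_add, map_add, map_mul, map_mul, map_mul, hY, hY, hY, map_mul, map_natCast] at e
  have e' := congrArg (Polynomial.eval c) e
  have y0 : Yc c 0 = Lc 0 ^ 2 * Nc c 0 := rfl
  have y1 : Yc c 1 = Lc 1 ^ 2 * Nc c 1 := rfl
  have y2 : Yc c 2 = Lc 2 ^ 2 * Nc c 2 := rfl
  have hL : ∀ i, (Lc i : Polynomial k).eval c = c - tt k i := by
    intro i
    simp [Lc]
  rw [y0, y1, y2] at e'
  simp only [Polynomial.eval_add, Polynomial.eval_mul, Polynomial.eval_pow, hL, Polynomial.eval_natCast] at e'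
  unfold dcur
  simp only [Polynomial.eval_add, Polynomial.eval_mul, hL]
  rw [← e']
  obtain ⟨-, -, h0⟩ := h 0
  obtain ⟨-, -, h1'⟩ := h 1
  obtain ⟨-, -, h2⟩ := h 2
  linear_combination -(Polynomial.eval c (cur c (pderiv (Sum.inr 0) Q)) * (c - tt k 0)) * h0 -
    (Polynomial.eval c (cur c (pderiv (Sum.inr 1) Q)) * (c - tt k 1)) * h1' -
    (Polynomial.eval c (cur c (pderiv (Sum.inr 2) Q)) * (c - tt k 2)) * h2

end Pool.CX.V1
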