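import Pool.Agent.Work.MP_bf99ce_cx.InterfaceV1

/-!
# Block V1DEG: degrees (helper46)
-/

set_option autoImplicit false

noncomputable section

open MvPolynomial

namespace Pool.CX.V1

theorem p_V1DEG : Stmt_V1DEG := by
  intro k _ D m Q hQ p q a b hp hq
  rw [aeval_def, eval₂_eq']
  apply Polynomial.natDegree_sum_le_of_forall_le
  intro s hs
  obtain ⟨h1, h2⟩ := hQ s hs
  refine (Polynomial.natDegree_C_mul_le _ _).trans ?_
  rw [Fintype.prod_sum_type]
  refine Polynomial.natDegree_mul_le.trans ?_
  simp only [Sum.elim_inl, Sum.elim_inr]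
  have e1 : (∏ x : Fin 3, p x ^ s (Sum.inl x)).natDegree ≤ a * D := by
    refine (Polynomial.natDegree_prod_le _ _).trans ?_
    rw [← h1, Finset.mul_sum]
    refine Finset.sum_le_sum fun i _ => ?_
    refine Polynomial.natDegree_pow_le.trans ?_
    rw [mul_comm]
    exact Nat.mul_le_mul_right _ (hp i)
  have e2 : (∏ x : Fin 3, q x ^ s (Sum.inr x)).natDegree ≤ b * m := by
    refine (Polynomial.natDegree_prod_le _ _).trans ?_
    rw [← h2, Finset.mul_sum]
    refine Finset.sum_le_sum fun i _ => ?_
    refine Polynomial.natDegree_pow_le.trans ?_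
    rw [mul_comm]
    exact Nat.mul_le_mul_right _ (hq i)
  exact add_le_add e1 e2

end Pool.CX.V1
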