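import Pool.Agent.Work.MP_bf99ce_cx.InterfaceV1

/-!
# THEOREM CX, part V1: block V1DIV (divisibility on the curve)
-/

set_option autoImplicit false

noncomputable section

open MvPolynomial

namespace Pool.CX.V1

theorem V1DIV_dvd {k : Type} [Field k] [CharZero k] (c : k) (i : Fin 5)
    (hU : cur c (UU i) = Lc i ^ 3 * Nc c i) (hY : cur c (YY i) = Lc i ^ 2 * Nc c i) (w : ℕ) (Q : P6 k)
    (hQ : Q ∈ I i w) : Lc i ^ w * Nc c i ^ ((w + 2) / 3) ∣ cur c Q := by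
  have h : (I i w : Ideal (P6 k)) ≤ Ideal.comap (cur c) (Ideal.span {Lc i ^ w * Nc c i ^ ((w + 2) / 3)}) := by
    unfold I
    rw [Ideal.span_le]
    rintro q ⟨j, l, hw, rfl⟩
    change cur c (UU i ^ j * YY i ^ l) ∈ Ideal.span {Lc i ^ w * Nc c i ^ ((w + 2) / 3)}
    rw [Ideal.mem_span_singleton, map_mul, map_pow, map_pow, hU, hY]
    have h1 : (Lc i ^ 3 * Nc c i) ^ j * (Lc i ^ 2 * Nc c i) ^ l = Lc i ^ (3 * j + 2 * l) * Nc c i ^ (j + l) := by
      rw [mul_pow, mul_pow, ← pow_mul, ← pow_mul, pow_add, pow_add]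
      ring
    rw [h1]
    exact mul_dvd_mul (pow_dvd_pow _ hw) (pow_dvd_pow _ (by omega))
  exact Ideal.mem_span_singleton.1 (h hQ)

theorem V1DIV_cop {R : Type} [CommRing R] (a b a' b' : R) (n m n' m' : ℕ) (h : IsCoprime (a * b) (a' * b')) :
    IsCoprime (a ^ n * b ^ m) (a' ^ n' * b' ^ m') := by
  have h1 : a ^ n * b ^ m ∣ (a * b) ^ (n + m) := by
    rw [mul_pow]
    exact mul_dvd_mul (pow_dvd_pow _ (by omega)) (pow_dvd_pow _ (by omega))
  have h2 : a' ^ n' * b' ^ m' ∣ (a' * b') ^ (n' + m') := by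
    rw [mul_pow]
    exact mul_dvd_mul (pow_dvd_pow _ (by omega)) (pow_dvd_pow _ (by omega))
  exact IsCoprime.of_isCoprime_of_dvd_left (IsCoprime.of_isCoprime_of_dvd_right h.pow h2) h1

theorem p_V1DIV (h1 : Stmt_V1CUR) (h2 : Stmt_V1COP) : Stmt_V1DIV := by
  intro k _ _ c hc w Q G hQ
  obtain ⟨hcur, -, hKh⟩ := h1 k c
  refine Finset.prod_dvd_of_coprime ?_ ?_
  · intro i _ j _ hij
    exact V1DIV_cop _ _ _ _ _ _ _ _ ((h2 k c hc).1 i j hij)
  · intro i _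
    have h3 := V1DIV_dvd c i (hcur i).1 (hcur i).2 (w i) _ (hQ i)
    have h4 : cur c (Q - Kh * G i) = cur c Q := by
      rw [map_sub, map_mul, hKh, zero_mul, sub_zero]
    rwa [h4] at h3

end Pool.CX.V1
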