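import Pool.Agent.Work.MP_bf99ce_cx.InterfaceV1

/-! # THEOREM CX, part V1, block DSC: divisibility descends -/

set_option autoImplicit false

noncomputable section

open MvPolynomial

namespace Pool.CX.V1

/-- A map applied to the coefficients. -/
def V1DSC_phi {k k' : Type} [Field k] [Field k'] [Algebra k k'] (φ : k' →ₗ[k] k) (p : P6 k') : P6 k :=
  ∑ d ∈ p.support, monomial d (φ (coeff d p))

theorem V1DSC_coeff {k k' : Type} [Field k] [Field k'] [Algebra k k'] (φ : k' →ₗ[k] k) (p : P6 k')
    (e : Fin 3 ⊕ Fin 3 →₀ ℕ) : coeff e (V1DSC_phi φ p) = φ (coeff e p) := by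
  classical
  rw [V1DSC_phi, coeff_sum]
  simp only [coeff_monomial]
  rw [Finset.sum_ite_eq']
  split_ifs with h
  · rfl
  · rw [notMem_support_iff] at h
    rw [h, map_zero]

theorem p_V1DSC : Stmt_V1DSC := by
  intro k k' _ _ _ f g hd
  classical
  obtain ⟨h, hh⟩ := hd
  have hker : LinearMap.ker (Algebra.linearMap k k') = ⊥ :=
    LinearMap.ker_eq_bot.2 (algebraMap k k').injective
  obtain ⟨φ, hφ⟩ := LinearMap.exists_leftInverse_of_injective (Algebra.linearMap k k') hker
  have hφ1 : ∀ c : k, φ (algebraMap k k' c) = c := fun c => LinearMap.congr_fun hφ c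
  refine ⟨V1DSC_phi φ h, ?_⟩
  ext e
  rw [coeff_mul]
  simp only [V1DSC_coeff]
  have h1 : coeff e (map (algebraMap k k') g) = coeff e (map (algebraMap k k') f * h) := by rw [hh]
  rw [coeff_map, coeff_mul] at h1
  have h2 := congrArg φ h1
  rw [hφ1, map_sum] at h2
  rw [h2]
  refine Finset.sum_congr rfl fun x _ => ?_
  rw [coeff_map, ← Algebra.smul_def, map_smul, smul_eq_mul]

end Pool.CX.V1
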