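import Pool.Agent.Work.MP_bf99ce_cx.InterfaceV1b

/-! # THEOREM CX, block V1E1 (typed by helper21): the arc `t = 3` -/

set_option autoImplicit false

noncomputable section

open MvPolynomial

namespace Pool.CX.V1

variable {k : Type} [Field k]

theorem V1E1_x0 : arc (Xx 0 : P6 k) = Lc 0 * 3 := by
  simp only [arc, Xx, aeval_X, Sum.elim_inl]
  rfl

theorem V1E1_x1 : arc (Xx 1 : P6 k) = Lc 1 * 2 := by
  simp only [arc, Xx, aeval_X, Sum.elim_inl]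
  rfl

theorem V1E1_x2 : arc (Xx 2 : P6 k) = Lc 2 * 4 := by
  simp only [arc, Xx, aeval_X, Sum.elim_inl]
  rfl

theorem V1E1_v0 : arc (Vv 0 : P6 k) = Lc 0 := by
  simp only [arc, Vv, aeval_X, Sum.elim_inr]
  rfl

theorem V1E1_v1 : arc (Vv 1 : P6 k) = Lc 1 := by
  simp only [arc, Vv, aeval_X, Sum.elim_inr]
  rfl

theorem V1E1_v2 : arc (Vv 2 : P6 k) = Lc 2 := by
  simp only [arc, Vv, aeval_X, Sum.elim_inr]
  rfl

theorem V1E1_L0 : (Lc 0 : Polynomial k) = Polynomial.X := by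
  have h : tt k 0 = 0 := rfl
  rw [Lc, h, map_zero, sub_zero]

theorem V1E1_L1 : (Lc 1 : Polynomial k) = Polynomial.X - 1 := by
  have h : tt k 1 = 1 := rfl
  rw [Lc, h, map_one]

theorem V1E1_L2 : (Lc 2 : Polynomial k) = Polynomial.X + 1 := by
  have h : tt k 2 = -1 := rfl
  rw [Lc, h, map_neg, map_one, sub_neg_eq_add]

theorem V1E1_L3 : (Lc 3 : Polynomial k) = Polynomial.X - 2 := by
  have h : tt k 3 = 2 := rfl
  rw [Lc, h, map_ofNat]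

theorem V1E1_L4 : (Lc 4 : Polynomial k) = Polynomial.X + 2 := by
  have h : tt k 4 = -2 := rfl
  rw [Lc, h, map_neg, map_ofNat, sub_neg_eq_add]

theorem V1E1_UY (i : Fin 5) : arc (UU i : P6 k) = Lc i * Polynomial.C (3 - tt k i) ∧
    arc (YY i : P6 k) = Lc i := by
  have u3 : (UU 3 : P6 k) = -3 * Xx 0 + 3 * Xx 1 + Xx 2 := rfl
  have u4 : (UU 4 : P6 k) = -3 * Xx 0 + Xx 1 + 3 * Xx 2 := rfl
  have y3 : (YY 3 : P6 k) = -3 * Vv 0 + 3 * Vv 1 + Vv 2 := rfl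
  have y4 : (YY 4 : P6 k) = -3 * Vv 0 + Vv 1 + 3 * Vv 2 := rfl
  have u0 : (UU 0 : P6 k) = Xx 0 := rfl
  have u1 : (UU 1 : P6 k) = Xx 1 := rfl
  have u2 : (UU 2 : P6 k) = Xx 2 := rfl
  have y0 : (YY 0 : P6 k) = Vv 0 := rfl
  have y1 : (YY 1 : P6 k) = Vv 1 := rfl
  have y2 : (YY 2 : P6 k) = Vv 2 := rfl
  have t0 : tt k 0 = 0 := rfl
  have t1 : tt k 1 = 1 := rfl
  have t2 : tt k 2 = -1 := rfl
  have t3 : tt k 3 = 2 := rfl
  have t4 : tt k 4 = -2 := rfl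
  fin_cases i
  · show arc (UU 0 : P6 k) = Lc 0 * Polynomial.C (3 - tt k 0) ∧ arc (YY 0 : P6 k) = Lc 0
    rw [u0, y0, V1E1_x0, V1E1_v0, t0, sub_zero, map_ofNat]
    exact ⟨rfl, rfl⟩
  · show arc (UU 1 : P6 k) = Lc 1 * Polynomial.C (3 - tt k 1) ∧ arc (YY 1 : P6 k) = Lc 1
    rw [u1, y1, V1E1_x1, V1E1_v1, t1, map_sub, map_ofNat, map_one]
    refine ⟨?_, rfl⟩
    ring
  · show arc (UU 2 : P6 k) = Lc 2 * Polynomial.C (3 - tt k 2) ∧ arc (YY 2 : P6 k) = Lc 2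
    rw [u2, y2, V1E1_x2, V1E1_v2, t2, map_sub, map_ofNat, map_neg, map_one]
    refine ⟨?_, rfl⟩
    ring
  · show arc (UU 3 : P6 k) = Lc 3 * Polynomial.C (3 - tt k 3) ∧ arc (YY 3 : P6 k) = Lc 3
    rw [u3, y3, t3]
    simp only [map_add, map_mul, map_sub, map_neg, map_ofNat, V1E1_x0, V1E1_x1, V1E1_x2,
      V1E1_v0, V1E1_v1, V1E1_v2, V1E1_L0, V1E1_L1, V1E1_L2, V1E1_L3]
    constructor <;> ring
  · show arc (UU 4 : P6 k) = Lc 4 * Polynomial.C (3 - tt k 4) ∧ arc (YY 4 : P6 k) = Lc 4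
    rw [u4, y4, t4]
    simp only [map_add, map_mul, map_sub, map_neg, map_ofNat, V1E1_x0, V1E1_x1, V1E1_x2,
      V1E1_v0, V1E1_v1, V1E1_v2, V1E1_L0, V1E1_L1, V1E1_L2, V1E1_L4]
    constructor <;> ring

theorem V1E1_Kh : arc (Kh : P6 k) = 0 := by
  have l0 : (lam 0 : P6 k) = Xx 1 * Vv 2 - Xx 2 * Vv 1 := rfl
  have l1 : (lam 1 : P6 k) = Xx 2 * Vv 0 - Xx 0 * Vv 2 := rfl
  have l2 : (lam 2 : P6 k) = Xx 0 * Vv 1 - Xx 1 * Vv 0 := rfl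
  unfold Kh
  rw [l0, l1, l2]
  simp only [map_add, map_mul, map_sub, map_ofNat, V1E1_x0, V1E1_x1, V1E1_x2,
      V1E1_v0, V1E1_v1, V1E1_v2, V1E1_L0, V1E1_L1, V1E1_L2]
  ring

theorem V1E1_Sh : (arc (Sh : P6 k)).eval 2 = -3312 := by
  unfold Sh UP VP
  simp only [map_add, map_mul, map_sub, map_ofNat, V1E1_x0, V1E1_x1, V1E1_x2,
      V1E1_v0, V1E1_v1, V1E1_v2, V1E1_L0, V1E1_L1, V1E1_L2]
  simp only [Polynomial.eval_add, Polynomial.eval_sub, Polynomial.eval_mul, Polynomial.eval_X,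
    Polynomial.eval_one, Polynomial.eval_ofNat]
  norm_num

theorem V1E1_dvd (i : Fin 5) (w : ℕ) (Q : P6 k) (hQ : Q ∈ I i w) :
    Lc i ^ ((w + 2) / 3) ∣ arc Q := by
  have h : I i w ≤ (Ideal.span {(Lc i : Polynomial k) ^ ((w + 2) / 3)}).comap
      (arc : P6 k →ₐ[k] Polynomial k) := by
    rw [I, Ideal.span_le]
    rintro q ⟨j, l, hjl, rfl⟩
    show arc (UU i ^ j * YY i ^ l) ∈ Ideal.span {(Lc i : Polynomial k) ^ ((w + 2) / 3)}
    rw [Ideal.mem_span_singleton, map_mul, map_pow, map_pow, (V1E1_UY i).1, (V1E1_UY i).2,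
      mul_pow]
    have e : Lc i ^ j * Polynomial.C (3 - tt k i) ^ j * Lc i ^ l =
        Lc i ^ (j + l) * Polynomial.C (3 - tt k i) ^ j := by
      rw [pow_add]
      ring
    rw [e]
    exact Dvd.dvd.mul_right (pow_dvd_pow _ (by omega)) _
  exact Ideal.mem_span_singleton.mp (h hQ)

theorem p_V1E1 : Stmt_V1E1 := by
  intro k _ _
  exact ⟨V1E1_UY, V1E1_Kh, V1E1_Sh, V1E1_dvd⟩

end Pool.CX.V1

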