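import Pool.Agent.Work.MP_bf99ce_cx.InterfaceV1b

/-! # THEOREM CX, part V1: block V1E2 (the end of the deformation argument) -/

set_option autoImplicit false

noncomputable section

open MvPolynomial

namespace Pool.CX.V1

theorem V1E2_inj (k : Type) [Field k] [CharZero k] (i j : Fin 5) (h : i ≠ j) : tt k i ≠ tt k j := by
  fin_cases i <;> fin_cases j <;> first | exact absurd rfl h | (simp only [tt]; norm_num)

theorem V1E2_ne (k : Type) [Field k] [CharZero k] (i : Fin 5) (h : i ≠ 3) :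
    (2 - tt k i) * (3 - tt k i) ≠ 0 := by
  fin_cases i <;> first | exact absurd rfl h | (simp only [tt]; norm_num)

theorem V1E2_deg {k : Type} [Field k] (i : Fin 5) : (Lc i : Polynomial k).natDegree = 1 :=
  Polynomial.natDegree_X_sub_C _

theorem V1E2_monic {k : Type} [Field k] (i : Fin 5) : (Lc i : Polynomial k).Monic :=
  Polynomial.monic_X_sub_C _

theorem V1E2_cop {k : Type} [Field k] [CharZero k] (i j : Fin 5) (h : i ≠ j) :
    IsCoprime (Lc i : Polynomial k) (Lc j) :=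
  Polynomial.isCoprime_X_sub_C_of_isUnit_sub (sub_ne_zero.2 (V1E2_inj k i j h)).isUnit

theorem V1E2_mul {k : Type} [Field k] (i : Fin 5) (a : Polynomial k) (ha : a.natDegree = 0) :
    ((Lc i : Polynomial k) * a).natDegree ≤ 1 := by
  refine Polynomial.natDegree_mul_le.trans ?_
  rw [ha, V1E2_deg]

/-- a polynomial of degree at most `6 + ∑ n i` divisible by all these powers is `0` -/
theorem V1E2_zero {k : Type} [Field k] [CharZero k] (n : Fin 5 → ℕ) (A : Polynomial k)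
    (hA : A.natDegree ≤ 6 + ∑ i, n i) (h0 : Lc 0 ^ (n 0 + 2) ∣ A) (h1 : Lc 1 ^ (n 1 + 2) ∣ A)
    (h2 : Lc 2 ^ (n 2 + 2) ∣ A) (h3 : Lc 3 ^ (n 3) ∣ A) (h4 : Lc 4 ^ (n 4 + 1) ∣ A) : A = 0 := by
  have h : ∏ i : Fin 5, (Lc i : Polynomial k) ^ ((![n 0 + 2, n 1 + 2, n 2 + 2, n 3, n 4 + 1] : Fin 5 → ℕ) i) ∣ A := by
    refine Fintype.prod_dvd_of_coprime ?_ ?_
    · intro i j hij
      exact (V1E2_cop i j hij).pow
    · intro i
      fin_cases i
      · exact h0
      · exact h1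
      · exact h2
      · exact h3
      · exact h4
  refine Polynomial.eq_zero_of_dvd_of_natDegree_lt h ?_
  rw [Polynomial.natDegree_prod_of_monic _ _ (fun i _ => (V1E2_monic i).pow _)]
  have h5 : ∀ i : Fin 5, ((Lc i : Polynomial k) ^ ((![n 0 + 2, n 1 + 2, n 2 + 2, n 3, n 4 + 1] : Fin 5 → ℕ) i)).natDegree =
      (![n 0 + 2, n 1 + 2, n 2 + 2, n 3, n 4 + 1] : Fin 5 → ℕ) i := by
    intro i
    rw [(V1E2_monic i).natDegree_pow, V1E2_deg, mul_one]
  rw [Finset.sum_congr rfl (fun i _ => h5 i)]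
  refine lt_of_le_of_lt hA ?_
  simp only [Fin.sum_univ_five, Matrix.cons_val]
  omega

theorem p_V1E2 (h1 : Stmt_V1DEG) (h2 : Stmt_V1E1) : Stmt_END := by
  intro k _ _ D n c Q G hB hD m0 m1 m2 m4 m3
  obtain ⟨ha, hK, hS, hI⟩ := h2 k
  have hdeg : (arc Q).natDegree ≤ 6 + ∑ i, n i := by
    have := h1 k D 2 Q hB (![Lc 0 * 3, Lc 1 * 2, Lc 2 * 4] : Fin 3 → Polynomial k)
      (![Lc 0, Lc 1, Lc 2] : Fin 3 → Polynomial k) 1 1 ?_ ?_
    · refine le_trans this ?_
      omega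
    · intro j
      fin_cases j
      · exact V1E2_mul 0 3 (Polynomial.natDegree_ofNat 3)
      · exact V1E2_mul 1 2 (Polynomial.natDegree_ofNat 2)
      · exact V1E2_mul 2 4 (Polynomial.natDegree_ofNat 4)
    · intro j
      fin_cases j
      · exact (V1E2_deg 0).le
      · exact (V1E2_deg 1).le
      · exact (V1E2_deg 2).le
  have d0 := hI 0 _ Q m0
  have d1 := hI 1 _ Q m1
  have d2 := hI 2 _ Q m2
  have d4 := hI 4 _ Q m4
  have d3 := hI 3 _ _ m3
  rw [show (4 + 3 * n 0 + 2) / 3 = n 0 + 2 by omega] at d0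
  rw [show (4 + 3 * n 1 + 2) / 3 = n 1 + 2 by omega] at d1
  rw [show (4 + 3 * n 2 + 2) / 3 = n 2 + 2 by omega] at d2
  rw [show (2 + 3 * n 4 + 2) / 3 = n 4 + 1 by omega] at d4
  rw [show (2 + 3 * n 3 + 2) / 3 = n 3 + 1 by omega] at d3
  have hprod : arc (∏ i, (UU i : P6 k) ^ n i) = Lc 3 ^ n 3 * (Polynomial.C (3 - tt k 3) ^ n 3 *
      ∏ i ∈ Finset.univ.erase (3 : Fin 5), (Lc i * Polynomial.C (3 - tt k i)) ^ n i) := by
    rw [map_prod, ← Finset.mul_prod_erase _ _ (Finset.mem_univ (3 : Fin 5)), map_pow, (ha 3).1, mul_pow,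
      mul_assoc]
    congr 2
    refine Finset.prod_congr rfl fun i _ => ?_
    rw [map_pow, (ha i).1]
  have harc : arc (Q - C c * ((∏ i, UU i ^ n i) * Sh) - Kh * G) =
      arc Q - Lc 3 ^ n 3 * (Polynomial.C c * (Polynomial.C (3 - tt k 3) ^ n 3 *
      ∏ i ∈ Finset.univ.erase (3 : Fin 5), (Lc i * Polynomial.C (3 - tt k i)) ^ n i) * arc Sh) := by
    rw [map_sub, map_sub, map_mul, map_mul, map_mul, hK, zero_mul, sub_zero, hprod]
    have hc : arc (C c : P6 k) = Polynomial.C c := by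
      unfold arc
      rw [algHom_C]
      rfl
    rw [hc]
    ring
  rw [harc] at d3
  have hd3 : Lc 3 ^ n 3 ∣ arc Q := by
    have h5 : Lc 3 ^ n 3 ∣ Lc 3 ^ n 3 * (Polynomial.C c * (Polynomial.C (3 - tt k 3) ^ n 3 *
      ∏ i ∈ Finset.univ.erase (3 : Fin 5), (Lc i * Polynomial.C (3 - tt k i)) ^ n i) * arc Sh) :=
      dvd_mul_right _ _
    have h6 := dvd_trans (pow_dvd_pow _ (Nat.le_succ (n 3))) d3
    exact (dvd_sub_left h5).1 h6
  have hzero : arc Q = 0 := V1E2_zero n _ hdeg d0 d1 d2 hd3 d4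
  rw [hzero, zero_sub, dvd_neg, pow_succ] at d3
  have h7 := (mul_dvd_mul_iff_left (pow_ne_zero (n 3) (V1E2_monic (k := k) 3).ne_zero)).1 d3
  obtain ⟨B, hB'⟩ := h7
  have h8 := congrArg (Polynomial.eval 2) hB'
  rw [Polynomial.eval_mul, Polynomial.eval_mul, Polynomial.eval_mul, Polynomial.eval_mul, hS,
    Polynomial.eval_C, Polynomial.eval_prod, Polynomial.eval_pow, Polynomial.eval_C] at h8
  have h9 : (Lc 3 : Polynomial k).eval 2 = 0 := by
    simp [Lc, tt]
  rw [h9, zero_mul] at h8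
  have h10 : ∏ i ∈ Finset.univ.erase (3 : Fin 5),
      Polynomial.eval 2 ((Lc i * Polynomial.C (3 - tt k i)) ^ n i) ≠ 0 := by
    refine Finset.prod_ne_zero_iff.2 fun i hi => ?_
    rw [Polynomial.eval_pow, Polynomial.eval_mul, Polynomial.eval_C]
    unfold Lc
    rw [Polynomial.eval_sub, Polynomial.eval_X, Polynomial.eval_C]
    exact pow_ne_zero _ (V1E2_ne k i (Finset.ne_of_mem_erase hi))
  have h11 : (3 - tt k 3) ^ n 3 ≠ 0 := by
    refine pow_ne_zero _ ?_
    simp only [tt, Matrix.cons_val]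
    norm_num
  rcases mul_eq_zero.1 h8 with h12 | h12
  · rcases mul_eq_zero.1 h12 with h13 | h13
    · exact h13
    · rcases mul_eq_zero.1 h13 with h14 | h14
      · exact absurd h14 h11
      · exact absurd h14 h10
  · norm_num at h12

end Pool.CX.V1
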