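import Pool.Agent.Work.MP_bf99ce_cx.InterfaceV1

/-! # Block V1EUL (helper62): the Euler condition integrated -/

set_option autoImplicit false

noncomputable section

open MvPolynomial

namespace Pool.CX.V1

theorem V1EUL_mul {k : Type} [CommRing k] (a b : P6 k) : eul (a * b) = eul a * b + a * eul b := by
  unfold eul
  rw [Finset.sum_mul, Finset.mul_sum, ← Finset.sum_add_distrib]
  refine Finset.sum_congr rfl fun i _ => ?_
  rw [Derivation.leibniz]
  simp only [smul_eq_mul]
  ring

theorem V1EUL_add {k : Type} [CommRing k] (a b : P6 k) : eul (a + b) = eul a + eul b := by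
  unfold eul
  rw [← Finset.sum_add_distrib]
  refine Finset.sum_congr rfl fun i _ => ?_
  rw [map_add, mul_add]

theorem V1EUL_C {k : Type} [CommRing k] (a : k) : eul (C a : P6 k) = 0 := by
  unfold eul
  refine Finset.sum_eq_zero fun i _ => ?_
  rw [pderiv_C, mul_zero]

theorem V1EUL_inl {k : Type} [CommRing k] (j : Fin 3) : eul (X (Sum.inl j) : P6 k) = 0 := by
  unfold eul
  refine Finset.sum_eq_zero fun i _ => ?_
  rw [pderiv_X_of_ne (by simp), mul_zero]

theorem V1EUL_inr {k : Type} [CommRing k] (j : Fin 3) : eul (X (Sum.inr j) : P6 k) = Xx j := by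
  unfold eul
  rw [Finset.sum_eq_single j]
  · rw [pderiv_X_self, mul_one]
  · intro i _ hij
    rw [pderiv_X_of_ne (by simpa using Ne.symm hij), mul_zero]
  · intro h
    exact absurd (Finset.mem_univ j) h

/-- the substitution `y_j = q_j + T p_j` -/
def V1EUL_F {k : Type} [CommRing k] {A : Type} [CommRing A] [Algebra k A] (p q : Fin 3 → A) :
    P6 k →ₐ[k] Polynomial A :=
  aeval (Sum.elim (fun j => Polynomial.C (p j)) (fun j => Polynomial.C (q j) + Polynomial.X * Polynomial.C (p j)))

theorem V1EUL_chain {k : Type} [CommRing k] {A : Type} [CommRing A] [Algebra k A] (p q : Fin 3 → A) (Q : P6 k) :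
    Polynomial.derivative (V1EUL_F p q Q) = V1EUL_F p q (eul Q) := by
  induction Q using MvPolynomial.induction_on with
  | C a =>
    rw [V1EUL_C, map_zero, V1EUL_F, aeval_C, Polynomial.algebraMap_apply, Polynomial.derivative_C]
  | add P R hP hR =>
    rw [map_add, Polynomial.derivative_add, hP, hR, V1EUL_add, map_add]
  | mul_X P i hP =>
    rw [map_mul, Polynomial.derivative_mul, hP, V1EUL_mul, map_add, map_mul, map_mul]
    congr 1
    congr 1
    rcases i with j | j
    · rw [V1EUL_inl, map_zero, V1EUL_F, aeval_X, Sum.elim_inl, Polynomial.derivative_C]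
    · rw [V1EUL_inr, V1EUL_F, Xx, aeval_X, aeval_X, Sum.elim_inl, Sum.elim_inr, Polynomial.derivative_add,
        Polynomial.derivative_C, Polynomial.derivative_mul, Polynomial.derivative_X, Polynomial.derivative_C]
      ring

theorem V1EUL_eval {k : Type} [CommRing k] {A : Type} [CommRing A] [Algebra k A] (p q : Fin 3 → A) (a : A) (Q : P6 k) :
    Polynomial.aeval a (V1EUL_F p q Q) = aeval (Sum.elim p (fun j => q j + a * p j)) Q := by
  have h : ((Polynomial.aeval a : Polynomial A →ₐ[A] A).restrictScalars k).comp (V1EUL_F p q : P6 k →ₐ[k] Polynomial A) =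
      aeval (Sum.elim p (fun j => q j + a * p j)) := by
    refine MvPolynomial.algHom_ext fun i => ?_
    rcases i with j | j
    · simp [V1EUL_F]
    · simp [V1EUL_F]
      ring
  exact congrArg (fun φ : P6 k →ₐ[k] A => φ Q) h

theorem p_V1EUL : Stmt_V1EUL := by
  intro k _ _ Q hQ A _ _ p q a
  have h0 : Polynomial.derivative (V1EUL_F p q Q) = 0 := by
    rw [V1EUL_chain, hQ, map_zero]
  have h1 : V1EUL_F p q Q = Polynomial.C ((V1EUL_F p q Q).coeff 0) := by
    ext n
    rcases n with _ | n
    · rw [Polynomial.coeff_C_zero]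
    · rw [Polynomial.coeff_C_succ]
      have h2 := congrArg (fun P : Polynomial A => P.coeff n) h0
      simp only [Polynomial.coeff_derivative, Polynomial.coeff_zero] at h2
      have h3 : ((n : A) + 1) = algebraMap k A ((n : k) + 1) := by
        rw [map_add, map_natCast, map_one]
      have h4 : ((n : k) + 1) ≠ 0 := by exact_mod_cast Nat.succ_ne_zero n
      have h5 : IsUnit ((n : A) + 1) := by
        rw [h3]
        exact (IsUnit.mk0 _ h4).map (algebraMap k A)
      exact (h5.mul_left_eq_zero).1 h2
  rw [← V1EUL_eval p q a Q, h1, Polynomial.aeval_C]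
  have h6 := V1EUL_eval p q 0 Q
  rw [h1, Polynomial.aeval_C] at h6
  rw [h6]
  congr 2
  funext j
  rcases j with j | j
  · rfl
  · rw [Sum.elim_inr, Sum.elim_inr, zero_mul, add_zero]

end Pool.CX.V1
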