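import Pool.Agent.Work.MP_bf99ce_cx.InterfaceV1

/-! # THEOREM CX, part V1: block V1EXT -/

set_option autoImplicit false

noncomputable section

open MvPolynomial

namespace Pool.CX.V1

/-- The coordinates of the point as polynomials in `s`, `t`. -/
def V1EXT_g (A : Type) [CommRing A] (s t : A) : Fin 3 ⊕ Fin 3 → A :=
  Sum.elim (fun j : Fin 3 => (s - ![0, 1, -1] j) * (t - ![0, 1, -1] j)) (fun j => s - ![0, 1, -1] j)

theorem V1EXT_map {A B : Type} [CommRing A] [CommRing B] (f : A →+* B) (s t : A) :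
    (fun i => f (V1EXT_g A s t i)) = V1EXT_g B (f s) (f t) := by
  funext i
  rcases i with j | j
  · fin_cases j <;> simp [V1EXT_g]
  · fin_cases j <;> simp [V1EXT_g]

theorem p_V1EXT : Stmt_V1EXT := by
  intro k k' _ _ _ _ Q hQ s t
  have hF : aeval (V1EXT_g (MvPolynomial (Fin 2) k) (X 0) (X 1)) Q =
      (0 : MvPolynomial (Fin 2) k) := by
    apply MvPolynomial.funext
    intro v
    have h1 : eval v (aeval (V1EXT_g (MvPolynomial (Fin 2) k) (X 0) (X 1)) Q) =
        aeval (fun i => aeval v (V1EXT_g (MvPolynomial (Fin 2) k) (X 0) (X 1) i)) Q :=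
      comp_aeval_apply (V1EXT_g (MvPolynomial (Fin 2) k) (X 0) (X 1))
        (aeval v : MvPolynomial (Fin 2) k →ₐ[k] k) Q
    have h2 : (fun i => (aeval v : MvPolynomial (Fin 2) k →ₐ[k] k)
        (V1EXT_g (MvPolynomial (Fin 2) k) (X 0) (X 1) i)) = V1EXT_g k (v 0) (v 1) := by
      have h3 := V1EXT_map ((aeval v : MvPolynomial (Fin 2) k →ₐ[k] k) :
        MvPolynomial (Fin 2) k →+* k) (X 0) (X 1)
      simpa using h3
    rw [h1, h2, map_zero]
    exact hQ (v 0) (v 1)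
  have h4 : (aeval ![s, t] : MvPolynomial (Fin 2) k →ₐ[k] k')
      (aeval (V1EXT_g (MvPolynomial (Fin 2) k) (X 0) (X 1)) Q) =
      aeval (fun i => (aeval ![s, t] : MvPolynomial (Fin 2) k →ₐ[k] k')
        (V1EXT_g (MvPolynomial (Fin 2) k) (X 0) (X 1) i)) Q :=
    comp_aeval_apply (V1EXT_g (MvPolynomial (Fin 2) k) (X 0) (X 1))
      (aeval ![s, t] : MvPolynomial (Fin 2) k →ₐ[k] k') Q
  have h5 : (fun i => (aeval ![s, t] : MvPolynomial (Fin 2) k →ₐ[k] k')
      (V1EXT_g (MvPolynomial (Fin 2) k) (X 0) (X 1) i)) = V1EXT_g k' s t := by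
    have h3 := V1EXT_map ((aeval ![s, t] : MvPolynomial (Fin 2) k →ₐ[k] k') :
      MvPolynomial (Fin 2) k →+* k') (X 0) (X 1)
    simpa using h3
  rw [hF, map_zero, h5] at h4
  rw [eval_map]
  exact h4.symm

end Pool.CX.V1
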