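import Pool.Agent.Work.MP_bf99ce_cx.InterfaceV1

set_option autoImplicit false

noncomputable section

open MvPolynomial

namespace Pool.CX.V1

theorem p_V1HOM : Stmt_V1HOM := by
  intro k _ D m Q hQ A _ _ p q a b
  rw [aeval_def, aeval_def, eval₂_eq', eval₂_eq', Finset.mul_sum]
  refine Finset.sum_congr rfl fun s hs => ?_
  obtain ⟨h1, h2⟩ := hQ s hs
  rw [Fintype.prod_sum_type, Fintype.prod_sum_type]
  simp only [Sum.elim_inl, Sum.elim_inr, mul_pow, Finset.prod_mul_distrib]
  rw [Finset.prod_pow_eq_pow_sum, Finset.prod_pow_eq_pow_sum, h1, h2]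
  ring

end Pool.CX.V1
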