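import Pool.Agent.Work.MP_bf99ce_cx.InterfaceV1b

set_option autoImplicit false

noncomputable section

open MvPolynomial

namespace Pool.CX.V1

theorem V1ISO_inc {k : Type} [CommRing k] (i : Fin 5) (j : Fin 3) : inc (k := k) i (X (Sum.inl j)) = Xx j := by
  rw [inc, aeval_X, Sum.elim_inl]

theorem V1ISO_inr {k : Type} [CommRing k] (i : Fin 5) (j : Fin 2) : inc (k := k) i (X (Sum.inr j)) = yr i j := by
  rw [inc, aeval_X, Sum.elim_inr]

theorem V1ISO_phl {k : Type} [CommRing k] (i : Fin 5) (j : Fin 3) : ph (k := k) i (Xx j) = Polynomial.C (X (Sum.inl j)) := by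
  rw [ph, Xx, aeval_X, Sum.elim_inl]

theorem V1ISO_phr {k : Type} [CommRing k] (i : Fin 5) (j : Fin 3) : ph (k := k) i (Vv j) = yv i j := by
  rw [ph, Vv, aeval_X, Sum.elim_inr]

theorem V1ISO_bC {k : Type} [CommRing k] (i : Fin 5) (r : R5 k) : bk i (Polynomial.C r) = inc i r := by
  rw [bk, Polynomial.coe_eval₂RingHom, Polynomial.eval₂_C]
  rfl

theorem V1ISO_bX {k : Type} [CommRing k] (i : Fin 5) : bk (k := k) i Polynomial.X = YY i := by
  rw [bk, Polynomial.coe_eval₂RingHom, Polynomial.eval₂_X]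

theorem V1ISO_U {k : Type} [CommRing k] (i : Fin 5) : ph (k := k) i (UU i) = Polynomial.C (pl i : R5 k) := by
  fin_cases i
  · exact V1ISO_phl 0 0
  · exact V1ISO_phl 1 1
  · exact V1ISO_phl 2 2
  · show ph (k := k) 3 (-3 * Xx 0 + 3 * Xx 1 + Xx 2) =
      Polynomial.C (X (Sum.inl 2) + 3 * (X (Sum.inl 1) - X (Sum.inl 0)))
    simp only [map_add, map_mul, map_neg, map_ofNat, map_sub, V1ISO_phl]
    ring
  · show ph (k := k) 4 (-3 * Xx 0 + Xx 1 + 3 * Xx 2) =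
      Polynomial.C (X (Sum.inl 1) + 3 * (X (Sum.inl 2) - X (Sum.inl 0)))
    simp only [map_add, map_mul, map_neg, map_ofNat, map_sub, V1ISO_phl]
    ring

theorem V1ISO_Y {k : Type} [CommRing k] (i : Fin 5) : ph (k := k) i (YY i) = (Polynomial.X : Polynomial (R5 k)) := by
  fin_cases i
  · exact V1ISO_phr 0 0
  · exact V1ISO_phr 1 1
  · exact V1ISO_phr 2 2
  · show ph (k := k) 3 (-3 * Vv 0 + 3 * Vv 1 + Vv 2) = Polynomial.X
    simp only [map_add, map_mul, map_neg, map_ofNat, V1ISO_phr]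
    show -3 * Polynomial.C (X (Sum.inr 0)) + 3 * Polynomial.C (X (Sum.inr 1)) +
      (Polynomial.X + 3 * Polynomial.C (X (Sum.inr 0)) - 3 * Polynomial.C (X (Sum.inr 1))) = Polynomial.X
    ring
  · show ph (k := k) 4 (-3 * Vv 0 + Vv 1 + 3 * Vv 2) = Polynomial.X
    simp only [map_add, map_mul, map_neg, map_ofNat, V1ISO_phr]
    show -3 * Polynomial.C (X (Sum.inr 0)) +
      (Polynomial.X + 3 * Polynomial.C (X (Sum.inr 0)) - 3 * Polynomial.C (X (Sum.inr 1))) +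
      3 * Polynomial.C (X (Sum.inr 1)) = Polynomial.X
    ring

theorem V1ISO_I {k : Type} [CommRing k] (i : Fin 5) : inc (k := k) i (pl i : R5 k) = UU i := by
  fin_cases i
  · exact V1ISO_inc 0 0
  · exact V1ISO_inc 1 1
  · exact V1ISO_inc 2 2
  · show inc (k := k) 3 (X (Sum.inl 2) + 3 * (X (Sum.inl 1) - X (Sum.inl 0))) = -3 * Xx 0 + 3 * Xx 1 + Xx 2
    simp only [map_add, map_mul, map_ofNat, map_sub, V1ISO_inc]
    ring
  · show inc (k := k) 4 (X (Sum.inl 1) + 3 * (X (Sum.inl 2) - X (Sum.inl 0))) = -3 * Xx 0 + Xx 1 + 3 * Xx 2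
    simp only [map_add, map_mul, map_ofNat, map_sub, V1ISO_inc]
    ring

theorem V1ISO_V {k : Type} [CommRing k] (i : Fin 5) (j : Fin 3) : bk (k := k) i (yv i j) = Vv j := by
  fin_cases i <;> fin_cases j
  · exact V1ISO_bX 0
  · exact (V1ISO_bC 0 _).trans (V1ISO_inr 0 0)
  · exact (V1ISO_bC 0 _).trans (V1ISO_inr 0 1)
  · exact (V1ISO_bC 1 _).trans (V1ISO_inr 1 0)
  · exact V1ISO_bX 1
  · exact (V1ISO_bC 1 _).trans (V1ISO_inr 1 1)
  · exact (V1ISO_bC 2 _).trans (V1ISO_inr 2 0)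
  · exact (V1ISO_bC 2 _).trans (V1ISO_inr 2 1)
  · exact V1ISO_bX 2
  · exact (V1ISO_bC 3 _).trans (V1ISO_inr 3 0)
  · exact (V1ISO_bC 3 _).trans (V1ISO_inr 3 1)
  · show bk (k := k) 3 (Polynomial.X + 3 * Polynomial.C (X (Sum.inr 0)) - 3 * Polynomial.C (X (Sum.inr 1))) = Vv 2
    simp only [map_add, map_mul, map_ofNat, map_sub, V1ISO_bC, V1ISO_bX, V1ISO_inr]
    show -3 * Vv 0 + 3 * Vv 1 + Vv 2 + 3 * Vv 0 - 3 * Vv 1 = (Vv 2 : P6 k)
    ring
  · exact (V1ISO_bC 4 _).trans (V1ISO_inr 4 0)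
  · show bk (k := k) 4 (Polynomial.X + 3 * Polynomial.C (X (Sum.inr 0)) - 3 * Polynomial.C (X (Sum.inr 1))) = Vv 1
    simp only [map_add, map_mul, map_ofNat, map_sub, V1ISO_bC, V1ISO_bX, V1ISO_inr]
    show -3 * Vv 0 + Vv 1 + 3 * Vv 2 + 3 * Vv 0 - 3 * Vv 2 = (Vv 1 : P6 k)
    ring
  · exact (V1ISO_bC 4 _).trans (V1ISO_inr 4 1)

theorem V1ISO_B {k : Type} [CommRing k] (i : Fin 5) (Q : P6 k) : bk i (ph i Q) = Q := by
  have h : (bk (k := k) i).comp (ph (k := k) i).toRingHom = RingHom.id _ := by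
    refine MvPolynomial.ringHom_ext (fun r => ?_) fun j => ?_
    · show bk i (ph i (C r)) = C r
      have h1 : ph (k := k) i (C r) = Polynomial.C (C r) := by
        rw [ph, aeval_C]
        rfl
      rw [h1, V1ISO_bC, inc, aeval_C]
      rfl
    · rcases j with j | j
      · show bk i (ph i (Xx j)) = Xx j
        rw [V1ISO_phl, V1ISO_bC, V1ISO_inc]
      · show bk i (ph i (Vv j)) = Vv j
        rw [V1ISO_phr, V1ISO_V]
  exact congrFun (congrArg DFunLike.coe h) Q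

theorem p_V1ISO : Stmt_V1ISO := by
  intro k _ _ i
  exact ⟨V1ISO_U i, V1ISO_Y i, V1ISO_I i, V1ISO_B i⟩

end Pool.CX.V1
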