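import Pool.Agent.Work.MP_bf99ce_cx.InterfaceV1

/-! # Block V1KDV: the form `Kh` divides `Q`

Pass to the algebraic closure, divide there, and descend. -/

set_option autoImplicit false

noncomputable section

open MvPolynomial

namespace Pool.CX.V1

theorem V1KDV_Xx (k k' : Type) [Field k] [Field k'] [Algebra k k'] (i : Fin 3) :
    map (algebraMap k k') (Xx i : P6 k) = Xx i := by
  unfold Xx
  rw [map_X]

theorem V1KDV_Vv (k k' : Type) [Field k] [Field k'] [Algebra k k'] (i : Fin 3) :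
    map (algebraMap k k') (Vv i : P6 k) = Vv i := by
  unfold Vv
  rw [map_X]

theorem V1KDV_lam (k k' : Type) [Field k] [Field k'] [Algebra k k'] (i : Fin 3) :
    map (algebraMap k k') (lam i : P6 k) = lam i := by
  unfold lam
  rw [map_sub, map_mul, map_mul, V1KDV_Xx, V1KDV_Xx, V1KDV_Vv, V1KDV_Vv]

theorem V1KDV_Kh (k k' : Type) [Field k] [Field k'] [Algebra k k'] :
    map (algebraMap k k') (Kh : P6 k) = Kh := by
  unfold Kh
  rw [map_add, map_add, map_mul, map_mul, map_mul, map_mul, V1KDV_lam, V1KDV_lam, V1KDV_lam, map_ofNat]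

theorem V1KDV_eul (k k' : Type) [Field k] [Field k'] [Algebra k k'] (Q : P6 k) :
    eul (map (algebraMap k k') Q) = map (algebraMap k k') (eul Q) := by
  unfold eul
  rw [map_sum]
  refine Finset.sum_congr rfl (fun i _ => ?_)
  rw [map_mul, V1KDV_Xx, pderiv_map]

theorem V1KDV_bihom (k k' : Type) [Field k] [Field k'] [Algebra k k'] (D m : ℕ) (Q : P6 k) (h : Bihom D m Q) :
    Bihom D m (map (algebraMap k k') Q) := by
  intro s hs
  exact h s (support_map_subset _ _ hs)

/-- Block V1KDV. -/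
theorem p_V1KDV (h1 : Stmt_V1EXT) (h2 : Stmt_V1RED) (h3 : Stmt_V1PDV) (h4 : Stmt_V1RHO) (h5 : Stmt_V1CAN) (h6 : Stmt_V1DSC) :
    Stmt_V1KDV := by
  intro k _ _ D m Q hB hE hm hv
  have : CharZero (AlgebraicClosure k) := charZero_of_injective_algebraMap (algebraMap k (AlgebraicClosure k)).injective
  have hB' : Bihom D m (map (algebraMap k (AlgebraicClosure k)) Q) := V1KDV_bihom k _ D m Q hB
  have hE' : eul (map (algebraMap k (AlgebraicClosure k)) Q) = 0 := by
    rw [V1KDV_eul, hE, map_zero]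
  obtain ⟨ρ₁, ρ₀, W, hW⟩ := h3 (AlgebraicClosure k) D m _ hB' hm
  obtain ⟨e1, e2⟩ := h4 (AlgebraicClosure k) D m _ hB' hE' hm (h1 k (AlgebraicClosure k) Q hv) ρ₁ ρ₀ W hW
  rw [e1, e2, map_zero, zero_mul, zero_mul, add_zero, zero_mul, add_zero, ← (h2 (AlgebraicClosure k)).1 D m _ hB' hE'] at hW
  have h7 : Kh ∣ Xx 0 ^ m * (Xx 2 ^ m * map (algebraMap k (AlgebraicClosure k)) Q) := by
    refine ⟨Xx 0 * W, ?_⟩
    calc Xx 0 ^ m * (Xx 2 ^ m * map (algebraMap k (AlgebraicClosure k)) Q)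
        = Xx 2 ^ m * (Xx 0 ^ m * map (algebraMap k (AlgebraicClosure k)) Q) := by ring
      _ = Xx 0 * Kh * W := hW
      _ = Kh * (Xx 0 * W) := by ring
  have h8 := h5 (AlgebraicClosure k) m m _ h7
  refine h6 k (AlgebraicClosure k) Kh Q ?_
  rw [V1KDV_Kh]
  exact h8

end Pool.CX.V1
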