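import Pool.Agent.Work.MP_bf99ce_cx.InterfaceV1b

/-!
# THEOREM CX, part V1: block V1KH
-/

set_option autoImplicit false

noncomputable section

open MvPolynomial

namespace Pool.CX.V1

/-- from an explicit form of the quadratic polynomial -/
theorem V1KH_of {k : Type} [Field k] (P : Polynomial (R5 k)) (p a b c q : R5 k)
    (x : Fin 3 ⊕ Fin 2 → k) (hP : P = Polynomial.C a + Polynomial.C b * Polynomial.X + Polynomial.C c * Polynomial.X ^ 2)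
    (ha : a = p * q) (hp : aeval x p = 0) (hb : aeval x b = -1) :
    p ∣ P.coeff 0 ∧ ¬ p ∣ P.coeff 1 ∧ P.natDegree ≤ 2 := by
  subst hP
  refine ⟨?_, ?_, ?_⟩
  · have h : (Polynomial.C a + Polynomial.C b * Polynomial.X +
        Polynomial.C c * Polynomial.X ^ 2).coeff 0 = a := by
      simp
    rw [h, ha]
    exact dvd_mul_right _ _
  · have h : (Polynomial.C a + Polynomial.C b * Polynomial.X +
        Polynomial.C c * Polynomial.X ^ 2).coeff 1 = b := by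
      rw [Polynomial.coeff_add, Polynomial.coeff_add, Polynomial.coeff_C_mul, Polynomial.coeff_C_mul,
        Polynomial.coeff_C, Polynomial.coeff_X_one, Polynomial.coeff_X_pow]
      simp
    rw [h]
    rintro ⟨r, hr⟩
    rw [hr, map_mul, hp, zero_mul] at hb
    have h1 : (1 : k) = 0 := by linear_combination hb
    exact one_ne_zero h1
  · refine (Polynomial.natDegree_add_le _ _).trans (max_le ((Polynomial.natDegree_add_le _ _).trans (max_le ?_ ?_)) ?_)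
    · rw [Polynomial.natDegree_C]
      omega
    · exact (Polynomial.natDegree_C_mul_le _ _).trans (Polynomial.natDegree_X_le.trans (by omega))
    · exact (Polynomial.natDegree_C_mul_le _ _).trans (Polynomial.natDegree_X_pow_le 2)

/-- the image of `Kh` in terms of the values of the `y` -/
theorem V1KH_ph {k : Type} [Field k] (i : Fin 5) : ph i (Kh : P6 k) =
    (Polynomial.C (X (Sum.inl 1)) * yv i 2 - Polynomial.C (X (Sum.inl 2)) * yv i 1) *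
      (Polynomial.C (X (Sum.inl 2)) * yv i 0 - Polynomial.C (X (Sum.inl 0)) * yv i 2) +
    (Polynomial.C (X (Sum.inl 1)) * yv i 2 - Polynomial.C (X (Sum.inl 2)) * yv i 1) *
      (Polynomial.C (X (Sum.inl 0)) * yv i 1 - Polynomial.C (X (Sum.inl 1)) * yv i 0) +
    4 * ((Polynomial.C (X (Sum.inl 2)) * yv i 0 - Polynomial.C (X (Sum.inl 0)) * yv i 2) *
      (Polynomial.C (X (Sum.inl 0)) * yv i 1 - Polynomial.C (X (Sum.inl 1)) * yv i 0)) := by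
  have hx : ∀ j : Fin 3, ph i (Xx j : P6 k) = Polynomial.C (X (Sum.inl j)) := fun j => by
    unfold ph Xx
    rw [aeval_X]
    rfl
  have hv : ∀ j : Fin 3, ph i (Vv j : P6 k) = yv i j := fun j => by
    unfold ph Vv
    rw [aeval_X]
    rfl
  have e0 : (lam 0 : P6 k) = Xx 1 * Vv 2 - Xx 2 * Vv 1 := rfl
  have e1 : (lam 1 : P6 k) = Xx 2 * Vv 0 - Xx 0 * Vv 2 := rfl
  have e2 : (lam 2 : P6 k) = Xx 0 * Vv 1 - Xx 1 * Vv 0 := rfl
  unfold Kh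
  rw [e0, e1, e2]
  simp only [map_add, map_mul, map_sub, hx, hv, map_ofNat]

theorem V1KH_0 {k : Type} [Field k] : (pl 0 : R5 k) ∣ (ph 0 (Kh : P6 k)).coeff 0 ∧
    ¬ pl 0 ∣ (ph 0 (Kh : P6 k)).coeff 1 ∧ (ph 0 (Kh : P6 k)).natDegree ≤ 2 := by
  refine V1KH_of _ _
    (X (Sum.inl 0) * ((X (Sum.inl 1) * X (Sum.inr 1) - X (Sum.inl 2) * X (Sum.inr 0)) *
      (X (Sum.inr 0) - X (Sum.inr 1)) - 4 * (X (Sum.inl 0) * X (Sum.inr 0) * X (Sum.inr 1))))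
    ((X (Sum.inl 1) * X (Sum.inr 1) - X (Sum.inl 2) * X (Sum.inr 0)) * (X (Sum.inl 2) - X (Sum.inl 1)) +
      4 * (X (Sum.inl 0) * (X (Sum.inl 2) * X (Sum.inr 0) + X (Sum.inl 1) * X (Sum.inr 1))))
    (-4 * (X (Sum.inl 1) * X (Sum.inl 2)))
    _ (Sum.elim ![0, 1, 0] ![0, 1]) ?_ rfl ?_ ?_
  · rw [V1KH_ph]
    have y0 : (yv 0 0 : Polynomial (R5 k)) = Polynomial.X := rfl
    have y1 : (yv 0 1 : Polynomial (R5 k)) = Polynomial.C (X (Sum.inr 0)) := rfl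
    have y2 : (yv 0 2 : Polynomial (R5 k)) = Polynomial.C (X (Sum.inr 1)) := rfl
    rw [y0, y1, y2]
    simp only [map_add, map_mul, map_sub, map_neg, map_ofNat]
    ring
  · show aeval (Sum.elim ![0, 1, 0] ![0, 1]) (X (Sum.inl 0) : R5 k) = 0
    rw [aeval_X]
    rfl
  · simp

theorem V1KH_1 {k : Type} [Field k] : (pl 1 : R5 k) ∣ (ph 1 (Kh : P6 k)).coeff 0 ∧
    ¬ pl 1 ∣ (ph 1 (Kh : P6 k)).coeff 1 ∧ (ph 1 (Kh : P6 k)).natDegree ≤ 2 := by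
  refine V1KH_of _ _
    (X (Sum.inl 1) * (X (Sum.inr 1) * (X (Sum.inl 2) * X (Sum.inr 0) - X (Sum.inl 0) * X (Sum.inr 1)) -
      X (Sum.inl 1) * X (Sum.inr 0) * X (Sum.inr 1) -
      4 * (X (Sum.inr 0) * (X (Sum.inl 2) * X (Sum.inr 0) - X (Sum.inl 0) * X (Sum.inr 1)))))
    ((X (Sum.inl 2) * X (Sum.inr 0) - X (Sum.inl 0) * X (Sum.inr 1)) * (4 * X (Sum.inl 0) - X (Sum.inl 2)) +
      X (Sum.inl 1) * (X (Sum.inl 0) * X (Sum.inr 1) + X (Sum.inl 2) * X (Sum.inr 0)))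
    (-(X (Sum.inl 0) * X (Sum.inl 2)))
    _ (Sum.elim ![0, 0, 1] ![1, 0]) ?_ rfl ?_ ?_
  · rw [V1KH_ph]
    have y0 : (yv 1 0 : Polynomial (R5 k)) = Polynomial.C (X (Sum.inr 0)) := rfl
    have y1 : (yv 1 1 : Polynomial (R5 k)) = Polynomial.X := rfl
    have y2 : (yv 1 2 : Polynomial (R5 k)) = Polynomial.C (X (Sum.inr 1)) := rfl
    rw [y0, y1, y2]
    simp only [map_add, map_mul, map_sub, map_neg, map_ofNat]
    ring
  · show aeval (Sum.elim ![0, 0, 1] ![1, 0]) (X (Sum.inl 1) : R5 k) = 0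
    rw [aeval_X]
    rfl
  · simp

theorem V1KH_2 {k : Type} [Field k] : (pl 2 : R5 k) ∣ (ph 2 (Kh : P6 k)).coeff 0 ∧
    ¬ pl 2 ∣ (ph 2 (Kh : P6 k)).coeff 1 ∧ (ph 2 (Kh : P6 k)).natDegree ≤ 2 := by
  refine V1KH_of _ _
    (X (Sum.inl 2) * (4 * (X (Sum.inr 0) * (X (Sum.inl 0) * X (Sum.inr 1) - X (Sum.inl 1) * X (Sum.inr 0))) -
      X (Sum.inr 1) * (X (Sum.inl 0) * X (Sum.inr 1) - X (Sum.inl 1) * X (Sum.inr 0)) -
      X (Sum.inl 2) * X (Sum.inr 0) * X (Sum.inr 1)))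
    ((X (Sum.inl 0) * X (Sum.inr 1) - X (Sum.inl 1) * X (Sum.inr 0)) * (X (Sum.inl 1) - 4 * X (Sum.inl 0)) +
      X (Sum.inl 2) * (X (Sum.inl 1) * X (Sum.inr 0) + X (Sum.inl 0) * X (Sum.inr 1)))
    (-(X (Sum.inl 0) * X (Sum.inl 1)))
    _ (Sum.elim ![0, 1, 0] ![1, 0]) ?_ rfl ?_ ?_
  · rw [V1KH_ph]
    have y0 : (yv 2 0 : Polynomial (R5 k)) = Polynomial.C (X (Sum.inr 0)) := rfl
    have y1 : (yv 2 1 : Polynomial (R5 k)) = Polynomial.C (X (Sum.inr 1)) := rfl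
    have y2 : (yv 2 2 : Polynomial (R5 k)) = Polynomial.X := rfl
    rw [y0, y1, y2]
    simp only [map_add, map_mul, map_sub, map_neg, map_ofNat]
    ring
  · show aeval (Sum.elim ![0, 1, 0] ![1, 0]) (X (Sum.inl 2) : R5 k) = 0
    rw [aeval_X]
    rfl
  · simp

theorem V1KH_3 {k : Type} [Field k] : (pl 3 : R5 k) ∣ (ph 3 (Kh : P6 k)).coeff 0 ∧
    ¬ pl 3 ∣ (ph 3 (Kh : P6 k)).coeff 1 ∧ (ph 3 (Kh : P6 k)).natDegree ≤ 2 := by
  refine V1KH_of _ _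
    ((X (Sum.inl 2) + 3 * (X (Sum.inl 1) - X (Sum.inl 0))) *
      ((X (Sum.inl 0) * X (Sum.inr 1) - X (Sum.inl 1) * X (Sum.inr 0)) * (X (Sum.inr 0) - 4 * X (Sum.inr 1)) -
      (X (Sum.inl 2) + 3 * (X (Sum.inl 1) - X (Sum.inl 0))) * X (Sum.inr 0) * X (Sum.inr 1)))
    ((X (Sum.inl 0) * X (Sum.inr 1) - X (Sum.inl 1) * X (Sum.inr 0)) * (4 * X (Sum.inl 1) - X (Sum.inl 0)) +
      (X (Sum.inl 2) + 3 * (X (Sum.inl 1) - X (Sum.inl 0))) *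
        (X (Sum.inl 1) * X (Sum.inr 0) + X (Sum.inl 0) * X (Sum.inr 1)))
    (-(X (Sum.inl 0) * X (Sum.inl 1)))
    _ (Sum.elim ![1, 0, 3] ![0, 1]) ?_ rfl ?_ ?_
  · rw [V1KH_ph]
    have y0 : (yv 3 0 : Polynomial (R5 k)) = Polynomial.C (X (Sum.inr 0)) := rfl
    have y1 : (yv 3 1 : Polynomial (R5 k)) = Polynomial.C (X (Sum.inr 1)) := rfl
    have y2 : (yv 3 2 : Polynomial (R5 k)) =
      Polynomial.X + 3 * Polynomial.C (X (Sum.inr 0)) - 3 * Polynomial.C (X (Sum.inr 1)) := rfl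
    rw [y0, y1, y2]
    simp only [map_add, map_mul, map_sub, map_neg, map_ofNat]
    ring
  · show aeval (Sum.elim ![1, 0, 3] ![0, 1]) (X (Sum.inl 2) + 3 * (X (Sum.inl 1) - X (Sum.inl 0)) : R5 k) = 0
    simp
  · simp

theorem V1KH_4 {k : Type} [Field k] : (pl 4 : R5 k) ∣ (ph 4 (Kh : P6 k)).coeff 0 ∧
    ¬ pl 4 ∣ (ph 4 (Kh : P6 k)).coeff 1 ∧ (ph 4 (Kh : P6 k)).natDegree ≤ 2 := by
  refine V1KH_of _ _
    ((X (Sum.inl 1) + 3 * (X (Sum.inl 2) - X (Sum.inl 0))) *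
      ((X (Sum.inl 2) * X (Sum.inr 0) - X (Sum.inl 0) * X (Sum.inr 1)) * (4 * X (Sum.inr 1) - X (Sum.inr 0)) -
      (X (Sum.inl 1) + 3 * (X (Sum.inl 2) - X (Sum.inl 0))) * X (Sum.inr 0) * X (Sum.inr 1)))
    ((X (Sum.inl 2) * X (Sum.inr 0) - X (Sum.inl 0) * X (Sum.inr 1)) * (X (Sum.inl 0) - 4 * X (Sum.inl 2)) +
      (X (Sum.inl 1) + 3 * (X (Sum.inl 2) - X (Sum.inl 0))) *
        (X (Sum.inl 2) * X (Sum.inr 0) + X (Sum.inl 0) * X (Sum.inr 1)))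
    (-(X (Sum.inl 0) * X (Sum.inl 2)))
    _ (Sum.elim ![1, 3, 0] ![0, 1]) ?_ rfl ?_ ?_
  · rw [V1KH_ph]
    have y0 : (yv 4 0 : Polynomial (R5 k)) = Polynomial.C (X (Sum.inr 0)) := rfl
    have y1 : (yv 4 1 : Polynomial (R5 k)) =
      Polynomial.X + 3 * Polynomial.C (X (Sum.inr 0)) - 3 * Polynomial.C (X (Sum.inr 1)) := rfl
    have y2 : (yv 4 2 : Polynomial (R5 k)) = Polynomial.C (X (Sum.inr 1)) := rfl
    rw [y0, y1, y2]
    simp only [map_add, map_mul, map_sub, map_neg, map_ofNat]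
    ring
  · show aeval (Sum.elim ![1, 3, 0] ![0, 1]) (X (Sum.inl 1) + 3 * (X (Sum.inl 2) - X (Sum.inl 0)) : R5 k) = 0
    simp
  · simp

theorem p_V1KH (h1 : Stmt_V1LIN) : Stmt_V1KH := by
  intro k _ _ i
  have d01 : (Sum.inl 0 : Fin 3 ⊕ Fin 2) ≠ Sum.inl 1 := by decide
  have d02 : (Sum.inl 0 : Fin 3 ⊕ Fin 2) ≠ Sum.inl 2 := by decide
  have d12 : (Sum.inl 1 : Fin 3 ⊕ Fin 2) ≠ Sum.inl 2 := by decide
  fin_cases i
  · exact ⟨X_prime, V1KH_0⟩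
  · exact ⟨X_prime, V1KH_1⟩
  · exact ⟨X_prime, V1KH_2⟩
  · exact ⟨h1 k _ _ _ _ d01 d02 d12, V1KH_3⟩
  · exact ⟨h1 k _ _ _ _ d02 d01 d12.symm, V1KH_4⟩

end Pool.CX.V1
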