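import Pool.Agent.Work.MP_bf99ce_cx.InterfaceV1b

/-! # THEOREM CX, block V1LIN: a linear form is prime -/

set_option autoImplicit false

noncomputable section

open MvPolynomial

namespace Pool.CX.V1

/-- the substitution of `q` for the variable `i2` -/
def V1LIN_sub {k σ : Type} [Field k] (i2 : σ) (q : MvPolynomial σ k) : MvPolynomial σ k →ₐ[k] MvPolynomial σ k :=
  haveI := Classical.decEq σ
  aeval (fun j => if j = i2 then q else X j)

theorem V1LIN_self {k σ : Type} [Field k] (i2 : σ) (q : MvPolynomial σ k) : V1LIN_sub i2 q (X i2) = q := by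
  simp [V1LIN_sub]

theorem V1LIN_ne {k σ : Type} [Field k] (i2 j : σ) (q : MvPolynomial σ k) (h : j ≠ i2) : V1LIN_sub i2 q (X j) = X j := by
  simp [V1LIN_sub, h]

theorem V1LIN_comp {k σ : Type} [Field k] (i0 i1 i2 : σ) (h0 : i0 ≠ i2) (h1 : i1 ≠ i2) (a b : MvPolynomial σ k)
    (ha : a = 3 * (X i1 - X i0)) (hab : a + b = 0) :
    (V1LIN_sub i2 (X i2 + a)).comp (V1LIN_sub i2 (X i2 + b)) = AlgHom.id k (MvPolynomial σ k) := by
  have hb : b = - (3 * (X i1 - X i0)) := by rw [← ha]; linear_combination hab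
  refine MvPolynomial.algHom_ext fun j => ?_
  rw [AlgHom.comp_apply, AlgHom.id_apply]
  by_cases h : j = i2
  · subst h
    rw [V1LIN_self, hb, map_add, map_neg, map_mul, map_sub, V1LIN_self, V1LIN_ne _ _ _ h0, V1LIN_ne _ _ _ h1, ha, map_ofNat]
    ring
  · rw [V1LIN_ne _ _ _ h, V1LIN_ne _ _ _ h]

theorem p_V1LIN : Stmt_V1LIN := by
  intro k _ _ σ i0 i1 i2 _ h02 h12
  set a : MvPolynomial σ k := 3 * (X i1 - X i0) with ha
  have hc1 : (V1LIN_sub i2 (X i2 + a)).comp (V1LIN_sub i2 (X i2 - a)) = AlgHom.id k (MvPolynomial σ k) := by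
    rw [sub_eq_add_neg]
    exact V1LIN_comp i0 i1 i2 h02 h12 a (-a) ha (by ring)
  have hc2 : (V1LIN_sub i2 (X i2 - a)).comp (V1LIN_sub i2 (X i2 + a)) = AlgHom.id k (MvPolynomial σ k) := by
    rw [sub_eq_add_neg]
    exact V1LIN_comp i1 i0 i2 h12 h02 (-a) a (by rw [ha]; ring) (by ring)
  let e : MvPolynomial σ k ≃ₐ[k] MvPolynomial σ k := AlgEquiv.ofAlgHom _ _ hc1 hc2
  have he : e (X i2) = X i2 + a := V1LIN_self i2 _
  rw [← he]
  exact (MulEquiv.prime_iff e).2 MvPolynomial.X_prime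

end Pool.CX.V1
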