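import Pool.Agent.Work.MP_bf99ce_cx.InterfaceV1b

set_option autoImplicit false

noncomputable section

open MvPolynomial

namespace Pool.CX.V1

/-- the substitution `y ↦ 0` -/
def V1M0_z (k : Type) [CommRing k] : P6 k →ₐ[k] P6 k :=
  aeval (Sum.elim (fun j : Fin 3 => (X (Sum.inl j) : P6 k)) fun _ => 0)

theorem V1M0_Xx (k : Type) [CommRing k] (i : Fin 3) : V1M0_z k (Xx i) = Xx i := by
  simp [V1M0_z, Xx]

theorem V1M0_Vv (k : Type) [CommRing k] (i : Fin 3) : V1M0_z k (Vv i) = 0 := by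
  simp [V1M0_z, Vv]

theorem V1M0_UU (k : Type) [CommRing k] (i : Fin 5) : V1M0_z k (UU i) = UU i := by
  have h3 : V1M0_z k 3 = 3 := map_ofNat (V1M0_z k) 3
  fin_cases i <;> simp [UU, V1M0_Xx, h3]

theorem V1M0_YY (k : Type) [CommRing k] (i : Fin 5) : V1M0_z k (YY i) = 0 := by
  fin_cases i <;> simp [YY, V1M0_Vv]

theorem V1M0_fix (k : Type) [Field k] (D : ℕ) (Q : P6 k) (hQ : Bihom D 0 Q) : V1M0_z k Q = Q := by
  have h : (V1M0_z k : P6 k →+* P6 k) Q = (RingHom.id (P6 k)) Q := by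
    refine MvPolynomial.hom_congr_vars ?_ ?_ rfl
    · ext a
      simp
    · intro i hi _
      rcases i with j | j
      · simp [V1M0_z]
      · exfalso
        rw [mem_vars_iff_mem_support] at hi
        obtain ⟨s, hs, hj⟩ := hi
        have h1 := (hQ s hs).2
        rw [Finset.sum_eq_zero_iff] at h1
        rw [Finsupp.mem_support_iff] at hj
        exact hj (h1 j (Finset.mem_univ j))
  exact h

theorem V1M0_dvd (k : Type) [Field k] (i : Fin 5) (w : ℕ) (Q : P6 k) (hQ : Q ∈ I i w) :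
    UU i ^ ((w + 2) / 3) ∣ V1M0_z k Q := by
  have h1 : V1M0_z k Q ∈ (I i w).map (V1M0_z k) := Ideal.mem_map_of_mem _ hQ
  have h2 : (I i w).map (V1M0_z k) ≤ Ideal.span {(UU i ^ ((w + 2) / 3) : P6 k)} := by
    unfold I
    rw [Ideal.map_span, Ideal.span_le]
    rintro _ ⟨_, ⟨j, l, hjl, rfl⟩, rfl⟩
    rw [SetLike.mem_coe, Ideal.mem_span_singleton, map_mul, map_pow, map_pow, V1M0_UU, V1M0_YY]
    rcases Nat.eq_zero_or_pos l with rfl | hl
    · rw [pow_zero, mul_one]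
      exact pow_dvd_pow _ (by omega)
    · rw [zero_pow hl.ne', mul_zero]
      exact dvd_zero _
  exact Ideal.mem_span_singleton.1 (h2 h1)

theorem V1M0_hom (k : Type) [Field k] (i : Fin 5) : (UU i : P6 k).IsHomogeneous 1 := by
  have hX : ∀ j : Fin 3, (Xx j : P6 k).IsHomogeneous 1 := fun j => isHomogeneous_X k _
  have h3 : ∀ p : P6 k, p.IsHomogeneous 1 → ((3 : P6 k) * p).IsHomogeneous 1 := by
    intro p hp
    have h := (isHomogeneous_C (Fin 3 ⊕ Fin 3) (3 : k)).mul hp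
    rw [zero_add, map_ofNat] at h
    exact h
  have hm : ∀ p : P6 k, p.IsHomogeneous 1 → ((-3 : P6 k) * p).IsHomogeneous 1 := by
    intro p hp
    have h := (isHomogeneous_C (Fin 3 ⊕ Fin 3) (-3 : k)).mul hp
    rw [zero_add, map_neg, map_ofNat] at h
    exact h
  fin_cases i
  · exact hX 0
  · exact hX 1
  · exact hX 2
  · exact ((hm _ (hX 0)).add (h3 _ (hX 1))).add (hX 2)
  · exact ((hm _ (hX 0)).add (hX 1)).add (h3 _ (hX 2))

theorem p_V1M0 (h1 : Stmt_V1PRI) : Stmt_V1M0 := by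
  intro k _ _ D w Q hQ0 hQ hI hD
  obtain ⟨hp, hnd⟩ := h1 k
  have hfix := V1M0_fix k D Q hQ
  have hdvd : ∀ i, (UU i : P6 k) ^ ((w i + 2) / 3) ∣ Q := by
    intro i
    have := V1M0_dvd k i (w i) Q (hI i)
    rwa [hfix] at this
  have hrel : Pairwise (Function.onFun IsRelPrime fun i => (UU i : P6 k) ^ ((w i + 2) / 3)) := by
    intro i j hij
    exact ((hp i).irreducible.isRelPrime_iff_not_dvd.2 (hnd i j hij)).pow
  obtain ⟨R, hR⟩ := Fintype.prod_dvd_of_isRelPrime hrel hdvd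
  have hR0 : R ≠ 0 := by
    rintro rfl
    rw [mul_zero] at hR
    exact hQ0 hR
  have hP0 : (∏ i, (UU i : P6 k) ^ ((w i + 2) / 3)) ≠ 0 :=
    Finset.prod_ne_zero_iff.2 fun i _ => pow_ne_zero _ (hp i).ne_zero
  have hPh : (∏ i, (UU i : P6 k) ^ ((w i + 2) / 3)).IsHomogeneous (∑ i, (w i + 2) / 3) := by
    refine IsHomogeneous.prod _ _ _ fun i _ => ?_
    have := (V1M0_hom k i).pow ((w i + 2) / 3)
    rwa [one_mul] at this
  have hQh : Q.IsHomogeneous D := by
    intro s hs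
    have h2 := hQ s (mem_support_iff.2 hs)
    have h3 : Finsupp.weight (1 : Fin 3 ⊕ Fin 3 → ℕ) s = ∑ i, s i := by
      simp [Finsupp.weight_apply, Finsupp.sum_fintype]
    rw [h3, Fintype.sum_sum_type, h2.1, h2.2, add_zero]
  have e1 := hQh.totalDegree hQ0
  have e2 := hPh.totalDegree hP0
  have e3 := totalDegree_mul_of_isDomain hP0 hR0
  rw [← hR, e1, e2] at e3
  rw [Fin.sum_univ_five] at hD e3
  have e4 : R.totalDegree = 0 := by omega
  have e5 := (totalDegree_eq_zero_iff_eq_C).1 e4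
  refine ⟨coeff 0 R, fun i => (w i + 2) / 3, ?_, ?_, ?_, ?_⟩
  · intro h
    rw [h, map_zero] at e5
    exact hR0 e5
  · intro i
    fin_cases i <;> simp <;> omega
  · rw [Fin.sum_univ_five]
    omega
  · rw [← e5, mul_comm]
    exact hR

end Pool.CX.V1
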