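import Pool.Agent.Work.MP_bf99ce_cx.InterfaceV1

/-!
# THEOREM CX, part V1: block V1PDV (pseudo-division)
-/

set_option autoImplicit false

noncomputable section

open MvPolynomial

namespace Pool.CX.V1

/-- the claim of the block for one polynomial `P` in place of `red Q` -/
def V1PDV_Good {k : Type} [CommRing k] (m : ℕ) (P : P6 k) : Prop :=
  ∃ (ρ₁ ρ₀ : MvPolynomial (Fin 3) k) (W : P6 k), Xx 2 ^ m * P =
    Xx 0 * Kh * W + (rename Sum.inl ρ₁ * lam 2 + rename Sum.inl ρ₀ * lam 1) * lam 1 ^ (m - 1)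

theorem V1PDV_zero {k : Type} [CommRing k] (m : ℕ) : V1PDV_Good m (0 : P6 k) :=
  ⟨0, 0, 0, by simp⟩

theorem V1PDV_add {k : Type} [CommRing k] {m : ℕ} {P P' : P6 k} (h : V1PDV_Good m P) (h' : V1PDV_Good m P') :
    V1PDV_Good m (P + P') := by
  obtain ⟨a, b, W, h⟩ := h
  obtain ⟨a', b', W', h'⟩ := h'
  refine ⟨a + a', b + b', W + W', ?_⟩
  rw [mul_add, h, h', map_add, map_add]
  ring

theorem V1PDV_mul {k : Type} [CommRing k] {m : ℕ} {P : P6 k} (c : MvPolynomial (Fin 3) k) (h : V1PDV_Good m P) :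
    V1PDV_Good m (rename Sum.inl c * P) := by
  obtain ⟨a, b, W, h⟩ := h
  refine ⟨c * a, c * b, rename Sum.inl c * W, ?_⟩
  rw [mul_left_comm, h, map_mul, map_mul]
  ring

theorem V1PDV_X {k : Type} [CommRing k] (i : Fin 3) : (rename Sum.inl (X i : MvPolynomial (Fin 3) k) : P6 k) = Xx i := by
  simp [Xx]

theorem V1PDV_pow {k : Type} [CommRing k]
    (hK : (Xx 0 * Kh : P6 k) = - (Xx 1 * lam 1 ^ 2) - Xx 2 * lam 2 ^ 2 + (4 * Xx 0 - Xx 1 - Xx 2) * (lam 1 * lam 2)) (n : ℕ) :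
    ∃ (a b : MvPolynomial (Fin 3) k) (W : P6 k), Xx 2 ^ (n + 1) * lam 2 ^ (n + 1) =
      Xx 0 * Kh * W + (rename Sum.inl a * lam 2 + rename Sum.inl b * lam 1) * lam 1 ^ n := by
  induction n with
  | zero =>
    refine ⟨X 2, 0, 0, ?_⟩
    rw [V1PDV_X, map_zero]
    ring
  | succ n ih =>
    obtain ⟨a, b, W, ih⟩ := ih
    refine ⟨a * (4 * X 0 - X 1 - X 2) + b * X 2, -(a * X 1), Xx 2 * lam 2 * W - rename Sum.inl a * lam 1 ^ n, ?_⟩
    have e1 : (Xx 2 ^ (n + 1 + 1) * lam 2 ^ (n + 1 + 1) : P6 k) = Xx 2 * lam 2 * (Xx 2 ^ (n + 1) * lam 2 ^ (n + 1)) := by ring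
    have h4 : (rename Sum.inl (4 : MvPolynomial (Fin 3) k) : P6 k) = 4 := map_ofNat _ 4
    rw [e1, ih]
    simp only [map_add, map_mul, map_sub, map_neg, V1PDV_X, h4]
    linear_combination ((rename Sum.inl a : P6 k) * lam 1 ^ n) * hK

theorem V1PDV_mon {k : Type} [CommRing k]
    (hK : (Xx 0 * Kh : P6 k) = - (Xx 1 * lam 1 ^ 2) - Xx 2 * lam 2 ^ 2 + (4 * Xx 0 - Xx 1 - Xx 2) * (lam 1 * lam 2))
    (i j m : ℕ) (hm : 1 ≤ m) (hij : i + j = m) : V1PDV_Good m (lam 2 ^ i * (- lam 1) ^ j : P6 k) := by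
  subst hij
  rcases Nat.eq_zero_or_pos i with hi | hi
  · subst hi
    obtain ⟨l, rfl⟩ : ∃ l, j = l + 1 := ⟨j - 1, by omega⟩
    refine ⟨0, (-1) ^ (l + 1) * X 2 ^ (l + 1), 0, ?_⟩
    have e : 0 + (l + 1) - 1 = l := by omega
    rw [e, neg_pow (lam 1 : P6 k)]
    simp only [map_zero, map_mul, map_pow, map_neg, map_one, V1PDV_X]
    ring
  · obtain ⟨l, rfl⟩ : ∃ l, i = l + 1 := ⟨i - 1, by omega⟩
    obtain ⟨a, b, W, h⟩ := V1PDV_pow hK l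
    refine ⟨(-1) ^ j * X 2 ^ j * a, (-1) ^ j * X 2 ^ j * b, (-1) ^ j * Xx 2 ^ j * lam 1 ^ j * W, ?_⟩
    have e : l + 1 + j - 1 = l + j := by omega
    have e1 : (Xx 2 ^ (l + 1 + j) * (lam 2 ^ (l + 1) * (- lam 1) ^ j) : P6 k) =
        (-1) ^ j * Xx 2 ^ j * lam 1 ^ j * (Xx 2 ^ (l + 1) * lam 2 ^ (l + 1)) := by
      rw [neg_pow (lam 1 : P6 k)]
      ring
    rw [e1, h, e]
    simp only [map_mul, map_pow, map_neg, map_one, V1PDV_X]
    ring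

theorem V1PDV_term {k : Type} [CommRing k]
    (hK : (Xx 0 * Kh : P6 k) = - (Xx 1 * lam 1 ^ 2) - Xx 2 * lam 2 ^ 2 + (4 * Xx 0 - Xx 1 - Xx 2) * (lam 1 * lam 2))
    (m : ℕ) (hm : 1 ≤ m) (c : k) (s : Fin 3 ⊕ Fin 3 →₀ ℕ) (hs : (∑ i, s (Sum.inr i)) = m) :
    V1PDV_Good m (algebraMap k (P6 k) c *
      ∏ v, (Sum.elim (fun j => Xx j) ![0, lam 2, - lam 1] : Fin 3 ⊕ Fin 3 → P6 k) v ^ s v) := by
  rw [Fintype.prod_sum_type]
  simp only [Sum.elim_inl, Sum.elim_inr]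
  rw [Fin.prod_univ_three (fun i : Fin 3 => (![0, lam 2, - lam 1] i : P6 k) ^ s (Sum.inr i))]
  rw [Fin.sum_univ_three] at hs
  have e : algebraMap k (P6 k) c * ((∏ i : Fin 3, (Xx i : P6 k) ^ s (Sum.inl i)) *
      ((![0, lam 2, - lam 1] 0 : P6 k) ^ s (Sum.inr 0) * (![0, lam 2, - lam 1] 1 : P6 k) ^ s (Sum.inr 1) *
        (![0, lam 2, - lam 1] 2 : P6 k) ^ s (Sum.inr 2))) =
      rename Sum.inl (C c * ∏ i : Fin 3, (X i : MvPolynomial (Fin 3) k) ^ s (Sum.inl i)) *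
        (0 ^ s (Sum.inr 0) * (lam 2 ^ s (Sum.inr 1) * (- lam 1) ^ s (Sum.inr 2))) := by
    have e1 : (rename Sum.inl (C c * ∏ i : Fin 3, (X i : MvPolynomial (Fin 3) k) ^ s (Sum.inl i)) : P6 k) =
        algebraMap k (P6 k) c * ∏ i : Fin 3, (Xx i : P6 k) ^ s (Sum.inl i) := by
      rw [map_mul, map_prod, rename_C]
      simp only [map_pow, V1PDV_X]
      rfl
    rw [e1]
    simp only [Matrix.cons_val_zero, Matrix.cons_val_one, Matrix.cons_val]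
    ring
  rw [e]
  apply V1PDV_mul
  rcases Nat.eq_zero_or_pos (s (Sum.inr 0)) with h0 | h0
  · rw [h0, pow_zero, one_mul]
    exact V1PDV_mon hK _ _ _ hm (by omega)
  · rw [zero_pow (by omega), zero_mul]
    exact V1PDV_zero m

/-- **V1PDV.** -/
theorem p_V1PDV (h1 : Stmt_V1RED) : Stmt_V1PDV := by
  intro k _ _ D m Q hQ hm
  have hK := (h1 k).2
  change V1PDV_Good m (red Q)
  have e : red Q = ∑ s ∈ Q.support, algebraMap k (P6 k) (Q.coeff s) *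
      ∏ v, (Sum.elim (fun j => Xx j) ![0, lam 2, - lam 1] : Fin 3 ⊕ Fin 3 → P6 k) v ^ s v := by
    rw [red, aeval_def, eval₂_eq']
  rw [e]
  refine Finset.sum_induction _ (V1PDV_Good m) (fun _ _ h h' => V1PDV_add h h') (V1PDV_zero m) ?_
  intro s hs
  exact V1PDV_term hK m hm _ s (hQ s hs).2

end Pool.CX.V1
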