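import Pool.Agent.Work.MP_bf99ce_cx.InterfaceV1b

set_option autoImplicit false

noncomputable section

open MvPolynomial

namespace Pool.CX.V1

/-- the points -/
def V1PRI_pt : Fin 5 → Fin 3 → ℤ := ![![0, -2, 4], ![3, 0, 8], ![-3, -4, 0], ![6, 2, 12], ![-6, -6, -4]]

/-- the values of the linear forms -/
def V1PRI_val (u : Fin 3 → ℤ) : Fin 5 → ℤ :=
  ![u 0, u 1, u 2, -3 * u 0 + 3 * u 1 + u 2, -3 * u 0 + u 1 + 3 * u 2]

theorem V1PRI_ev (k : Type) [Field k] (u : Fin 3 → ℤ) (j : Fin 5) :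
    aeval (Sum.elim (fun l => ((u l : ℤ) : k)) (fun _ => (0 : k))) (UU j : P6 k) = ((V1PRI_val u j : ℤ) : k) := by
  fin_cases j <;> simp [UU, Xx, V1PRI_val]

theorem V1PRI_ne : ∀ i j : Fin 5, i ≠ j → V1PRI_val (V1PRI_pt i) j ≠ 0 := by
  intro i j
  fin_cases i <;> fin_cases j <;> simp [V1PRI_val, V1PRI_pt]

theorem V1PRI_eq : ∀ i : Fin 5, V1PRI_val (V1PRI_pt i) i = 0 := by
  intro i
  fin_cases i <;> simp [V1PRI_val, V1PRI_pt]

theorem p_V1PRI (h1 : Stmt_V1LIN) : Stmt_V1PRI := by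
  intro k _ _
  refine ⟨?_, ?_⟩
  · intro i
    have hX : ∀ j : Fin 3, Prime (Xx j : P6 k) := fun j => MvPolynomial.X_prime
    have h3 := h1 k (Fin 3 ⊕ Fin 3) (Sum.inl 0) (Sum.inl 1) (Sum.inl 2) (by decide) (by decide) (by decide)
    have h4 := h1 k (Fin 3 ⊕ Fin 3) (Sum.inl 0) (Sum.inl 2) (Sum.inl 1) (by decide) (by decide) (by decide)
    have e3 : (UU 3 : P6 k) = X (Sum.inl 2) + 3 * (X (Sum.inl 1) - X (Sum.inl 0)) := by
      show -3 * Xx 0 + 3 * Xx 1 + Xx 2 = _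
      simp only [Xx]; ring
    have e4 : (UU 4 : P6 k) = X (Sum.inl 1) + 3 * (X (Sum.inl 2) - X (Sum.inl 0)) := by
      show -3 * Xx 0 + Xx 1 + 3 * Xx 2 = _
      simp only [Xx]; ring
    fin_cases i
    · exact hX 0
    · exact hX 1
    · exact hX 2
    · show Prime (UU 3 : P6 k)
      rw [e3]; exact h3
    · show Prime (UU 4 : P6 k)
      rw [e4]; exact h4
  · intro i j hij hd
    obtain ⟨q, hq⟩ := hd
    have h := congrArg (aeval (Sum.elim (fun l => ((V1PRI_pt i l : ℤ) : k)) (fun _ => (0 : k)))) hq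
    rw [map_mul, V1PRI_ev, V1PRI_ev, V1PRI_eq, Int.cast_zero, zero_mul, Int.cast_eq_zero] at h
    exact V1PRI_ne i j hij h

end Pool.CX.V1
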