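import Pool.Agent.Work.MP_bf99ce_cx.InterfaceV1

/-!
# THEOREM CX, part V1: block V1PSI (the degree on the curve)
-/

set_option autoImplicit false

noncomputable section

open MvPolynomial

namespace Pool.CX.V1

theorem V1PSI_L {k : Type} [Field k] (i : Fin 5) : (Lc i : Polynomial k).natDegree ≤ 1 := by
  unfold Lc
  compute_degree

theorem V1PSI_N0 {k : Type} [Field k] (c : k) : (Nc c 0 : Polynomial k).natDegree ≤ 3 := by
  change (-4 * Polynomial.C c * Polynomial.X ^ 3 + 10 * Polynomial.X ^ 2 + 10 * Polynomial.C c * Polynomial.X - 16 :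
    Polynomial k).natDegree ≤ 3
  compute_degree

theorem V1PSI_N1 {k : Type} [Field k] (c : k) : (Nc c 1 : Polynomial k).natDegree ≤ 3 := by
  change (-(4 * Polynomial.C c + 1) * Polynomial.X ^ 3 + (8 - 3 * Polynomial.C c) * Polynomial.X ^ 2 +
    (8 * Polynomial.C c + 12) * Polynomial.X + 4 * Polynomial.C c : Polynomial k).natDegree ≤ 3
  compute_degree

theorem V1PSI_N2 {k : Type} [Field k] (c : k) : (Nc c 2 : Polynomial k).natDegree ≤ 3 := by
  change ((1 - 4 * Polynomial.C c) * Polynomial.X ^ 3 + (8 + 3 * Polynomial.C c) * Polynomial.X ^ 2 +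
    (8 * Polynomial.C c - 12) * Polynomial.X - 4 * Polynomial.C c : Polynomial k).natDegree ≤ 3
  compute_degree

theorem V1PSI_U {k : Type} [Field k] (c : k) (j : Fin 3) : (Uc c j : Polynomial k).natDegree ≤ 6 := by
  have h : ∀ (i : Fin 5), (Nc c i : Polynomial k).natDegree ≤ 3 → (Lc i ^ 3 * Nc c i : Polynomial k).natDegree ≤ 6 := by
    intro i hi
    refine Polynomial.natDegree_mul_le.trans ?_
    have h1 : (Lc i ^ 3 : Polynomial k).natDegree ≤ 3 * 1 :=
      Polynomial.natDegree_pow_le.trans (Nat.mul_le_mul_left 3 (V1PSI_L i))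
    omega
  fin_cases j
  · exact h 0 (V1PSI_N0 c)
  · exact h 1 (V1PSI_N1 c)
  · exact h 2 (V1PSI_N2 c)

theorem V1PSI_Y {k : Type} [Field k] (c : k) (j : Fin 3) : (Yc c j : Polynomial k).natDegree ≤ 5 := by
  have h : ∀ (i : Fin 5), (Nc c i : Polynomial k).natDegree ≤ 3 → (Lc i ^ 2 * Nc c i : Polynomial k).natDegree ≤ 5 := by
    intro i hi
    refine Polynomial.natDegree_mul_le.trans ?_
    have h1 : (Lc i ^ 2 : Polynomial k).natDegree ≤ 2 * 1 :=
      Polynomial.natDegree_pow_le.trans (Nat.mul_le_mul_left 2 (V1PSI_L i))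
    omega
  fin_cases j
  · exact h 0 (V1PSI_N0 c)
  · exact h 1 (V1PSI_N1 c)
  · exact h 2 (V1PSI_N2 c)

theorem V1PSI_rel {k : Type} [Field k] (c : k) (j : Fin 3) :
    Polynomial.X * Yc c j = Polynomial.C ((![0, 1, -1] : Fin 3 → k) j) * Yc c j + 1 * Uc c j := by
  fin_cases j
  · change Polynomial.X * (Lc 0 ^ 2 * Nc c 0) = Polynomial.C 0 * (Lc 0 ^ 2 * Nc c 0) + 1 * (Lc 0 ^ 3 * Nc c 0)
    have h : (Lc 0 : Polynomial k) = Polynomial.X - Polynomial.C 0 := rfl
    rw [h]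
    ring
  · change Polynomial.X * (Lc 1 ^ 2 * Nc c 1) = Polynomial.C 1 * (Lc 1 ^ 2 * Nc c 1) + 1 * (Lc 1 ^ 3 * Nc c 1)
    have h : (Lc 1 : Polynomial k) = Polynomial.X - Polynomial.C 1 := rfl
    rw [h]
    ring
  · change Polynomial.X * (Lc 2 ^ 2 * Nc c 2) = Polynomial.C (-1) * (Lc 2 ^ 2 * Nc c 2) + 1 * (Lc 2 ^ 3 * Nc c 2)
    have h : (Lc 2 : Polynomial k) = Polynomial.X - Polynomial.C (-1) := rfl
    rw [h]
    ring

theorem p_V1PSI (h1 : Stmt_V1EUL) (h2 : Stmt_V1DEG) (h3 : Stmt_V1HOM) : Stmt_V1PSI := by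
  intro k _ _ c D m Q hQ hE
  by_cases h0 : cur c Q = 0
  · rw [h0, Polynomial.natDegree_zero]
    exact Nat.zero_le _
  have e1 := h3 k D m Q hQ (Polynomial k) (Uc c) (Yc c) 1 Polynomial.X
  have e2 := h1 k Q hE (Polynomial k) (Uc c) (fun j => Polynomial.C ((![0, 1, -1] : Fin 3 → k) j) * Yc c j) 1
  have e3 : (Sum.elim (fun j => 1 * Uc c j) (fun j => Polynomial.X * Yc c j) : Fin 3 ⊕ Fin 3 → Polynomial k) =
      Sum.elim (Uc c) (fun j => Polynomial.C ((![0, 1, -1] : Fin 3 → k) j) * Yc c j + 1 * Uc c j) := by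
    congr 1
    · funext j
      exact one_mul _
    · funext j
      exact V1PSI_rel c j
  rw [e3, e2, one_pow, one_mul] at e1
  have e4 := h2 k D m Q hQ (Uc c) (fun j => Polynomial.C ((![0, 1, -1] : Fin 3 → k) j) * Yc c j) 6 5
    (V1PSI_U c) (fun j => (Polynomial.natDegree_C_mul_le _ _).trans (V1PSI_Y c j))
  rw [e1] at e4
  change (Polynomial.X ^ m * cur c Q).natDegree ≤ _ at e4
  rw [Polynomial.natDegree_X_pow_mul m h0] at e4
  omega

end Pool.CX.V1
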