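import Pool.Agent.Work.MP_bf99ce_cx.InterfaceV1b
import Pool.Agent.Work.MP_bf99ce_cx.B_BIH
import Pool.Agent.Work.MP_bf99ce_cx.B_QUO

/-! # THEOREM CX, part V1: block V1QUO (the quotient by `Kh`) -/

set_option autoImplicit false

noncomputable section

open MvPolynomial

namespace Pool.CX.V1

theorem V1QUO_bih {k : Type} [CommRing k] : Bihom 2 2 (Kh : P6 k) :=
  BIH_add (BIH_add (BIH_ll 0 1) (BIH_ll 0 2)) (BIH_omul 4 (BIH_ll 1 2))

theorem V1QUO_eul {k : Type} [CommRing k] : eul (Kh : P6 k) = 0 := by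
  simp only [Kh, BIH_eadd, BIH_emul, BIH_elam, BIH_e4]
  ring

theorem V1QUO_ne {k : Type} [Field k] [CharZero k] : (Kh : P6 k) ≠ 0 := by
  intro h
  have h1 := congrArg (eval (Sum.elim (![1, 0, 0] : Fin 3 → k) (![0, 1, -1] : Fin 3 → k))) h
  have e0 : (lam 0 : P6 k) = Xx 1 * Vv 2 - Xx 2 * Vv 1 := rfl
  have e1 : (lam 1 : P6 k) = Xx 2 * Vv 0 - Xx 0 * Vv 2 := rfl
  have e2 : (lam 2 : P6 k) = Xx 0 * Vv 1 - Xx 1 * Vv 0 := rfl
  rw [Kh, e0, e1, e2] at h1
  simp [Xx, Vv] at h1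

theorem p_V1QUO : Stmt_V1QUO := by
  intro k _ _ D m Q hQ0 hd
  have hK0 : (Kh : P6 k) ≠ 0 := V1QUO_ne
  have hF := (QUO_iff 2 2 (Kh : P6 k)).1 V1QUO_bih
  have hPw := (QUO_iff D m (Kh * Q)).1 hd
  have hcomp : ∀ j : ℕ × ℕ, (2, 2) + j ≠ (D, m) → weightedHomogeneousComponent QUO_w j Q = 0 := by
    intro j hj
    have h1 := QUO_comp (Q := Q) hF j
    rw [IsWeightedHomogeneous.weightedHomogeneousComponent_ne _ hPw hj] at h1
    exact (mul_eq_zero.1 h1).resolve_left hK0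
  obtain ⟨s, hs⟩ := MvPolynomial.ne_zero_iff.1 hQ0
  have key : ∀ s : Fin 3 ⊕ Fin 3 →₀ ℕ, coeff s Q ≠ 0 → (2, 2) + Finsupp.weight QUO_w s = (D, m) := by
    intro s hs
    by_contra hcon
    have h1 := hcomp _ hcon
    have h2 := congrArg (coeff s) h1
    rw [coeff_weightedHomogeneousComponent, if_pos rfl, coeff_zero] at h2
    exact hs h2
  have h0 := key s hs
  rw [QUO_weight, Prod.ext_iff] at h0
  simp only [Prod.fst_add, Prod.snd_add] at h0
  refine ⟨by omega, by omega, ?_, ?_⟩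
  · intro t ht
    have h1 := key t (mem_support_iff.1 ht)
    rw [QUO_weight, Prod.ext_iff] at h1
    simp only [Prod.fst_add, Prod.snd_add] at h1
    constructor <;> omega
  · intro he
    rw [BIH_emul, V1QUO_eul, mul_zero, add_zero] at he
    exact (mul_eq_zero.1 he).resolve_left hK0

end Pool.CX.V1
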