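import Pool.Agent.Work.MP_bf99ce_cx.InterfaceV1

/-! # THEOREM CX, block V1RED: reduction -/

set_option autoImplicit false

noncomputable section

open MvPolynomial

namespace Pool.CX.V1

theorem V1RED_lam0 {k : Type} [CommRing k] : (lam 0 : P6 k) = Xx 1 * Vv 2 - Xx 2 * Vv 1 := rfl

theorem V1RED_lam1 {k : Type} [CommRing k] : (lam 1 : P6 k) = Xx 2 * Vv 0 - Xx 0 * Vv 2 := rfl

theorem V1RED_lam2 {k : Type} [CommRing k] : (lam 2 : P6 k) = Xx 0 * Vv 1 - Xx 1 * Vv 0 := rfl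

theorem V1RED_id {k : Type} [CommRing k] (Q : P6 k) :
    aeval (Sum.elim (fun j : Fin 3 => (Xx j : P6 k)) (fun j : Fin 3 => (Vv j : P6 k))) Q = Q := by
  have h : (Sum.elim (fun j : Fin 3 => (Xx j : P6 k)) (fun j : Fin 3 => (Vv j : P6 k))) = X := by
    funext j
    rcases j with j | j <;> rfl
  rw [h, aeval_X_left_apply]

/-- BLOCK V1RED. -/
theorem p_V1RED (h1 : Stmt_V1EUL) (h2 : Stmt_V1HOM) : Stmt_V1RED := by
  intro k _ _
  constructor
  · intro D m Q hQ hE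
    have e1 := h2 k D m Q hQ (P6 k) (fun j => Xx j) (fun j => Vv j) 1 (Xx 0)
    have e2 := h1 k Q hE (P6 k) (fun j => Xx j) (fun j => Xx 0 * Vv j) (-Vv 0)
    rw [V1RED_id, one_pow, one_mul] at e1
    have e3 : (fun j : Fin 3 => (1 : P6 k) * Xx j) = fun j => Xx j := by
      funext j
      rw [one_mul]
    rw [e3] at e1
    have e4 : (fun j : Fin 3 => (Xx 0 * Vv j + -Vv 0 * Xx j : P6 k)) = ![0, lam 2, - lam 1] := by
      funext j
      fin_cases j
      · show (Xx 0 * Vv 0 + -Vv 0 * Xx 0 : P6 k) = 0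
        ring
      · show (Xx 0 * Vv 1 + -Vv 0 * Xx 1 : P6 k) = lam 2
        rw [V1RED_lam2]
        ring
      · show (Xx 0 * Vv 2 + -Vv 0 * Xx 2 : P6 k) = - lam 1
        rw [V1RED_lam1]
        ring
    rw [e4] at e2
    rw [← e1, ← e2]
    rfl
  · rw [Kh, V1RED_lam0, V1RED_lam1, V1RED_lam2]
    ring

end Pool.CX.V1
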