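import Pool.Agent.Work.MP_bf99ce_cx.InterfaceV1

/-! # THEOREM CX, part V1: block V1RHO -/

set_option autoImplicit false

noncomputable section

open MvPolynomial

namespace Pool.CX.V1

/-- The point. -/
def V1RHO_e {k : Type} [CommRing k] (l s t : k) : Fin 3 ⊕ Fin 3 → k :=
  Sum.elim (fun j : Fin 3 => l * ((s - ![0, 1, -1] j) * (t - ![0, 1, -1] j)))
    (fun j => 1 * (s - ![0, 1, -1] j))

/-- The point in the plane. -/
def V1RHO_u {k : Type} [CommRing k] (l s t : k) : Fin 3 → k :=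
  fun j : Fin 3 => l * ((s - ![0, 1, -1] j) * (t - ![0, 1, -1] j))

theorem V1RHO_sym {k : Type} [CommRing k] (l s t : k) : V1RHO_u l s t = V1RHO_u l t s := by
  funext j
  unfold V1RHO_u
  ring

theorem V1RHO_x0 {k : Type} [CommRing k] (l s t : k) :
    eval (V1RHO_e l s t) (Xx 0) = l * (s * t) := by
  simp [V1RHO_e, Xx]

theorem V1RHO_x1 {k : Type} [CommRing k] (l s t : k) :
    eval (V1RHO_e l s t) (Xx 1) = l * ((s - 1) * (t - 1)) := by
  simp [V1RHO_e, Xx]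

theorem V1RHO_x2 {k : Type} [CommRing k] (l s t : k) :
    eval (V1RHO_e l s t) (Xx 2) = l * ((s + 1) * (t + 1)) := by
  simp [V1RHO_e, Xx]

theorem V1RHO_y0 {k : Type} [CommRing k] (l s t : k) :
    eval (V1RHO_e l s t) (Vv 0) = s := by
  simp [V1RHO_e, Vv]

theorem V1RHO_y1 {k : Type} [CommRing k] (l s t : k) :
    eval (V1RHO_e l s t) (Vv 1) = s - 1 := by
  simp [V1RHO_e, Vv]

theorem V1RHO_y2 {k : Type} [CommRing k] (l s t : k) :
    eval (V1RHO_e l s t) (Vv 2) = s + 1 := by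
  simp [V1RHO_e, Vv]

theorem V1RHO_l0 {k : Type} [CommRing k] (l s t : k) :
    eval (V1RHO_e l s t) (lam 0) = -2 * (l * ((s - 1) * (s + 1))) := by
  simp only [lam, show (0 : Fin 3) + 1 = 1 from rfl, show (0 : Fin 3) + 2 = 2 from rfl, map_sub,
    map_mul, V1RHO_x1, V1RHO_x2, V1RHO_y1, V1RHO_y2]
  ring

theorem V1RHO_l1 {k : Type} [CommRing k] (l s t : k) :
    eval (V1RHO_e l s t) (lam 1) = l * s * (s + 1) := by
  simp only [lam, show (1 : Fin 3) + 1 = 2 from rfl, show (1 : Fin 3) + 2 = 0 from rfl, map_sub,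
    map_mul, V1RHO_x0, V1RHO_x2, V1RHO_y0, V1RHO_y2]
  ring

theorem V1RHO_l2 {k : Type} [CommRing k] (l s t : k) :
    eval (V1RHO_e l s t) (lam 2) = l * s * (s - 1) := by
  simp only [lam, show (2 : Fin 3) + 1 = 0 from rfl, show (2 : Fin 3) + 2 = 1 from rfl, map_sub,
    map_mul, V1RHO_x0, V1RHO_x1, V1RHO_y0, V1RHO_y1]
  ring

theorem V1RHO_K {k : Type} [CommRing k] (l s t : k) :
    eval (V1RHO_e l s t) (Kh : P6 k) = 0 := by
  simp only [Kh, map_add, map_mul, V1RHO_l0, V1RHO_l1, V1RHO_l2, map_ofNat]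
  ring

theorem V1RHO_ren {k : Type} [CommRing k] (l s t : k) (ρ : MvPolynomial (Fin 3) k) :
    eval (V1RHO_e l s t) (rename Sum.inl ρ : P6 k) = eval (V1RHO_u l s t) ρ := by
  rw [eval_rename]
  rfl

/-- The condition at a point. -/
theorem V1RHO_one (hHOM : Stmt_V1HOM) (hRED : Stmt_V1RED) {k : Type} [Field k] [CharZero k]
    (D m : ℕ) (Q : P6 k) (hB : Bihom D m Q) (he : eul Q = 0)
    (h0 : ∀ s t : k, eval (Sum.elim (fun j : Fin 3 => (s - ![0, 1, -1] j) * (t - ![0, 1, -1] j))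
      (fun j => s - ![0, 1, -1] j)) Q = 0)
    (ρ₁ ρ₀ : MvPolynomial (Fin 3) k) (W : P6 k)
    (hW : Xx 2 ^ m * red Q = Xx 0 * Kh * W +
      (rename Sum.inl ρ₁ * lam 2 + rename Sum.inl ρ₀ * lam 1) * lam 1 ^ (m - 1))
    (l s t : k) (hl : l ≠ 0) (hs : s ≠ 0) (hs1 : s + 1 ≠ 0) :
    eval (V1RHO_u l s t) ρ₁ * (s - 1) + eval (V1RHO_u l s t) ρ₀ * (s + 1) = 0 := by
  have hQ : eval (V1RHO_e l s t) Q = 0 := by
    have h1 := hHOM k D m Q hB k (fun j : Fin 3 => (s - ![0, 1, -1] j) * (t - ![0, 1, -1] j))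
      (fun j => s - ![0, 1, -1] j) l 1
    have h2 : aeval (Sum.elim (fun j : Fin 3 => (s - ![0, 1, -1] j) * (t - ![0, 1, -1] j))
      (fun j => s - ![0, 1, -1] j)) Q = (0 : k) := h0 s t
    rw [h2, mul_zero] at h1
    exact h1
  rw [← (hRED k).1 D m Q hB he] at hW
  have h3 := congrArg (eval (V1RHO_e l s t)) hW
  simp only [map_mul, map_add, map_pow, hQ, V1RHO_K, V1RHO_ren, V1RHO_l1, V1RHO_l2, mul_zero,
    zero_mul, zero_add] at h3
  have h4 : (l * s * (s + 1)) ^ (m - 1) ≠ 0 :=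
    pow_ne_zero _ (mul_ne_zero (mul_ne_zero hl hs) hs1)
  have h5 : eval (V1RHO_u l s t) ρ₁ * (l * s * (s - 1)) +
      eval (V1RHO_u l s t) ρ₀ * (l * s * (s + 1)) = 0 := by
    rcases mul_eq_zero.mp h3.symm with h | h
    · exact h
    · exact absurd h h4
  have h6 : (l * s) * (eval (V1RHO_u l s t) ρ₁ * (s - 1) +
      eval (V1RHO_u l s t) ρ₀ * (s + 1)) = 0 := by
    linear_combination h5
  rcases mul_eq_zero.mp h6 with h | h
  · exact absurd h (mul_ne_zero hl hs)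
  · exact h

/-- The polynomial which describes the excluded points. -/
def V1RHO_g (k : Type) [CommRing k] : MvPolynomial (Fin 3) k :=
  X 0 * X 2 * (X 1 + X 2 - 2 * X 0) * ((X 2 - X 1) ^ 2 - 8 * (X 1 + X 2 - 2 * X 0) * X 0)

theorem V1RHO_g_ne (k : Type) [Field k] [CharZero k] : V1RHO_g k ≠ 0 := by
  intro h
  have h1 := congrArg (eval (![1, 0, 1] : Fin 3 → k)) h
  simp [V1RHO_g] at h1
  norm_num at h1

theorem V1RHO_par {k : Type} [Field k] [CharZero k] [IsAlgClosed k] (u : Fin 3 → k)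
    (hu : eval u (V1RHO_g k) ≠ 0) : ∃ l s t : k, l ≠ 0 ∧ s ≠ 0 ∧ t ≠ 0 ∧ s + 1 ≠ 0 ∧ t + 1 ≠ 0 ∧
      s ≠ t ∧ V1RHO_u l s t = u := by
  have h2 : (2 : k) ≠ 0 := two_ne_zero
  simp only [V1RHO_g, map_mul, map_add, map_sub, map_pow, eval_X, map_ofNat] at hu
  obtain ⟨⟨⟨⟨h0, hu2⟩, hl⟩, hd⟩⟩ : (((u 0 ≠ 0 ∧ u 2 ≠ 0) ∧ u 1 + u 2 - 2 * u 0 ≠ 0) ∧
      (u 2 - u 1) ^ 2 - 8 * (u 1 + u 2 - 2 * u 0) * u 0 ≠ 0) ∧ True := by
    refine ⟨⟨⟨⟨?_, ?_⟩, ?_⟩, ?_⟩, trivial⟩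
    · intro h; apply hu; rw [h]; ring
    · intro h; apply hu; rw [h]; ring
    · intro h; apply hu; rw [h]; ring
    · intro h; apply hu; rw [h]; ring
  obtain ⟨r, hr⟩ := IsAlgClosed.exists_eq_mul_self
    ((u 2 - u 1) ^ 2 - 8 * (u 1 + u 2 - 2 * u 0) * u 0)
  -- l = L / 2, s = (b + r) / (2 L), t = (b - r) / (2 L) with b = u 2 - u 1
  have hL : u 1 + u 2 - 2 * u 0 ≠ 0 := hl
  obtain ⟨L, hLdef⟩ : ∃ L, L = u 1 + u 2 - 2 * u 0 := ⟨_, rfl⟩
  rw [← hLdef] at hr hL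
  have hr0 : r ≠ 0 := by
    rintro rfl
    apply hd
    rw [← hLdef, hr]
    ring
  have hs : L * ((u 2 - u 1 + r) / (2 * L)) = (u 2 - u 1 + r) / 2 := by field_simp
  have ht : L * ((u 2 - u 1 - r) / (2 * L)) = (u 2 - u 1 - r) / 2 := by field_simp
  obtain ⟨s, hsdef⟩ : ∃ s, s = (u 2 - u 1 + r) / (2 * L) := ⟨_, rfl⟩
  obtain ⟨t, htdef⟩ : ∃ t, t = (u 2 - u 1 - r) / (2 * L) := ⟨_, rfl⟩
  rw [← hsdef] at hs
  rw [← htdef] at ht
  have hst : L * (L * (s * t)) = L * (2 * u 0) := by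
    have h5 : L * (L * (s * t)) = (L * s) * (L * t) := by ring
    rw [h5, hs, ht]
    linear_combination (1 / 4) * hr
  have hst' : L * (s * t) = 2 * u 0 := mul_left_cancel₀ hL hst
  have hsum : L * (s + t) = u 2 - u 1 := by
    rw [mul_add, hs, ht]
    ring
  have e0 : L / 2 * (s * t) = u 0 := by linear_combination hst' / 2
  have e1 : L / 2 * ((s - 1) * (t - 1)) = u 1 := by
    linear_combination hst' / 2 - hsum / 2 + hLdef / 2
  have e2 : L / 2 * ((s + 1) * (t + 1)) = u 2 := by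
    linear_combination hst' / 2 + hsum / 2 + hLdef / 2
  refine ⟨L / 2, s, t, div_ne_zero hL h2, ?_, ?_, ?_, ?_, ?_, ?_⟩
  · rintro rfl; apply h0; rw [← e0]; ring
  · rintro rfl; apply h0; rw [← e0]; ring
  · intro h; apply hu2; rw [← e2, h]; ring
  · intro h; apply hu2; rw [← e2, h]; ring
  · intro h
    rw [h] at hs
    rw [hs] at ht
    apply hr0
    linear_combination ht
  · funext j
    fin_cases j
    · simp [V1RHO_u, e0]
    · simpa [V1RHO_u] using e1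
    · simpa [V1RHO_u] using e2

theorem p_V1RHO (hHOM : Stmt_V1HOM) (hRED : Stmt_V1RED) : Stmt_V1RHO := by
  intro k _ _ _ D m Q hB he hm h0 ρ₁ ρ₀ W hW
  have key : ∀ u : Fin 3 → k, eval u (V1RHO_g k) ≠ 0 → eval u ρ₁ = 0 ∧ eval u ρ₀ = 0 := by
    intro u hu
    obtain ⟨l, s, t, hl, hs, ht, hs1, ht1, hst, rfl⟩ := V1RHO_par u hu
    have h1 := V1RHO_one hHOM hRED D m Q hB he h0 ρ₁ ρ₀ W hW l s t hl hs hs1
    have h2 := V1RHO_one hHOM hRED D m Q hB he h0 ρ₁ ρ₀ W hW l t s hl ht ht1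
    rw [← V1RHO_sym l s t] at h2
    have hd : (2 : k) * (s - t) ≠ 0 := mul_ne_zero two_ne_zero (sub_ne_zero.mpr hst)
    constructor
    · have h3 : (2 * (s - t)) * eval (V1RHO_u l s t) ρ₁ = 0 := by
        linear_combination (t + 1) * h1 - (s + 1) * h2
      exact (mul_eq_zero.mp h3).resolve_left hd
    · have h3 : (2 * (s - t)) * eval (V1RHO_u l s t) ρ₀ = 0 := by
        linear_combination (s - 1) * h2 - (t - 1) * h1
      exact (mul_eq_zero.mp h3).resolve_left hd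
  have fin : ∀ ρ : MvPolynomial (Fin 3) k,
      (∀ u : Fin 3 → k, eval u (V1RHO_g k) ≠ 0 → eval u ρ = 0) → ρ = 0 := by
    intro ρ hρ
    have h1 : V1RHO_g k * ρ = 0 := by
      apply MvPolynomial.funext
      intro u
      rw [map_mul, map_zero]
      by_cases hu : eval u (V1RHO_g k) = 0
      · rw [hu, zero_mul]
      · rw [hρ u hu, mul_zero]
    exact (mul_eq_zero.mp h1).resolve_left (V1RHO_g_ne k)
  exact ⟨fin ρ₁ (fun u hu => (key u hu).1), fin ρ₀ (fun u hu => (key u hu).2)⟩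

end Pool.CX.V1
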