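import Pool.Agent.Work.MP_bf99ce_cx.InterfaceV1b

/-! # THEOREM CX, part V1, block V1STP: one step -/

set_option autoImplicit false

noncomputable section

open MvPolynomial

namespace Pool.CX.V1

theorem p_V1STP (h1 : Stmt_V1CN2) (h2 : Stmt_V1SWP) (h3 : Stmt_V1KDV) : Stmt_V1STP := by
  intro k _ _ D m w Q hm hQ he hI hD
  exact h3 k D m Q hQ he hm (h2 k D m Q hQ (fun c hc => h1 k c hc D m w Q hm hQ he hI hD))

end Pool.CX.V1
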