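import Pool.Agent.Work.MP_bf99ce_cx.InterfaceV1

/-!
# Block V1SWP: the curves sweep the plane (helper74)
-/

set_option autoImplicit false

noncomputable section

open MvPolynomial

namespace Pool.CX.V1

theorem V1SWP_ev {k : Type} [Field k] (f : Fin 3 ⊕ Fin 3 → Polynomial k) (t : k) (Q : P6 k) :
    (aeval f Q).eval t = eval (fun i => (f i).eval t) Q := by
  induction Q using MvPolynomial.induction_on with
  | C a => simp
  | add p q hp hq => simp [hp, hq]
  | mul_X p i hp => simp [hp]

theorem V1SWP_elim {k : Type} [Field k] (p q : Fin 3 → Polynomial k) (t : k) :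
    (fun i => (Sum.elim p q i : Polynomial k).eval t) =
      Sum.elim (fun j => (p j).eval t) (fun j => (q j).eval t) := by
  funext i
  cases i <;> rfl

theorem V1SWP_inj {k : Type} [Field k] (t : k) (h : t * (t ^ 2 - 1) * (t ^ 2 - 4) ≠ 0)
    [CharZero k] (c c' : k) (hc : (Sc c).eval t * (Mc c').eval t = (Sc c').eval t * (Mc c).eval t) :
    c = c' := by
  simp only [Sc, Mc, Polynomial.eval_add, Polynomial.eval_sub, Polynomial.eval_mul,
    Polynomial.eval_pow, Polynomial.eval_X, Polynomial.eval_C, Polynomial.eval_ofNat] at hc
  have h2 : (c - c') * (4 * (t * (t ^ 2 - 1) * (t ^ 2 - 4)) ^ 2) = 0 := by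
    linear_combination -hc
  have h4 : (4 : k) ≠ 0 := by norm_num
  rcases mul_eq_zero.1 h2 with h3 | h3
  · exact sub_eq_zero.1 h3
  · exact absurd h3 (mul_ne_zero h4 (pow_ne_zero 2 h))

theorem V1SWP_good (k : Type) [Field k] [CharZero k] : {c : k | ¬ Good c}.Finite := by
  have h : {c : k | ¬ Good c} ⊆ {0, 1, -1, 2, -2, -(1 / 4), 1 / 4, -(1 / 2), 1 / 2} := by
    intro c hc
    by_contra hn
    apply hc
    simp only [Set.mem_insert_iff, Set.mem_singleton_iff, not_or] at hn
    obtain ⟨h0, h1, h2, h3, h4, h5, h6, h7, h8⟩ := hn
    refine ⟨h0, h1, h2, h3, h4, ?_, ?_, ?_, ?_⟩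
    · intro h
      apply h5
      linear_combination h / 4
    · intro h
      apply h6
      linear_combination h / 4
    · intro h
      apply h7
      linear_combination h / 2
    · intro h
      apply h8
      linear_combination h / 2
  exact (Set.toFinite _).subset h

theorem V1SWP_ae {k : Type} [Field k] (f : Fin 3 ⊕ Fin 3 → k) (P : P6 k) :
    aeval f P = eval f P := by
  induction P using MvPolynomial.induction_on with
  | C a => simp
  | add p q hp hq => simp
  | mul_X p n hp => simp

theorem p_V1SWP (h1 : Stmt_V1CUR) (h2 : Stmt_V1HOM) : Stmt_V1SWP := by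
  intro k _ _ D m Q hQ hcur
  -- first part: t different from the five parameters
  have step : ∀ t : k, t * (t ^ 2 - 1) * (t ^ 2 - 4) ≠ 0 → ∀ s : k,
      eval (Sum.elim (fun j : Fin 3 => (s - ![0, 1, -1] j) * (t - ![0, 1, -1] j))
        (fun j => s - ![0, 1, -1] j)) Q = 0 := by
    intro t ht s
    let F : Polynomial k := aeval (Sum.elim
      (fun j : Fin 3 => (Polynomial.X - Polynomial.C (![0, 1, -1] j)) *
        Polynomial.C (t - ![0, 1, -1] j))
      (fun j => Polynomial.X - Polynomial.C (![0, 1, -1] j))) Q
    have hF : ∀ s : k, F.eval s =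
        eval (Sum.elim (fun j : Fin 3 => (s - ![0, 1, -1] j) * (t - ![0, 1, -1] j))
          (fun j => s - ![0, 1, -1] j)) Q := by
      intro s
      change (aeval _ Q : Polynomial k).eval s = _
      rw [V1SWP_ev, V1SWP_elim]
      simp only [Polynomial.eval_mul, Polynomial.eval_sub, Polynomial.eval_X, Polynomial.eval_C]
    have hroot : ∀ c : k, Good c → (Mc c).eval t ≠ 0 →
        F.eval ((Sc c).eval t / (Mc c).eval t) = 0 := by
      intro c hc hM
      obtain ⟨-, g2, -⟩ := h1 k c
      have e0 : (cur c Q).eval t = 0 := by rw [hcur c hc, Polynomial.eval_zero]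
      have hS : ∀ i : Fin 5, (Sc c).eval t - tt k i * (Mc c).eval t =
          (t - tt k i) ^ 2 * (Nc c i).eval t := by
        intro i
        have := congrArg (Polynomial.eval t) (g2 i)
        simpa [Lc] using this
      have e1 : (cur c Q).eval t = (Mc c).eval t ^ D * (Mc c).eval t ^ m *
          F.eval ((Sc c).eval t / (Mc c).eval t) := by
        rw [hF, cur, V1SWP_ev, V1SWP_elim]
        have e2 := h2 k D m Q hQ k
          (fun j : Fin 3 => ((Sc c).eval t / (Mc c).eval t - ![0, 1, -1] j) *
            (t - ![0, 1, -1] j))
          (fun j => (Sc c).eval t / (Mc c).eval t - ![0, 1, -1] j)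
          ((Mc c).eval t) ((Mc c).eval t)
        rw [V1SWP_ae, V1SWP_ae] at e2
        rw [← e2]
        congr 2
        funext i
        have key : ∀ a : k, (Mc c).eval t * ((Sc c).eval t / (Mc c).eval t - a) =
            (Sc c).eval t - a * (Mc c).eval t := by
          intro a
          field_simp
        rcases i with j | j
        · change (Uc c j).eval t = (Mc c).eval t *
            (((Sc c).eval t / (Mc c).eval t - ![0, 1, -1] j) * (t - ![0, 1, -1] j))
          rw [← mul_assoc, key]
          fin_cases j
          · have := hS 0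
            simp only [tt, Matrix.cons_val] at this
            simp only [Uc, Lc, tt, Fin.zero_eta, Matrix.cons_val, Polynomial.eval_mul,
              Polynomial.eval_pow, Polynomial.eval_sub, Polynomial.eval_X, Polynomial.eval_C]
            rw [this]
            ring
          · have := hS 1
            simp only [tt, Matrix.cons_val] at this
            simp only [Uc, Lc, tt, Fin.mk_one, Matrix.cons_val, Polynomial.eval_mul,
              Polynomial.eval_pow, Polynomial.eval_sub, Polynomial.eval_X, Polynomial.eval_C]
            rw [this]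
            ring
          · have := hS 2
            simp only [tt, Matrix.cons_val] at this
            simp only [Uc, Lc, tt, Fin.reduceFinMk, Matrix.cons_val, Polynomial.eval_mul,
              Polynomial.eval_pow, Polynomial.eval_sub, Polynomial.eval_X, Polynomial.eval_C]
            rw [this]
            ring
        · change (Yc c j).eval t = (Mc c).eval t *
            ((Sc c).eval t / (Mc c).eval t - ![0, 1, -1] j)
          rw [key]
          fin_cases j
          · have := hS 0
            simp only [tt, Matrix.cons_val] at this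
            simp only [Yc, Lc, tt, Fin.zero_eta, Matrix.cons_val, Polynomial.eval_mul,
              Polynomial.eval_pow, Polynomial.eval_sub, Polynomial.eval_X, Polynomial.eval_C]
            rw [this]
          · have := hS 1
            simp only [tt, Matrix.cons_val] at this
            simp only [Yc, Lc, tt, Fin.mk_one, Matrix.cons_val, Polynomial.eval_mul,
              Polynomial.eval_pow, Polynomial.eval_sub, Polynomial.eval_X, Polynomial.eval_C]
            rw [this]
          · have := hS 2
            simp only [tt, Matrix.cons_val] at this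
            simp only [Yc, Lc, tt, Fin.reduceFinMk, Matrix.cons_val, Polynomial.eval_mul,
              Polynomial.eval_pow, Polynomial.eval_sub, Polynomial.eval_X, Polynomial.eval_C]
            rw [this]
      rw [e0] at e1
      rcases mul_eq_zero.1 e1.symm with h | h
      · rcases mul_eq_zero.1 h with h | h
        · exact absurd h (pow_ne_zero _ hM)
        · exact absurd h (pow_ne_zero _ hM)
      · exact h
    -- infinitely many roots
    have hMfin : {c : k | (Mc c).eval t = 0}.Finite := by
      apply Set.Subsingleton.finite
      intro c hc c' hc'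
      have a1 : (Mc c).eval t = 0 := hc
      have a2 : (Mc c').eval t = 0 := hc'
      exact V1SWP_inj t ht c c' (by rw [a1, a2, mul_zero, mul_zero])
    have hinf : ({c : k | ¬ Good c} ∪ {c : k | (Mc c).eval t = 0})ᶜ.Infinite :=
      ((V1SWP_good k).union hMfin).infinite_compl
    have hinj : Set.InjOn (fun c : k => (Sc c).eval t / (Mc c).eval t)
        ({c : k | ¬ Good c} ∪ {c : k | (Mc c).eval t = 0})ᶜ := by
      intro c hc c' hc' h
      have b1 : (Mc c).eval t ≠ 0 := fun h => hc (Or.inr h)
      have b2 : (Mc c').eval t ≠ 0 := fun h => hc' (Or.inr h)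
      have h' : (Sc c).eval t / (Mc c).eval t = (Sc c').eval t / (Mc c').eval t := h
      rw [div_eq_div_iff b1 b2] at h'
      exact V1SWP_inj t ht c c' h'
    have hF0 : F = 0 := by
      apply Polynomial.eq_zero_of_infinite_isRoot
      refine (hinf.image hinj).mono ?_
      rintro _ ⟨c, hc, rfl⟩
      have b1 : (Mc c).eval t ≠ 0 := fun h => hc (Or.inr h)
      have b2 : Good c := by
        by_contra h
        exact hc (Or.inl h)
      exact hroot c b2 b1
    rw [← hF, hF0, Polynomial.eval_zero]
  intro s t
  let F : Polynomial k := aeval (Sum.elim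
    (fun j : Fin 3 => Polynomial.C (s - ![0, 1, -1] j) *
      (Polynomial.X - Polynomial.C (![0, 1, -1] j)))
    (fun j => Polynomial.C (s - ![0, 1, -1] j))) Q
  have hF : ∀ t : k, F.eval t =
      eval (Sum.elim (fun j : Fin 3 => (s - ![0, 1, -1] j) * (t - ![0, 1, -1] j))
        (fun j => s - ![0, 1, -1] j)) Q := by
    intro t
    change (aeval _ Q : Polynomial k).eval t = _
    rw [V1SWP_ev, V1SWP_elim]
    simp only [Polynomial.eval_mul, Polynomial.eval_sub, Polynomial.eval_X, Polynomial.eval_C]
  have hfin : {t : k | t * (t ^ 2 - 1) * (t ^ 2 - 4) = 0}.Finite := by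
    have hsub : {t : k | t * (t ^ 2 - 1) * (t ^ 2 - 4) = 0} ⊆ {0, 1, -1, 2, -2} := by
      intro x hx
      have hx' : x * ((x - 1) * (x + 1)) * ((x - 2) * (x + 2)) = 0 := by
        have : x * (x ^ 2 - 1) * (x ^ 2 - 4) = 0 := hx
        linear_combination this
      simp only [mul_eq_zero, sub_eq_zero] at hx'
      simp only [Set.mem_insert_iff, Set.mem_singleton_iff]
      rcases hx' with (h | h | h) | h | h
      · exact Or.inl h
      · exact Or.inr (Or.inl h)
      · exact Or.inr (Or.inr (Or.inl (eq_neg_of_add_eq_zero_left h)))
      · exact Or.inr (Or.inr (Or.inr (Or.inl h)))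
      · exact Or.inr (Or.inr (Or.inr (Or.inr (eq_neg_of_add_eq_zero_left h))))
    exact (Set.toFinite _).subset hsub
  have hF0 : F = 0 := by
    apply Polynomial.eq_zero_of_infinite_isRoot
    refine hfin.infinite_compl.mono ?_
    intro x hx
    have hx' : x * (x ^ 2 - 1) * (x ^ 2 - 4) ≠ 0 := hx
    change F.eval x = 0
    rw [hF]
    exact step x hx' s
  rw [← hF, hF0, Polynomial.eval_zero]

end Pool.CX.V1
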