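import Pool.Agent.Work.MP_bf99ce_cx.InterfaceV1b

set_option autoImplicit false

noncomputable section

open MvPolynomial

namespace Pool.CX.V1

/-- The polynomials with the weight condition form an ideal. -/
def V1WX_ideal {A : Type} [CommRing A] (p : A) (w : ℕ) : Ideal (Polynomial A) where
  carrier := {Q | WX p w Q}
  add_mem' := by
    intro Q R hQ hR l
    rw [Polynomial.coeff_add]
    exact dvd_add (hQ l) (hR l)
  zero_mem' := by
    intro l
    rw [Polynomial.coeff_zero]
    exact dvd_zero _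
  smul_mem' := by
    intro R Q hQ l
    rw [smul_eq_mul, Polynomial.coeff_mul]
    refine Finset.dvd_sum fun x hx => ?_
    have h1 : x.1 + x.2 = l := Finset.HasAntidiagonal.mem_antidiagonal.1 hx
    exact dvd_mul_of_dvd_right ((pow_dvd_pow p (by omega)).trans (hQ x.2)) _

theorem V1WX_mem {k : Type} [Field k] (i : Fin 5) (w : ℕ) (Q : Polynomial (R5 k))
    (hinc : inc i (pl i : R5 k) = UU i) (hQ : WX (pl i) w Q) : bk i Q ∈ I i w := by
  have h1 : bk i Q = ∑ l ∈ Q.support,
      (inc i : R5 k →ₐ[k] P6 k) (Q.coeff l) * YY i ^ l := by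
    simp only [bk, Polynomial.coe_eval₂RingHom, Polynomial.eval₂_eq_sum, Polynomial.sum_def]
    rfl
  rw [h1]
  refine Ideal.sum_mem _ (fun l _ => ?_)
  obtain ⟨r, hr⟩ := hQ l
  rw [hr, map_mul, map_pow, hinc]
  have h2 : (UU i : P6 k) ^ ((w - 2 * l + 2) / 3) * (inc i : R5 k →ₐ[k] P6 k) r *
      YY i ^ l = (inc i : R5 k →ₐ[k] P6 k) r *
        (UU i ^ ((w - 2 * l + 2) / 3) * YY i ^ l) := by ring
  rw [h2]
  apply Ideal.mul_mem_left
  apply Ideal.subset_span
  exact ⟨(w - 2 * l + 2) / 3, l, by omega, rfl⟩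

theorem p_V1WX (h1 : Stmt_V1ISO) : Stmt_V1WX := by
  intro k _ _ i w Q
  obtain ⟨hU, hY, hinc, hbk⟩ := h1 k i
  constructor
  · intro hQ
    have key : I i w ≤ (V1WX_ideal (pl i : R5 k) w).comap (ph i).toRingHom := by
      rw [I, Ideal.span_le]
      rintro q ⟨j, l, hjl, rfl⟩
      show WX (pl i : R5 k) w (ph i (UU i ^ j * YY i ^ l))
      rw [map_mul, map_pow, map_pow, hU, hY, ← Polynomial.C_pow]
      intro n
      rw [Polynomial.coeff_C_mul, Polynomial.coeff_X_pow]
      split_ifs with h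
      · rw [mul_one]
        exact pow_dvd_pow _ (by omega)
      · rw [mul_zero]
        exact dvd_zero _
    exact key hQ
  · intro hW
    rw [← hbk Q]
    exact V1WX_mem i w _ hinc hW

end Pool.CX.V1
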