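import Pool.Agent.Work.MP_bf99ce_cx.DefsV1

set_option autoImplicit false

noncomputable section

open MvPolynomial

namespace Pool.CX.V1

/-- a direction `c` with `U_i(c) = 1` -/
def V1c_c (k : Type) [CommRing k] : Fin 5 → Fin 3 → k := ![![1, 0, 0], ![0, 1, 0], ![0, 0, 1], ![0, 0, 1], ![0, 1, 0]]

/-- the grading -/
def V1c_tau {k : Type} [CommRing k] (i : Fin 5) : P6 k →ₐ[k] Polynomial (P6 k) :=
  aeval (Sum.elim
    (fun j : Fin 3 => Polynomial.C (Xx j) + (Polynomial.X ^ 3 - 1) * Polynomial.C (UU i * C (V1c_c k i j)))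
    (fun j : Fin 3 => Polynomial.C (Vv j) + (Polynomial.X ^ 2 - 1) * Polynomial.C (YY i * C (V1c_c k i j))))

theorem V1c_tau_Xx {k : Type} [CommRing k] (i : Fin 5) (j : Fin 3) : V1c_tau i (Xx j : P6 k) =
    Polynomial.C (Xx j) + (Polynomial.X ^ 3 - 1) * Polynomial.C (UU i * C (V1c_c k i j)) := by
  simp [V1c_tau, Xx]

theorem V1c_tau_Vv {k : Type} [CommRing k] (i : Fin 5) (j : Fin 3) : V1c_tau i (Vv j : P6 k) =
    Polynomial.C (Vv j) + (Polynomial.X ^ 2 - 1) * Polynomial.C (YY i * C (V1c_c k i j)) := by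
  simp [V1c_tau, Vv]

theorem V1c_tau_UU {k : Type} [CommRing k] (i : Fin 5) :
    V1c_tau i (UU i : P6 k) = Polynomial.X ^ 3 * Polynomial.C (UU i) := by
  fin_cases i <;>
    simp only [UU, Fin.zero_eta, Fin.mk_one, Fin.reduceFinMk, Matrix.cons_val, map_add, map_mul, map_neg, map_ofNat, V1c_tau_Xx] <;>
    simp only [UU, V1c_c, Matrix.cons_val, map_zero, map_one, map_add, map_mul, map_neg, map_ofNat] <;> ring

theorem V1c_tau_YY {k : Type} [CommRing k] (i : Fin 5) :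
    V1c_tau i (YY i : P6 k) = Polynomial.X ^ 2 * Polynomial.C (YY i) := by
  fin_cases i <;>
    simp only [YY, Fin.zero_eta, Fin.mk_one, Fin.reduceFinMk, Matrix.cons_val, map_add, map_mul, map_neg, map_ofNat, V1c_tau_Vv] <;>
    simp only [YY, V1c_c, Matrix.cons_val, map_zero, map_one, map_add, map_mul, map_neg, map_ofNat] <;> ring

theorem V1c_anti {k : Type} [CommRing k] (i : Fin 5) {w w' : ℕ} (h : w ≤ w') : (I i w' : Ideal (P6 k)) ≤ I i w := by
  apply Ideal.span_mono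
  rintro q ⟨j, l, hjl, rfl⟩
  exact ⟨j, l, h.trans hjl, rfl⟩

theorem V1c_mul {k : Type} [CommRing k] (i : Fin 5) {w w' : ℕ} {P Q : P6 k} (hP : P ∈ I i w) (hQ : Q ∈ I i w') :
    P * Q ∈ I i (w + w') := by
  have h := Ideal.mul_mem_mul hP hQ
  rw [I, I, Ideal.span_mul_span'] at h
  refine Ideal.span_mono ?_ h
  rintro q ⟨a, ⟨j, l, hjl, rfl⟩, b, ⟨j', l', hjl', rfl⟩, rfl⟩
  refine ⟨j + j', l + l', by omega, ?_⟩
  simp only [pow_add]
  ring

theorem V1c_zero {k : Type} [CommRing k] (i : Fin 5) (P : P6 k) : P ∈ I i 0 := by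
  have : (1 : P6 k) ∈ I i 0 := Ideal.subset_span ⟨0, 0, by omega, by simp⟩
  simpa using Ideal.mul_mem_left _ P this

theorem V1c_U {k : Type} [CommRing k] (i : Fin 5) : (UU i : P6 k) ∈ I i 3 :=
  Ideal.subset_span ⟨1, 0, by omega, by simp⟩

theorem V1c_Y {k : Type} [CommRing k] (i : Fin 5) : (YY i : P6 k) ∈ I i 2 :=
  Ideal.subset_span ⟨0, 1, by omega, by simp⟩

/-- the coefficients of `tau Z` are in the ideals -/
theorem V1c_coeff {k : Type} [CommRing k] (i : Fin 5) (Z : P6 k) : ∀ n, (V1c_tau i Z).coeff n ∈ I i n := by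
  have hmul : ∀ F G : Polynomial (P6 k), (∀ n, F.coeff n ∈ I i n) → (∀ n, G.coeff n ∈ I i n) →
      ∀ n, (F * G).coeff n ∈ I i n := by
    intro F G hF hG n
    rw [Polynomial.coeff_mul]
    refine Ideal.sum_mem _ fun x hx => ?_
    have := V1c_mul i (hF x.1) (hG x.2)
    rwa [Finset.HasAntidiagonal.mem_antidiagonal.mp hx] at this
  have hadd : ∀ F G : Polynomial (P6 k), (∀ n, F.coeff n ∈ I i n) → (∀ n, G.coeff n ∈ I i n) →
      ∀ n, (F + G).coeff n ∈ I i n := by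
    intro F G hF hG n
    rw [Polynomial.coeff_add]
    exact Ideal.add_mem _ (hF n) (hG n)
  have hC : ∀ a : P6 k, ∀ n, (Polynomial.C a).coeff n ∈ I i n := by
    intro a n
    rw [Polynomial.coeff_C]
    split_ifs with h
    · subst h
      exact V1c_zero i a
    · exact Ideal.zero_mem _
  have hXC : ∀ (a : P6 k) (r : ℕ), a ∈ I i r → ∀ n, (Polynomial.C a * Polynomial.X ^ r).coeff n ∈ I i n := by
    intro a r ha n
    rw [Polynomial.coeff_C_mul_X_pow]
    split_ifs with h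
    · subst h
      exact ha
    · exact Ideal.zero_mem _
  induction Z using MvPolynomial.induction_on with
  | C a =>
    have : V1c_tau i (C a : P6 k) = Polynomial.C (C a) := by
      simp [V1c_tau, Polynomial.algebraMap_eq, MvPolynomial.algebraMap_eq]
    rw [this]
    exact hC _
  | add p q hp hq =>
    rw [map_add]
    exact hadd _ _ hp hq
  | mul_X p x hp =>
    rw [map_mul]
    refine hmul _ _ hp ?_
    rcases x with j | j
    · have e : V1c_tau i (X (Sum.inl j) : P6 k) = Polynomial.C (Xx j - UU i * C (V1c_c k i j)) +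
          Polynomial.C (UU i * C (V1c_c k i j)) * Polynomial.X ^ 3 := by
        have := V1c_tau_Xx (k := k) i j
        rw [Xx] at this
        rw [this, map_sub]
        simp only [Xx]
        ring
      rw [e]
      exact hadd _ _ (hC _) (hXC _ 3 (Ideal.mul_mem_right _ _ (V1c_U i)))
    · have e : V1c_tau i (X (Sum.inr j) : P6 k) = Polynomial.C (Vv j - YY i * C (V1c_c k i j)) +
          Polynomial.C (YY i * C (V1c_c k i j)) * Polynomial.X ^ 2 := by
        have := V1c_tau_Vv (k := k) i j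
        rw [Vv] at this
        rw [this, map_sub]
        simp only [Vv]
        ring
      rw [e]
      exact hadd _ _ (hC _) (hXC _ 2 (Ideal.mul_mem_right _ _ (V1c_Y i)))

theorem V1c_eval {k : Type} [CommRing k] (i : Fin 5) (Z : P6 k) : Polynomial.eval 1 (V1c_tau i Z) = Z := by
  have h : (Polynomial.evalRingHom (1 : P6 k)).comp (V1c_tau i).toRingHom = RingHom.id (P6 k) := by
    apply MvPolynomial.ringHom_ext
    · intro r
      simp [V1c_tau, Polynomial.algebraMap_eq, MvPolynomial.algebraMap_eq]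
    · rintro (j | j) <;> simp [V1c_tau, Xx, Vv]
  exact RingHom.congr_fun h Z

theorem V1c_iff {k : Type} [CommRing k] (i : Fin 5) (w : ℕ) (Z : P6 k) :
    Z ∈ I i w ↔ (Polynomial.X : Polynomial (P6 k)) ^ w ∣ V1c_tau i Z := by
  constructor
  · intro h
    rw [I] at h
    refine Submodule.span_induction ?_ ?_ ?_ ?_ h
    · rintro q ⟨j, l, hjl, rfl⟩
      rw [map_mul, map_pow, map_pow, V1c_tau_UU, V1c_tau_YY, mul_pow, mul_pow, ← pow_mul, ← pow_mul]
      have e : (Polynomial.X : Polynomial (P6 k)) ^ (3 * j) * Polynomial.C (UU i) ^ j *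
          (Polynomial.X ^ (2 * l) * Polynomial.C (YY i) ^ l) =
          Polynomial.X ^ (3 * j + 2 * l) * (Polynomial.C (UU i) ^ j * Polynomial.C (YY i) ^ l) := by
        rw [pow_add]
        ring
      rw [e]
      exact Dvd.dvd.mul_right (pow_dvd_pow _ hjl) _
    · simp
    · intro x y _ _ hx hy
      rw [map_add]
      exact dvd_add hx hy
    · intro a x _ hx
      rw [smul_eq_mul, map_mul]
      exact Dvd.dvd.mul_left hx _
  · intro h
    rw [← V1c_eval i Z, Polynomial.eval_eq_sum, Polynomial.sum]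
    refine Ideal.sum_mem _ fun n _ => ?_
    rw [one_pow, mul_one]
    by_cases hn : w ≤ n
    · exact V1c_anti i hn (V1c_coeff i Z n)
    · rw [Polynomial.X_pow_dvd_iff.mp h n (by omega)]
      exact Ideal.zero_mem _

/-- the cofactors of `Kh` at the five lines -/
def V1c_A {k : Type} [Field k] : Fin 5 → P6 k :=
  ![lam 0 * (Vv 1 - Vv 2) + 4 * (Xx 2 * Vv 0 * Vv 1 - Xx 0 * Vv 1 * Vv 2 + Xx 1 * Vv 0 * Vv 2),
    lam 1 * (Vv 2 - 4 * Vv 0) + Xx 0 * Vv 1 * Vv 2 - Xx 1 * Vv 0 * Vv 2 + Xx 2 * Vv 0 * Vv 1,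
    lam 2 * (4 * Vv 0 - Vv 1) + Xx 1 * Vv 0 * Vv 2 - Xx 2 * Vv 0 * Vv 1 + Xx 0 * Vv 1 * Vv 2,
    C (1 / 9) * UP, C (1 / 9) * UbP]

/-- the cofactors of `Kh` at the five lines -/
def V1c_B {k : Type} [Field k] : Fin 5 → P6 k :=
  ![lam 0 * (Xx 2 - Xx 1) - 4 * (Xx 1 * Xx 2 * Vv 0), lam 1 * (4 * Xx 0 - Xx 2) - Xx 0 * Xx 2 * Vv 1,
    lam 2 * (Xx 1 - 4 * Xx 0) - Xx 0 * Xx 1 * Vv 2, C (1 / 3) * VP, C (1 / 3) * VbP]

theorem V1c_lam {k : Type} [CommRing k] : (lam 0 : P6 k) = Xx 1 * Vv 2 - Xx 2 * Vv 1 ∧ (lam 1 : P6 k) = Xx 2 * Vv 0 - Xx 0 * Vv 2 ∧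
    (lam 2 : P6 k) = Xx 0 * Vv 1 - Xx 1 * Vv 0 := ⟨rfl, rfl, rfl⟩

/-- the decomposition of `Kh` at the five lines -/
theorem V1c_Kh {k : Type} [Field k] [CharZero k] (i : Fin 5) :
    (Kh : P6 k) = UU i * V1c_A i + YY i * V1c_B i ∧ YY i * Polynomial.eval 0 (V1c_tau i (V1c_B i)) ≠ (0 : P6 k) := by
  obtain ⟨l0, l1, l2⟩ := V1c_lam (k := k)
  have c9 : (C (1 / 9 : k) : P6 k) * 9 = 1 := by
    rw [← map_ofNat (C : k →+* P6 k) 9, ← C_mul]
    norm_num
  have c3 : (C (1 / 3 : k) : P6 k) = 3 * C (1 / 9 : k) := by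
    rw [← map_ofNat (C : k →+* P6 k) 3, ← C_mul]
    norm_num
  constructor
  · fin_cases i
    · simp only [Kh, UU, YY, V1c_A, V1c_B, Fin.zero_eta, Matrix.cons_val, l0, l1, l2]
      ring
    · simp only [Kh, UU, YY, V1c_A, V1c_B, Fin.mk_one, Matrix.cons_val, l0, l1, l2]
      ring
    · simp only [Kh, UU, YY, V1c_A, V1c_B, Fin.reduceFinMk, Matrix.cons_val, l0, l1, l2]
      ring
    · simp only [Kh, UU, YY, V1c_A, V1c_B, Fin.reduceFinMk, Matrix.cons_val, l0, l1, l2, UP, VP, c3]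
      linear_combination (-((Xx 1 * Vv 2 - Xx 2 * Vv 1) * (Xx 2 * Vv 0 - Xx 0 * Vv 2) + (Xx 1 * Vv 2 - Xx 2 * Vv 1) * (Xx 0 * Vv 1 - Xx 1 * Vv 0) +
        4 * ((Xx 2 * Vv 0 - Xx 0 * Vv 2) * (Xx 0 * Vv 1 - Xx 1 * Vv 0)))) * c9
    · simp only [Kh, UU, YY, V1c_A, V1c_B, Fin.reduceFinMk, Matrix.cons_val, l0, l1, l2, UbP, VbP, c3]
      linear_combination (-((Xx 1 * Vv 2 - Xx 2 * Vv 1) * (Xx 2 * Vv 0 - Xx 0 * Vv 2) + (Xx 1 * Vv 2 - Xx 2 * Vv 1) * (Xx 0 * Vv 1 - Xx 1 * Vv 0) +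
        4 * ((Xx 2 * Vv 0 - Xx 0 * Vv 2) * (Xx 0 * Vv 1 - Xx 1 * Vv 0)))) * c9
  · have key : ∀ p : Fin 3 ⊕ Fin 3 → k, MvPolynomial.eval p (YY i * Polynomial.eval 0 (V1c_tau i (V1c_B i))) ≠ 0 →
        YY i * Polynomial.eval 0 (V1c_tau i (V1c_B i)) ≠ (0 : P6 k) := by
      intro p hp h0
      rw [h0] at hp
      simp at hp
    fin_cases i
    · apply key (Sum.elim ![0, 1, 0] ![1, 0, 1])
      simp only [UU, YY, V1c_B, Fin.zero_eta, Matrix.cons_val, l0, map_mul, map_add, map_sub, map_ofNat, V1c_tau_Xx, V1c_tau_Vv, V1c_c,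
        Polynomial.eval_mul, Polynomial.eval_add, Polynomial.eval_sub, Polynomial.eval_pow, Polynomial.eval_X, Polynomial.eval_C,
        Polynomial.eval_one, Polynomial.eval_ofNat, MvPolynomial.eval_C, map_one, map_zero, map_pow]
      simp only [Xx, Vv, MvPolynomial.eval_X, Sum.elim_inl, Sum.elim_inr, Matrix.cons_val]
      norm_num
    · apply key (Sum.elim ![1, 0, 0] ![0, 1, 1])
      simp only [UU, YY, V1c_B, Fin.mk_one, Matrix.cons_val, l1, map_mul, map_add, map_sub, map_ofNat, V1c_tau_Xx, V1c_tau_Vv, V1c_c,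
        Polynomial.eval_mul, Polynomial.eval_add, Polynomial.eval_sub, Polynomial.eval_pow, Polynomial.eval_X, Polynomial.eval_C,
        Polynomial.eval_one, Polynomial.eval_ofNat, MvPolynomial.eval_C, map_one, map_zero, map_pow]
      simp only [Xx, Vv, MvPolynomial.eval_X, Sum.elim_inl, Sum.elim_inr, Matrix.cons_val]
      norm_num
    · apply key (Sum.elim ![1, 0, 0] ![0, 1, 1])
      simp only [UU, YY, V1c_B, Fin.reduceFinMk, Matrix.cons_val, l2, map_mul, map_add, map_sub, map_ofNat, V1c_tau_Xx, V1c_tau_Vv, V1c_c,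
        Polynomial.eval_mul, Polynomial.eval_add, Polynomial.eval_sub, Polynomial.eval_pow, Polynomial.eval_X, Polynomial.eval_C,
        Polynomial.eval_one, Polynomial.eval_ofNat, MvPolynomial.eval_C, map_one, map_zero, map_pow]
      simp only [Xx, Vv, MvPolynomial.eval_X, Sum.elim_inl, Sum.elim_inr, Matrix.cons_val]
      norm_num
    · apply key (Sum.elim ![1, 0, 0] ![0, 1, 0])
      simp only [UU, YY, V1c_B, VP, Fin.reduceFinMk, Matrix.cons_val, map_mul, map_add, map_sub, map_ofNat, map_neg, V1c_tau_Xx, V1c_tau_Vv, V1c_c,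
        Polynomial.eval_mul, Polynomial.eval_add, Polynomial.eval_sub, Polynomial.eval_pow, Polynomial.eval_X, Polynomial.eval_C,
        Polynomial.eval_one, Polynomial.eval_ofNat, MvPolynomial.eval_C,
        map_one, map_zero, map_pow, MvPolynomial.algHom_C, Polynomial.algebraMap_apply, MvPolynomial.algebraMap_eq, Polynomial.eval_neg]
      simp only [Xx, Vv, MvPolynomial.eval_X, Sum.elim_inl, Sum.elim_inr, Matrix.cons_val]
      norm_num
    · apply key (Sum.elim ![1, 0, 0] ![0, 0, 1])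
      simp only [UU, YY, V1c_B, VbP, Fin.reduceFinMk, Matrix.cons_val, map_mul, map_add, map_sub, map_ofNat, map_neg, V1c_tau_Xx, V1c_tau_Vv, V1c_c,
        Polynomial.eval_mul, Polynomial.eval_add, Polynomial.eval_sub, Polynomial.eval_pow, Polynomial.eval_X, Polynomial.eval_C,
        Polynomial.eval_one, Polynomial.eval_ofNat, MvPolynomial.eval_C,
        map_one, map_zero, map_pow, MvPolynomial.algHom_C, Polynomial.algebraMap_apply, MvPolynomial.algebraMap_eq, Polynomial.eval_neg]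
      simp only [Xx, Vv, MvPolynomial.eval_X, Sum.elim_inl, Sum.elim_inr, Matrix.cons_val]
      norm_num

theorem p_V1c : Stmt_V1c := by
  intro k _ _ i w Z h
  obtain ⟨hK, hne⟩ := V1c_Kh (k := k) i
  rw [V1c_iff] at h ⊢
  set F : Polynomial (P6 k) :=
    Polynomial.X * Polynomial.C (UU i) * V1c_tau i (V1c_A i) + Polynomial.C (YY i) * V1c_tau i (V1c_B i) with hF
  have e : V1c_tau i (Kh : P6 k) = Polynomial.X ^ 2 * F := by
    rw [hK, map_add, map_mul, map_mul, V1c_tau_UU, V1c_tau_YY, hF]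
    ring
  rw [map_mul, e, mul_assoc] at h
  rcases Nat.lt_or_ge w 2 with hw | hw
  · rw [show w - 2 = 0 by omega, pow_zero]
    exact one_dvd _
  · obtain ⟨w', rfl⟩ : ∃ w', w = w' + 2 := ⟨w - 2, by omega⟩
    rw [Nat.add_sub_cancel]
    have h2 : (Polynomial.X : Polynomial (P6 k)) ^ w' ∣ F * V1c_tau i Z := by
      rw [add_comm, pow_add] at h
      exact (mul_dvd_mul_iff_left (pow_ne_zero 2 (Polynomial.X_ne_zero (R := P6 k)))).mp h
    refine Polynomial.prime_X.pow_dvd_of_dvd_mul_left w' ?_ h2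
    intro hX
    rw [Polynomial.X_dvd_iff, Polynomial.coeff_zero_eq_eval_zero, hF] at hX
    apply hne
    simpa using hX

end Pool.CX.V1
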