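import Pool.Agent.Work.MP_bf99ce_cx.B_V2F

/-!
# THEOREM CX, part V2: the deformation argument
-/

set_option autoImplicit false

noncomputable section

open MvPolynomial

namespace Pool.CX

/-- the deformation argument for a polynomial `P₀` over `O` whose reduction is not zero -/
theorem V2A_main {O k F : Type} [CommRing O] [IsDomain O] [Field k] [CharZero k] [Field F] [CharZero F] {ι : O →+* k}
    {π : O →+* F} {e : O} (hSF : Stmt_SF) (hDF : Stmt_DF) (D : V2F_Data ι π e) (he : e ≠ 0)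
    (hunit : ∀ z : O, π z ≠ 0 → IsUnit z)
    (hC : ∀ R : P6 O, (∃ R' : P6 O, R = C e * R') ∨ ∃ (r r' : O) (R' : P6 O), r ≠ 0 ∧ R = C r * R' ∧ e = r * r' ∧
      π r' = 0 ∧ map π R' ≠ 0)
    (d m w w' : ℕ) (P₀ : P6 O) (hm : 1 ≤ m) (hP0 : map π P₀ ≠ 0) (hbi : Bihom d m P₀) (heu : eul P₀ = 0)
    (ha : Mem (aP (ι e)) w (map ι P₀)) (hb : Mem bP w' (map ι P₀)) (hd : d ≤ w + w') : False := by
  obtain ⟨c, n, j, j', hc, hPe, rfl, rfl, rfl⟩ := hSF F d m w w' (map π P₀) hP0 (V2K_bihom_map π hbi)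
    (by rw [← V2K_map_eul, heu, map_zero]) (D.ra _ _ _ _ hbi ha) (D.rb _ _ _ _ hbi hb) hd
  obtain ⟨n, rfl⟩ : ∃ n', n = n' + 1 := ⟨n - 1, by omega⟩
  set G : P6 O := aP e ^ j * bP ^ j' * KP ^ (n + 1) with hG
  have hGπ : map π G = aP 0 ^ j * bP ^ j' * KP ^ (n + 1) := by
    rw [hG, map_mul, map_mul, map_pow, map_pow, map_pow, V2K_map_aP, V2K_map_bP, V2K_map_KP, D.zero]
  have hG0 : map π G ≠ 0 := by
    intro h
    apply hP0
    rw [hPe, ← hGπ, h, mul_zero]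
  have hGb : Bihom (4 * (n + 1) + 3 * j + 3 * j') (2 * (n + 1)) G :=
    V2K_bihom_cast (V2K_bihom_mul (V2K_bihom_mul (V2K_bihom_pow (V2K_bihom_aP e) j)
      (V2K_bihom_pow V2K_bihom_bP j')) (V2K_bihom_pow V2K_bihom_KP (n + 1))) (by omega) (by omega)
  have hd' : d = 4 * (n + 1) + 3 * j + 3 * j' := by
    refine (V2K_bihom_uniq hP0 (V2K_bihom_map π hbi) (d' := 4 * (n + 1) + 3 * j + 3 * j') (m' := 2 * (n + 1)) ?_).1
    rw [hPe, ← hGπ]
    exact V2K_bihom_Cmul _ (V2K_bihom_map π hGb)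
  obtain ⟨μ, hμ⟩ := MvPolynomial.ne_zero_iff.1 hG0
  rw [coeff_map] at hμ
  obtain ⟨g', hg'⟩ := (hunit _ hμ).exists_right_inv
  have hl : π (coeff μ P₀ * g') = c := by
    have h1 : π (coeff μ P₀) = c * π (coeff μ G) := by
      rw [← coeff_map, ← coeff_map, hPe, ← hGπ, coeff_C_mul]
    rw [map_mul, h1, mul_assoc, ← map_mul, hg', map_one, mul_one]
  set l : O := coeff μ P₀ * g' with hl'
  have hRμ : coeff μ (P₀ - C l * G) = 0 := by
    rw [coeff_sub, coeff_C_mul, hl', mul_assoc, mul_comm g', hg', mul_one, sub_self]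
  have heuG : eul G = 0 :=
    V2K_eul_mul0 (V2K_eul_mul0 (V2K_eul_pow0 (V2K_eul_aP e) j) (V2K_eul_pow0 V2K_eul_bP j'))
      (V2K_eul_pow0 V2K_eul_KP _)
  have heuR : eul (P₀ - C l * G) = 0 := by
    rw [V2K_eul_sub, heu, V2K_eul_mul0 (V2K_eul_C l) heuG, sub_zero]
  rcases hC (P₀ - C l * G) with ⟨R', hR'⟩ | ⟨r, r', R', hr, hR', her, hr', hRne⟩
  · obtain ⟨h1, h2, h3⟩ := V2F_FO D d n j j' P₀ R' l e 1 he (by ring) hbi hd' ha hb hR'
    rw [hR'] at heuR
    refine hDF F n j j' (π 1 * π l * ((n : F) + 1) / 9) (map π R') ?_ ?_ ?_ h3 h2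
    · rw [map_one, one_mul, hl]
      exact div_ne_zero (mul_ne_zero hc (Nat.cast_add_one_ne_zero n)) (by norm_num)
    · exact V2K_bihom_cast (V2K_bihom_map π h1) (by omega) (by omega)
    · rw [← V2K_map_eul, V2K_eul_of_Cmul he heuR, map_zero]
  · obtain ⟨h1, h2, h3⟩ := V2F_FO D d n j j' P₀ R' l r r' hr her hbi hd' ha hb hR'
    rw [hr', zero_mul, zero_mul, zero_div, C_0, zero_mul, sub_zero] at h2
    rw [hR'] at heuR hRμ
    obtain ⟨c2, n2, j2, j2', hc2, hP2, hn2, hj2, hj2'⟩ := hSF F d (2 * (n + 1)) (2 * (n + 1) + 3 * j)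
      (2 * (n + 1) + 3 * j') (map π R') hRne (V2K_bihom_map π h1)
      (by rw [← V2K_map_eul, V2K_eul_of_Cmul hr heuR, map_zero]) h2 h3 hd
    obtain rfl : n2 = n + 1 := by omega
    obtain rfl : j2 = j := by omega
    obtain rfl : j2' = j' := by omega
    rw [coeff_C_mul] at hRμ
    have h4 : coeff μ (map π R') = 0 := by
      rw [coeff_map, (mul_eq_zero.1 hRμ).resolve_left hr, map_zero]
    rw [hP2, ← hGπ, coeff_C_mul, coeff_map] at h4
    exact mul_ne_zero hc2 hμ h4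

/-- **DEF (the deformation argument).** -/
theorem p_DEF (hR : Stmt_V2R) (hP : Stmt_V2P) (hC : Stmt_V2C) : Stmt_DEF := by
  intro hSF hDF hFL k _ _ ε hε d m w w' N P hm hd hbi heu ha hb
  by_contra hP0
  obtain ⟨O, e, heε, hres, hchar⟩ := hR k ε hε
  obtain ⟨c, P₀, hc, hmap, hne⟩ := hP k O P hP0
  have hinj : Function.Injective (algebraMap O k) := Subtype.val_injective
  have he0 : e ≠ 0 := by
    rintro rfl
    apply hε
    rw [← heε, ZeroMemClass.coe_zero]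
    exact isAlgebraic_zero
  have hιe : algebraMap O k e = ε := heε
  have D : V2F_Data (algebraMap O k) (IsLocalRing.residue O) e := by
    refine ⟨hinj, hres, fun d m w P hP h => ?_, fun d m w P hP h => ?_⟩
    · have h1 := hFL k O (-3) 3 1 e m w P (by rw [map_one]; exact one_ne_zero) hres (V2K_HomV hP)
      rw [← aP_eq, V2K_map_aP, V2K_map_aP, hres] at h1
      exact h1 h
    · have h1 := hFL k O (-3) 1 3 0 m w P (by rw [map_ofNat]; norm_num) (map_zero _) (V2K_HomV hP)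
      rw [← bP_eq, V2K_map_bP, V2K_map_bP] at h1
      exact h1 h
  refine V2A_main hSF hDF D he0 (fun z hz => ?_) (fun R => hC k O e R he0) d m w w' P₀ hm hne ?_ ?_ ?_ ?_ hd
  · by_contra h
    exact hz ((IsLocalRing.residue_eq_zero_iff z).2 ((IsLocalRing.mem_maximalIdeal z).2 h))
  · refine V2K_bihom_of_map _ hinj ?_
    rw [hmap]
    exact V2K_bihom_Cmul _ hbi
  · refine (map_injective _ hinj) ?_
    rw [V2K_map_eul, hmap, V2K_eul_mul0 (V2K_eul_C c) heu, map_zero]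
  · rw [hιe, hmap]
    exact V2K_Mem_mul_left _ (V2K_Mem_of_x0 ha)
  · rw [hmap]
    exact V2K_Mem_mul_left _ (V2K_Mem_of_x0 hb)

end Pool.CX
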