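import Pool.Agent.Work.MP_bf99ce_cx.DefsV2

set_option autoImplicit false

noncomputable section

open MvPolynomial

namespace Pool.CX

theorem p_V2C (h : Stmt_V2P) : Stmt_V2C := by
  intro k _ O e R he
  have hinj : Function.Injective (algebraMap O k) := Subtype.val_injective
  by_cases hR : R = 0
  · exact Or.inl ⟨0, by rw [hR, mul_zero]⟩
  have hR' : map (algebraMap O k) R ≠ 0 := fun h0 => hR (map_injective _ hinj (by rw [h0, map_zero]))
  obtain ⟨c, P₀, hc, h1, h2⟩ := h k O _ hR'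
  obtain ⟨s, hs⟩ : ∃ s, IsLocalRing.residue O (P₀.coeff s) ≠ 0 := by
    by_contra hcon
    push Not at hcon
    exact h2 (MvPolynomial.ext _ _ fun s => by rw [coeff_map, hcon s, coeff_zero])
  have hu : IsUnit (P₀.coeff s) := by
    by_contra hcon
    exact hs ((IsLocalRing.residue_eq_zero_iff _).2 ((IsLocalRing.mem_maximalIdeal _).2 hcon))
  obtain ⟨u, hu⟩ := hu
  have h3 : ((u : O) : k) = c * ((R.coeff s : O) : k) := by
    have := congrArg (coeff s) h1
    rw [coeff_map, coeff_C_mul, coeff_map, ← hu] at this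
    exact this
  have h4 : ((u : O) : k) * (((u⁻¹ : Oˣ) : O) : k) = 1 := by
    have := congrArg (algebraMap O k) u.mul_inv
    rw [map_mul, map_one] at this
    exact this
  have h5 : c⁻¹ = ((R.coeff s * ((u⁻¹ : Oˣ) : O) : O) : k) := by
    have h6 : ((R.coeff s * ((u⁻¹ : Oˣ) : O) : O) : k) = ((R.coeff s : O) : k) * (((u⁻¹ : Oˣ) : O) : k) := rfl
    rw [h6]
    refine inv_eq_of_mul_eq_one_right ?_
    rw [← mul_assoc, ← h3, h4]
  let r : O := R.coeff s * ((u⁻¹ : Oˣ) : O)
  have hr : (r : k) = c⁻¹ := h5.symm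
  have hr0 : r ≠ 0 := by
    intro h0
    rw [h0] at hr
    exact inv_ne_zero hc hr.symm
  have hRr : R = C r * P₀ := by
    apply map_injective _ hinj
    rw [map_mul, h1, map_C, ← mul_assoc, ← C_mul]
    change _ = C ((r : k) * c) * _
    rw [hr, inv_mul_cancel₀ hc, C_1, one_mul]
  have hek : (e : k) ≠ 0 := fun h0 => he (Subtype.ext h0)
  have hrk : (r : k) ≠ 0 := fun h0 => hr0 (Subtype.ext h0)
  have left : ∀ t : O, r = e * t → ∃ R' : P6 O, R = C e * R' := fun t ht =>
    ⟨C t * P₀, by rw [hRr, ← mul_assoc, ← C_mul, ← ht]⟩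
  rcases O.mem_or_inv_mem ((r : k) / (e : k)) with h6 | h6
  · refine Or.inl (left ⟨_, h6⟩ (Subtype.ext ?_))
    change (r : k) = (e : k) * ((r : k) / (e : k))
    rw [mul_div_cancel₀ _ hek]
  · rw [inv_div] at h6
    have he' : e = r * ⟨_, h6⟩ := by
      apply Subtype.ext
      change (e : k) = (r : k) * ((e : k) / (r : k))
      rw [mul_div_cancel₀ _ hrk]
    by_cases h7 : IsLocalRing.residue O ⟨_, h6⟩ = 0
    · exact Or.inr ⟨r, ⟨_, h6⟩, P₀, hr0, hRr, he', h7, h2⟩
    · have h8 : IsUnit (⟨_, h6⟩ : O) := by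
        by_contra hcon
        exact h7 ((IsLocalRing.residue_eq_zero_iff _).2 ((IsLocalRing.mem_maximalIdeal _).2 hcon))
      obtain ⟨w, hw⟩ := h8
      refine Or.inl (left ((w⁻¹ : Oˣ) : O) ?_)
      rw [he', ← hw, mul_assoc, w.mul_inv, mul_one]

end Pool.CX
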