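import Pool.Agent.Work.MP_bf99ce_cx.B_V2K

/-!
# THEOREM CX, part V2: the first order step
-/

set_option autoImplicit false

noncomputable section

open MvPolynomial

namespace Pool.CX

/-- `O` is a domain with homomorphisms `ι` to the field `k` (injective) and `π` to the field `F`, `π e = 0`, and the weight
conditions along `a`, `b` pass to the reduction -/
structure V2F_Data {O k F : Type} [CommRing O] [Field k] [Field F] (ι : O →+* k) (π : O →+* F) (e : O) : Prop where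
  inj : Function.Injective ι
  zero : π e = 0
  ra : ∀ (d m w : ℕ) (P : P6 O), Bihom d m P → Mem (aP (ι e)) w (map ι P) → Mem (aP 0) w (map π P)
  rb : ∀ (d m w : ℕ) (P : P6 O), Bihom d m P → Mem bP w (map ι P) → Mem bP w (map π P)

variable {O k F : Type} [CommRing O] [IsDomain O] [Field k] [CharZero k] [Field F] [CharZero F] {ι : O →+* k} {π : O →+* F}
  {e : O}

/-- the first order step -/
theorem V2F_FO (D : V2F_Data ι π e) (d n j j' : ℕ) (P₀ R' : P6 O) (l r r' : O) (hr : r ≠ 0) (her : e = r * r')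
    (hP : Bihom d (2 * (n + 1)) P₀) (hd : d = 4 * (n + 1) + 3 * j + 3 * j')
    (ha : Mem (aP (ι e)) (2 * (n + 1) + 3 * j) (map ι P₀)) (hb : Mem bP (2 * (n + 1) + 3 * j') (map ι P₀))
    (hR : P₀ - C l * (aP e ^ j * bP ^ j' * KP ^ (n + 1)) = C r * R') :
    Bihom d (2 * (n + 1)) R' ∧
    Mem (aP 0) (2 * (n + 1) + 3 * j) (map π R' -
      C (π r' * π l * ((n : F) + 1) / 9) * (aP 0 ^ j * bP ^ j' * KP ^ n * S1P)) ∧
    Mem bP (2 * (n + 1) + 3 * j') (map π R') := by
  have hrk : ι r ≠ 0 := (map_ne_zero_iff _ D.inj).2 hr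
  have hG : Bihom d (2 * (n + 1)) (aP e ^ j * bP ^ j' * KP ^ (n + 1) : P6 O) :=
    V2K_bihom_cast (V2K_bihom_mul (V2K_bihom_mul (V2K_bihom_pow (V2K_bihom_aP e) j)
      (V2K_bihom_pow V2K_bihom_bP j')) (V2K_bihom_pow V2K_bihom_KP (n + 1))) (by omega) (by omega)
  have hR' : Bihom d (2 * (n + 1)) R' := by
    refine V2K_bihom_of_Cmul hr ?_
    rw [← hR]
    exact V2K_bihom_sub hP (V2K_bihom_Cmul _ hG)
  refine ⟨hR', ?_, ?_⟩
  · -- the condition along `a`
    obtain ⟨Y, hY⟩ := Polynomial.powAddExpansion (9 * KP : P6 O) (C e * S1P) (n + 1)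
    set L : P6 O := 9 * KP + C e * S1P with hL
    set Z : P6 O := 9 ^ (n + 1) * R' - C (r' * l) * (aP e ^ j * bP ^ j' *
      (((n + 1 : ℕ) : P6 O) * (9 * KP) ^ n * S1P + Y * C e * S1P ^ 2)) with hZ
    have e1 : C r * Z = 9 ^ (n + 1) * P₀ - C l * (aP e ^ j * bP ^ j' * L ^ (n + 1)) := by
      have e2 : C r * Z = 9 ^ (n + 1) * (C r * R') - C l * (aP e ^ j * bP ^ j' *
          (C (r * r') * (((n + 1 : ℕ) : P6 O) * (9 * KP) ^ n * S1P + Y * C e * S1P ^ 2))) := by
        rw [hZ, C_mul, C_mul]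
        ring
      rw [e2, ← her, ← hR, hY, Nat.add_sub_cancel, mul_pow 9 KP (n + 1)]
      ring
    have hZb : Bihom d (2 * (n + 1)) Z := by
      refine V2K_bihom_of_Cmul hr ?_
      rw [e1]
      have h9 : Bihom 0 0 (9 ^ (n + 1) : P6 O) := by
        have := V2K_bihom_C ((9 : O) ^ (n + 1))
        rwa [C_pow, map_ofNat] at this
      have hLb : Bihom 4 2 L := V2K_bihom_add (V2K_bihom_num 9 V2K_bihom_KP) (V2K_bihom_Cmul _ V2K_bihom_S1P)
      refine V2K_bihom_sub (V2K_bihom_cast (V2K_bihom_mul h9 hP) (by omega) (by omega)) (V2K_bihom_Cmul _ ?_)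
      exact V2K_bihom_cast (V2K_bihom_mul (V2K_bihom_mul (V2K_bihom_pow (V2K_bihom_aP e) j)
        (V2K_bihom_pow V2K_bihom_bP j')) (V2K_bihom_pow hLb (n + 1))) (by omega) (by omega)
    have hmem : Mem (aP (ι e)) (2 * (n + 1) + 3 * j) (map ι Z) := by
      refine V2K_Mem_C hrk ?_
      rw [← map_C, ← map_mul, e1, map_sub, map_mul, map_mul, map_C]
      refine V2K_Mem_sub (V2K_Mem_mul_left _ ha) (V2K_Mem_mul_left _ (V2K_Mem_of_Iw ?_))
      rw [map_mul, map_mul, map_pow, map_pow, map_pow, V2K_map_aP]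
      have hLk : map ι L ∈ Iw (aP (ι e)) 2 := by
        rw [hL, map_add, map_mul, map_mul, V2K_map_KP, V2K_map_S1P, map_C, map_ofNat, KP_eq_eps]
        exact V2K_Iw_lin _ _ _
      have h3 := V2K_Iw_mul (V2K_Iw_self (aP (ι e)) j) (V2K_Iw_pow hLk (n + 1))
      have h4 := Ideal.mul_mem_left _ (map ι bP ^ j') h3
      rw [show 2 * (n + 1) + 3 * j = 3 * j + (n + 1) * 2 by ring]
      convert h4 using 1
      ring
    have h5 := D.ra _ _ _ _ hZb hmem
    have h9 : (9 : F) ^ (n + 1) ≠ 0 := pow_ne_zero _ (by norm_num)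
    refine V2K_Mem_C h9 ?_
    convert h5 using 1
    have e7 : map π Z = 9 ^ (n + 1) * map π R' - C (π r' * π l) * (aP 0 ^ j * bP ^ j' *
        (((n + 1 : ℕ) : P6 F) * (9 * KP) ^ n * S1P)) := by
      rw [hZ]
      simp only [map_sub, map_mul, map_add, map_pow, V2K_map_aP, V2K_map_bP, V2K_map_S1P, V2K_map_KP, map_C, D.zero, C_0,
        map_ofNat, map_natCast, mul_zero, zero_mul, add_zero]
    have e6 : (9 : F) ^ (n + 1) * (π r' * π l * ((n : F) + 1) / 9) = π r' * π l * ((n : F) + 1) * 9 ^ n := by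
      rw [pow_succ]
      field_simp
    have e8 : C ((9 : F) ^ (n + 1)) = (9 : P6 F) ^ (n + 1) := by rw [C_pow, map_ofNat]
    have e9 : C ((9 : F) ^ (n + 1)) * (C (π r' * π l * ((n : F) + 1) / 9) * (aP 0 ^ j * bP ^ j' * KP ^ n * S1P)) =
        C (π r' * π l) * (((n + 1 : ℕ) : P6 F) * 9 ^ n) * (aP 0 ^ j * bP ^ j' * KP ^ n * S1P) := by
      rw [← mul_assoc, ← C_mul, e6]
      simp only [C_mul, C_pow, map_ofNat, C_add, C_1, map_natCast, Nat.cast_add, Nat.cast_one]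
      ring
    rw [e7, mul_sub, e9, e8, mul_pow]
    ring
  · -- the condition along `b`
    refine D.rb _ _ _ _ hR' (V2K_Mem_C hrk ?_)
    rw [← map_C, ← map_mul, ← hR, map_sub, map_mul]
    refine V2K_Mem_sub hb (V2K_Mem_mul_left _ (V2K_Mem_of_Iw ?_))
    rw [map_mul, map_mul, map_pow, map_pow, map_pow, V2K_map_bP, V2K_map_KP]
    have h3 := V2K_Iw_mul (V2K_Iw_self (bP : P6 k) j') (V2K_Iw_pow V2K_KP_b (n + 1))
    have h4 := Ideal.mul_mem_left _ (map ι (aP e) ^ j) h3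
    rw [show 2 * (n + 1) + 3 * j' = 3 * j' + (n + 1) * 2 by ring]
    convert h4 using 1
    ring

end Pool.CX
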