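import Pool.Agent.Work.MP_bf99ce_cx.DefsV2

/-!
# THEOREM CX, part V2: bookkeeping (maps, bidegrees, the derivation `eul`, the ideals `Iw`)
-/

set_option autoImplicit false

noncomputable section

open MvPolynomial

namespace Pool.CX

section maps

variable {R S : Type} [CommRing R] [CommRing S] (f : R →+* S)

theorem V2K_map_Xx (i : Fin 3) : map f (Xx i : P6 R) = Xx i := by simp [Xx]

theorem V2K_map_Vv (i : Fin 3) : map f (Vv i : P6 R) = Vv i := by simp [Vv]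

theorem V2K_map_dv (p : P6 R) : map f (dv p) = dv (map f p) := by
  simp only [dv, map_sum, map_mul, V2K_map_Vv, pderiv_map]

theorem V2K_map_eul (p : P6 R) : map f (eul p) = eul (map f p) := by
  simp only [eul, map_sum, map_mul, V2K_map_Xx, pderiv_map]

theorem V2K_map_X3 : map f (X3 : P6 R) = X3 := by simp only [X3, map_mul, V2K_map_Xx]

theorem V2K_map_lam (i : Fin 3) : map f (lam i : P6 R) = lam i := by
  simp only [lam, map_mul, map_sub, V2K_map_Xx, V2K_map_Vv]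

theorem V2K_map_KP : map f (KP : P6 R) = KP := by
  simp only [KP, map_mul, map_add, map_pow, V2K_map_Xx, V2K_map_lam, map_ofNat]

theorem V2K_map_UP : map f (UP : P6 R) = UP := by
  simp only [UP, map_mul, map_sub, V2K_map_Xx, V2K_map_Vv, map_ofNat]

theorem V2K_map_VP : map f (VP : P6 R) = VP := by
  simp only [VP, map_mul, map_sub, V2K_map_Xx, V2K_map_Vv, map_ofNat]

theorem V2K_map_S1P : map f (S1P : P6 R) = S1P := by
  simp only [S1P, map_mul, map_add, V2K_map_X3, V2K_map_UP, V2K_map_VP, V2K_map_dv]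

theorem V2K_map_cub (c0 c1 c2 e : R) : map f (cub c0 c1 c2 e) = cub (f c0) (f c1) (f c2) (f e) := by
  simp only [cub, map_mul, map_add, map_pow, V2K_map_Xx, V2K_map_X3, map_C]

theorem V2K_map_aP (e : R) : map f (aP e) = aP (f e) := by
  rw [aP_eq, aP_eq, V2K_map_cub]
  simp only [map_neg, map_ofNat, map_one]

theorem V2K_map_bP : map f (bP : P6 R) = bP := by
  rw [bP_eq, bP_eq, V2K_map_cub]
  simp only [map_neg, map_ofNat, map_one, map_zero]

end maps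

section Iw

variable {R : Type} [CommRing R]

theorem V2K_Iw_mul {p P Q : P6 R} {w w' : ℕ} (hP : P ∈ Iw p w) (hQ : Q ∈ Iw p w') :
    P * Q ∈ Iw p (w + w') := by
  have h : Iw p w * Iw p w' ≤ Iw p (w + w') := by
    rw [Iw, Iw, Ideal.span_mul_span', Ideal.span_le]
    rintro _ ⟨_, ⟨j, l, h1, rfl⟩, _, ⟨j', l', h2, rfl⟩, rfl⟩
    refine Ideal.subset_span ⟨j + j', l + l', by omega, ?_⟩
    simp only
    ring
  exact h (Ideal.mul_mem_mul hP hQ)

theorem V2K_Iw_zero {p P : P6 R} : P ∈ Iw p 0 := by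
  have h : (1 : P6 R) ∈ Iw p 0 := Ideal.subset_span ⟨0, 0, by omega, by simp⟩
  simpa using Ideal.mul_mem_left _ P h

theorem V2K_Iw_pow {p P : P6 R} {w : ℕ} (hP : P ∈ Iw p w) (n : ℕ) : P ^ n ∈ Iw p (n * w) := by
  induction n with
  | zero => simpa using V2K_Iw_zero
  | succ n ih =>
    rw [pow_succ, Nat.succ_mul]
    exact V2K_Iw_mul ih hP

theorem V2K_Iw_self (p : P6 R) (j : ℕ) : p ^ j ∈ Iw p (3 * j) :=
  Ideal.subset_span ⟨j, 0, by omega, by simp⟩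

theorem V2K_Iw_lin (p A B : P6 R) : p * A + dv p * B ∈ Iw p 2 := by
  refine Ideal.add_mem _ (Ideal.mul_mem_right _ _ ?_) (Ideal.mul_mem_right _ _ ?_)
  · exact Ideal.subset_span ⟨1, 0, by omega, by simp⟩
  · exact Ideal.subset_span ⟨0, 1, by omega, by simp⟩

theorem V2K_Mem_of_Iw {p P : P6 R} {w : ℕ} (h : P ∈ Iw p w) : Mem p w P := ⟨0, by simpa using h⟩

theorem V2K_Mem_mul_left {p P : P6 R} {w : ℕ} (Q : P6 R) (h : Mem p w P) : Mem p w (Q * P) := by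
  obtain ⟨N, hN⟩ := h
  refine ⟨N, ?_⟩
  rw [mul_left_comm]
  exact Ideal.mul_mem_left _ _ hN

theorem V2K_Mem_sub {p P Q : P6 R} {w : ℕ} (h : Mem p w P) (h' : Mem p w Q) : Mem p w (P - Q) := by
  obtain ⟨N, hN⟩ := h
  obtain ⟨N', hN'⟩ := h'
  refine ⟨N + N', ?_⟩
  have e : X3 ^ (N + N') * (P - Q) = X3 ^ N' * (X3 ^ N * P) - X3 ^ N * (X3 ^ N' * Q) := by ring
  rw [e]
  exact Ideal.sub_mem _ (Ideal.mul_mem_left _ _ hN) (Ideal.mul_mem_left _ _ hN')

theorem V2K_Mem_of_x0 {p P : P6 R} {w N : ℕ} (h : Xx 0 ^ N * P ∈ Iw p w) : Mem p w P := by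
  refine ⟨N, ?_⟩
  have e : X3 ^ N * P = (Xx 1 * Xx 2) ^ N * (Xx 0 ^ N * P) := by
    simp only [X3]
    ring
  rw [e]
  exact Ideal.mul_mem_left _ _ h

end Iw

section fld

variable {k : Type} [Field k]

theorem V2K_Mem_C {p P : P6 k} {w : ℕ} {c : k} (hc : c ≠ 0) (h : Mem p w (C c * P)) : Mem p w P := by
  have := V2K_Mem_mul_left (C c⁻¹) h
  rwa [← mul_assoc, ← C_mul, inv_mul_cancel₀ hc, C_1, one_mul] at this

theorem V2K_KP_b [CharZero k] : (KP : P6 k) ∈ Iw bP 2 := by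
  have h := V2K_Iw_lin (bP : P6 k) UbP VbP
  rw [← KP_eq_b] at h
  have := Ideal.mul_mem_left _ (C (9 : k)⁻¹) h
  have e : C (9 : k)⁻¹ * (9 * KP) = (KP : P6 k) := by
    have : (9 : P6 k) = C 9 := (map_ofNat C 9).symm
    rw [this, ← mul_assoc, ← C_mul, inv_mul_cancel₀ (by norm_num), C_1, one_mul]
  rwa [e] at this

end fld

section hom

variable {R : Type} [CommRing R]

/-- the bigrading -/
def V2K_wt : Fin 3 ⊕ Fin 3 → ℕ × ℕ := Sum.elim (fun _ => (1, 0)) fun _ => (0, 1)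

theorem V2K_weight (s : Fin 3 ⊕ Fin 3 →₀ ℕ) :
    Finsupp.weight V2K_wt s = (∑ i : Fin 3, s (Sum.inl i), ∑ i : Fin 3, s (Sum.inr i)) := by
  rw [Finsupp.weight_apply, Finsupp.sum_fintype _ _ (fun i => by simp)]
  rw [Fintype.sum_sum_type]
  simp only [V2K_wt, Sum.elim_inl, Sum.elim_inr]
  ext
  · simp [Prod.fst_sum]
  · simp [Prod.snd_sum]

theorem V2K_bihom_iff (d m : ℕ) (f : P6 R) : Bihom d m f ↔ IsWeightedHomogeneous V2K_wt f (d, m) := by
  constructor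
  · intro h s hs
    have := h s (mem_support_iff.2 hs)
    rw [V2K_weight, this.1, this.2]
  · intro h s hs
    have := h (mem_support_iff.1 hs)
    rw [V2K_weight, Prod.mk.injEq] at this
    exact this

theorem V2K_bihom_mul {d m d' m' : ℕ} {f g : P6 R} (hf : Bihom d m f) (hg : Bihom d' m' g) :
    Bihom (d + d') (m + m') (f * g) := by
  rw [V2K_bihom_iff] at *
  exact hf.mul hg

theorem V2K_bihom_add {d m : ℕ} {f g : P6 R} (hf : Bihom d m f) (hg : Bihom d m g) : Bihom d m (f + g) := by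
  rw [V2K_bihom_iff] at *
  exact hf.add hg

theorem V2K_bihom_C (c : R) : Bihom 0 0 (C c : P6 R) := by
  rw [V2K_bihom_iff]
  exact isWeightedHomogeneous_C _ _

theorem V2K_bihom_Cmul {d m : ℕ} {f : P6 R} (c : R) (hf : Bihom d m f) : Bihom d m (C c * f) := by
  have := V2K_bihom_mul (V2K_bihom_C c) hf
  rwa [zero_add, zero_add] at this

theorem V2K_bihom_neg {d m : ℕ} {f : P6 R} (hf : Bihom d m f) : Bihom d m (-f) := by
  have := V2K_bihom_Cmul (-1) hf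
  rwa [C_neg, C_1, neg_one_mul] at this

theorem V2K_bihom_sub {d m : ℕ} {f g : P6 R} (hf : Bihom d m f) (hg : Bihom d m g) : Bihom d m (f - g) := by
  rw [sub_eq_add_neg]
  exact V2K_bihom_add hf (V2K_bihom_neg hg)

theorem V2K_bihom_pow {d m : ℕ} {f : P6 R} (hf : Bihom d m f) (n : ℕ) : Bihom (n * d) (n * m) (f ^ n) := by
  induction n with
  | zero => simpa using V2K_bihom_C (1 : R)
  | succ n ih =>
    rw [pow_succ, Nat.succ_mul, Nat.succ_mul]
    exact V2K_bihom_mul ih hf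

theorem V2K_bihom_Xx (i : Fin 3) : Bihom 1 0 (Xx i : P6 R) := by
  rw [V2K_bihom_iff]
  exact isWeightedHomogeneous_X _ _ _

theorem V2K_bihom_Vv (i : Fin 3) : Bihom 0 1 (Vv i : P6 R) := by
  rw [V2K_bihom_iff]
  exact isWeightedHomogeneous_X _ _ _

theorem V2K_bihom_num {d m : ℕ} {f : P6 R} (n : ℕ) [n.AtLeastTwo] (hf : Bihom d m f) :
    Bihom d m ((OfNat.ofNat n : P6 R) * f) := by
  have := V2K_bihom_Cmul (OfNat.ofNat n : R) hf
  rwa [map_ofNat] at this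

theorem V2K_bihom_X3 : Bihom 3 0 (X3 : P6 R) :=
  V2K_bihom_mul (V2K_bihom_mul (V2K_bihom_Xx 0) (V2K_bihom_Xx 1)) (V2K_bihom_Xx 2)

theorem V2K_bihom_cub (c0 c1 c2 e : R) : Bihom 3 0 (cub c0 c1 c2 e : P6 R) :=
  V2K_bihom_add (V2K_bihom_add (V2K_bihom_add
    (V2K_bihom_Cmul _ (V2K_bihom_pow (V2K_bihom_Xx 0) 3)) (V2K_bihom_Cmul _ (V2K_bihom_pow (V2K_bihom_Xx 1) 3)))
    (V2K_bihom_Cmul _ (V2K_bihom_pow (V2K_bihom_Xx 2) 3))) (V2K_bihom_Cmul _ V2K_bihom_X3)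

theorem V2K_bihom_aP (e : R) : Bihom 3 0 (aP e) := by
  rw [aP_eq]
  exact V2K_bihom_cub _ _ _ _

theorem V2K_bihom_bP : Bihom 3 0 (bP : P6 R) := by
  rw [bP_eq]
  exact V2K_bihom_cub _ _ _ _

theorem V2K_bihom_lam (i : Fin 3) : Bihom 1 1 (lam i : P6 R) :=
  V2K_bihom_sub (V2K_bihom_mul (V2K_bihom_Xx _) (V2K_bihom_Vv _)) (V2K_bihom_mul (V2K_bihom_Xx _) (V2K_bihom_Vv _))

theorem V2K_bihom_KP : Bihom 4 2 (KP : P6 R) := by
  have h : ∀ i j l : Fin 3, Bihom 4 2 (Xx i ^ 2 * (lam j * lam l) : P6 R) := fun i j l =>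
    V2K_bihom_mul (V2K_bihom_pow (V2K_bihom_Xx i) 2) (V2K_bihom_mul (V2K_bihom_lam j) (V2K_bihom_lam l))
  exact V2K_bihom_add (V2K_bihom_add (h _ _ _) (h _ _ _)) (V2K_bihom_num 4 (h _ _ _))

theorem V2K_bihom_UP : Bihom 1 2 (UP : P6 R) := by
  have h : ∀ i j l : Fin 3, Bihom 1 2 (Xx i * Vv j * Vv l : P6 R) := fun i j l =>
    V2K_bihom_mul (V2K_bihom_mul (V2K_bihom_Xx i) (V2K_bihom_Vv j)) (V2K_bihom_Vv l)
  exact V2K_bihom_sub (V2K_bihom_sub (V2K_bihom_num 12 (h _ _ _)) (V2K_bihom_num 3 (h _ _ _)))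
    (V2K_bihom_num 9 (h _ _ _))

theorem V2K_bihom_VP : Bihom 2 1 (VP : P6 R) := by
  have h : ∀ i j l : Fin 3, Bihom 2 1 (Xx i * Xx j * Vv l : P6 R) := fun i j l =>
    V2K_bihom_mul (V2K_bihom_mul (V2K_bihom_Xx i) (V2K_bihom_Xx j)) (V2K_bihom_Vv l)
  exact V2K_bihom_sub (V2K_bihom_sub (V2K_bihom_num 4 (h _ _ _)) (h _ _ _)) (V2K_bihom_num 3 (h _ _ _))

theorem V2K_bihom_S1P : Bihom 4 2 (S1P : P6 R) := by
  refine V2K_bihom_add (V2K_bihom_mul V2K_bihom_X3 V2K_bihom_UP) ?_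
  rw [dv_X3]
  refine V2K_bihom_mul (d := 2) (m := 1) ?_ V2K_bihom_VP
  have h : ∀ i j l : Fin 3, Bihom 2 1 (Vv i * (Xx j * Xx l) : P6 R) := fun i j l =>
    V2K_bihom_mul (V2K_bihom_Vv i) (V2K_bihom_mul (V2K_bihom_Xx j) (V2K_bihom_Xx l))
  exact V2K_bihom_add (V2K_bihom_add (h _ _ _) (h _ _ _)) (h _ _ _)

theorem V2K_bihom_cast {d m d' m' : ℕ} {f : P6 R} (hf : Bihom d m f) (h : d = d') (h' : m = m') : Bihom d' m' f := by
  subst h h'
  exact hf

theorem V2K_bihom_map {S : Type} [CommRing S] (g : R →+* S) {d m : ℕ} {f : P6 R} (hf : Bihom d m f) :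
    Bihom d m (map g f) := fun s hs => hf s (support_map_subset g f hs)

theorem V2K_bihom_of_map {S : Type} [CommRing S] (g : R →+* S) (hg : Function.Injective g) {d m : ℕ} {f : P6 R}
    (hf : Bihom d m (map g f)) : Bihom d m f := by
  intro s hs
  refine hf s ?_
  rw [support_map_of_injective _ hg]
  exact hs

theorem V2K_bihom_of_Cmul [IsDomain R] {d m : ℕ} {c : R} (hc : c ≠ 0) {f : P6 R} (hf : Bihom d m (C c * f)) :
    Bihom d m f := by
  intro s hs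
  refine hf s ?_
  rw [mem_support_iff, coeff_C_mul] at *
  exact mul_ne_zero hc hs

theorem V2K_HomV {d m : ℕ} {f : P6 R} (hf : Bihom d m f) : HomV m f := fun s hs => (hf s hs).2

theorem V2K_bihom_uniq {d m d' m' : ℕ} {f : P6 R} (h0 : f ≠ 0) (hf : Bihom d m f) (hf' : Bihom d' m' f) :
    d = d' ∧ m = m' := by
  obtain ⟨s, hs⟩ := Finset.nonempty_iff_ne_empty.2 (mt support_eq_empty.1 h0)
  exact ⟨(hf s hs).1.symm.trans (hf' s hs).1, (hf s hs).2.symm.trans (hf' s hs).2⟩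

end hom

section eul

variable {R : Type} [CommRing R]

theorem V2K_eul_add (p q : P6 R) : eul (p + q) = eul p + eul q := by
  simp [eul, mul_add, Finset.sum_add_distrib]

theorem V2K_eul_sub (p q : P6 R) : eul (p - q) = eul p - eul q := by
  simp [eul, mul_sub, Finset.sum_sub_distrib]

theorem V2K_eul_mul (p q : P6 R) : eul (p * q) = p * eul q + q * eul p := by
  simp only [eul, Derivation.leibniz, smul_eq_mul, mul_add, Finset.sum_add_distrib, Finset.mul_sum]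
  congr 1 <;> exact Finset.sum_congr rfl fun i _ => by ring

theorem V2K_eul_C (c : R) : eul (C c : P6 R) = 0 := by simp [eul]

theorem V2K_eul_Xx (i : Fin 3) : eul (Xx i : P6 R) = 0 := by
  simp [eul, Xx, pderiv_X]

theorem V2K_eul_Vv (i : Fin 3) : eul (Vv i : P6 R) = Xx i := by
  simp only [eul, Vv, Xx, pderiv_X, Pi.single_apply, Sum.inr.injEq, mul_ite, mul_one, mul_zero]
  simp

theorem V2K_eul_mul0 {p q : P6 R} (hp : eul p = 0) (hq : eul q = 0) : eul (p * q) = 0 := by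
  rw [V2K_eul_mul, hp, hq, mul_zero, mul_zero, add_zero]

theorem V2K_eul_pow0 {p : P6 R} (hp : eul p = 0) (n : ℕ) : eul (p ^ n) = 0 := by
  induction n with
  | zero => simpa using V2K_eul_C (1 : R)
  | succ n ih =>
    rw [pow_succ]
    exact V2K_eul_mul0 ih hp

theorem V2K_eul_cub (c0 c1 c2 e : R) : eul (cub c0 c1 c2 e : P6 R) = 0 := by
  have h : ∀ (c : R) (i : Fin 3), eul (C c * Xx i ^ 3 : P6 R) = 0 := fun c i =>
    V2K_eul_mul0 (V2K_eul_C c) (V2K_eul_pow0 (V2K_eul_Xx i) 3)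
  have h3 : eul (X3 : P6 R) = 0 :=
    V2K_eul_mul0 (V2K_eul_mul0 (V2K_eul_Xx 0) (V2K_eul_Xx 1)) (V2K_eul_Xx 2)
  rw [cub, V2K_eul_add, V2K_eul_add, V2K_eul_add, h, h, h, V2K_eul_mul0 (V2K_eul_C e) h3]
  simp

theorem V2K_eul_aP (e : R) : eul (aP e) = 0 := by
  rw [aP_eq]
  exact V2K_eul_cub _ _ _ _

theorem V2K_eul_bP : eul (bP : P6 R) = 0 := by
  rw [bP_eq]
  exact V2K_eul_cub _ _ _ _

theorem V2K_eul_lam (i : Fin 3) : eul (lam i : P6 R) = 0 := by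
  rw [lam, V2K_eul_sub, V2K_eul_mul, V2K_eul_mul, V2K_eul_Xx, V2K_eul_Xx, V2K_eul_Vv, V2K_eul_Vv]
  ring

theorem V2K_eul_KP : eul (KP : P6 R) = 0 := by
  have h : ∀ i j l : Fin 3, eul (Xx i ^ 2 * (lam j * lam l) : P6 R) = 0 := fun i j l =>
    V2K_eul_mul0 (V2K_eul_pow0 (V2K_eul_Xx i) 2) (V2K_eul_mul0 (V2K_eul_lam j) (V2K_eul_lam l))
  have h4 : eul (4 : P6 R) = 0 := by
    have := V2K_eul_C (4 : R)
    rwa [map_ofNat] at this
  rw [KP, V2K_eul_add, V2K_eul_add, h, h, V2K_eul_mul0 h4 (h _ _ _)]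
  simp

theorem V2K_eul_of_Cmul [IsDomain R] {c : R} (hc : c ≠ 0) {f : P6 R} (hf : eul (C c * f) = 0) : eul f = 0 := by
  rw [V2K_eul_mul, V2K_eul_C, mul_zero, add_zero] at hf
  exact (mul_eq_zero.1 hf).resolve_left (mt C_eq_zero.1 hc)

end eul

end Pool.CX
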