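import Pool.Agent.Work.MP_bf99ce_cx.DefsV2

set_option autoImplicit false

noncomputable section

open MvPolynomial

namespace Pool.CX

theorem V2P_lift {k : Type} [Field k] (O : ValuationSubring k) (Q : P6 k) (h : ∀ s, Q.coeff s ∈ O) :
    ∃ Q₀ : P6 O, map (algebraMap O k) Q₀ = Q ∧ ∀ s ∈ Q.support, ((Q₀.coeff s : O) : k) = Q.coeff s := by
  refine ⟨∑ s ∈ Q.support, monomial s (⟨Q.coeff s, h s⟩ : O), ?_, ?_⟩
  · rw [map_sum]
    conv_rhs => rw [Q.as_sum]
    refine Finset.sum_congr rfl fun s _ => ?_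
    rw [map_monomial]
    rfl
  · intro s hs
    classical
    rw [coeff_sum, Finset.sum_eq_single_of_mem s hs, coeff_monomial, if_pos rfl]
    intro t _ ht
    rw [coeff_monomial, if_neg ht]

theorem p_V2P : Stmt_V2P := by
  intro k _ O P hP
  have hne : P.support.Nonempty := by
    rw [Finset.nonempty_iff_ne_empty]
    exact fun h => hP (support_eq_empty.1 h)
  obtain ⟨s0, hs0, hmax⟩ := Finset.exists_max_image P.support (fun s => O.valuation (P.coeff s)) hne
  have hz : P.coeff s0 ≠ 0 := mem_support_iff.1 hs0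
  have hO : ∀ s, (C (P.coeff s0)⁻¹ * P).coeff s ∈ O := by
    intro s
    rw [coeff_C_mul]
    by_cases hs : s ∈ P.support
    · rw [← O.valuation_le_one_iff, map_mul, map_inv₀, mul_comm, ← div_eq_mul_inv]
      exact div_le_one_of_le₀ (hmax s hs) zero_le
    · rw [notMem_support_iff.1 hs, mul_zero]
      exact O.zero_mem
  obtain ⟨P₀, h1, h2⟩ := V2P_lift O _ hO
  refine ⟨(P.coeff s0)⁻¹, P₀, inv_ne_zero hz, h1, fun h0 => ?_⟩
  have h3 : (C (P.coeff s0)⁻¹ * P).coeff s0 = 1 := by
    rw [coeff_C_mul]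
    exact inv_mul_cancel₀ hz
  have h4 : P₀.coeff s0 = 1 := by
    apply Subtype.ext
    rw [h2 s0 (by rw [mem_support_iff, h3]; exact one_ne_zero), h3]
    rfl
  have h5 := congrArg (coeff s0) h0
  rw [coeff_map, h4, map_one, coeff_zero] at h5
  exact one_ne_zero h5

end Pool.CX
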