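import Pool.Agent.Work.MP_bf99ce_cx.DefsV2

set_option autoImplicit false

noncomputable section

open MvPolynomial

namespace Pool.CX

theorem p_V2R : Stmt_V2R := by
  intro k _ _ ε hε
  let A : Subring k := (Algebra.adjoin ℚ {ε}).toSubring
  have hεA : ε ∈ A := Algebra.subset_adjoin rfl
  let I : Ideal A := Ideal.span {⟨ε, hεA⟩}
  have hI : I ≠ ⊤ := by
    rw [Ne, Ideal.eq_top_iff_one, Ideal.mem_span_singleton]
    rintro ⟨⟨z, hz⟩, h⟩
    have h' : (1 : k) = ε * z := congrArg Subtype.val h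
    obtain ⟨p, hp⟩ : ∃ p : Polynomial ℚ, Polynomial.aeval ε p = z := by
      have h1 : z ∈ Algebra.adjoin ℚ {ε} := hz
      rw [Algebra.adjoin_singleton_eq_range_aeval] at h1
      exact h1
    have h0 : Polynomial.aeval ε (1 - Polynomial.X * p) = 0 := by simp [hp, ← h']
    have h1 := (transcendental_iff.1 hε) _ h0
    have h2 := congrArg (Polynomial.eval 0) h1
    simp at h2
  obtain ⟨O, hO, hO'⟩ := Ideal.image_subset_nonunits_valuationSubring I hI
  have hεn : ε ∈ O.nonunits := hO' ⟨⟨ε, hεA⟩, Ideal.subset_span rfl, rfl⟩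
  have hεO : ε ∈ O := hO hεA
  have hres : ∀ z : O, IsLocalRing.residue O z = 0 ↔ (z : k) ∈ O.nonunits := by
    intro z
    rw [IsLocalRing.residue_eq_zero_iff, ValuationSubring.coe_mem_nonunits_iff]
  refine ⟨O, ⟨ε, hεO⟩, rfl, (hres _).2 hεn, ?_⟩
  refine charZero_of_inj_zero fun n hn => ?_
  by_contra hne
  have h1 : IsLocalRing.residue O (n : O) = 0 := by rw [map_natCast]; exact hn
  rw [IsLocalRing.residue_eq_zero_iff, IsLocalRing.mem_maximalIdeal] at h1
  apply h1
  have hinv : ((n : k))⁻¹ ∈ O := by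
    apply hO
    have h2 : algebraMap ℚ k ((n : ℚ)⁻¹) ∈ Algebra.adjoin ℚ {ε} := Subalgebra.algebraMap_mem _ _
    rw [map_inv₀, map_natCast] at h2
    exact h2
  refine IsUnit.of_mul_eq_one ⟨_, hinv⟩ ?_
  apply Subtype.ext
  have hn0 : (n : k) ≠ 0 := Nat.cast_ne_zero.2 hne
  change (((n : O) : k)) * (n : k)⁻¹ = 1
  rw [show (((n : O) : k)) = (n : k) by norm_cast]
  exact mul_inv_cancel₀ hn0

end Pool.CX
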