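import Pool.Agent.Work.MP_bf99ce_cx.DefsW

/-! # THEOREM CX, block V0-VAL (typed by helper21): the weight is a valuation at `K` -/

set_option autoImplicit false

noncomputable section

open MvPolynomial

namespace Pool.CX

theorem VAL_homX {k : Type} [CommRing k] (m : ℕ) (i : Fin 3) (P : P6 k) (h : HomV m P) :
    HomV m (Xx i * P) := by
  intro s hs
  rw [Xx, support_X_mul] at hs
  obtain ⟨s', hs', rfl⟩ := Finset.mem_map.mp hs
  rw [← h s' hs']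
  refine Finset.sum_congr rfl fun j _ => ?_
  rw [addLeftEmbedding_apply, Finsupp.add_apply, Finsupp.single_eq_of_ne, zero_add]
  simp

theorem VAL_homX3 {k : Type} [CommRing k] (m N : ℕ) (P : P6 k) (h : HomV m P) :
    HomV m (X3 ^ N * P) := by
  induction N with
  | zero =>
    rw [pow_zero, one_mul]
    exact h
  | succ N ih =>
    have e : (X3 : P6 k) ^ (N + 1) * P = Xx 0 * (Xx 1 * (Xx 2 * (X3 ^ N * P))) := by
      rw [pow_succ]
      unfold X3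
      ring
    rw [e]
    exact VAL_homX m 0 _ (VAL_homX m 1 _ (VAL_homX m 2 _ ih))

theorem VAL_core (hPHF : Stmt_PHF) (hPHB : Stmt_PHB) (hVCO : Stmt_VCO) (k : Type) [Field k]
    [CharZero k] (c0 c1 c2 : k) (hc2 : c2 ≠ 0) (m w : ℕ) (P : P6 k) (hP : HomV m P)
    (hpr : Prime (cub5 c0 c1 c2 0))
    (h0 : cub5 c0 c1 c2 0 ∣ (phi c0 c1 c2 0 KP).coeff 0)
    (h1 : ¬ cub5 c0 c1 c2 0 ∣ (phi c0 c1 c2 0 KP).coeff 1)
    (h2 : (phi c0 c1 c2 0 KP).natDegree ≤ 2) (h : Mem (cub c0 c1 c2 0) w (KP * P)) :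
    Mem (cub c0 c1 c2 0) (w - 2) P := by
  obtain ⟨N, hN⟩ := h
  have e : (X3 : P6 k) ^ N * (KP * P) = KP * (X3 ^ N * P) := by ring
  rw [e] at hN
  have h3 := hPHF k c0 c1 c2 0 w _ hN
  rw [map_mul] at h3
  have h4 := hVCO (R5 k) _ w _ _ hpr h0 h1 h2 h3
  have h5 := hPHB k c0 c1 c2 0 m (w - 2) _ (VAL_homX3 m N P hP) h4
  refine ⟨2 * m + N, ?_⟩
  have h6 := Ideal.mul_mem_left (Iw (cub c0 c1 c2 0) (w - 2))
    (C ((3 * c2)⁻¹) ^ m * (Xx 0 * Xx 1) ^ (2 * m)) h5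
  have h3c : (3 : k) * c2 ≠ 0 := mul_ne_zero three_ne_zero hc2
  have e1 : (C ((3 * c2)⁻¹) : P6 k) * C (3 * c2) = 1 := by
    rw [← C_mul, inv_mul_cancel₀ h3c, C_1]
  have e2 : C ((3 * c2)⁻¹) ^ m * (Xx 0 * Xx 1) ^ (2 * m) *
      ((C (3 * c2) * Xx 2 ^ 2 + C 0 * (Xx 0 * Xx 1)) ^ m * (X3 ^ N * P)) =
      (X3 : P6 k) ^ (2 * m + N) * P := by
    calc C ((3 * c2)⁻¹) ^ m * (Xx 0 * Xx 1) ^ (2 * m) *
          ((C (3 * c2) * Xx 2 ^ 2 + C 0 * (Xx 0 * Xx 1)) ^ m * (X3 ^ N * P))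
        = (C ((3 * c2)⁻¹) * C (3 * c2)) ^ m * (Xx 0 * Xx 1 * Xx 2) ^ (2 * m) * (X3 ^ N * P) := by
          rw [C_0, zero_mul, add_zero]
          ring
      _ = (X3 : P6 k) ^ (2 * m + N) * P := by
          rw [e1, one_pow, one_mul, pow_add]
          unfold X3
          ring
  rw [e2] at h6
  exact h6

theorem p_VAL (hPRM : Stmt_PRM) (hPHF : Stmt_PHF) (hPHB : Stmt_PHB) (hVCO : Stmt_VCO)
    (hKCO : Stmt_KCO) : Stmt_VAL := by
  intro k _ _ m w P hP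
  obtain ⟨⟨a0, a1, a2⟩, ⟨b0, b1, b2⟩⟩ := hKCO k
  have hpa : Prime (cub5 (-3 : k) 3 1 0) := by
    have h := hPRM k (Fin 3 ⊕ Fin 2) (Sum.inl 0) (Sum.inl 1) (Sum.inl 2) (by simp) (by simp)
      (by simp)
    have e : (cub5 (-3 : k) 3 1 0) = X (Sum.inl 2) ^ 3 +
        3 * (X (Sum.inl 1) ^ 3 - X (Sum.inl 0) ^ 3) := by
      unfold cub5
      simp only [map_neg, map_ofNat, map_one, map_zero]
      ring
    rw [e]
    exact h
  have hpb : Prime (cub5 (-3 : k) 1 3 0) := by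
    have h := hPRM k (Fin 3 ⊕ Fin 2) (Sum.inl 0) (Sum.inl 2) (Sum.inl 1) (by simp) (by simp)
      (by simp)
    have e : (cub5 (-3 : k) 1 3 0) = X (Sum.inl 1) ^ 3 +
        3 * (X (Sum.inl 2) ^ 3 - X (Sum.inl 0) ^ 3) := by
      unfold cub5
      simp only [map_neg, map_ofNat, map_one, map_zero]
      ring
    rw [e]
    exact h
  constructor
  · intro h
    rw [aP_eq] at h ⊢
    exact VAL_core hPHF hPHB hVCO k (-3) 3 1 one_ne_zero m w P hP hpa a0 a1 a2 h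
  · intro h
    rw [bP_eq] at h ⊢
    exact VAL_core hPHF hPHB hVCO k (-3) 1 3 three_ne_zero m w P hP hpb b0 b1 b2 h

end Pool.CX

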