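import Pool.Agent.Work.MP_bf99ce_cx.DefsW

/-! # THEOREM CX, part V0: block VCO -/

set_option autoImplicit false

noncomputable section

namespace Pool.CX

theorem VCO_step (A : Type) [CommRing A] [IsDomain A] (p : A) (w t : ℕ) (f g : Polynomial A) (hp : Prime p)
    (h0 : p ∣ f.coeff 0) (h1 : ¬ p ∣ f.coeff 1) (h2 : f.natDegree ≤ 2) (hfg : WX p w (f * g)) (ht : t + 2 < w)
    (hg : WX p t g) : WX p (t + 1) g := by
  intro l
  by_cases hl : (t + 1 - 2 * l + 2) / 3 = (t - 2 * l + 2) / 3
  · rw [hl]; exact hg l
  · have h2l : 2 * l ≤ t := by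
      by_contra h
      apply hl
      have e1 : t + 1 - 2 * l = 0 := by omega
      have e2 : t - 2 * l = 0 := by omega
      rw [e1, e2]
    obtain ⟨r, hr⟩ : ∃ r, t = 2 * l + 3 * r := by
      refine ⟨(t - 2 * l) / 3, ?_⟩
      omega
    have he : (t + 1 - 2 * l + 2) / 3 = r + 1 := by omega
    rw [he]
    apply hp.pow_dvd_of_dvd_mul_left (r + 1) h1
    have hsum : (f * g).coeff (l + 1) = f.coeff 1 * g.coeff l +
        ∑ x ∈ (Finset.HasAntidiagonal.antidiagonal (l + 1)).erase (1, l), f.coeff x.1 * g.coeff x.2 := by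
      rw [Polynomial.coeff_mul]
      exact (Finset.add_sum_erase (Finset.HasAntidiagonal.antidiagonal (l + 1)) (fun x => f.coeff x.1 * g.coeff x.2)
        (a := (1, l)) (by simp [Finset.HasAntidiagonal.mem_antidiagonal, add_comm])).symm
    have hd : p ^ (r + 1) ∣ (f * g).coeff (l + 1) := by
      refine dvd_trans (pow_dvd_pow p ?_) (hfg (l + 1))
      omega
    have hrest : p ^ (r + 1) ∣ ∑ x ∈ (Finset.HasAntidiagonal.antidiagonal (l + 1)).erase (1, l), f.coeff x.1 * g.coeff x.2 := by
      apply Finset.dvd_sum
      rintro ⟨i, j⟩ hx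
      rw [Finset.mem_erase, Finset.HasAntidiagonal.mem_antidiagonal] at hx
      obtain ⟨hne, hij⟩ := hx
      simp only at hij ⊢
      rcases Nat.lt_or_ge 2 i with hi | hi
      · rw [Polynomial.coeff_eq_zero_of_natDegree_lt (lt_of_le_of_lt h2 hi), zero_mul]
        exact dvd_zero _
      · have hi' : i = 0 ∨ i = 1 ∨ i = 2 := by omega
        rcases hi' with hi' | hi' | hi'
        · subst hi'
          have hj : j = l + 1 := by omega
          subst hj
          rw [pow_succ']
          refine mul_dvd_mul h0 (dvd_trans (pow_dvd_pow p ?_) (hg (l + 1)))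
          omega
        · exfalso
          apply hne
          subst hi'
          have : j = l := by omega
          rw [this]
        · subst hi'
          refine dvd_mul_of_dvd_right (dvd_trans (pow_dvd_pow p ?_) (hg j)) _
          omega
    rw [hsum] at hd
    exact (dvd_add_left hrest).1 hd

theorem p_VCO : Stmt_VCO := by
  intro A _ _ p w f g hp h0 h1 h2 hfg
  have key : ∀ t : ℕ, t ≤ w - 2 → WX p t g := by
    intro t
    induction t with
    | zero =>
      intro _ l
      have : (0 - 2 * l + 2) / 3 = 0 := by omega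
      rw [this, pow_zero]
      exact one_dvd _
    | succ t ih =>
      intro ht
      exact VCO_step A p w t f g hp h0 h1 h2 hfg (by omega) (ih (by omega))
  exact key (w - 2) le_rfl

end Pool.CX
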