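import Pool.Agent.Work.MP_bf99ce_cx.DefsD2

/-! # THEOREM CX, part V0: lemmas for the dictionary (proved) -/

set_option autoImplicit false

noncomputable section

open MvPolynomial

namespace Pool.CX

variable {k : Type} [CommRing k]

theorem subH_Xx (i : Fin 3) : subH (Xx i : P6 k) = Xx i ^ 3 := by
  simp [subH, Xx]

theorem subH_Vv (i : Fin 3) : subH (Vv i : P6 k) = Xx i ^ 2 * Vv i := by
  simp [subH, Vv, Xx]

theorem subH_C (c : k) : subH (C c : P6 k) = C c := by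
  simp [subH]

theorem subH_U3 : subH (V1.UU 3 : P6 k) = aP 0 := by
  simp only [V1.UU, aP, Matrix.cons_val, map_add, map_mul, map_neg, map_ofNat, subH_Xx, map_zero, zero_mul, add_zero]

theorem subH_U4 : subH (V1.UU 4 : P6 k) = bP := by
  simp only [V1.UU, bP, Matrix.cons_val, map_add, map_mul, map_neg, map_ofNat, subH_Xx]

theorem subH_Kh : subH (V1.Kh : P6 k) = X3 ^ 2 * KP := by
  simp only [V1.Kh, KP, lam, X3, map_add, map_mul, map_sub, map_ofNat, subH_Xx, subH_Vv, Fin.isValue,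
    show (0 : Fin 3) + 1 = 1 from rfl, show (0 : Fin 3) + 2 = 2 from rfl,
    show (1 : Fin 3) + 1 = 2 from rfl, show (1 : Fin 3) + 2 = 0 from rfl, show (2 : Fin 3) + 1 = 0 from rfl,
    show (2 : Fin 3) + 2 = 1 from rfl]
  ring

theorem subH_Sh : subH (V1.Sh : P6 k) = X3 ^ 4 * S1P := by
  rw [V1.Sh, S1P, dv_X3]
  simp only [UP, VP, X3, map_add, map_mul, map_sub, map_ofNat, subH_Xx, subH_Vv, Fin.isValue]
  ring

theorem IL_a (w : ℕ) : (IL (-3) 3 1 w : Ideal (P6 k)) = V1.I 3 w := by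
  have h1 : (Lc (-3) 3 1 : P6 k) = V1.UU 3 := by
    simp [Lc, V1.UU, map_neg, map_ofNat]
  have h2 : (Ly (-3) 3 1 : P6 k) = V1.YY 3 := by
    simp [Ly, V1.YY, map_neg, map_ofNat]
  simp only [IL, V1.I, h1, h2]

theorem IL_b (w : ℕ) : (IL (-3) 1 3 w : Ideal (P6 k)) = V1.I 4 w := by
  have h1 : (Lc (-3) 1 3 : P6 k) = V1.UU 4 := by
    simp [Lc, V1.UU, map_neg, map_ofNat]
  have h2 : (Ly (-3) 1 3 : P6 k) = V1.YY 4 := by
    simp [Ly, V1.YY, map_neg, map_ofNat]
  simp only [IL, V1.I, h1, h2]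

theorem Bihom.homV {d m : ℕ} {P : P6 k} (h : Bihom d m P) : HomV m P := fun s hs => (h s hs).2

theorem HomV.leV {m : ℕ} {P : P6 k} (h : HomV m P) : LeV m P := fun s hs i => by
  rw [← h s hs]
  exact Finset.single_le_sum (f := fun i => s (Sum.inr i)) (fun _ _ => Nat.zero_le _) (Finset.mem_univ i)

theorem xe_const (r : Fin 3) : (xe (fun _ => r) : P6 k) = X3 ^ (r : ℕ) := by
  simp only [xe, X3, Fin.prod_univ_three]
  ring

end Pool.CX
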