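import Pool.Agent.Work.MP_bf99ce_cx.DefsV

/-! # THEOREM CX, part V: elementary lemmas (proved) -/

set_option autoImplicit false

noncomputable section

open MvPolynomial

namespace Pool.CX

variable {k : Type} [CommRing k]

theorem aP_eq (ε : k) : aP ε = cub (-3) 3 1 ε := by
  simp only [aP, cub, X3, map_neg, map_ofNat, map_one]
  ring

theorem bP_eq : (bP : P6 k) = cub (-3) 1 3 0 := by
  simp only [bP, cub, X3, map_neg, map_ofNat, map_one, map_zero]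
  ring

theorem dv_add (p q : P6 k) : dv (p + q) = dv p + dv q := by
  simp [dv, mul_add, Finset.sum_add_distrib]

theorem dv_mul (p q : P6 k) : dv (p * q) = p * dv q + q * dv p := by
  simp only [dv, Derivation.leibniz, smul_eq_mul, mul_add, Finset.sum_add_distrib, Finset.mul_sum]
  congr 1 <;> exact Finset.sum_congr rfl fun i _ => by ring

theorem dv_X3 : dv (X3 : P6 k) = Vv 0 * (Xx 1 * Xx 2) + Vv 1 * (Xx 0 * Xx 2) + Vv 2 * (Xx 0 * Xx 1) := by
  simp only [dv, X3, Xx, Fin.sum_univ_three, Derivation.leibniz, smul_eq_mul, pderiv_X, Pi.single_apply, Sum.inl.injEq]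
  simp
  ring

theorem dv_cub (c0 c1 c2 e : k) : dv (cub c0 c1 c2 e) =
    C (3 * c0) * (Xx 0 ^ 2 * Vv 0) + C (3 * c1) * (Xx 1 ^ 2 * Vv 1) + C (3 * c2) * (Xx 2 ^ 2 * Vv 2) + C e * dv X3 := by
  rw [dv_X3]
  simp only [dv, cub, X3, Xx, Vv, Fin.sum_univ_three, map_add, Derivation.leibniz, Derivation.leibniz_pow, smul_eq_mul, pderiv_X,
    pderiv_C, Pi.single_apply, Sum.inl.injEq, map_mul, map_ofNat]
  simp
  ring

theorem dv_aP (ε : k) : dv (aP ε) =
    -9 * (Xx 0 ^ 2 * Vv 0) + 9 * (Xx 1 ^ 2 * Vv 1) + 3 * (Xx 2 ^ 2 * Vv 2) + C ε * dv X3 := by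
  rw [aP_eq, dv_cub]
  simp only [map_mul, map_neg, map_ofNat, map_one]
  ring

theorem dv_bP : dv (bP : P6 k) = -9 * (Xx 0 ^ 2 * Vv 0) + 3 * (Xx 1 ^ 2 * Vv 1) + 9 * (Xx 2 ^ 2 * Vv 2) := by
  rw [bP_eq, dv_cub]
  simp only [map_mul, map_neg, map_ofNat, map_one, map_zero]
  ring

theorem KP_eq_a : 9 * (KP : P6 k) = aP 0 * UP + dv (aP 0) * VP := by
  rw [dv_aP]
  simp only [KP, lam, aP, UP, VP, map_zero, Fin.isValue, show (0 : Fin 3) + 1 = 1 from rfl, show (0 : Fin 3) + 2 = 2 from rfl,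
    show (1 : Fin 3) + 1 = 2 from rfl, show (1 : Fin 3) + 2 = 0 from rfl, show (2 : Fin 3) + 1 = 0 from rfl,
    show (2 : Fin 3) + 2 = 1 from rfl]
  ring

theorem KP_eq_b : 9 * (KP : P6 k) = bP * UbP + dv bP * VbP := by
  rw [dv_bP]
  simp only [KP, lam, bP, UbP, VbP, Fin.isValue, show (0 : Fin 3) + 1 = 1 from rfl, show (0 : Fin 3) + 2 = 2 from rfl,
    show (1 : Fin 3) + 1 = 2 from rfl, show (1 : Fin 3) + 2 = 0 from rfl, show (2 : Fin 3) + 1 = 0 from rfl,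
    show (2 : Fin 3) + 2 = 1 from rfl]
  ring

theorem KP_eq_eps (ε : k) : 9 * KP + C ε * S1P = aP ε * UP + dv (aP ε) * VP := by
  rw [KP_eq_a, dv_aP, dv_aP]
  simp only [S1P, aP, X3, map_zero]
  ring

end Pool.CX
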