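import Pool.Agent.Work.MP_bf99ce_cx.BaseV

/-!
# THEOREM CX, part V0: the dictionary between `k[x, v]` and `k[u, y]`, `u_i = x_i^3`, `y_i = x_i^2 v_i`

Both rings are the type `P6 k`; in the ring `k[u, y]` the variable `u_i` is `Xx i` and `y_i` is `Vv i`.
For `P` of degree `≤ m` in every `v_i` one has `(x_0x_1x_2)^(2m) P = ∑_e x^e subH (Qc m e P)`, `e ∈ {0,1,2}^3`.
-/

set_option autoImplicit false

noncomputable section

open MvPolynomial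

namespace Pool.CX

/-- The substitution `u_i ↦ x_i^3`, `y_i ↦ x_i^2 v_i`. -/
def subH {k : Type} [CommRing k] : P6 k →ₐ[k] P6 k :=
  aeval (Sum.elim (fun i : Fin 3 => Xx i ^ 3) (fun i : Fin 3 => Xx i ^ 2 * Vv i))

/-- The monomial `x^e`. -/
def xe {k : Type} [CommRing k] (e : Fin 3 → Fin 3) : P6 k := ∏ i, Xx i ^ (e i : ℕ)

/-- The exponent of the image of a monomial. -/
def expo (m : ℕ) (s : Fin 3 ⊕ Fin 3 →₀ ℕ) : Fin 3 ⊕ Fin 3 →₀ ℕ :=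
  Finsupp.equivFunOnFinite.symm
    (Sum.elim (fun i => (s (Sum.inl i) + 2 * m - 2 * s (Sum.inr i)) / 3) (fun i => s (Sum.inr i)))

/-- The component `Q_e`: `x^α v^β ↦ u^((α + 2m - 2β - e)/3) y^β` if `α + 2m - 2β ≡ e (mod 3)`, and `0` otherwise. -/
def Qc {k : Type} [CommRing k] (m : ℕ) (e : Fin 3 → Fin 3) : P6 k →ₗ[k] P6 k :=
  (basisMonomials (Fin 3 ⊕ Fin 3) k).constr k fun s =>
    if ∀ i, (s (Sum.inl i) + 2 * m - 2 * s (Sum.inr i)) % 3 = (e i : ℕ) then monomial (expo m s) 1 else 0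

/-- `P` has degree `≤ m` in every `v_i`. -/
def LeV {k : Type} [CommRing k] (m : ℕ) (P : P6 k) : Prop := ∀ s ∈ P.support, ∀ i : Fin 3, s (Sum.inr i) ≤ m

/-- DQ1: the decomposition. -/
def Stmt_DQ1 : Prop :=
  ∀ (k : Type) [CommRing k] (m : ℕ) (P : P6 k), LeV m P → X3 ^ (2 * m) * P = ∑ e, xe e * subH (Qc m e P)

/-- DQ3: uniqueness of the decomposition. -/
def Stmt_DQ3 : Prop :=
  ∀ (k : Type) [CommRing k] (G : (Fin 3 → Fin 3) → P6 k), ∑ e, xe e * subH (G e) = 0 → ∀ e, G e = 0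

/-- DQ2: multiplicativity. -/
def Stmt_DQ2 : Prop :=
  ∀ (k : Type) [CommRing k] (m : ℕ) (P G : P6 k), LeV m P → LeV m (P * subH G) → ∀ e, Qc m e (P * subH G) = G * Qc m e P

/-- DQ4: the conditions at the three coordinate lines. -/
def Stmt_DQ4 : Prop :=
  ∀ (k : Type) [CommRing k] (m : ℕ) (P : P6 k), LeV m P → ∀ (e : Fin 3 → Fin 3) (i : Fin 3),
    Qc m e P ∈ Ideal.span {q : P6 k | ∃ j l : ℕ, 2 * m - (e i : ℕ) ≤ 3 * j + 2 * l ∧ q = Xx i ^ j * Vv i ^ l}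

/-- DQ7: the bidegree. -/
def Stmt_DQ7 : Prop :=
  ∀ (k : Type) [CommRing k] (d m : ℕ) (P : P6 k), Bihom d m P → ∀ (e : Fin 3 → Fin 3), ∀ s ∈ (Qc m e P).support,
    3 * (∑ i, s (Sum.inl i)) + (∑ i, (e i : ℕ)) = d + 4 * m ∧ (∑ i, s (Sum.inr i)) = m

/-- DQ8: the Euler condition. -/
def Stmt_DQ8 : Prop :=
  ∀ (k : Type) [CommRing k] (m : ℕ) (P : P6 k), HomV m P → eul P = 0 → ∀ (e : Fin 3 → Fin 3), eul (Qc m e P) = 0

/-- DQV: the generators of a homogeneous element of `Iw p w` can be taken homogeneous. -/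
def Stmt_DQV : Prop :=
  ∀ (k : Type) [CommRing k] (p : P6 k) (m w : ℕ) (F : P6 k), HomV 0 p → HomV m F → F ∈ Iw p w →
    F ∈ AddSubgroup.closure {q : P6 k | ∃ (f : P6 k) (j l : ℕ), w ≤ 3 * j + 2 * l ∧ l ≤ m ∧ HomV (m - l) f ∧ q = f * (p ^ j * dv p ^ l)}

/-- The linear form `U_3` or `U_4`. -/
def Lc {k : Type} [CommRing k] (c0 c1 c2 : k) : P6 k := C c0 * Xx 0 + C c1 * Xx 1 + C c2 * Xx 2

/-- The linear form `Y_3` or `Y_4`. -/
def Ly {k : Type} [CommRing k] (c0 c1 c2 : k) : P6 k := C c0 * Vv 0 + C c1 * Vv 1 + C c2 * Vv 2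

/-- The weight ideal of the line with the coefficients `c`. -/
def IL {k : Type} [CommRing k] (c0 c1 c2 : k) (w : ℕ) : Ideal (P6 k) :=
  Ideal.span {q | ∃ j l : ℕ, w ≤ 3 * j + 2 * l ∧ q = Lc c0 c1 c2 ^ j * Ly c0 c1 c2 ^ l}

/-- DQ6: the coordinate functions are nonzerodivisors modulo the weight ideals. -/
def Stmt_DQ6 : Prop :=
  ∀ (k : Type) [Field k] (c0 c1 c2 : k) (w : ℕ) (Z : P6 k), c0 ≠ 0 → c1 ≠ 0 → c2 ≠ 0 → X3 * Z ∈ IL c0 c1 c2 w → Z ∈ IL c0 c1 c2 w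

/-- DQ5: the conditions at the two curves. -/
def Stmt_DQ5 : Prop :=
  ∀ (k : Type) [Field k] [CharZero k] (m w : ℕ) (P : P6 k), HomV m P → ∀ e : Fin 3 → Fin 3,
    (Mem (aP 0) w P → Qc m e P ∈ IL (-3) 3 1 w) ∧ (Mem bP w P → Qc m e P ∈ IL (-3) 1 3 w)

end Pool.CX
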