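import Pool.Agent.Work.MP_bf99ce_cx.DefsV

/-!
# THEOREM CX, part V1: the special fibre in the `u`-plane (definitions and end statements)

`u_i = x_i^3` (`Xx i = X (Sum.inl i)`) and `y_i = x_i^2 v_i` (`Vv i = X (Sum.inr i)`) are the variables of `P6 k`. There are five linear
forms `UU i` in `u` and the same linear forms `YY i` in `y`; the line `UU i = 0` is tangent to a conic at the point with parameter
`tt i`: for `u_j = (s - tt j)(t - tt j)` (`j < 3`) one has `UU i = (s - tt i)(t - tt i)` for all `i < 5`, and for `y_j = s - tt j`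
(the direction of `t`) one has `YY i = s - tt i`.
-/

set_option autoImplicit false

noncomputable section

open MvPolynomial

namespace Pool.CX.V1

/-- the five parameters -/
def tt (k : Type) [CommRing k] : Fin 5 → k := ![0, 1, -1, 2, -2]

/-- the five linear forms in `u` -/
def UU {k : Type} [CommRing k] : Fin 5 → P6 k :=
  ![Xx 0, Xx 1, Xx 2, -3 * Xx 0 + 3 * Xx 1 + Xx 2, -3 * Xx 0 + Xx 1 + 3 * Xx 2]

/-- the five linear forms in `y` -/
def YY {k : Type} [CommRing k] : Fin 5 → P6 k :=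
  ![Vv 0, Vv 1, Vv 2, -3 * Vv 0 + 3 * Vv 1 + Vv 2, -3 * Vv 0 + Vv 1 + 3 * Vv 2]

/-- the weight ideal of the line `i` -/
def I {k : Type} [CommRing k] (i : Fin 5) (w : ℕ) : Ideal (P6 k) :=
  Ideal.span {q | ∃ j l : ℕ, w ≤ 3 * j + 2 * l ∧ q = UU i ^ j * YY i ^ l}

/-- the resultant form of bidegree `(2, 2)` in `(u, y)`; `Kh(x^3; x^2 v) = (x_0 x_1 x_2)^2 KP(x; v)` -/
def Kh {k : Type} [CommRing k] : P6 k := lam 0 * lam 1 + lam 0 * lam 2 + 4 * (lam 1 * lam 2)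

/-- `S(x^3; x^2 v) = (x_0 x_1 x_2)^4 S1P(x; v)`; as a polynomial it is `S1P` written in `(u, y)` -/
def Sh {k : Type} [CommRing k] : P6 k :=
  Xx 0 * Xx 1 * Xx 2 * UP + (Vv 0 * Xx 1 * Xx 2 + Xx 0 * Vv 1 * Xx 2 + Xx 0 * Xx 1 * Vv 2) * VP

/-- **V1a.** The special fibre. -/
def Stmt_V1a : Prop :=
  ∀ (k : Type) [Field k] [CharZero k] (D m : ℕ) (w : Fin 5 → ℕ) (Q : P6 k), Q ≠ 0 → Bihom D m Q → eul Q = 0 →
    (∀ i, Q ∈ I i (w i)) → 3 * (D + m) ≤ m + ∑ i, w i →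
    ∃ (c : k) (h : ℕ) (n : Fin 5 → ℕ), c ≠ 0 ∧ m = 2 * h ∧ (∀ i, w i = 2 * h + 3 * n i) ∧ D = 2 * h + ∑ i, n i ∧
      Q = C c * ((∏ i, UU i ^ n i) * Kh ^ h)

/-- **V1b.** The count: `Kh` divides `Q` if the conditions are too strong; multiples of `Kh` may be added to `Q` in each condition.
(If `3 (D + m) ≤ m + ∑ w i` and some `w i` is not divisible by `3`, the hypothesis on the numbers holds.) -/
def Stmt_V1b : Prop :=
  ∀ (k : Type) [Field k] [CharZero k] (D m : ℕ) (w : Fin 5 → ℕ) (Q : P6 k) (G : Fin 5 → P6 k), 1 ≤ m → Bihom D m Q → eul Q = 0 →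
    (∀ i, Q - Kh * G i ∈ I i (w i)) → 6 * D + 4 * m < ∑ i, (w i + 3 * ((w i + 2) / 3)) → Kh ∣ Q

/-- **V1c.** Division by `Kh` lowers the weights by `2`. -/
def Stmt_V1c : Prop :=
  ∀ (k : Type) [Field k] [CharZero k] (i : Fin 5) (w : ℕ) (Z : P6 k), Kh * Z ∈ I i w → Z ∈ I i (w - 2)

/-- **END.** The last step of the deformation argument. -/
def Stmt_END : Prop :=
  ∀ (k : Type) [Field k] [CharZero k] (D : ℕ) (n : Fin 5 → ℕ) (c : k) (Q G : P6 k), Bihom D 2 Q → D ≤ 4 + ∑ i, n i →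
    Q ∈ I 0 (4 + 3 * n 0) → Q ∈ I 1 (4 + 3 * n 1) → Q ∈ I 2 (4 + 3 * n 2) → Q ∈ I 4 (2 + 3 * n 4) →
    Q - C c * ((∏ i, UU i ^ n i) * Sh) - Kh * G ∈ I 3 (2 + 3 * n 3) → c = 0

end Pool.CX.V1
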