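import Pool.Agent.Work.MP_bf99ce_cx.DefsD
import Pool.Agent.Work.MP_bf99ce_cx.DefsV1

/-!
# THEOREM CX, part V0: from the `u`-plane statements to `Stmt_SF`, `Stmt_DF`
-/

set_option autoImplicit false

noncomputable section

open MvPolynomial

namespace Pool.CX

/-- BQ: a quotient of bihomogeneous polynomials is bihomogeneous. -/
def Stmt_BQ : Prop :=
  ∀ (k : Type) [Field k] (a b d m : ℕ) (A B : P6 k), A ≠ 0 → B ≠ 0 → Bihom a b A → Bihom d m (A * B) →
    a ≤ d ∧ b ≤ m ∧ Bihom (d - a) (m - b) B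

/-- DSF: from V1a. -/
def Stmt_DSF : Prop := V1.Stmt_V1a → Stmt_SF

/-- DDF: from V1b, V1c, END. -/
def Stmt_DDF : Prop := V1.Stmt_V1b → V1.Stmt_V1c → V1.Stmt_END → Stmt_DF

end Pool.CX
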