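import Pool.Agent.Work.MP_bf99ce_cx.Defs

/-!
# THEOREM CX, part E: the form of the existence statement used at the end (`ε` transcendental over `ℚ`)
-/

set_option autoImplicit false

noncomputable section

open MvPolynomial

namespace Pool.CX

/-- **PART E (existence), for `ε` transcendental over `ℚ`.** -/
def Stmt_E' : Prop :=
  ∀ (k : Type) [Field k] [CharZero k] (ε : k), Transcendental ℚ ε → ∀ m : ℕ, ∃ f : P10 k, Bihom 7 m f ∧
    (∀ (S : Type) [CommRing S] [IsDomain S] [Algebra k S] (x y : Fin 5 → S), x 3 ≠ 0 → x 4 ≠ 0 →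
      OnX (algebraMap k S ε) x → TanX (algebraMap k S ε) x y →
      ∑ i, x i * aeval (Sum.elim x y) (pderiv (Sum.inr i) f) = 0) ∧
    (∀ (S : Type) [Field S] [Algebra k S] (x : Fin 5 → S), x 0 = 1 → AlgebraicIndependent k ![x 1, x 2] →
      OnX (algebraMap k S ε) x → ∃ y : Fin 5 → S, TanX (algebraMap k S ε) x y ∧ aeval (Sum.elim x y) f ≠ 0)

end Pool.CX
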