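import Pool.Agent.Work.MP_bf99ce_cx.Defs

/-!
# THEOREM CX, part T2: from a twisted symmetric form on the surface `X` to the polynomials of Theorem V

`L` is a field over `k`, `x : Fin 5 → L` a point of the cone over `X` with `x_0 = 1` whose coordinates `x_1, x_2` are algebraically
independent over `k`, and `d1, d2` are the derivations `∂/∂x_1`, `∂/∂x_2`. A symmetric form of degree `m` is a homogeneous polynomial
of degree `m` in the two variables `Y_0 = dx_1`, `Y_1 = dx_2` with coefficients in `L`.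
-/

set_option autoImplicit false

noncomputable section

open MvPolynomial

namespace Pool.CXT

open Pool.CX

variable {k L : Type} [Field k] [Field L] [Algebra k L]

/-- The setting of part T2. -/
structure Set2 (ε : k) (x : Fin 5 → L) (d1 d2 : Derivation k L L) : Prop where
  x0 : x 0 = 1
  ind : AlgebraicIndependent k ![x 1, x 2]
  onX : OnX (algebraMap k L ε) x
  d11 : d1 (x 1) = 1
  d12 : d1 (x 2) = 0
  d21 : d2 (x 1) = 0
  d22 : d2 (x 2) = 1

/-- The affine coordinate ring `k[x_l / x_i : l]` of the chart `x_i ≠ 0`. -/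
def ring1 (k : Type) {L : Type} [Field k] [Field L] [Algebra k L] (x : Fin 5 → L) (i : Fin 5) : Subalgebra k L :=
  Algebra.adjoin k (Set.range fun l => x l / x i)

/-- The differential `d a = d1(a) Y_0 + d2(a) Y_1`. -/
def dif (d1 d2 : Derivation k L L) (a : L) : MvPolynomial (Fin 2) L := C (d1 a) * X 0 + C (d2 a) * X 1

/-- The symmetric forms of degree `m` which are regular on the `i`-th chart: sums of products `c da_1 ⋯ da_m` with
`c, a_j` in `k[x_l / x_i : l]`. -/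
def Sp (d1 d2 : Derivation k L L) (x : Fin 5 → L) (i : Fin 5) (m : ℕ) : AddSubgroup (MvPolynomial (Fin 2) L) :=
  AddSubgroup.closure {ψ | ∃ (c : L) (a : Fin m → L), c ∈ ring1 k x i ∧ (∀ j, a j ∈ ring1 k x i) ∧ ψ = C c * ∏ j, dif d1 d2 (a j)}

/-- **T2.** For `b ≤ m`, `1 ≤ m` the twisted symmetric power `S^m Ω_X (b)` has no nonzero section. Only the charts `0` and `1` are
used. -/
def Stmt_T2 : Prop :=
  ∀ (k L : Type) [Field k] [CharZero k] [Field L] [Algebra k L] (ε : k) (x : Fin 5 → L) (d1 d2 : Derivation k L L),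
    Transcendental ℚ ε → Set2 ε x d1 d2 → ∀ (b m : ℕ), 1 ≤ m → b ≤ m → ∀ φ : MvPolynomial (Fin 2) L,
    C ((x 0)⁻¹ ^ b) * φ ∈ Sp d1 d2 x 0 m → C ((x 1)⁻¹ ^ b) * φ ∈ Sp d1 d2 x 1 m → φ = 0

/-- The value of a polynomial in `x_0, x_1, x_2, v_0, v_1, v_2` at the generic tangent vector: `v_i = dx_i`. -/
def ev6 (x : Fin 5 → L) (d1 d2 : Derivation k L L) : P6 k →ₐ[k] MvPolynomial (Fin 2) L :=
  aeval (Sum.elim (fun i : Fin 3 => C (x (Fin.castAdd 2 i))) (fun i : Fin 3 => dif d1 d2 (x (Fin.castAdd 2 i))))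

/-- An elementary piece `x_3^r x_4^s P(x; dx)` of weight `n` and degree `m`. -/
def Piece (ε : k) (x : Fin 5 → L) (d1 d2 : Derivation k L L) (n : ℤ) (m : ℕ) (ψ : MvPolynomial (Fin 2) L) : Prop :=
  ∃ (r s : ℤ) (w w' d : ℕ) (P : P6 k), Bihom d m P ∧ eul P = 0 ∧ P ∈ Iw (aP ε) w ∧ P ∈ Iw bP w' ∧
    0 ≤ (w : ℤ) + r ∧ 0 ≤ (w' : ℤ) + s ∧ (d : ℤ) + r + s = n ∧ ψ = C (x 3 ^ r * x 4 ^ s) * ev6 x d1 d2 P

/-- The sums of the pieces of weight `n` and degree `m`. -/
def Wt (ε : k) (x : Fin 5 → L) (d1 d2 : Derivation k L L) (n : ℤ) (m : ℕ) : AddSubgroup (MvPolynomial (Fin 2) L) :=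
  AddSubgroup.closure {ψ | Piece ε x d1 d2 n m ψ}

end Pool.CXT
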