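import Pool.Agent.Work.MP_bf99ce_cx.Defs

/-!
# THEOREM CX, part V: the interface of the parts V0 (algebra of the weights), V1 (special fibre), V2 (deformation)
-/

set_option autoImplicit false

noncomputable section

open MvPolynomial

namespace Pool.CX

/-- `λ_0 = x_1 v_2 - x_2 v_1`, `λ_1 = x_2 v_0 - x_0 v_2`, `λ_2 = x_0 v_1 - x_1 v_0`. -/
def lam {k : Type} [CommRing k] (i : Fin 3) : P6 k := Xx (i + 1) * Vv (i + 2) - Xx (i + 2) * Vv (i + 1)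

/-- The form `K` of bidegree `(4, 2)`. -/
def KP {k : Type} [CommRing k] : P6 k :=
  Xx 2 ^ 2 * (lam 0 * lam 1) + Xx 1 ^ 2 * (lam 0 * lam 2) + 4 * (Xx 0 ^ 2 * (lam 1 * lam 2))

/-- `U` in `9 K = a_0 U + ξ(a_0) V`. -/
def UP {k : Type} [CommRing k] : P6 k :=
  12 * (Xx 0 * Vv 1 * Vv 2) - 3 * (Xx 1 * Vv 0 * Vv 2) - 9 * (Xx 2 * Vv 0 * Vv 1)

/-- `V` in `9 K = a_0 U + ξ(a_0) V`. -/
def VP {k : Type} [CommRing k] : P6 k :=
  4 * (Xx 1 * Xx 2 * Vv 0) - Xx 0 * Xx 2 * Vv 1 - 3 * (Xx 0 * Xx 1 * Vv 2)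

/-- `U'` in `9 K = b U' + ξ(b) V'`. -/
def UbP {k : Type} [CommRing k] : P6 k :=
  12 * (Xx 0 * Vv 1 * Vv 2) - 9 * (Xx 1 * Vv 0 * Vv 2) - 3 * (Xx 2 * Vv 0 * Vv 1)

/-- `V'` in `9 K = b U' + ξ(b) V'`. -/
def VbP {k : Type} [CommRing k] : P6 k :=
  4 * (Xx 1 * Xx 2 * Vv 0) - 3 * (Xx 0 * Xx 2 * Vv 1) - Xx 0 * Xx 1 * Vv 2

/-- The monomial `x_0 x_1 x_2`. -/
def X3 {k : Type} [CommRing k] : P6 k := Xx 0 * Xx 1 * Xx 2

/-- `S_1 = x_0 x_1 x_2 U + ξ(x_0 x_1 x_2) V`, so that `a_ε U + ξ(a_ε) V = 9 K + ε S_1`. -/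
def S1P {k : Type} [CommRing k] : P6 k := X3 * UP + dv X3 * VP

/-- `P` has weight `≥ w` along `p = 0`, outside the coordinate lines. -/
def Mem {k : Type} [CommRing k] (p : P6 k) (w : ℕ) (P : P6 k) : Prop := ∃ N : ℕ, X3 ^ N * P ∈ Iw p w

/-- **V1, SF (the special fibre `ε = 0`).** -/
def Stmt_SF : Prop :=
  ∀ (k : Type) [Field k] [CharZero k] (d m w w' : ℕ) (P : P6 k), P ≠ 0 → Bihom d m P → eul P = 0 →
    Mem (aP 0) w P → Mem bP w' P → d ≤ w + w' →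
    ∃ (c : k) (n j j' : ℕ), c ≠ 0 ∧ P = C c * (aP 0 ^ j * bP ^ j' * KP ^ n) ∧ m = 2 * n ∧ w = 2 * n + 3 * j ∧ w' = 2 * n + 3 * j'

/-- **V1, DF (no first order deformation).** -/
def Stmt_DF : Prop :=
  ∀ (k : Type) [Field k] [CharZero k] (n j j' : ℕ) (c : k) (T : P6 k), c ≠ 0 →
    Bihom (4 * n + 4 + 3 * j + 3 * j') (2 * n + 2) T → eul T = 0 → Mem bP (2 * n + 2 + 3 * j') T →
    Mem (aP 0) (2 * n + 2 + 3 * j) (T - C c * (aP 0 ^ j * bP ^ j' * KP ^ n * S1P)) → False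

/-- `P` is homogeneous of degree `m` in `v_0, v_1, v_2`. -/
def HomV {k : Type} [CommRing k] (m : ℕ) (P : P6 k) : Prop := ∀ s ∈ P.support, ∑ i : Fin 3, s (Sum.inr i) = m

/-- **V0, VAL (the weight is a valuation at `K`).** -/
def Stmt_VAL : Prop :=
  ∀ (k : Type) [Field k] [CharZero k] (m w : ℕ) (P : P6 k), HomV m P →
    (Mem (aP 0) w (KP * P) → Mem (aP 0) (w - 2) P) ∧ (Mem bP w (KP * P) → Mem bP (w - 2) P)

/-- The cubic form `c_0 x_0^3 + c_1 x_1^3 + c_2 x_2^3 + e x_0 x_1 x_2`. -/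
def cub {k : Type} [CommRing k] (c0 c1 c2 e : k) : P6 k := C c0 * Xx 0 ^ 3 + C c1 * Xx 1 ^ 3 + C c2 * Xx 2 ^ 3 + C e * X3

/-- **V0, FL (the weight condition passes to the reduction).** -/
def Stmt_FL : Prop :=
  ∀ (k : Type) [Field k] (O : ValuationSubring k) [CharZero (IsLocalRing.ResidueField O)] (c0 c1 c2 e : O) (m w : ℕ) (P : P6 O),
    IsLocalRing.residue O c2 ≠ 0 → IsLocalRing.residue O e = 0 → HomV m P →
    Mem (map (algebraMap O k) (cub c0 c1 c2 e)) w (map (algebraMap O k) P) →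
    Mem (map (IsLocalRing.residue O) (cub c0 c1 c2 e)) w (map (IsLocalRing.residue O) P)

/-- **V2, DEF (the deformation argument).** -/
def Stmt_DEF : Prop := Stmt_SF → Stmt_DF → Stmt_FL → Stmt_V

end Pool.CX
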