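import Pool.Agent.Work.MP_bf99ce_cx.BaseV

/-!
# THEOREM CX, part V2 (deformation): the interface of the blocks

`DEF : Stmt_SF → Stmt_DF → Stmt_FL → Stmt_V`. Files `B_V2X.lean`, `import Pool.Agent.Work.MP_bf99ce_cx.DefsV2`,
`namespace Pool.CX`, `theorem p_V2X (h : ..) : Stmt_V2X`, auxiliary lemmas with the prefix `V2X_`.

For a valuation subring `O` of `k`: `ι = algebraMap O k` (injective), `π = IsLocalRing.residue O`; for `z : O` we have
`π z = 0` iff `z` is not a unit; for `z : k` we have `z ∈ O` or `z⁻¹ ∈ O` (`ValuationSubring.mem_or_inv_mem`).
-/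

set_option autoImplicit false

noncomputable section

open MvPolynomial

namespace Pool.CX

/-- V2R (100 lines): the valuation ring. Proof. Let `A ⊆ k` be the subring `Algebra.adjoin ℚ {ε}` and `I` the ideal
generated by `ε` in `A`. `1 ∉ I`: otherwise `1 = ε p(ε)` for a polynomial `p` with rational coefficients, so `1 - X p = 0`
because `ε` is transcendental, but its constant coefficient is `1`. `Ideal.image_subset_nonunits_valuationSubring`: there is
a valuation subring `O` of `k` which contains `A` and such that `ε` is not a unit of `O`. A positive integer `n` is a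
unit of `O` (`n⁻¹ ∈ A`), so its residue is not zero: `CharZero`. -/
def Stmt_V2R : Prop :=
  ∀ (k : Type) [Field k] [CharZero k] (ε : k), Transcendental ℚ ε →
    ∃ (O : ValuationSubring k) (e : O), (e : k) = ε ∧ IsLocalRing.residue O e = 0 ∧
      CharZero (IsLocalRing.ResidueField O)

/-- V2P (100 lines): primitive polynomials. Proof. On the finite nonempty set of the coefficients of `P` there is a
coefficient `z ≠ 0` such that `y / z ∈ O` for all coefficients `y` of `P` (the relation `y / z ∈ O` is a total preorder on
nonzero elements; induction on a finite set, or maximise `O.valuation`, `ValuationSubring.valuation_le_one_iff`). Let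
`P₀` be the polynomial with the coefficients `y / z`. One of its coefficients is `1`, with residue `1`. -/
def Stmt_V2P : Prop :=
  ∀ (k : Type) [Field k] (O : ValuationSubring k) (P : P6 k), P ≠ 0 → ∃ (c : k) (P₀ : P6 O), c ≠ 0 ∧
    map (algebraMap O k) P₀ = C c * P ∧ map (IsLocalRing.residue O) P₀ ≠ 0

/-- V2C (100 lines; uses V2P): the content of a polynomial over `O`. Proof. If `R = 0` take `R' = 0`. Otherwise V2P for the image of `R`:
with the notation there, `z = c⁻¹` is a coefficient of `R` up to a unit; more directly: let `r ∈ O` be a coefficient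
of `R` which divides all coefficients of `R` (total divisibility, as in V2P), `R = C r * R'` and one coefficient of `R'`
is `1`, so `map π R' ≠ 0`. If `e` divides `r`, then `e` divides `R`. Otherwise `r` divides `e`, `e = r * r'`, and `r'` is not a
unit (otherwise `e` would divide `r`), so its residue is zero. -/
def Stmt_V2C : Prop :=
  ∀ (k : Type) [Field k] (O : ValuationSubring k) (e : O) (R : P6 O), e ≠ 0 →
    (∃ R' : P6 O, R = C e * R') ∨ ∃ (r r' : O) (R' : P6 O), r ≠ 0 ∧ R = C r * R' ∧ e = r * r' ∧
      IsLocalRing.residue O r' = 0 ∧ map (IsLocalRing.residue O) R' ≠ 0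

end Pool.CX
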