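import Pool.Agent.Work.MP_bf99ce_cx.DefsT2
import Pool.Agent.Work.MP_bf99ce_cx.BaseV

/-!
# THEOREM CX, part T2: the blocks
-/

set_option autoImplicit false

noncomputable section

open MvPolynomial

namespace Pool.CXT

open Pool.CX

/-- **T2BI.** `Bihom` is closed under products, sums, negation; the degrees of the basic polynomials. -/
def Stmt_BI : Prop :=
  ∀ (k : Type) [Field k] (P Q : P6 k) (d d' m m' : ℕ),
    (Bihom d m P → Bihom d' m' Q → Bihom (d + d') (m + m') (P * Q)) ∧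
    (Bihom d m P → Bihom d m Q → Bihom d m (P + Q)) ∧ (Bihom d m P → Bihom d m (-P)) ∧ Bihom d m (0 : P6 k) ∧
    (∀ c : k, Bihom 0 0 (C c : P6 k)) ∧ (∀ i, Bihom 1 0 (Xx i : P6 k)) ∧ (∀ i, Bihom 0 1 (Vv i : P6 k)) ∧
    (∀ ε : k, Bihom 3 0 (aP ε) ∧ Bihom 2 1 (dv (aP ε))) ∧ Bihom 3 0 (bP : P6 k) ∧ Bihom 2 1 (dv (bP : P6 k)) ∧
    ∀ n : ℕ, Bihom d m P → Bihom (n * d) (n * m) (P ^ n)

/-- **T2EU.** `eul` is a derivation; its values at the basic polynomials (`eul (dv a) = 3 a` by Euler's relation). -/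
def Stmt_EU : Prop :=
  ∀ (k : Type) [Field k] (P Q : P6 k),
    eul (P + Q) = eul P + eul Q ∧ eul (-P) = -eul P ∧ eul (P * Q) = P * eul Q + Q * eul P ∧
    (∀ c : k, eul (C c : P6 k) = 0) ∧ (∀ i, eul (Xx i : P6 k) = 0) ∧ (∀ i, eul (Vv i : P6 k) = Xx i) ∧
    (∀ ε : k, eul (aP ε) = 0 ∧ eul (dv (aP ε)) = 3 * aP ε) ∧ eul (bP : P6 k) = 0 ∧ eul (dv (bP : P6 k)) = 3 * bP ∧
    ∀ n : ℕ, eul P = 0 → eul (P ^ n) = 0

/-- **T2IW.** The ideals `Iw p w`: they decrease with `w`, `Iw p w * Iw p w' ⊆ Iw p (w + w')` (two span inductions),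
`p ^ n ∈ Iw p (3 n)`, `dv p ∈ Iw p 2`, `Iw p 0 = ⊤`. -/
def Stmt_IW : Prop :=
  ∀ (k : Type) [Field k] (p P Q : P6 k) (w w' : ℕ),
    (P ∈ Iw p w → Q ∈ Iw p w' → P * Q ∈ Iw p (w + w')) ∧ (w' ≤ w → P ∈ Iw p w → P ∈ Iw p w') ∧
    (∀ n : ℕ, p ^ n ∈ Iw p (3 * n)) ∧ dv p ∈ Iw p 2 ∧ P ∈ Iw p 0

/-- **T2EV.** The values: `ev6 x d1 d2` of `Xx i`, `Vv i`, `aP ε`, `bP`, `dv (aP ε)`, `dv bP`, and `x_3, x_4 ≠ 0`. The last two:
apply `d1`, `d2` to the equations `x_3^3 = a`, `x_4^3 = b` (`3 x_3^2 dx_3 = da(x)(dx)`). `x_3 ≠ 0` because `a(1, x_1, x_2)` is the value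
of a nonzero polynomial at the algebraically independent `x_1, x_2` (coefficient of `X_1^3` is `3`). -/
def Stmt_EV : Prop :=
  ∀ (k L : Type) [Field k] [CharZero k] [Field L] [Algebra k L] (ε : k) (x : Fin 5 → L) (d1 d2 : Derivation k L L),
    Set2 ε x d1 d2 → x 3 ≠ 0 ∧ x 4 ≠ 0 ∧ x 1 ≠ 0 ∧
      (∀ i : Fin 3, ev6 x d1 d2 (Xx i) = C (x (Fin.castAdd 2 i))) ∧
      (∀ i : Fin 3, ev6 x d1 d2 (Vv i) = dif d1 d2 (x (Fin.castAdd 2 i))) ∧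
      ev6 x d1 d2 (aP ε) = C (x 3 ^ 3) ∧ ev6 x d1 d2 bP = C (x 4 ^ 3) ∧
      ev6 x d1 d2 (dv (aP ε)) = C (3 * x 3 ^ 2) * dif d1 d2 (x 3) ∧
      ev6 x d1 d2 (dv bP) = C (3 * x 4 ^ 2) * dif d1 d2 (x 4)

/-- **T2SM.** `Wt` is multiplicative (two closure inductions; on pieces: `r + r'`, `s + s'`, `w + w'`, `d + d'`, `P * P'`,
`x_3, x_4 ≠ 0`). -/
def Stmt_SM : Prop :=
  ∀ (k L : Type) [Field k] [CharZero k] [Field L] [Algebra k L] (ε : k) (x : Fin 5 → L) (d1 d2 : Derivation k L L),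
    Set2 ε x d1 d2 → ∀ (n n' : ℤ) (m m' : ℕ) (ψ ψ' : MvPolynomial (Fin 2) L), ψ ∈ Wt ε x d1 d2 n m → ψ' ∈ Wt ε x d1 d2 n' m' →
      ψ * ψ' ∈ Wt ε x d1 d2 (n + n') (m + m')

/-- **T2GEN.** The generators. `x_l` has weight `1` (`l ≤ 2`: `P = Xx l`, `r = s = 0`; `l = 3`: `P = 1`, `r = 1`; `l = 4`: `P = 1`,
`s = 1`), constants of `k` have weight `0`, and for `i = 0, 1` the form `x_i dx_l - x_l dx_i` has weight `1` and degree `1`:
`l ≤ 2`: `P = Xx i * Vv l - Xx l * Vv i`; `l = 3`: `3 (x_i dx_3 - x_3 dx_i) = x_3^(-2) P`, `P = Xx i * dv (aP ε) - 3 * aP ε * Vv i`,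
`r = -2`, `w = 2`, `d = 3` (divide by `3`, `P` times `C (1/3)`); `l = 4` the same with `bP`. (`eul (dv a) = 3 a`.) -/
def Stmt_GEN : Prop :=
  ∀ (k L : Type) [Field k] [CharZero k] [Field L] [Algebra k L] (ε : k) (x : Fin 5 → L) (d1 d2 : Derivation k L L),
    Set2 ε x d1 d2 → (∀ c : k, C (algebraMap k L c) ∈ Wt ε x d1 d2 0 0) ∧ (∀ l, C (x l) ∈ Wt ε x d1 d2 1 0) ∧
      ∀ l, (C (x 0) * dif d1 d2 (x l) - C (x l) * dif d1 d2 (x 0) ∈ Wt ε x d1 d2 1 1) ∧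
        (C (x 1) * dif d1 d2 (x l) - C (x l) * dif d1 d2 (x 1) ∈ Wt ε x d1 d2 1 1)

/-- **T2CH.** Elements of the chart ring and their differentials: for `i = 0, 1` and `a ∈ k[x_l / x_i]` there is `N_0` such that for
all `N ≥ N_0`: `x_i^N a` has weight `N` and `x_i^N da` has weight `N - 1`, degree `1`. (`Algebra.adjoin_induction` for both statements
together; `x_i^2 d(x_l / x_i) = x_i dx_l - x_l dx_i`, `d(a b) = a db + b da`; raising `N` by multiplication with `x_i`.) -/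
def Stmt_CH : Prop :=
  ∀ (k L : Type) [Field k] [CharZero k] [Field L] [Algebra k L] (ε : k) (x : Fin 5 → L) (d1 d2 : Derivation k L L),
    Set2 ε x d1 d2 → ∀ i : Fin 5, (i = 0 ∨ i = 1) → ∀ a ∈ ring1 k x i, ∃ N0 : ℕ, ∀ N : ℕ, N0 ≤ N →
      C (x i ^ N) * C a ∈ Wt ε x d1 d2 N 0 ∧ C (x i ^ N) * dif d1 d2 a ∈ Wt ε x d1 d2 ((N : ℤ) - 1) 1

/-- **T2RG.** A regular form `ψ` of degree `m` on the chart `i`: `x_i^N ψ` has weight `N - m` and degree `m` for all large `N`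
(closure induction; a product `c da_1 ⋯ da_m` by induction over the finite product, from CH and SM). -/
def Stmt_RG : Prop :=
  ∀ (k L : Type) [Field k] [CharZero k] [Field L] [Algebra k L] (ε : k) (x : Fin 5 → L) (d1 d2 : Derivation k L L),
    Set2 ε x d1 d2 → ∀ i : Fin 5, (i = 0 ∨ i = 1) → ∀ (m : ℕ) (ψ : MvPolynomial (Fin 2) L), ψ ∈ Sp d1 d2 x i m →
      ∃ N0 : ℕ, ∀ N : ℕ, N0 ≤ N → C (x i ^ N) * ψ ∈ Wt ε x d1 d2 ((N : ℤ) - m) m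

/-- **T2COL.** Collecting the exponents modulo `3`: for all large `M`
`(x_3 x_4)^(3M) ψ = ∑_(p, q < 3) x_3^p x_4^q P_pq(x; dx)` with `P_pq` of bidegree `(6M + n - p - q, m)`, `eul P_pq = 0`,
`P_pq ∈ Iw a (3M - p)`, `P_pq ∈ Iw b (3M - q)`. (Closure induction; a piece with exponents `r, s`: `p = r mod 3`, `q = s mod 3`,
`r + 3M = p + 3c`, `s + 3M = q + 3c'`, `P_pq = a^c b^c' P`, the others `0`; `C (x_3^3) = ev6 (aP ε)`, `a^c ∈ Iw a (3c)`.) -/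
def Stmt_COL : Prop :=
  ∀ (k L : Type) [Field k] [CharZero k] [Field L] [Algebra k L] (ε : k) (x : Fin 5 → L) (d1 d2 : Derivation k L L),
    Set2 ε x d1 d2 → ∀ (n : ℤ) (m : ℕ) (ψ : MvPolynomial (Fin 2) L), ψ ∈ Wt ε x d1 d2 n m →
      ∃ M0 : ℕ, ∀ M : ℕ, M0 ≤ M → ∃ P : Fin 3 → Fin 3 → P6 k,
        (∀ p q : Fin 3, (∃ d : ℕ, (d : ℤ) = 6 * M + n - (p : ℕ) - (q : ℕ) ∧ Bihom d m (P p q)) ∧ eul (P p q) = 0 ∧
          P p q ∈ Iw (aP ε) (3 * M - (p : ℕ)) ∧ P p q ∈ Iw bP (3 * M - (q : ℕ))) ∧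
        C ((x 3 * x 4) ^ (3 * M)) * ψ = ∑ p : Fin 3, ∑ q : Fin 3, C (x 3 ^ (p : ℕ) * x 4 ^ (q : ℕ)) * ev6 x d1 d2 (P p q)

/-- **T2CU.** Cubes: if `c, e` are polynomials in `x_1, x_2` (values at the independent `x_1, x_2`), `c ≠ 0`, and
`c^3 a^i b^j = e^3` with `i, j ≤ 2`, then `i = j = 0`. Proof: in `k[z_1, z_2]`, divide `c, e` by their common power of `z_1` and put
`z_1 = 0`: `c(0,z)^3 (z^3 - 3)^i (3 z^3 - 3)^j = e(0,z)^3` with `c(0,z) ≠ 0` or `e(0,z) ≠ 0`, hence both; compare root multiplicities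
at a root of `z^3 - 3` and at `z = 1` in an algebraic closure (both polynomials are squarefree and coprime). -/
def Stmt_CU : Prop :=
  ∀ (k : Type) [Field k] [CharZero k] (ε : k) (c e : MvPolynomial (Fin 2) k) (i j : ℕ), c ≠ 0 → i ≤ 2 → j ≤ 2 →
    c ^ 3 * (-3 + 3 * X 0 ^ 3 + X 1 ^ 3 + C ε * (X 0 * X 1)) ^ i * (-3 + X 0 ^ 3 + 3 * X 1 ^ 3) ^ j = e ^ 3 → i = 0 ∧ j = 0

/-- **T2KU.** Kummer independence: if `K` is a subfield of `L`, `u^3, v^3 ∈ K` (`u, v ∈ L`), and no product `(u^3)^i (v^3)^j` with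
`(i, j) ≠ (0, 0)`, `i, j ≤ 2`, is a cube in `K`, then the nine products `u^p v^q` (`p, q < 3`) are linearly independent over `K`.
(`char ≠ 3`.) Proof: `X^3 - u^3` is irreducible over `K` (`X_pow_sub_C_irreducible_of_prime`), so `1, u, u^2` is a basis of `K(u)`.
If `v^3 = y^3` with `y = α + β u + γ u^2`, expand: with `A = u^3` the coefficients of `u` and `u^2` are `3(α²β + Aαγ² + Aβ²γ)` and
`3(αβ² + α²γ + Aβγ²)`; `β` times the first minus `α` times the second is `3γ(Aβ³ - α³)`, so `γ = 0` or `A` is a cube or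
`β = α = 0`; in all cases `y` is `α`, `β u` or `γ u²` and `v^3`, `v^3 A^2` or `v^3 A` is a cube in `K`. So `X^3 - v^3` is irreducible
over `K(u)`. -/
def Stmt_KU : Prop :=
  ∀ (L : Type) [Field L] [CharZero L] (K : Subfield L) (u v : L), u ^ 3 ∈ K → v ^ 3 ∈ K →
    (∀ (i j : ℕ) (z : L), i ≤ 2 → j ≤ 2 → z ∈ K → (u ^ 3) ^ i * (v ^ 3) ^ j = z ^ 3 → i = 0 ∧ j = 0) →
    ∀ g : Fin 3 → Fin 3 → L, (∀ p q, g p q ∈ K) → ∑ p : Fin 3, ∑ q : Fin 3, g p q * (u ^ (p : ℕ) * v ^ (q : ℕ)) = 0 → ∀ p q, g p q = 0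

/-- **T2LI.** The products `x_3^p x_4^q` (`p, q < 3`) are linearly independent over the values of the polynomials in
`x_0, x_1, x_2, v_0, v_1, v_2` (coefficients in `Y_0, Y_1` lie in the field `k(x_1, x_2)`; CU and KU). -/
def Stmt_LI : Prop :=
  ∀ (k L : Type) [Field k] [CharZero k] [Field L] [Algebra k L] (ε : k) (x : Fin 5 → L) (d1 d2 : Derivation k L L),
    Set2 ε x d1 d2 → ∀ P : Fin 3 → Fin 3 → P6 k,
      ∑ p : Fin 3, ∑ q : Fin 3, C (x 3 ^ (p : ℕ) * x 4 ^ (q : ℕ)) * ev6 x d1 d2 (P p q) = 0 → ∀ p q, ev6 x d1 d2 (P p q) = 0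

/-- **T2IN.** A bihomogeneous `P` with `eul P = 0` which vanishes at the generic tangent vector is `0`. Proof: `v_0 = dx_0 = 0` and
`x_0 = 1`, `x_1, x_2, Y_0, Y_1` are algebraically independent over `k`, so `P(1, x_1, x_2; 0, v_1, v_2) = 0`, and by homogeneity in
`x` every monomial of `P` contains `v_0`. If `P ≠ 0` write `P = v_0^e Q`, `e ≥ 1`, `Q` not divisible by `v_0`:
`0 = eul P = e x_0 v_0^(e-1) Q + v_0^e eul Q`, so `v_0` divides `e x_0 Q`, contradiction. -/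
def Stmt_IN : Prop :=
  ∀ (k L : Type) [Field k] [CharZero k] [Field L] [Algebra k L] (ε : k) (x : Fin 5 → L) (d1 d2 : Derivation k L L),
    Set2 ε x d1 d2 → ∀ (d m : ℕ) (P : P6 k), Bihom d m P → eul P = 0 → ev6 x d1 d2 P = 0 → P = 0

/-- **T2DV.** Division by a power of `x_0`: if `x_1^N' P = x_0^N P'` then `P = x_0^N Q`; `Q` inherits `eul = 0` and the
bihomogeneity (`Xx 0` is prime and does not divide `Xx 1`; or directly on the supports). -/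
def Stmt_DV : Prop :=
  ∀ (k : Type) [Field k] (N N' : ℕ) (P P' : P6 k), Xx 1 ^ N' * P = Xx 0 ^ N * P' →
    ∃ Q : P6 k, P = Xx 0 ^ N * Q ∧ (eul P = 0 → eul Q = 0) ∧ ∀ d m : ℕ, Bihom (d + N) m P → Bihom d m Q

/-- **T2FIN.** Part T2 from Theorem V. `x_0^(N_0) φ = φ` has weight `N_0 + b - m`, `x_1^(N_1) φ` has weight `N_1 + b - m` (RG with
`ψ = C (x_i^(-b)) * φ`, exponent `N_i + b`). COL for both with one `M` (`M ≥ 1`, `3 M ≥ m` ...): `P^0_pq`, `P^1_pq`. LI: the values of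
`x_1^(N_1) P^0_pq` and `P^1_pq` agree, by IN `Xx 1^(N_1) P^0_pq = Xx 0^(N_0) P^1_pq` (both of bidegree
`(6M + N_0 + N_1 + b - m - p - q, m)`), by DV `P^0_pq = Xx 0^(N_0) Q`, `Q` of bidegree `(6M + b - m - p - q, m)`, and Theorem V with
`w = 3M - p`, `w' = 3M - q`, `N = N_0` gives `Q = 0`. So `(x_3 x_4)^(3M) φ = 0`. -/
def Stmt_FIN : Prop := Stmt_V → Stmt_T2

end Pool.CXT
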