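import Pool.Agent.Work.MP_bf99ce_cx.DefsT
import Pool.Agent.Work.MP_bf99ce_cx.InterfaceT2

/-!
# THEOREM CX, part S: the model `Y = X × X`, its smoothness

The block `X` is a file `Pool/Agent/Work/MP_bf99ce_cx/B_SX.lean` (table `cxs_blocks`) which imports this file and contains, in the
namespace `Pool.CXS`, `theorem p_X (h1 : Stmt_Y) (h2 : Stmt_Z) … : Stmt_X` with exactly the blocks which the docstring lists as used,
in this order (`KU`, `CU` are `CXT.Stmt_KU`, `CXT.Stmt_CU`); auxiliary lemmas have the prefix `X_`.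
-/

set_option autoImplicit false

noncomputable section

open MvPolynomial TensorProduct

namespace Pool.CXS

open Pool.CX

/-- The first equation of the cone over `X`. -/
def FX {k : Type} [Field k] (ε : k) : MvPolynomial (Fin 5) k := X 3 ^ 3 - av (C ε) X

/-- The second equation of the cone over `X`. -/
def GX {k : Type} [Field k] : MvPolynomial (Fin 5) k := X 4 ^ 3 - bv X

/-- The ideal of the `i`-th chart. -/
def IX {k : Type} [Field k] (ε : k) (i : Fin 5) : Ideal (MvPolynomial (Fin 5) k) :=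
  Ideal.span {X i - 1, FX ε, GX}

/-- `x` is a generic point of `X` over `k`. -/
structure GP {k L : Type} [Field k] [Field L] [Algebra k L] (ε : k) (x : Fin 5 → L) : Prop where
  x0 : x 0 = 1
  ind : AlgebraicIndependent k ![x 1, x 2]
  onX : OnX (algebraMap k L ε) x

/-- **IND** (70 lines; uses KU, CU). The products `x_3^p x_4^q`, `p, q < 3`, are linearly independent over `k[x_1, x_2]`.
PROOF. Let `K` be the subfield `k(x_1, x_2)` of `L` (`(IntermediateField.adjoin k (Set.range ![x 1, x 2])).toSubfield`). `x_3^3` and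
`x_4^3` are the values at `![x 1, x 2]` of the two polynomials `A = -3 + 3 X_0^3 + X_1^3 + C ε (X_0 X_1)`, `B = -3 + X_0^3 + 3 X_1^3` of
Stmt_CU (`x 0 = 1`). If `z ∈ K` and `(x_3^3)^i (x_4^3)^j = z^3`, write `z = aeval e / aeval c`, `c ≠ 0`
(`IntermediateField.mem_adjoin_range_iff`); if `aeval c = 0` then `z = 0` and `x_3^3 = 0` or `x_4^3 = 0`, impossible since `A, B ≠ 0`
(or take `e = 0`, `c = 1`); so `aeval (c^3 A^i B^j - e^3) = 0`, `c^3 A^i B^j = e^3` by algebraic independence, `i = j = 0` by CU. Now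
KU gives `aeval (h p q) = 0`, so `h p q = 0`. -/
def Stmt_IND : Prop :=
  ∀ (k L : Type) [Field k] [CharZero k] [Field L] [Algebra k L] (ε : k) (x : Fin 5 → L), GP ε x →
    ∀ h : Fin 3 → Fin 3 → MvPolynomial (Fin 2) k,
      ∑ p : Fin 3, ∑ q : Fin 3, aeval ![x 1, x 2] (h p q) * (x 3 ^ (p : ℕ) * x 4 ^ (q : ℕ)) = 0 → ∀ p q, h p q = 0

/-- **NEZ** (30 lines). The coordinates are not zero.
PROOF. `x 0 = 1`; `x 1 = 0` contradicts algebraic independence (`X 0 ≠ 0`); `x_3 = 0` gives `aeval A = 0`, `A` as in IND, and `A ≠ 0`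
(its coefficient at `X_0^3` is `3`; or put `X_1 = X_0 = 0`: the constant coefficient is `-3`). -/
def Stmt_NEZ : Prop :=
  ∀ (k L : Type) [Field k] [CharZero k] [Field L] [Algebra k L] (ε : k) (x : Fin 5 → L), GP ε x → ∀ i, x i ≠ 0

/-- **HOM** (150 lines; uses IND). A homogeneous polynomial which vanishes at `x` is in the ideal `(F, G)`.
PROOF. For a monomial `y^α` write `α_3 = 3 u + p`, `α_4 = 3 v + q`, `p, q < 3`. Modulo `(F, G)` it is congruent to
`y_0^α_0 y_1^α_1 y_2^α_2 a(y)^u b(y)^v y_3^p y_4^q` (`F = y_3^3 - a`, `G = y_4^3 - b`). So `h` is congruent to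
`∑ h_pq y_3^p y_4^q`, `h_pq` a polynomial in `y_0, y_1, y_2` (the image of a polynomial in `Fin 3` under `rename (Fin.castAdd 2)`),
homogeneous of degree `N - p - q` (`0` if `N < p + q`; `a`, `b` are homogeneous of degree 3). Evaluate at `x`:
`∑ h_pq(1, x_1, x_2) x_3^p x_4^q = 0`. By IND `h_pq(1, X_0, X_1) = 0` in `k[X_0, X_1]`, and a homogeneous polynomial in `y_0, y_1, y_2`
with `h(1, X_0, X_1) = 0` is zero (its monomials of degree `n` go to distinct monomials: `α_0 = n - α_1 - α_2`). So `h ∈ (F, G)`. -/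
def Stmt_HOM : Prop :=
  ∀ (k L : Type) [Field k] [CharZero k] [Field L] [Algebra k L] (ε : k) (x : Fin 5 → L), GP ε x →
    ∀ (N : ℕ) (h : MvPolynomial (Fin 5) k), h.IsHomogeneous N → aeval x h = 0 → h ∈ Ideal.span {FX ε, GX}

/-- **KER** (90 lines; uses NEZ, HOM). The kernel of `k[y_0, …, y_4] → L`, `y_l ↦ x_l / x_i`, is the ideal `(y_i - 1, F, G)`.
PROOF. `⇐`: `OnX` is homogeneous, so `F`, `G` vanish at `x / x_i`. `⇒`: let `N` be at least the total degree of `h` and
`h' = ∑_α h_α y^α y_i^(N - |α|)`, homogeneous of degree `N`. `aeval x h' = x_i^N aeval (x / x_i) h = 0`, so `h' ∈ (F, G)` by HOM.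
`h' - h ∈ (y_i - 1)` (`y_i^n - 1` is divisible by `y_i - 1`). -/
def Stmt_KER : Prop :=
  ∀ (k L : Type) [Field k] [CharZero k] [Field L] [Algebra k L] (ε : k) (x : Fin 5 → L), GP ε x →
    ∀ (i : Fin 5) (h : MvPolynomial (Fin 5) k), aeval (fun l => x l / x i) h = 0 ↔ h ∈ IX ε i

/-- **NUL** (120 lines). `X` is smooth: the equations and the minors have no common zero but the origin.
PROOF. `mnr 3 4 = 9 y_3^2 y_4^2`, so `y_3 = 0` or `y_4 = 0`.
Case `y_3 = 0`, `y_4 ≠ 0`: `mnr p 4 = ja p * (-3 y_4^2)` for `p = 0, 1, 2`, so `ja p = 0`: `9 y_0^2 = ε y_1 y_2`,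
`9 y_1^2 = - ε y_0 y_2`, `3 y_2^2 = - ε y_0 y_1`. Multiply by `y_0, y_1, y_2`: with `s = ε y_0 y_1 y_2`, `9 y_0^3 = s`,
`9 y_1^3 = -s`, `3 y_2^3 = -s`; product: `243 (y_0 y_1 y_2)^3 = s^3 = ε^3 (y_0 y_1 y_2)^3`. If `y_0 y_1 y_2 ≠ 0` then `ε^3 = 243`,
contradiction (`ε` is not algebraic); so `s = 0`, `y_0 = y_1 = y_2 = 0`, `y_4^3 = b = 0`, contradiction.
Case `y_4 = 0`, `y_3 ≠ 0`: `mnr 3 q = -3 y_3^2 * jb q`, so `y_0 = y_1 = y_2 = 0`, `y_3^3 = a = 0`, contradiction.
Case `y_3 = y_4 = 0`: put `u = y_0^3`, `v = y_1^3`, `w = y_2^3`, `s = ε y_0 y_1 y_2`. `3 a - b = 0`: `8 v = 6 u - 3 s`;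
`a - 3 b = 0`: `8 w = 6 u + s`. If `y_0 = 0` then `u = s = 0`, `v = w = 0`, all zero. Let `y_0 ≠ 0`.
`y_0 y_1 mnr 0 1 = 54 u v + 3 s (v + 3 u) = 0` gives, with `8 v = 6 u - 3 s`, `s^2 + 8 s u - 36 u^2 = 0`. And
`s^3 = ε^3 u v w`, that is `64 s^3 = ε^3 u (6 u - 3 s) (6 u + s)`. With `σ = s / u`: `σ^2 + 8 σ = 36` and
`64 σ^3 = ε^3 (6 - 3 σ) (6 + σ) = ε^3 (36 - 12 σ - 3 σ^2) = ε^3 (12 σ - 72)`; `σ` is algebraic over `ℚ` and `σ ≠ 6`, so `ε^3`
and `ε` are algebraic over `ℚ`, contradiction. (`IsAlgebraic` is closed under field operations; `σ` is a root of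
`X^2 + 8 X - 36`.) -/
def Stmt_NUL : Prop :=
  ∀ ε : ℂ, Transcendental ℚ ε → ∀ y : Fin 5 → ℂ, OnX ε y → (∀ p q, mnr ε y p q = 0) → y = 0

/-- **MIN** (90 lines; uses NUL). In every chart the minors generate the unit ideal.
PROOF. Let `J` be the ideal of `ℂ[y_0, …, y_4]` spanned by `y_i - 1`, `F`, `G` and the `mnr (C ε) X p q`. By NUL it has no zero in
`ℂ^5`, so `J = ⊤` (Nullstellensatz, `MvPolynomial.vanishingIdeal_zeroLocus_eq_radical`, or: a maximal ideal containing `J` is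
`vanishingIdeal {y}`, `MvPolynomial.isMaximal_iff_eq_vanishingIdeal_singleton`). Write `1` in the sum of the ideals
`span {y_i - 1, F, G}` and `span (range of the minors)` (`Submodule.mem_sup`, `Ideal.mem_span_range_iff_exists_fun` with the index
type `Fin 5 × Fin 5`). -/
def Stmt_MIN : Prop :=
  ∀ ε : ℂ, Transcendental ℚ ε → ∀ i : Fin 5, ∃ g : Fin 5 → Fin 5 → MvPolynomial (Fin 5) ℂ,
    ∑ p, ∑ q, g p q * mnr (C ε) X p q - 1 ∈ IX ε i

/-- **MNU** (40 lines; uses KER, MIN).
PROOF. Apply `aeval (fun l => x l / x i)` to MIN; the element of `IX ε i` goes to `0` (KER), `g p q` goes to an element of the chart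
(`Algebra.adjoin_range_eq_range_aeval`), `mnr (C ε) X p q` to `mnr _ (fun l => x l / x i) p q`. -/
def Stmt_MNU : Prop :=
  ∀ (K : Type) [Field K] [Algebra ℂ K] (ε : ℂ) (x : Fin 5 → K), Transcendental ℚ ε → GP ε x → MinU ε x

/-- **NEW** (130 lines). The Jacobian criterion, by Newton's method: if modulo the ideal `(f_1, …, f_r)` the Jacobian matrix has a
right inverse then the quotient is smooth.
PROOF. Finite presentation: quotient of a polynomial ring in finitely many variables by a finitely generated ideal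
(`Algebra.FinitePresentation.quotient`). Formally smooth: either by `Algebra.FormallySmooth.iff_split_injection` (for
`P = MvPolynomial`, formally smooth, the map `I / I^2 → (P / I) ⊗ Ω_P`, `[f_j] ↦ df_j`, is split by `dy_s ↦ ∑_l N s l [f_l]`), or
directly: given `φ : P / I → B / J`, `J^2 = 0` (`Algebra.FormallySmooth` definition / `Algebra.FormallySmooth.of_comp_surjective` or
the like), lift the images of the variables to `β_s ∈ B`; `f_j(β) ∈ J`; put `β'_s = β_s - ∑_l N_sl(β) f_l(β)`. By Taylor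
(`J^2 = 0`) `f_j(β') = f_j(β) - ∑_s ∂_s f_j(β) ∑_l N_sl(β) f_l(β) = f_j(β) - ∑_l (δ_jl + (element of I at β)) f_l(β) = 0`, as an
element of `I` takes a value in `J` at `β`. So `y_s ↦ β'_s` defines a lift `P / I → B`. -/
def Stmt_NEW : Prop :=
  ∀ (k : Type) [Field k] (r : ℕ) (f : Fin r → MvPolynomial (Fin 5) k) (N : Fin 5 → Fin r → MvPolynomial (Fin 5) k),
    (∀ j l, ∑ s, pderiv s (f j) * N s l - (if j = l then 1 else 0) ∈ Ideal.span (Set.range f)) →
    Algebra.Smooth k (MvPolynomial (Fin 5) k ⧸ Ideal.span (Set.range f))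

/-- **JAC** (120 lines; uses MIN). The right inverse of the Jacobian matrix of `(y_i - 1, F, G)`.
PROOF. `pderiv s (X i - 1) = δ_si`, `pderiv s F = - ja (C ε) X s`, `pderiv s G = - jb X s`. Euler: `∑_s ja_s y_s = 3 a - 3 y_3^3
= -3 F` and `∑_s jb_s y_s = -3 G`, in the ideal. With `g` from MIN put (mod the ideal) `n_s = ∑_q (g s q - g q s) jb_q`,
`m_s = ∑_q (g q s - g s q) ja_q`. Then `∑_s ja_s n_s = ∑_pq g p q (ja_p jb_q - ja_q jb_p) ≡ 1`, `∑_s jb_s n_s = 0`,
`∑_s ja_s m_s = 0`, `∑_s jb_s m_s ≡ 1`. Take `N s 0 = y_s`, `N s 1 = - (n_s - n_i y_s)`, `N s 2 = - (m_s - m_i y_s)`: rows `j = 0`: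
`y_i ≡ 1`, `-(n_i - n_i y_i) ≡ 0`, the same for `m`; rows `1, 2`: `∑ ja_s y_s ≡ 0` etc. -/
def Stmt_JAC : Prop :=
  ∀ ε : ℂ, Transcendental ℚ ε → ∀ i : Fin 5, ∃ N : Fin 5 → Fin 3 → MvPolynomial (Fin 5) ℂ,
    ∀ j l : Fin 3, ∑ s, pderiv s ((![X i - 1, FX ε, GX] : Fin 3 → MvPolynomial (Fin 5) ℂ) j) * N s l -
      (if j = l then 1 else 0) ∈ Ideal.span (Set.range (![X i - 1, FX ε, GX] : Fin 3 → MvPolynomial (Fin 5) ℂ))

/-- **SMX** (50 lines; uses KER, NEW, JAC). The charts of `X` are smooth.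
PROOF. `chart x i = Algebra.adjoin ℂ (range ..)` is the range of `aeval (fun l => x l / x i)`, so isomorphic to
`MvPolynomial (Fin 5) ℂ ⧸ ker` (`Ideal.quotientKerAlgEquivOfSurjective` for the corestriction), `ker = IX ε i` (KER)
`= Ideal.span (Set.range ![X i - 1, FX ε, GX])`, smooth by NEW, JAC; `Algebra.Smooth.of_equiv`. -/
def Stmt_SMX : Prop :=
  ∀ (K : Type) [Field K] [Algebra ℂ K] (ε : ℂ) (x : Fin 5 → K), Transcendental ℚ ε → GP ε x →
    ∀ i, Algebra.Smooth ℂ (chart x i)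

/-- **TEN** (150 lines; uses KER). The charts of the two factors are linearly disjoint over `ℂ`.
PROOF. Let `A = chart x i`, `A' = chart x' j ⊆ k'`. It is enough (`Submodule.LinearDisjoint`, or directly: write an element of
`A ⊗ A'` as `∑ a_n ⊗ c_n` with `a_n` linearly independent over `ℂ`) that `a_1, …, a_r ∈ A` linearly independent over `ℂ` and
`∑ a_n c_n = 0`, `c_n ∈ k'`, imply `c_n = 0`. Let `a_n = P_n(x / x_i)`, `P_n ∈ ℂ[y]`. The polynomial `h = ∑ c_n P_n ∈ k'[y]` vanishes at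
`x / x_i`, so by KER over the field `k'` (`GP (algebraMap ℂ k' ε) x`) `h = q_0 (y_i - 1) + q_1 F + q_2 G` with `q ∈ k'[y]`
(`Ideal.mem_span_insert`, `Ideal.mem_span_pair`). If some `c_n ≠ 0` let `λ : k' → ℂ` be a linear form with `λ(c_n) ≠ 0`. The map
`Λ : k'[y] → ℂ[y]`, `λ` on the coefficients, is additive and `Λ(q · map f) = Λ(q) f` for `f ∈ ℂ[y]` (on monomials; a way to define it:
`MvPolynomial σ k' = (σ →₀ ℕ) →₀ k'`, `Finsupp.mapRange.linearMap`). `y_i - 1`, `F`, `G` over `k'` are the images of the same over `ℂ`,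
so `∑ λ(c_n) P_n = Λ(h) ∈ IX ε i` over `ℂ`; its value at `x / x_i` is `∑ λ(c_n) a_n = 0`, so `λ(c_n) = 0`, contradiction. -/
def Stmt_TEN : Prop :=
  ∀ (K : Type) [Field K] [Algebra ℂ K] (ε : ℂ) (x x' : Fin 5 → K) (k' : IntermediateField ℂ K), GP ε x → (∀ l, x' l ∈ k') →
    AlgebraicIndependent k' ![x 1, x 2] → ∀ i j : Fin 5,
    Function.Injective (Algebra.TensorProduct.productMap (chart x i).val (chart x' j).val)

/-- **AIN** (80 lines). `x_1, x_2` are algebraically independent over `ℂ(x'_0, …, x'_4)`.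
PROOF. `![x 1, x 2]` is algebraically independent over `ℂ[x'_1, x'_2]` (`AlgebraicIndependent.sumElim_iff`/
`algebraicIndependent_adjoin..`, after reindexing `![x 1, x 2, x' 1, x' 2]`), so over its fraction field `ℂ(x'_1, x'_2)`
(`extendScalars` along an algebraic extension, file `AlgebraicIndependent/AlgebraicClosure`), and `k'` is algebraic over it since
`x'_3^3`, `x'_4^3` are polynomials in `x'_1, x'_2` and `x'_0 = 1`. -/
def Stmt_AIN : Prop :=
  ∀ (K : Type) [Field K] [Algebra ℂ K] (ε : ℂ) (x x' : Fin 5 → K), Model K ε x x' →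
    AlgebraicIndependent (IntermediateField.adjoin ℂ (Set.range x')) ![x 1, x 2]

/-- **PRO** (100 lines; uses SMX, TEN, AIN). The charts of `Y` are smooth.
PROOF. `GP ε x` and `GP ε x'` follow from `Model` (sub-families of an algebraically independent family: `AlgebraicIndependent.comp`).
`chart (seg x x') (i, j)` is `chart x i ⊔ chart x' j`: it contains `x_l x'_j / (x_i x'_j) = x_l / x_i`, and conversely. So it is the
range of `productMap` (`Algebra.TensorProduct.productMap_range`), isomorphic to `chart x i ⊗[ℂ] chart x' j` by TEN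
(`AlgEquiv.ofInjective`), which is smooth: `Algebra.Smooth.baseChange` and `Algebra.Smooth.comp` with SMX. -/
def Stmt_PRO : Prop :=
  ∀ (K : Type) [Field K] [Algebra ℂ K] (ε : ℂ) (x x' : Fin 5 → K), Transcendental ℚ ε → Model K ε x x' →
    ∀ i, Algebra.Smooth ℂ (chart (seg x x') i)

/-- **FRA** (80 lines). The function field.
PROOF. Let `i = (i, j)`, `R = chart (seg x x') (i, j)`. `x_l / x_i, x'_l / x'_j ∈ R` and they are not zero, so `x_l = (x_l / x_i) /
(x_0 / x_i)` and `x'_l` are quotients of elements of `R`. The set of the quotients `a / b`, `a, b ∈ R`, `b ≠ 0`, is a subfield of `K`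
containing `ℂ`, the `x_l` and the `x'_l` (for instance `IntermediateField.adjoin ℂ R` and
`IntermediateField.mem_adjoin_iff_div`), so it contains the algebra `ℂ[x, x']` and, by `gen`, all of `K`. -/
def Stmt_FRA : Prop :=
  ∀ (K : Type) [Field K] [Algebra ℂ K] (ε : ℂ) (x x' : Fin 5 → K), Model K ε x x' →
    ∀ i, ∀ z : K, ∃ a b : chart (seg x x') i, (b : K) ≠ 0 ∧ z = a / b

/-- **TRD** (70 lines). The dimension.
PROOF. `![x 1, x 2, x' 1, x' 2]` is a transcendence basis: `K` is algebraic over `ℂ(x_1, x_2, x'_1, x'_2)` because it is generated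
(`gen`) by `x_0 = 1`, `x_1`, `x_2` and the roots `x_3, x_4` of `T^3 - a`, `T^3 - b`, and the same for `x'`
(`AlgebraicIndependent.isTranscendenceBasis_iff_isAlgebraic`); `IsTranscendenceBasis.cardinalMk_eq_trdeg`. -/
def Stmt_TRD : Prop :=
  ∀ (K : Type) [Field K] [Algebra ℂ K] (ε : ℂ) (x x' : Fin 5 → K), Model K ε x x' → Algebra.trdeg ℂ K = 4

/-- **MOD** (120 lines; uses NEZ). The model exists.
PROOF. `E = AlgebraicClosure (FractionRing (MvPolynomial (Fin 4) ℂ))`, `z_i ∈ E` the images of the variables, algebraically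
independent over `ℂ` (injectivity of `MvPolynomial (Fin 4) ℂ → FractionRing → E`). `X_3` a cube root of `av ε ![1, z_0, z_1, _, _]`,
`X_4` one of `bv`, `x = ![1, z_0, z_1, X_3, X_4]`, and `x'` with `z_2, z_3` (`IsAlgClosed.exists_pow_nat_eq`). `K` is the
intermediate field `IntermediateField.adjoin ℂ (Set.range x ∪ Set.range x')` of `E / ℂ`, `x`, `x'` as elements of `K`. `gen`:
`IntermediateField.mem_adjoin_iff_div` in `E`, pulled back to `K` (`Algebra.adjoin` of elements of `K` maps onto the `Algebra.adjoin`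
in `E` under the inclusion: `AlgHom.map_adjoin`). `ne`, `ne'` by NEZ. -/
def Stmt_MOD : Prop :=
  ∀ ε : ℂ, ∃ (K : Type) (_ : Field K) (_ : Algebra ℂ K) (x x' : Fin 5 → K), Model K ε x x'

/-- **TRA** (30 lines). There is a transcendental number (`ℂ` is uncountable and the algebraic numbers are countable:
`Algebraic.countable`; or a Liouville number). -/
def Stmt_TRA : Prop := ∃ ε : ℂ, Transcendental ℚ ε

/-- **END** (40 lines; uses TRA, MOD, NEZ, MNU, PRO, FRA, TRD). Assembly of PART S. -/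
def Stmt_END : Prop := Stmt_S

end Pool.CXS
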