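import Pool.Agent.Work.MP_bf99ce_cx.DefsT

/-!
# THEOREM CX (MP_bf99ce_ag), parts T1 and T3: the blocks

T1: a section of `S^m Ω^3_Y`, `Y = X × X`, gives sections of `S^a Ω_X (b)`, `a + b = m`, on the factors. T3: the polynomial `f` of part E gives a
section of `S^2m Ω^3_Y (7)`.

Files `B_X.lean` in `Pool/Agent/Work/MP_bf99ce_cx` (`X` = the id, for instance `B_T1DER.lean`), `import Pool.Agent.Work.MP_bf99ce_cx.InterfaceT`,
namespace `Pool.CX`, `open MvPolynomial`, `theorem p_X (hA : Stmt_A) ... : Stmt_X` with exactly the blocks named after `uses` as hypotheses in that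
order. Auxiliary lemmas with the prefix `X_`.
-/

set_option autoImplicit false

noncomputable section

open MvPolynomial

namespace Pool.CX

/-! ## Part T1 -/

/-- **T1DEX** (200). Derivations with given values. `K` is algebraic over the subfield `F` generated by `x 1, x 2, x' 1, x' 2` (`on`, `on'`: `x 3`, `x 4`, `x' 3`, `x' 4` are algebraic over it; `gen`), and `F` is the fraction field of
`MvPolynomial (Fin 4) ℂ` (`ai`). Ways: (a) `MvPolynomial.mkDerivation ℂ` with values in `K` (module over `MvPolynomial` by `aeval`), extended to the fraction field `F` by the quotient rule, and from `F` to the algebraic separable extension `K` (`Algebra.FormallyEtale.of_isSeparable`: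
`Ω[K⁄ℂ] = K ⊗ Ω[F⁄ℂ]`, or lift to the dual numbers `TrivSqZeroExt K K`: a derivation `F → K` is a ring homomorphism `F → K[ε]` over the inclusion, and `FormallyEtale` lifts it to `K → K[ε]`); (b) `Ω` of `MvPolynomial` is free on `dX_i` (`KaehlerDifferential.mvPolynomialBasis`), `Ω` of a localization
is the localization, `Ω` of a formally étale extension is the base change. -/
def Stmt_T1DEX : Prop := ∀ (K : Type) [Field K] [Algebra ℂ K] (ε : ℂ) (x x' : Fin 5 → K), Model K ε x x' →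
  ∀ c0 c1 c2 c3 : K, ∃ D : Derivation ℂ K K, D (x 1) = c0 ∧ D (x 2) = c1 ∧ D (x' 1) = c2 ∧ D (x' 2) = c3

/-- **T1DER** (180), uses T1DEX. The four dual derivations. A derivation of `x 3`: apply it to `x 3 ^ 3 = av ε x`: `3 x_3² d(x_3) = dav ε x (d ∘ x)`; so `d i (x' l) = 0`, `d' i (x l) = 0` also for `l = 0` (`x 0 = 1`), `3`, `4` (`ne`, `ne'`).
`gen`: the differential of every element of `K` is in the `K`-span of `D (x l)`, `D (x' l)` (`Model.gen`, quotient rule, `Algebra.adjoin_induction`), so of the four `D (x 1)`, `D (x 2)`, `D (x' 1)`, `D (x' 2)`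
(`3 x_3² D (x 3)` is a combination of `D (x 1)`, `D (x 2)`); the coefficients are found by applying the derivations (`Derivation.liftKaehlerDifferential`). -/
def Stmt_T1DER : Prop := ∀ (K : Type) [Field K] [Algebra ℂ K] (ε : ℂ) (x x' : Fin 5 → K), Model K ε x x' →
  ∃ d d' : Fin 2 → Derivation ℂ K K, Ders x x' d d'

/-- **T1PSI** (250). The coordinates of the symmetric powers of `Λ^3 Ω`. For three derivations `δ` the map `w ↦ det (δ_i w_j)` (with `Derivation.liftKaehlerDifferential (δ i) : Ω →ₗ K`) is alternating in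
`w : Fin 3 → Ω` (`Matrix.detRowAlternating` composed with a linear map). `ExteriorAlgebra.liftAlternating` of the family which is zero in all degrees except `3` and there
`w ↦ ∑ i, C (det ..) * X (inl i) + ∑ i, C (det ..) * X (inr i)` (values in `MvPolynomial`, linear) gives a linear map on `ExteriorAlgebra K Ω` (`ExteriorAlgebra.liftAlternating_apply_ιMulti`), `SymmetricAlgebra.lift` gives `Psi`.
`Lam = aeval` with `X (inl i) ↦ i3 ![x (i+1), x' 1, x' 2]` (`x (i+1)` is `![x 1, x 2] i`), `X (inr i) ↦ i3 ![x 1, x 2, x' (i+1)]`. The second equation: expand `D (a j) = ∑ ..` (`Ders.gen`) multilinearly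
(`AlternatingMap.map_add`, `map_smul`, equal entries give zero, transpositions a sign; or: both sides are alternating maps of the three vectors `D (a j)` which extend to all of `Ω` (spanned by the four differentials), and agree on the basis vectors). -/
def Stmt_T1PSI : Prop := ∀ (K : Type) [Field K] [Algebra ℂ K] (x x' : Fin 5 → K) (d d' : Fin 2 → Derivation ℂ K K), Ders x x' d d' →
  ∃ (Psi : SE K →ₐ[K] MvPolynomial (Fin 2 ⊕ Fin 2) K) (Lam : MvPolynomial (Fin 2 ⊕ Fin 2) K →ₐ[K] SE K),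
    ∀ a : Fin 3 → K, Psi (i3 a) = lf3 d d' a ∧ Lam (lf3 d d' a) = i3 a

/-- **T1TMI** (200). Jacobian identities. `J u v = D1 u * D2 v - D2 u * D1 v`, `T i k l = x i * J (x k) (x l) + x k * J (x l) (x i) + x l * J (x i) (x k)` (alternating in `i, k, l`).
`J (x 0) _ = 0`, `J (x 1) (x 2) = 1`, `J (x 1) (x 3) = D2 (x 3)`, `J (x 2) (x 3) = -D1 (x 3)`, ..; with `a_l = -ja l` etc.: `3 x_3² D1 (x 3) = a_1`, `3 x_3² D2 (x 3) = a_2`, `3 x_4² D1 (x 4) = b_1`, `3 x_4² D2 (x 4) = b_2` where `a_l = ja ε x l`,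
`b_l = jb x l` for `l = 0, 1, 2` (apply `D1`, `D2` to `OnX`), and Euler: `x_0 a_0 + x_1 a_1 + x_2 a_2 = 3 x_3³`, the same for `b`. Then `9 (x_3 x_4)² T i k l = s * mnr p q` where `{i, k, l, p, q} = {0, .., 4}`, `s` the sign of the permutation `(i, k, l, p, q)`
(`T 0 1 2 = 1`, `mnr 3 4 = 9 x_3² x_4²`; `T 0 1 3 = a_2 / (3 x_3²)`, `mnr 2 4 = -3 a_2 x_4²`, `s = -1`; `T 1 2 3 = a_0 / (3 x_3²)`; `T 1 3 4 = (a_2 b_0 - a_0 b_2) / (9 x_3² x_4²)`; ...): `fin_cases`, `field_simp`, `linear_combination`. (1): if two of the indices are equal take `s = 0`. -/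
def Stmt_T1TMI : Prop := ∀ (k L : Type) [Field k] [CharZero k] [Field L] [Algebra k L] (ε : k) (x : Fin 5 → L) (D1 D2 : Derivation k L L),
  CXT.Set2 ε x D1 D2 → (∀ i, x i ≠ 0) →
  (∀ i j l : Fin 5, ∃ (p q : Fin 5) (s : ℤ), 9 * (x 3 * x 4) ^ 2 *
    (x i * (D1 (x j) * D2 (x l) - D2 (x j) * D1 (x l)) + x j * (D1 (x l) * D2 (x i) - D2 (x l) * D1 (x i)) +
      x l * (D1 (x i) * D2 (x j) - D2 (x i) * D1 (x j))) = s * mnr (algebraMap k L ε) x p q) ∧
  ∀ i p q : Fin 5, p ≠ q → i ≠ p → i ≠ q → ∃ (j l : Fin 5) (s : ℤ), mnr (algebraMap k L ε) x p q = s * (9 * (x 3 * x 4) ^ 2 *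
    (x i * (D1 (x j) * D2 (x l) - D2 (x j) * D1 (x l)) + x j * (D1 (x l) * D2 (x i) - D2 (x l) * D1 (x i)) +
      x l * (D1 (x i) * D2 (x j) - D2 (x i) * D1 (x j))))

/-- **T1ADJ** (150), uses T1TMI. Adjunction. `J u v = D1 u * D2 v - D2 u * D1 v`. For `u = x_j / x_i`, `v = x_l / x_i`: `J u v = T i j l / x_i³` (`T` as in T1TMI, `field_simp`), and `9 (x_3 x_4)² T = s * mnr x p q = s * x_i⁴ * mnr (x / x_i) p q`,
`mnr (x / x_i) p q ∈ ring1 k x i`: so `w = s / 9 * mnr (x / x_i) p q`. In general: `J` is a derivation in each argument, so the set of the `u` with `∃ w ∈ ring1, J u (x_l / x_i) = x_i / (x_3 x_4)² * w` for all `l` is a subalgebra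
(`Algebra.adjoin_induction`), and then the same in the second argument. -/
def Stmt_T1ADJ : Prop := ∀ (k L : Type) [Field k] [CharZero k] [Field L] [Algebra k L] (ε : k) (x : Fin 5 → L) (D1 D2 : Derivation k L L),
  CXT.Set2 ε x D1 D2 → (∀ i, x i ≠ 0) → ∀ i : Fin 5, ∀ u ∈ CXT.ring1 k x i, ∀ v ∈ CXT.ring1 k x i,
  ∃ w ∈ CXT.ring1 k x i, D1 u * D2 v - D2 u * D1 v = x i / (x 3 * x 4) ^ 2 * w

/-- **T1KAI** (180). `k` (the subfield generated by the `x' l`) is algebraic over the subfield `k0` generated by `x' 1`, `x' 2`; `x 1`, `x 2` are algebraically independent over `k0` (`ai`: the family is `![x 1, x 2]` and `![x' 1, x' 2]`;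
`AlgebraicIndependent` over the adjoin of a part of the family, `algebraicIndependent_sum_type`-like lemmas, `AlgebraicIndependent.sumElim_iff`), hence over the algebraic extension `k` (`AlgebraicIndependent.extendScalars_of_isIntegral`-like; or by transcendence degrees:
`x 1, x 2` over `k` dependent would give transcendence degree at most `3` for `K ⊇ ℂ(x, x')`). -/
def Stmt_T1KAI : Prop := ∀ (K : Type) [Field K] [Algebra ℂ K] (ε : ℂ) (x x' : Fin 5 → K), Model K ε x x' →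
  AlgebraicIndependent (IntermediateField.adjoin ℂ (Set.range x')) ![x 1, x 2]

/-- **T1KLD** (200), uses T1KAI. The second factor as base field: `k = IntermediateField.adjoin ℂ (Set.range x')`. `d i` is zero on `k` (`Ders.z`, `IntermediateField.adjoin_induction`), so `k`-linear: `D1`, `D2`. `d' j` maps `k` to `k` (`d' j (x' l) ∈ k`: clear for
`l = 0, 1, 2`, and `3 x'_3² d' j (x' 3) = dav ..`). The chart: `(x_l x'_l') / (x_i x'_i')` is `x_l / x_i` times an element of `k`; `d' j` of it is `x_l / x_i` times an element of `k` (`Ders.z'`); `Algebra.adjoin_induction` for both statements together. -/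
def Stmt_T1KLD : Prop := ∀ (K : Type) [Field K] [Algebra ℂ K] (ε : ℂ) (x x' : Fin 5 → K), Model K ε x x' →
  ∀ d d' : Fin 2 → Derivation ℂ K K, Ders x x' d d' →
  ∃ (k : Type) (_ : Field k) (_ : Algebra ℂ k) (_ : Algebra k K) (_ : IsScalarTower ℂ k K) (D1 D2 : Derivation k K K),
    (∀ z, D1 z = d 0 z) ∧ (∀ z, D2 z = d 1 z) ∧ CXT.Set2 (algebraMap ℂ k ε) x D1 D2 ∧
    ∀ i i' : Fin 5, ∀ a ∈ chart (seg x x') (i, i'), a ∈ CXT.ring1 k x i ∧ ∀ j, d' j a ∈ CXT.ring1 k x i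

/-- **T1SPM** (120). The groups `Sp` (`AddSubgroup.closure`, two closure inductions; products by `Fin.append` / `Fin.addCases`, `Fin.prod_univ_add`). -/
def Stmt_T1SPM : Prop := ∀ (k K : Type) [Field k] [Field K] [Algebra k K] (x : Fin 5 → K) (D1 D2 : Derivation k K K) (i : Fin 5),
  (∀ (m m' : ℕ), ∀ Φ ∈ CXT.Sp D1 D2 x i m, ∀ Φ' ∈ CXT.Sp D1 D2 x i m', Φ * Φ' ∈ CXT.Sp D1 D2 x i (m + m')) ∧
  (∀ (m : ℕ), ∀ a ∈ CXT.ring1 k x i, ∀ Φ ∈ CXT.Sp D1 D2 x i m, C a * Φ ∈ CXT.Sp D1 D2 x i m) ∧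
  (∀ a ∈ CXT.ring1 k x i, C a ∈ CXT.Sp D1 D2 x i 0) ∧ ∀ a ∈ CXT.ring1 k x i, CXT.dif D1 D2 a ∈ CXT.Sp D1 D2 x i 1

/-- **T1QIN** (250), uses T1SPM. The slices. Write `A = CXT.ring1 k x i`. (a) For `a : Fin 3 → K` with entries in `A0` the determinants
expand: `dt3 ![d i, d' 0, d' 1] a = ∑_(cyclic s) c_s * d i (a s)`, `c_s = d' 0 (a s') * d' 1 (a s'') - d' 1 (a s') * d' 0 (a s'') ∈ A`, so `∑ i, C (dt3 ![d i, d' 0, d' 1] a) * X i = ∑ s, C c_s * dif D1 D2 (a s) ∈ Sp 1`; and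
`dt3 ![d 0, d 1, d' i] a = ∑_(cyclic s) d' i (a s) * J (a s') (a s'') ∈ ν A`. (b) By induction on the number of factors: for a product of `m` forms `lf3` and every `β` with `β 0 + β 1 ≤ m` the slice `sl β` is in `C (ν ^ (β 0 + β 1)) * Sp (m - (β 0 + β 1))`, and it is zero for `β 0 + β 1 > m`
(`sl` of a product with `lf3`: `sl β (Φ * lf3 a) = sl β Φ * ∑ i, C (dt3 ![d i, d' 0, d' 1] a) * X i + ∑_(i, β i ≥ 1) sl (β - single i 1) Φ * C (dt3 ![d 0, d 1, d' i] a)`: `MvPolynomial.coeff_mul_X'` for the image under `sumAlgEquiv`). (c) sums: `AddSubmonoid.closure_induction`. -/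
def Stmt_T1QIN : Prop := ∀ (k K : Type) [Field k] [Field K] [Algebra ℂ K] [Algebra k K] (x : Fin 5 → K)
  (d d' : Fin 2 → Derivation ℂ K K) (D1 D2 : Derivation k K K) (A0 : Subalgebra ℂ K) (i : Fin 5) (ν : K),
  (∀ z, D1 z = d 0 z) → (∀ z, D2 z = d 1 z) → (∀ a ∈ A0, a ∈ CXT.ring1 k x i ∧ ∀ j, d' j a ∈ CXT.ring1 k x i) →
  (∀ u ∈ A0, ∀ v ∈ A0, ∃ w ∈ CXT.ring1 k x i, d 0 u * d 1 v - d 1 u * d 0 v = ν * w) →
  ∀ (m : ℕ), ∀ Φ ∈ Gf d d' A0 m, ∀ β : Fin 2 →₀ ℕ, β 0 + β 1 ≤ m →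
    ∃ Ξ ∈ CXT.Sp D1 D2 x i (m - (β 0 + β 1)), sl β Φ = C (ν ^ (β 0 + β 1)) * Ξ

/-- **T1HOM** (120). (1) every element of `Gf` is homogeneous of degree `m` (products of linear forms). (2) coefficients of slices: `coeff α (sl β Φ)` is the coefficient of `Φ` at the exponent with `α` on `inl`, `β` on `inr`; so exchanging `inl` and `inr` (`rename Sum.swap`) exchanges `α` and `β`.
(3) a nonzero homogeneous polynomial has a nonzero coefficient, of degree `m`. -/
def Stmt_T1HOM : Prop := ∀ (K : Type) [Field K] [Algebra ℂ K] (d d' : Fin 2 → Derivation ℂ K K) (A : Subalgebra ℂ K) (m : ℕ),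
  (∀ Φ ∈ Gf d d' A m, Φ.IsHomogeneous m) ∧
  (∀ (Φ : MvPolynomial (Fin 2 ⊕ Fin 2) K) (α β : Fin 2 →₀ ℕ), coeff α (sl β Φ) = coeff β (sl α (rename Sum.swap Φ))) ∧
  ∀ Φ : MvPolynomial (Fin 2 ⊕ Fin 2) K, Φ ≠ 0 → Φ.IsHomogeneous m →
    ∃ α β : Fin 2 →₀ ℕ, coeff α (sl β Φ) ≠ 0 ∧ α 0 + α 1 + (β 0 + β 1) = m

/-- **T1SWP** (60). Exchange of the factors: the determinants are invariant under cyclic permutation of the three derivations (`Matrix.det_permute` or `Matrix.det_fin_three`, `ring`), and `rename Sum.swap` exchanges `inl` and `inr`. -/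
def Stmt_T1SWP : Prop := ∀ (K : Type) [Field K] [Algebra ℂ K] (d d' : Fin 2 → Derivation ℂ K K),
  (∀ a : Fin 3 → K, rename Sum.swap (lf3 d d' a) = lf3 d' d a) ∧
  ∀ (A : Subalgebra ℂ K) (m : ℕ), ∀ Φ ∈ Gf d d' A m, rename Sum.swap Φ ∈ Gf d' d A m

/-! ## Part T3 -/

/-- **T3FGE** (250). `w_l = dif D1 D2 (x l)`, `y_l = x l / x i`, `v_l = dif D1 D2 (y_l)` in `S = MvPolynomial (Fin 2) L` (a domain); `w_l = x_i v_l + y_l w_i` (coefficients by `C`). `Bihom 7 m f`: `gf x = f(x; w) = f(x_i y; x_i v + y w_i) = x_i⁷ f(y; x_i v + y w_i)`. The pair `(C ∘ y, v)` satisfies `OnX`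
(homogeneous equations) and `TanX` (from the derivatives of the equations of `y`), so also `(C ∘ y, x_i v + λ y)` for all `λ`. Let `q(λ) = f(y; x_i v + λ y)` in `S[λ]` (`Polynomial S`, a domain and a `k`-algebra): its derivative is `∑ y_l (∂f/∂y_l)(y; x_i v + λ y) = 0` by `Kil` for the ring
`S[λ]`, so `q` is constant (`char 0`), `f(y; x_i v + w_i y) = f(y; x_i v) = x_i^m f(y; v)`. So `C (x_i⁻¹ ^ (7 + m)) * gf x D1 D2 f = f(y; v) = ∑ coeff * ∏ y * ∏ v`, a sum of products of an element of `ring1 k x i` and `m` forms `dif D1 D2 (y_l)`. -/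
def Stmt_T3FGE : Prop := ∀ (k L : Type) [Field k] [CharZero k] [Field L] [Algebra k L] (ε : k) (x : Fin 5 → L) (D1 D2 : Derivation k L L),
  CXT.Set2 ε x D1 D2 → (∀ i, x i ≠ 0) → ∀ (m : ℕ) (f : P10 k), Bihom 7 m f → Kil ε f →
  ∀ i : Fin 5, C ((x i)⁻¹ ^ (7 + m)) * gf x D1 D2 f ∈ CXT.Sp D1 D2 x i m

/-- **T3GNZ** (150). By `Nzr` for `S = L` there is `y` with `TanX (algebraMap k L ε) x y` and `f(x; y) ≠ 0`. As in T3FGE `f(x; y + λ x)` does not depend on `λ` (`Kil` for `Polynomial L`), so with `λ = -y_0` we may assume `y_0 = 0` (`x 0 = 1`). Then `y_l = D1 (x l) y_1 + D2 (x l) y_2` for all `l` (`l = 0, 1, 2` clear, `l = 3, 4` by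
`TanX` and the derivatives of `OnX`: `3 x_3² D1 (x 3) = dav ε x (D1 ∘ x)`), so `f(x; y)` is the value of `gf x D1 D2 f` at `(y_1, y_2)`, and `gf x D1 D2 f ≠ 0`. -/
def Stmt_T3GNZ : Prop := ∀ (k L : Type) [Field k] [CharZero k] [Field L] [Algebra k L] (ε : k) (x : Fin 5 → L) (D1 D2 : Derivation k L L),
  CXT.Set2 ε x D1 D2 → (∀ i, x i ≠ 0) → ∀ (m : ℕ) (f : P10 k), Bihom 7 m f → Kil ε f → Nzr ε f → gf x D1 D2 f ≠ 0

/-- **T3KAP** (250), uses T1TMI. The generator of the canonical bundle. `κ = (9 (x_3 x_4)²)⁻¹ D(x 1) ∧ D(x 2)`. For `u, v` in `chart x i` (killed by `d' j`) `D u ∧ D v = (d 0 u * d 1 v - d 1 u * d 0 v) D(x 1) ∧ D(x 2)` (`Ders.gen`, `ι w * ι w = 0`). For `y = x / x_i`, `u = y_j`, `v = y_l`: `J u v = T i j l / x_i³`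
(`T` as in T1TMI), so for `p ≠ q`, both different from `i`: `mnr y p q * x_i κ = mnr x p q / x_i⁴ * x_i κ = ± D(y_j) ∧ D(y_l)` (T1TMI (2) for `k = ℂ`; `CXT.Set2 ε x (d 0) (d 1)` from `Model`, `Ders`). For `p = i`: `y_i = 1` and Euler `∑_p y_p ja_p(y) = 0`, `∑_p y_p jb_p(y) = 0` (`y` is on the cone) give
`mnr y i q = -∑_(p ≠ i) y_p mnr y p q`. With `MinU`: `x_i κ = ∑ g_pq mnr y p q * x_i κ`. -/
def Stmt_T3KAP : Prop := ∀ (K : Type) [Field K] [Algebra ℂ K] (ε : ℂ) (x x' : Fin 5 → K), Model K ε x x' → MinU ε x →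
  ∀ d d' : Fin 2 → Derivation ℂ K K, Ders x x' d d' → ∀ i : Fin 5, ∃ (n : ℕ) (g a b : Fin n → K),
    (∀ s, g s ∈ chart x i ∧ a s ∈ chart x i ∧ b s ∈ chart x i) ∧
    (x i * (9 * (x 3 * x 4) ^ 2)⁻¹) • (ExteriorAlgebra.ι K (KaehlerDifferential.D ℂ K (x 1)) * ExteriorAlgebra.ι K (KaehlerDifferential.D ℂ K (x 2))) =
      ∑ s, g s • (ExteriorAlgebra.ι K (KaehlerDifferential.D ℂ K (a s)) * ExteriorAlgebra.ι K (KaehlerDifferential.D ℂ K (b s)))

/-- **T3RGM** (80). Products: `Fin.append` of the factors (`c c'`, `mono` of the appended family is the product: `Fin.prod_univ_add` ), sums: `Finset.sum_mul_sum`, index `Fin N × Fin N'` (`finProdFinEquiv`); sums of two elements: `Fin.append` of the indices. -/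
def Stmt_T3RGM : Prop := ∀ (K : Type) [Field K] [Algebra ℂ K] (A : Subalgebra ℂ K) (q : ℕ),
  (∀ (m m' : ℕ) (τ τ' : SymmetricAlgebra K (ExteriorAlgebra K (Ω[K⁄ℂ]))), Reg A q m τ → Reg A q m' τ' → Reg A q (m + m') (τ * τ')) ∧
  (∀ (m : ℕ) (τ τ' : SymmetricAlgebra K (ExteriorAlgebra K (Ω[K⁄ℂ]))), Reg A q m τ → Reg A q m τ' → Reg A q m (τ + τ')) ∧
  (∀ m : ℕ, Reg A q m 0) ∧
  ∀ (m : ℕ) (c : K) (τ : SymmetricAlgebra K (ExteriorAlgebra K (Ω[K⁄ℂ]))), c ∈ A → Reg A q m τ → Reg A q m (c • τ)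

/-- **T3SPR** (250), uses T3RGM. From forms on the first factor to forms on the product. `hk (dif (d 0) (d 1) u) = (9 (x'_3 x'_4)²)⁻¹ • i3 ![u, x' 1, x' 2]` for `u ∈ chart x i` (`D u = d 0 u • D (x 1) + d 1 u • D (x 2)` since `d' j u = 0`). `ExteriorAlgebra.ιMulti K 3 ![w, w1, w2] = ι w * (ι w1 * ι w2)`, and by the last
hypothesis `x'_i' (9 (x'_3 x'_4)²)⁻¹ • (ι D(x' 1) * ι D(x' 2)) = ∑ g_s • (ι D(a_s) * ι D(b_s))`: so `x'_i' • hk (dif u) = ∑ g_s • i3 ![u, a_s, b_s]` is in `Reg (chart (seg x x') (i, i')) 3 1` (`chart x i`, `chart x' i'` are contained in this chart: `x_l / x_i = (x_l x'_i') / (x_i x'_i')`). A product of `m` such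
factors and a coefficient `c ∈ chart x i`: T3RGM, `hk` is an algebra homomorphism (`hk (C c) = algebraMap c`), `(x'_i')^m` is distributed over the factors. Sums: closure induction (`CXT.Sp` is an `AddSubgroup.closure`: `neg`: `c = -1`). -/
def Stmt_T3SPR : Prop := ∀ (K : Type) [Field K] [Algebra ℂ K] (ε : ℂ) (x x' : Fin 5 → K), Model K ε x x' →
  ∀ d d' : Fin 2 → Derivation ℂ K K, Ders x x' d d' → ∀ i i' : Fin 5,
  (∃ (n : ℕ) (g a b : Fin n → K), (∀ s, g s ∈ chart x' i' ∧ a s ∈ chart x' i' ∧ b s ∈ chart x' i') ∧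
    (x' i' * (9 * (x' 3 * x' 4) ^ 2)⁻¹) • (ExteriorAlgebra.ι K (KaehlerDifferential.D ℂ K (x' 1)) * ExteriorAlgebra.ι K (KaehlerDifferential.D ℂ K (x' 2))) =
      ∑ s, g s • (ExteriorAlgebra.ι K (KaehlerDifferential.D ℂ K (a s)) * ExteriorAlgebra.ι K (KaehlerDifferential.D ℂ K (b s)))) →
  ∀ (m : ℕ), ∀ Ξ ∈ CXT.Sp (d 0) (d 1) x i m, Reg (chart (seg x x') (i, i')) 3 m ((x' i') ^ m • hk x x' Ξ)

/-- **T3NZT** (150), uses T1PSI. `Psi (vk x x' j) = C c * X (inl j)`, `c = (9 (x'_3 x'_4)²)⁻¹ ≠ 0`: `dt3 ![d i, d' 0, d' 1] ![x (j+1), x' 1, x' 2]` is `1` for `i = j`, `0` otherwise, and `dt3 ![d 0, d 1, d' i] ![x (j+1), x' 1, x' 2] = 0` (`Matrix.det_fin_three`). So `Psi ∘ hk x x'` is the substitution `X j ↦ C c * X (inl j)`, injective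
(left inverse; `rename` is injective and scaling by a unit is an automorphism). The same for `Psi ∘ hk x' x` with `inr` (`dt3 ![d 0, d 1, d' i] ![x' (j+1), x 1, x 2]` is `1` for `i = j`: the determinant of a cyclic permutation). `MvPolynomial` is a domain. -/
def Stmt_T3NZT : Prop := ∀ (K : Type) [Field K] [Algebra ℂ K] (ε : ℂ) (x x' : Fin 5 → K), Model K ε x x' →
  ∀ d d' : Fin 2 → Derivation ℂ K K, Ders x x' d d' → ∀ Ξ Ξ' : MvPolynomial (Fin 2) K, Ξ ≠ 0 → Ξ' ≠ 0 → hk x x' Ξ * hk x' x Ξ' ≠ 0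

/-- **T3REI** (80). Reindexing by an equivalence `e`: `chart (t ∘ e) i = chart t (e i)` (the ranges agree), so `ProjManifold`, `HasSection`, `Pseudoeffective` are the same for `t ∘ e` (`o` replaced by `e o`). -/
def Stmt_T3REI : Prop := ∀ (K : Type) [Field K] [Algebra ℂ K] (ι κ : Type) (e : κ ≃ ι) (t : ι → K),
  (ProjManifold t → ProjManifold (t ∘ e)) ∧
  (∀ (o : κ) (q m j : ℕ), HasSection (t ∘ e) o q m j ↔ HasSection t (e o) q m j) ∧
  (∀ (o : κ) (q : ℕ), Pseudoeffective (t ∘ e) o q ↔ Pseudoeffective t (e o) q)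

end Pool.CX
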