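import Pool.Agent.Work.MP_bf99ce_cx.DefsV1

/-!
# THEOREM CX, part V1: blocks

Block `V1XXX`: file `Pool/Agent/Work/MP_bf99ce_cx/B_V1XXX.lean`, `import Pool.Agent.Work.MP_bf99ce_cx.InterfaceV1`, the same `open` line,
`namespace Pool.CX.V1`, theorem `p_V1XXX (h1 : Stmt_..) .. : Stmt_V1XXX` with exactly the blocks of the column `uses` as hypotheses, in
this order; auxiliary lemmas with the prefix `V1XXX_`. Polynomials in the variable `t` are in `Polynomial k`; write `Polynomial.X`,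
`Polynomial.C` (`X`, `C` are those of `MvPolynomial`).

The curve `c`: `U_i = L_i^3 N_i`, `Y_i = L_i^2 N_i`, `L_i = t - t_i`, for all five `i`; `S - t_i M = L_i^2 N_i`. It is the curve
`s = S / M` in the `(s, t)`-plane, scaled by `M`.
-/

set_option autoImplicit false

noncomputable section

open MvPolynomial

namespace Pool.CX.V1

/-- `L_i = t - t_i` -/
def Lc {k : Type} [CommRing k] (i : Fin 5) : Polynomial k := Polynomial.X - Polynomial.C (tt k i)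

/-- the denominator `M` -/
def Mc {k : Type} [CommRing k] (c : k) : Polynomial k :=
  Polynomial.X ^ 5 + 5 * Polynomial.X ^ 3 - 12 * Polynomial.X - Polynomial.C c * (5 * Polynomial.X ^ 4 - 15 * Polynomial.X ^ 2 + 4)

/-- the numerator `S` -/
def Sc {k : Type} [CommRing k] (c : k) : Polynomial k :=
  10 * Polynomial.X ^ 4 - 16 * Polynomial.X ^ 2 - Polynomial.C c * (4 * Polynomial.X ^ 5 - 10 * Polynomial.X ^ 3)

/-- the cubic factors `N_i` -/
def Nc {k : Type} [CommRing k] (c : k) : Fin 5 → Polynomial k :=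
  ![-4 * Polynomial.C c * Polynomial.X ^ 3 + 10 * Polynomial.X ^ 2 + 10 * Polynomial.C c * Polynomial.X - 16,
    -(4 * Polynomial.C c + 1) * Polynomial.X ^ 3 + (8 - 3 * Polynomial.C c) * Polynomial.X ^ 2 +
      (8 * Polynomial.C c + 12) * Polynomial.X + 4 * Polynomial.C c,
    (1 - 4 * Polynomial.C c) * Polynomial.X ^ 3 + (8 + 3 * Polynomial.C c) * Polynomial.X ^ 2 +
      (8 * Polynomial.C c - 12) * Polynomial.X - 4 * Polynomial.C c,
    -(4 * Polynomial.C c + 2) * Polynomial.X ^ 3 + (2 - 6 * Polynomial.C c) * Polynomial.X ^ 2 +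
      (2 * Polynomial.C c + 6) * Polynomial.X + 2 * Polynomial.C c,
    (2 - 4 * Polynomial.C c) * Polynomial.X ^ 3 + (2 + 6 * Polynomial.C c) * Polynomial.X ^ 2 +
      (2 * Polynomial.C c - 6) * Polynomial.X - 2 * Polynomial.C c]

/-- the first three `U_i` on the curve -/
def Uc {k : Type} [CommRing k] (c : k) : Fin 3 → Polynomial k :=
  ![Lc 0 ^ 3 * Nc c 0, Lc 1 ^ 3 * Nc c 1, Lc 2 ^ 3 * Nc c 2]

/-- the first three `Y_i` on the curve -/
def Yc {k : Type} [CommRing k] (c : k) : Fin 3 → Polynomial k :=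
  ![Lc 0 ^ 2 * Nc c 0, Lc 1 ^ 2 * Nc c 1, Lc 2 ^ 2 * Nc c 2]

/-- restriction to the curve -/
def cur {k : Type} [CommRing k] (c : k) : P6 k →ₐ[k] Polynomial k := aeval (Sum.elim (Uc c) (Yc c))

/-- the excluded values of the parameter `c` -/
def Good {k : Type} [CommRing k] (c : k) : Prop :=
  c ≠ 0 ∧ c ≠ 1 ∧ c ≠ -1 ∧ c ≠ 2 ∧ c ≠ -2 ∧ 4 * c + 1 ≠ 0 ∧ 4 * c - 1 ≠ 0 ∧ 2 * c + 1 ≠ 0 ∧ 2 * c - 1 ≠ 0

/-- V1CUR (80 lines): the curve. Ring identities, `fin_cases i` (for `cur`: `simp [cur, UU, Xx, ..]`, then `ring`; `map_add`, `map_mul`,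
numerals). (3): `cur c (lam j)` first; `Kh` is `0` in the direction of `t`. -/
def Stmt_V1CUR : Prop :=
  ∀ (k : Type) [Field k] [CharZero k] (c : k),
    (∀ i, cur c (UU i) = Lc i ^ 3 * Nc c i ∧ cur c (YY i) = Lc i ^ 2 * Nc c i) ∧
    (∀ i, Sc c - Polynomial.C (tt k i) * Mc c = Lc i ^ 2 * Nc c i) ∧ cur c Kh = 0

/-- V1COP (120 lines; uses V1CUR): coprimality and degrees. Proof. `Sc = X Mc - L_0 L_1 L_2 L_3 L_4 (X - c)` (ring). `IsCoprime p (X - C a)`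
iff `p.eval a ≠ 0`; `Mc(t_i) = r_i (t_i - c)` with `r = 4, -6, -6, 24, 24`, `Mc(c) = -4 c (c ^ 2 - 1) (c ^ 2 - 4)`. So `Mc` is coprime to
`Sc`, hence to `Sc - t_i Mc = L_i ^ 2 N_i`. For `i ≠ j`: `Sc - t_j Mc = (Sc - t_i Mc) + (t_i - t_j) Mc` is coprime to `Sc - t_i Mc`; pass to
divisors. Leading coefficients of the `N_i`: `-4 c, -(4 c + 1), 1 - 4 c, -(4 c + 2), 2 - 4 c`. `(c - t_i) ^ 2 N_i(c) = Sc(c) - t_i Mc(c) =
(c - t_i) Mc(c)`. -/
def Stmt_V1COP : Prop :=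
  ∀ (k : Type) [Field k] [CharZero k] (c : k), Good c →
    (∀ i j, i ≠ j → IsCoprime (Lc i * Nc c i) (Lc j * Nc c j)) ∧ (∀ i, IsCoprime (Mc c) (Lc i * Nc c i)) ∧
    IsCoprime (Mc c) (Sc c) ∧ (∀ i, (Nc c i).natDegree = 3 ∧ Nc c i ≠ 0) ∧ (Mc c).natDegree = 5 ∧ (Mc c).Monic ∧
    (∀ i, (Nc c i).eval c ≠ 0 ∧ c ≠ tt k i ∧ (c - tt k i) * (Nc c i).eval c = (Mc c).eval c)

/-- V1EUL (80 lines): the Euler condition integrated. Proof. In `Polynomial A` let `F = aeval (Sum.elim (C p_j) (C q_j + X C p_j)) Q`. Its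
derivative is `aeval (..) (eul Q) = 0` (chain rule for `aeval`, by induction on `Q`). `(n + 1) F.coeff (n + 1) = 0`, and `n + 1` is a unit
in `A` (it is in the field `k`). So `F` is constant; evaluate at `a` and at `0`. -/
def Stmt_V1EUL : Prop :=
  ∀ (k : Type) [Field k] [CharZero k] (Q : P6 k), eul Q = 0 → ∀ (A : Type) [CommRing A] [Algebra k A] (p q : Fin 3 → A) (a : A),
    aeval (Sum.elim p (fun j => q j + a * p j)) Q = aeval (Sum.elim p q) Q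

/-- V1DEG (50 lines): degrees. Write `Q` as the sum of its monomials; `natDegree_sum_le`, `natDegree_mul_le`, `natDegree_pow_le`. -/
def Stmt_V1DEG : Prop :=
  ∀ (k : Type) [Field k] (D m : ℕ) (Q : P6 k), Bihom D m Q → ∀ (p q : Fin 3 → Polynomial k) (a b : ℕ),
    (∀ j, (p j).natDegree ≤ a) → (∀ j, (q j).natDegree ≤ b) → (aeval (Sum.elim p q) Q).natDegree ≤ a * D + b * m

/-- V1HOM (40 lines): scaling. -/
def Stmt_V1HOM : Prop :=
  ∀ (k : Type) [Field k] (D m : ℕ) (Q : P6 k), Bihom D m Q → ∀ (A : Type) [CommRing A] [Algebra k A] (p q : Fin 3 → A) (a b : A),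
    aeval (Sum.elim (fun j => a * p j) (fun j => b * q j)) Q = a ^ D * b ^ m * aeval (Sum.elim p q) Q

/-- V1PSI (80 lines; uses V1EUL V1DEG V1HOM): the degree on the curve. Proof. With `U = Uc c`, `Y = Yc c`: `X Y_j = t_j Y_j + U_j` (as
`U_j = L_j Y_j`). By V1HOM (`a = 1`, `b = X`) and V1EUL (`a = 1`): `X ^ m * cur c Q = aeval (U; X Y) Q = aeval (U; t_j Y_j) Q`, of
degree `≤ 6 D + 5 m` (V1DEG, `natDegree (N_j) ≤ 3`). -/
def Stmt_V1PSI : Prop :=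
  ∀ (k : Type) [Field k] [CharZero k] (c : k) (D m : ℕ) (Q : P6 k), Bihom D m Q → eul Q = 0 →
    (cur c Q).natDegree ≤ 6 * D + 4 * m

/-- V1DIV (80 lines; uses V1CUR V1COP): divisibility on the curve. Proof. For each `i`: `cur c Q = cur c (Q - Kh * G i)` (V1CUR 3), and
`cur c` of `UU i ^ j * YY i ^ l` is `L_i ^ (3 j + 2 l) N_i ^ (j + l)`, divisible by `L_i ^ w N_i ^ ((w + 2) / 3)` if `w ≤ 3 j + 2 l` (as
`w ≤ 3 (j + l)`); `Submodule.span_induction`. These five factors are pairwise coprime (V1COP): `Finset.prod_dvd_of_coprime`. -/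
def Stmt_V1DIV : Prop :=
  ∀ (k : Type) [Field k] [CharZero k] (c : k), Good c → ∀ (w : Fin 5 → ℕ) (Q : P6 k) (G : Fin 5 → P6 k),
    (∀ i, Q - Kh * G i ∈ I i (w i)) → ∏ i, (Lc i ^ w i * Nc c i ^ ((w i + 2) / 3)) ∣ cur c Q

/-- V1CNT (40 lines; uses V1COP V1PSI V1DIV): the count. Otherwise `∑ (w i + 3 ((w i + 2) / 3)) ≤ natDegree (cur c Q) ≤ 6 D + 4 m`. -/
def Stmt_V1CNT : Prop :=
  ∀ (k : Type) [Field k] [CharZero k] (c : k), Good c → ∀ (D m : ℕ) (w : Fin 5 → ℕ) (Q : P6 k) (G : Fin 5 → P6 k),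
    Bihom D m Q → eul Q = 0 → (∀ i, Q - Kh * G i ∈ I i (w i)) → 6 * D + 4 * m < ∑ i, (w i + 3 * ((w i + 2) / 3)) → cur c Q = 0

/-- the derivative in the direction of `s` on the curve -/
def dcur {k : Type} [CommRing k] (c : k) (Q : P6 k) : Polynomial k :=
  cur c (pderiv (Sum.inr 0) Q) * (Mc c * Lc 0) + cur c (pderiv (Sum.inr 1) Q) * (Mc c * Lc 1) +
    cur c (pderiv (Sum.inr 2) Q) * (Mc c * Lc 2)

/-- V1D1 (60 lines; uses V1CUR V1COP). Proof. `Sc * L_j = U_j + t_j Mc L_j` (from V1CUR 2: `L_j ^ 3 N_j = L_j (Sc - t_j Mc)`), so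
`Sc * dcur c Q = Mc * ∑ cur (∂_j Q) U_j + Mc ^ 2 * (..)`, and `∑ cur (∂_j Q) U_j = cur (eul Q) = 0`. `Mc ^ 2` is coprime to `Sc`. -/
def Stmt_V1D1 : Prop :=
  ∀ (k : Type) [Field k] [CharZero k] (c : k), Good c → ∀ Q : P6 k, eul Q = 0 → Mc c ^ 2 ∣ dcur c Q

/-- V1D2 (120 lines; uses V1CUR). Proof. `dcur c` is additive, `dcur c (P * Q) = cur c P * dcur c Q + cur c Q * dcur c P`,
`dcur c (UU i) = 0`, `dcur c (YY i) = Mc c * Lc i` (the five forms: `3 L_1 + L_2 - 3 L_0 = L_3`, `L_1 + 3 L_2 - 3 L_0 = L_4`), so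
`dcur c (P * (UU i ^ j * YY i ^ l)) = dcur c P * L ^ (3 j + 2 l) N ^ (j + l) + cur c P * l * L ^ (3 j + 2 (l - 1) + 1) N ^ (j + l - 1) * Mc`
(`l ≥ 1` in the last term). If `w ≤ 3 j + 2 l` and `3 ∣ w`: `3 (j + l - 1) ≥ w + l - 3`, so `j + l - 1 ≥ w / 3` for `l ≥ 1`. -/
def Stmt_V1D2 : Prop :=
  ∀ (k : Type) [Field k] [CharZero k] (c : k) (i : Fin 5) (w : ℕ) (Q : P6 k), 3 ∣ w → Q ∈ I i w →
    Lc i ^ (w - 1) * Nc c i ^ (w / 3) ∣ dcur c Q

/-- V1D3 (80 lines; uses V1PSI). Proof. `pderiv (inr j) Q` is bihomogeneous of bidegree `(D, m - 1)` and satisfies the Euler condition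
(`eul` commutes with `pderiv (inr j)`). V1PSI: `natDegree ≤ 6 D + 4 (m - 1)`; `Mc * L_j` has degree `≤ 6`. -/
def Stmt_V1D3 : Prop :=
  ∀ (k : Type) [Field k] [CharZero k] (c : k) (D m : ℕ) (Q : P6 k), 1 ≤ m → Bihom D m Q → eul Q = 0 →
    (dcur c Q).natDegree ≤ 6 * D + 4 * m + 2

/-- V1D4 (60 lines; uses V1COP). Proof. At `t = c`: `Mc(c) (c - t_j) = (c - t_j) ^ 2 N_j(c) = Y_j(c)` (V1COP, last part), so
`(dcur c Q)(c) = (cur c (∑ y_j ∂_j Q))(c)`, and `∑ y_j ∂Q/∂y_j = m Q` (Euler's formula, on monomials). -/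
def Stmt_V1D4 : Prop :=
  ∀ (k : Type) [Field k] [CharZero k] (c : k), Good c → ∀ (D m : ℕ) (Q : P6 k), Bihom D m Q →
    (dcur c Q).eval c = m * (cur c Q).eval c

/-- V1CN2 (120 lines; uses V1COP V1PSI V1DIV V1CNT V1D1 V1D2 V1D3 V1D4): the count in the exceptional case. Proof. If some `w i` is not
divisible by `3`: V1CNT with `G = 0` (`6 D + 4 m ≤ 2 ∑ w i < ∑ (w i + 3 ((w i + 2) / 3))`). Otherwise `Mc ^ 2 * ∏ L_i ^ (w i - 1)
N_i ^ (w i / 3)` divides `dcur c Q` (pairwise coprime), its degree is `≥ 10 + ∑ (w i - 1 + w i) ≥ 2 ∑ w i + 5`, but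
`natDegree (dcur c Q) ≤ 6 D + 4 m + 2 ≤ 2 ∑ w i + 2`: `dcur c Q = 0`. So `cur c Q` vanishes at `c` (V1D4, `m ≥ 1`); `X - C c` is coprime
to all `L_i`, `N_i`, so `(X - C c) * ∏ L_i ^ (w i) N_i ^ ((w i + 2) / 3)` divides `cur c Q` (V1DIV), of degree `> 2 ∑ w i`. -/
def Stmt_V1CN2 : Prop :=
  ∀ (k : Type) [Field k] [CharZero k] (c : k), Good c → ∀ (D m : ℕ) (w : Fin 5 → ℕ) (Q : P6 k), 1 ≤ m →
    Bihom D m Q → eul Q = 0 → (∀ i, Q ∈ I i (w i)) → 3 * (D + m) ≤ m + ∑ i, w i → cur c Q = 0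

/-- V1SWP (120 lines; uses V1CUR V1HOM): the curves sweep the plane. Proof. Let `F : Polynomial k` be `aeval (u_j = (X - t_j)(t - t_j);
y_j = X - t_j) Q` for a fixed `t` different from the five `t_i`. For a good `c` with `Mc(t) ≠ 0` and `s = Sc(t) / Mc(t)`:
`U_j(t) = (t - t_j)(Sc(t) - t_j Mc(t)) = Mc(t) (s - t_j)(t - t_j)`, `Y_j(t) = Mc(t) (s - t_j)` (V1CUR), so `0 = (cur c Q)(t) =
Mc(t) ^ (D + m) F(s)` (V1HOM). With `R = ∏ (t - t_i) ≠ 0`: `s = t - R (t - c) / (R' (t - c) - 4 R)` is an injective function of `c` (a Möbius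
map of determinant `-4 R ^ 2`), `Mc(t) = R' (t - c) - 4 R` vanishes for at most one `c` (if `R' = 0` for none), so `F` has infinitely many
roots and is `0`. Now fix `s`: the polynomial in `t` vanishes for all but five `t`, so for all `t`. -/
def Stmt_V1SWP : Prop :=
  ∀ (k : Type) [Field k] [CharZero k] (D m : ℕ) (Q : P6 k), Bihom D m Q → (∀ c : k, Good c → cur c Q = 0) →
    ∀ s t : k, eval (Sum.elim (fun j : Fin 3 => (s - ![0, 1, -1] j) * (t - ![0, 1, -1] j)) (fun j => s - ![0, 1, -1] j)) Q = 0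

/-- V1EXT (50 lines): extension of the field. Proof. `F = aeval (..) Q : MvPolynomial (Fin 2) k` with `s = X 0`, `t = X 1` vanishes at all
points: `MvPolynomial.funext`, `F = 0`; map `F` to `k'` and evaluate. -/
def Stmt_V1EXT : Prop :=
  ∀ (k k' : Type) [Field k] [CharZero k] [Field k'] [Algebra k k'] (Q : P6 k),
    (∀ s t : k, eval (Sum.elim (fun j : Fin 3 => (s - ![0, 1, -1] j) * (t - ![0, 1, -1] j)) (fun j => s - ![0, 1, -1] j)) Q = 0) →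
    ∀ s t : k', eval (Sum.elim (fun j : Fin 3 => (s - ![0, 1, -1] j) * (t - ![0, 1, -1] j)) (fun j => s - ![0, 1, -1] j))
      (map (algebraMap k k') Q) = 0

/-- the substitution `y ↦ u_0 y - y_0 u = (0, lam 2, - lam 1)` -/
def red {k : Type} [CommRing k] : P6 k →ₐ[k] P6 k := aeval (Sum.elim (fun j => Xx j) ![0, lam 2, - lam 1])

/-- V1RED (60 lines; uses V1EUL V1HOM): reduction. Proof. V1HOM (`a = 1`, `b = u_0`) and V1EUL (`a = - y_0`). The second claim is a ring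
identity. -/
def Stmt_V1RED : Prop :=
  ∀ (k : Type) [Field k] [CharZero k], (∀ (D m : ℕ) (Q : P6 k), Bihom D m Q → eul Q = 0 → Xx 0 ^ m * Q = red Q) ∧
    (Xx 0 * Kh : P6 k) = - (Xx 1 * lam 1 ^ 2) - Xx 2 * lam 2 ^ 2 + (4 * Xx 0 - Xx 1 - Xx 2) * (lam 1 * lam 2)

/-- V1PDV (120 lines; uses V1RED): pseudo-division. Proof. For `n ≥ 1`: `Xx 2 ^ n * lam 2 ^ n = Xx 0 * Kh * W + (a lam 2 + b lam 1) lam 1 ^ (n - 1)`
with `a`, `b` in the image of `MvPolynomial (Fin 3) k` (induction on `n` with the second part of V1RED: `Xx 2 * lam 2 ^ 2 = - Xx 0 Kh - Xx 1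
lam 1 ^ 2 + (4 Xx 0 - Xx 1 - Xx 2) lam 1 lam 2`). For a monomial of `Q`, of degree `m = i + j` in `y_1`, `y_2` (or containing `y_0`: then
`red` is `0`), `red` of it is `u^γ lam 2 ^ i (- lam 1) ^ j`; multiply by `Xx 2 ^ m`. Sum. -/
def Stmt_V1PDV : Prop :=
  ∀ (k : Type) [Field k] [CharZero k] (D m : ℕ) (Q : P6 k), Bihom D m Q → 1 ≤ m →
    ∃ (ρ₁ ρ₀ : MvPolynomial (Fin 3) k) (W : P6 k), Xx 2 ^ m * red Q =
      Xx 0 * Kh * W + (rename Sum.inl ρ₁ * lam 2 + rename Sum.inl ρ₀ * lam 1) * lam 1 ^ (m - 1)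

/-- V1RHO (120 lines; uses V1RED): the remainder is zero. Proof. Evaluate at `u_j = l (s - t_j)(t - t_j)`, `y_j = s - t_j`: `Q` is `0`
(V1HOM-type scaling is not needed if `D` is used: `eval` at `l (..)` is `l ^ D` times the value at `l = 1`; use `Bihom`), `Xx 0 * Kh` is `0`,
`lam 2 = l s (s - 1)`, `lam 1 = l s (s + 1)`. So for `l s (s + 1) ≠ 0`: `ρ₁(u) (s - 1) + ρ₀(u) (s + 1) = 0`, and by the symmetry of `u` in
`s`, `t`, for `l t (t + 1) ≠ 0`: `ρ₁(u) (t - 1) + ρ₀(u) (t + 1) = 0`. Determinant `2 (s - t)`. So `ρ₁(u) = ρ₀(u) = 0` if `s ≠ t`. Every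
`u` with `u_0 u_2 l ≠ 0`, `l = (u_1 + u_2 - 2 u_0) / 2`, and `(u_2 - u_1) ^ 2 ≠ 16 l u_0` is of this form: `s`, `t` are the roots of
`l z ^ 2 - ((u_2 - u_1) / 2) z + u_0` (`IsAlgClosed`). So `ρ * (product of these polynomials)` vanishes everywhere: `MvPolynomial.funext`. -/
def Stmt_V1RHO : Prop :=
  ∀ (k : Type) [Field k] [CharZero k] [IsAlgClosed k] (D m : ℕ) (Q : P6 k), Bihom D m Q → eul Q = 0 → 1 ≤ m →
    (∀ s t : k, eval (Sum.elim (fun j : Fin 3 => (s - ![0, 1, -1] j) * (t - ![0, 1, -1] j)) (fun j => s - ![0, 1, -1] j)) Q = 0) →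
    ∀ (ρ₁ ρ₀ : MvPolynomial (Fin 3) k) (W : P6 k), Xx 2 ^ m * red Q =
      Xx 0 * Kh * W + (rename Sum.inl ρ₁ * lam 2 + rename Sum.inl ρ₀ * lam 1) * lam 1 ^ (m - 1) → ρ₁ = 0 ∧ ρ₀ = 0

/-- V1CAN (60 lines): cancellation of `Xx 0`, `Xx 2`. Proof. `Xx 0`, `Xx 2` are prime and do not divide `Kh` (set the variable to `0` and
evaluate). If `Kh * W = p * Q` with `p` prime, `p ∤ Kh`, then `p ∣ W`. -/
def Stmt_V1CAN : Prop :=
  ∀ (k : Type) [Field k] [CharZero k] (a b : ℕ) (Q : P6 k), Kh ∣ Xx 0 ^ a * (Xx 2 ^ b * Q) → Kh ∣ Q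

/-- V1DSC (60 lines): divisibility descends. Proof. `φ : k' → k` a `k`-linear map with `φ 1 = 1`. From `map g = map f * h`: apply `φ` to the
coefficients: `g = f * φ(h)` (the map `φ` on coefficients is linear over polynomials with coefficients in `k`). -/
def Stmt_V1DSC : Prop :=
  ∀ (k k' : Type) [Field k] [Field k'] [Algebra k k'] (f g : P6 k),
    map (algebraMap k k') f ∣ map (algebraMap k k') g → f ∣ g

/-- V1KDV (80 lines; uses V1EXT V1RED V1PDV V1RHO V1CAN V1DSC): `Kh ∣ Q`. Proof. Let `k'` be the algebraic closure, `Q' = map Q`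
(`Bihom`, `eul`, `Kh` are preserved). V1EXT, V1PDV, V1RHO: `Xx 2 ^ m * (Xx 0 ^ m * Q') = Xx 0 * Kh * W`. V1CAN, V1DSC. -/
def Stmt_V1KDV : Prop :=
  ∀ (k : Type) [Field k] [CharZero k] (D m : ℕ) (Q : P6 k), Bihom D m Q → eul Q = 0 → 1 ≤ m →
    (∀ s t : k, eval (Sum.elim (fun j : Fin 3 => (s - ![0, 1, -1] j) * (t - ![0, 1, -1] j)) (fun j => s - ![0, 1, -1] j)) Q = 0) → Kh ∣ Q

/-- V1B (30 lines; uses V1CNT V1SWP V1KDV). -/
def Stmt_V1B : Prop := Stmt_V1b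

end Pool.CX.V1
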