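import Pool.Agent.Work.MP_bf99ce_cx.InterfaceV1
import Pool.Agent.Work.MP_bf99ce_cx.DefsW

/-!
# THEOREM CX, part V1: blocks, second part

Conventions as in `InterfaceV1.lean`, with `import Pool.Agent.Work.MP_bf99ce_cx.InterfaceV1b`.
-/

set_option autoImplicit false

noncomputable section

open MvPolynomial

namespace Pool.CX.V1

/-! ### Division by `Kh` -/

/-- the linear form `UU i` in `R5 k` (polynomials in `u_0, u_1, u_2` and two of the `y`) -/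
def pl {k : Type} [CommRing k] : Fin 5 → R5 k :=
  ![X (Sum.inl 0), X (Sum.inl 1), X (Sum.inl 2), X (Sum.inl 2) + 3 * (X (Sum.inl 1) - X (Sum.inl 0)),
    X (Sum.inl 1) + 3 * (X (Sum.inl 2) - X (Sum.inl 0))]

/-- the values of `y_0, y_1, y_2` in the coordinates in which `YY i` is the variable of `Polynomial (R5 k)` -/
def yv {k : Type} [CommRing k] : Fin 5 → Fin 3 → Polynomial (R5 k) :=
  ![![Polynomial.X, Polynomial.C (X (Sum.inr 0)), Polynomial.C (X (Sum.inr 1))],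
    ![Polynomial.C (X (Sum.inr 0)), Polynomial.X, Polynomial.C (X (Sum.inr 1))],
    ![Polynomial.C (X (Sum.inr 0)), Polynomial.C (X (Sum.inr 1)), Polynomial.X],
    ![Polynomial.C (X (Sum.inr 0)), Polynomial.C (X (Sum.inr 1)),
      Polynomial.X + 3 * Polynomial.C (X (Sum.inr 0)) - 3 * Polynomial.C (X (Sum.inr 1))],
    ![Polynomial.C (X (Sum.inr 0)), Polynomial.X + 3 * Polynomial.C (X (Sum.inr 0)) - 3 * Polynomial.C (X (Sum.inr 1)),
      Polynomial.C (X (Sum.inr 1))]]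

/-- the change of coordinates -/
def ph {k : Type} [CommRing k] (i : Fin 5) : P6 k →ₐ[k] Polynomial (R5 k) :=
  aeval (Sum.elim (fun j : Fin 3 => Polynomial.C (X (Sum.inl j))) (yv i))

/-- the two remaining `y` -/
def yr {k : Type} [CommRing k] : Fin 5 → Fin 2 → P6 k :=
  ![![Vv 1, Vv 2], ![Vv 0, Vv 2], ![Vv 0, Vv 1], ![Vv 0, Vv 1], ![Vv 0, Vv 2]]

/-- the inclusion of the coefficients -/
def inc {k : Type} [CommRing k] (i : Fin 5) : R5 k →ₐ[k] P6 k := aeval (Sum.elim (fun j : Fin 3 => Xx j) (yr i))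

/-- the inverse change of coordinates -/
def bk {k : Type} [CommRing k] (i : Fin 5) : Polynomial (R5 k) →+* P6 k :=
  Polynomial.eval₂RingHom (inc (k := k) i).toRingHom (YY i)

/-- V1ISO (100 lines): `ph` and `bk`. Ring identities, `fin_cases i`; for `bk i (ph i Q) = Q` check it on the variables (`MvPolynomial.algHom_ext` or
`ringHom_ext`). -/
def Stmt_V1ISO : Prop :=
  ∀ (k : Type) [Field k] [CharZero k] (i : Fin 5), ph i (UU i) = Polynomial.C (pl i : R5 k) ∧ ph i (YY i) = (Polynomial.X : Polynomial (R5 k)) ∧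
    inc i (pl i : R5 k) = UU i ∧ ∀ Q : P6 k, bk i (ph i Q) = Q

/-- V1WX (100 lines; uses V1ISO): the weight ideal in the coordinates. Proof. (⇒) span induction; the coefficient of `X ^ n` of
`F * (C (pl i) ^ j * X ^ l)` is `pl i ^ j * F.coeff (n - l)` for `l ≤ n`, else `0`, and `(w - 2 n + 2) / 3 ≤ j` if `w ≤ 3 j + 2 l`, `l ≤ n`. (⇐)
`Q = bk i (ph i Q) = ∑ n, inc i (coeff n) * YY i ^ n`, `coeff n = pl i ^ ((w - 2 n + 2) / 3) * r`, and `w ≤ 3 ((w - 2 n + 2) / 3) + 2 n`. -/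
def Stmt_V1WX : Prop :=
  ∀ (k : Type) [Field k] [CharZero k] (i : Fin 5) (w : ℕ) (Q : P6 k), Q ∈ I i w ↔ WX (pl i) w (ph i Q)

/-- V1LIN (60 lines): a linear form is prime. Proof. The algebra automorphism `X i2 ↦ X i2 - 3 (X i1 - X i0)` (inverse: `+`) maps it to the
prime `X i2`. -/
def Stmt_V1LIN : Prop :=
  ∀ (k : Type) [Field k] [CharZero k] (σ : Type) (i0 i1 i2 : σ), i0 ≠ i1 → i0 ≠ i2 → i1 ≠ i2 →
    Prime (X i2 + 3 * (X i1 - X i0) : MvPolynomial σ k)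

/-- V1KH (150 lines; uses V1LIN): `Kh` in the coordinates. Proof. `fin_cases i`; compute `ph i Kh = C c0 + C c1 * X + C c2 * X ^ 2` explicitly
(`lam j` first). `pl i ∣ c0` explicitly. `¬ pl i ∣ c1`: evaluate at a point of `k` where `pl i = 0` and `c1 ≠ 0` (for `i = 3`, with
`9 Kh = UU 3 * UP + 3 * YY 3 * VP`: `9 c1` is `3 VP` plus a multiple of `pl 3` at `YY 3 = 0`). -/
def Stmt_V1KH : Prop :=
  ∀ (k : Type) [Field k] [CharZero k] (i : Fin 5), Prime (pl i : R5 k) ∧ pl i ∣ (ph i (Kh : P6 k)).coeff 0 ∧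
    ¬ pl i ∣ (ph i (Kh : P6 k)).coeff 1 ∧ (ph i (Kh : P6 k)).natDegree ≤ 2

/-- V1C (20 lines; uses V1WX V1KH and `Pool.CX.Stmt_VCO`, in this order): `p_V1C (h1 : Stmt_V1WX) (h2 : Stmt_V1KH) (h3 : Stmt_VCO) : Stmt_V1c`. -/
def Stmt_V1C : Prop := Stmt_V1c

/-! ### The case `m = 0` and the induction -/

/-- V1PRI (60 lines; uses V1LIN): the five forms are prime and not associated (evaluate at a point where `UU i = 0`, `UU j ≠ 0`). -/
def Stmt_V1PRI : Prop :=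
  ∀ (k : Type) [Field k] [CharZero k], (∀ i, Prime (UU i : P6 k)) ∧ ∀ i j, i ≠ j → ¬ (UU i : P6 k) ∣ UU j

/-- V1M0 (150 lines; uses V1PRI): the case `m = 0`. Proof. `Q` does not contain the `y_j`, so it is fixed by `z : y_j ↦ 0`, and
`z (UU i ^ j * YY i ^ l)` is `0` or (`l = 0`) divisible by `UU i ^ ((w + 2) / 3)`: so `UU i ^ ((w i + 2) / 3) ∣ Q`. As the `UU i` are
pairwise not associated primes, `Q = R * ∏ UU i ^ ((w i + 2) / 3)` (`Finset.prod_dvd_of_isRelPrime` or induction). Total degrees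
(`totalDegree_mul_of_isDomain`): `D = totalDegree R + ∑ (w i + 2) / 3`, and `3 D ≤ ∑ w i ≤ ∑ 3 ((w i + 2) / 3)`. So `R` is a constant and
`w i = 3 ((w i + 2) / 3)`. -/
def Stmt_V1M0 : Prop :=
  ∀ (k : Type) [Field k] [CharZero k] (D : ℕ) (w : Fin 5 → ℕ) (Q : P6 k), Q ≠ 0 → Bihom D 0 Q → (∀ i, Q ∈ I i (w i)) →
    3 * D ≤ ∑ i, w i → ∃ (c : k) (n : Fin 5 → ℕ), c ≠ 0 ∧ (∀ i, w i = 3 * n i) ∧ D = ∑ i, n i ∧ Q = C c * ∏ i, UU i ^ n i

/-- V1STP (20 lines; uses V1CN2 V1SWP V1KDV): one step. -/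
def Stmt_V1STP : Prop :=
  ∀ (k : Type) [Field k] [CharZero k] (D m : ℕ) (w : Fin 5 → ℕ) (Q : P6 k), 1 ≤ m → Bihom D m Q → eul Q = 0 →
    (∀ i, Q ∈ I i (w i)) → 3 * (D + m) ≤ m + ∑ i, w i → Kh ∣ Q

/-- V1QUO (100 lines): the quotient by `Kh`. Proof. A divisor of a bihomogeneous polynomial `≠ 0` is bihomogeneous (as for `Stmt_QUO`,
file `B_QUO.lean`: its lemmas may be used); `Kh` has bidegree `(2, 2)`; `eul (Kh * Q') = Kh * eul Q'` as `eul Kh = 0`. -/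
def Stmt_V1QUO : Prop :=
  ∀ (k : Type) [Field k] [CharZero k] (D m : ℕ) (Q' : P6 k), Q' ≠ 0 → Bihom D m (Kh * Q') →
    2 ≤ D ∧ 2 ≤ m ∧ Bihom (D - 2) (m - 2) Q' ∧ (eul (Kh * Q') = 0 → eul Q' = 0)

/-- V1A (80 lines; uses V1M0 V1STP V1QUO and `Stmt_V1c`): `p_V1A (h1 : Stmt_V1M0) (h2 : Stmt_V1STP) (h3 : Stmt_V1QUO) (h4 : Stmt_V1c) : Stmt_V1a`.
Proof. Strong induction on `m`. `m = 0`: V1M0 with `h = 0`. `m ≥ 1`: V1STP, `Q = Kh * Q'`, V1QUO, V1c: `Q'` has the bidegree `(D - 2, m - 2)`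
and the weights `w i - 2` (natural subtraction), and `3 (D - 2 + (m - 2)) ≤ (m - 2) + ∑ (w i - 2)` (as `∑ (w i - 2) ≥ ∑ w i - 10`). By
induction `m - 2 = 2 h'`, `w i - 2 = 2 h' + 3 n i`, `D - 2 = 2 h' + ∑ n i`. Then `∑ w i ≥ 3 (D + m) - m = 10 + 10 h' + 3 ∑ n i =
∑ ((w i - 2) + 2)`, and `(w i - 2) + 2 ≥ w i` with equality iff `w i ≥ 2`: so all `w i ≥ 2`; `h = h' + 1`. -/
def Stmt_V1A : Prop := Stmt_V1a

/-! ### The end of the deformation argument -/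

/-- the arc `t = 3`: `u_j = (s - t_j)(3 - t_j)`, `y_j = s - t_j`, `s = X` -/
def arc {k : Type} [CommRing k] : P6 k →ₐ[k] Polynomial k :=
  aeval (Sum.elim (![Lc 0 * 3, Lc 1 * 2, Lc 2 * 4] : Fin 3 → Polynomial k) (![Lc 0, Lc 1, Lc 2] : Fin 3 → Polynomial k))

/-- V1E1 (100 lines): the arc. Proof. Ring identities (`arc (UU 3) = L_3 * 1`, `arc (UU 4) = L_4 * 5`); `(arc Sh).eval 2 = -3312` (at `s = 2`:
`u = (6, 2, 12)`, `y = (2, 1, 3)`, `UP = -36`, `VP = 12`). The last claim by span induction: `w ≤ 3 j + 2 l ≤ 3 (j + l)`. -/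
def Stmt_V1E1 : Prop :=
  ∀ (k : Type) [Field k] [CharZero k],
    (∀ i, arc (UU i : P6 k) = Lc i * Polynomial.C (3 - tt k i) ∧ arc (YY i : P6 k) = Lc i) ∧ arc (Kh : P6 k) = 0 ∧
    (arc (Sh : P6 k)).eval 2 = -3312 ∧ ∀ (i : Fin 5) (w : ℕ) (Q : P6 k), Q ∈ I i w → Lc i ^ ((w + 2) / 3) ∣ arc Q

/-- V1E2 (120 lines; uses V1DEG V1E1): `p_V1E2 (h1 : Stmt_V1DEG) (h2 : Stmt_V1E1) : Stmt_END`. Proof. `natDegree (arc Q) ≤ D + 2 ≤ 6 + ∑ n i` (V1DEG with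
`a = b = 1`). `arc Q` is divisible by `L_i ^ (n i + 2)` for `i = 0, 1, 2`, by `L_4 ^ (n 4 + 1)`, and by `L_3 ^ (n 3)` (`arc` of the last
hypothesis: `arc Q = c * ∏ (L_i (3 - t_i)) ^ n i * arc Sh + (multiple of L_3 ^ (n 3 + 1))`). These are pairwise coprime, the product has
degree `7 + ∑ n i`: so `arc Q = 0`, and `L_3 ^ (n 3 + 1)` divides `c * ∏ (L_i (3 - t_i)) ^ n i * arc Sh`. So `L_3` divides
`c * (∏ of the other factors) * (3 - t_3) ^ n 3 * arc Sh`; evaluate at `2`: the `L_i`, `i ≠ 3`, `3 - t_i` and `arc Sh` do not vanish. -/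
def Stmt_V1E2 : Prop := Stmt_END

end Pool.CX.V1
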