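import Pool.Agent.Work.MP_bf99ce_cx.DefsT

/-!
# THEOREM CX, part S: the minors of the Jacobian matrix generate the unit ideal in every chart
-/

set_option autoImplicit false

noncomputable section

open MvPolynomial

namespace Pool.CX

theorem MIN_ne243 (ε : ℂ) (hε : Transcendental ℚ ε) : ε ^ 3 ≠ 243 := by
  intro h
  refine hε ⟨Polynomial.X ^ 3 - Polynomial.C 243, fun h0 => ?_, ?_⟩
  · have := congrArg (Polynomial.eval 0) h0
    norm_num at this
  · simp [h]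

theorem MIN_ne6 (ε : ℂ) (hε : Transcendental ℚ ε) : 3 * (ε ^ 3) ^ 2 - 1120 * ε ^ 3 - 82944 ≠ 0 := by
  intro h
  refine hε ⟨Polynomial.C 3 * (Polynomial.X ^ 3) ^ 2 - Polynomial.C 1120 * Polynomial.X ^ 3 - Polynomial.C 82944,
    fun h0 => ?_, ?_⟩
  · have := congrArg (Polynomial.eval 0) h0
    norm_num at this
  · simpa using h

theorem MIN_zero_of_cube {x : ℂ} (h : x ^ 3 = 0) : x = 0 := pow_eq_zero_iff (three_ne_zero) |>.1 h

/-- the curve `a = 0` is smooth -/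
theorem MIN_a (ε x0 x1 x2 : ℂ) (h3 : ε ^ 3 ≠ 243) (e0 : -9 * x0 ^ 2 + ε * (x1 * x2) = 0)
    (e1 : 9 * x1 ^ 2 + ε * (x0 * x2) = 0) (e2 : 3 * x2 ^ 2 + ε * (x0 * x1) = 0) : x0 = 0 ∧ x1 = 0 ∧ x2 = 0 := by
  have f0 : 9 * x0 ^ 3 = ε * (x0 * x1 * x2) := by linear_combination (-x0) * e0
  have f1 : 9 * x1 ^ 3 = -(ε * (x0 * x1 * x2)) := by linear_combination x1 * e1
  have f2 : 3 * x2 ^ 3 = -(ε * (x0 * x1 * x2)) := by linear_combination x2 * e2
  have hP : (ε ^ 3 - 243) * (x0 * x1 * x2) ^ 3 = 0 := by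
    have : (9 * x0 ^ 3) * (9 * x1 ^ 3) * (3 * x2 ^ 3) =
        (ε * (x0 * x1 * x2)) * (-(ε * (x0 * x1 * x2))) * (-(ε * (x0 * x1 * x2))) := by rw [f0, f1, f2]
    linear_combination (-1 : ℂ) * this
  have hP0 : x0 * x1 * x2 = 0 := MIN_zero_of_cube ((mul_eq_zero.1 hP).resolve_left (sub_ne_zero.2 h3))
  rw [hP0] at f0 f1 f2
  refine ⟨MIN_zero_of_cube ?_, MIN_zero_of_cube ?_, MIN_zero_of_cube ?_⟩
  · linear_combination (1 / 9 : ℂ) * f0
  · linear_combination (1 / 9 : ℂ) * f1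
  · linear_combination (1 / 3 : ℂ) * f2

/-- the curves `a = 0` and `b = 0` are transversal -/
theorem MIN_ab (ε x0 x1 x2 μ : ℂ) (h6 : 3 * (ε ^ 3) ^ 2 - 1120 * ε ^ 3 - 82944 ≠ 0)
    (hb : -3 * x0 ^ 3 + x1 ^ 3 + 3 * x2 ^ 3 = 0)
    (e0 : -9 * x0 ^ 2 + ε * (x1 * x2) = μ * (-9 * x0 ^ 2))
    (e1 : 9 * x1 ^ 2 + ε * (x0 * x2) = μ * (3 * x1 ^ 2)) (e2 : 3 * x2 ^ 2 + ε * (x0 * x1) = μ * (9 * x2 ^ 2)) :
    x0 = 0 ∧ x1 = 0 ∧ x2 = 0 := by
  obtain ⟨P, hP⟩ : ∃ P, P = x0 * x1 * x2 := ⟨_, rfl⟩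
  have f0 : 9 * (1 - μ) * x0 ^ 3 = ε * P := by rw [hP]; linear_combination (-x0) * e0
  have f1 : 3 * (3 - μ) * x1 ^ 3 = -(ε * P) := by rw [hP]; linear_combination x1 * e1
  have f2 : 3 * (1 - 3 * μ) * x2 ^ 3 = -(ε * P) := by rw [hP]; linear_combination x2 * e2
  by_cases hεP : ε * P = 0
  · rw [hεP] at f0 f1 f2
    simp only [neg_zero, mul_eq_zero] at f0 f1 f2
    have g0 : μ = 1 ∨ x0 = 0 := by
      rcases f0 with (h | h) | h
      · norm_num at h
      · exact Or.inl (by linear_combination (-1 : ℂ) * h)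
      · exact Or.inr (MIN_zero_of_cube h)
    have g1 : μ = 3 ∨ x1 = 0 := by
      rcases f1 with (h | h) | h
      · norm_num at h
      · exact Or.inl (by linear_combination (-1 : ℂ) * h)
      · exact Or.inr (MIN_zero_of_cube h)
    have g2 : μ = 1 / 3 ∨ x2 = 0 := by
      rcases f2 with (h | h) | h
      · norm_num at h
      · exact Or.inl (by linear_combination (-1 / 3 : ℂ) * h)
      · exact Or.inr (MIN_zero_of_cube h)
    rcases g0 with g0 | g0
    · have h1 : x1 = 0 := g1.resolve_left (by rw [g0]; norm_num)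
      have h2 : x2 = 0 := g2.resolve_left (by rw [g0]; norm_num)
      rw [h1, h2] at hb
      exact ⟨MIN_zero_of_cube (by linear_combination (-1 / 3 : ℂ) * hb), h1, h2⟩
    · rcases g1 with g1 | g1
      · have h2 : x2 = 0 := g2.resolve_left (by rw [g1]; norm_num)
        rw [g0, h2] at hb
        exact ⟨g0, MIN_zero_of_cube (by linear_combination hb), h2⟩
      · rw [g0, g1] at hb
        exact ⟨g0, g1, MIN_zero_of_cube (by linear_combination (1 / 3 : ℂ) * hb)⟩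
  · exfalso
    have hA : 1 - μ ≠ 0 := fun h => hεP (by rw [← f0, h]; ring)
    have hB : 3 - μ ≠ 0 := fun h => hεP (by rw [← neg_eq_zero, ← f1, h]; ring)
    have hC : 1 - 3 * μ ≠ 0 := fun h => hεP (by rw [← neg_eq_zero, ← f2, h]; ring)
    have hquad : 9 * μ ^ 2 - 26 * μ + 13 = 0 := by
      have h1 : (ε * P) * (9 * μ ^ 2 - 26 * μ + 13) = 0 := by
        linear_combination (3 - μ) * (1 - 3 * μ) * (-1 : ℂ) * f0 + (1 - μ) * (1 - 3 * μ) * (1 : ℂ) * f1 * 1 +
          3 * (1 - μ) * (3 - μ) * f2 - 3 * (1 - μ) * (3 - μ) * (1 - 3 * μ) * hb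
      exact (mul_eq_zero.1 h1).resolve_left hεP
    have hP0 : P ≠ 0 := fun h => hεP (by rw [h, mul_zero])
    have hE : ε ^ 3 = 81 * (1 - μ) * (3 - μ) * (1 - 3 * μ) := by
      have h1 : (9 * (1 - μ) * x0 ^ 3) * (3 * (3 - μ) * x1 ^ 3) * (3 * (1 - 3 * μ) * x2 ^ 3) =
          (ε * P) * (-(ε * P)) * (-(ε * P)) := by rw [f0, f1, f2]
      have h2 : (ε ^ 3 - 81 * (1 - μ) * (3 - μ) * (1 - 3 * μ)) * P ^ 3 = 0 := by
        have h3 : P ^ 3 = x0 ^ 3 * x1 ^ 3 * x2 ^ 3 := by rw [hP]; ring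
        linear_combination (-1 : ℂ) * h1 - (81 * (1 - μ) * (3 - μ) * (1 - 3 * μ)) * h3
      exact sub_eq_zero.1 ((mul_eq_zero.1 h2).resolve_right (pow_ne_zero 3 hP0))
    have hE' : ε ^ 3 = 312 * μ - 264 := by
      rw [hE]
      linear_combination (-27 * μ + 39) * hquad
    apply h6
    rw [hE']
    linear_combination 32448 * hquad

/-- `X` has no singular point. -/
theorem MIN_alg (ε x0 x1 x2 x3 x4 : ℂ) (h3 : ε ^ 3 ≠ 243) (h6 : 3 * (ε ^ 3) ^ 2 - 1120 * ε ^ 3 - 82944 ≠ 0)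
    (ha : x3 ^ 3 = -3 * x0 ^ 3 + 3 * x1 ^ 3 + x2 ^ 3 + ε * (x0 * x1 * x2)) (hb : x4 ^ 3 = -3 * x0 ^ 3 + x1 ^ 3 + 3 * x2 ^ 3)
    (a0 a1 a2 b0 b1 b2 : ℂ) (ha0 : a0 = -9 * x0 ^ 2 + ε * (x1 * x2)) (ha1 : a1 = 9 * x1 ^ 2 + ε * (x0 * x2))
    (ha2 : a2 = 3 * x2 ^ 2 + ε * (x0 * x1)) (hb0 : b0 = -9 * x0 ^ 2) (hb1 : b1 = 3 * x1 ^ 2) (hb2 : b2 = 9 * x2 ^ 2)
    (m30 : x3 ^ 2 * b0 = 0) (m31 : x3 ^ 2 * b1 = 0) (m32 : x3 ^ 2 * b2 = 0)
    (m40 : x4 ^ 2 * a0 = 0) (m41 : x4 ^ 2 * a1 = 0) (m42 : x4 ^ 2 * a2 = 0)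
    (m01 : a0 * b1 = a1 * b0) (m02 : a0 * b2 = a2 * b0) (m12 : a1 * b2 = a2 * b1) :
    x0 = 0 ∧ x1 = 0 ∧ x2 = 0 ∧ x3 = 0 ∧ x4 = 0 := by
  have hb' : b0 = 0 → b1 = 0 → b2 = 0 → x0 = 0 ∧ x1 = 0 ∧ x2 = 0 := by
    intro g0 g1 g2
    rw [hb0] at g0
    rw [hb1] at g1
    rw [hb2] at g2
    simp only [mul_eq_zero, pow_eq_zero_iff (two_ne_zero)] at g0 g1 g2
    refine ⟨g0.resolve_left (by norm_num), g1.resolve_left (by norm_num), g2.resolve_left (by norm_num)⟩
  have key : x0 = 0 ∧ x1 = 0 ∧ x2 = 0 := by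
    by_cases h0 : x3 = 0
    · by_cases h1 : x4 = 0
      · rw [h1] at hb
        have hb2' : -3 * x0 ^ 3 + x1 ^ 3 + 3 * x2 ^ 3 = 0 := by rw [← hb]; ring
        by_cases c0 : b0 = 0
        · by_cases c1 : b1 = 0
          · by_cases c2 : b2 = 0
            · exact hb' c0 c1 c2
            · refine MIN_ab ε x0 x1 x2 (a2 / b2) h6 hb2' ?_ ?_ ?_
              · rw [← ha0, ← hb0]
                field_simp
                linear_combination m02
              · rw [← ha1, ← hb1]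
                field_simp
                linear_combination m12
              · rw [← ha2, ← hb2]
                field_simp
          · refine MIN_ab ε x0 x1 x2 (a1 / b1) h6 hb2' ?_ ?_ ?_
            · rw [← ha0, ← hb0]
              field_simp
              linear_combination m01
            · rw [← ha1, ← hb1]
              field_simp
            · rw [← ha2, ← hb2]
              field_simp
              linear_combination (-1 : ℂ) * m12
        · refine MIN_ab ε x0 x1 x2 (a0 / b0) h6 hb2' ?_ ?_ ?_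
          · rw [← ha0, ← hb0]
            field_simp
          · rw [← ha1, ← hb1]
            field_simp
            linear_combination (-1 : ℂ) * m01
          · rw [← ha2, ← hb2]
            field_simp
            linear_combination (-1 : ℂ) * m02
      · have h2 : x4 ^ 2 ≠ 0 := pow_ne_zero 2 h1
        exact MIN_a ε x0 x1 x2 h3 (by rw [← ha0]; exact (mul_eq_zero.1 m40).resolve_left h2)
          (by rw [← ha1]; exact (mul_eq_zero.1 m41).resolve_left h2) (by rw [← ha2]; exact (mul_eq_zero.1 m42).resolve_left h2)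
    · have h2 : x3 ^ 2 ≠ 0 := pow_ne_zero 2 h0
      exact hb' ((mul_eq_zero.1 m30).resolve_left h2) ((mul_eq_zero.1 m31).resolve_left h2)
        ((mul_eq_zero.1 m32).resolve_left h2)
  obtain ⟨k0, k1, k2⟩ := key
  refine ⟨k0, k1, k2, MIN_zero_of_cube ?_, MIN_zero_of_cube ?_⟩
  · rw [ha, k0, k1, k2]; ring
  · rw [hb, k0, k1, k2]; ring

theorem minPt (ε : ℂ) (hε : Transcendental ℚ ε) (p : Fin 5 → ℂ) (hon : OnX ε p) (hm : ∀ i j, mnr ε p i j = 0) : p = 0 := by
  obtain ⟨ha, hb⟩ := hon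
  have h30 := hm 3 0
  have h31 := hm 3 1
  have h32 := hm 3 2
  have h40 := hm 0 4
  have h41 := hm 1 4
  have h42 := hm 2 4
  have h01 := hm 0 1
  have h02 := hm 0 2
  have h12 := hm 1 2
  simp only [mnr, ja, jb, av, bv, Matrix.cons_val_zero, Matrix.cons_val_one, Matrix.cons_val] at *
  have h := MIN_alg ε (p 0) (p 1) (p 2) (p 3) (p 4) (MIN_ne243 ε hε) (MIN_ne6 ε hε) ha hb _ _ _ _ _ _ rfl rfl rfl rfl rfl rfl
    (by linear_combination (-1 / 3 : ℂ) * h30)
    (by linear_combination (-1 / 3 : ℂ) * h31) (by linear_combination (-1 / 3 : ℂ) * h32)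
    (by linear_combination (-1 / 3 : ℂ) * h40) (by linear_combination (-1 / 3 : ℂ) * h41)
    (by linear_combination (-1 / 3 : ℂ) * h42) (by linear_combination h01) (by linear_combination h02)
    (by linear_combination h12)
  obtain ⟨k0, k1, k2, k3, k4⟩ := h
  funext i
  fin_cases i
  · exact k0
  · exact k1
  · exact k2
  · exact k3
  · exact k4

theorem MIN_ja_map {S T : Type} [CommRing S] [CommRing T] (f : S →+* T) (ε : S) (x : Fin 5 → S) (p : Fin 5) :
    f (ja ε x p) = ja (f ε) (fun l => f (x l)) p := by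
  fin_cases p <;> simp [ja, map_ofNat]

theorem MIN_jb_map {S T : Type} [CommRing S] [CommRing T] (f : S →+* T) (x : Fin 5 → S) (p : Fin 5) :
    f (jb x p) = jb (fun l => f (x l)) p := by
  fin_cases p <;> simp [jb, map_ofNat]

theorem MIN_mnr_map {S T : Type} [CommRing S] [CommRing T] (f : S →+* T) (ε : S) (x : Fin 5 → S) (p q : Fin 5) :
    f (mnr ε x p q) = mnr (f ε) (fun l => f (x l)) p q := by
  simp only [mnr, map_sub, map_mul, MIN_ja_map, MIN_jb_map]

theorem MIN_OnX_map {S T : Type} [CommRing S] [CommRing T] (f : S →+* T) (ε : S) (x : Fin 5 → S) (h : OnX ε x) :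
    OnX (f ε) (fun l => f (x l)) := by
  obtain ⟨h1, h2⟩ := h
  constructor
  · have := congrArg f h1
    simpa [av, map_ofNat] using this
  · have := congrArg f h2
    simpa [bv, map_ofNat] using this

/-- Hilbert's Nullstellensatz: a proper ideal of a finitely generated algebra over `ℂ` has a zero. -/
theorem MIN_null (A : Type) [CommRing A] [Algebra ℂ A] [Algebra.FiniteType ℂ A] (J : Ideal A) (hJ : J ≠ ⊤) :
    ∃ φ : A →ₐ[ℂ] ℂ, ∀ a ∈ J, φ a = 0 := by
  obtain ⟨M, hM, hJM⟩ := J.exists_le_maximal hJ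
  let _ : Field (A ⧸ M) := Ideal.Quotient.field M
  have : Algebra.FiniteType ℂ (A ⧸ M) := Algebra.FiniteType.of_surjective (Ideal.Quotient.mkₐ ℂ M) (Ideal.Quotient.mkₐ_surjective ℂ M)
  have : Module.Finite ℂ (A ⧸ M) := finite_of_finite_type_of_isJacobsonRing ℂ (A ⧸ M)
  have hbij : Function.Bijective (algebraMap ℂ (A ⧸ M)) := IsAlgClosed.algebraMap_bijective_of_isIntegral
  let e : ℂ ≃ₐ[ℂ] (A ⧸ M) := AlgEquiv.ofBijective (Algebra.ofId ℂ (A ⧸ M)) hbij
  refine ⟨(e.symm : (A ⧸ M) →ₐ[ℂ] ℂ).comp (Ideal.Quotient.mkₐ ℂ M), fun a ha => ?_⟩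
  rw [AlgHom.comp_apply, Ideal.Quotient.mkₐ_eq_mk, Ideal.Quotient.eq_zero_iff_mem.2 (hJM ha), map_zero]

theorem minU (K : Type) [Field K] [Algebra ℂ K] (ε : ℂ) (hε : Transcendental ℚ ε) (x : Fin 5 → K) (hx : ∀ i, x i ≠ 0)
    (hon : OnX (algebraMap ℂ K ε) x) : MinU ε x := by
  intro i
  let A := chart x i
  have hmem : ∀ l, x l / x i ∈ A := fun l => Algebra.subset_adjoin ⟨l, rfl⟩
  let y : Fin 5 → A := fun l => ⟨x l / x i, hmem l⟩
  have : Algebra.FiniteType ℂ A := Algebra.FiniteType.adjoin_of_finite (Set.finite_range _)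
  have hy : OnX (algebraMap ℂ A ε) y := by
    obtain ⟨h1, h2⟩ := hon
    have hi := hx i
    constructor
    · apply Subtype.ext
      have h3 : (x 3 / x i) ^ 3 = av (algebraMap ℂ K ε) (fun l => x l / x i) := by
        simp only [av] at h1 ⊢
        field_simp
        linear_combination h1
      exact h3
    · apply Subtype.ext
      have h3 : (x 4 / x i) ^ 3 = bv (fun l => x l / x i) := by
        simp only [bv] at h2 ⊢
        field_simp
        linear_combination h2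
      exact h3
  let J : Ideal A := Ideal.span (Set.range fun pq : Fin 5 × Fin 5 => mnr (algebraMap ℂ A ε) y pq.1 pq.2)
  have hJ : J = ⊤ := by
    by_contra hJ
    obtain ⟨φ, hφ⟩ := MIN_null A J hJ
    have h1 : OnX ε (fun l => φ (y l)) := by
      have := MIN_OnX_map (φ : A →+* ℂ) _ _ hy
      simpa using this
    have h2 : ∀ p q, mnr ε (fun l => φ (y l)) p q = 0 := by
      intro p q
      have h3 := hφ _ (Ideal.subset_span ⟨(p, q), rfl⟩)
      have h4 := MIN_mnr_map (φ : A →+* ℂ) (algebraMap ℂ A ε) y p q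
      simp only [RingHom.coe_coe, AlgHom.commutes] at h4
      rw [← h3, h4]
      rfl
    have h3 := congrFun (minPt ε hε _ h1 h2) i
    have h4 : y i = 1 := Subtype.ext (div_self (hx i))
    simp only [h4, map_one, Pi.zero_apply] at h3
    exact one_ne_zero h3
  have h1 : (1 : A) ∈ J := by rw [hJ]; trivial
  obtain ⟨g, hg⟩ := Ideal.mem_span_range_iff_exists_fun.1 h1
  refine ⟨fun p q => (g (p, q) : K), fun p q => (g (p, q)).2, ?_⟩
  have h2 := congrArg (A.val : A →+* K) hg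
  rw [map_sum, Fintype.sum_prod_type, map_one] at h2
  rw [← h2]
  refine Finset.sum_congr rfl fun p _ => Finset.sum_congr rfl fun q _ => ?_
  rw [map_mul, MIN_mnr_map]
  rfl

end Pool.CX
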