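import Pool.Agent.Work.MP_bf99ce_cx.InterfaceT
import Pool.Agent.Work.MP_bf99ce_cx.DefsE

/-!
# THEOREM CX (MP_bf99ce_ag): the assembly of the parts S, T1, T2, T3, E
-/

set_option autoImplicit false

noncomputable section

open MvPolynomial

namespace Pool.CX

variable {K : Type} [Field K] [Algebra ℂ K] {ε : ℂ} {x x' : Fin 5 → K} {d d' : Fin 2 → Derivation ℂ K K}

theorem ST_modelSwap (h : Model K ε x x') : Model K ε x' x := by
  refine ⟨h.one', h.one, h.ne', h.ne, h.on', h.on, ?_, ?_⟩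
  · have h1 := h.ai.comp ![2, 3, 0, 1] (by decide)
    have h2 : (![x 1, x 2, x' 1, x' 2] ∘ ![2, 3, 0, 1] : Fin 4 → K) = ![x' 1, x' 2, x 1, x 2] := by
      funext i
      fin_cases i <;> rfl
    rwa [h2] at h1
  · intro z
    have h1 := h.gen z
    rwa [Set.union_comm] at h1

theorem ST_dersSwap (h : Ders x x' d d') : Ders x' x d' d :=
  ⟨h.k00, h.k01, h.k10, h.k11, h.h00, h.h01, h.h10, h.h11, h.z', h.z, fun z => by rw [h.gen z, add_comm]⟩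

theorem ST_chartSwap (x x' : Fin 5 → K) (i i' : Fin 5) : chart (seg x x') (i, i') = chart (seg x' x) (i', i) := by
  have key : ∀ j : Fin 5 × Fin 5, seg x x' j = seg x' x j.swap := fun j => mul_comm _ _
  unfold chart
  congr 1
  ext z
  constructor
  · rintro ⟨j, rfl⟩
    exact ⟨j.swap, by simp only [key]; rfl⟩
  · rintro ⟨j, rfl⟩
    exact ⟨j.swap, by simp only [key, Prod.swap_swap]; rfl⟩

theorem ST_set2 (h : Model K ε x x') (hd : Ders x x' d d') : CXT.Set2 ε x (d 0) (d 1) := by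
  refine ⟨h.one, ?_, h.on, hd.h00, hd.h01, hd.h10, hd.h11⟩
  have h1 := h.ai.comp ![0, 1] (by decide)
  have h2 : (![x 1, x 2, x' 1, x' 2] ∘ ![0, 1] : Fin 2 → K) = ![x 1, x 2] := by
    funext i
    fin_cases i <;> rfl
  rwa [h2] at h1

theorem ST_mono (m : ℕ) (a : Fin m → Fin 3 → K) :
    mono K (fun j i => KaehlerDifferential.D ℂ K (a j i)) = ∏ j, i3 (a j) := rfl

/-- the image of a regular form -/
theorem ST_gf {A : Subalgebra ℂ K} {m : ℕ} {τ : SE K} (h : Reg A 3 m τ) (Psi : SE K →ₐ[K] MvPolynomial (Fin 2 ⊕ Fin 2) K)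
    (hPsi : ∀ a : Fin 3 → K, Psi (i3 a) = lf3 d d' a) : Psi τ ∈ Gf d d' A m := by
  obtain ⟨N, c, a, rfl⟩ := h
  rw [map_sum]
  refine sum_mem fun n _ => AddSubmonoid.subset_closure ⟨c n, fun j l => a n j l, (c n).2, fun j l => (a n j l).2, ?_⟩
  rw [ST_mono, map_smul, map_prod, MvPolynomial.smul_eq_C_mul]
  congr 1
  exact Finset.prod_congr rfl fun j _ => hPsi _

theorem ST_lam {A : Subalgebra ℂ K} {m : ℕ} {τ : SE K} (h : Reg A 3 m τ) (Psi : SE K →ₐ[K] MvPolynomial (Fin 2 ⊕ Fin 2) K)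
    (Lam : MvPolynomial (Fin 2 ⊕ Fin 2) K →ₐ[K] SE K)
    (hPsi : ∀ a : Fin 3 → K, Psi (i3 a) = lf3 d d' a ∧ Lam (lf3 d d' a) = i3 a) : Lam (Psi τ) = τ := by
  obtain ⟨N, c, a, rfl⟩ := h
  rw [map_sum, map_sum]
  refine Finset.sum_congr rfl fun n _ => ?_
  rw [ST_mono, map_smul, map_smul, map_prod, map_prod]
  congr 1
  refine Finset.prod_congr rfl fun j _ => ?_
  rw [(hPsi _).1, (hPsi _).2]

/-- the slices of a section vanish -/
theorem ST_core (hT2 : CXT.Stmt_T2) (hADJ : Stmt_T1ADJ) (hKLD : Stmt_T1KLD) (hQIN : Stmt_T1QIN) (hε : Transcendental ℚ ε)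
    (hM : Model K ε x x') (hd : Ders x x' d d') {m : ℕ} {Φ : MvPolynomial (Fin 2 ⊕ Fin 2) K}
    (h0 : Φ ∈ Gf d d' (chart (seg x x') (0, 0)) m) (h1 : Φ ∈ Gf d d' (chart (seg x x') (1, 0)) m) (β : Fin 2 →₀ ℕ)
    (hb : β 0 + β 1 ≤ m) (hb1 : 1 ≤ m - (β 0 + β 1)) (hb2 : β 0 + β 1 ≤ m - (β 0 + β 1)) : sl β Φ = 0 := by
  obtain ⟨k, _, _, _, _, D1, D2, hD1, hD2, hS, hch⟩ := hKLD K ε x x' hM d d' hd
  have : CharZero k := charZero_of_injective_algebraMap (algebraMap ℂ k).injective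
  have htr : Transcendental ℚ (algebraMap ℂ k ε) := by
    intro hal
    apply hε
    exact (isAlgebraic_algebraMap_iff (algebraMap ℂ k).injective).1 hal
  set b : ℕ := β 0 + β 1 with hbdef
  have h3 : x 3 ≠ 0 := hM.ne 3
  have h4 : x 4 ≠ 0 := hM.ne 4
  have key : ∀ i : Fin 5, Φ ∈ Gf d d' (chart (seg x x') (i, 0)) m →
      C ((x i)⁻¹ ^ b) * (C ((x 3 * x 4) ^ (2 * b)) * sl β Φ) ∈ CXT.Sp D1 D2 x i (m - b) := by
    intro i hi
    obtain ⟨Ξ, hΞ, hs⟩ := hQIN k K x d d' D1 D2 (chart (seg x x') (i, 0)) i (x i / (x 3 * x 4) ^ 2) hD1 hD2 (hch i 0)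
      (fun u hu v hv => by
        obtain ⟨w, hw, he⟩ := hADJ k K (algebraMap ℂ k ε) x D1 D2 hS hM.ne i u (hch i 0 u hu).1 v (hch i 0 v hv).1
        refine ⟨w, hw, ?_⟩
        rw [← he, hD1, hD1, hD2, hD2]) m Φ hi β hb
    have hi0 : x i ≠ 0 := hM.ne i
    have he : C ((x i)⁻¹ ^ b) * (C ((x 3 * x 4) ^ (2 * b)) * sl β Φ) = Ξ := by
      rw [hs, ← mul_assoc, ← mul_assoc, ← C_mul, ← C_mul]
      have h5 : (x i)⁻¹ ^ b * (x 3 * x 4) ^ (2 * b) * (x i / (x 3 * x 4) ^ 2) ^ b = 1 := by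
        rw [pow_mul, ← mul_pow, ← mul_pow]
        have h6 : (x i)⁻¹ * (x 3 * x 4) ^ 2 * (x i / (x 3 * x 4) ^ 2) = 1 := by
          field_simp
        rw [h6, one_pow]
      rw [h5, C_1, one_mul]
    rw [he]
    exact hΞ
  have h6 := hT2 k K (algebraMap ℂ k ε) x D1 D2 htr hS b (m - b) hb1 hb2 (C ((x 3 * x 4) ^ (2 * b)) * sl β Φ) (key 0 h0) (key 1 h1)
  rcases mul_eq_zero.1 h6 with h7 | h7
  · exfalso
    rw [C_eq_zero] at h7
    exact pow_ne_zero _ (mul_ne_zero h3 h4) h7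
  · exact h7

/-- no sections -/
theorem ST_vanish (hT2 : CXT.Stmt_T2) (hADJ : Stmt_T1ADJ) (hKLD : Stmt_T1KLD) (hQIN : Stmt_T1QIN) (hPSI : Stmt_T1PSI)
    (hHOM : Stmt_T1HOM) (hSWP : Stmt_T1SWP) (hε : Transcendental ℚ ε)
    (hM : Model K ε x x') (hd : Ders x x' d d') {m : ℕ} (hm : 1 ≤ m) : ¬ HasSection (seg x x') (0, 0) 3 m 0 := by
  rintro ⟨τ, hτ, hreg⟩
  obtain ⟨Psi, Lam, hPL⟩ := hPSI K x x' d d' hd
  have hR : ∀ p, Reg (chart (seg x x') p) 3 m τ := fun p => by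
    have h1 := hreg p
    rwa [pow_zero, one_smul] at h1
  have hG : ∀ p, Psi τ ∈ Gf d d' (chart (seg x x') p) m := fun p => ST_gf (hR p) Psi fun a => (hPL a).1
  have hne : Psi τ ≠ 0 := by
    intro h0
    apply hτ
    rw [← ST_lam (hR (0, 0)) Psi Lam hPL, h0, map_zero]
  obtain ⟨h1, h2, h3⟩ := hHOM K d d' (chart (seg x x') (0, 0)) m
  obtain ⟨α, β, hc, hs⟩ := h3 _ hne (h1 _ (hG _))
  rcases le_or_gt (β 0 + β 1) (α 0 + α 1) with hle | hlt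
  · apply hc
    rw [ST_core hT2 hADJ hKLD hQIN hε hM hd (hG _) (hG _) β (by omega) (by omega) (by omega), coeff_zero]
  · apply hc
    rw [h2]
    have hG' : ∀ i : Fin 5, rename Sum.swap (Psi τ) ∈ Gf d' d (chart (seg x' x) (i, 0)) m := fun i => by
      rw [← ST_chartSwap]
      exact (hSWP K d d').2 _ _ _ (hG _)
    rw [ST_core hT2 hADJ hKLD hQIN hε (ST_modelSwap hM) (ST_dersSwap hd) (hG' 0) (hG' 1) α (by omega) (by omega) (by omega),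
      coeff_zero]

/-- sections with a twist -/
theorem ST_exist (hE : Stmt_E') (hFGE : Stmt_T3FGE) (hGNZ : Stmt_T3GNZ) (hKAP : Stmt_T3KAP) (hRGM : Stmt_T3RGM) (hSPR : Stmt_T3SPR)
    (hNZT : Stmt_T3NZT) (hε : Transcendental ℚ ε)
    (hM : Model K ε x x') (hd : Ders x x' d d') (hu : MinU ε x) (hu' : MinU ε x') (m : ℕ) :
    HasSection (seg x x') (0, 0) 3 (m + m) 7 := by
  obtain ⟨f, hb, hk1, hn⟩ := hE ℂ ε hε m
  have hM' := ST_modelSwap hM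
  have hd' := ST_dersSwap hd
  have hS := ST_set2 hM hd
  have hS' := ST_set2 hM' hd'
  have hg := hGNZ ℂ K ε x (d 0) (d 1) hS hM.ne m f hb hk1 hn
  have hg' := hGNZ ℂ K ε x' (d' 0) (d' 1) hS' hM'.ne m f hb hk1 hn
  refine ⟨hk x x' (gf x (d 0) (d 1) f) * hk x' x (gf x' (d' 0) (d' 1) f), hNZT K ε x x' hM d d' hd _ _ hg hg', ?_⟩
  rintro ⟨i, i'⟩
  have hi : x i ≠ 0 := hM.ne i
  have hi' : x' i' ≠ 0 := hM.ne' i'
  have r1 := hSPR K ε x x' hM d d' hd i i' (hKAP K ε x' x hM' hu' d' d hd' i') m _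
    (hFGE ℂ K ε x (d 0) (d 1) hS hM.ne m f hb hk1 i)
  have r2 := hSPR K ε x' x hM' d' d hd' i' i (hKAP K ε x x' hM hu d d' hd i) m _
    (hFGE ℂ K ε x' (d' 0) (d' 1) hS' hM'.ne m f hb hk1 i')
  rw [← ST_chartSwap] at r2
  have r3 := (hRGM K (chart (seg x x') (i, i')) 3).1 m m _ _ r1 r2
  have e1 : seg x x' (0, 0) / seg x x' (i, i') = (x i)⁻¹ * (x' i')⁻¹ := by
    simp only [seg, hM.one, hM.one', mul_one, one_div, mul_inv]
  have e2 : (seg x x' (0, 0) / seg x x' (i, i')) ^ 7 • (hk x x' (gf x (d 0) (d 1) f) * hk x' x (gf x' (d' 0) (d' 1) f)) =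
      (x' i') ^ m • hk x x' (C ((x i)⁻¹ ^ (7 + m)) * gf x (d 0) (d 1) f) *
        (x i) ^ m • hk x' x (C ((x' i')⁻¹ ^ (7 + m)) * gf x' (d' 0) (d' 1) f) := by
    have hC : ∀ (y y' : Fin 5 → K) (c : K) (g : MvPolynomial (Fin 2) K), hk y y' (C c * g) = c • hk y y' g := by
      intro y y' c g
      rw [← MvPolynomial.smul_eq_C_mul, map_smul]
    rw [hC, hC, e1, smul_smul, smul_smul, smul_mul_smul_comm]
    congr 1
    have ha : (x i) ^ m * (x i)⁻¹ ^ m = 1 := by rw [← mul_pow, mul_inv_cancel₀ hi, one_pow]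
    have hb' : (x' i') ^ m * (x' i')⁻¹ ^ m = 1 := by rw [← mul_pow, mul_inv_cancel₀ hi', one_pow]
    have h5 : x' i' ^ m * (x i)⁻¹ ^ (7 + m) * (x i ^ m * (x' i')⁻¹ ^ (7 + m)) =
        (x i)⁻¹ ^ 7 * (x' i')⁻¹ ^ 7 * ((x i ^ m * (x i)⁻¹ ^ m) * (x' i' ^ m * (x' i')⁻¹ ^ m)) := by ring
    rw [h5, ha, hb', mul_one, mul_one, mul_pow]
  rw [e2]
  exact r3

/-- **The final assembly** of the parts S, T and E. -/
theorem ST_final (hDER : Stmt_T1DER) (hPSI : Stmt_T1PSI) (hADJ : Stmt_T1ADJ) (hKLD : Stmt_T1KLD) (hQIN : Stmt_T1QIN)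
    (hHOM : Stmt_T1HOM) (hSWP : Stmt_T1SWP) (hFGE : Stmt_T3FGE) (hGNZ : Stmt_T3GNZ) (hKAP : Stmt_T3KAP) (hRGM : Stmt_T3RGM)
    (hSPR : Stmt_T3SPR) (hNZT : Stmt_T3NZT) (hREI : Stmt_T3REI) (hT2 : CXT.Stmt_T2) (hE : Stmt_E') (hS : Stmt_S) : Statement := by
  obtain ⟨ε, hε, K, _, _, x, x', hM, hP, htr, hu, hu'⟩ := hS
  obtain ⟨d, d', hd⟩ := hDER K ε x x' hM
  let e : Fin (24 + 1) ≃ Fin 5 × Fin 5 := (finCongr (by norm_num)).trans (finProdFinEquiv (m := 5) (n := 5)).symm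
  have he : e 0 = (0, 0) := by
    decide
  obtain ⟨h1, h2, h3⟩ := hREI K (Fin 5 × Fin 5) (Fin (24 + 1)) e (seg x x')
  refine ⟨K, _, _, 24, seg x x' ∘ e, h1 hP, htr, ?_, ?_⟩
  · rw [h3, he]
    intro c
    refine ⟨(4 * c + 1) + (4 * c + 1), 7, by norm_num, by omega, ?_⟩
    exact ST_exist hE hFGE hGNZ hKAP hRGM hSPR hNZT hε hM hd hu hu' _
  · intro m hm
    rw [h2, he]
    exact ST_vanish hT2 hADJ hKLD hQIN hPSI hHOM hSWP hε hM hd hm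

end Pool.CX
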