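import Mathlib

/-!
# THEOREM CX (MP_bf99ce_ag): the definitions of the final statement

Smooth integral projective varieties over `ℂ` given by homogeneous coordinates in their function field, and the global sections of
the twisted symmetric powers `S^m Ω^q (j)`, read in the function field.
-/

set_option autoImplicit false

noncomputable section

namespace Pool.CX

/-- The affine coordinate ring `ℂ[t_j / t_i : j]` of the chart `t_i ≠ 0` of the integral closed subscheme of projective space whose
generic point has the homogeneous coordinates `t`. -/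
def chart {K : Type} [Field K] [Algebra ℂ K] {ι : Type} (t : ι → K) (i : ι) : Subalgebra ℂ K :=
  Algebra.adjoin ℂ (Set.range fun j => t j / t i)

/-- `t` is the family of homogeneous coordinates of the generic point of a smooth integral closed subscheme `X` of projective space
over `ℂ` which is contained in no coordinate hyperplane, and `K` is the function field of `X`: the coordinate ring of every chart
is smooth over `ℂ` and has `K` as its field of fractions. -/
structure ProjManifold {K : Type} [Field K] [Algebra ℂ K] {ι : Type} (t : ι → K) : Prop where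
  ne : ∀ i, t i ≠ 0
  frac : ∀ i, ∀ z : K, ∃ a b : chart t i, (b : K) ≠ 0 ∧ z = a / b
  smooth : ∀ i, Algebra.Smooth ℂ (chart t i)

/-- The product of the `m` elements `w_j1 ∧ … ∧ w_jq` in the symmetric algebra of the exterior algebra of `W`. (The symmetric power
`S^m Λ^q W` is a subspace of this algebra, spanned by these products.) -/
def mono (K : Type) {W : Type} [Field K] [AddCommGroup W] [Module K W] {q m : ℕ} (w : Fin m → Fin q → W) :
    SymmetricAlgebra K (ExteriorAlgebra K W) :=
  ∏ j, SymmetricAlgebra.ι K (ExteriorAlgebra K W) (ExteriorAlgebra.ιMulti K q (w j))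

/-- `τ` is a sum of terms `c (da_11 ∧ … ∧ da_1q) … (da_m1 ∧ … ∧ da_mq)` with `c` and all `a_ji` in the subring `A` of `K`, in other
words an element of the image of `S^m Ω^q_{A/ℂ}` in `S^m Ω^q_{K/ℂ}`. -/
def Reg {K : Type} [Field K] [Algebra ℂ K] (A : Subalgebra ℂ K) (q m : ℕ)
    (τ : SymmetricAlgebra K (ExteriorAlgebra K (Ω[K⁄ℂ]))) : Prop :=
  ∃ (N : ℕ) (c : Fin N → A) (a : Fin N → Fin m → Fin q → A),
    τ = ∑ n, (c n : K) • mono K (fun j i => KaehlerDifferential.D ℂ K (a n j i : K))

/-- `S^m Ω^q_X (j)` has a nonzero global section, `X` the variety with the homogeneous coordinates `t`: there is a nonzero `τ` in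
`S^m Ω^q_{K/ℂ}` such that `(t_o / t_i)^j τ` comes from `S^m Ω^q` of the `i`-th chart for every `i`. (The twist is by the `j`-th
multiple of the hyperplane `t_o = 0`.) -/
def HasSection {K : Type} [Field K] [Algebra ℂ K] {ι : Type} (t : ι → K) (o : ι) (q m j : ℕ) : Prop :=
  ∃ τ : SymmetricAlgebra K (ExteriorAlgebra K (Ω[K⁄ℂ])), τ ≠ 0 ∧ ∀ i, Reg (chart t i) q m ((t o / t i) ^ j • τ)

/-- `Ω^q_X` is pseudoeffective, `X` the variety with the homogeneous coordinates `t`: for every `c` there are `i, j ≥ 1` with
`i > c j` such that `S^i Ω^q_X (j)` has a nonzero section. -/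
def Pseudoeffective {K : Type} [Field K] [Algebra ℂ K] {ι : Type} (t : ι → K) (o : ι) (q : ℕ) : Prop :=
  ∀ c : ℕ, ∃ i j : ℕ, 1 ≤ j ∧ c * j < i ∧ HasSection t o q i j

/-- The final statement. -/
def Statement : Prop :=
  ∃ (K : Type) (_ : Field K) (_ : Algebra ℂ K) (N : ℕ) (t : Fin (N + 1) → K),
    ProjManifold t ∧ Algebra.trdeg ℂ K = 4 ∧ Pseudoeffective t 0 3 ∧ ∀ m : ℕ, 1 ≤ m → ¬ HasSection t 0 3 m 0

end Pool.CX
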