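import Pool.Agent.Work.MP_bf99ce_cx.B_V1CUR
import Pool.Agent.Work.MP_bf99ce_cx.B_V1COP
import Pool.Agent.Work.MP_bf99ce_cx.B_V1EUL
import Pool.Agent.Work.MP_bf99ce_cx.B_V1DEG
import Pool.Agent.Work.MP_bf99ce_cx.B_V1HOM
import Pool.Agent.Work.MP_bf99ce_cx.B_V1PSI
import Pool.Agent.Work.MP_bf99ce_cx.B_V1DIV
import Pool.Agent.Work.MP_bf99ce_cx.B_V1CNT
import Pool.Agent.Work.MP_bf99ce_cx.B_V1D1
import Pool.Agent.Work.MP_bf99ce_cx.B_V1D2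
import Pool.Agent.Work.MP_bf99ce_cx.B_V1D3
import Pool.Agent.Work.MP_bf99ce_cx.B_V1D4
import Pool.Agent.Work.MP_bf99ce_cx.B_V1CN2
import Pool.Agent.Work.MP_bf99ce_cx.B_V1SWP
import Pool.Agent.Work.MP_bf99ce_cx.B_V1EXT
import Pool.Agent.Work.MP_bf99ce_cx.B_V1RED
import Pool.Agent.Work.MP_bf99ce_cx.B_V1PDV
import Pool.Agent.Work.MP_bf99ce_cx.B_V1RHO
import Pool.Agent.Work.MP_bf99ce_cx.B_V1CAN
import Pool.Agent.Work.MP_bf99ce_cx.B_V1DSC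
import Pool.Agent.Work.MP_bf99ce_cx.B_V1KDV
import Pool.Agent.Work.MP_bf99ce_cx.B_V1B
import Pool.Agent.Work.MP_bf99ce_cx.B_V1ISO
import Pool.Agent.Work.MP_bf99ce_cx.B_V1WX
import Pool.Agent.Work.MP_bf99ce_cx.B_V1LIN
import Pool.Agent.Work.MP_bf99ce_cx.B_V1KH
import Pool.Agent.Work.MP_bf99ce_cx.B_V1C
import Pool.Agent.Work.MP_bf99ce_cx.B_V1PRI
import Pool.Agent.Work.MP_bf99ce_cx.B_V1M0
import Pool.Agent.Work.MP_bf99ce_cx.B_V1STP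
import Pool.Agent.Work.MP_bf99ce_cx.B_V1QUO
import Pool.Agent.Work.MP_bf99ce_cx.B_V1A
import Pool.Agent.Work.MP_bf99ce_cx.B_V1E1
import Pool.Agent.Work.MP_bf99ce_cx.B_V1E2
import Pool.Agent.Work.MP_bf99ce_cx.B_VCO

/-! # THEOREM CX, part V1: assembly -/

set_option autoImplicit false

namespace Pool.CX.V1

theorem aCUR : Stmt_V1CUR := p_V1CUR
theorem aCOP : Stmt_V1COP := p_V1COP aCUR
theorem aEUL : Stmt_V1EUL := p_V1EUL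
theorem aDEG : Stmt_V1DEG := p_V1DEG
theorem aHOM : Stmt_V1HOM := p_V1HOM
theorem aPSI : Stmt_V1PSI := p_V1PSI aEUL aDEG aHOM
theorem aDIV : Stmt_V1DIV := p_V1DIV aCUR aCOP
theorem aCNT : Stmt_V1CNT := p_V1CNT aCOP aPSI aDIV
theorem aD1 : Stmt_V1D1 := p_V1D1 aCUR aCOP
theorem aD2 : Stmt_V1D2 := p_V1D2 aCUR
theorem aD3 : Stmt_V1D3 := p_V1D3 aPSI
theorem aD4 : Stmt_V1D4 := p_V1D4 aCOP
theorem aCN2 : Stmt_V1CN2 := p_V1CN2 aCOP aPSI aDIV aCNT aD1 aD2 aD3 aD4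
theorem aSWP : Stmt_V1SWP := p_V1SWP aCUR aHOM
theorem aEXT : Stmt_V1EXT := p_V1EXT
theorem aRED : Stmt_V1RED := p_V1RED aEUL aHOM
theorem aPDV : Stmt_V1PDV := p_V1PDV aRED
theorem aRHO : Stmt_V1RHO := p_V1RHO aHOM aRED
theorem aCAN : Stmt_V1CAN := p_V1CAN
theorem aDSC : Stmt_V1DSC := p_V1DSC
theorem aKDV : Stmt_V1KDV := p_V1KDV aEXT aRED aPDV aRHO aCAN aDSC
theorem aISO : Stmt_V1ISO := p_V1ISO
theorem aWX : Stmt_V1WX := p_V1WX aISO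
theorem aLIN : Stmt_V1LIN := p_V1LIN
theorem aKH : Stmt_V1KH := p_V1KH aLIN
theorem aPRI : Stmt_V1PRI := p_V1PRI aLIN
theorem aM0 : Stmt_V1M0 := p_V1M0 aPRI
theorem aSTP : Stmt_V1STP := p_V1STP aCN2 aSWP aKDV
theorem aQUO : Stmt_V1QUO := p_V1QUO
theorem aE1 : Stmt_V1E1 := p_V1E1

/-- **V1b**, without hypotheses. -/
theorem v1b : Stmt_V1b := p_V1B aCNT aSWP aKDV

/-- **V1c**, without hypotheses. -/
theorem v1c : Stmt_V1c := p_V1C aWX aKH p_VCO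

/-- **V1a**, without hypotheses. -/
theorem v1a : Stmt_V1a := p_V1A aM0 aSTP aQUO v1c

/-- **END**, without hypotheses. -/
theorem vend : Stmt_END := p_V1E2 aDEG aE1

end Pool.CX.V1
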