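import Pool.Agent.Work.MP_bf99ce_cx.B_V2A
import Pool.Agent.Work.MP_bf99ce_cx.B_V2R
import Pool.Agent.Work.MP_bf99ce_cx.B_V2P
import Pool.Agent.Work.MP_bf99ce_cx.B_V2C

/-! # THEOREM CX, part V2 (deformation): assembly -/

set_option autoImplicit false

namespace Pool.CX

/-- **DEF (the deformation argument).** -/
theorem q_DEF : Stmt_DEF := p_DEF p_V2R p_V2P (p_V2C p_V2P)

end Pool.CX
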