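import Pool.Agent.Work.MP_bf99ce_cx.V2
import Pool.Agent.Work.MP_bf99ce_cx.V1All
import Pool.Agent.Work.MP_bf99ce_cx.B_DSF
import Pool.Agent.Work.MP_bf99ce_cx.B_DDF
import Pool.Agent.Work.MP_bf99ce_cx.B_DQ1
import Pool.Agent.Work.MP_bf99ce_cx.B_DQ2
import Pool.Agent.Work.MP_bf99ce_cx.B_DQ3
import Pool.Agent.Work.MP_bf99ce_cx.B_DQ4
import Pool.Agent.Work.MP_bf99ce_cx.B_DQ5
import Pool.Agent.Work.MP_bf99ce_cx.B_DQ6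
import Pool.Agent.Work.MP_bf99ce_cx.B_DQ7
import Pool.Agent.Work.MP_bf99ce_cx.B_DQ8
import Pool.Agent.Work.MP_bf99ce_cx.B_DQV
import Pool.Agent.Work.MP_bf99ce_cx.B_BQ
import Pool.Agent.Work.MP_bf99ce_cx.B_BIH
import Pool.Agent.Work.MP_bf99ce_cx.B_GAU
import Pool.Agent.Work.MP_bf99ce_cx.B_PHB
import Pool.Agent.Work.MP_bf99ce_cx.B_PHF
import Pool.Agent.Work.MP_bf99ce_cx.B_FL

/-! # THEOREM CX, part V: the assembly -/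

set_option autoImplicit false

namespace Pool.CX

theorem hDQ5 : Stmt_DQ5 := p_DQ5 (p_DQ2 p_DQ1 p_DQ3) p_DQV p_DQ6

theorem hDQ8 : Stmt_DQ8 := p_DQ8 p_DQ1 p_DQ3

theorem hSF : Stmt_SF := p_DSF p_DQ1 p_DQ4 hDQ5 p_DQ7 hDQ8 V1.v1a

theorem hDF : Stmt_DF := p_DDF p_DQ1 p_DQ3 p_DQ4 hDQ5 p_DQ7 hDQ8 p_BQ p_BIH V1.v1b V1.v1c V1.vend

/-- **Theorem V.** -/
theorem vmain : Stmt_V := q_DEF hSF hDF (p_FL p_PHF p_PHB p_GAU)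

end Pool.CX
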